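import Pool.Agent.Work.MP_8a5de9_co_B.Main

namespace Pool.Agent.Work.MP_8a5de9_co_B.Cor

open SC

/-- A single cell in an arrangement of `n` bounded convex polyhedral patches (for instance
simplices) in general position in `ℝ^d` has `O(n^(d-1) α(n))` faces on its boundary; `α(n)` is
the least `k` with `n ≤ ack k k`. -/
theorem simplices_alpha (d m : ℕ) (hd : 3 ≤ d) : ∃ C : ℕ, ∀ (n : ℕ)
    (g : Fin n → Option (Fin m) → EuclideanSpace ℝ (Fin d) →ᵃ[ℝ] ℝ), GenPos g →
    (∀ i, Bornology.IsBounded (patch g i)) → ∀ p, (∀ i, p ∉ patch g i) →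
      (face g '' frontier (cell g p)).encard ≤
        (C * n ^ (d - 1) * (sInf {k | n ≤ ack k k} + 1) : ℕ) :=
  single_cell_alpha d m hd

end Pool.Agent.Work.MP_8a5de9_co_B.Cor
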