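import Mathlib

-- merged part: Pool.Agent.Work.MP_8a5de9_co_B.Plane
section
-- part: Sg
section
/-!
# Segments and anchors in the plane: definitions, regions

Segments `seg j`, a finite set `An` of anchors (all endpoints, and further points).  From every
anchor a vertical wall goes up and down to the next segment.  `O S An` is the complement of the
segments and the walls; its components, the regions `Reg`, are open and convex.
-/

open Set Filter Topology

namespace SA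

/-- Points of the plane. -/
abbrev Pt := ℝ × ℝ

/-- The component of `p` in `X`. -/
abbrev cc {α : Type} [TopologicalSpace α] (X : Set α) (p : α) : Set α := connectedComponentIn X p

/-- Non-vertical segments. -/
structure Sg (J : Type) where
  sl : J → ℝ
  ic : J → ℝ
  lo : J → ℝ
  hi : J → ℝ

namespace Sg

variable {J : Type} (π : Sg J)

/-- The height of the line number `j`. -/
def τ (j : J) (x : ℝ) : ℝ := π.sl j * x + π.ic j

/-- The point of the line number `j` with abscissa `x`. -/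
def pt (j : J) (x : ℝ) : Pt := (x, π.τ j x)

/-- The segment number `j`. -/
def seg (j : J) : Set Pt := {q | π.lo j ≤ q.1 ∧ q.1 ≤ π.hi j ∧ q.2 = π.τ j q.1}

/-- The free space. -/
def Fr (S : Finset J) : Set Pt := {q | ∀ j ∈ S, q ∉ π.seg j}

/-- The free space with the anchors. -/
def XA (S : Finset J) (An : Finset Pt) : Set Pt := π.Fr S ∪ (An : Set Pt)

/-- General position. -/
structure GP (S : Finset J) (An : Finset Pt) : Prop where
  lt : ∀ j ∈ S, π.lo j < π.hi j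
  enL : ∀ j ∈ S, π.pt j (π.lo j) ∈ An
  enR : ∀ j ∈ S, π.pt j (π.hi j) ∈ An
  inj : ∀ e ∈ An, ∀ e' ∈ An, e.1 = e'.1 → e = e'
  one : ∀ e ∈ An, ∀ j ∈ S, ∀ j' ∈ S, e ∈ π.seg j → e ∈ π.seg j' → j = j'
  three : ∀ q, ∀ j ∈ S, ∀ j' ∈ S, ∀ k ∈ S, q ∈ π.seg j → q ∈ π.seg j' → q ∈ π.seg k →
    j = j' ∨ j = k ∨ j' = k

/-- The complement of the segments and the walls. -/
def O (S : Finset J) (An : Finset Pt) : Set Pt :=
  {q | q ∈ π.Fr S ∧ ∀ e ∈ An, q.1 = e.1 →
    ∃ j ∈ S, e ∉ π.seg j ∧ π.lo j ≤ q.1 ∧ q.1 ≤ π.hi j ∧ π.τ j q.1 ∈ uIcc q.2 e.2}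

/-- `p` sees `q`. -/
def Rel (S : Finset J) (An : Finset Pt) (p q : Pt) : Prop := segment ℝ p q ⊆ π.O S An

/-- The region of `p`. -/
def Reg (S : Finset J) (An : Finset Pt) (p : Pt) : Set Pt := {q | π.Rel S An p q}

/-- Two anchors in the closure of one region. -/
def Adj (S : Finset J) (An : Finset Pt) (e e' : Pt) : Prop :=
  e ∈ An ∧ e' ∈ An ∧ ∃ p ∈ π.O S An, e ∈ closure (π.Reg S An p) ∧ e' ∈ closure (π.Reg S An p)

open Classical in
/-- The edges between anchors. -/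
noncomputable def Ed (S : Finset J) (An : Finset Pt) : Finset (Pt × Pt) :=
  (An ×ˢ An).filter fun a => a.1.1 < a.2.1 ∧ π.Adj S An a.1 a.2

/-- The regions with an anchor in their closure. -/
def RegA (S : Finset J) (An : Finset Pt) : Set (Set Pt) :=
  {Q | ∃ p ∈ π.O S An, Q = π.Reg S An p ∧ ∃ e ∈ An, e ∈ closure Q}

open Classical in
/-- The endpoints. -/
noncomputable def En (S : Finset J) : Finset Pt :=
  (S.image fun j => π.pt j (π.lo j)) ∪ S.image fun j => π.pt j (π.hi j)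

open Classical in
/-- The segments of `A` that properly cross the segment from `e` to `e'`. -/
noncomputable def PC (A : Finset J) (e e' : Pt) : Finset J :=
  A.filter fun j => e.2 ≠ π.τ j e.1 ∧
    ∃ w ∈ openSegment ℝ e e', w ∈ π.seg j ∧ π.lo j < w.1 ∧ w.1 < π.hi j

/-- `j` and `j'` cross, and the wedge above the crossing lies in `Z` near the crossing. -/
def Wd (Z : Set Pt) (j j' : J) : Prop :=
  π.sl j' < π.sl j ∧ ∃ x, π.lo j < x ∧ x < π.hi j ∧ π.lo j' < x ∧ x < π.hi j' ∧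
    π.τ j x = π.τ j' x ∧ ∀ᶠ q in 𝓝 (π.pt j x), π.τ j q.1 < q.2 → π.τ j' q.1 < q.2 → q ∈ Z

variable {π} {S S' A : Finset J} {An An' : Finset Pt} {p q r e e' : Pt} {j j' : J}

theorem cont_τ (j : J) : Continuous (π.τ j) := by
  unfold τ; fun_prop

theorem cont_pt (j : J) : Continuous (π.pt j) := continuous_id.prodMk (cont_τ j)

theorem eq_pt (h : q ∈ π.seg j) : q = π.pt j q.1 := Prod.ext rfl h.2.2

theorem pt_mem {x : ℝ} : π.pt j x ∈ π.seg j ↔ π.lo j ≤ x ∧ x ≤ π.hi j := by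
  simp [seg, pt]

theorem mem_En : e ∈ π.En S ↔ ∃ j ∈ S, e = π.pt j (π.lo j) ∨ e = π.pt j (π.hi j) := by
  simp only [En, Finset.mem_union, Finset.mem_image]
  constructor
  · rintro (⟨j, hj, rfl⟩ | ⟨j, hj, rfl⟩)
    exacts [⟨j, hj, Or.inl rfl⟩, ⟨j, hj, Or.inr rfl⟩]
  · rintro ⟨j, hj, rfl | rfl⟩
    exacts [Or.inl ⟨j, hj, rfl⟩, Or.inr ⟨j, hj, rfl⟩]

theorem card_En (S : Finset J) : (π.En S).card ≤ 2 * S.card := by
  classical
  unfold En
  refine (Finset.card_union_le _ _).trans ?_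
  rw [two_mul]
  exact add_le_add Finset.card_image_le Finset.card_image_le

theorem En_mono (h : S' ⊆ S) : π.En S' ⊆ π.En S := fun _ he => by
  obtain ⟨j, hj, h'⟩ := mem_En.1 he
  exact mem_En.2 ⟨j, h hj, h'⟩

theorem GP.En_sub (gp : π.GP S An) : π.En S ⊆ An := fun _ he => by
  obtain ⟨j, hj, rfl | rfl⟩ := mem_En.1 he
  exacts [gp.enL j hj, gp.enR j hj]

theorem GP.sub (gp : π.GP S An) (hS : S' ⊆ S) (hA : An' ⊆ An) (hE : π.En S' ⊆ An') :
    π.GP S' An' where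
  lt j hj := gp.lt j (hS hj)
  enL j hj := hE (mem_En.2 ⟨j, hj, Or.inl rfl⟩)
  enR j hj := hE (mem_En.2 ⟨j, hj, Or.inr rfl⟩)
  inj e he e' he' := gp.inj e (hA he) e' (hA he')
  one e he j hj j' hj' := gp.one e (hA he) j (hS hj) j' (hS hj')
  three q j hj j' hj' k hk := gp.three q j (hS hj) j' (hS hj') k (hS hk)

/-- Different segments with a common point have different slopes. -/
theorem GP.slope (gp : π.GP S An) (hj : j ∈ S) (hj' : j' ∈ S) (hne : j ≠ j') (h : q ∈ π.seg j)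
    (h' : q ∈ π.seg j') : π.sl j ≠ π.sl j' := by
  intro hs
  have e : ∀ x, π.τ j x = π.τ j' x := fun x => by
    have := h.2.2.symm.trans h'.2.2
    simp only [τ, hs] at this ⊢
    linarith
  rcases le_total (π.lo j) (π.lo j') with h1 | h1
  · exact hne (gp.one _ (gp.enL j' hj') j hj j' hj' ⟨h1, h'.1.trans h.2.1, (e _).symm⟩
      (pt_mem.2 ⟨le_rfl, (gp.lt j' hj').le⟩))
  · exact hne (gp.one _ (gp.enL j hj) j hj j' hj' (pt_mem.2 ⟨le_rfl, (gp.lt j hj).le⟩)
      ⟨h1, h.1.trans h'.2.1, e _⟩)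

/-- A point of a segment that is not an anchor is an interior point. -/
theorem GP.inner (gp : π.GP S An) (hj : j ∈ S) (h : q ∈ π.seg j) (hn : q ∉ An) :
    π.lo j < q.1 ∧ q.1 < π.hi j := by
  refine ⟨h.1.lt_of_ne fun e => hn ?_, h.2.1.lt_of_ne fun e => hn ?_⟩
  · rw [eq_pt h, ← e]
    exact gp.enL j hj
  · rw [eq_pt h, e]
    exact gp.enR j hj

theorem mem_Ed {a : Pt × Pt} : a ∈ π.Ed S An ↔ a.1.1 < a.2.1 ∧ π.Adj S An a.1 a.2 := by
  simp only [Ed, Finset.mem_filter, Finset.mem_product]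
  exact ⟨fun h => h.2, fun h => ⟨⟨h.2.1, h.2.2.1⟩, h⟩⟩

theorem mem_PC : j ∈ π.PC A e e' ↔ j ∈ A ∧ e.2 ≠ π.τ j e.1 ∧
    ∃ w ∈ openSegment ℝ e e', w ∈ π.seg j ∧ π.lo j < w.1 ∧ w.1 < π.hi j := by
  simp only [PC, Finset.mem_filter]

theorem PC_sub (A : Finset J) (e e' : Pt) : π.PC A e e' ⊆ A := fun _ h => (mem_PC.1 h).1

theorem PC_symm (A : Finset J) (e e' : Pt) : π.PC A e e' = π.PC A e' e := by
  have key : ∀ e e' : Pt, π.PC A e e' ⊆ π.PC A e' e := by
    intro e e' j hj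
    obtain ⟨h1, h2, w, hw, h3⟩ := mem_PC.1 hj
    refine mem_PC.2 ⟨h1, fun h4 => h2 ?_, w, by rwa [openSegment_symm], h3⟩
    obtain ⟨a, b, ha, hb, hab, rfl⟩ := hw
    have h5 := h3.1.2.2
    simp only [Prod.snd_add, Prod.smul_snd, Prod.fst_add, Prod.smul_fst, smul_eq_mul, τ] at h4 h5 ⊢
    have h6 : b = 1 - a := by linarith
    subst h6
    refine mul_left_cancel₀ ha.ne' ?_
    linear_combination h5 - (1 - a) * h4
  exact Finset.Subset.antisymm (key e e') (key e' e)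

theorem Adj.symm (h : π.Adj S An e e') : π.Adj S An e' e := by
  obtain ⟨h1, h2, p, hp, h3, h4⟩ := h
  exact ⟨h2, h1, p, hp, h4, h3⟩

theorem Fr_mono (h : S' ⊆ S) : π.Fr S ⊆ π.Fr S' := fun _ hq j hj => hq j (h hj)

theorem XA_mono (h : S' ⊆ S) (h' : An ⊆ An') : π.XA S An ⊆ π.XA S' An' :=
  union_subset_union (Fr_mono h) (Finset.coe_subset.2 h')

theorem isClosed_seg (j : J) : IsClosed (π.seg j) :=
  (isClosed_le continuous_const continuous_fst).inter
    ((isClosed_le continuous_fst continuous_const).inter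
      (isClosed_eq continuous_snd ((cont_τ j).comp continuous_fst)))

theorem convex_seg (j : J) : Convex ℝ (π.seg j) := by
  intro p hp q hq a b ha hb hab
  have h1 := hp.2.2
  have h2 := hq.2.2
  have h3 : b = 1 - a := by linarith
  subst h3
  simp only [seg, mem_ofPred_eq, Prod.snd_add, Prod.smul_snd, Prod.fst_add, Prod.smul_fst,
    smul_eq_mul, τ] at h1 h2 ⊢
  refine ⟨by nlinarith [hp.1, hq.1], by nlinarith [hp.2.1, hq.2.1], ?_⟩
  rw [h1, h2]
  ring

theorem isOpen_Fr (S : Finset J) : IsOpen (π.Fr S) := by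
  have : π.Fr S = ⋂ j ∈ S, (π.seg j)ᶜ := by ext x; simp [Fr]
  rw [this]
  exact isOpen_biInter_finset fun j _ => (isClosed_seg j).isOpen_compl

theorem O_sub (S : Finset J) (An : Finset Pt) : π.O S An ⊆ π.Fr S := fun _ h => h.1

theorem notMem_O (he : e ∈ An) : e ∉ π.O S An := by
  intro h
  obtain ⟨j, -, h1, h2, h3, h4⟩ := h.2 e he rfl
  rw [uIcc_self, mem_singleton_iff] at h4
  exact h1 ⟨h2, h3, h4.symm⟩

theorem isOpen_O (S : Finset J) (An : Finset Pt) : IsOpen (π.O S An) := by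
  refine isOpen_iff_mem_nhds.2 fun q hq => Eventually.and ((isOpen_Fr S).mem_nhds hq.1) ?_
  refine (eventually_all_finset An).2 fun e he => ?_
  by_cases h2 : q.1 = e.1
  · obtain ⟨j', hj', hne, h0, h3, h4⟩ := hq.2 e he h2
    have h5 : q.2 ≠ π.τ j' q.1 := fun e => hq.1 j' hj' ⟨h0, h3, e⟩
    have h6 : ∀ᶠ q' : ℝ × ℝ in 𝓝 q, π.τ j' q.1 ∈ uIcc q'.2 e.2 := by
      rcases mem_uIcc.1 h4 with h7 | h7
      · filter_upwards [continuous_snd.continuousAt.eventually_lt continuousAt_const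
          (lt_of_le_of_ne h7.1 h5)] with q' h8
        exact mem_uIcc.2 (Or.inl ⟨h8.le, h7.2⟩)
      · filter_upwards [continuousAt_const.eventually_lt continuous_snd.continuousAt
          (lt_of_le_of_ne h7.2 h5.symm)] with q' h8
        exact mem_uIcc.2 (Or.inr ⟨h7.1, h8.le⟩)
    filter_upwards [h6] with q' h8 h9
    rw [h9, ← h2]
    exact ⟨j', hj', hne, h0, h3, h8⟩
  · filter_upwards [continuous_fst.continuousAt.eventually_ne h2] with q' h7 h9
    exact absurd h9 h7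

theorem Rel.refl (h : p ∈ π.O S An) : π.Rel S An p p := by
  simpa [Rel] using h

theorem Rel.symm (h : π.Rel S An p q) : π.Rel S An q p := by
  rwa [Rel, segment_symm]

theorem Rel.left (h : π.Rel S An p q) : p ∈ π.O S An := h (left_mem_segment _ _ _)

theorem Rel.right (h : π.Rel S An p q) : q ∈ π.O S An := h (right_mem_segment _ _ _)

theorem Reg_sub (S : Finset J) (An : Finset Pt) (p : Pt) : π.Reg S An p ⊆ π.O S An :=
  fun _ h => Rel.right h

theorem mem_Reg_self (h : p ∈ π.O S An) : p ∈ π.Reg S An p := Rel.refl h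

theorem Sg_line (x v : ℝ × ℝ) {a b t : ℝ} (h : t ∈ uIcc a b) :
    x + t • v ∈ segment ℝ (x + a • v) (x + b • v) := by
  rw [← segment_eq_uIcc] at h
  obtain ⟨u, w, hu, hw, huw, rfl⟩ := h
  refine ⟨u, w, hu, hw, huw, ?_⟩
  have : u = 1 - w := by linarith
  subst this
  simp only [smul_eq_mul]
  module

/-- Barycentric coordinates. -/
theorem Sg_bary {p q r : ℝ × ℝ}
    (hD : (q.1 - p.1) * (r.2 - p.2) - (q.2 - p.2) * (r.1 - p.1) ≠ 0) :
    ∃ A B C A' B' C' : ℝ × ℝ → ℝ, Continuous A ∧ Continuous B ∧ Continuous C ∧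
      (∀ u, A u + B u + C u = 1) ∧ (∀ u, A u • p + B u • q + C u • r = u) ∧
      (∀ u v (s : ℝ), A (u + s • v) = A u + s * A' v ∧ B (u + s • v) = B u + s * B' v ∧
        C (u + s • v) = C u + s * C' v) ∧ (∀ v, B' (-v) = -B' v) ∧
      ∀ u ∈ segment ℝ p r, 0 ≤ A u ∧ B u = 0 ∧ 0 ≤ C u := by
  set D := (q.1 - p.1) * (r.2 - p.2) - (q.2 - p.2) * (r.1 - p.1) with hDD
  refine ⟨fun u => 1 - ((u.1 - p.1) * (r.2 - p.2) - (u.2 - p.2) * (r.1 - p.1)) / D -
      ((q.1 - p.1) * (u.2 - p.2) - (q.2 - p.2) * (u.1 - p.1)) / D,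
    fun u => ((u.1 - p.1) * (r.2 - p.2) - (u.2 - p.2) * (r.1 - p.1)) / D,
    fun u => ((q.1 - p.1) * (u.2 - p.2) - (q.2 - p.2) * (u.1 - p.1)) / D,
    fun v => -(v.1 * (r.2 - p.2) - v.2 * (r.1 - p.1)) / D -
      ((q.1 - p.1) * v.2 - (q.2 - p.2) * v.1) / D,
    fun v => (v.1 * (r.2 - p.2) - v.2 * (r.1 - p.1)) / D,
    fun v => ((q.1 - p.1) * v.2 - (q.2 - p.2) * v.1) / D,
    by fun_prop, by fun_prop, by fun_prop, fun u => by ring, fun u => ?_, fun u v s => ?_,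
    fun v => ?_, ?_⟩
  · refine Prod.ext ?_ ?_
    · simp only [Prod.fst_add, Prod.smul_fst, smul_eq_mul]
      field_simp
      rw [hDD]
      ring
    · simp only [Prod.snd_add, Prod.smul_snd, smul_eq_mul]
      field_simp
      rw [hDD]
      ring
  · simp only [Prod.fst_add, Prod.smul_fst, Prod.snd_add, Prod.smul_snd, smul_eq_mul]
    exact ⟨by ring, by ring, by ring⟩
  · simp only [Prod.fst_neg, Prod.snd_neg]
    ring
  · rintro _ ⟨a, b, ha, hb, hab, rfl⟩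
    have : a = 1 - b := by linarith
    subst this
    simp only [Prod.fst_add, Prod.smul_fst, Prod.snd_add, Prod.smul_snd, smul_eq_mul]
    have e1 : ((1 - b) * p.1 + b * r.1 - p.1) * (r.2 - p.2) -
      ((1 - b) * p.2 + b * r.2 - p.2) * (r.1 - p.1) = 0 := by ring
    have e2 : (q.1 - p.1) * ((1 - b) * p.2 + b * r.2 - p.2) -
      (q.2 - p.2) * ((1 - b) * p.1 + b * r.1 - p.1) = b * D := by rw [hDD]; ring
    rw [e1, e2, zero_div, mul_div_cancel_right₀ _ hD]
    exact ⟨by linarith, rfl, hb⟩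

theorem Sg_exit {a c α γ : ℝ} (ha : 0 ≤ a) (hc : 0 ≤ c) (h : α < 0 ∨ γ < 0) :
    ∃ s, 0 ≤ s ∧ 0 ≤ a + s * α ∧ 0 ≤ c + s * γ ∧ (a + s * α = 0 ∨ c + s * γ = 0) := by
  have key : ∀ {a c α γ : ℝ}, 0 ≤ a → 0 ≤ c → α < 0 → (γ < 0 → a * (-γ) ≤ c * (-α)) →
      ∃ s, 0 ≤ s ∧ a + s * α = 0 ∧ 0 ≤ c + s * γ := by
    intro a c α γ ha hc h1 h2
    have h3 : 0 < -α := by linarith
    have h4 : a / -α * -α = a := div_mul_cancel₀ _ h3.ne'
    have h5 : 0 ≤ a / -α := div_nonneg ha h3.le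
    refine ⟨a / -α, h5, by linarith, ?_⟩
    rcases lt_or_ge γ 0 with h6 | h6
    · have := h2 h6
      by_contra hn
      nlinarith
    · nlinarith
  by_cases h1 : α < 0 ∧ (γ < 0 → a * (-γ) ≤ c * (-α))
  · obtain ⟨s, s1, s2, s3⟩ := key ha hc h1.1 h1.2
    exact ⟨s, s1, s2.ge, s3, Or.inl s2⟩
  · have h2 : γ < 0 := by
      by_contra h3
      exact h1 ⟨h.resolve_right h3, fun h4 => absurd h4 h3⟩
    obtain ⟨s, s1, s2, s3⟩ := key hc ha h2 fun h3 => by
      by_contra h4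
      exact h1 ⟨h3, fun _ => (not_le.1 h4).le⟩
    exact ⟨s, s1, s3, s2.ge, Or.inr s2⟩

theorem Rel.trans (gp : π.GP S An) (h : π.Rel S An p q) (h' : π.Rel S An q r) :
    π.Rel S An p r := by
  by_cases hD : (q.1 - p.1) * (r.2 - p.2) - (q.2 - p.2) * (r.1 - p.1) = 0
  · by_cases hpr : r = p
    · rw [hpr]
      exact Rel.refl h.left
    have hτ : ∃ τ : ℝ, q = p + τ • (r - p) := by
      by_cases h1 : r.1 - p.1 = 0
      · have h2 : r.2 - p.2 ≠ 0 := fun h2 => hpr (Prod.ext (by linarith) (by linarith))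
        refine ⟨(q.2 - p.2) / (r.2 - p.2), Prod.ext ?_ ?_⟩
        · rw [h1, mul_zero, sub_zero, mul_eq_zero] at hD
          simp only [Prod.fst_add, Prod.smul_fst, Prod.fst_sub, smul_eq_mul, h1]
          linarith [hD.resolve_right h2]
        · simp only [Prod.snd_add, Prod.smul_snd, Prod.snd_sub, smul_eq_mul]
          field_simp
          ring
      · refine ⟨(q.1 - p.1) / (r.1 - p.1), Prod.ext ?_ ?_⟩
        · simp only [Prod.fst_add, Prod.smul_fst, Prod.fst_sub, smul_eq_mul]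
          field_simp
          ring
        · simp only [Prod.snd_add, Prod.smul_snd, Prod.snd_sub, smul_eq_mul]
          field_simp
          linarith
    obtain ⟨τ, hq⟩ := hτ
    rintro _ ⟨a, b, ha, hb, hab, rfl⟩
    have e : a • p + b • r = p + b • (r - p) := by
      have : a = 1 - b := by linarith
      subst this
      module
    rw [e]
    rcases uIcc_subset_uIcc_union_uIcc (b := τ)
      (mem_uIcc.2 (Or.inl ⟨hb, by linarith⟩) : b ∈ uIcc (0 : ℝ) 1) with u | u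
    · refine h ?_
      simpa [← hq] using Sg_line p (r - p) u
    · refine h' ?_
      simpa [← hq] using Sg_line p (r - p) u
  obtain ⟨A, B, C, A', B', C', cA, cB, cC, hsum, hrep, haff, hneg, hpr⟩ := Sg_bary hD
  set Δ : Set (ℝ × ℝ) := {u | 0 ≤ A u ∧ 0 ≤ B u ∧ 0 ≤ C u} with hΔ
  have hside : ∀ u ∈ Δ, A u = 0 ∨ C u = 0 → u ∈ π.O S An := by
    rintro u ⟨u1, u2, u3⟩ (h0 | h0)
    · refine h' ⟨B u, C u, u2, u3, by linarith [hsum u], ?_⟩
      simpa [h0] using hrep u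
    · refine h ⟨A u, B u, u1, u2, by linarith [hsum u], ?_⟩
      simpa [h0] using hrep u
  have hvert : ∀ u ∈ Δ, ∃ y ∈ π.O S An, y.1 = u.1 ∧
      ∀ η ∈ uIcc y.2 u.2, (u.1, η) ∈ Δ ∧ B u ≤ B (u.1, η) := by
    have key : ∀ u ∈ Δ, ∀ σ : ℝ, σ * σ = 1 → 0 ≤ B' (0, σ) → ∃ y ∈ π.O S An, y.1 = u.1 ∧
        ∀ η ∈ uIcc y.2 u.2, (u.1, η) ∈ Δ ∧ B u ≤ B (u.1, η) := by
      rintro u ⟨u1, u2, u3⟩ σ hσ hB
      have e0 := haff u (0, σ) 1
      have e1 : A' (0, σ) + B' (0, σ) + C' (0, σ) = 0 := by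
        linarith [hsum (u + (1 : ℝ) • (0, σ)), hsum u, e0.1, e0.2.1, e0.2.2]
      have e2 : A' (0, σ) < 0 ∨ C' (0, σ) < 0 := by
        by_contra hc
        push Not at hc
        have a0 : A' (0, σ) = 0 := by linarith [hc.1, hc.2]
        have b0 : B' (0, σ) = 0 := by linarith [hc.1, hc.2]
        have c0 : C' (0, σ) = 0 := by linarith [hc.1, hc.2]
        have := hrep (u + (1 : ℝ) • (0, σ))
        rw [e0.1, e0.2.1, e0.2.2, a0, b0, c0] at this
        simp only [mul_zero, add_zero, hrep u] at this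
        have := congrArg Prod.snd this
        simp only [Prod.snd_add, Prod.smul_snd, smul_eq_mul] at this
        nlinarith
      obtain ⟨s, s0, s1, s2, s3⟩ := Sg_exit u1 u3 e2
      have e3 := haff u (0, σ) s
      refine ⟨u + s • (0, σ), hside _ ⟨e3.1 ▸ s1, by rw [e3.2.1]; positivity, e3.2.2 ▸ s2⟩
        (by rwa [e3.1, e3.2.2]), by simp, fun η hη => ?_⟩
      rw [← segment_eq_uIcc] at hη
      obtain ⟨a, b, ha, hb, hab, rfl⟩ := hη
      have e4 : (u.1, a • (u + s • (0, σ)).2 + b • u.2) = u + (a * s) • ((0, σ) : ℝ × ℝ) := by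
        refine Prod.ext (by simp) ?_
        simp only [Prod.snd_add, Prod.smul_snd, smul_eq_mul]
        linear_combination u.2 * hab
      have e5 := haff u (0, σ) (a * s)
      have e6 := mul_nonneg (mul_nonneg ha s0) hB
      rw [e4]
      refine ⟨⟨?_, ?_, ?_⟩, ?_⟩
      · rw [e5.1]; nlinarith
      · rw [e5.2.1]; linarith
      · rw [e5.2.2]; nlinarith
      · rw [e5.2.1]; linarith
    intro u hu
    rcases le_total 0 (B' (0, 1)) with h1 | h1
    · exact key u hu 1 (by norm_num) h1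
    · refine key u hu (-1) (by norm_num) ?_
      have := hneg (0, 1)
      simp only [Prod.neg_mk, neg_zero] at this
      linarith
  have hcomp : IsCompact Δ := by
    refine Metric.isCompact_of_isClosed_isBounded ((isClosed_le continuous_const cA).inter
      ((isClosed_le continuous_const cB).inter (isClosed_le continuous_const cC))) ?_
    refine (isBounded_iff_forall_norm_le).2 ⟨‖p‖ + ‖q‖ + ‖r‖, fun u ⟨u1, u2, u3⟩ => ?_⟩
    rw [← hrep u]
    refine norm_add₃_le.trans ?_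
    rw [norm_smul, norm_smul, norm_smul, Real.norm_of_nonneg u1, Real.norm_of_nonneg u2,
      Real.norm_of_nonneg u3]
    nlinarith [hsum u, norm_nonneg p, norm_nonneg q, norm_nonneg r]
  have hno : ∀ u ∈ Δ, ∀ j ∈ S, u ∉ π.seg j := by
    intro u₀ hu₀ j₀ hj₀ hs₀
    set K := Δ ∩ ⋃ j ∈ S, π.seg j with hK
    have hKc : IsCompact K := hcomp.inter_right
      (isClosed_biUnion_finset fun j _ => isClosed_seg j)
    obtain ⟨u₁, hu₁, hm₁⟩ := hKc.exists_isMaxOn ⟨u₀, hu₀, mem_biUnion hj₀ hs₀⟩ cB.continuousOn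
    obtain ⟨u, hu, hm⟩ := (hKc.inter_right
      (isClosed_le (continuous_const (y := B u₁)) cB)).exists_isMaxOn
      ⟨u₁, hu₁, le_refl (B u₁)⟩ continuous_fst.continuousOn
    have hend : ∀ v ∈ Δ, B u₁ ≤ B v → u.1 ≤ v.1 → ∀ j ∈ S, v ∈ π.seg j →
        v ∈ An := by
      intro v hv h1 h2 j hj hs
      by_contra hn
      have hi : Ioo (π.lo j) (π.hi j) ∈ 𝓝 v.1 := by
        refine Ioo_mem_nhds (hs.1.lt_of_ne fun e => hn ?_) (hs.2.1.lt_of_ne fun e => hn ?_)
        · rw [eq_pt hs, ← e]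
          exact gp.enL j hj
        · rw [eq_pt hs, e]
          exact gp.enR j hj
      have a0 : 0 < A v := hv.1.lt_of_ne fun e => (hside v hv (Or.inl e.symm)).1 j hj hs
      have c0 : 0 < C v := hv.2.2.lt_of_ne fun e => (hside v hv (Or.inr e.symm)).1 j hj hs
      have hc : Continuous fun s : ℝ => v + s • ((1, π.sl j) : ℝ × ℝ) := by fun_prop
      have ht : Tendsto (fun s : ℝ => v + s • ((1, π.sl j) : ℝ × ℝ)) (𝓝 0) (𝓝 v) := by
        simpa using hc.tendsto 0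
      have hev : ∀ᶠ s : ℝ in 𝓝 0, 0 ≤ s * B' (1, π.sl j) →
          v + s • ((1, π.sl j) : ℝ × ℝ) ∈ K ∧ B u₁ ≤ B (v + s • ((1, π.sl j) : ℝ × ℝ)) := by
        filter_upwards [ht.eventually (cA.continuousAt.eventually (lt_mem_nhds a0)),
          ht.eventually (cC.continuousAt.eventually (lt_mem_nhds c0)),
          ht.eventually (continuousAt_fst.eventually hi)]
          with s s1 s2 s3 s4
        have e := (haff v (1, π.sl j) s).2.1
        refine ⟨⟨⟨s1.le, by rw [e]; linarith [hv.2.1], s2.le⟩, mem_biUnion hj ⟨s3.1.le, s3.2.le, ?_⟩⟩,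
          by rw [e]; linarith⟩
        have := hs.2.2
        simp only [Prod.snd_add, Prod.smul_snd, Prod.fst_add, Prod.smul_fst, smul_eq_mul, τ]
          at this ⊢
        linarith
      rcases le_or_gt 0 (B' (1, π.sl j)) with b0 | b0
      · obtain ⟨s, s1, s2⟩ := ((hev.filter_mono (nhdsWithin_le_nhds (s := Ioi 0))).and
          self_mem_nhdsWithin).exists
        replace s2 : 0 < s := s2
        have := hm (s1 (mul_nonneg s2.le b0))
        simp only [mem_ofPred_eq, Prod.fst_add, Prod.smul_fst, smul_eq_mul] at this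
        linarith
      · obtain ⟨s, s1, s2⟩ := ((hev.filter_mono (nhdsWithin_le_nhds (s := Iio 0))).and
          self_mem_nhdsWithin).exists
        have s3 := mul_pos_of_neg_of_neg (show s < 0 from s2) b0
        have := hm₁ (s1 s3.le).1
        rw [mem_ofPred_eq, (haff v (1, π.sl j) s).2.1] at this
        linarith
    obtain ⟨j, hj, hs⟩ := mem_iUnion₂.1 hu.1.2
    have hf := hend u hu.1.1 hu.2 le_rfl j hj hs
    obtain ⟨y, hy, y1, y2⟩ := hvert u hu.1.1
    obtain ⟨j', hj', hne, i0, i1, i2⟩ := hy.2 u hf y1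
    rw [y1] at i0 i1 i2
    obtain ⟨z1, z2⟩ := y2 _ i2
    have z3 : ((u.1, π.τ j' u.1) : Pt) ∈ π.seg j' := ⟨i0, i1, rfl⟩
    exact hne (gp.inj _ (hend _ z1 (le_trans hu.2 z2) le_rfl j' hj' z3) u hf rfl ▸ z3)
  intro u hu
  have hu' : u ∈ Δ := ⟨(hpr u hu).1, (hpr u hu).2.1.ge, (hpr u hu).2.2⟩
  refine ⟨hno u hu', fun e he he' => ?_⟩
  obtain ⟨y, hy, y1, y2⟩ := hvert u hu'
  obtain ⟨j', hj', hne, i0, i1, i2⟩ := hy.2 e he (y1.trans he')
  rw [y1] at i0 i1 i2
  rcases uIcc_subset_uIcc_union_uIcc (b := u.2) i2 with i3 | i3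
  · exact absurd ⟨i0, i1, rfl⟩ (hno _ (y2 _ i3).1 j' hj')
  · exact ⟨j', hj', hne, i0, i1, i3⟩

theorem convex_Reg (gp : π.GP S An) (p : Pt) : Convex ℝ (π.Reg S An p) := by
  refine convex_iff_segment_subset.2 fun q hq r hr y hy => Rel.trans gp hq ?_
  exact ((convex_segment q r).segment_subset (left_mem_segment _ _ _) hy).trans
    ((Rel.symm hq).trans gp hr)

theorem isOpen_Reg (gp : π.GP S An) (p : Pt) : IsOpen (π.Reg S An p) := by
  refine Metric.isOpen_iff.2 fun q hq => ?_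
  obtain ⟨ε, hε, h⟩ := Metric.isOpen_iff.1 (isOpen_O S An) q (Rel.right hq)
  exact ⟨ε, hε, fun y hy => Rel.trans gp hq
    (((convex_ball q ε).segment_subset (Metric.mem_ball_self hε) hy).trans h)⟩

theorem Reg_eq (gp : π.GP S An) (h : q ∈ π.Reg S An p) : π.Reg S An q = π.Reg S An p := by
  exact Set.ext fun _ => ⟨fun h' => Rel.trans gp h h', fun h' => (Rel.symm h).trans gp h'⟩

theorem Reg_disjoint (gp : π.GP S An) (h : π.Reg S An p ≠ π.Reg S An q) :
    Disjoint (π.Reg S An p) (π.Reg S An q) := by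
  exact disjoint_left.2 fun _ h1 h2 => h ((Reg_eq gp h1).symm.trans (Reg_eq gp h2))

/-- A convex subset of `O S An` that meets a region lies in it. -/
theorem sub_Reg (gp : π.GP S An) {T : Set Pt} (hT : Convex ℝ T) (hO : T ⊆ π.O S An) (hq : q ∈ T)
    (h : q ∈ π.Reg S An p) : T ⊆ π.Reg S An p := by
  exact fun y hy => Rel.trans gp h ((hT.segment_subset hq hy).trans hO)

/-- The open segment from a point of a region to a point of its closure lies in the region. -/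
theorem openSegment_sub_Reg (gp : π.GP S An) (hq : q ∈ π.Reg S An p)
    (he : e ∈ closure (π.Reg S An p)) : openSegment ℝ q e ⊆ π.Reg S An p := by
  have h := (convex_Reg gp p).openSegment_interior_closure_subset_interior
    (x := q) (y := e) (by rwa [(isOpen_Reg gp p).interior_eq]) he
  rwa [(isOpen_Reg gp p).interior_eq] at h

end Sg

end SA
end

-- part: VisA
section
/-!
# Walls, visibility chains, no crossing

`dense_O`: the complement of `O` lies in finitely many lines (segment lines and the vertical lines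
through anchors); each complement of a line is open and dense (`dense_biInter_of_isOpen` or
`Dense.inter_of_isOpen_left` by induction).

`wall`: the vertical segment `K` from `p` to `e` is compact and misses the closed segments that do
not contain `e`; so there is `ε` such that the open box
`N = (e.1 - ε, e.1 + ε) × (min p.2 e.2 - ε, max p.2 e.2 + ε)` (convex; or use a thickening of `K`)
misses these segments and contains no abscissa of another anchor.  Let `q ∈ N ∩ O`.  Then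
`q.1 ≠ e.1` (a blocker would meet `N`).  The points of the half-open segment `[q, e)` lie in `N`,
have an abscissa that is not an anchor abscissa, and lie on no segment: a segment `j` through `e`
contains such a point `u` only if `q` is on its line; then `q ∉ seg j` puts an endpoint of `j`
(an anchor) with abscissa between those of `q` and `u`, which is impossible.  So `[q, e) ⊆ O`,
these points are in `Reg q`, and they accumulate at `e`.

`vis`: let `Φ p` be the conclusion.  `Φ` is open (`Eventually.eventually_nhds`).  For `p ∈ XA`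
with `Φ` frequently near `p`: if `p ∈ O`, a ball around `p` lies in `Reg p` (`isOpen_Reg`), by
`dense_O` some `q ∈ O` in the ball has the property, and `Reg_eq` transfers it.  Otherwise `p` is an
anchor or a free point on a wall, so `wall` applies with an anchor `e''`; a point `q ∈ O` near `p`
with the property gives `Adj e' e''`, so `e →* e''` and `Φ p` holds with `e''`.  `Φ e` holds by
`wall`.  Finish with `IsPreconnected` (`isPreconnected_connectedComponentIn`,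
`IsPreconnected.subset_of_closure_inter_subset` or `IsPreconnected.induction₂`).

`noCross`: points `a', b'` of the region near `a`, `b` lie on different sides of the line of `j`
(`b` is on the other side), and the segment from `a'` to `b'`, which lies in the region
(`convex_Reg`), meets the line at a point that tends to `w`, so on `seg j`.  A short way: take
`q` in the region off the line (open region), on the side opposite to `a` or to `b`, say to `a`; the
points `a + t (q - a)` and `b + t (q - b)`, `0 < t < 1`, lie in the region (`openSegment_sub_Reg`).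
-/

open Set Filter Topology

namespace SA

namespace Sg

variable {J : Type} {π : Sg J} {S A : Finset J} {An : Finset Pt} {p q e e' : Pt} {j : J}

theorem VisA_dense {f : Pt → ℝ} (v : Pt) (h : ∀ q (t : ℝ), f (q + t • v) = f q + t) :
    Dense {q | f q ≠ 0} := by
  intro q
  by_cases h0 : f q = 0
  · have hc : Continuous fun t : ℝ => q + t • v := by fun_prop
    have ht : Tendsto (fun t : ℝ => q + t • v) (𝓝[≠] 0) (𝓝 q) := by
      refine Tendsto.mono_left ?_ nhdsWithin_le_nhds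
      simpa using hc.tendsto 0
    refine mem_closure_of_tendsto ht ?_
    filter_upwards [self_mem_nhdsWithin] with t ht
    simp only [h, h0, zero_add]
    exact ht
  · exact subset_closure h0

theorem VisA_denseI {ι : Type} (T : Finset ι) {U : ι → Set Pt} (h1 : ∀ i, IsOpen (U i))
    (h2 : ∀ i, Dense (U i)) : Dense {q | ∀ i ∈ T, q ∈ U i} := by
  classical
  induction T using Finset.induction_on with
  | empty => simp
  | insert i T _ ih =>
    refine ((h2 i).inter_of_isOpen_left ih (h1 i)).mono fun q hq k hk => ?_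
    rcases Finset.mem_insert.1 hk with rfl | hk
    exacts [hq.1, hq.2 k hk]

theorem dense_O (S : Finset J) (An : Finset Pt) : Dense (π.O S An) := by
  have o1 : ∀ j : J, IsOpen {q : Pt | q.2 - π.τ j q.1 ≠ 0} := fun j =>
    isOpen_ne_fun (continuous_snd.sub ((cont_τ j).comp continuous_fst)) continuous_const
  have o2 : ∀ e : Pt, IsOpen {q : Pt | q.1 - e.1 ≠ 0} := fun e =>
    isOpen_ne_fun (continuous_fst.sub continuous_const) continuous_const
  have d1 := VisA_denseI S o1 fun j => VisA_dense (0, 1) fun q t => by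
    simp only [Prod.snd_add, Prod.smul_snd, Prod.fst_add, Prod.smul_fst, smul_eq_mul, τ]
    ring
  have d2 := VisA_denseI An o2 fun e => VisA_dense (1, 0) fun q t => by
    simp only [Prod.fst_add, Prod.smul_fst, smul_eq_mul]
    ring
  have o3 : IsOpen {q : Pt | ∀ j ∈ S, q ∈ {q : Pt | q.2 - π.τ j q.1 ≠ 0}} := by
    rw [show {q : Pt | ∀ j ∈ S, q ∈ {q : Pt | q.2 - π.τ j q.1 ≠ 0}} =
      ⋂ j ∈ S, {q : Pt | q.2 - π.τ j q.1 ≠ 0} by ext; simp]
    exact isOpen_biInter_finset fun j _ => o1 j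
  refine (d1.inter_of_isOpen_left d2 o3).mono fun q hq => ⟨fun j hj hs => ?_, fun e he h => ?_⟩
  · exact hq.1 j hj (sub_eq_zero.2 hs.2.2)
  · exact absurd (sub_eq_zero.2 h) (hq.2 e he)

/-- Near an unblocked vertical segment from an anchor every point of `O` sees the anchor. -/
theorem wall (gp : π.GP S An) (he : e ∈ An) (hp : p.1 = e.1)
    (hb : ∀ j ∈ S, e ∉ π.seg j → π.lo j ≤ e.1 → e.1 ≤ π.hi j → π.τ j e.1 ∉ uIcc p.2 e.2) :
    ∀ᶠ q in 𝓝 p, q ∈ π.O S An → e ∈ closure (π.Reg S An q) := by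
  set W : Set Pt := (⋂ j ∈ S, {u | e ∉ π.seg j → u ∉ π.seg j}) ∩
    ⋂ e' ∈ An, {u : Pt | e' ≠ e → u.1 ≠ e'.1} with hW
  have oW : IsOpen W := by
    refine (isOpen_biInter_finset fun j _ => ?_).inter (isOpen_biInter_finset fun e' _ => ?_)
    · by_cases h : e ∈ π.seg j
      · simp [h]
      · simp only [h, not_false_eq_true, forall_const]
        exact (isClosed_seg j).isOpen_compl
    · by_cases h : e' = e
      · simp [h]
      · simp only [ne_eq, h, not_false_eq_true, forall_const]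
        exact isOpen_ne_fun continuous_fst continuous_const
  have mW : ∀ u, u ∈ W ↔ (∀ j ∈ S, e ∉ π.seg j → u ∉ π.seg j) ∧
      ∀ e' ∈ An, e' ≠ e → u.1 ≠ e'.1 := fun u => by
    simp only [hW, mem_inter_iff, mem_iInter, mem_ofPred_eq]
  have hK : segment ℝ p e ⊆ W := by
    rintro _ ⟨a, b, ha, hb', hab, rfl⟩
    have e1 : (a • p + b • e).1 = e.1 := by
      simp only [Prod.fst_add, Prod.smul_fst, smul_eq_mul, hp]
      linear_combination e.1 * hab
    refine (mW _).2 ⟨fun j hj hn hs => ?_, fun e' he' hn h => ?_⟩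
    · obtain ⟨s1, s2, s3⟩ := hs
      rw [e1] at s1 s2 s3
      refine hb j hj hn s1 s2 ?_
      rw [← s3, ← segment_eq_uIcc]
      exact ⟨a, b, ha, hb', hab, rfl⟩
    · exact hn (gp.inj e' he' e he (h.symm.trans e1))
  have cK : IsCompact (segment ℝ p e) := by
    rw [segment_eq_image]
    exact isCompact_Icc.image (by fun_prop)
  obtain ⟨δ, hδ, hN⟩ := cK.exists_thickening_subset_open oW hK
  have cN : Convex ℝ (Metric.thickening δ (segment ℝ p e)) := (convex_segment p e).thickening δ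
  have eN := Metric.self_subset_thickening hδ _ (right_mem_segment ℝ p e)
  filter_upwards [Metric.isOpen_thickening.mem_nhds
    (Metric.self_subset_thickening hδ _ (left_mem_segment ℝ p e))] with q hq hO
  have hS : ∀ u ∈ segment ℝ q e, (∀ j ∈ S, e ∉ π.seg j → u ∉ π.seg j) ∧
      ∀ e' ∈ An, e' ≠ e → u.1 ≠ e'.1 := fun u hu => (mW u).1 (hN (cN.segment_subset hq eN hu))
  have h1 : q.1 ≠ e.1 := by
    intro h
    obtain ⟨j, hj, hn, s1, s2, s3⟩ := hO.2 e he h
    rw [← segment_eq_uIcc] at s3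
    obtain ⟨a, b, ha, hb', hab, s3⟩ := s3
    have e1 : (a • q + b • e).1 = q.1 := by
      simp only [Prod.fst_add, Prod.smul_fst, smul_eq_mul, ← h]
      linear_combination q.1 * hab
    refine (hS _ ⟨a, b, ha, hb', hab, rfl⟩).1 j hj hn ⟨?_, ?_, ?_⟩
    · rwa [e1]
    · rwa [e1]
    · rw [e1, ← s3]
      rfl
  have h2 : ∀ e' ∈ An, e'.1 ∈ uIcc q.1 e.1 → e' = e := by
    intro e' he' h
    by_contra hn
    rw [← segment_eq_uIcc] at h
    obtain ⟨a, b, ha, hb', hab, h⟩ := h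
    exact (hS _ ⟨a, b, ha, hb', hab, rfl⟩).2 e' he' hn h
  have cT : Convex ℝ (AffineMap.lineMap q e '' Ico (0 : ℝ) 1) :=
    (convex_Ico 0 1).affine_image _
  have hT : AffineMap.lineMap q e '' Ico (0 : ℝ) 1 ⊆ π.O S An := by
    rintro _ ⟨t, ⟨t0, t1⟩, rfl⟩
    have hu : AffineMap.lineMap q e t ∈ segment ℝ q e := by
      rw [segment_eq_image_lineMap]
      exact ⟨t, ⟨t0, t1.le⟩, rfl⟩
    have u1 : (AffineMap.lineMap q e t : Pt).1 = q.1 + t * (e.1 - q.1) := by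
      simp only [AffineMap.lineMap_apply, vsub_eq_sub, vadd_eq_add, Prod.fst_add, Prod.smul_fst,
        Prod.fst_sub, smul_eq_mul]
      ring
    have u2 : (AffineMap.lineMap q e t : Pt).2 = q.2 + t * (e.2 - q.2) := by
      simp only [AffineMap.lineMap_apply, vsub_eq_sub, vadd_eq_add, Prod.snd_add, Prod.smul_snd,
        Prod.snd_sub, smul_eq_mul]
      ring
    refine ⟨fun j hj hs => ?_, fun e' he' h => ?_⟩
    · have hE : e ∈ π.seg j := by
        by_contra hn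
        exact (hS _ hu).1 j hj hn hs
      obtain ⟨s1, s2, s3⟩ := hs
      rw [u1] at s1 s2 s3
      rw [u2] at s3
      have s4 := hE.2.2
      have s5 : q.2 = π.τ j q.1 := by
        simp only [τ] at s3 s4 ⊢
        refine mul_left_cancel₀ (sub_pos.2 t1).ne' ?_
        linear_combination s3 - t * s4
      refine hO.1 j hj ⟨?_, ?_, s5⟩
      · by_contra hn
        replace hn := not_le.1 hn
        have s6 := h2 _ (gp.enL j hj) (mem_uIcc.2 (Or.inl ⟨hn.le, hE.1⟩))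
        have s7 : π.lo j = e.1 := congrArg Prod.fst s6
        nlinarith
      · by_contra hn
        replace hn := not_le.1 hn
        have s6 := h2 _ (gp.enR j hj) (mem_uIcc.2 (Or.inr ⟨hE.2.1, hn.le⟩))
        have s7 : π.hi j = e.1 := congrArg Prod.fst s6
        nlinarith
    · exfalso
      by_cases hn : e' = e
      · rw [hn, u1] at h
        refine h1 (mul_left_cancel₀ (sub_pos.2 t1).ne' ?_)
        linear_combination h
      · exact (hS _ hu).2 e' he' hn h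
  refine closure_mono (sub_Reg gp cT hT ⟨0, ⟨le_rfl, zero_lt_one⟩, AffineMap.lineMap_apply_zero _ _⟩
    (mem_Reg_self hO)) ?_
  have h3 : (1 : ℝ) ∈ closure (Ico (0 : ℝ) 1) := by
    rw [closure_Ico zero_ne_one]
    exact ⟨zero_le_one, le_rfl⟩
  have h4 := mem_closure_image (f := fun t : ℝ => (AffineMap.lineMap q e t : Pt))
    (AffineMap.lineMap_continuous.continuousAt) h3
  rwa [AffineMap.lineMap_apply_one] at h4

theorem VisA_self (gp : π.GP S An) (he : e ∈ An) :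
    ∀ᶠ q in 𝓝 e, q ∈ π.O S An → e ∈ closure (π.Reg S An q) := by
  refine wall gp he rfl fun j _ hn h1 h2 h3 => hn ⟨h1, h2, ?_⟩
  rw [uIcc_self, mem_singleton_iff] at h3
  exact h3.symm

theorem vis (gp : π.GP S An) (he : e ∈ An) (hp : p ∈ cc (π.XA S An) e) :
    ∀ᶠ q in 𝓝 p, q ∈ π.O S An →
      ∃ e' ∈ An, e' ∈ closure (π.Reg S An q) ∧ Relation.ReflTransGen (π.Adj S An) e e' := by
  refine IsPreconnected.subset_of_closure_inter_subset (u := {p | ∀ᶠ q in 𝓝 p, q ∈ π.O S An →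
      ∃ e' ∈ An, e' ∈ closure (π.Reg S An q) ∧ Relation.ReflTransGen (π.Adj S An) e e'})
    isPreconnected_connectedComponentIn isOpen_setOfPred_eventually_nhds
    ⟨e, mem_connectedComponentIn (Or.inr he), ?_⟩ ?_ hp
  · exact (VisA_self gp he).mono fun q h hO => ⟨e, he, h hO, Relation.ReflTransGen.refl⟩
  rintro p ⟨h1, h2⟩
  have h3 : ∃ᶠ q in 𝓝 p, q ∈ π.O S An ∧
      ∃ e' ∈ An, e' ∈ closure (π.Reg S An q) ∧ Relation.ReflTransGen (π.Adj S An) e e' := by
    refine frequently_frequently_nhds.1 ((mem_closure_iff_frequently.1 h1).mono fun p' h => ?_)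
    exact (mem_closure_iff_frequently.1 (dense_O S An p')).mp
      (Eventually.mono h fun q hq hO => ⟨hO, hq hO⟩)
  by_cases hO : p ∈ π.O S An
  · have h4 : ∀ᶠ q in 𝓝 p, q ∈ π.Reg S An p := (isOpen_Reg gp p).mem_nhds (mem_Reg_self hO)
    obtain ⟨q, ⟨-, h5⟩, h6⟩ := (h3.and_eventually h4).exists
    rw [Reg_eq gp h6] at h5
    exact h4.mono fun r hr _ => by rwa [Reg_eq gp hr]
  · obtain ⟨c, hc, h4⟩ : ∃ c ∈ An, ∀ᶠ q in 𝓝 p, q ∈ π.O S An → c ∈ closure (π.Reg S An q) := by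
      rcases connectedComponentIn_subset _ _ h2 with h | h
      · by_contra hn
        refine hO ⟨h, fun c hc h5 => ?_⟩
        by_contra hn'
        refine hn ⟨c, hc, wall gp hc h5 fun j hj s0 s1 s2 s3 => hn' ⟨j, hj, s0, ?_⟩⟩
        rw [h5]
        exact ⟨s1, s2, s3⟩
      · exact ⟨p, h, VisA_self gp h⟩
    obtain ⟨q, ⟨h5, d, hd, h6, h7⟩, h8⟩ := (h3.and_eventually h4).exists
    exact h4.mono fun r hr h9 => ⟨c, hc, hr h9, h7.tail ⟨hd, hc, q, h5, h6, h8 h5⟩⟩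

/-- Anchors that are joined in the free space with anchors are joined by a chain. -/
theorem vis_chain (gp : π.GP S An) (he : e ∈ An) (he' : e' ∈ An) (h : e' ∈ cc (π.XA S An) e) :
    Relation.ReflTransGen (π.Adj S An) e e' := by
  obtain ⟨q, h1, h2, h3⟩ := ((mem_closure_iff_frequently.1 (dense_O S An e')).and_eventually
    ((vis gp he h).and (VisA_self gp he'))).exists
  obtain ⟨d, hd, h4, h5⟩ := h2 h1
  exact h5.tail ⟨hd, he', q, h1, h4, h3 h1⟩

/-- A region that is joined to an anchor is anchored. -/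
theorem vis_reg (gp : π.GP S An) (he : e ∈ An) (hp : p ∈ π.O S An) (h : p ∈ cc (π.XA S An) e) :
    ∃ e' ∈ An, e' ∈ closure (π.Reg S An p) ∧ Relation.ReflTransGen (π.Adj S An) e e' := by
  exact (vis gp he h).self_of_nhds hp

theorem VisA_side {R V : Set Pt} (hR : Convex ℝ R) (hV : IsOpen V) {w c : Pt} {g : Pt → ℝ}
    (hg : Continuous g) (hw : w ∈ closure R) (hc : c ∈ closure R) (hwV : w ∈ V) (h0 : 0 < g c)
    (h : ∀ s : ℝ, g (w + s • (c - w)) = s * g c) : ∃ u ∈ R ∩ V, 0 < g u := by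
  have cs : Continuous fun s : ℝ => w + s • (c - w) := by fun_prop
  have ht : Tendsto (fun s : ℝ => w + s • (c - w)) (𝓝[>] 0) (𝓝 w) := by
    refine Tendsto.mono_left ?_ nhdsWithin_le_nhds
    simpa using cs.tendsto 0
  obtain ⟨s, h1, h2⟩ := ((ht.eventually (hV.mem_nhds hwV)).and
    (Ioo_mem_nhdsGT (zero_lt_one' ℝ))).exists
  obtain ⟨u, ⟨h3, h4⟩, h5⟩ := mem_closure_iff.1
    (hR.closure.add_smul_sub_mem hw hc ⟨h2.1.le, h2.2.le⟩) (V ∩ {u | 0 < g u})
    (hV.inter (isOpen_lt continuous_const hg)) ⟨h1, by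
      simp only [mem_ofPred_eq, h]
      exact mul_pos h2.1 h0⟩
  exact ⟨u, ⟨h5, h3⟩, h4⟩

theorem noCross (gp : π.GP S An) (hp : p ∈ π.O S An) {a b w : Pt}
    (ha : a ∈ closure (π.Reg S An p)) (hb : b ∈ closure (π.Reg S An p)) (hj : j ∈ S)
    (hw : w ∈ openSegment ℝ a b) (hs : w ∈ π.seg j) (h1 : π.lo j < w.1) (h2 : w.1 < π.hi j)
    (h3 : a.2 ≠ π.τ j a.1) : False := by
  have cR := convex_Reg gp p
  have hw' : w ∈ closure (π.Reg S An p) :=
    cR.closure.segment_subset ha hb (openSegment_subset_segment _ _ _ hw)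
  have oV : IsOpen {u : Pt | π.lo j < u.1 ∧ u.1 < π.hi j} :=
    (isOpen_lt continuous_const continuous_fst).inter (isOpen_lt continuous_fst continuous_const)
  have cV : Convex ℝ {u : Pt | π.lo j < u.1 ∧ u.1 < π.hi j} :=
    (convex_Ioo (π.lo j) (π.hi j)).linear_preimage (LinearMap.fst ℝ ℝ ℝ)
  have cf : Continuous fun u : Pt => u.2 - π.τ j u.1 :=
    continuous_snd.sub ((cont_τ j).comp continuous_fst)
  have s0 := hs.2.2
  have key : ∀ c ∈ closure (π.Reg S An p), ∀ d ∈ closure (π.Reg S An p),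
      π.τ j c.1 < c.2 → d.2 < π.τ j d.1 → False := by
    intro c hc d hd s1 s2
    obtain ⟨u, hu, s3⟩ := VisA_side cR oV cf hw' hc ⟨h1, h2⟩ (sub_pos.2 s1) fun s => by
      simp only [Prod.snd_add, Prod.smul_snd, Prod.fst_add, Prod.smul_fst, Prod.fst_sub,
        Prod.snd_sub, smul_eq_mul, τ] at s0 ⊢
      linear_combination (1 - s) * s0
    obtain ⟨v, hv, s4⟩ := VisA_side (g := fun u => -(u.2 - π.τ j u.1)) cR oV cf.neg hw' hd
      ⟨h1, h2⟩ (show 0 < -(d.2 - π.τ j d.1) by linarith) fun s => by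
      simp only [Prod.snd_add, Prod.smul_snd, Prod.fst_add, Prod.smul_fst, Prod.fst_sub,
        Prod.snd_sub, smul_eq_mul, τ] at s0 ⊢
      linear_combination (s - 1) * s0
    obtain ⟨z, hz, s5⟩ := (cR.inter cV).isPreconnected.intermediate_value hv hu cf.continuousOn
      (show (0 : ℝ) ∈ Icc _ _ from ⟨by linarith, s3.le⟩)
    exact (Reg_sub S An p hz.1).1 j hj ⟨hz.2.1.le, hz.2.2.le, sub_eq_zero.1 s5⟩
  obtain ⟨α, β, hα, hβ, hab, rfl⟩ := hw
  have s1 : α * (a.2 - π.τ j a.1) + β * (b.2 - π.τ j b.1) = 0 := by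
    simp only [Prod.snd_add, Prod.smul_snd, Prod.fst_add, Prod.smul_fst, smul_eq_mul, τ] at s0 ⊢
    linear_combination s0 - π.ic j * hab
  rcases h3.lt_or_gt with h4 | h4
  · exact key b hb a ha (by nlinarith) h4
  · exact key a ha b hb h4 (by nlinarith)

theorem Adj.disjoint_PC (gp : π.GP S An) (h : π.Adj S An e e') (A : Finset J) :
    Disjoint (π.PC A e e') S := by
  obtain ⟨-, -, p, hp, h1, h2⟩ := h
  refine Finset.disjoint_left.2 fun j hj hS => ?_
  obtain ⟨-, h3, w, hw, h4, h5, h6⟩ := mem_PC.1 hj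
  exact noCross gp hp h1 h2 hS hw h4 h5 h6 h3

end Sg

end SA
end

-- part: VisB
section
/-!
# Regions and their anchors: counting

`side`: no `q ∈ Reg p` has `q.1 = e.1`: otherwise the blocker `j` given by `q ∈ O` has its point on
the vertical segment `[q, e]`, this point is not `e` (`e ∉ seg j`) and so lies in `Reg p ⊆ O`
(`openSegment_sub_Reg`, or it is `q`).  The region is convex, so its abscissae lie on one side.
`left_uniq`: both abscissae are the infimum of the abscissae of the region (closure argument: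
`e'.1 ≥ e.1` because the closed half-plane contains the region), then `gp.inj`.

`four`: there is a small ball `N` around `e` that misses the segments not through `e` and has no
other anchor abscissa; at most one segment `j₀` passes through `e` (`gp.one`); let `ℓ` be its line
(any non-vertical line through `e` if there is none).  The four open quadrants of `N` cut by `ℓ` and
the vertical line through `e` are convex subsets of `O`.  A region with `e` in its closure is open,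
so it meets `N` off the two lines, hence it is the region of the quadrant (`sub_Reg`, `Reg_eq`).
Take for `T` the regions of four fixed points, one in each quadrant, or the image of
`Bool × Bool` under the union of the regions of the points of a quadrant.

`card_Ed`: map an edge to a region that witnesses it; by `between`, `left_uniq`, `right_uniq`
the region determines the edge.
-/

open Set Filter Topology

namespace SA

namespace Sg

variable {J : Type} {π : Sg J} {S : Finset J} {An : Finset Pt} {p q e e' : Pt}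

theorem VisB_le {Q : Set Pt} {x : ℝ} (h : e ∈ closure Q) (l : ∀ q ∈ Q, x ≤ q.1) : x ≤ e.1 :=
  closure_minimal (t := {q : Pt | x ≤ q.1}) l (isClosed_le continuous_const continuous_fst) h

theorem VisB_ge {Q : Set Pt} {x : ℝ} (h : e ∈ closure Q) (l : ∀ q ∈ Q, q.1 ≤ x) : e.1 ≤ x :=
  closure_minimal (t := {q : Pt | q.1 ≤ x}) l (isClosed_le continuous_fst continuous_const) h

theorem VisB_pos {x y u v : ℝ} (hx : 0 < x) (hy : 0 < y) (hu : 0 ≤ u) (hv : 0 ≤ v)
    (h : u + v = 1) : 0 < u * x + v * y := by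
  rcases hu.eq_or_lt with h1 | h1
  · have : v = 1 := by linarith
    rw [← h1, this]
    linarith
  · have := mul_pos h1 hx
    have := mul_nonneg hv hy.le
    linarith

theorem VisB_sgn {x : ℝ} (h : x ≠ 0) : ∃ s ∈ ({1, -1} : Finset ℝ), 0 < s * x := by
  rcases h.lt_or_gt with h | h
  · exact ⟨-1, by simp, by linarith⟩
  · exact ⟨1, by simp, by linarith⟩

theorem side (gp : π.GP S An) (hp : p ∈ π.O S An) (he : e ∈ An)
    (h : e ∈ closure (π.Reg S An p)) :
    (∀ q ∈ π.Reg S An p, e.1 < q.1) ∨ ∀ q ∈ π.Reg S An p, q.1 < e.1 := by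
  have hne : ∀ q ∈ π.Reg S An p, q.1 ≠ e.1 := by
    intro q hq h1
    obtain ⟨j, hj, hn, h2, h3, h4⟩ := (Reg_sub S An p hq).2 e he h1
    have hw : ((q.1, π.τ j q.1) : Pt) ∈ π.seg j := ⟨h2, h3, rfl⟩
    have hs : ((q.1, π.τ j q.1) : Pt) ∈ segment ℝ q e := by
      rw [← segment_eq_uIcc] at h4
      obtain ⟨a, b, ha, hb, hab, h5⟩ := h4
      refine ⟨a, b, ha, hb, hab, Prod.ext ?_ h5⟩
      simp only [Prod.fst_add, Prod.smul_fst, smul_eq_mul, ← h1]
      linear_combination q.1 * hab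
    have h6 := openSegment_sub_Reg gp hq h (mem_openSegment_of_ne_left_right
      (fun h7 => (Reg_sub S An p hq).1 j hj (h7 ▸ hw)) (fun h7 => hn (h7 ▸ hw)) hs)
    exact (Reg_sub S An p h6).1 j hj hw
  by_contra hc
  push Not at hc
  obtain ⟨⟨q₁, h1, h2⟩, q₂, h3, h4⟩ := hc
  obtain ⟨q, h5, h6⟩ := (convex_Reg gp p).isPreconnected.intermediate_value h1 h3
    continuous_fst.continuousOn ⟨h2, h4⟩
  exact hne q h5 h6

theorem left_uniq (gp : π.GP S An) {Q : Set Pt} (he : e ∈ An) (he' : e' ∈ An)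
    (h : e ∈ closure Q) (h' : e' ∈ closure Q) (l : ∀ q ∈ Q, e.1 < q.1)
    (l' : ∀ q ∈ Q, e'.1 < q.1) : e = e' := by
  exact gp.inj e he e' he' (le_antisymm (VisB_le h' fun q hq => (l q hq).le)
    (VisB_le h fun q hq => (l' q hq).le))

theorem right_uniq (gp : π.GP S An) {Q : Set Pt} (he : e ∈ An) (he' : e' ∈ An)
    (h : e ∈ closure Q) (h' : e' ∈ closure Q) (l : ∀ q ∈ Q, q.1 < e.1)
    (l' : ∀ q ∈ Q, q.1 < e'.1) : e = e' := by
  exact gp.inj e he e' he' (le_antisymm (VisB_ge h fun q hq => (l' q hq).le)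
    (VisB_ge h' fun q hq => (l q hq).le))

/-- A region lies strictly between two different anchors of its closure. -/
theorem between (gp : π.GP S An) (hp : p ∈ π.O S An) (he : e ∈ An) (he' : e' ∈ An)
    (h : e ∈ closure (π.Reg S An p)) (h' : e' ∈ closure (π.Reg S An p)) (hlt : e.1 < e'.1) :
    ∀ q ∈ π.Reg S An p, e.1 < q.1 ∧ q.1 < e'.1 := by
  intro q hq
  refine ⟨((side gp hp he h).resolve_right fun h1 => ?_) q hq,
    ((side gp hp he' h').resolve_left fun h1 => ?_) q hq⟩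
  · exact hlt.not_ge (VisB_ge h' fun q hq => (h1 q hq).le)
  · exact hlt.not_ge (VisB_le h fun q hq => (h1 q hq).le)

/-- At most two anchors in the closure of a region. -/
theorem two (gp : π.GP S An) (hp : p ∈ π.O S An) :
    ∃ T : Finset Pt, T.card ≤ 2 ∧ ∀ e ∈ An, e ∈ closure (π.Reg S An p) → e ∈ T := by
  classical
  refine ⟨(An.filter fun e => e ∈ closure (π.Reg S An p) ∧ ∀ q ∈ π.Reg S An p, e.1 < q.1) ∪
    An.filter fun e => e ∈ closure (π.Reg S An p) ∧ ∀ q ∈ π.Reg S An p, q.1 < e.1, ?_, ?_⟩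
  · refine (Finset.card_union_le _ _).trans (add_le_add (b := 1) (d := 1) ?_ ?_)
    · refine Finset.card_le_one.2 fun a ha b hb => ?_
      rw [Finset.mem_filter] at ha hb
      exact left_uniq gp ha.1 hb.1 ha.2.1 hb.2.1 ha.2.2 hb.2.2
    · refine Finset.card_le_one.2 fun a ha b hb => ?_
      rw [Finset.mem_filter] at ha hb
      exact right_uniq gp ha.1 hb.1 ha.2.1 hb.2.1 ha.2.2 hb.2.2
  · intro e he h
    rw [Finset.mem_union, Finset.mem_filter, Finset.mem_filter]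
    exact (side gp hp he h).imp (fun h1 => ⟨he, h, h1⟩) fun h1 => ⟨he, h, h1⟩

/-- At most four regions at an anchor. -/
theorem four (gp : π.GP S An) (he : e ∈ An) : ∃ T : Finset (Set Pt), T.card ≤ 4 ∧
    ∀ p ∈ π.O S An, e ∈ closure (π.Reg S An p) → π.Reg S An p ∈ T := by
  classical
  obtain ⟨a, b, hab⟩ : ∃ a b : ℝ, ∀ j ∈ S, e ∈ π.seg j → ∀ x, π.τ j x = a * x + b := by
    by_cases h : ∃ j ∈ S, e ∈ π.seg j
    · obtain ⟨j, hj, h⟩ := h
      refine ⟨π.sl j, π.ic j, fun k hk h' x => ?_⟩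
      rw [gp.one e he k hk j hj h' h]
      rfl
    · exact ⟨0, 0, fun j hj h' => absurd ⟨j, hj, h'⟩ h⟩
  have h1 : ∀ᶠ q in 𝓝 e, (∀ j ∈ S, e ∉ π.seg j → q ∉ π.seg j) ∧
      ∀ e' ∈ An, e' ≠ e → q.1 ≠ e'.1 := by
    refine Eventually.and ((eventually_all_finset S).2 fun j _ => ?_)
      ((eventually_all_finset An).2 fun e' he' => ?_)
    · by_cases h : e ∈ π.seg j
      · exact Eventually.of_forall fun _ h' => absurd h h'
      · filter_upwards [(isClosed_seg j).isOpen_compl.mem_nhds h] with q hq _ using hq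
    · by_cases h : e' = e
      · exact Eventually.of_forall fun _ h' => absurd h h'
      · filter_upwards [continuous_fst.continuousAt.eventually_ne
          fun h' => h (gp.inj e he e' he' h').symm] with q hq _ using hq
  obtain ⟨ε, hε, hN⟩ := Metric.mem_nhds_iff.1 h1
  set Q : ℝ × ℝ → Set Pt := fun s => Metric.ball e ε ∩
    ({q | 0 < s.1 * (q.1 - e.1)} ∩ {q | 0 < s.2 * (q.2 - (a * q.1 + b))}) with hQ
  have hc : ∀ s, Convex ℝ (Q s) := by
    intro s
    refine (convex_ball e ε).inter (Convex.inter ?_ ?_)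
    · intro x hx y hy u v hu hv huv
      have := VisB_pos hx hy hu hv huv
      simp only [mem_ofPred_eq, Prod.fst_add, Prod.smul_fst, smul_eq_mul]
      have h2 : v = 1 - u := by linarith
      subst h2
      linarith
    · intro x hx y hy u v hu hv huv
      have := VisB_pos hx hy hu hv huv
      simp only [mem_ofPred_eq, Prod.fst_add, Prod.smul_fst, Prod.snd_add, Prod.smul_snd,
        smul_eq_mul]
      have h2 : v = 1 - u := by linarith
      subst h2
      linarith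
  have hO : ∀ s, Q s ⊆ π.O S An := by
    rintro s q ⟨q1, q2, q3⟩
    refine ⟨fun j hj hs => ?_, fun e' he' h => ?_⟩
    · by_cases h : e ∈ π.seg j
      · rw [mem_ofPred_eq, ← hab j hj h, ← hs.2.2, sub_self, mul_zero] at q3
        exact lt_irrefl _ q3
      · exact (hN q1).1 j hj h hs
    · by_cases h' : e' = e
      · rw [mem_ofPred_eq, h, h', sub_self, mul_zero] at q2
        exact absurd q2 (lt_irrefl _)
      · exact absurd h ((hN q1).2 e' he' h')
  refine ⟨(({1, -1} : Finset ℝ) ×ˢ ({1, -1} : Finset ℝ)).image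
    fun s => ⋃ r ∈ Q s, π.Reg S An r, ?_, fun p _ h => ?_⟩
  · refine Finset.card_image_le.trans ?_
    rw [Finset.card_product]
    exact Nat.mul_le_mul Finset.card_le_two Finset.card_le_two
  obtain ⟨q₀, h2, h3⟩ := mem_closure_iff.1 h _ Metric.isOpen_ball (Metric.mem_ball_self hε)
  have h4 : Continuous fun s : ℝ => q₀ + s • ((1, a + 1) : Pt) := by fun_prop
  have h5 : Tendsto (fun s : ℝ => q₀ + s • ((1, a + 1) : Pt)) (𝓝 0) (𝓝 q₀) := by
    simpa using h4.tendsto 0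
  obtain ⟨t, ⟨t1, t2⟩, t3⟩ := (infinite_of_mem_nhds (0 : ℝ) (h5.eventually
    ((Metric.isOpen_ball.inter (isOpen_Reg gp p)).mem_nhds ⟨h2, h3⟩))).exists_notMem_finset
    {e.1 - q₀.1, a * q₀.1 + b - q₀.2}
  simp only [Finset.mem_insert, Finset.mem_singleton, not_or] at t3
  set q := q₀ + t • ((1, a + 1) : Pt) with hq
  have h6 : q.1 - e.1 ≠ 0 := fun h => t3.1 (by
    simp only [hq, Prod.fst_add, Prod.smul_fst, smul_eq_mul] at h
    linarith)
  have h7 : q.2 - (a * q.1 + b) ≠ 0 := fun h => t3.2 (by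
    simp only [hq, Prod.fst_add, Prod.smul_fst, Prod.snd_add, Prod.smul_snd, smul_eq_mul] at h
    linarith)
  obtain ⟨s₁, u1, v1⟩ := VisB_sgn h6
  obtain ⟨s₂, u2, v2⟩ := VisB_sgn h7
  have h8 : q ∈ Q (s₁, s₂) := ⟨t1, v1, v2⟩
  refine Finset.mem_image.2 ⟨(s₁, s₂), Finset.mem_product.2 ⟨u1, u2⟩, Subset.antisymm ?_ ?_⟩
  · exact iUnion₂_subset fun r hr => (Reg_eq gp (sub_Reg gp (hc _) (hO _) h8 t2 hr)).subset
  · exact (Reg_eq gp t2).symm.subset.trans (subset_biUnion_of_mem (u := π.Reg S An) h8)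

theorem exists_regF (gp : π.GP S An) :
    ∃ T : Finset (Set Pt), T.card ≤ 4 * An.card ∧ ∀ Q, Q ∈ T ↔ Q ∈ π.RegA S An := by
  classical
  have h : ∀ e, ∃ T : Finset (Set Pt), T.card ≤ 4 ∧ (e ∈ An →
      ∀ p ∈ π.O S An, e ∈ closure (π.Reg S An p) → π.Reg S An p ∈ T) := by
    intro e
    by_cases he : e ∈ An
    · obtain ⟨T, h1, h2⟩ := four gp he
      exact ⟨T, h1, fun _ => h2⟩
    · exact ⟨∅, by simp, fun h => absurd h he⟩
  choose T h1 h2 using h
  refine ⟨(An.biUnion T).filter (· ∈ π.RegA S An), ?_, fun Q => ?_⟩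
  · refine (Finset.card_filter_le _ _).trans ?_
    rw [mul_comm]
    exact Finset.card_biUnion_le_card_mul _ _ _ fun e _ => h1 e
  · rw [Finset.mem_filter]
    refine ⟨fun h => h.2, fun h => ⟨?_, h⟩⟩
    obtain ⟨p, hp, rfl, e, he, h⟩ := h
    exact Finset.mem_biUnion.2 ⟨e, he, h2 e he p hp h⟩

theorem card_Ed (gp : π.GP S An) : (π.Ed S An).card ≤ 4 * An.card := by
  obtain ⟨T, h1, h2⟩ := exists_regF gp
  have h : ∀ a : Pt × Pt, ∃ Q : Set Pt, a ∈ π.Ed S An → Q ∈ T ∧ a.1 ∈ An ∧ a.2 ∈ An ∧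
      a.1 ∈ closure Q ∧ a.2 ∈ closure Q ∧ ∀ q ∈ Q, a.1.1 < q.1 ∧ q.1 < a.2.1 := by
    intro a
    by_cases ha : a ∈ π.Ed S An
    · obtain ⟨hlt, e1, e2, p, hp, c1, c2⟩ := mem_Ed.1 ha
      exact ⟨π.Reg S An p, fun _ => ⟨(h2 _).2 ⟨p, hp, rfl, _, e1, c1⟩, e1, e2, c1, c2,
        between gp hp e1 e2 c1 c2 hlt⟩⟩
    · exact ⟨∅, fun h => absurd h ha⟩
  choose f hf using h
  refine le_trans (Finset.card_le_card_of_injOn f (fun a ha => (hf a ha).1) ?_) h1
  intro a ha b hb hab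
  obtain ⟨-, a1, a2, a3, a4, a5⟩ := hf a ha
  obtain ⟨-, b1, b2, b3, b4, b5⟩ := hf b hb
  rw [← hab] at b3 b4 b5
  exact Prod.ext (left_uniq gp a1 b1 a3 b3 (fun q hq => (a5 q hq).1) fun q hq => (b5 q hq).1)
    (right_uniq gp a2 b2 a4 b4 (fun q hq => (a5 q hq).2) fun q hq => (b5 q hq).2)

end Sg

end SA
end

-- part: Creat
section
/-!
# Edges created by a segment

Count the pairs `(j, a)` with `a = (e, e') ∈ Ed S An`, `a ∉ Ed (S.erase j) (An' j)`.
If `e` or `e'` lies on `seg j`: at most two such `j` for each edge (`gp.one`), in total at most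
`2 * |Ed| ≤ 8 |An|` (`card_Ed`).  Otherwise `e, e' ∈ An' j`.  Fix for each edge a region `Q` that
witnesses it.  If `Q ⊆ O (S.erase j) (An' j)` then `Q` lies in one region of the smaller
configuration (`sub_Reg`, `convex_Reg`) and the edge survives.  So some `q ∈ Q` is not in the smaller
`O`; it is free, so there is `g ∈ An' j` with `q.1 = g.1` and no blocker in `S.erase j`; as
`q ∈ O S An` the segment `j` is a blocker.  Map the pair to `(g, decide (g.2 < q.2))`.  Injective: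
let `(j₁, q₁)`, `(j₂, q₂)` have the same image, `q₂` the one farther from `g`.  Then `j₁` blocks `q₂`
too, so `j₁ = j₂`.  The vertical segment `[q₁, q₂]` lies in `O S An` (a segment through one of its
points blocks `q₂`, so it is `j`, whose point lies between `g` and `q₁`; the only anchor with this
abscissa is `g`, blocked by `j`).  So the regions agree, and the region determines the edge
(`between`, `left_uniq`, `right_uniq`).
-/

open Set Filter Topology

namespace SA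

namespace Sg

variable {J : Type} [DecidableEq J] {π : Sg J} {S : Finset J} {An : Finset Pt}

/-- The segment `k` blocks the anchor `g` from the point `q`. -/
def Creat_B (π : Sg J) (k : J) (q g : Pt) : Prop :=
  g ∉ π.seg k ∧ π.lo k ≤ q.1 ∧ q.1 ≤ π.hi k ∧ π.τ k q.1 ∈ uIcc q.2 g.2

omit [DecidableEq J] in
theorem Creat_same (gp : π.GP S An) {g q q' : Pt} {j j' : J} (hg : g ∈ An) (hj : j ∈ S)
    (hq : q ∈ π.O S An) (e : q.1 = g.1) (e' : q'.1 = g.1) (hm : q.2 ∈ uIcc q'.2 g.2)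
    (hb : π.Creat_B j q g) (hu : ∀ k ∈ S, π.Creat_B k q' g → k = j') :
    j = j' ∧ q' ∈ π.Reg S An q := by
  obtain ⟨b1, b2, b3, b4⟩ := hb
  rw [e] at b2 b3 b4
  have ej : j = j' := hu j hj ⟨b1, e' ▸ b2, e' ▸ b3, e' ▸ uIcc_subset_uIcc hm right_mem_uIcc b4⟩
  refine ⟨ej, fun y hy => ?_⟩
  have y1 : y.1 = g.1 := by
    have := (Prod.segment_subset (𝕜 := ℝ) q q' hy).1
    rwa [e, e', segment_same, mem_singleton_iff] at this
  have y2 : y.2 ∈ uIcc q.2 q'.2 := segment_eq_uIcc q.2 q'.2 ▸ (Prod.segment_subset q q' hy).2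
  have y3 : y.2 ∈ uIcc q'.2 g.2 := uIcc_subset_uIcc hm left_mem_uIcc y2
  have y4 : q.2 ∈ uIcc y.2 g.2 := by
    rw [mem_uIcc] at hm y2 ⊢
    rcases hm with hm | hm <;> rcases y2 with y2 | y2
    · exact Or.inl ⟨by linarith [hm.1, y2.2], hm.2⟩
    · exact Or.inl ⟨y2.2, hm.2⟩
    · exact Or.inr ⟨hm.1, y2.1⟩
    · exact Or.inr ⟨hm.1, by linarith [hm.2, y2.1]⟩
  refine ⟨fun k hk hs => ?_, fun a ha h => ?_⟩
  · obtain ⟨s1, s2, s3⟩ := hs
    rw [y1] at s1 s2 s3
    have k1 : g ∉ π.seg k := fun h => by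
      rw [s3, ← h.2.2, uIcc_self, mem_singleton_iff] at y4
      exact notMem_O hg ((Prod.ext e y4 : q = g) ▸ hq)
    obtain rfl : k = j := (hu k hk ⟨k1, e' ▸ s1, e' ▸ s2, e' ▸ s3 ▸ y3⟩).trans ej.symm
    have k2 : y.2 = q.2 := Set.eq_of_mem_uIcc_of_mem_uIcc (s3 ▸ b4) y4
    exact hq.1 k hk ⟨e ▸ s1, e ▸ s2, e ▸ k2 ▸ s3⟩
  · obtain rfl := gp.inj a ha g hg (h.symm.trans y1)
    exact ⟨j, hj, b1, y1 ▸ b2, y1 ▸ b3, y1 ▸ uIcc_subset_uIcc y4 right_mem_uIcc b4⟩

theorem created (gp : π.GP S An) (An' : J → Finset Pt)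
    (h1 : ∀ j ∈ S, π.GP (S.erase j) (An' j)) (h2 : ∀ j ∈ S, An' j ⊆ An)
    (h3 : ∀ j ∈ S, ∀ e ∈ An, e ∉ π.seg j → e ∈ An' j) :
    ∑ j ∈ S, (π.Ed S An \ π.Ed (S.erase j) (An' j)).card ≤ 10 * An.card := by
  classical
  rw [← Finset.card_sigma]
  set P := S.sigma fun j => π.Ed S An \ π.Ed (S.erase j) (An' j) with hP
  have mem : ∀ a ∈ P, a.1 ∈ S ∧ a.2 ∈ π.Ed S An ∧ a.2 ∉ π.Ed (S.erase a.1) (An' a.1) :=
    fun a ha => ⟨(Finset.mem_sigma.1 ha).1, Finset.mem_sdiff.1 (Finset.mem_sigma.1 ha).2⟩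
  have n1 : ∀ f : Pt × Pt → Pt, (∀ b ∈ π.Ed S An, f b ∈ An) →
      (P.filter fun a => f a.2 ∈ π.seg a.1).card ≤ 4 * An.card := fun f hf => by
    refine (Finset.card_le_card_of_injOn (fun a => a.2)
      (fun a ha => (mem a (Finset.mem_filter.1 ha).1).2.1) ?_).trans (card_Ed gp)
    rintro ⟨j, a⟩ ha ⟨j', a'⟩ ha' (rfl : a = a')
    obtain ⟨a1, a2⟩ := Finset.mem_filter.1 ha
    obtain ⟨b1, b2⟩ := Finset.mem_filter.1 ha'
    obtain rfl : j = j' := gp.one _ (hf a (mem _ a1).2.1) j (mem _ a1).1 j' (mem _ b1).1 a2 b2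
    rfl
  have n2 : (P.filter fun a => a.2.1 ∉ π.seg a.1 ∧ a.2.2 ∉ π.seg a.1).card ≤
      (An ×ˢ (Finset.univ : Finset Bool)).card := by
    refine Finset.card_le_card_of_forall_subsingleton (fun a b => ∃ q ∈ π.O S An,
      a.2.1 ∈ closure (π.Reg S An q) ∧ a.2.2 ∈ closure (π.Reg S An q) ∧ q.1 = b.1.1 ∧
      (b.1.2 < q.2 ↔ b.2 = true) ∧ π.Creat_B a.1 q b.1 ∧
      ∀ k ∈ S, π.Creat_B k q b.1 → k = a.1) ?_ ?_
    · rintro ⟨j, e, e'⟩ ha
      obtain ⟨a1, a2, a3⟩ := Finset.mem_filter.1 ha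
      obtain ⟨hj, m1, m2⟩ := mem _ a1
      obtain ⟨lt, he, he', p, hp, c1, c2⟩ := mem_Ed.1 m1
      dsimp only at *
      obtain ⟨q, hq, hq'⟩ : ∃ q ∈ π.Reg S An p, q ∉ π.O (S.erase j) (An' j) := by
        by_contra hc
        push Not at hc
        have p' := hc p (mem_Reg_self hp)
        have := closure_mono (sub_Reg (h1 j hj) (convex_Reg gp p) hc (mem_Reg_self hp)
          (mem_Reg_self p'))
        exact m2 (mem_Ed.2 ⟨lt, h3 j hj e he a2, h3 j hj e' he' a3, p, p', this c1, this c2⟩)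
      have qO := Reg_sub S An p hq
      obtain ⟨g, hg, g1, g2⟩ : ∃ g ∈ An' j, q.1 = g.1 ∧ ∀ k ∈ S.erase j, ¬π.Creat_B k q g := by
        by_contra hc
        push Not at hc
        exact hq' ⟨Fr_mono (Finset.erase_subset j S) qO.1, hc⟩
      have hu : ∀ k ∈ S, π.Creat_B k q g → k = j := fun k hk hb =>
        by_contra fun h => g2 k (Finset.mem_erase.2 ⟨h, hk⟩) hb
      obtain ⟨k, hk, hb⟩ := qO.2 g (h2 j hj hg) g1
      rw [← Reg_eq gp hq] at c1 c2
      exact ⟨(g, decide (g.2 < q.2)), Finset.mem_product.2 ⟨h2 j hj hg, Finset.mem_univ _⟩, q, qO,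
        c1, c2, g1, decide_eq_true_iff.symm, hu k hk hb ▸ hb, hu⟩
    · rintro ⟨g, σ⟩ hg ⟨j, e, f⟩ ⟨ha, q, hq, a1, a2, a3, a4, a5, a6⟩ ⟨j', e', f'⟩
        ⟨hb, q', hq', b1, b2, b3, b4, b5, b6⟩
      replace hg := (Finset.mem_product.1 hg).1
      obtain ⟨hj, m1, -⟩ := mem _ (Finset.mem_filter.1 ha).1
      obtain ⟨hj', m2, -⟩ := mem _ (Finset.mem_filter.1 hb).1
      obtain ⟨lt, he, hf, -⟩ := mem_Ed.1 m1
      obtain ⟨lt', he', hf', -⟩ := mem_Ed.1 m2
      dsimp only at *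
      have key : j = j' ∧ π.Reg S An q' = π.Reg S An q := by
        have hs := a4.trans b4.symm
        have : q.2 ∈ uIcc q'.2 g.2 ∨ q'.2 ∈ uIcc q.2 g.2 := by
          simp only [mem_uIcc]
          rcases lt_or_ge g.2 q.2 with h | h
          · rcases le_total q.2 q'.2 with h' | h'
            exacts [Or.inl (Or.inr ⟨h.le, h'⟩), Or.inr (Or.inr ⟨(hs.1 h).le, h'⟩)]
          · rcases le_total q.2 q'.2 with h' | h'
            exacts [Or.inr (Or.inl ⟨h', not_lt.1 (mt hs.2 h.not_gt)⟩), Or.inl (Or.inl ⟨h', h⟩)]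
        rcases this with h | h
        · exact (Creat_same gp hg hj hq a3 b3 h a5 b6).imp_right (Reg_eq gp)
        · exact (Creat_same gp hg hj' hq' b3 a3 h b5 a6).imp Eq.symm fun h => (Reg_eq gp h).symm
      obtain ⟨rfl, e1⟩ := key
      rw [e1] at b1 b2
      have c1 := between gp hq he hf a1 a2 lt
      have c2 := between gp hq he' hf' b1 b2 lt'
      rw [left_uniq gp he he' a1 b1 (fun y hy => (c1 y hy).1) fun y hy => (c2 y hy).1,
        right_uniq gp hf hf' a2 b2 (fun y hy => (c1 y hy).2) fun y hy => (c2 y hy).2]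
  have n3 : P ⊆ ((P.filter fun a => a.2.1 ∈ π.seg a.1) ∪ P.filter fun a => a.2.2 ∈ π.seg a.1) ∪
      P.filter fun a => a.2.1 ∉ π.seg a.1 ∧ a.2.2 ∉ π.seg a.1 := fun a ha => by
    simp only [Finset.mem_union, Finset.mem_filter, ha, true_and]
    tauto
  have n4 := (Finset.card_le_card n3).trans ((Finset.card_union_le _ _).trans
    (add_le_add (Finset.card_union_le _ _) n2))
  have n5 := n1 Prod.fst fun b hb => (mem_Ed.1 hb).2.1
  have n6 := n1 Prod.snd fun b hb => (mem_Ed.1 hb).2.2.1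
  rw [Finset.card_product, Finset.card_univ, Fintype.card_bool] at n4
  omega

end Sg

end SA
end

-- part: Edge
section
/-!
# Edges of the arrangement with anchored cells on both sides

For `(j, x) ∈ P` look at the crossings of `j` with other segments of `S` at abscissae `< x`.
If there is none, charge the left endpoint of `j` (an anchor on `j` only, `gp.one`); by `hsep` at
most one pair for each `j`.  Otherwise let `v = pt j x₀` be the last one, with the segment `i`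
(`v` is not an anchor by `gp.one`, so it is interior to both, the slopes differ by `GP.slope`, and no
third segment passes through `v`).  Let `σ = 1` if `sl j < sl i` and `σ = -1` otherwise, and let the
cone be the set of `q` with `0 < σ (q.2 - τ j q.1)` and `σ (q.2 - τ i q.1) < 0` (it lies to the
right of `v`).  In a small ball around `v` the cone is a convex subset of `O` (no other segment, no
anchor abscissa in `(x₀, x₀ + r)`), so it lies in a region `Z`.
* `Z` is anchored.  Let `W` be the set of free points joined in `XA` to an anchor.  For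
  `s ∈ (x₀, x]` the point `pt j s` is on no other segment, a small half-ball on the side `σ` is a
  convex subset of `Fr S`, so the property (eventually near `pt j s` the side `σ` lies in `W`) is
  locally constant in `s`, hence constant on `(x₀, x]`.  It holds at `s = x`: `f` and `f'` lie on
  different sides of the line of `j`, and the half-open segment from the one on the side `σ` to `w`
  lies in `XA`.  For `s` near `x₀` this gives a point of the cone in the ball that lies in `W`;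
  use `vis_reg`.
* `Z` lies in the cone: `v ∈ closure Z`, so for `q ∈ Z` the points of the open segment from `q` to
  `v` lie in `Z` (`openSegment_sub_Reg`); `Z ∩ ball` is convex and misses both lines.
* So `(Z, σ)` determines `v` (two apexes lie in the closed cones of each other) and then `j`
  (`gp.three`, the order of the slopes); two pairs with the same `j` and `v` contradict `hsep`.
Total: `|An| + 2 * 4 |An|` (`exists_regF`).
-/

open Set Filter Topology

namespace SA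

namespace Sg

variable {J : Type} {π : Sg J} {S : Finset J} {An : Finset Pt}

/-- The height above the line number `j`. -/
def Edge_h (π : Sg J) (j : J) (q : Pt) : ℝ := q.2 - π.τ j q.1

theorem Edge_cont (j : J) : Continuous (π.Edge_h j) :=
  continuous_snd.sub ((cont_τ j).comp continuous_fst)

theorem Edge_aff (j : J) (p q : Pt) {a b : ℝ} (hab : a + b = 1) :
    π.Edge_h j (a • p + b • q) = a * π.Edge_h j p + b * π.Edge_h j q := by
  obtain rfl : b = 1 - a := by linarith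
  simp only [Edge_h, τ, Prod.snd_add, Prod.smul_snd, Prod.fst_add, Prod.smul_fst, smul_eq_mul]
  ring

theorem Edge_line (j : J) (u q : Pt) (t : ℝ) :
    π.Edge_h j (u + t • (q - u)) = (1 - t) * π.Edge_h j u + t * π.Edge_h j q := by
  simp only [Edge_h, τ, Prod.snd_add, Prod.smul_snd, Prod.fst_add, Prod.smul_fst, smul_eq_mul,
    Prod.fst_sub, Prod.snd_sub]
  ring

theorem Edge_pt (j : J) (x : ℝ) : π.Edge_h j (π.pt j x) = 0 := sub_self _

theorem Edge_seg {j : J} {q : Pt} (h : q ∈ π.seg j) : π.Edge_h j q = 0 := sub_eq_zero.2 h.2.2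

theorem Edge_convex (j : J) (σ : ℝ) : Convex ℝ {q | 0 < σ * π.Edge_h j q} := by
  intro p hp q hq a b ha hb hab
  have := convex_Ioi (𝕜 := ℝ) (0 : ℝ) hp hq ha hb hab
  rw [mem_Ioi, smul_eq_mul, smul_eq_mul] at this
  rw [mem_ofPred_eq, Edge_aff j p q hab]
  linarith

theorem Edge_tend (u d : Pt) : Tendsto (fun t : ℝ => u + t • d) (𝓝[>] 0) (𝓝 u) := by
  have : Continuous fun t : ℝ => u + t • d := by fun_prop
  simpa using (this.tendsto 0).mono_left nhdsWithin_le_nhds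

theorem Edge_diff {i j : J} {x₀ : ℝ} (hv : π.pt j x₀ ∈ π.seg i) (q : Pt) :
    π.Edge_h j q - π.Edge_h i q = (π.sl i - π.sl j) * (q.1 - x₀) := by
  have := hv.2.2
  simp only [Edge_h, τ, pt] at this ⊢
  linarith

/-- A region with an interior point of a segment in its closure lies on one side of its line. -/
theorem Edge_side (gp : π.GP S An) {j : J} (hj : j ∈ S) {p u : Pt} (hu : u ∈ π.seg j)
    (hn : u ∉ An) (hc : u ∈ closure (π.Reg S An p)) {σ : ℝ} (hp : p ∈ π.O S An)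
    (h0 : 0 < σ * π.Edge_h j p) : ∀ q ∈ π.Reg S An p, 0 < σ * π.Edge_h j q := by
  have miss : ∀ q ∈ π.Reg S An p, π.Edge_h j q ≠ 0 := by
    intro q hq h
    obtain ⟨h1, h2⟩ := gp.inner hj hu hn
    obtain ⟨t, t1, t2⟩ := (((Edge_tend u (q - u)).eventually
      (continuousAt_fst.eventually (Ioo_mem_nhds h1 h2))).and (Ioo_mem_nhdsGT one_pos)).exists
    refine (Reg_sub S An p (openSegment_sub_Reg gp hq hc
      ⟨t, 1 - t, t2.1, sub_pos.2 t2.2, by ring, rfl⟩)).1 j hj ?_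
    have e : t • q + (1 - t) • u = u + t • (q - u) := by module
    rw [e]
    refine ⟨t1.1.le, t1.2.le, sub_eq_zero.1 ?_⟩
    change π.Edge_h j _ = 0
    rw [Edge_line, Edge_seg hu, h, mul_zero, mul_zero, add_zero]
  intro q hq
  by_contra h
  obtain ⟨y, hy, e⟩ := (convex_Reg gp p).isPreconnected.intermediate_value hq (mem_Reg_self hp)
    (f := fun q => σ * π.Edge_h j q) (continuous_const.mul (Edge_cont j)).continuousOn
    ⟨not_lt.1 h, h0.le⟩
  rcases mul_eq_zero.1 e with e | e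
  · rw [e, zero_mul] at h0
    exact lt_irrefl _ h0
  · exact miss y hy e

/-- The region in the wedge to the right of the last crossing. -/
theorem Edge_cell (gp : π.GP S An) {i j : J} (hi : i ∈ S) (hj : j ∈ S) (hij : i ≠ j) {x₀ x σ : ℝ}
    (h0 : π.lo j ≤ x₀) (hx : x₀ < x) (h1 : x ≤ π.hi j) (hv : π.pt j x₀ ∈ π.seg i)
    (hσ : 0 < σ * (π.sl i - π.sl j))
    (hfree : ∀ k ∈ S, k ≠ j → ∀ s, x₀ < s → s < x → π.pt j s ∉ π.seg k) {g g' : Pt} (hg : g ∈ An)
    (hw : π.pt j x ∈ openSegment ℝ g g') (hs : 0 < σ * π.Edge_h j g)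
    (hd : ∀ k ∈ S, k ≠ j → Disjoint (openSegment ℝ g g') (π.seg k)) :
    ∃ Z ∈ π.RegA S An, π.pt j x₀ ∈ closure Z ∧ Z.Nonempty ∧
      ∀ q ∈ Z, 0 < σ * π.Edge_h j q ∧ 0 < -σ * π.Edge_h i q := by
  classical
  have hvj : π.pt j x₀ ∈ π.seg j := pt_mem.2 ⟨h0, hx.le.trans h1⟩
  have hn : π.pt j x₀ ∉ An := fun h => hij (gp.one _ h i hi j hj hv hvj)
  have hK : π.pt j '' Icc x₀ x ⊆ π.Fr (S.filter fun k => k ≠ i ∧ k ≠ j) := by
    rintro _ ⟨s, hs, rfl⟩ k hk h
    obtain ⟨k1, k2, k3⟩ := Finset.mem_filter.1 hk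
    rcases hs.1.eq_or_lt with rfl | s1
    · rcases gp.three _ i hi j hj k k1 hv hvj h with e | e | e
      exacts [hij e, k2 e.symm, k3 e.symm]
    rcases hs.2.eq_or_lt with rfl | s2
    · exact disjoint_left.1 (hd k k1 k3) hw h
    · exact hfree k k1 k3 s s1 s2 h
  have hKc : Convex ℝ (π.pt j '' Icc x₀ x) := by
    rintro _ ⟨s, hs, rfl⟩ _ ⟨s', hs', rfl⟩ a b ha hb hab
    refine ⟨a • s + b • s', convex_Icc x₀ x hs hs' ha hb hab, Prod.ext rfl ?_⟩
    have := Edge_aff (π := π) j (π.pt j s) (π.pt j s') hab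
    rw [Edge_pt, Edge_pt, mul_zero, mul_zero, add_zero] at this
    exact (sub_eq_zero.1 this).symm
  obtain ⟨ε, hε, hth⟩ := (isCompact_Icc.image (cont_pt j)).exists_thickening_subset_open
    (isOpen_Fr _) hK
  have hnh : ∀ s ∈ Icc x₀ x, Metric.thickening ε (π.pt j '' Icc x₀ x) ∈ 𝓝 (π.pt j s) :=
    fun s hs => Metric.isOpen_thickening.mem_nhds (Metric.self_subset_thickening hε _ ⟨s, hs, rfl⟩)
  set N := Metric.thickening ε (π.pt j '' Icc x₀ x) ∩
    ({q | 0 < σ * π.Edge_h j q} ∩ {q | 0 < -σ * π.Edge_h i q}) with hN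
  have Nc : Convex ℝ N := (hKc.thickening ε).inter ((Edge_convex j σ).inter (Edge_convex i (-σ)))
  have NF : N ⊆ π.Fr S := by
    rintro q ⟨q1, q2, q3⟩ k hk h
    by_cases e1 : k = i
    · rw [mem_ofPred_eq, ← e1, Edge_seg h, mul_zero] at q3
      exact lt_irrefl _ q3
    by_cases e2 : k = j
    · rw [mem_ofPred_eq, ← e2, Edge_seg h, mul_zero] at q2
      exact lt_irrefl _ q2
    exact hth q1 k (Finset.mem_filter.2 ⟨hk, e1, e2⟩) h
  have Nx : ∀ q ∈ N, x₀ < q.1 := by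
    rintro q ⟨-, q2, q3⟩
    have e := Edge_diff hv q
    have : 0 < σ * (π.sl i - π.sl j) * (q.1 - x₀) := by
      rw [mul_assoc, ← e]
      linarith [mem_ofPred_eq ▸ q2, mem_ofPred_eq ▸ q3]
    exact sub_pos.1 ((mul_pos_iff_of_pos_left hσ).1 this)
  obtain ⟨x₁, y1, y2⟩ := (((eventually_all_finset An).2 fun e _ =>
      (show ∀ᶠ s in 𝓝[>] x₀, e.1 ≤ x₀ ∨ s ≤ e.1 by
        rcases le_or_gt e.1 x₀ with h | h
        · exact Eventually.of_forall fun _ => Or.inl h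
        · filter_upwards [Ioo_mem_nhdsGT h] with s hs using Or.inr hs.2.le)).and
    self_mem_nhdsWithin).exists
  replace y2 : x₀ < x₁ := y2
  have N'c : Convex ℝ (N ∩ {q | q.1 < x₁}) :=
    Nc.inter ((convex_Iio x₁).linear_preimage (LinearMap.fst ℝ ℝ ℝ))
  have N'O : N ∩ {q | q.1 < x₁} ⊆ π.O S An := by
    refine fun q hq => ⟨NF hq.1, fun e he h => ?_⟩
    have a1 := Nx q hq.1
    have a2 : q.1 < x₁ := hq.2
    rcases y1 e he with a | a <;> linarith
  have hev : ∀ᶠ t : ℝ in 𝓝[>] 0, π.pt j x₀ + t • ((1, (π.sl i + π.sl j) / 2) : Pt) ∈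
      N ∩ {q | q.1 < x₁} := by
    filter_upwards [(Edge_tend _ _).eventually (hnh x₀ ⟨le_rfl, hx.le⟩),
      (Edge_tend (π.pt j x₀) (1, (π.sl i + π.sl j) / 2)).eventually
        (continuousAt_fst.eventually (Iio_mem_nhds y2)), self_mem_nhdsWithin] with t t1 t2 t3
    have a1 := mul_pos (show 0 < t from t3) hσ
    have a2 := hv.2.2
    refine ⟨⟨t1, ?_, ?_⟩, t2⟩
    all_goals
      simp only [mem_ofPred_eq, Edge_h, τ, pt, Prod.snd_add, Prod.smul_snd, Prod.fst_add,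
        Prod.smul_fst, smul_eq_mul] at a2 ⊢
    · linarith
    · rw [a2]
      linarith
  obtain ⟨t, hp⟩ := hev.exists
  set p := π.pt j x₀ + t • ((1, (π.sl i + π.sl j) / 2) : Pt)
  have pO := N'O hp
  have hcl : π.pt j x₀ ∈ closure (π.Reg S An p) :=
    closure_mono (sub_Reg gp N'c N'O hp (mem_Reg_self pO))
      (mem_closure_of_tendsto (Edge_tend _ _) hev)
  have wi : 0 < -σ * π.Edge_h i (π.pt j x) := by
    have e := Edge_diff hv (π.pt j x)
    rw [Edge_pt, zero_sub] at e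
    have := mul_pos hσ (sub_pos.2 hx)
    rw [neg_mul_comm, e, ← mul_assoc]
    exact this
  have hj0 : ∀ t : ℝ, 0 < t → 0 < σ * π.Edge_h j (π.pt j x + t • (g - π.pt j x)) := fun t ht => by
    rw [Edge_line, Edge_pt, mul_zero, zero_add, mul_left_comm]
    exact mul_pos ht hs
  obtain ⟨u, ⟨u1, u2⟩, u3⟩ := ((((Edge_tend _ (g - π.pt j x)).eventually
    (hnh x ⟨hx.le, le_rfl⟩)).and ((Edge_tend _ (g - π.pt j x)).eventually
      ((continuous_const.mul (Edge_cont i)).continuousAt.eventually (Ioi_mem_nhds wi)))).and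
        (Ioo_mem_nhdsGT one_pos)).exists
  have hL : (fun t : ℝ => π.pt j x + t • (g - π.pt j x)) '' Icc u 1 ⊆ π.XA S An := by
    rintro _ ⟨t, ht, rfl⟩
    rcases ht.2.eq_or_lt with rfl | t1
    · exact Or.inr (by simpa using hg)
    have t0 := u3.1.trans_le ht.1
    refine Or.inl fun k hk h => ?_
    by_cases e : k = j
    · have := hj0 t t0
      rw [← e] at h this
      rw [e] at h
      rw [e, Edge_seg h, mul_zero] at this
      exact lt_irrefl _ this
    obtain ⟨a, b, ha, hb, hab, e'⟩ := hw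
    refine disjoint_left.1 (hd k hk e) ⟨(1 - t) * a + t, (1 - t) * b,
      add_pos (mul_pos (sub_pos.2 t1) ha) t0, mul_pos (sub_pos.2 t1) hb,
      by linear_combination (1 - t) * hab, ?_⟩ h
    beta_reduce
    rw [← e']
    module
  have hpre : IsPreconnected ((fun t : ℝ => π.pt j x + t • (g - π.pt j x)) '' Icc u 1 ∪ N) :=
    IsPreconnected.union (π.pt j x + u • (g - π.pt j x)) ⟨u, ⟨le_rfl, u3.2.le⟩, rfl⟩
      ⟨u1, hj0 u u3.1, u2⟩ (isPreconnected_Icc.image _ (by fun_prop)) Nc.isPreconnected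
  have hcc : p ∈ cc (π.XA S An) g :=
    hpre.subset_connectedComponentIn (Or.inl ⟨1, ⟨u3.2.le, le_rfl⟩, by simp⟩)
      (union_subset hL (NF.trans subset_union_left)) (Or.inr hp.1)
  obtain ⟨e, he, hec, -⟩ := vis_reg gp hg pO hcc
  exact ⟨_, ⟨p, pO, rfl, e, he, hec⟩, hcl, ⟨p, mem_Reg_self pO⟩, fun q hq =>
    ⟨Edge_side gp hj hvj hn hcl pO hp.1.2.1 q hq, Edge_side gp hi hv hn hcl pO hp.1.2.2 q hq⟩⟩

/-- The closure of a subset of the cone lies in the closed cone. -/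
theorem Edge_apex {i j : J} {x₀ σ : ℝ} (hv : π.pt j x₀ ∈ π.seg i)
    (hσ : 0 < σ * (π.sl i - π.sl j)) {Z : Set Pt}
    (hZ : ∀ q ∈ Z, 0 < σ * π.Edge_h j q ∧ 0 < -σ * π.Edge_h i q) {u : Pt} (hu : u ∈ closure Z) :
    x₀ ≤ u.1 ∧ (u.1 = x₀ → u = π.pt j x₀) := by
  have h1 : 0 ≤ σ * π.Edge_h j u := closure_minimal (fun q hq => (hZ q hq).1.le)
    (isClosed_le continuous_const (continuous_const.mul (Edge_cont j))) hu
  have h2 : 0 ≤ -σ * π.Edge_h i u := closure_minimal (fun q hq => (hZ q hq).2.le)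
    (isClosed_le continuous_const (continuous_const.mul (Edge_cont i))) hu
  have e := Edge_diff hv u
  constructor
  · have : 0 ≤ σ * (π.sl i - π.sl j) * (u.1 - x₀) := by
      rw [mul_assoc, ← e]
      linarith
    exact sub_nonneg.1 (nonneg_of_mul_nonneg_right this hσ)
  · intro h
    rw [h, sub_self, mul_zero, sub_eq_zero] at e
    rw [← e] at h2
    have h3 : σ * π.Edge_h j u = 0 := by linarith
    rcases mul_eq_zero.1 h3 with h4 | h4
    · rw [h4, zero_mul] at hσ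
      exact absurd hσ (lt_irrefl _)
    · exact Prod.ext h (by rw [← h]; exact sub_eq_zero.1 h4)

theorem edge_cls (gp : π.GP S An) (P : Finset (J × ℝ))
    (hP : ∀ a ∈ P, a.1 ∈ S ∧ π.lo a.1 < a.2 ∧ a.2 < π.hi a.1 ∧ ∃ f ∈ An, ∃ f' ∈ An,
      π.pt a.1 a.2 ∈ openSegment ℝ f f' ∧ f.2 ≠ π.τ a.1 f.1 ∧
        ∀ i ∈ S, i ≠ a.1 → Disjoint (openSegment ℝ f f') (π.seg i))
    (hsep : ∀ a ∈ P, ∀ b ∈ P, a.1 = b.1 → a.2 < b.2 →
      ∃ i ∈ S, i ≠ a.1 ∧ ∃ x, a.2 < x ∧ x < b.2 ∧ π.pt a.1 x ∈ π.seg i) :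
    P.card ≤ 9 * An.card := by
  classical
  obtain ⟨T, hT, hT'⟩ := exists_regF gp
  set c : J × ℝ → Prop := fun a =>
    ∃ k ∈ S, k ≠ a.1 ∧ ∃ s, π.lo a.1 ≤ s ∧ s < a.2 ∧ π.pt a.1 s ∈ π.seg k with hc
  have n0 : (P.filter fun a => ¬c a).card ≤ An.card := by
    refine Finset.card_le_card_of_injOn (fun a => π.pt a.1 (π.lo a.1))
      (fun a ha => gp.enL _ (hP a (Finset.mem_filter.1 ha).1).1) fun a ha b hb e => ?_
    obtain ⟨a1, a2⟩ := Finset.mem_filter.1 ha
    obtain ⟨b1, b2⟩ := Finset.mem_filter.1 hb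
    have ja := (hP a a1).1
    have jb := (hP b b1).1
    have e1 : a.1 = b.1 := gp.one _ (gp.enL _ ja) _ ja _ jb (pt_mem.2 ⟨le_rfl, (gp.lt _ ja).le⟩)
      ((show π.pt a.1 (π.lo a.1) = π.pt b.1 (π.lo b.1) from e) ▸
        pt_mem.2 ⟨le_rfl, (gp.lt _ jb).le⟩)
    refine Prod.ext e1 (le_antisymm (not_lt.1 fun h => ?_) (not_lt.1 fun h => ?_))
    · obtain ⟨i, hi, h1, x, h2, h3, h4⟩ := hsep b b1 a a1 e1.symm h
      exact a2 ⟨i, hi, e1 ▸ h1, x, e1 ▸ ((hP b b1).2.1.trans h2).le, h3, e1 ▸ h4⟩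
    · obtain ⟨i, hi, h1, x, h2, h3, h4⟩ := hsep a a1 b b1 e1 h
      exact b2 ⟨i, hi, e1 ▸ h1, x, e1 ▸ ((hP a a1).2.1.trans h2).le, h3, e1 ▸ h4⟩
  have n1 : (P.filter c).card ≤ (T ×ˢ ({1, -1} : Finset ℝ)).card := by
    refine Finset.card_le_card_of_forall_subsingleton (fun a b => ∃ i ∈ S, i ≠ a.1 ∧ ∃ x₀,
      π.lo a.1 ≤ x₀ ∧ x₀ < a.2 ∧ π.pt a.1 x₀ ∈ π.seg i ∧ 0 < b.2 * (π.sl i - π.sl a.1) ∧
      (∀ k ∈ S, k ≠ a.1 → ∀ s, x₀ < s → s < a.2 → π.pt a.1 s ∉ π.seg k) ∧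
      π.pt a.1 x₀ ∈ closure b.1 ∧ b.1.Nonempty ∧
      ∀ q ∈ b.1, 0 < b.2 * π.Edge_h a.1 q ∧ 0 < -b.2 * π.Edge_h i q) ?_ ?_
    · rintro ⟨j, x⟩ ha
      obtain ⟨a1, a2⟩ := Finset.mem_filter.1 ha
      obtain ⟨hj, l1, l2, f, hf, f', hf', hw, hne, hd⟩ := hP _ a1
      dsimp only at hj l1 l2 hw hne hd ⊢
      have hsl : ∀ k ∈ S, k ≠ j → ∀ s, π.lo j ≤ s → s < x → π.pt j s ∈ π.seg k →
          π.sl k ≠ π.sl j := fun k hk hkj s s1 s2 s3 =>
        gp.slope hk hj hkj s3 (pt_mem.2 ⟨s1, (s2.trans l2).le⟩)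
      set C := S.filter fun k => k ≠ j ∧ ∃ s, π.lo j ≤ s ∧ s < x ∧ π.pt j s ∈ π.seg k with hC
      have hs : ∀ k, ∃ s, k ∈ C → π.lo j ≤ s ∧ s < x ∧ π.pt j s ∈ π.seg k := fun k => by
        by_cases hk : k ∈ C
        · obtain ⟨s, h⟩ := (Finset.mem_filter.1 hk).2.2
          exact ⟨s, fun _ => h⟩
        · exact ⟨0, fun h => absurd h hk⟩
      choose ξ hξ using hs
      obtain ⟨i, hi, hmax⟩ := C.exists_max_image ξ (by
        obtain ⟨k, k1, k2⟩ := a2
        exact ⟨k, Finset.mem_filter.2 ⟨k1, k2⟩⟩)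
      obtain ⟨i1, i2, i3⟩ := hξ i hi
      obtain ⟨hiS, hij, -⟩ := Finset.mem_filter.1 hi
      have hfree : ∀ k ∈ S, k ≠ j → ∀ s, ξ i < s → s < x → π.pt j s ∉ π.seg k := by
        intro k hk hkj s s1 s2 s3
        have kC : k ∈ C := Finset.mem_filter.2 ⟨hk, hkj, s, i1.trans s1.le, s2, s3⟩
        have e := Edge_diff (hξ k kC).2.2 (π.pt j s)
        rw [Edge_pt, Edge_seg s3, sub_self, eq_comm, mul_eq_zero, sub_eq_zero, sub_eq_zero] at e
        rcases e with e | e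
        · exact hsl k hk hkj s (i1.trans s1.le) s2 s3 e
        · exact absurd (hmax k kC) (not_le.2 (s1.trans_eq e))
      obtain ⟨σ, σ1, hσ⟩ : ∃ σ ∈ ({1, -1} : Finset ℝ), 0 < σ * (π.sl i - π.sl j) := by
        rcases (hsl i hiS hij _ i1 i2 i3).lt_or_gt with h | h
        · exact ⟨-1, by simp, by linarith⟩
        · exact ⟨1, by simp, by linarith⟩
      obtain ⟨g, hg, g', w1, w2, w3⟩ : ∃ g ∈ An, ∃ g', π.pt j x ∈ openSegment ℝ g g' ∧
          0 < σ * π.Edge_h j g ∧ ∀ k ∈ S, k ≠ j → Disjoint (openSegment ℝ g g') (π.seg k) := by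
        have σ0 : σ ≠ 0 := fun h => by
          rw [h, zero_mul] at hσ
          exact lt_irrefl _ hσ
        rcases (mul_ne_zero σ0 (sub_ne_zero.2 hne)).lt_or_gt with h | h
        · refine ⟨f', hf', f, openSegment_symm ℝ f f' ▸ hw, ?_, openSegment_symm ℝ f f' ▸ hd⟩
          obtain ⟨a, b, ha, hb, hab, e⟩ := hw
          have e1 := Edge_aff (π := π) j f f' hab
          rw [e, Edge_pt] at e1
          have e2 : 0 < b * (σ * π.Edge_h j f') := by
            have := mul_neg_of_pos_of_neg ha (show σ * π.Edge_h j f < 0 from h)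
            linear_combination this + σ * e1
          exact (mul_pos_iff_of_pos_left hb).1 e2
        · exact ⟨f, hf, f', hw, h, hd⟩
      obtain ⟨Z, z1, z2⟩ := Edge_cell gp hiS hj hij i1 i2 l2.le i3 hσ hfree hg w1 w2 w3
      exact ⟨(Z, σ), Finset.mem_product.2 ⟨(hT' Z).2 z1, σ1⟩, i, hiS, hij, ξ i, i1, i2, i3, hσ,
        hfree, z2⟩
    · rintro ⟨Z, σ⟩ - ⟨j, x⟩ ⟨ha, i, hi, hij, x₀, a1, a2, a3, a4, a5, a6, ⟨q, hq⟩, a8⟩ ⟨j', x'⟩
        ⟨hb, i', hi', hij', x₀', b1, b2, b3, b4, b5, b6, -, b8⟩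
      have pa := (Finset.mem_filter.1 ha).1
      have pb := (Finset.mem_filter.1 hb).1
      obtain ⟨hj, -, l2, -⟩ := hP _ pa
      obtain ⟨hj', -, l2', -⟩ := hP _ pb
      dsimp only at *
      obtain ⟨c1, c2⟩ := Edge_apex a3 a4 a8 b6
      obtain ⟨c3, -⟩ := Edge_apex b3 b4 b8 a6
      obtain rfl : x₀ = x₀' := le_antisymm c1 c3
      have e := c2 rfl
      have v1 : π.pt j x₀ ∈ π.seg j := pt_mem.2 ⟨a1, (a2.trans l2).le⟩
      have v2 : π.pt j x₀ ∈ π.seg j' := e ▸ pt_mem.2 ⟨b1, (b2.trans l2').le⟩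
      obtain rfl : j = j' := by
        rcases gp.three _ i hi j hj j' hj' a3 v1 v2 with h | h | h
        · exact absurd h hij
        · have d1 := (a8 q hq).2
          have d2 := (b8 q hq).1
          rw [← h] at d2
          linarith
        · exact h
      refine Prod.ext rfl (le_antisymm (not_lt.1 fun h => ?_) (not_lt.1 fun h => ?_))
      · obtain ⟨k, hk, h1, s, h2, h3, h4⟩ := hsep _ pb _ pa rfl h
        exact a5 k hk h1 s (b2.trans h2) h3 h4
      · obtain ⟨k, hk, h1, s, h2, h3, h4⟩ := hsep _ pa _ pb rfl h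
        exact b5 k hk h1 s (a2.trans h2) h3 h4
  have n2 := Finset.card_filter_add_card_filter_not (s := P) c
  have n3 : ({1, -1} : Finset ℝ).card ≤ 2 := Finset.card_le_two
  rw [Finset.card_product] at n1
  have n4 := Nat.mul_le_mul hT n3
  omega

end Sg

end SA
end

-- part: Col
section
/-!
# Colours, classes, short pairs: definitions
-/

open Set Filter Topology

namespace SA

namespace Sg

variable {J : Type} [DecidableEq J] (π : Sg J)

/-- Two anchors that are joined after the removal of at most `δ` segments. -/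
def Dir (A : Finset J) (An : Finset Pt) (δ : ℕ) (e e' : Pt) : Prop :=
  e ∈ An ∧ e' ∈ An ∧ ∃ Y : Finset J, Y.card ≤ δ ∧ e' ∈ cc (π.XA (A \ Y) An) e

/-- The colour of an anchor. -/
def col (A : Finset J) (An : Finset Pt) (δ : ℕ) (e : Pt) : Set Pt :=
  {e' | Relation.EqvGen (π.Dir A An δ) e e'}

open Classical in
/-- The number of colours. -/
noncomputable def nc (A : Finset J) (An : Finset Pt) (δ : ℕ) : ℕ := (An.image (π.col A An δ)).card

open Classical in
/-- The number of classes of `An₀` in the free space with the anchors `An`. -/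
noncomputable def cls (A : Finset J) (An₀ An : Finset Pt) : ℕ :=
  (An₀.image (cc (π.XA A An))).card

open Classical in
/-- The number of cells of `R` that contain a point of `M`. -/
noncomputable def cl (M : Finset Pt) (R : Finset J) : ℕ := (M.image (cc (π.Fr R))).card

open Classical in
/-- The endpoints of `S` and the points of `M`. -/
noncomputable def EM (S : Finset J) (M : Finset Pt) : Finset Pt := π.En S ∪ M

/-- A normalised configuration: every endpoint is near a marked point. -/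
structure Nm (A : Finset J) (M : Finset Pt) : Prop where
  gp : π.GP A (π.EM A M)
  fr : ∀ m ∈ M, m ∈ π.Fr A
  near : ∀ e ∈ π.En A, ∃ m ∈ M, π.Dir A (π.EM A M) 2 e m

/-- The data of one scale: the configuration and one marked point of each colour. -/
structure Sc where
  A : Finset J
  M : Finset Pt
  Rp : Finset Pt
  δ : ℕ
  y : ℕ
  lam : ℕ
  nm : π.Nm A M
  sub : Rp ⊆ M
  inj : ∀ m ∈ Rp, ∀ m' ∈ Rp, π.col A (π.EM A M) δ m = π.col A (π.EM A M) δ m' → m = m'
  sur : ∀ e ∈ π.EM A M, ∃ m ∈ Rp, π.col A (π.EM A M) δ e = π.col A (π.EM A M) δ m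
  hy : 1 ≤ y
  hδ : 2 * y + 6 ≤ δ
  hlam : 1 ≤ lam

open Classical in
/-- The segments of `A` met by the segment from `f` to `z`, with `f` off their lines. -/
noncomputable def Cr (A : Finset J) (f z : Pt) : Finset J :=
  A.filter fun j => f.2 ≠ π.τ j f.1 ∧ ∃ w ∈ segment ℝ f z, w ∈ π.seg j

open Classical in
/-- The segments of `A` that meet the open segment from `f` to `f'`. -/
noncomputable def Mt (A : Finset J) (f f' : Pt) : Finset J :=
  A.filter fun j => ∃ w ∈ openSegment ℝ f f', w ∈ π.seg j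

variable {π}

omit [DecidableEq J] in
theorem mem_EM {S : Finset J} {M : Finset Pt} {e : Pt} : e ∈ π.EM S M ↔ e ∈ π.En S ∨ e ∈ M := by
  simp only [EM, Finset.mem_union]

omit [DecidableEq J] in
theorem card_EM (S : Finset J) (M : Finset Pt) : (π.EM S M).card ≤ 2 * S.card + M.card := by
  classical
  unfold EM
  exact (Finset.card_union_le _ _).trans (Nat.add_le_add_right (card_En S) _)

omit [DecidableEq J] in
theorem EM_mono {S S' : Finset J} {M M' : Finset Pt} (h : S ⊆ S') (h' : M ⊆ M') :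
    π.EM S M ⊆ π.EM S' M' := fun _ he =>
  mem_EM.2 ((mem_EM.1 he).imp (fun h1 => En_mono h h1) fun h1 => h' h1)

omit [DecidableEq J] in
theorem En_sub_EM (S : Finset J) (M : Finset Pt) : π.En S ⊆ π.EM S M :=
  fun _ he => mem_EM.2 (Or.inl he)

omit [DecidableEq J] in
theorem mem_Cr {A : Finset J} {f z : Pt} {j : J} :
    j ∈ π.Cr A f z ↔ j ∈ A ∧ f.2 ≠ π.τ j f.1 ∧ ∃ w ∈ segment ℝ f z, w ∈ π.seg j := by
  simp only [Cr, Finset.mem_filter]

omit [DecidableEq J] in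
theorem mem_Mt {A : Finset J} {f f' : Pt} {j : J} :
    j ∈ π.Mt A f f' ↔ j ∈ A ∧ ∃ w ∈ openSegment ℝ f f', w ∈ π.seg j := by
  simp only [Mt, Finset.mem_filter]

variable {A : Finset J} {An : Finset Pt} {δ : ℕ} {e e' : Pt}

theorem col_eq_iff : π.col A An δ e = π.col A An δ e' ↔ Relation.EqvGen (π.Dir A An δ) e e' := by
  refine ⟨fun h => ?_, fun h => Set.ext fun g => ⟨fun h' => h.symm _ _ |>.trans _ _ _ h',
    fun h' => h.trans _ _ _ h'⟩⟩
  have : e' ∈ π.col A An δ e' := Relation.EqvGen.refl e'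
  rwa [← h] at this

theorem col_eq_of_join (he : e ∈ An) (he' : e' ∈ An) {Y : Finset J} (hY : Y.card ≤ δ)
    (h : e' ∈ cc (π.XA (A \ Y) An) e) : π.col A An δ e = π.col A An δ e' :=
  col_eq_iff.2 (Relation.EqvGen.rel _ _ ⟨he, he', Y, hY, h⟩)

theorem Dir.mono {δ' : ℕ} (h : π.Dir A An δ e e') (hδ : δ ≤ δ') : π.Dir A An δ' e e' := by
  obtain ⟨h1, h2, Y, hY, h3⟩ := h
  exact ⟨h1, h2, Y, hY.trans hδ, h3⟩

theorem nc_le_one (h : A.card ≤ δ) : π.nc A An δ ≤ 1 := by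
  classical
  refine Finset.card_le_one.2 fun a ha b hb => ?_
  obtain ⟨e, he, rfl⟩ := Finset.mem_image.1 ha
  obtain ⟨e', he', rfl⟩ := Finset.mem_image.1 hb
  refine col_eq_of_join he he' h ?_
  have : π.XA (A \ A) An = univ := eq_univ_of_forall fun q => Or.inl fun j hj => by simp at hj
  rw [this]
  exact isPreconnected_univ.subset_connectedComponentIn (mem_univ e) subset_rfl (mem_univ e')

omit [DecidableEq J] in
theorem cl_mono (M : Finset Pt) {R R' : Finset J} (h : R ⊆ R') (hM : ∀ m ∈ M, m ∈ π.Fr R') :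
    π.cl M R ≤ π.cl M R' := by
  classical
  unfold cl
  have e : M.image (cc (π.Fr R)) =
      (M.image (cc (π.Fr R'))).image fun K => ⋃ q ∈ K, cc (π.Fr R) q := by
    rw [Finset.image_image]
    refine Finset.image_congr fun m hm => ?_
    have h1 : ∀ q ∈ cc (π.Fr R') m, cc (π.Fr R) q = cc (π.Fr R) m := fun q hq =>
      (connectedComponentIn_eq (connectedComponentIn_mono m (Fr_mono h) hq)).symm
    refine Subset.antisymm (fun q hq => mem_biUnion (mem_connectedComponentIn (hM m hm)) hq) ?_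
    exact iUnion₂_subset fun q hq => (h1 q hq).le
  rw [e]
  exact Finset.card_image_le

namespace Sc

variable (s : π.Sc)

/-- The colouring. -/
def κ (e : Pt) : Set Pt := π.col s.A (π.EM s.A s.M) s.δ e

/-- All endpoints and the representatives. -/
noncomputable def As : Finset Pt := π.EM s.A s.Rp

/-- The edges of a sample. -/
noncomputable def H (R : Finset J) : Finset (Pt × Pt) := π.Ed R (π.EM R s.Rp)

/-- Short pairs. -/
def Sh (f f' : Pt) : Prop := f ∈ s.As ∧ f' ∈ s.As ∧ s.κ f ≠ s.κ f' ∧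
  (∀ g ∈ s.As, g ∉ openSegment ℝ f f') ∧ (π.PC s.A f f').card < s.lam

/-- The first `y` crossings of a short pair. -/
def Wt (f f' z : Pt) : Prop := s.Sh f f' ∧ z ∈ openSegment ℝ f f' ∧
  (∃ j ∈ s.A, z ∈ π.seg j ∧ f.2 ≠ π.τ j f.1) ∧ s.y ≤ (π.Cr s.A f z).card ∧
    (π.Cr s.A f z).card ≤ s.y + 1

open Classical in
/-- The segments near the colour of `m`. -/
noncomputable def Yc (m : Pt) : Finset J :=
  s.A.filter fun j => ∃ f f' z, s.Wt f f' z ∧ s.κ f = s.κ m ∧ j ∈ π.Cr s.A f z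

open Classical in
/-- The colours with a short pair that survives in `R`. -/
noncomputable def Bad (R : Finset J) : Finset Pt :=
  s.Rp.filter fun m => ∃ f f', s.Sh f f' ∧ s.κ f = s.κ m ∧ Disjoint (π.PC s.A f f') R

theorem mem_Yc {m : Pt} {j : J} : j ∈ s.Yc m ↔
    j ∈ s.A ∧ ∃ f f' z, s.Wt f f' z ∧ s.κ f = s.κ m ∧ j ∈ π.Cr s.A f z := by
  simp only [Yc, Finset.mem_filter]

theorem mem_Bad {m : Pt} {R : Finset J} : m ∈ s.Bad R ↔
    m ∈ s.Rp ∧ ∃ f f', s.Sh f f' ∧ s.κ f = s.κ m ∧ Disjoint (π.PC s.A f f') R := by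
  simp only [Bad, Finset.mem_filter]

theorem As_sub : s.As ⊆ π.EM s.A s.M := EM_mono subset_rfl s.sub

/-- General position of a sample with its own endpoints. -/
theorem gpR {R : Finset J} (h : R ⊆ s.A) : π.GP R (π.EM R s.Rp) :=
  s.nm.gp.sub h (EM_mono h s.sub) (En_sub_EM _ _)

/-- General position of a sample with all endpoints. -/
theorem gpAs {R : Finset J} (h : R ⊆ s.A) : π.GP R s.As :=
  s.nm.gp.sub h s.As_sub ((En_mono h).trans (En_sub_EM _ _))

theorem card_Rp : s.Rp.card = π.nc s.A (π.EM s.A s.M) s.δ := by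
  classical
  unfold nc
  rw [← Finset.card_image_of_injOn (f := π.col s.A (π.EM s.A s.M) s.δ) fun m hm m' hm' =>
    s.inj m hm m' hm']
  congr 1
  refine Finset.Subset.antisymm (Finset.image_subset_image fun m hm =>
    mem_EM.2 (Or.inr (s.sub hm))) fun K hK => ?_
  obtain ⟨e, he, rfl⟩ := Finset.mem_image.1 hK
  obtain ⟨m, hm, h⟩ := s.sur e he
  exact Finset.mem_image.2 ⟨m, hm, h.symm⟩

end Sc

/-- Representatives exist. -/
theorem Nm.exists_rep {M : Finset Pt} (h : π.Nm A M) (hδ : 2 ≤ δ) : ∃ Rp ⊆ M,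
    (∀ m ∈ Rp, ∀ m' ∈ Rp, π.col A (π.EM A M) δ m = π.col A (π.EM A M) δ m' → m = m') ∧
      ∀ e ∈ π.EM A M, ∃ m ∈ Rp, π.col A (π.EM A M) δ e = π.col A (π.EM A M) δ m := by
  classical
  obtain ⟨Rp, h1, h2, h3⟩ := Finset.exists_subset_injOn_image_eq_of_surjOn
    (f := π.col A (π.EM A M) δ) (M : Set Pt) (M.image (π.col A (π.EM A M) δ)) (by
      intro K hK
      simpa using hK)
  have key : ∀ m ∈ M, ∃ m' ∈ Rp, π.col A (π.EM A M) δ m = π.col A (π.EM A M) δ m' := by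
    intro m hm
    have := Finset.mem_image_of_mem (π.col A (π.EM A M) δ) hm
    rw [← h3] at this
    obtain ⟨m', h4, h5⟩ := Finset.mem_image.1 this
    exact ⟨m', h4, h5.symm⟩
  refine ⟨Rp, Finset.coe_subset.1 h1, fun m hm m' hm' e => h2 hm hm' e, fun e he => ?_⟩
  rcases mem_EM.1 he with h4 | h4
  · obtain ⟨m, hm, h5⟩ := h.near e h4
    obtain ⟨m', h6, h7⟩ := key m hm
    exact ⟨m', h6, (col_eq_iff.2 (Relation.EqvGen.rel _ _ (h5.mono hδ))).trans h7⟩
  · exact key e h4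

end Sg

end SA
end

-- part: Merge
section
/-!
# Merging all anchors into one cell by cut points

`generic`: finitely many lines do not cover a nonempty open set.

`merge_step`: if all `Dir`-related pairs had the same class `cc (XA A An)`, the class would be a
function of the colour and `cls ≤ nc`.  So some pair `e, e'` with a set `Y`, `|Y| ≤ δ`, lies in two
classes.  `vis_chain` in the configuration `(A \ Y, An)` (`GP.sub`, `XA_mono`) gives `Adj f f'` with
`f, f' ∈ An` in different classes; let `Q` be their region, say `f.1 < f'.1`, so all points of `Q`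
lie strictly between (`between`).  Take `c ∈ Q` off the lines of `A`, off the lines from `f` or `f'`
to a crossing point of two segments of `A` (such a point is not an anchor, `gp.one`) and off the
lines from `f` or `f'` to the points `pt j g.1`, `g ∈ An`, `j ∈ A`, that differ from `f`, `f'`.
The new anchors are the points of `[f, c] ∪ [c, f']` other than `f, f'` that lie on a segment of `A`;
they lie in `Q` (`openSegment_sub_Reg`), so on segments of `Y`, at most one on each of the two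
pieces for each `j ∈ Y`.  Each lies on one segment; the abscissae are new and distinct (the path is
monotone in the abscissa).  The path lies in `XA A An'`, so `f`, `f'` and the new points are joined;
`f` and `f'` are joined to points of `An₀` with different old classes, and classes only merge.

`merge_level`: induction on `cls`; `merge_all`: induction on the level, `nc_le_one` at the end
(`cls ≤ |An₀|` at the start; if `cls ≤ 1` all anchors are joined by the invariant).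
-/

open Set Filter Topology

namespace SA

namespace Sg

variable {J : Type} [DecidableEq J] {π : Sg J} {A : Finset J} {An₀ An : Finset Pt}

/-- A point of an open set that is not collinear with finitely many given pairs. -/
theorem generic {Q : Set Pt} (hQ : IsOpen Q) (hn : Q.Nonempty) (T : Finset (Pt × Pt))
    (hT : ∀ a ∈ T, a.1 ≠ a.2) : ∃ c ∈ Q, ∀ a ∈ T,
      (c.1 - a.1.1) * (a.2.2 - a.1.2) ≠ (c.2 - a.1.2) * (a.2.1 - a.1.1) := by
  classical
  induction T using Finset.induction_on generalizing Q with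
  | empty =>
    obtain ⟨c, hc⟩ := hn
    exact ⟨c, hc, fun a ha => absurd ha (Finset.notMem_empty a)⟩
  | insert a T _ ih =>
    have ha := hT a (Finset.mem_insert_self a T)
    have hne : (Q ∩ {c : Pt |
        (c.1 - a.1.1) * (a.2.2 - a.1.2) ≠ (c.2 - a.1.2) * (a.2.1 - a.1.1)}).Nonempty := by
      obtain ⟨q, hq⟩ := hn
      by_cases h0 : (q.1 - a.1.1) * (a.2.2 - a.1.2) = (q.2 - a.1.2) * (a.2.1 - a.1.1)
      swap
      · exact ⟨q, hq, h0⟩
      have hc : Continuous fun t : ℝ =>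
          ((q.1 + t * (a.2.2 - a.1.2), q.2 - t * (a.2.1 - a.1.1)) : Pt) := by fun_prop
      have ht : Tendsto (fun t : ℝ =>
          ((q.1 + t * (a.2.2 - a.1.2), q.2 - t * (a.2.1 - a.1.1)) : Pt)) (𝓝 0) (𝓝 q) := by
        simpa using hc.tendsto 0
      obtain ⟨t, t1, t2⟩ := (((ht.eventually (hQ.mem_nhds hq)).filter_mono
        (nhdsWithin_le_nhds (s := Ioi 0))).and self_mem_nhdsWithin).exists
      replace t2 : 0 < t := t2
      refine ⟨_, t1, fun h1 => ha ?_⟩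
      have h2 : t * ((a.2.2 - a.1.2) ^ 2 + (a.2.1 - a.1.1) ^ 2) = 0 := by
        dsimp only at h1
        linear_combination h1 - h0
      have h3 := (mul_eq_zero.1 h2).resolve_left t2.ne'
      obtain ⟨h4, h5⟩ := (add_eq_zero_iff_of_nonneg (sq_nonneg _) (sq_nonneg _)).1 h3
      rw [pow_eq_zero_iff two_ne_zero] at h4 h5
      exact Prod.ext (by linarith) (by linarith)
    obtain ⟨c, hc, h1⟩ := ih (hQ.inter (isOpen_ne_fun (by fun_prop) (by fun_prop))) hne
      fun b hb => hT b (Finset.mem_insert_of_mem hb)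
    refine ⟨c, hc.1, fun b hb => ?_⟩
    rcases Finset.mem_insert.1 hb with rfl | hb
    exacts [hc.2, h1 b hb]

/-- The invariant. -/
structure Inv (π : Sg J) (A : Finset J) (An₀ An : Finset Pt) : Prop where
  gp : π.GP A An
  sub : An₀ ⊆ An
  join : ∀ z ∈ An, ∃ e ∈ An₀, z ∈ cc (π.XA A An) e

theorem Merge_fac {α β γ : Type} [Nonempty α] [DecidableEq β] [DecidableEq γ] (S : Finset α)
    (k : α → β) (k' : α → γ) (h : ∀ a ∈ S, ∀ b ∈ S, k a = k b → k' a = k' b) :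
    ∃ G : β → γ, S.image k' = (S.image k).image G ∧ ∀ a ∈ S, G (k a) = k' a := by
  have key : ∀ a ∈ S, k' (Function.invFunOn k (S : Set α) (k a)) = k' a := fun a ha => by
    have hx : ∃ a' ∈ (S : Set α), k a' = k a := ⟨a, ha, rfl⟩
    exact h _ (Function.invFunOn_mem hx) a ha (Function.invFunOn_eq hx)
  refine ⟨fun C => k' (Function.invFunOn k (S : Set α) C), ?_, key⟩
  rw [Finset.image_image]
  exact Finset.image_congr fun a ha => (key a ha).symm

omit [DecidableEq J] in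
theorem Merge_uniq {c g w w' : Pt} {j : J} (hc : c.2 ≠ π.τ j c.1) (hw : w ∈ openSegment ℝ c g)
    (hw' : w' ∈ openSegment ℝ c g) (hs : w ∈ π.seg j) (hs' : w' ∈ π.seg j) : w = w' := by
  obtain ⟨a, b, ha, -, hab, rfl⟩ := hw
  obtain ⟨a', b', -, -, hab', rfl⟩ := hw'
  have h1 := hs.2.2
  have h2 := hs'.2.2
  simp only [Prod.snd_add, Prod.smul_snd, Prod.fst_add, Prod.smul_fst, smul_eq_mul, τ] at h1 h2 hc
  obtain rfl : b = 1 - a := by linarith
  obtain rfl : b' = 1 - a' := by linarith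
  have h3 : (a - a') * (c.2 - (π.sl j * c.1 + π.ic j)) = 0 := by
    linear_combination (1 - a') * h1 - (1 - a) * h2
  obtain rfl : a = a' := sub_eq_zero.1 ((mul_eq_zero.1 h3).resolve_right (sub_ne_zero.2 hc))
  rfl

theorem Merge_fst {c g w w' : Pt} (hc : c.1 ≠ g.1) (hw : w ∈ openSegment ℝ c g)
    (hw' : w' ∈ openSegment ℝ c g) (h : w.1 = w'.1) : w = w' := by
  obtain ⟨a, b, -, -, hab, rfl⟩ := hw
  obtain ⟨a', b', -, -, hab', rfl⟩ := hw'
  simp only [Prod.fst_add, Prod.smul_fst, smul_eq_mul] at h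
  obtain rfl : b = 1 - a := by linarith
  obtain rfl : b' = 1 - a' := by linarith
  have h3 : (a - a') * (c.1 - g.1) = 0 := by linear_combination h
  obtain rfl : a = a' := sub_eq_zero.1 ((mul_eq_zero.1 h3).resolve_right (sub_ne_zero.2 hc))
  rfl

theorem Merge_lt {c g w : Pt} (hw : w ∈ openSegment ℝ c g) :
    (g.1 < c.1 → g.1 < w.1 ∧ w.1 < c.1) ∧ (c.1 < g.1 → c.1 < w.1 ∧ w.1 < g.1) := by
  obtain ⟨a, b, ha, hb, hab, rfl⟩ := hw
  simp only [Prod.fst_add, Prod.smul_fst, smul_eq_mul]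
  obtain rfl : b = 1 - a := by linarith
  refine ⟨fun h => ?_, fun h => ?_⟩
  · have h1 := mul_pos ha (sub_pos.2 h)
    have h2 := mul_pos hb (sub_pos.2 h)
    constructor <;> linarith
  · have h1 := mul_pos ha (sub_pos.2 h)
    have h2 := mul_pos hb (sub_pos.2 h)
    constructor <;> linarith

omit [DecidableEq J] in
/-- The cut points on one piece of the path. -/
theorem Merge_cut (A Y : Finset J) {c : Pt} (g : Pt) (hc : ∀ j ∈ A, c.2 ≠ π.τ j c.1) :
    ∃ N : Finset Pt, N.card ≤ Y.card ∧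
      ∀ w, w ∈ N ↔ w ∈ openSegment ℝ c g ∧ ∃ j ∈ A, j ∈ Y ∧ w ∈ π.seg j := by
  classical
  refine ⟨(Y.filter fun j => j ∈ A ∧ ∃ w, w ∈ openSegment ℝ c g ∧ w ∈ π.seg j).image fun j =>
    Classical.epsilon fun w => w ∈ openSegment ℝ c g ∧ w ∈ π.seg j,
    Finset.card_image_le.trans (Finset.card_filter_le _ _), fun w => ?_⟩
  simp only [Finset.mem_image, Finset.mem_filter]
  constructor
  · rintro ⟨j, ⟨h1, h2, h3⟩, rfl⟩
    have h4 := Classical.epsilon_spec h3
    exact ⟨h4.1, j, h2, h1, h4.2⟩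
  · rintro ⟨h1, j, h2, h3, h4⟩
    have h5 := Classical.epsilon_spec
      (p := fun w => w ∈ openSegment ℝ c g ∧ w ∈ π.seg j) ⟨w, h1, h4⟩
    exact ⟨j, ⟨h3, h2, w, h1, h4⟩, Merge_uniq (hc j h2) h5.1 h1 h5.2 h4⟩

omit [DecidableEq J] in
/-- A generic centre. -/
theorem Merge_centre (gp : π.GP A An) {Q : Set Pt} (hQ : IsOpen Q) (hn : Q.Nonempty) {f f' : Pt}
    (hb : ∀ q ∈ Q, f.1 < q.1 ∧ q.1 < f'.1) : ∃ c ∈ Q, (∀ j ∈ A, c.2 ≠ π.τ j c.1) ∧
      ∀ g, g = f ∨ g = f' → ∀ w ∈ openSegment ℝ c g, ∀ j ∈ A, w ∈ π.seg j →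
        (∀ e ∈ An, w.1 ≠ e.1) ∧ ∀ j' ∈ A, w ∈ π.seg j' → j = j' := by
  classical
  obtain ⟨P, hP1, hP2⟩ : ∃ P : Finset Pt, (∀ j ∈ A, ∀ e ∈ An, π.pt j e.1 ∈ P) ∧
      ∀ j ∈ A, ∀ j' ∈ A, π.pt j ((π.ic j' - π.ic j) / (π.sl j - π.sl j')) ∈ P :=
    ⟨((A ×ˢ An).image fun a => π.pt a.1 a.2.1) ∪
      (A ×ˢ A).image fun a => π.pt a.1 ((π.ic a.2 - π.ic a.1) / (π.sl a.1 - π.sl a.2)),
      fun j hj e he => Finset.mem_union_left _
        (Finset.mem_image.2 ⟨(j, e), Finset.mem_product.2 ⟨hj, he⟩, rfl⟩),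
      fun j hj j' hj' => Finset.mem_union_right _
        (Finset.mem_image.2 ⟨(j, j'), Finset.mem_product.2 ⟨hj, hj'⟩, rfl⟩)⟩
  obtain ⟨c, hc, hT⟩ := generic hQ hn
    (((({f, f'} : Finset Pt) ×ˢ P).filter fun a => a.1 ≠ a.2) ∪
      A.image fun j => (π.pt j 0, π.pt j 1)) (by
      intro a ha
      rcases Finset.mem_union.1 ha with h1 | h1
      · exact (Finset.mem_filter.1 h1).2
      · obtain ⟨j, -, rfl⟩ := Finset.mem_image.1 h1
        exact fun h2 => zero_ne_one (congrArg Prod.fst h2))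
  have hno : ∀ g, g = f ∨ g = f' → ∀ w ∈ openSegment ℝ c g, w ∉ P := by
    intro g hg w hw hP
    have hne : g ≠ w := by
      rintro rfl
      rcases hg with rfl | rfl
      · exact lt_irrefl _ ((Merge_lt hw).1 (hb c hc).1).1
      · exact lt_irrefl _ ((Merge_lt hw).2 (hb c hc).2).2
    refine hT (g, w) (Finset.mem_union_left _ (Finset.mem_filter.2
      ⟨Finset.mem_product.2 ⟨by simpa using hg, hP⟩, hne⟩)) ?_
    obtain ⟨a, b, -, -, hab, rfl⟩ := hw
    obtain rfl : b = 1 - a := by linarith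
    simp only [Prod.snd_add, Prod.smul_snd, Prod.fst_add, Prod.smul_fst, smul_eq_mul]
    ring
  refine ⟨c, hc, fun j hj h1 => ?_, fun g hg w hw j hj hs => ⟨fun e he h1 => ?_, fun j' hj' hs' => ?_⟩⟩
  · refine hT _ (Finset.mem_union_right _ (Finset.mem_image_of_mem _ hj)) ?_
    simp only [pt, τ] at h1 ⊢
    rw [h1]
    ring
  · refine hno g hg w hw ?_
    rw [eq_pt hs, h1]
    exact hP1 j hj e he
  · by_contra hne
    have h1 := sub_ne_zero.2 (gp.slope hj hj' hne hs hs')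
    have h2 := hs.2.2.symm.trans hs'.2.2
    refine hno g hg w hw ?_
    have h3 : w.1 = (π.ic j' - π.ic j) / (π.sl j - π.sl j') := by
      rw [eq_div_iff h1]
      simp only [τ] at h2
      linear_combination h2
    rw [eq_pt hs, h3]
    exact hP2 j hj j' hj'

/-- Two adjacent anchors of a subconfiguration are joined by few new anchors. -/
theorem Merge_core (gp : π.GP A An) (Y : Finset J) {f f' : Pt} (h : π.Adj (A \ Y) An f f')
    (hlt : f.1 < f'.1) : ∃ An' : Finset Pt, π.GP A An' ∧ An ⊆ An' ∧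
      An'.card ≤ An.card + 2 * Y.card ∧ f' ∈ cc (π.XA A An') f ∧
        ∀ z ∈ An', z ∈ An ∨ z ∈ cc (π.XA A An') f := by
  classical
  obtain ⟨hf, hf', p, hp, h1, h2⟩ := h
  have gp' : π.GP (A \ Y) An :=
    gp.sub Finset.sdiff_subset subset_rfl ((En_mono Finset.sdiff_subset).trans gp.En_sub)
  have hb := between gp' hp hf hf' h1 h2 hlt
  obtain ⟨c, hc, c1, c2⟩ := Merge_centre gp (isOpen_Reg gp' p) ⟨p, mem_Reg_self hp⟩ hb
  obtain ⟨N, n1, n2⟩ := Merge_cut (π := π) A Y f c1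
  obtain ⟨N', n1', n2'⟩ := Merge_cut (π := π) A Y f' c1
  have hsub : An ⊆ An ∪ (N ∪ N') := Finset.subset_union_left
  have hnew : ∀ w ∈ An ∪ (N ∪ N'), w ∈ An ∨
      ∃ g, (g = f ∨ g = f') ∧ w ∈ openSegment ℝ c g ∧ ∃ j ∈ A, w ∈ π.seg j := by
    intro w hw
    rcases Finset.mem_union.1 hw with h3 | h3
    · exact Or.inl h3
    rcases Finset.mem_union.1 h3 with h4 | h4
    · obtain ⟨h5, j, h6, -, h7⟩ := (n2 w).1 h4
      exact Or.inr ⟨f, Or.inl rfl, h5, j, h6, h7⟩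
    · obtain ⟨h5, j, h6, -, h7⟩ := (n2' w).1 h4
      exact Or.inr ⟨f', Or.inr rfl, h5, j, h6, h7⟩
  have hpath : ∀ g, g = f ∨ g = f' → segment ℝ c g ⊆ cc (π.XA A (An ∪ (N ∪ N'))) c := by
    intro g hg
    refine (convex_segment c g).isPreconnected.subset_connectedComponentIn
      (left_mem_segment _ _ _) ?_
    rw [← insert_endpoints_openSegment]
    rintro w (rfl | rfl | hw)
    · exact Or.inl fun j hj hs => c1 j hj hs.2.2
    · refine Or.inr (Finset.mem_coe.2 (hsub ?_))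
      rcases hg with rfl | rfl
      exacts [hf, hf']
    · by_cases h3 : w ∈ π.Fr A
      · exact Or.inl h3
      simp only [Fr, mem_ofPred_eq, not_forall, not_not] at h3
      obtain ⟨j, hj, hs⟩ := h3
      have h4 : w ∈ π.Reg (A \ Y) An p := by
        refine openSegment_sub_Reg gp' hc ?_ hw
        rcases hg with rfl | rfl
        exacts [h1, h2]
      have h5 : j ∈ Y := by
        by_contra h5
        exact (Reg_sub _ _ _ h4).1 j (Finset.mem_sdiff.2 ⟨hj, h5⟩) hs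
      refine Or.inr (Finset.mem_coe.2 (Finset.mem_union_right _ ?_))
      rcases hg with rfl | rfl
      · exact Finset.mem_union_left _ ((n2 w).2 ⟨hw, j, hj, h5, hs⟩)
      · exact Finset.mem_union_right _ ((n2' w).2 ⟨hw, j, hj, h5, hs⟩)
  have hcf : cc (π.XA A (An ∪ (N ∪ N'))) c = cc (π.XA A (An ∪ (N ∪ N'))) f :=
    connectedComponentIn_eq (hpath f (Or.inl rfl) (right_mem_segment _ _ _))
  refine ⟨An ∪ (N ∪ N'), ⟨gp.lt, fun j hj => hsub (gp.enL j hj), fun j hj => hsub (gp.enR j hj),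
    fun e he e' he' h3 => ?_, fun e he j hj j' hj' hs hs' => ?_, gp.three⟩, hsub, ?_, ?_,
    fun z hz => ?_⟩
  · rcases hnew e he with h4 | ⟨g, hg, h4, j, hj, hs⟩
    · rcases hnew e' he' with h5 | ⟨g', hg', h5, j', hj', hs'⟩
      · exact gp.inj e h4 e' h5 h3
      · exact absurd h3.symm ((c2 g' hg' e' h5 j' hj' hs').1 e h4)
    · rcases hnew e' he' with h5 | ⟨g', hg', h5, -⟩
      · exact absurd h3 ((c2 g hg e h4 j hj hs).1 e' h5)
      · obtain ⟨b1, b2⟩ := hb c hc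
        rcases hg with rfl | rfl <;> rcases hg' with rfl | rfl
        · exact Merge_fst b1.ne' h4 h5 h3
        · exact absurd h3 (((Merge_lt h4).1 b1).2.trans ((Merge_lt h5).2 b2).1).ne
        · exact absurd h3 (((Merge_lt h5).1 b1).2.trans ((Merge_lt h4).2 b2).1).ne'
        · exact Merge_fst b2.ne h4 h5 h3
  · rcases hnew e he with h4 | ⟨g, hg, h4, -⟩
    · exact gp.one e h4 j hj j' hj' hs hs'
    · exact (c2 g hg e h4 j hj hs).2 j' hj' hs'
  · have h3 := Finset.card_union_le An (N ∪ N')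
    have h4 := Finset.card_union_le N N'
    omega
  · rw [← hcf]
    exact hpath f' (Or.inr rfl) (right_mem_segment _ _ _)
  · rcases hnew z hz with h4 | ⟨g, hg, h4, -⟩
    · exact Or.inl h4
    · rw [← hcf]
      exact Or.inr (hpath g hg (openSegment_subset_segment _ _ _ h4))

theorem merge_step (h : Inv π A An₀ An) {δ : ℕ} (hc : π.nc A An₀ δ < π.cls A An₀ An) :
    ∃ An', Inv π A An₀ An' ∧ An'.card ≤ An.card + 2 * δ ∧ π.cls A An₀ An' < π.cls A An₀ An := by
  classical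
  obtain ⟨e, e', ⟨he, he', Y, hY, hj⟩, hne⟩ : ∃ e e', π.Dir A An₀ δ e e' ∧
      cc (π.XA A An) e ≠ cc (π.XA A An) e' := by
    by_contra hn
    have key : ∀ e e', Relation.EqvGen (π.Dir A An₀ δ) e e' →
        cc (π.XA A An) e = cc (π.XA A An) e' := by
      intro e e' h1
      induction h1 with
      | rel a b h2 => exact by_contra fun h3 => hn ⟨a, b, h2, h3⟩
      | refl a => rfl
      | symm a b _ ih => exact ih.symm
      | trans a b d _ _ ih ih' => exact ih.trans ih'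
    obtain ⟨G, h1, -⟩ := Merge_fac An₀ (π.col A An₀ δ) (cc (π.XA A An))
      fun a _ b _ h2 => key a b (col_eq_iff.1 h2)
    refine absurd hc (not_lt.2 ?_)
    unfold cls nc
    rw [h1]
    exact Finset.card_image_le
  have gp' : π.GP (A \ Y) An :=
    h.gp.sub Finset.sdiff_subset subset_rfl ((En_mono Finset.sdiff_subset).trans h.gp.En_sub)
  have hch := vis_chain gp' (h.sub he) (h.sub he')
    (connectedComponentIn_mono e (XA_mono subset_rfl h.sub) hj)
  obtain ⟨f, f', hadj, hlt, hff⟩ : ∃ f f', π.Adj (A \ Y) An f f' ∧ f.1 < f'.1 ∧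
      cc (π.XA A An) f ≠ cc (π.XA A An) f' := by
    by_contra hn
    refine hne ?_
    clear hne hj he'
    induction hch with
    | refl => rfl
    | @tail a b _ h2 ih =>
      refine ih.trans (by_contra fun h3 => ?_)
      rcases lt_trichotomy a.1 b.1 with h4 | h4 | h4
      · exact hn ⟨a, b, h2, h4, h3⟩
      · exact h3 (congrArg _ (h.gp.inj a h2.1 b h2.2.1 h4))
      · exact hn ⟨b, a, h2.symm, h4, Ne.symm h3⟩
  obtain ⟨An', gp1, hs, hcard, hj1, hj2⟩ := Merge_core h.gp Y hadj hlt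
  have hmono : ∀ z, cc (π.XA A An) z ⊆ cc (π.XA A An') z := fun z =>
    connectedComponentIn_mono z (XA_mono subset_rfl hs)
  obtain ⟨e1, he1, h1⟩ := h.join f hadj.1
  obtain ⟨e2, he2, h2⟩ := h.join f' hadj.2.1
  have q1 : cc (π.XA A An') e1 = cc (π.XA A An') f := connectedComponentIn_eq (hmono _ h1)
  have q2 : cc (π.XA A An') e2 = cc (π.XA A An') f' := connectedComponentIn_eq (hmono _ h2)
  have q3 : cc (π.XA A An') f = cc (π.XA A An') f' := connectedComponentIn_eq hj1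
  refine ⟨An', ⟨gp1, h.sub.trans hs, fun z hz => ?_⟩, by omega, ?_⟩
  · rcases hj2 z hz with h3 | h3
    · obtain ⟨g, hg, h4⟩ := h.join z h3
      exact ⟨g, hg, hmono _ h4⟩
    · exact ⟨e1, he1, q1 ▸ h3⟩
  · obtain ⟨G, h3, h4⟩ := Merge_fac An₀ (cc (π.XA A An)) (cc (π.XA A An')) (by
      intro a _ b hb h3
      have h4 : b ∈ cc (π.XA A An) a := by
        rw [h3]
        exact mem_connectedComponentIn (Or.inr (Finset.mem_coe.2 (h.sub hb)))
      exact connectedComponentIn_eq (hmono _ h4))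
    unfold cls
    rw [h3]
    refine lt_of_le_of_ne Finset.card_image_le fun h5 => hff ?_
    have h6 := Finset.card_image_iff.1 h5 (Finset.mem_coe.2 (Finset.mem_image_of_mem _ he1))
      (Finset.mem_coe.2 (Finset.mem_image_of_mem _ he2))
      (by rw [h4 e1 he1, h4 e2 he2, q1, q2, q3])
    exact (connectedComponentIn_eq h1).symm.trans (h6.trans (connectedComponentIn_eq h2))

theorem merge_level (h : Inv π A An₀ An) (δ : ℕ) : ∃ An', Inv π A An₀ An' ∧
    An'.card ≤ An.card + 2 * δ * π.cls A An₀ An ∧ π.cls A An₀ An' ≤ π.nc A An₀ δ := by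
  induction hn : π.cls A An₀ An using Nat.strong_induction_on generalizing An with
  | _ n ih =>
    rcases le_or_gt (π.cls A An₀ An) (π.nc A An₀ δ) with h1 | h1
    · exact ⟨An, h, Nat.le_add_right _ _, h1⟩
    · obtain ⟨An₁, h2, h3, h4⟩ := merge_step h h1
      obtain ⟨An', h5, h6, h7⟩ := ih _ (hn ▸ h4) h2 rfl
      refine ⟨An', h5, ?_, h7⟩
      have h8 := Nat.mul_le_mul_left (2 * δ) (show π.cls A An₀ An₁ + 1 ≤ n by omega)
      rw [mul_add, mul_one] at h8
      omega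

theorem merge_all (gp : π.GP A An₀) (δ : ℕ → ℕ) (K : ℕ) (hK : A.card ≤ δ K) :
    ∃ An, π.GP A An ∧ An₀ ⊆ An ∧ (∀ e ∈ An, ∀ e' ∈ An, e' ∈ cc (π.XA A An) e) ∧
      An.card ≤ (1 + 2 * δ 0) * An₀.card +
        ∑ k ∈ Finset.range K, 2 * δ (k + 1) * π.nc A An₀ (δ k) := by
  classical
  have key : ∀ K, ∃ An, Inv π A An₀ An ∧ An.card ≤ (1 + 2 * δ 0) * An₀.card +
      ∑ k ∈ Finset.range K, 2 * δ (k + 1) * π.nc A An₀ (δ k) ∧
        π.cls A An₀ An ≤ π.nc A An₀ (δ K) := by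
    intro K
    induction K with
    | zero =>
      obtain ⟨An, h1, h2, h3⟩ := merge_level (⟨gp, subset_rfl, fun z hz =>
        ⟨z, hz, mem_connectedComponentIn (Or.inr (Finset.mem_coe.2 hz))⟩⟩ : Inv π A An₀ An₀) (δ 0)
      refine ⟨An, h1, ?_, h3⟩
      have h4 : π.cls A An₀ An₀ ≤ An₀.card := Finset.card_image_le
      have h5 := Nat.mul_le_mul_left (2 * δ 0) h4
      rw [Finset.sum_range_zero, add_mul, one_mul]
      omega
    | succ K ih =>
      obtain ⟨An₁, h1, h2, h3⟩ := ih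
      obtain ⟨An, h4, h5, h6⟩ := merge_level h1 (δ (K + 1))
      refine ⟨An, h4, ?_, h6⟩
      have h7 := Nat.mul_le_mul_left (2 * δ (K + 1)) h3
      rw [Finset.sum_range_succ]
      omega
  obtain ⟨An, h1, h2, h3⟩ := key K
  refine ⟨An, h1.gp, h1.sub, fun e he e' he' => ?_, h2⟩
  obtain ⟨e1, he1, h4⟩ := h1.join e he
  obtain ⟨e2, he2, h5⟩ := h1.join e' he'
  have h6 : cc (π.XA A An) e1 = cc (π.XA A An) e2 :=
    Finset.card_le_one.1 (h3.trans (nc_le_one hK)) _ (Finset.mem_image_of_mem _ he1) _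
      (Finset.mem_image_of_mem _ he2)
  have h7 : cc (π.XA A An) e1 = cc (π.XA A An) e := connectedComponentIn_eq h4
  rw [← h7, h6]
  exact h5

end Sg

end SA
end

-- part: Short
section
/-!
# Short pairs

`sh_of_edge`: parametrise the segment by `t ∈ [0, 1]`; among the points of `As` on it take the one
with the colour of `e` and the largest parameter, `f`, and then the next point `f'` of `As`.
`PC f f' ⊆ PC e e'`: if `e` were on the line of `j`, the line through `e` and `w` would be this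
line and contain `f`.

`PC_sub_Mt`, `Mt_card`: a segment `j` that meets the open segment in `w` does so in an interior
point (endpoints are in `As`); either `f` is off its line (`j ∈ PC`), or the open segment lies on the
line and then inside `seg j` (no endpoint of `j` in it); two such segments have equal slopes and a
common point (`GP.slope`).

`sh_many`: otherwise `Y = Mt` has at most `δ` elements and the closed segment lies in
`XA (A \ Y) (EM A M)`; use `col_eq_of_join`.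

`exists_wt`: every `j ∈ PC f f'` meets the open segment in exactly one point, with parameter `t j`.
Among the `j` with `y ≤ #{i ∈ PC | t i ≤ t j}` (the largest `t j` is one, `y ≤ δ ≤ |PC|`) take the
one with the least `t j`; fewer than `y` elements have a smaller parameter, at most two have the
same (`gp.three`).  `Cr f z` is this set (`Cr_sub`).

`sep`: if there is no such crossing, remove `Cr f₁ z₁`, `Cr f₂ z₂`, the at most one element of
`Mt \ PC` for each pair, and the at most one other segment through each of `pt j x₁`, `pt j x₂`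
(`gp.three`): at most `2 (y + 1) + 4 ≤ δ` segments.  The path from `f₁` to `pt j x₁`, along `j`,
and from `pt j x₂` to `f₂` lies in `XA (A \ Y) (EM A M)`.  (`pt j x₁ ≠ f₁` since `f₁` is off the
line of `j`, so it lies in the open segment.)
-/

open Set Filter Topology

namespace SA

namespace Sg

namespace Sc

variable {J : Type} [DecidableEq J] {π : Sg J} (s : π.Sc) {e e' f f' z : Pt}

theorem Short_open {f z f' w : Pt} (hz : z ∈ openSegment ℝ f f') (hw : w ∈ segment ℝ f z)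
    (hne : w ≠ f) : w ∈ openSegment ℝ f f' := by
  obtain ⟨a, b, ha, hb, hab, rfl⟩ := hz
  obtain ⟨c, d, hc, hd, hcd, rfl⟩ := hw
  have hd' : 0 < d := hd.lt_of_ne fun h => hne (by
    have : c = 1 := by linarith
    rw [← h, this, one_smul, zero_smul, add_zero])
  refine ⟨c + d * a, d * b, by positivity, by positivity, ?_, by module⟩
  linear_combination hcd + d * hab

theorem Short_open' {f z f' : Pt} (hz : z ∈ openSegment ℝ f f') :
    openSegment ℝ f z ⊆ openSegment ℝ f f' := by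
  obtain ⟨a, b, ha, hb, hab, rfl⟩ := hz
  rintro _ ⟨c, d, hc, hd, hcd, rfl⟩
  refine ⟨c + d * a, d * b, by positivity, by positivity, ?_, by module⟩
  linear_combination hcd + d * hab

omit [DecidableEq J] in
theorem Short_PC {A : Finset J} {f z f' : Pt} (hz : z ∈ openSegment ℝ f f') :
    π.PC A f z ⊆ π.PC A f f' := by
  intro j hj
  obtain ⟨h1, h2, w, hw, h3⟩ := mem_PC.1 hj
  exact mem_PC.2 ⟨h1, h2, w, Short_open' hz hw, h3⟩

omit [DecidableEq J] in
theorem Short_pt (j : J) {a b x : ℝ} (h : x ∈ uIcc a b) :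
    π.pt j x ∈ segment ℝ (π.pt j a) (π.pt j b) := by
  rw [← segment_eq_uIcc] at h
  obtain ⟨u, v, hu, hv, huv, rfl⟩ := h
  refine ⟨u, v, hu, hv, huv, Prod.ext rfl ?_⟩
  simp only [Prod.snd_add, Prod.smul_snd, smul_eq_mul, pt, τ]
  linear_combination π.ic j * huv

theorem Short_ne (h : s.Sh f f') : f ≠ f' := fun e => h.2.2.1 (by rw [e])

theorem Short_inner (h : s.Sh f f') {j : J} (hj : j ∈ s.A) {w : Pt} (hw : w ∈ openSegment ℝ f f')
    (hs : w ∈ π.seg j) : π.lo j < w.1 ∧ w.1 < π.hi j :=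
  (s.gpAs subset_rfl).inner hj hs fun hA => h.2.2.2.1 w hA hw

theorem Short_line (h : s.Sh f f') {j : J} (hj : j ∈ π.Mt s.A f f' \ π.PC s.A f f') :
    j ∈ s.A ∧ f.2 = π.τ j f.1 ∧ openSegment ℝ f f' ⊆ π.seg j := by
  obtain ⟨h1, h2⟩ := Finset.mem_sdiff.1 hj
  obtain ⟨hA, w, hw, hs⟩ := mem_Mt.1 h1
  have h3 : f.2 = π.τ j f.1 := by
    by_contra h4
    exact h2 (mem_PC.2 ⟨hA, h4, w, hw, hs, s.Short_inner h hA hw hs⟩)
  have h4 : f'.2 = π.τ j f'.1 := by
    obtain ⟨a, b, ha, hb, hab, rfl⟩ := hw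
    have h5 := hs.2.2
    simp only [Prod.snd_add, Prod.smul_snd, Prod.fst_add, Prod.smul_fst, smul_eq_mul, τ] at h3 h5 ⊢
    have h6 : a = 1 - b := by linarith
    subst h6
    refine mul_left_cancel₀ hb.ne' ?_
    linear_combination h5 - (1 - b) * h3
  refine ⟨hA, h3, fun v hv => ?_⟩
  have h5 : v.2 = π.τ j v.1 := by
    obtain ⟨a, b, ha, hb, hab, rfl⟩ := hv
    simp only [Prod.snd_add, Prod.smul_snd, Prod.fst_add, Prod.smul_fst, smul_eq_mul, τ] at h3 h4 ⊢
    linear_combination a * h3 + b * h4 + π.ic j * hab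
  have h6 : v = π.pt j v.1 := Prod.ext rfl h5
  have key : ∀ x ∈ uIcc v.1 w.1, π.pt j x ∉ s.As := by
    intro x hx hA'
    have h7 := Short_pt (π := π) j hx
    rw [← h6, ← eq_pt hs] at h7
    exact h.2.2.2.1 _ hA' ((convex_openSegment f f').segment_subset hv hw h7)
  refine ⟨?_, ?_, h5⟩
  · by_contra h7
    exact key _ (mem_uIcc.2 (Or.inl ⟨(not_le.1 h7).le, hs.1⟩)) ((s.gpAs subset_rfl).enL j hA)
  · by_contra h7
    exact key _ (mem_uIcc.2 (Or.inr ⟨hs.2.1, (not_le.1 h7).le⟩)) ((s.gpAs subset_rfl).enR j hA)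

theorem Short_free (h : s.Sh f f') (hz : z ∈ openSegment ℝ f f') {Y : Finset J}
    (h1 : π.Cr s.A f z ⊆ Y) (h2 : π.Mt s.A f f' \ π.PC s.A f f' ⊆ Y) :
    segment ℝ f z ⊆ π.XA (s.A \ Y) (π.EM s.A s.M) := by
  intro w hw
  by_cases hne : w = f
  · exact Or.inr (by rw [hne]; exact s.As_sub h.1)
  refine Or.inl fun i hi hs => ?_
  obtain ⟨hA, hY⟩ := Finset.mem_sdiff.1 hi
  by_cases h3 : f.2 = π.τ i f.1
  · exact hY (h2 (Finset.mem_sdiff.2 ⟨mem_Mt.2 ⟨hA, w, Short_open hz hw hne, hs⟩,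
      fun h4 => (mem_PC.1 h4).2.1 h3⟩))
  · exact hY (h1 (mem_Cr.2 ⟨hA, h3, w, hw, hs⟩))

omit [DecidableEq J] in
theorem Short_uniq {j : J} {v : Pt} {a b : ℝ} (h : f.2 ≠ π.τ j f.1) (ha : f + a • v ∈ π.seg j)
    (hb : f + b • v ∈ π.seg j) : a = b := by
  have h1 := ha.2.2
  have h2 := hb.2.2
  simp only [Prod.snd_add, Prod.smul_snd, Prod.fst_add, Prod.smul_fst, smul_eq_mul, τ] at h h1 h2
  by_contra hne
  have h3 : (a - b) * (v.2 - π.sl j * v.1) = 0 := by linear_combination h1 - h2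
  have h4 := (mul_eq_zero.1 h3).resolve_left (sub_ne_zero.2 hne)
  exact h (by linear_combination h1 - a * h4)

theorem sh_of_edge (he : e ∈ s.As) (he' : e' ∈ s.As) (hne : s.κ e ≠ s.κ e')
    (hc : (π.PC s.A e e').card < s.lam) :
    ∃ f f', s.Sh f f' ∧ s.κ f = s.κ e ∧ π.PC s.A f f' ⊆ π.PC s.A e e' := by
  classical
  generalize hn : (s.As.filter fun g => g ∈ openSegment ℝ e e').card = n
  induction n using Nat.strong_induction_on generalizing e e' with
  | _ n ih =>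
  by_cases h : ∀ g ∈ s.As, g ∉ openSegment ℝ e e'
  · exact ⟨e, e', ⟨he, he', hne, h, hc⟩, rfl, subset_rfl⟩
  push Not at h
  obtain ⟨g, hg, hg'⟩ := h
  have h0 : e ≠ e' := fun h => hne (by rw [h])
  have hmem : g ∈ s.As.filter fun g => g ∈ openSegment ℝ e e' := Finset.mem_filter.2 ⟨hg, hg'⟩
  by_cases h1 : s.κ e = s.κ g
  · have hs : π.PC s.A g e' ⊆ π.PC s.A e e' := by
      rw [PC_symm s.A g e', PC_symm s.A e e']
      exact Short_PC (by rwa [openSegment_symm])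
    have hsub : openSegment ℝ g e' ⊆ openSegment ℝ e e' := by
      rw [openSegment_symm ℝ g e', openSegment_symm ℝ e e']
      exact Short_open' (by rwa [openSegment_symm])
    obtain ⟨f, f', h2, h3, h4⟩ := ih _ (by
      rw [← hn]
      refine Finset.card_lt_card ⟨fun x hx => Finset.mem_filter.2 ⟨(Finset.mem_filter.1 hx).1,
        hsub (Finset.mem_filter.1 hx).2⟩, fun h5 => ?_⟩
      have h6 := left_mem_openSegment_iff.1 (Finset.mem_filter.1 (h5 hmem)).2
      rw [h6] at hg'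
      exact h0 (right_mem_openSegment_iff.1 hg')) hg he' (h1 ▸ hne)
      ((Finset.card_le_card hs).trans_lt hc) rfl
    exact ⟨f, f', h2, h3.trans h1.symm, h4.trans hs⟩
  · have hs : π.PC s.A e g ⊆ π.PC s.A e e' := Short_PC hg'
    obtain ⟨f, f', h2, h3, h4⟩ := ih _ (by
      rw [← hn]
      refine Finset.card_lt_card ⟨fun x hx => Finset.mem_filter.2 ⟨(Finset.mem_filter.1 hx).1,
        Short_open' hg' (Finset.mem_filter.1 hx).2⟩, fun h5 => ?_⟩
      have h6 := right_mem_openSegment_iff.1 (Finset.mem_filter.1 (h5 hmem)).2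
      rw [← h6] at hg'
      exact h0 (left_mem_openSegment_iff.1 hg')) he hg h1
      ((Finset.card_le_card hs).trans_lt hc) rfl
    exact ⟨f, f', h2, h3, h4.trans hs⟩

theorem PC_sub_Mt (f f' : Pt) : π.PC s.A f f' ⊆ π.Mt s.A f f' := by
  intro j hj
  obtain ⟨h1, -, w, hw, h3, -⟩ := mem_PC.1 hj
  exact mem_Mt.2 ⟨h1, w, hw, h3⟩

theorem Mt_card (h : s.Sh f f') : (π.Mt s.A f f' \ π.PC s.A f f').card ≤ 1 := by
  refine Finset.card_le_one.2 fun j hj j' hj' => ?_
  obtain ⟨a1, a2, a3⟩ := s.Short_line h hj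
  obtain ⟨b1, b2, b3⟩ := s.Short_line h hj'
  obtain ⟨-, w, hw, -⟩ := mem_Mt.1 (Finset.mem_sdiff.1 hj).1
  by_contra hne
  refine s.nm.gp.slope a1 b1 hne (a3 hw) (b3 hw) ?_
  have h1 := (a3 hw).2.2
  have h2 := (b3 hw).2.2
  have h3 : w.1 - f.1 ≠ 0 := by
    intro h4
    have h5 : w.1 = f.1 := by linarith
    have h6 : w = f := Prod.ext h5 (by rw [h1, a2, h5])
    exact h.2.2.2.1 f h.1 (h6 ▸ hw)
  simp only [τ] at a2 b2 h1 h2
  refine mul_left_cancel₀ h3 ?_
  linear_combination a2 - b2 - h1 + h2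

theorem Mt_le (h : s.Sh f f') : (π.Mt s.A f f').card ≤ s.lam := by
  have h1 := Finset.card_le_card_sdiff_add_card (s := π.Mt s.A f f') (t := π.PC s.A f f')
  have h2 := s.Mt_card h
  have h3 := h.2.2.2.2
  omega

theorem sh_many (h : s.Sh f f') : s.δ ≤ (π.PC s.A f f').card := by
  by_contra h0
  have h1 := Finset.card_le_card_sdiff_add_card (s := π.Mt s.A f f') (t := π.PC s.A f f')
  have h2 := s.Mt_card h
  refine h.2.2.1 (col_eq_of_join (s.As_sub h.1) (s.As_sub h.2.1) (Y := π.Mt s.A f f')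
    (by omega) ?_)
  refine (convex_segment f f').isPreconnected.subset_connectedComponentIn
    (left_mem_segment _ _ _) ?_ (right_mem_segment _ _ _)
  rw [← insert_endpoints_openSegment]
  rintro w (rfl | rfl | hw)
  · exact Or.inr (s.As_sub h.1)
  · exact Or.inr (s.As_sub h.2.1)
  · refine Or.inl fun i hi hs => ?_
    obtain ⟨hA, hY⟩ := Finset.mem_sdiff.1 hi
    exact hY (mem_Mt.2 ⟨hA, w, hw, hs⟩)

theorem Cr_sub (h : s.Sh f f') (hz : z ∈ openSegment ℝ f f') :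
    π.Cr s.A f z ⊆ π.PC s.A f f' := by
  intro j hj
  obtain ⟨h1, h2, w, hw, hs⟩ := mem_Cr.1 hj
  have h3 : w ∈ openSegment ℝ f f' := Short_open hz hw fun e => h2 (e ▸ hs.2.2)
  exact mem_PC.2 ⟨h1, h2, w, h3, hs, s.Short_inner h h1 h3 hs⟩

theorem exists_wt (h : s.Sh f f') : ∃ z, s.Wt f f' z := by
  classical
  obtain ⟨t, ht⟩ : ∃ t : J → ℝ, ∀ j ∈ π.PC s.A f f',
      t j ∈ Ioo (0 : ℝ) 1 ∧ f + t j • (f' - f) ∈ π.seg j := by
    have : ∀ j, ∃ t : ℝ, j ∈ π.PC s.A f f' → t ∈ Ioo (0 : ℝ) 1 ∧ f + t • (f' - f) ∈ π.seg j := by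
      intro j
      by_cases hj : j ∈ π.PC s.A f f'
      · obtain ⟨-, -, w, hw, hs, -⟩ := mem_PC.1 hj
        rw [openSegment_eq_image'] at hw
        obtain ⟨t, h1, rfl⟩ := hw
        exact ⟨t, fun _ => ⟨h1, hs⟩⟩
      · exact ⟨0, fun h => absurd h hj⟩
    choose t ht using this
    exact ⟨t, ht⟩
  have hm := s.sh_many h
  have hδ := s.hδ
  have hy := s.hy
  set P := π.PC s.A f f' with hP
  obtain ⟨j₁, a1, a2⟩ := P.exists_max_image t (Finset.card_pos.1 (by omega))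
  obtain ⟨j, b1, b2⟩ := (P.filter fun j => s.y ≤ (P.filter fun i => t i ≤ t j).card).exists_min_image
    t ⟨j₁, Finset.mem_filter.2 ⟨a1, by rw [Finset.filter_true_of_mem a2]; omega⟩⟩
  obtain ⟨b3, b4⟩ := Finset.mem_filter.1 b1
  have hz : f + t j • (f' - f) ∈ openSegment ℝ f f' := by
    rw [openSegment_eq_image']
    exact ⟨t j, (ht j b3).1, rfl⟩
  have hC : π.Cr s.A f (f + t j • (f' - f)) = P.filter fun i => t i ≤ t j := by
    ext i
    rw [Finset.mem_filter]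
    constructor
    · intro hi
      have c1 := s.Cr_sub h hz hi
      obtain ⟨-, c2, w, hw, hs⟩ := mem_Cr.1 hi
      rw [segment_eq_image'] at hw
      obtain ⟨u, hu, rfl⟩ := hw
      simp only [add_sub_cancel_left, smul_smul] at hs
      refine ⟨c1, ?_⟩
      rw [Short_uniq c2 (ht i c1).2 hs]
      nlinarith [hu.2, (ht j b3).1.1]
    · rintro ⟨c1, c2⟩
      refine mem_Cr.2 ⟨(mem_PC.1 c1).1, (mem_PC.1 c1).2.1, _, ?_, (ht i c1).2⟩
      have := Sg_line f (f' - f) (a := 0) (b := t j) (t := t i)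
        (mem_uIcc.2 (Or.inl ⟨(ht i c1).1.1.le, c2⟩))
      rwa [zero_smul, add_zero] at this
  refine ⟨_, h, hz, ⟨j, (mem_PC.1 b3).1, (ht j b3).2, (mem_PC.1 b3).2.1⟩, by rwa [hC], ?_⟩
  rw [hC]
  have hL : (P.filter fun i => t i < t j).card < s.y := by
    rcases (P.filter fun i => t i < t j).eq_empty_or_nonempty with h0 | h0
    · rw [h0]; exact hy
    obtain ⟨i, c1, c2⟩ := Finset.exists_max_image _ t h0
    obtain ⟨c3, c4⟩ := Finset.mem_filter.1 c1
    by_contra c5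
    refine absurd (b2 i (Finset.mem_filter.2 ⟨c3, (not_lt.1 c5).trans (Finset.card_le_card
      fun k hk => Finset.mem_filter.2 ⟨(Finset.mem_filter.1 hk).1, c2 k hk⟩)⟩)) (not_le.2 c4)
  have hE : (P.filter fun i => t i = t j).card ≤ 2 := by
    by_contra c0
    obtain ⟨a, ha, b, hb, c, hc, n1, n2, n3⟩ := Finset.two_lt_card.1 (not_le.1 c0)
    have key : ∀ i ∈ P.filter fun i => t i = t j, i ∈ s.A ∧ f + t j • (f' - f) ∈ π.seg i := by
      intro i hi
      obtain ⟨c1, c2⟩ := Finset.mem_filter.1 hi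
      exact ⟨(mem_PC.1 c1).1, c2 ▸ (ht i c1).2⟩
    rcases s.nm.gp.three _ a (key a ha).1 b (key b hb).1 c (key c hc).1 (key a ha).2 (key b hb).2
      (key c hc).2 with h1 | h1 | h1
    exacts [n1 h1, n2 h1, n3 h1]
  have hU : (P.filter fun i => t i ≤ t j) ⊆
      (P.filter fun i => t i < t j) ∪ P.filter fun i => t i = t j := by
    intro i hi
    obtain ⟨c1, c2⟩ := Finset.mem_filter.1 hi
    rcases c2.lt_or_eq with c3 | c3
    · exact Finset.mem_union_left _ (Finset.mem_filter.2 ⟨c1, c3⟩)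
    · exact Finset.mem_union_right _ (Finset.mem_filter.2 ⟨c1, c3⟩)
  have := (Finset.card_le_card hU).trans (Finset.card_union_le _ _)
  omega

/-- Two colours near one segment are separated by a crossing. -/
theorem sep {f₁ f₁' z₁ f₂ f₂' z₂ : Pt} {j : J} {x₁ x₂ : ℝ} (h₁ : s.Wt f₁ f₁' z₁)
    (h₂ : s.Wt f₂ f₂' z₂) (hne : s.κ f₁ ≠ s.κ f₂) (j₁ : j ∈ π.Cr s.A f₁ z₁)
    (j₂ : j ∈ π.Cr s.A f₂ z₂) (w₁ : π.pt j x₁ ∈ segment ℝ f₁ z₁)
    (w₂ : π.pt j x₂ ∈ segment ℝ f₂ z₂) (hx : x₁ ≤ x₂) :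
    ∃ i ∈ s.A, i ≠ j ∧ ∃ x, x₁ < x ∧ x < x₂ ∧ π.pt j x ∈ π.seg i := by
  by_contra h0
  push Not at h0
  set Y := (π.Cr s.A f₁ z₁ ∪ (π.Mt s.A f₁ f₁' \ π.PC s.A f₁ f₁')) ∪
    (π.Cr s.A f₂ z₂ ∪ (π.Mt s.A f₂ f₂' \ π.PC s.A f₂ f₂')) with hY
  have hc : Y.card ≤ s.δ := by
    have c1 := Finset.card_union_le (π.Cr s.A f₁ z₁) (π.Mt s.A f₁ f₁' \ π.PC s.A f₁ f₁')
    have c2 := Finset.card_union_le (π.Cr s.A f₂ z₂) (π.Mt s.A f₂ f₂' \ π.PC s.A f₂ f₂')
    have c3 : Y.card ≤ _ := Finset.card_union_le _ _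
    have c4 := s.Mt_card h₁.1
    have c5 := s.Mt_card h₂.1
    have c6 := h₁.2.2.2.2
    have c7 := h₂.2.2.2.2
    have c8 := s.hδ
    omega
  have s1 := s.Short_free h₁.1 h₁.2.1 (Y := Y)
    (Finset.subset_union_left.trans Finset.subset_union_left)
    (Finset.subset_union_right.trans Finset.subset_union_left)
  have s2 := s.Short_free h₂.1 h₂.2.1 (Y := Y)
    (Finset.subset_union_left.trans Finset.subset_union_right)
    (Finset.subset_union_right.trans Finset.subset_union_right)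
  have s3 : π.pt j '' Icc x₁ x₂ ⊆ π.XA (s.A \ Y) (π.EM s.A s.M) := by
    rintro _ ⟨x, hx', rfl⟩
    rcases hx'.1.eq_or_lt with c1 | c1
    · exact s1 (c1 ▸ w₁)
    rcases hx'.2.eq_or_lt with c2 | c2
    · exact s2 (c2 ▸ w₂)
    refine Or.inl fun i hi hs => ?_
    obtain ⟨hA, hn⟩ := Finset.mem_sdiff.1 hi
    refine h0 i hA (fun e => hn ?_) x c1 c2 hs
    rw [e]
    exact Finset.mem_union_left _ (Finset.mem_union_left _ j₁)
  refine hne (col_eq_of_join (s.As_sub h₁.1.1) (s.As_sub h₂.1.1) hc ?_)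
  have p1 := (convex_segment f₁ z₁).isPreconnected
  have p2 := (convex_segment f₂ z₂).isPreconnected
  have p3 := (isPreconnected_Icc (a := x₁) (b := x₂)).image _ (cont_pt (π := π) j).continuousOn
  have p4 := (p1.union _ w₁ (mem_image_of_mem _ (left_mem_Icc.2 hx)) p3).union _
    (mem_union_right _ (mem_image_of_mem _ (right_mem_Icc.2 hx))) w₂ p2
  exact p4.subset_connectedComponentIn (Or.inl (Or.inl (left_mem_segment _ _ _)))
    (union_subset (union_subset s1 s3) s2) (Or.inr (left_mem_segment _ _ _))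

end Sc

end Sg

end SA
end

-- part: Trim
section
/-!
# Normalisation: shrink the segments, choose marked points

`pick`: induction on the index set (an infinite set minus a finite set is nonempty).

`trim`.  For `w = (j, j') ∈ W` fix the crossing abscissa `x w`, the vertex `v w` and a radius `r w`
such that the ball around `v w` misses the closed segments other than `j`, `j'` (`three`, `cl`),
the points of the ball above both lines are in `G`, and the abscissae of the ball lie in `I j` and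
`I j'`.  Let `A'` be the set of `j` that occur in `W`, and for `j ∈ A'` let `X j` be the finite
nonempty set of the `x w` for the `w` that contain `j`.  Use `pick` on the index type
`(J × Bool) ⊕ (J × J)`: for `(j, false)` the abscissae slightly to the left of `min (X j)` whose point
on `j` lies in the ball of a wedge that attains the minimum, for `(j, true)` the same on the right,
for `w` the abscissae of the points of the ball above both lines (an open nonempty set); `B` is the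
set of the abscissae of the crossings of the lines of `A` with different slopes.  This gives `lo`,
`hi` and a point `m w` for every wedge.  `M` is a subset of the `m w` with one point for each value
of `cc (L.Fr A) ·` (`Finset.exists_subset_injOn_image_eq_of_surjOn`).
`GP`: an endpoint of `j` on `seg j'`, `j' ≠ j`, has a crossing abscissa if the slopes differ; equal
slopes contradict `g0`; marked points are free.  `near`: the ball of `w` lies in
`Fr (A' \ {j, j'})` and contains the endpoint and `m w`, which is joined in `L.Fr A` to a point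
of `M`.  `Wd`: the part of the ball above both lines is convex, lies in `Fr A'` and contains `m w`.
-/

open Set Filter Topology

namespace SA

/-- Intervals of lines. -/
structure Ln (J : Type) where
  sl : J → ℝ
  ic : J → ℝ
  I : J → Set ℝ

namespace Ln

variable {J : Type} (L : Ln J)

/-- The free space. -/
def Fr (R : Finset J) : Set Pt := {q | ∀ j ∈ R, ¬ (q.1 ∈ L.I j ∧ q.2 = L.sl j * q.1 + L.ic j)}

/-- General position. -/
structure Ok (A : Finset J) : Prop where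
  cl : ∀ j ∈ A, IsClosed (L.I j)
  oc : ∀ j ∈ A, OrdConnected (L.I j)
  g0 : ∀ j ∈ A, ∀ j' ∈ A, j ≠ j' → (L.I j).Nonempty → (L.I j').Nonempty → L.sl j = L.sl j' →
    L.ic j ≠ L.ic j'
  three : ∀ j ∈ A, ∀ j' ∈ A, ∀ k ∈ A, ∀ x, x ∈ L.I j → x ∈ L.I j' → x ∈ L.I k →
    L.sl j * x + L.ic j = L.sl j' * x + L.ic j' → L.sl j * x + L.ic j = L.sl k * x + L.ic k →
      j = j' ∨ j = k ∨ j' = k

/-- `j` and `j'` cross, and the wedge above the crossing is good. -/
def UW (G : Pt → Prop) (j j' : J) : Prop :=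
  L.sl j' < L.sl j ∧ ∃ x, L.I j ∈ 𝓝 x ∧ L.I j' ∈ 𝓝 x ∧
    L.sl j * x + L.ic j = L.sl j' * x + L.ic j' ∧
      ∀ᶠ q : Pt in 𝓝 (x, L.sl j * x + L.ic j),
        L.sl j * q.1 + L.ic j < q.2 → L.sl j' * q.1 + L.ic j' < q.2 → G q

theorem Fr_mono {R R' : Finset J} (h : R ⊆ R') : L.Fr R' ⊆ L.Fr R := fun _ hq j hj => hq j (h hj)

end Ln

theorem pick {κ : Type} (T : Finset κ) (U : κ → Set ℝ) (hU : ∀ k ∈ T, (U k).Infinite)
    (B : Finset ℝ) : ∃ f : κ → ℝ, (∀ k ∈ T, f k ∈ U k ∧ f k ∉ B) ∧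
      ∀ k ∈ T, ∀ k' ∈ T, f k = f k' → k = k' := by
  classical
  induction T using Finset.induction_on with
  | empty => exact ⟨fun _ => 0, by simp, by simp⟩
  | insert a T ha ih =>
    obtain ⟨f, h1, h2⟩ := ih fun k hk => hU k (Finset.mem_insert_of_mem hk)
    obtain ⟨t, t1, t2⟩ := (hU a (Finset.mem_insert_self a T)).exists_notMem_finset (B ∪ T.image f)
    rw [Finset.mem_union, not_or] at t2
    have e : ∀ k ∈ T, Function.update f a t k = f k := fun k hk =>
      Function.update_of_ne (ne_of_mem_of_not_mem hk ha) _ _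
    have n : ∀ k ∈ T, t ≠ f k := fun k hk h => t2.2 (h ▸ Finset.mem_image_of_mem f hk)
    refine ⟨Function.update f a t, fun k hk => ?_, fun k hk k' hk' h => ?_⟩
    · rcases Finset.mem_insert.1 hk with rfl | hk
      · rw [Function.update_self]
        exact ⟨t1, t2.1⟩
      · rw [e k hk]
        exact h1 k hk
    · rcases Finset.mem_insert.1 hk with c | c <;> rcases Finset.mem_insert.1 hk' with c' | c'
      · exact c.trans c'.symm
      · rw [c, Function.update_self, e _ c'] at h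
        exact absurd h (n _ c')
      · rw [c', Function.update_self, e _ c] at h
        exact absurd h.symm (n _ c)
      · rw [e _ c, e _ c'] at h
        exact h2 _ c _ c' h

theorem Trim_side {c : ℝ} {s : Set ℝ} (hs : s ∈ 𝓝 c) :
    (s ∩ Iio c).Infinite ∧ (s ∩ Ioi c).Infinite := by
  obtain ⟨l, u, ⟨hl, hu⟩, h⟩ := mem_nhds_iff_exists_Ioo_subset.1 hs
  exact ⟨(Ioo_infinite hl).mono fun t ht => ⟨h ⟨ht.1, ht.2.trans hu⟩, ht.2⟩,
    (Ioo_infinite hu).mono fun t ht => ⟨h ⟨hl.trans ht.1, ht.2⟩, ht.1⟩⟩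

/-- A small ball around the vertex of a wedge. -/
theorem Trim_ball {J : Type} (L : Ln J) {A : Finset J} (hA : L.Ok A) {G : Pt → Prop} {j j' : J}
    (hj : j ∈ A) (hj' : j' ∈ A) (h : L.UW G j j') : ∃ x r : ℝ, 0 < r ∧
      L.sl j * x + L.ic j = L.sl j' * x + L.ic j' ∧
      ∀ q ∈ Metric.ball ((x, L.sl j * x + L.ic j) : Pt) r, q.1 ∈ L.I j ∧ q.1 ∈ L.I j' ∧
        (L.sl j * q.1 + L.ic j < q.2 → L.sl j' * q.1 + L.ic j' < q.2 → G q) ∧
        ∀ k ∈ A, k ≠ j → k ≠ j' → ¬ (q.1 ∈ L.I k ∧ q.2 = L.sl k * q.1 + L.ic k) := by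
  obtain ⟨hs, x, h1, h2, h3, h4⟩ := h
  have h5 : ∀ᶠ q : Pt in 𝓝 (x, L.sl j * x + L.ic j), ∀ k ∈ A, k ≠ j → k ≠ j' →
      ¬ (q.1 ∈ L.I k ∧ q.2 = L.sl k * q.1 + L.ic k) := by
    refine (eventually_all_finset A).2 fun k hk => ?_
    by_cases e : k = j ∨ k = j'
    · exact Eventually.of_forall fun q a b => (e.elim a b).elim
    have hc : IsClosed {q : Pt | q.1 ∈ L.I k ∧ q.2 = L.sl k * q.1 + L.ic k} :=
      ((hA.cl k hk).preimage continuous_fst).inter (isClosed_eq continuous_snd (by fun_prop))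
    refine mem_of_superset (hc.isOpen_compl.mem_nhds fun hq => ?_) fun q hq _ _ => hq
    rcases hA.three j hj j' hj' k hk x (mem_of_mem_nhds h1) (mem_of_mem_nhds h2) hq.1 h3 hq.2 with
      c | c | c
    exacts [hs.ne' (c ▸ rfl), e (.inl c.symm), e (.inr c.symm)]
  have hf : Tendsto (fun q : Pt => q.1) (𝓝 (x, L.sl j * x + L.ic j)) (𝓝 x) := continuousAt_fst
  obtain ⟨r, hr, h6⟩ := Metric.eventually_nhds_iff_ball.1
    ((hf.eventually h1).and ((hf.eventually h2).and (h4.and h5)))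
  exact ⟨x, r, hr, h3, h6⟩

theorem Trim_cvx (a b : ℝ) : Convex ℝ {q : Pt | a * q.1 + b < q.2} := by
  have h := convex_halfSpace_lt (𝕜 := ℝ) (f := fun q : Pt => a * q.1 - q.2)
    ⟨fun p q => by simp only [Prod.fst_add, Prod.snd_add]; ring,
      fun c p => by simp only [Prod.smul_fst, Prod.smul_snd, smul_eq_mul]; ring⟩ (-b)
  rwa [show {q : Pt | a * q.1 - q.2 < -b} = {q : Pt | a * q.1 + b < q.2} from
    Set.ext fun q => ⟨fun h => by simp only [mem_ofPred_eq] at h ⊢; linarith,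
      fun h => by simp only [mem_ofPred_eq] at h ⊢; linarith⟩] at h

theorem trim {J : Type} [DecidableEq J] (L : Ln J) {A : Finset J} (hA : L.Ok A) {G : Pt → Prop}
    (hG : ∀ q, G q → q ∈ L.Fr A) (W : Finset (J × J))
    (hW : ∀ w ∈ W, w.1 ∈ A ∧ w.2 ∈ A ∧ L.UW G w.1 w.2) :
    ∃ (π : Sg J) (A' : Finset J) (M : Finset Pt), A' ⊆ A ∧ π.Nm A' M ∧
      (∀ R : Finset J, L.Fr R ⊆ π.Fr (R ∩ A')) ∧ (∀ m ∈ M, G m) ∧
      (∀ m ∈ M, ∀ m' ∈ M, m' ∈ cc (L.Fr A) m → m = m') ∧ M.card ≤ W.card ∧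
      ∀ w ∈ W, w.1 ∈ A' ∧ w.2 ∈ A' ∧ ∃ m ∈ M, π.Wd (cc (π.Fr A') m) w.1 w.2 := by
  classical
  choose! x r hr hx hb using fun w (hw : w ∈ W) =>
    Trim_ball L hA (hW w hw).1 (hW w hw).2.1 (hW w hw).2.2
  obtain ⟨O, hO⟩ : ∃ O : J × J → Set Pt,
      ∀ w, O w = Metric.ball ((x w, L.sl w.1 * x w + L.ic w.1) : Pt) (r w) := ⟨_, fun _ => rfl⟩
  simp only [← hO] at hb
  obtain ⟨T, hT⟩ : ∃ T : J × J → Set Pt, ∀ w, T w = O w ∩
      ({q | L.sl w.1 * q.1 + L.ic w.1 < q.2} ∩ {q | L.sl w.2 * q.1 + L.ic w.2 < q.2}) :=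
    ⟨_, fun _ => rfl⟩
  have TG : ∀ w ∈ W, ∀ q ∈ T w, G q := fun w hw q hq => by
    rw [hT] at hq
    exact (hb w hw q hq.1).2.2.1 hq.2.1 hq.2.2
  obtain ⟨A', hA'⟩ : ∃ A' : Finset J, ∀ j, j ∈ A' ↔ ∃ w ∈ W, j = w.1 ∨ j = w.2 :=
    ⟨W.image Prod.fst ∪ W.image Prod.snd, fun j => by
      simp only [Finset.mem_union, Finset.mem_image]
      exact ⟨fun h => h.elim (fun ⟨w, a, b⟩ => ⟨w, a, .inl b.symm⟩) fun ⟨w, a, b⟩ =>
        ⟨w, a, .inr b.symm⟩, fun ⟨w, a, b⟩ => b.imp (fun c => ⟨w, a, c.symm⟩)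
          fun c => ⟨w, a, c.symm⟩⟩⟩
  have sub : A' ⊆ A := fun j hj => by
    obtain ⟨w, hw, rfl | rfl⟩ := (hA' j).1 hj
    exacts [(hW w hw).1, (hW w hw).2.1]
  have nb : ∀ w ∈ W, ∀ j, j = w.1 ∨ j = w.2 →
      {t : ℝ | ((t, L.sl j * t + L.ic j) : Pt) ∈ O w} ∈ 𝓝 (x w) := fun w hw j hj => by
    refine Continuous.continuousAt (f := fun t : ℝ => ((t, L.sl j * t + L.ic j) : Pt))
      (by fun_prop) |>.preimage_mem_nhds ?_
    have : L.sl j * x w + L.ic j = L.sl w.1 * x w + L.ic w.1 := by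
      rcases hj with rfl | rfl
      exacts [rfl, (hx w hw).symm]
    rw [this, hO]
    exact Metric.ball_mem_nhds _ (hr w hw)
  obtain ⟨f, hf, hi⟩ := pick ((A' ×ˢ Finset.univ).disjSum W)
    (Sum.elim (fun a : J × Bool => {t | (∀ w ∈ W, a.1 = w.1 ∨ a.1 = w.2 →
        cond a.2 (x w < t) (t < x w)) ∧ ∃ w ∈ W, (a.1 = w.1 ∨ a.1 = w.2) ∧
          ((t, L.sl a.1 * t + L.ic a.1) : Pt) ∈ O w}) fun w => Prod.fst '' T w)
    (by
      rintro (⟨j, b⟩ | w) hk
      · have hne : (W.filter fun w => j = w.1 ∨ j = w.2).Nonempty := by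
          obtain ⟨w, a, c⟩ := (hA' j).1 (Finset.mem_product.1 (Finset.inl_mem_disjSum.1 hk)).1
          exact ⟨w, Finset.mem_filter.2 ⟨a, c⟩⟩
        cases b
        · obtain ⟨w, a, c⟩ := Finset.exists_min_image _ x hne
          rw [Finset.mem_filter] at a
          exact (Trim_side (nb w a.1 j a.2)).1.mono fun t ht => ⟨fun w' a' c' =>
            ht.2.trans_le (c w' (Finset.mem_filter.2 ⟨a', c'⟩)), w, a.1, a.2, ht.1⟩
        · obtain ⟨w, a, c⟩ := Finset.exists_max_image _ x hne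
          rw [Finset.mem_filter] at a
          exact (Trim_side (nb w a.1 j a.2)).2.mono fun t ht => ⟨fun w' a' c' =>
            (c w' (Finset.mem_filter.2 ⟨a', c'⟩)).trans_lt ht.2, w, a.1, a.2, ht.1⟩
      · have hw := Finset.inr_mem_disjSum.1 hk
        have ho : IsOpen (T w) := by
          rw [hT, hO]
          exact Metric.isOpen_ball.inter ((isOpen_lt (by fun_prop) continuous_snd).inter
            (isOpen_lt (by fun_prop) continuous_snd))
        refine infinite_of_mem_nhds (x w) ((isOpenMap_fst _ ho).mem_nhds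
          ⟨(x w, L.sl w.1 * x w + L.ic w.1 + r w / 2), ?_, rfl⟩)
        have := hr w hw
        rw [hT, hO]
        refine ⟨?_, ?_, ?_⟩
        · simp [Prod.dist_eq, this, abs_of_pos]
        · simp only [mem_ofPred_eq]
          linarith
        · simp only [mem_ofPred_eq]
          linarith [hx w hw])
    ((A ×ˢ A).image fun p => (L.ic p.2 - L.ic p.1) / (L.sl p.1 - L.sl p.2))
  have kl : ∀ j ∈ A', ∀ b, Sum.inl (j, b) ∈ (A' ×ˢ Finset.univ (α := Bool)).disjSum W :=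
    fun j hj b => Finset.inl_mem_disjSum.2 (Finset.mem_product.2 ⟨hj, Finset.mem_univ _⟩)
  choose! m hm hm' using fun w (hw : w ∈ W) => (hf (.inr w) (Finset.inr_mem_disjSum.2 hw)).1
  obtain ⟨M, M1, M2, M3⟩ := Finset.exists_subset_injOn_image_eq_of_surjOn (f := cc (L.Fr A))
    (W.image m : Set Pt) ((W.image m).image (cc (L.Fr A))) fun K hK => by simpa using hK
  have M4 : ∀ p ∈ M, ∃ w ∈ W, m w = p := fun p hp => Finset.mem_image.1 (M1 hp)
  have M5 : ∀ w ∈ W, ∃ p ∈ M, cc (L.Fr A) p = cc (L.Fr A) (m w) := fun w hw =>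
    Finset.mem_image.1 (M3 ▸ Finset.mem_image_of_mem _ (Finset.mem_image_of_mem m hw))
  have MG : ∀ p ∈ M, G p := fun p hp => by
    obtain ⟨w, hw, rfl⟩ := M4 p hp
    exact TG w hw _ (hm w hw)
  obtain ⟨π, p1, p2, p3, p4⟩ : ∃ π : Sg J, π.sl = L.sl ∧ π.ic = L.ic ∧
      (∀ j, π.lo j = f (.inl (j, false))) ∧ ∀ j, π.hi j = f (.inl (j, true)) :=
    ⟨⟨L.sl, L.ic, _, _⟩, rfl, rfl, fun _ => rfl, fun _ => rfl⟩
  have pτ : ∀ j t, π.τ j t = L.sl j * t + L.ic j := fun j t => by rw [Sg.τ, p1, p2]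
  have lt : ∀ w ∈ W, ∀ j, j = w.1 ∨ j = w.2 → π.lo j < x w ∧ x w < π.hi j := fun w hw j hj => by
    have h := (hA' j).2 ⟨w, hw, hj⟩
    rw [p3, p4]
    exact ⟨(hf _ (kl j h false)).1.1 w hw hj, (hf _ (kl j h true)).1.1 w hw hj⟩
  have en : ∀ e ∈ π.En A', ∃ j ∈ A', ∃ b, e = π.pt j (f (.inl (j, b))) := fun e he => by
    obtain ⟨j, hj, rfl | rfl⟩ := Sg.mem_En.1 he
    exacts [⟨j, hj, false, by rw [p3]⟩, ⟨j, hj, true, by rw [p4]⟩]
  have sg : ∀ j ∈ A', ∀ q ∈ π.seg j, q.1 ∈ L.I j ∧ q.2 = L.sl j * q.1 + L.ic j := by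
    intro j hj q hq
    have h : ∀ b, f (.inl (j, b)) ∈ L.I j := fun b => by
      obtain ⟨w, hw, c, d⟩ := (hf _ (kl j hj b)).1.2
      have := hb w hw _ d
      rcases c with c | c
      exacts [(show j = w.1 from c) ▸ this.1, (show j = w.2 from c) ▸ this.2.1]
    exact ⟨(hA.oc j (sub hj)).out (h false) (h true) ⟨p3 j ▸ hq.1, p4 j ▸ hq.2.1⟩,
      hq.2.2.trans (pτ _ _)⟩
  have fr : ∀ R : Finset J, L.Fr R ⊆ π.Fr (R ∩ A') := fun R q hq j hj h =>
    hq j (Finset.mem_inter.1 hj).1 (sg j (Finset.mem_inter.1 hj).2 q h)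
  have fr' : L.Fr A ⊆ π.Fr A' := fun q hq j hj h => hq j (sub hj) (sg j hj q h)
  have an : ∀ e ∈ π.EM A' M, ∃ k ∈ (A' ×ˢ Finset.univ (α := Bool)).disjSum W, e.1 = f k ∧
      e = Sum.elim (fun a : J × Bool => π.pt a.1 (f (.inl a))) m k := fun e he => by
    rcases Sg.mem_EM.1 he with h | h
    · obtain ⟨j, hj, b, rfl⟩ := en e h
      exact ⟨_, kl j hj b, rfl, rfl⟩
    · obtain ⟨w, hw, rfl⟩ := M4 e h
      exact ⟨.inr w, Finset.inr_mem_disjSum.2 hw, hm' w hw, rfl⟩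
  refine ⟨π, A', M, sub, ⟨⟨fun j hj => ?_,
    fun j hj => Sg.En_sub_EM _ _ (Sg.mem_En.2 ⟨j, hj, .inl rfl⟩),
    fun j hj => Sg.En_sub_EM _ _ (Sg.mem_En.2 ⟨j, hj, .inr rfl⟩), fun e he e' he' h => ?_,
    fun e he j hj j' hj' h h' => ?_, fun q j hj j' hj' k hk a b c => ?_⟩,
    fun p hp => fr' (hG p (MG p hp)), fun e he => ?_⟩, fr, MG,
    fun p hp p' hp' h => M2 hp hp' (connectedComponentIn_eq h),
    (Finset.card_le_card (Finset.coe_subset.1 M1)).trans Finset.card_image_le, fun w hw =>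
      ⟨(hA' _).2 ⟨w, hw, .inl rfl⟩, (hA' _).2 ⟨w, hw, .inr rfl⟩, ?_⟩⟩
  · obtain ⟨w, hw, c⟩ := (hA' j).1 hj
    exact (lt w hw j c).1.trans (lt w hw j c).2
  · obtain ⟨k, hk, a, b⟩ := an e he
    obtain ⟨k', hk', a', b'⟩ := an e' he'
    rw [b, b', hi k hk k' hk' (a.symm.trans (h.trans a'))]
  · by_contra hne
    obtain ⟨k, hk, a, -⟩ := an e he
    obtain ⟨i1, e1⟩ := sg j hj e h
    obtain ⟨i2, e2⟩ := sg j' hj' e h'
    by_cases hs : L.sl j = L.sl j'
    · refine hA.g0 j (sub hj) j' (sub hj') hne ⟨_, i1⟩ ⟨_, i2⟩ hs ?_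
      rw [hs] at e1
      linarith
    · refine (hf k hk).2 (Finset.mem_image.2 ⟨(j, j'), Finset.mem_product.2 ⟨sub hj, sub hj'⟩, ?_⟩)
      rw [← a, div_eq_iff (sub_ne_zero.2 hs)]
      linarith
  · obtain ⟨i1, e1⟩ := sg j hj q a
    obtain ⟨i2, e2⟩ := sg j' hj' q b
    obtain ⟨i3, e3⟩ := sg k hk q c
    exact hA.three j (sub hj) j' (sub hj') k (sub hk) q.1 i1 i2 i3 (e1.symm.trans e2)
      (e1.symm.trans e3)
  · obtain ⟨j, hj, b, rfl⟩ := en e he
    obtain ⟨w, hw, -, d⟩ := (hf _ (kl j hj b)).1.2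
    obtain ⟨p, hp, c⟩ := M5 w hw
    refine ⟨p, hp, Sg.En_sub_EM _ _ he, Sg.mem_EM.2 (.inr hp), {w.1, w.2}, Finset.card_le_two, ?_⟩
    have s1 : O w ⊆ π.XA (A' \ {w.1, w.2}) (π.EM A' M) := fun q hq => .inl fun k hk h => by
      simp only [Finset.mem_sdiff, Finset.mem_insert, Finset.mem_singleton, not_or] at hk
      exact (hb w hw q hq).2.2.2 k (sub hk.1) hk.2.1 hk.2.2 (sg k hk.1 q h)
    have s2 : L.Fr A ⊆ π.XA (A' \ {w.1, w.2}) (π.EM A' M) := fun q hq =>
      .inl (Sg.Fr_mono Finset.sdiff_subset (fr' hq))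
    have s3 : IsPreconnected (O w) := by
      rw [hO]
      exact (convex_ball _ _).isPreconnected
    have s4 : π.pt j (f (.inl (j, b))) ∈ O w := by
      rw [Sg.pt, pτ]
      exact d
    have s5 := s3.subset_connectedComponentIn s4 s1 (hT w ▸ hm w hw).1
    rw [cc, connectedComponentIn_eq s5]
    refine connectedComponentIn_mono _ s2 ?_
    exact c.le (mem_connectedComponentIn (hG p (MG p hp)))
  · obtain ⟨p, hp, c⟩ := M5 w hw
    refine ⟨p, hp, p1 ▸ (hW w hw).2.2.1, x w, (lt w hw _ (.inl rfl)).1, (lt w hw _ (.inl rfl)).2,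
      (lt w hw _ (.inr rfl)).1, (lt w hw _ (.inr rfl)).2, by rw [pτ, pτ, hx w hw], ?_⟩
    have s1 : IsPreconnected (T w) := by
      rw [hT, hO]
      exact ((convex_ball _ _).inter ((Trim_cvx _ _).inter (Trim_cvx _ _))).isPreconnected
    have s2 := s1.subset_connectedComponentIn (hm w hw) fun q hq => hG q (TG w hw q hq)
    have s3 : O w ∈ 𝓝 (π.pt w.1 (x w)) := by
      rw [Sg.pt, pτ, hO]
      exact Metric.ball_mem_nhds _ (hr w hw)
    filter_upwards [s3] with q hq a b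
    rw [pτ] at a b
    exact connectedComponentIn_mono _ fr' (c.ge (s2 (hT w ▸ ⟨hq, a, b⟩)))

end SA
end

-- part: Wind
section
/-!
# Winding numbers by upward rays

`wind_edge`: let `p₀ ∉ segment u v`.  By antisymmetry (`wn_symm`, `Wind.symm`) assume
`u.1 ≤ v.1`.  Vertical edge: `wn = 0`; if `p₀.1 = u.1` then `u` and `v` are both above or both below
`p₀`, so the two jumps agree.  Otherwise let `ℓ x` be the height of the edge.  Cases
`p₀.1 < u.1`, `= u.1`, between, `= v.1`, `> v.1`; in the middle three `ℓ p₀.1 ≠ p₀.2`, and the sign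
of `ℓ p.1 - p.2` is locally constant.

`Wind.const`: at the points of `D` the jumps vanish or cancel, so `W` is locally constant there
(`IsPreconnected.constant` or `IsPreconnected.induction₂`).
-/

open Set Filter Topology

namespace SA

open Classical in
/-- The signed crossing of the upward ray from `p` with the edge from `u` to `v`. -/
noncomputable def wn (u v p : Pt) : ℤ :=
  if u.1 ≤ p.1 ∧ p.1 < v.1 ∧ (p.2 - u.2) * (v.1 - u.1) < (p.1 - u.1) * (v.2 - u.2) then 1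
  else if v.1 ≤ p.1 ∧ p.1 < u.1 ∧ (p.2 - v.2) * (u.1 - v.1) < (p.1 - v.1) * (u.2 - v.2) then -1
  else 0

open Classical in
/-- The jump caused by a vertex `u` above `p₀`. -/
noncomputable def jm (p₀ u p : Pt) : ℤ := if u.1 = p₀.1 ∧ p₀.2 < u.2 ∧ u.1 ≤ p.1 then 1 else 0

/-- `W` counts the crossings with a path from `u` to `v` inside `K`. -/
def Wind (K : Set Pt) (u v : Pt) (W : Pt → ℤ) : Prop :=
  ∀ p₀ ∉ K, ∀ᶠ p in 𝓝 p₀, W p - jm p₀ u p + jm p₀ v p = W p₀ - jm p₀ u p₀ + jm p₀ v p₀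

/-- Joined by a polygonal path in `X`. -/
def Poly (X : Set Pt) : Pt → Pt → Prop := Relation.ReflTransGen fun u v => segment ℝ u v ⊆ X

variable {K K' X D : Set Pt} {u v w p p' : Pt} {W W' : Pt → ℤ}

theorem wn_symm (u v p : Pt) : wn v u p = -wn u v p := by
  unfold wn
  by_cases a : u.1 ≤ p.1 ∧ p.1 < v.1 ∧ (p.2 - u.2) * (v.1 - u.1) < (p.1 - u.1) * (v.2 - u.2)
  · have b : ¬ (v.1 ≤ p.1 ∧ p.1 < u.1 ∧ (p.2 - v.2) * (u.1 - v.1) < (p.1 - v.1) * (u.2 - v.2)) :=
      fun b => absurd b.1 (not_le.2 a.2.1)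
    rw [if_neg b, if_pos a, if_pos a]
  · rw [if_neg a, if_neg a]
    by_cases b : v.1 ≤ p.1 ∧ p.1 < u.1 ∧ (p.2 - v.2) * (u.1 - v.1) < (p.1 - v.1) * (u.2 - v.2)
    · rw [if_pos b, if_pos b, neg_neg]
    · rw [if_neg b, if_neg b, neg_zero]

theorem wn_vert (h : u.1 = v.1) (p : Pt) : wn u v p = 0 := by
  unfold wn
  rw [if_neg fun a => absurd a.1 (not_le.2 (h ▸ a.2.1)),
    if_neg fun a => absurd a.1 (not_le.2 (h ▸ a.2.1))]

theorem Wind.mono (h : Wind K u v W) (hK : K ⊆ K') : Wind K' u v W :=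
  fun p₀ hp => h p₀ fun a => hp (hK a)

theorem Wind.symm (h : Wind K u v W) : Wind K v u fun p => -W p := by
  intro p₀ hp
  filter_upwards [h p₀ hp] with p e
  omega

theorem Wind.trans (h : Wind K u v W) (h' : Wind K' v w W') :
    Wind (K ∪ K') u w fun p => W p + W' p := by
  intro p₀ hp
  filter_upwards [h p₀ fun a => hp (Or.inl a), h' p₀ fun a => hp (Or.inr a)] with p e e'
  omega

theorem Wind_of_ex (h : ∀ p₀ ∉ K, ∃ c, ∀ᶠ p in 𝓝 p₀, W p - jm p₀ u p + jm p₀ v p = c) :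
    Wind K u v W := by
  intro p₀ hp
  obtain ⟨c, hc⟩ := h p₀ hp
  filter_upwards [hc] with p e
  rw [e, hc.self_of_nhds]

theorem Wind_jm0 {p₀ : Pt} (h : ¬ (u.1 = p₀.1 ∧ p₀.2 < u.2)) (p : Pt) : jm p₀ u p = 0 := by
  unfold jm
  exact if_neg fun a => h ⟨a.1, a.2.1⟩

open Classical in
theorem Wind_jm1 {p₀ : Pt} (h : u.1 = p₀.1) (h' : p₀.2 < u.2) (p : Pt) :
    jm p₀ u p = if u.1 ≤ p.1 then 1 else 0 := by
  unfold jm
  by_cases a : u.1 ≤ p.1
  · rw [if_pos ⟨h, h', a⟩, if_pos a]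
  · rw [if_neg fun b => a b.2.2, if_neg a]

theorem Wind_wn0 (h : u.1 < v.1)
    (a : ¬ (u.1 ≤ p.1 ∧ p.1 < v.1 ∧ (p.2 - u.2) * (v.1 - u.1) < (p.1 - u.1) * (v.2 - u.2))) :
    wn u v p = 0 := by
  unfold wn
  rw [if_neg a, if_neg fun b => absurd (b.1.trans_lt b.2.1) (not_lt.2 h.le)]

theorem Wind_wn1 (a : u.1 ≤ p.1) (b : p.1 < v.1)
    (c : (p.2 - u.2) * (v.1 - u.1) < (p.1 - u.1) * (v.2 - u.2)) : wn u v p = 1 := by
  unfold wn
  rw [if_pos ⟨a, b, c⟩]

theorem Wind_mem (h : u.1 < v.1) (a : u.1 ≤ p.1) (b : p.1 ≤ v.1)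
    (c : (p.2 - u.2) * (v.1 - u.1) = (p.1 - u.1) * (v.2 - u.2)) : p ∈ segment ℝ u v := by
  have d : 0 < v.1 - u.1 := sub_pos.2 h
  refine ⟨(v.1 - p.1) / (v.1 - u.1), (p.1 - u.1) / (v.1 - u.1), div_nonneg (sub_nonneg.2 b) d.le,
    div_nonneg (sub_nonneg.2 a) d.le, ?_, Prod.ext ?_ ?_⟩
  · field_simp; ring
  · show (v.1 - p.1) / (v.1 - u.1) * u.1 + (p.1 - u.1) / (v.1 - u.1) * v.1 = p.1
    field_simp; ring
  · show (v.1 - p.1) / (v.1 - u.1) * u.2 + (p.1 - u.1) / (v.1 - u.1) * v.2 = p.2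
    field_simp; linarith

theorem Wind_mem_vert (h : u.1 = v.1) (a : u.1 = p.1) (b : p.2 ∈ uIcc u.2 v.2) :
    p ∈ segment ℝ u v := by
  rw [← segment_eq_uIcc] at b
  obtain ⟨s, t, hs, ht, e, e'⟩ := b
  refine ⟨s, t, hs, ht, e, Prod.ext ?_ e'⟩
  show s * u.1 + t * v.1 = p.1
  rw [← h, ← add_mul, e, one_mul, a]

theorem Wind_vert (h : u.1 = v.1) : Wind (segment ℝ u v) u v (wn u v) := by
  refine Wind_of_ex fun p₀ hp => ⟨0, Eventually.of_forall fun p => ?_⟩
  rw [wn_vert h]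
  by_cases a : u.1 = p₀.1
  · have b : p₀.2 ∉ uIcc u.2 v.2 := fun b => hp (Wind_mem_vert h a b)
    by_cases c : p₀.2 < u.2
    · have d : p₀.2 < v.2 := lt_of_not_ge fun d => b (mem_uIcc.2 (Or.inr ⟨d, c.le⟩))
      rw [Wind_jm1 a c, Wind_jm1 (h ▸ a) d, h]; omega
    · have d : ¬ p₀.2 < v.2 := fun d => b (mem_uIcc.2 (Or.inl ⟨not_lt.1 c, d.le⟩))
      rw [Wind_jm0 fun e => c e.2, Wind_jm0 fun e => d e.2]; rfl
  · rw [Wind_jm0 fun e => a e.1, Wind_jm0 fun e => a (h.trans e.1)]; rfl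

theorem Wind_lt (h : u.1 < v.1) : Wind (segment ℝ u v) u v (wn u v) := by
  refine Wind_of_ex fun p₀ hp => ?_
  have d : 0 < v.1 - u.1 := sub_pos.2 h
  have c1 : Continuous fun p : Pt => (p.2 - u.2) * (v.1 - u.1) := by fun_prop
  have c2 : Continuous fun p : Pt => (p.1 - u.1) * (v.2 - u.2) := by fun_prop
  by_cases a : p₀.1 < u.1
  · refine ⟨0, ?_⟩
    filter_upwards [(isOpen_lt continuous_fst continuous_const).mem_nhds a] with p e
    rw [Wind_wn0 h fun b => absurd b.1 (not_le.2 e), Wind_jm0 fun b => a.ne' b.1,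
      Wind_jm0 fun b => (a.trans h).ne' b.1]; rfl
  by_cases b : v.1 < p₀.1
  · refine ⟨0, ?_⟩
    filter_upwards [(isOpen_lt continuous_const continuous_fst).mem_nhds b] with p e
    rw [Wind_wn0 h fun c => absurd c.2.1 (not_lt.2 (le_of_lt e)),
      Wind_jm0 fun c => (h.trans b).ne c.1, Wind_jm0 fun c => b.ne c.1]; rfl
  rw [not_lt] at a b
  rcases lt_trichotomy ((p₀.2 - u.2) * (v.1 - u.1)) ((p₀.1 - u.1) * (v.2 - u.2)) with c | c | c
  · have n := (isOpen_lt c1 c2).mem_nhds c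
    rcases a.eq_or_lt with a | a
    · have k : p₀.2 < u.2 := by
        rw [← a, sub_self, zero_mul] at c
        exact sub_neg.1 (neg_of_mul_neg_left c d.le)
      refine ⟨0, ?_⟩
      filter_upwards [n, (isOpen_lt continuous_fst continuous_const).mem_nhds (a ▸ h : p₀.1 < v.1)]
        with p e e'
      rw [Wind_jm1 a k, Wind_jm0 (u := v) fun c => h.ne (a.trans c.1.symm)]
      by_cases g : u.1 ≤ p.1
      · rw [Wind_wn1 g e' e, if_pos g]; rfl
      · rw [Wind_wn0 h fun c => g c.1, if_neg g]; rfl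
    have m : {p : Pt | u.1 < p.1} ∈ 𝓝 p₀ :=
      (isOpen_lt continuous_const continuous_fst).mem_nhds a
    rcases b.eq_or_lt with b | b
    · have k : p₀.2 < v.2 := by
        rw [b, mul_comm (v.1 - u.1)] at c
        exact sub_lt_sub_iff_right u.2 |>.1 (lt_of_mul_lt_mul_right c d.le)
      refine ⟨1, ?_⟩
      filter_upwards [n, m] with p e e'
      rw [Wind_jm1 b.symm k, Wind_jm0 (u := u) fun c => a.ne c.1]
      by_cases g : v.1 ≤ p.1
      · rw [Wind_wn0 h fun c => absurd c.2.1 (not_lt.2 g), if_pos g]; rfl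
      · rw [Wind_wn1 (le_of_lt e') (not_le.1 g) e, if_neg g]; rfl
    · refine ⟨1, ?_⟩
      filter_upwards [n, m, (isOpen_lt continuous_fst continuous_const).mem_nhds b] with p e e' e''
      rw [Wind_wn1 (le_of_lt e') e'' e, Wind_jm0 fun c => a.ne c.1, Wind_jm0 fun c => b.ne' c.1]
      rfl
  · exact absurd (Wind_mem h a b c) hp
  · refine ⟨0, ?_⟩
    have ku : ¬ (u.1 = p₀.1 ∧ p₀.2 < u.2) := fun k => by
      rw [← k.1, sub_self, zero_mul] at c
      exact absurd c (not_lt.2 (mul_nonpos_of_nonpos_of_nonneg (sub_nonpos.2 k.2.le) d.le))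
    have kv : ¬ (v.1 = p₀.1 ∧ p₀.2 < v.2) := fun k => by
      rw [← k.1, mul_comm (v.1 - u.1)] at c
      exact absurd (lt_of_mul_lt_mul_right c d.le) (not_lt.2 (sub_le_sub_right k.2.le _))
    filter_upwards [(isOpen_lt c2 c1).mem_nhds c] with p e
    rw [Wind_wn0 h fun g => absurd g.2.2 (not_lt.2 (le_of_lt e)), Wind_jm0 ku, Wind_jm0 kv]; rfl

theorem wind_edge (u v : Pt) : Wind (segment ℝ u v) u v (wn u v) := by
  rcases lt_trichotomy u.1 v.1 with h | h | h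
  · exact Wind_lt h
  · exact Wind_vert h
  · have e : wn u v = fun p => -wn v u p := funext fun p => wn_symm v u p
    rw [e, segment_symm]
    exact (Wind_lt h).symm

/-- Constant on connected sets: for a closed path, or away from the abscissae of the ends. -/
theorem Wind.const (h : Wind K u v W) (hD : IsPreconnected D) (hK : Disjoint D K)
    (hu : u = v ∨ ∀ q ∈ D, q.1 ≠ u.1 ∧ q.1 ≠ v.1) (hp : p ∈ D) (hp' : p' ∈ D) : W p = W p' := by
  refine hD.constant (fun q hq => ContinuousAt.continuousWithinAt ?_) hp hp'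
  refine (continuousAt_const (y := W q)).congr ?_
  filter_upwards [h q (disjoint_left.1 hK hq)] with r e
  rcases hu with hu | hu
  · rw [hu] at e; omega
  · rw [Wind_jm0 fun a => (hu q hq).1 a.1.symm, Wind_jm0 fun a => (hu q hq).2 a.1.symm,
      Wind_jm0 fun a => (hu q hq).1 a.1.symm, Wind_jm0 fun a => (hu q hq).2 a.1.symm] at e
    omega

theorem Poly.symm (h : Poly X u v) : Poly X v u := by
  induction h with
  | refl => exact Relation.ReflTransGen.refl
  | tail _ e ih => exact Relation.ReflTransGen.head (by rwa [segment_symm]) ih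

theorem Poly.mono {X' : Set Pt} (h : Poly X u v) (hX : X ⊆ X') : Poly X' u v := by
  induction h with
  | refl => exact Relation.ReflTransGen.refl
  | tail _ e ih => exact Relation.ReflTransGen.tail ih (e.trans hX)

theorem Wind_closed (u v : Pt) : IsClosed (segment ℝ u v) := by
  rw [segment_eq_image]
  exact (isCompact_Icc.image (by fun_prop)).isClosed

theorem Poly.wind (h : Poly X u v) (hu : u ∈ X) : ∃ K ⊆ X, IsClosed K ∧ IsPreconnected K ∧
    u ∈ K ∧ v ∈ K ∧ ∃ W, Wind K u v W := by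
  induction h with
  | refl =>
    refine ⟨{u}, singleton_subset_iff.2 hu, isClosed_singleton, isPreconnected_singleton, rfl, rfl,
      fun _ => 0, fun p₀ _ => Eventually.of_forall fun p => ?_⟩
    rw [sub_add_cancel, sub_add_cancel]
  | @tail b c _ e ih =>
    obtain ⟨K, k1, k2, k3, k4, k5, W, k6⟩ := ih
    exact ⟨K ∪ segment ℝ b c, union_subset k1 e, k2.union (Wind_closed b c),
      k3.union b k5 (left_mem_segment ℝ b c) (convex_segment b c).isPreconnected, Or.inl k4,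
      Or.inr (right_mem_segment ℝ b c), _, k6.trans (wind_edge b c)⟩

end SA
end

-- part: Theta
section
/-!
# The theta lemma

Suppose the conclusion fails.  Write `A i`, `B i` for the points on the two lines, `La = [A₁, A₂]`,
`Ra = [A₂, A₃]`, `Lb`, `Rb`; so `La ∩ Rb = ∅` and `Ra ∩ Lb = ∅`, in particular `A₂` is not on
`Lb ∪ Rb`.  `Lk.wind`: a closed preconnected set `P ⊆ X ∪ {A, B}` (two vertical segments and the
set given by `Poly.wind`) with a function `W`, `Wind P A B W`, such that `P \ {A, B}` is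
preconnected, and near `A` (near `B`) no point of `P` lies below the line.
Let `a12 = wn A₁ A₂` and so on, `Z12 = a12 + W₂ - b12 - W₁`, `Z23 = a23 + W₃ - b23 - W₂`,
`Z13 = a12 + a23 + Y`, `Y = W₃ - b23 - b12 - W₁`; each has a `Wind` with its own support
(`Wind.trans`, `Wind.symm`, `wind_edge`), and `Z13 = Z12 + Z23`.
Take `r` such that the balls of radius `r` around `A₂` and `B₂` miss `P₁`, `P₃`, the other span and
the part of `P₂` below the line.  Let `Ha`, `Hb` be the open lower half-balls, `p ∈ Ha` directly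
below `A₂`, `p⁺ ∈ P₂` directly above `A₂` in the ball, and `p'`, `p'⁺` the same at `B₂`.
The set `Ha ∪ [A₁, A₂) ∪ P₁ ∪ [B₁, B₂) ∪ Hb` misses the support of `Z23`, and it is preconnected
(add to `Ha` a point of `[A₁, A₂)` in its closure, `IsPreconnected.subset_closure`), so
`Z23 p = Z23 p'` (`Wind.const`); in the same way `Z12 p = Z12 p'`, and `Z13 p⁺ = Z13 p'⁺` along
`P₂ \ {A₂, B₂}`.  On the vertical segment from `p` to `p⁺` the function `Y` is constant
(`Wind.const`, second alternative), `a12 p = a12 p⁺ = a23 p⁺ = 0`, `a23 p = 1`.  So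
`Z13 p = Z13 p⁺ + 1`, and `Z13 p' = Z13 p'⁺ - 1` (there group `Z13` as a path from `B₁` to `B₃`
minus `b12 + b23`).  Contradiction.
-/

open Set Filter Topology

namespace SA

/-- `X` touches both lines from above and links the two points of contact. -/
def Lk (X : Set Pt) (A B : Pt) : Prop :=
  ∃ ε, 0 < ε ∧ (∀ t, 0 < t → t ≤ ε → (A.1, A.2 + t) ∈ X ∧ (B.1, B.2 + t) ∈ X) ∧
    Poly X (A.1, A.2 + ε) (B.1, B.2 + ε)

private theorem Theta_vert {X : Set Pt} (A : Pt) {ε : ℝ} (hε : 0 < ε)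
    (h : ∀ t, 0 < t → t ≤ ε → (A.1, A.2 + t) ∈ X) :
    ∃ V U : Set Pt, IsClosed V ∧ IsPreconnected V ∧ IsPreconnected U ∧ U ⊆ V ∧ U ⊆ X ∧
      (∀ q ∈ V, q = A ∨ q ∈ U) ∧ (∀ t, 0 < t → t ≤ ε → (A.1, A.2 + t) ∈ U) ∧ A ∈ V ∧
      (∀ q ∈ V, q.1 = A.1 ∧ A.2 ≤ q.2) ∧ segment ℝ A (A.1, A.2 + ε) ⊆ V := by
  have c : Continuous fun t : ℝ => ((A.1, A.2 + t) : Pt) := by fun_prop
  refine ⟨(fun t : ℝ => ((A.1, A.2 + t) : Pt)) '' Icc 0 ε,
    (fun t : ℝ => ((A.1, A.2 + t) : Pt)) '' Ioc 0 ε, (isCompact_Icc.image c).isClosed,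
    isPreconnected_Icc.image _ c.continuousOn, isPreconnected_Ioc.image _ c.continuousOn,
    image_mono Ioc_subset_Icc_self, ?_, ?_, fun t h0 h1 => ⟨t, ⟨h0, h1⟩, rfl⟩,
    ⟨0, ⟨le_rfl, hε.le⟩, by simp⟩, ?_, ?_⟩
  · rintro _ ⟨t, ht, rfl⟩
    exact h t ht.1 ht.2
  · rintro _ ⟨t, ht, rfl⟩
    rcases ht.1.eq_or_lt with rfl | h0
    · exact Or.inl (by simp)
    · exact Or.inr ⟨t, ⟨h0, ht.2⟩, rfl⟩
  · rintro _ ⟨t, ht, rfl⟩
    exact ⟨rfl, le_add_of_nonneg_right ht.1⟩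
  · rintro _ ⟨u, v, hu, hv, huv, rfl⟩
    refine ⟨v * ε, ⟨mul_nonneg hv hε.le, by nlinarith⟩, Prod.ext ?_ ?_⟩
    · simp only [Prod.fst_add, Prod.smul_fst, smul_eq_mul]
      linear_combination -A.1 * huv
    · simp only [Prod.snd_add, Prod.smul_snd, smul_eq_mul]
      linear_combination -A.2 * huv

theorem Lk.wind {X : Set Pt} {A B : Pt} (h : Lk X A B) (hA : A ∉ X) (hB : B ∉ X) :
    ∃ P : Set Pt, P ⊆ X ∪ {A, B} ∧ IsClosed P ∧ IsPreconnected P ∧ A ∈ P ∧ B ∈ P ∧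
      IsPreconnected (P \ {A, B}) ∧
      (∀ᶠ t in 𝓝[>] (0 : ℝ), (A.1, A.2 + t) ∈ P \ {A, B} ∧ (B.1, B.2 + t) ∈ P \ {A, B}) ∧
      (A ≠ B → (∀ᶠ q in 𝓝 A, q ∈ P → q.1 = A.1 ∧ A.2 ≤ q.2) ∧
        ∀ᶠ q in 𝓝 B, q ∈ P → q.1 = B.1 ∧ B.2 ≤ q.2) ∧ ∃ W, Wind P A B W := by
  obtain ⟨ε, hε, hX, hP⟩ := h
  obtain ⟨K, hK, cK, pK, aK, bK, W, hW⟩ := hP.wind (hX ε hε le_rfl).1
  obtain ⟨VA, UA, a1, a2, a3, a4, a5, a6, a7, a8, a9, a10⟩ :=
    Theta_vert A hε fun t h0 h1 => (hX t h0 h1).1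
  obtain ⟨VB, UB, b1, b2, b3, b4, b5, b6, b7, b8, b9, b10⟩ :=
    Theta_vert B hε fun t h0 h1 => (hX t h0 h1).2
  have hin : ∀ q ∈ X, q ∉ ({A, B} : Set Pt) := by
    rintro q hq (rfl | rfl)
    exacts [hA hq, hB hq]
  have e : (VA ∪ K ∪ VB) \ {A, B} = UA ∪ K ∪ UB := by
    refine Subset.antisymm ?_ ?_
    · rintro q ⟨(hq | hq) | hq, hn⟩
      · exact Or.inl (Or.inl ((a6 q hq).resolve_left fun e => hn (Or.inl e)))
      · exact Or.inl (Or.inr hq)
      · exact Or.inr ((b6 q hq).resolve_left fun e => hn (Or.inr e))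
    · rintro q ((hq | hq) | hq)
      · exact ⟨Or.inl (Or.inl (a4 hq)), hin q (a5 hq)⟩
      · exact ⟨Or.inl (Or.inr hq), hin q (hK hq)⟩
      · exact ⟨Or.inr (b4 hq), hin q (b5 hq)⟩
  have aU := a7 ε hε le_rfl
  have bU := b7 ε hε le_rfl
  refine ⟨VA ∪ K ∪ VB, ?_, (a1.union cK).union b1,
    (a2.union _ (a4 aU) aK pK).union _ (Or.inr bK) (b4 bU) b2, Or.inl (Or.inl a8), Or.inr b8, ?_,
    ?_, fun hne => ⟨?_, ?_⟩, _, (((wind_edge A _).trans hW).trans (wind_edge B _).symm).mono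
      (union_subset_union (union_subset_union a10 Subset.rfl) b10)⟩
  · rintro q ((hq | hq) | hq)
    · rcases a6 q hq with h | h
      exacts [Or.inr (Or.inl h), Or.inl (a5 h)]
    · exact Or.inl (hK hq)
    · rcases b6 q hq with h | h
      exacts [Or.inr (Or.inr h), Or.inl (b5 h)]
  · rw [e]
    exact (a3.union _ aU aK pK).union _ (Or.inr bK) bU b3
  · rw [e]
    filter_upwards [Ioc_mem_nhdsGT hε] with t ht
    exact ⟨Or.inl (Or.inl (a7 t ht.1 ht.2)), Or.inr (b7 t ht.1 ht.2)⟩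
  · have h1 : A ∉ K ∪ VB := by
      rintro (h | h)
      · exact hA (hK h)
      · rcases b6 A h with h | h
        exacts [hne h, hA (b5 h)]
    filter_upwards [(cK.union b1).isOpen_compl.mem_nhds h1] with q hq hq'
    rcases hq' with (h | h) | h
    exacts [a9 q h, absurd (Or.inl h) hq, absurd (Or.inr h) hq]
  · have h1 : B ∉ VA ∪ K := by
      rintro (h | h)
      · rcases a6 B h with h | h
        exacts [hne h.symm, hB (a5 h)]
      · exact hB (hK h)
    filter_upwards [(a1.union cK).isOpen_compl.mem_nhds h1] with q hq hq'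
    rcases hq' with h | h
    exacts [absurd h hq, b9 q h]

/-- The part of a line between two abscissae. -/
private def Theta_Sp (s i x y : ℝ) : Set Pt := {q | q.1 ∈ uIcc x y ∧ q.2 = s * q.1 + i}

private theorem Theta_closed (s i x y : ℝ) : IsClosed (Theta_Sp s i x y) :=
  (isClosed_Icc.preimage continuous_fst).inter (isClosed_eq continuous_snd (by fun_prop))

private theorem Theta_left (s i x y : ℝ) : (x, s * x + i) ∈ Theta_Sp s i x y :=
  ⟨left_mem_uIcc, rfl⟩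

private theorem Theta_right (s i x y : ℝ) : (y, s * y + i) ∈ Theta_Sp s i x y :=
  ⟨right_mem_uIcc, rfl⟩

private theorem Theta_comm (s i x y : ℝ) : Theta_Sp s i x y = Theta_Sp s i y x := by
  simp only [Theta_Sp, uIcc_comm]

private theorem Theta_edge (s i x y : ℝ) : Wind (Theta_Sp s i x y) (x, s * x + i) (y, s * y + i)
    (wn (x, s * x + i) (y, s * y + i)) := by
  refine (wind_edge _ _).mono ?_
  rintro _ ⟨u, v, hu, hv, huv, rfl⟩
  refine ⟨?_, ?_⟩
  · rw [← segment_eq_uIcc]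
    exact ⟨u, v, hu, hv, huv, rfl⟩
  · simp only [Prod.snd_add, Prod.smul_snd, Prod.fst_add, Prod.smul_fst, smul_eq_mul]
    linear_combination i * huv

private theorem Theta_side {a x y z : ℝ} (h : (x - a) * (y - a) < 0) (hz : z ∈ uIcc a y)
    (h0 : 0 < (z - a) * (x - a)) : False := by
  rcases mem_uIcc.1 hz with h1 | h1
  · have h2 : 0 < x - a := by
      by_contra h3
      nlinarith [h1.1]
    nlinarith [h1.1, h1.2]
  · have h2 : x - a < 0 := by
      by_contra h3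
      nlinarith [h1.2]
    nlinarith [h1.1, h1.2]

private theorem Theta_tend (a c σ : ℝ) :
    Tendsto (fun t : ℝ => ((a, c + σ * t) : Pt)) (𝓝[>] 0) (𝓝 (a, c)) := by
  have h : Continuous fun t : ℝ => ((a, c + σ * t) : Pt) := by fun_prop
  simpa using (h.tendsto 0).mono_left (nhdsWithin_le_nhds (s := Ioi 0))

/-- From just below the middle point to one end of the span. -/
private theorem Theta_arm {s i a x y : ℝ} {K X R P Q : Set Pt} {u : Pt} {Z : Pt → ℤ}
    (h : (x - a) * (y - a) < 0) (hZ : Wind K u u Z)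
    (hK : ∀ q ∈ K, q ∈ Theta_Sp s i a y ∨ q ∈ R ∨ q ∈ P ∨ q ∈ Q)
    (hP : ∀ q, q ∈ P ∨ q ∈ Q → q ∈ X ∨ q ∈ Theta_Sp s i a y ∨ q ∈ R) (cR : IsClosed R)
    (cQ : IsClosed Q) (hQ : (a, s * a + i) ∉ Q) (hR : ∀ q ∈ Theta_Sp s i a x, q ∉ R)
    (hX : ∀ q ∈ Theta_Sp s i a x, q ∉ X)
    (hn : ∀ᶠ q in 𝓝 ((a, s * a + i) : Pt), q ∈ P → q.1 = a ∧ s * a + i ≤ q.2) :
    (x, s * x + i) ∉ K ∧ ∀ᶠ t in 𝓝[>] (0 : ℝ), Z (a, s * a + i + -1 * t) = Z (x, s * x + i) := by
  have hx : x - a ≠ 0 := fun e => by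
    rw [e, zero_mul] at h
    exact lt_irrefl _ h
  have hsq : 0 < (x - a) * (x - a) := mul_self_pos.2 hx
  let γ : ℝ → Pt := fun θ => (a + θ * (x - a), s * (a + θ * (x - a)) + i)
  have cγ : Continuous γ := by fun_prop
  have γ1 : γ 1 = (x, s * x + i) := by simp [γ]
  have hγ : ∀ θ ∈ Ioc (0 : ℝ) 1, γ θ ∉ K := by
    intro θ hθ hq
    have m : γ θ ∈ Theta_Sp s i a x := by
      refine ⟨?_, rfl⟩
      rw [← segment_eq_uIcc]
      refine ⟨1 - θ, θ, by linarith [hθ.2], hθ.1.le, by ring, ?_⟩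
      simp only [γ, smul_eq_mul]
      ring
    have n : γ θ ∉ Theta_Sp s i a y := fun m' => Theta_side h m'.1 (by
      simp only [γ, add_sub_cancel_left, mul_assoc]
      exact mul_pos hθ.1 hsq)
    rcases hK _ hq with h1 | h1 | h1
    · exact n h1
    · exact hR _ m h1
    · rcases hP _ h1 with h2 | h2 | h2
      exacts [hX _ m h2, n h2, hR _ m h2]
  refine ⟨γ1 ▸ hγ 1 ⟨one_pos, le_rfl⟩, ?_⟩
  have hN := (hn.and (cR.isOpen_compl.mem_nhds (hR _ (Theta_left s i a x)))).and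
    (cQ.isOpen_compl.mem_nhds hQ)
  obtain ⟨r, hr, hb⟩ := Metric.eventually_nhds_iff_ball.1 hN
  have t0 : Tendsto γ (𝓝[>] 0) (𝓝 (a, s * a + i)) := by
    simpa [γ] using (cγ.tendsto 0).mono_left (nhdsWithin_le_nhds (s := Ioi 0))
  obtain ⟨η, η1, η2⟩ := ((t0.eventually (Metric.ball_mem_nhds _ hr)).and
    (Ioc_mem_nhdsGT one_pos)).exists
  have e1 : Z (γ η) = Z (γ 1) :=
    hZ.const (isPreconnected_Ioc.image γ cγ.continuousOn)
      (disjoint_left.2 (by rintro _ ⟨θ, hθ, rfl⟩; exact hγ θ hθ)) (Or.inl rfl) ⟨η, η2, rfl⟩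
      ⟨1, ⟨one_pos, le_rfl⟩, rfl⟩
  filter_upwards [(Theta_tend a (s * a + i) (-1)).eventually (Metric.ball_mem_nhds _ hr),
    self_mem_nhdsWithin] with t ht t0
  replace t0 : 0 < t := t0
  rw [← γ1, ← e1]
  refine hZ.const (convex_segment _ _).isPreconnected (disjoint_left.2 fun z hz hq => ?_)
    (Or.inl rfl) (left_mem_segment ℝ _ _) (right_mem_segment ℝ _ _)
  obtain ⟨⟨n1, n2⟩, n3⟩ := hb z ((convex_ball _ r).segment_subset ht η1 hz)
  obtain ⟨v, w, hv, hw, hvw, rfl⟩ := hz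
  rcases hw.eq_or_lt with rfl | hw'
  · rw [add_zero] at hvw
    subst hvw
    rw [one_smul, zero_smul, add_zero] at hq n1 n2 n3
    rcases hK _ hq with h1 | h1 | h1 | h1
    · have := h1.2
      simp only at this
      linarith
    · exact n2 h1
    · have := (n1 h1).2
      simp only at this
      linarith
    · exact n3 h1
  · have e2 : (v • ((a, s * a + i + -1 * t) : Pt) + w • γ η).1 - a = w * η * (x - a) := by
      simp only [γ, Prod.fst_add, Prod.smul_fst, smul_eq_mul]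
      linear_combination a * hvw
    have e3 : 0 < ((v • ((a, s * a + i + -1 * t) : Pt) + w • γ η).1 - a) * (x - a) := by
      rw [e2, mul_assoc]
      exact mul_pos (mul_pos hw' η2.1) hsq
    rcases hK _ hq with h1 | h1 | h1 | h1
    · exact Theta_side h h1.1 e3
    · exact n2 h1
    · rw [(n1 h1).1, sub_self, zero_mul] at e3
      exact lt_irrefl _ e3
    · exact n3 h1

/-- A closed path through the middle points has the same value below both of them. -/
private theorem Theta_below {sa ia sb ib a₁ a₂ a₃ b₁ b₂ b₃ : ℝ} {X₁ X₂ X₃ P₁ P₂ P₃ K : Set Pt}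
    {u : Pt} {Z : Pt → ℤ} (ha : (a₁ - a₂) * (a₃ - a₂) < 0) (hb : (b₁ - b₂) * (b₃ - b₂) < 0)
    (d12 : Disjoint X₁ X₂) (d13 : Disjoint X₁ X₃)
    (sA : ∀ q, q ∈ Theta_Sp sa ia a₂ a₁ ∨ q ∈ Theta_Sp sa ia a₂ a₃ → q ∉ X₁ ∧ q ∉ X₂ ∧ q ∉ X₃)
    (sB : ∀ q, q ∈ Theta_Sp sb ib b₂ b₁ ∨ q ∈ Theta_Sp sb ib b₂ b₃ → q ∉ X₁ ∧ q ∉ X₂ ∧ q ∉ X₃)
    (x1 : ∀ q ∈ Theta_Sp sa ia a₂ a₁, q ∉ Theta_Sp sb ib b₂ b₃)
    (x2 : ∀ q ∈ Theta_Sp sb ib b₂ b₁, q ∉ Theta_Sp sa ia a₂ a₃)
    (p₁ : P₁ ⊆ X₁ ∪ {(a₁, sa * a₁ + ia), (b₁, sb * b₁ + ib)})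
    (p₂ : P₂ ⊆ X₂ ∪ {(a₂, sa * a₂ + ia), (b₂, sb * b₂ + ib)})
    (p₃ : P₃ ⊆ X₃ ∪ {(a₃, sa * a₃ + ia), (b₃, sb * b₃ + ib)}) (c₃ : IsClosed P₃)
    (k₁ : IsPreconnected P₁) (m₁ : (a₁, sa * a₁ + ia) ∈ P₁) (m₂ : (b₁, sb * b₁ + ib) ∈ P₁)
    (q₁ : (a₂, sa * a₂ + ia) ∉ P₃) (q₂ : (b₂, sb * b₂ + ib) ∉ P₃)
    (nA : ∀ᶠ q in 𝓝 ((a₂, sa * a₂ + ia) : Pt), q ∈ P₂ → q.1 = a₂ ∧ sa * a₂ + ia ≤ q.2)
    (nB : ∀ᶠ q in 𝓝 ((b₂, sb * b₂ + ib) : Pt), q ∈ P₂ → q.1 = b₂ ∧ sb * b₂ + ib ≤ q.2)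
    (hZ : Wind K u u Z)
    (hK : ∀ q ∈ K, q ∈ Theta_Sp sa ia a₂ a₃ ∨ q ∈ Theta_Sp sb ib b₂ b₃ ∨ q ∈ P₂ ∨ q ∈ P₃) :
    ∀ᶠ t in 𝓝[>] (0 : ℝ), Z (a₂, sa * a₂ + ia + -1 * t) = Z (b₂, sb * b₂ + ib + -1 * t) := by
  have hP : ∀ q, q ∈ P₂ ∨ q ∈ P₃ →
      q ∈ X₂ ∪ X₃ ∨ q ∈ Theta_Sp sa ia a₂ a₃ ∨ q ∈ Theta_Sp sb ib b₂ b₃ := by
    rintro q (h | h)
    · rcases p₂ h with h | rfl | rfl
      exacts [Or.inl (Or.inl h), Or.inr (Or.inl (Theta_left _ _ _ _)),
        Or.inr (Or.inr (Theta_left _ _ _ _))]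
    · rcases p₃ h with h | rfl | rfl
      exacts [Or.inl (Or.inr h), Or.inr (Or.inl (Theta_right _ _ _ _)),
        Or.inr (Or.inr (Theta_right _ _ _ _))]
  obtain ⟨u1, u2⟩ := Theta_arm ha hZ hK hP (Theta_closed _ _ _ _) c₃ q₁ x1
    (fun q hq h => h.elim (sA q (Or.inl hq)).2.1 (sA q (Or.inl hq)).2.2) nA
  obtain ⟨v1, v2⟩ := Theta_arm hb hZ (fun q hq => or_left_comm.1 (hK q hq))
    (fun q hq => (hP q hq).imp_right Or.symm) (Theta_closed _ _ _ _) c₃ q₂ x2
    (fun q hq h => h.elim (sB q (Or.inl hq)).2.1 (sB q (Or.inl hq)).2.2) nB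
  have e : Z (a₁, sa * a₁ + ia) = Z (b₁, sb * b₁ + ib) := by
    refine hZ.const k₁ (disjoint_left.2 fun q hq hq' => ?_) (Or.inl rfl) m₁ m₂
    rcases p₁ hq with h | rfl | rfl
    · have h1 : q ∈ X₂ ∪ X₃ ∨ q ∈ Theta_Sp sa ia a₂ a₃ ∨ q ∈ Theta_Sp sb ib b₂ b₃ := by
        rcases hK q hq' with h1 | h1 | h1
        exacts [Or.inr (Or.inl h1), Or.inr (Or.inr h1), hP q h1]
      rcases h1 with (h1 | h1) | h1 | h1
      exacts [disjoint_left.1 d12 h h1, disjoint_left.1 d13 h h1, (sA q (Or.inr h1)).1 h,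
        (sB q (Or.inr h1)).1 h]
    · exact u1 hq'
    · exact v1 hq'
  filter_upwards [u2, v2] with t h1 h2
  rw [h1, h2, e]

private theorem Theta_loc {K : Set Pt} {u v : Pt} {a c : ℝ} {Y : Pt → ℤ} (h : Wind K u v Y)
    (hp : (a, c) ∉ K) (hu : u.1 ≠ a) (hv : v.1 ≠ a) :
    ∀ᶠ t in 𝓝[>] (0 : ℝ), Y (a, c + -1 * t) = Y (a, c + t) := by
  have h1 : ∀ᶠ p in 𝓝 ((a, c) : Pt), Y p = Y (a, c) := by
    filter_upwards [h _ hp] with p hp
    simpa [jm, hu, hv] using hp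
  filter_upwards [(Theta_tend a c (-1)).eventually h1, (Theta_tend a c 1).eventually h1]
    with t h2 h3
  rw [one_mul] at h3
  rw [h2, h3]

private theorem Theta_wn0 {x a c d : ℝ} (h : x < a) (y : ℝ) : wn (x, c) (a, d) (a, y) = 0 := by
  simp [wn, h.not_gt]

private theorem Theta_wn1 {x a c d t : ℝ} (h : a < x) (ht : 0 < t) :
    wn (a, c) (x, d) (a, c + -1 * t) = 1 := by
  refine if_pos ⟨le_rfl, h, ?_⟩
  simp only [sub_self, zero_mul]
  nlinarith

private theorem Theta_wn2 {x a c d t : ℝ} (h : a < x) (ht : 0 < t) :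
    wn (a, c) (x, d) (a, c + t) = 0 := by
  rw [wn, if_neg, if_neg]
  · exact fun h1 => lt_irrefl _ h1.2.1
  · intro h1
    have h2 := h1.2.2
    simp only [sub_self, zero_mul] at h2
    nlinarith

theorem theta {sa ia sb ib a₁ a₂ a₃ b₁ b₂ b₃ : ℝ} {X₁ X₂ X₃ : Set Pt} (ha : a₁ < a₂)
    (ha' : a₂ < a₃) (hb : b₁ < b₂) (hb' : b₂ < b₃) (d12 : Disjoint X₁ X₂) (d13 : Disjoint X₁ X₃)
    (d23 : Disjoint X₂ X₃)
    (sA : ∀ x, a₁ ≤ x → x ≤ a₃ → (x, sa * x + ia) ∉ X₁ ∪ X₂ ∪ X₃)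
    (sB : ∀ x, b₁ ≤ x → x ≤ b₃ → (x, sb * x + ib) ∉ X₁ ∪ X₂ ∪ X₃)
    (l₁ : Lk X₁ (a₁, sa * a₁ + ia) (b₁, sb * b₁ + ib))
    (l₂ : Lk X₂ (a₂, sa * a₂ + ia) (b₂, sb * b₂ + ib))
    (l₃ : Lk X₃ (a₃, sa * a₃ + ia) (b₃, sb * b₃ + ib)) :
    ∃ ζ, sa * ζ + ia = sb * ζ + ib ∧
      ((a₁ ≤ ζ ∧ ζ ≤ a₂ ∧ b₂ ≤ ζ ∧ ζ ≤ b₃) ∨ (a₂ ≤ ζ ∧ ζ ≤ a₃ ∧ b₁ ≤ ζ ∧ ζ ≤ b₂)) := by
  by_contra hc
  have x1 : ∀ q ∈ Theta_Sp sa ia a₂ a₁, q ∉ Theta_Sp sb ib b₂ b₃ := fun q h h' => by
    have h1 := h.1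
    have h2 := h'.1
    rw [uIcc_of_ge ha.le] at h1
    rw [uIcc_of_le hb'.le] at h2
    exact hc ⟨q.1, h.2.symm.trans h'.2, Or.inl ⟨h1.1, h1.2, h2.1, h2.2⟩⟩
  have x2 : ∀ q ∈ Theta_Sp sb ib b₂ b₁, q ∉ Theta_Sp sa ia a₂ a₃ := fun q h' h => by
    have h1 := h.1
    have h2 := h'.1
    rw [uIcc_of_le ha'.le] at h1
    rw [uIcc_of_ge hb.le] at h2
    exact hc ⟨q.1, h.2.symm.trans h'.2, Or.inr ⟨h1.1, h1.2, h2.1, h2.2⟩⟩
  have key : ∀ {s i x y z : ℝ}, x < y → y < z →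
      (∀ w, x ≤ w → w ≤ z → (w, s * w + i) ∉ X₁ ∪ X₂ ∪ X₃) → ∀ q,
      q ∈ Theta_Sp s i y x ∨ q ∈ Theta_Sp s i y z → q ∉ X₁ ∧ q ∉ X₂ ∧ q ∉ X₃ := by
    intro s i x y z h1 h2 h q hq
    have h3 : (x ≤ q.1 ∧ q.1 ≤ z) ∧ q.2 = s * q.1 + i := by
      rcases hq with ⟨h3, h4⟩ | ⟨h3, h4⟩
      · rw [uIcc_of_ge h1.le] at h3
        exact ⟨⟨h3.1, h3.2.trans h2.le⟩, h4⟩
      · rw [uIcc_of_le h2.le] at h3
        exact ⟨⟨h1.le.trans h3.1, h3.2⟩, h4⟩
    have h4 := h q.1 h3.1.1 h3.1.2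
    rw [← h3.2] at h4
    exact ⟨fun h => h4 (Or.inl (Or.inl h)), fun h => h4 (Or.inl (Or.inr h)),
      fun h => h4 (Or.inr h)⟩
  have tA := key ha ha' sA
  have tB := key hb hb' sB
  have A1 := Theta_right sa ia a₂ a₁
  have A2 := Theta_left sa ia a₂ a₁
  have A2' := Theta_left sa ia a₂ a₃
  have A3 := Theta_right sa ia a₂ a₃
  have B1 := Theta_right sb ib b₂ b₁
  have B2 := Theta_left sb ib b₂ b₁
  have B2' := Theta_left sb ib b₂ b₃
  have B3 := Theta_right sb ib b₂ b₃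
  obtain ⟨P₁, p₁, c₁, k₁, m₁, n₁, -, -, -, W₁, w₁⟩ :=
    l₁.wind (tA _ (Or.inl A1)).1 (tB _ (Or.inl B1)).1
  obtain ⟨P₂, p₂, -, -, -, -, k₂, e₂, o₂, W₂, w₂⟩ :=
    l₂.wind (tA _ (Or.inl A2)).2.1 (tB _ (Or.inl B2)).2.1
  obtain ⟨P₃, p₃, c₃, k₃, m₃, n₃, -, -, -, W₃, w₃⟩ :=
    l₃.wind (tA _ (Or.inr A3)).2.2 (tB _ (Or.inr B3)).2.2
  obtain ⟨nA, nB⟩ := o₂ fun e => x1 _ A2 (e ▸ B2')
  have qA1 : (a₂, sa * a₂ + ia) ∉ P₁ := fun h => by
    rcases p₁ h with h | h | h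
    · exact (tA _ (Or.inl A2)).1 h
    · exact ha.ne' (congrArg Prod.fst h)
    · exact x2 _ B1 (h ▸ A2')
  have qA3 : (a₂, sa * a₂ + ia) ∉ P₃ := fun h => by
    rcases p₃ h with h | h | h
    · exact (tA _ (Or.inl A2)).2.2 h
    · exact ha'.ne (congrArg Prod.fst h)
    · exact x1 _ A2 (h ▸ B3)
  have qB1 : (b₂, sb * b₂ + ib) ∉ P₁ := fun h => by
    rcases p₁ h with h | h | h
    · exact (tB _ (Or.inl B2)).1 h
    · exact x1 _ A1 (h ▸ B2')
    · exact hb.ne' (congrArg Prod.fst h)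
  have qB3 : (b₂, sb * b₂ + ib) ∉ P₃ := fun h => by
    rcases p₃ h with h | h | h
    · exact (tB _ (Or.inl B2)).2.2 h
    · exact x2 _ B2 (h ▸ A3)
    · exact hb'.ne (congrArg Prod.fst h)
  have a12 := Theta_edge sa ia a₁ a₂
  have a23 := Theta_edge sa ia a₂ a₃
  have b12 := Theta_edge sb ib b₁ b₂
  have b23 := Theta_edge sb ib b₂ b₃
  rw [Theta_comm] at a12 b12
  have z23 := Theta_below (by nlinarith) (by nlinarith) d12 d13 tA tB x1 x2 p₁ p₂ p₃ c₃ k₁ m₁ n₁
    qA3 qB3 nA nB (((a23.trans w₃).trans b23.symm).trans w₂.symm) (by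
      rintro q (((h | h) | h) | h)
      exacts [Or.inl h, Or.inr (Or.inr (Or.inr h)), Or.inr (Or.inl h), Or.inr (Or.inr (Or.inl h))])
  have z12 := Theta_below (by nlinarith) (by nlinarith) d23.symm d13.symm
    (fun q hq => ⟨(tA q hq.symm).2.2, (tA q hq.symm).2.1, (tA q hq.symm).1⟩)
    (fun q hq => ⟨(tB q hq.symm).2.2, (tB q hq.symm).2.1, (tB q hq.symm).1⟩)
    (fun q h h' => x2 q h' h) (fun q h h' => x1 q h' h) p₃ p₂ p₁ c₁ k₃ m₃ n₃
    qA1 qB1 nA nB (((a12.trans w₂).trans b12.symm).trans w₁.symm) (by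
      rintro q (((h | h) | h) | h)
      exacts [Or.inl h, Or.inr (Or.inr (Or.inl h)), Or.inr (Or.inl h), Or.inr (Or.inr (Or.inr h))])
  have hY := ((w₃.trans b23.symm).trans b12.symm).trans w₁.symm
  have yA := Theta_loc hY (by
    rintro (((h | h) | h) | h)
    exacts [qA3 h, x1 _ A2 h, x2 _ h A2', qA1 h]) ha'.ne' ha.ne
  have yB := Theta_loc (((w₁.symm.trans a12).trans a23).trans w₃) (by
    rintro (((h | h) | h) | h)
    exacts [qB1 h, x1 _ h B2', x2 _ B2 h, qB3 h]) hb.ne hb'.ne'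
  obtain ⟨t, ⟨⟨⟨⟨⟨h1, h2⟩, h3⟩, h4⟩, h5⟩, t0⟩⟩ :=
    (((((z12.and z23).and yA).and yB).and e₂).and self_mem_nhdsWithin).exists
  replace t0 : 0 < t := t0
  have h6 := ((a12.trans a23).trans hY).const k₂ (disjoint_left.2 fun q hq hq' => by
    have h7 : q ∈ X₂ := (p₂ hq.1).resolve_right hq.2
    rcases hq' with (h | h) | ((h | h) | h) | h
    · exact (tA q (Or.inl h)).2.1 h7
    · exact (tA q (Or.inr h)).2.1 h7
    · rcases p₃ h with h | rfl | rfl
      exacts [disjoint_left.1 d23 h7 h, (tA _ (Or.inr A3)).2.1 h7, (tB _ (Or.inr B3)).2.1 h7]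
    · exact (tB q (Or.inr h)).2.1 h7
    · exact (tB q (Or.inl h)).2.1 h7
    · rcases p₁ h with h | rfl | rfl
      exacts [disjoint_left.1 d12 h h7, (tA _ (Or.inl A1)).2.1 h7, (tB _ (Or.inl B1)).2.1 h7])
    (Or.inl rfl) h5.1 h5.2
  simp only [Theta_wn0 ha, Theta_wn0 hb, Theta_wn1 ha' t0, Theta_wn1 hb' t0, Theta_wn2 ha' t0,
    Theta_wn2 hb' t0] at h1 h2 h3 h4 h6
  linarith

end SA
end

-- part: CellD
section
/-!
# Nodes and touches: definitions
-/

open Set Filter Topology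

namespace SA

namespace Sg

variable {J : Type} (π : Sg J)

/-- An anchor and a region with the anchor in its closure, in either order. -/
def Nb (S : Finset J) (An : Finset Pt) (u v : Set Pt) : Prop :=
  ∃ e ∈ An, ∃ p ∈ π.O S An, e ∈ closure (π.Reg S An p) ∧
    ((u = {e} ∧ v = π.Reg S An p) ∨ (v = {e} ∧ u = π.Reg S An p))

/-- The piece of `j` that starts at the anchor `e` touches `Q` from below at the abscissa `x`. -/
def Tch (An : Finset Pt) (Q : Set Pt) (e : Pt) (j : J) (x : ℝ) : Prop :=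
  e ∈ π.seg j ∧ e.1 < x ∧ x < π.hi j ∧ (∀ g ∈ An, g ∈ π.seg j → e.1 < g.1 → x < g.1) ∧
    ∀ᶠ q in 𝓝 (π.pt j x), π.τ j q.1 < q.2 → q ∈ Q

/-- Nodes. -/
def Node (S : Finset J) (An : Finset Pt) (v : Set Pt) : Prop :=
  (∃ e ∈ An, v = {e}) ∨ v ∈ π.RegA S An

end Sg

end SA
end

-- part: CellB
section
/-!
# Wedges are touches

`wedge_inj`: for `Wd` with crossing abscissa `x₀` and vertex `v` (not an anchor) take the last anchor
`e` on `j` to the left of `x₀` (`enL`) and a small ball around `v` without anchor abscissae in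
`(x₀, x₀ + r)` and without third segments; the part of the ball right of `x₀` and above `j` is a
convex subset of `O`, so of a region `Q`, which is anchored by `vis_reg`.  `Tch Q e j x` holds for all
`x` slightly larger than `x₀`.  If two wedges have the same `(e, Q)`, the segment `j` is the same;
if the vertices differ, `noCross` applies to `a = pt j x` slightly right of the left vertex,
`b = pt j x'` slightly right of the right vertex, and the second segment of the right wedge; if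
they agree, `gp.three`.
-/

open Set Filter Topology

namespace SA

namespace Sg

variable {J : Type} [DecidableEq J] {π : Sg J} {S : Finset J} {An : Finset Pt}

omit [DecidableEq J] in
theorem CellB_clos {Q : Set Pt} {j : J} {x : ℝ}
    (h : ∀ᶠ q in 𝓝 (π.pt j x), π.τ j q.1 < q.2 → q ∈ Q) : π.pt j x ∈ closure Q := by
  have hc : Continuous fun s : ℝ => ((x, π.τ j x + s) : Pt) := by fun_prop
  have ht : Tendsto (fun s : ℝ => ((x, π.τ j x + s) : Pt)) (𝓝[>] 0) (𝓝 (π.pt j x)) := by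
    have := hc.tendsto 0
    rw [add_zero] at this
    exact this.mono_left nhdsWithin_le_nhds
  refine mem_closure_of_tendsto ht ?_
  filter_upwards [ht.eventually h, self_mem_nhdsWithin] with s h1 h2
  exact h1 (lt_add_of_pos_right _ h2)

omit [DecidableEq J] in
theorem CellB_key (gp : π.GP S An) {e₀ : Pt} (h0 : e₀ ∈ An) {j j' : J} (hj : j ∈ S) (hj' : j' ∈ S)
    (h : π.Wd (cc (π.XA S An) e₀) j j') :
    ∃ z : Pt × Set Pt, z.1 ∈ An ∧ z.2 ∈ π.RegA S An ∧ ∃ x₀, π.lo j < x₀ ∧ x₀ < π.hi j ∧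
      π.lo j' < x₀ ∧ x₀ < π.hi j' ∧ π.τ j x₀ = π.τ j' x₀ ∧
      ∀ᶠ x in 𝓝[>] x₀, π.Tch An z.2 z.1 j x := by
  classical
  obtain ⟨hs, x₀, a1, a2, a3, a4, a5, hev⟩ := h
  have hne : j ≠ j' := fun e => by rw [e] at hs; exact lt_irrefl _ hs
  have v1 : π.pt j x₀ ∈ π.seg j := pt_mem.2 ⟨a1.le, a2.le⟩
  have v2 : π.pt j x₀ ∈ π.seg j' := ⟨a3.le, a4.le, a5⟩
  have hA : ∀ᶠ q : Pt in 𝓝 (π.pt j x₀), ∀ g ∈ An, x₀ < g.1 → q.1 < g.1 := by
    refine (eventually_all_finset An).2 fun g _ => ?_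
    by_cases hg : x₀ < g.1
    · exact (continuousAt_fst.eventually (gt_mem_nhds (show (π.pt j x₀).1 < g.1 from hg))).mono
        fun q hq _ => hq
    · exact Eventually.of_forall fun q hq => absurd hq hg
  have hB : ∀ᶠ q : Pt in 𝓝 (π.pt j x₀), ∀ k ∈ S, π.pt j x₀ ∉ π.seg k → q ∉ π.seg k := by
    refine (eventually_all_finset S).2 fun k _ => ?_
    by_cases hk : π.pt j x₀ ∈ π.seg k
    · exact Eventually.of_forall fun q hq => absurd hk hq
    · exact (show ∀ᶠ q in 𝓝 (π.pt j x₀), q ∉ π.seg k from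
        (isClosed_seg k).isOpen_compl.mem_nhds hk).mono fun q hq _ => hq
  obtain ⟨r, hr, hball⟩ := Metric.eventually_nhds_iff_ball.1 (hev.and (hA.and hB))
  set T : Set Pt := {q | q ∈ Metric.ball (π.pt j x₀) r ∧ x₀ < q.1 ∧ π.τ j q.1 < q.2} with hT
  have hup : ∀ q ∈ T, π.τ j' q.1 < q.2 := by
    rintro q ⟨-, q2, q3⟩
    simp only [τ] at a5 q3 ⊢
    nlinarith [mul_pos (sub_pos.2 hs) (sub_pos.2 q2)]
  have hO : T ⊆ π.O S An := by
    intro q hq
    obtain ⟨-, b1, b2⟩ := hball q hq.1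
    refine ⟨fun k hk hqk => ?_, fun g hg hq1 => ?_⟩
    · have hv : π.pt j x₀ ∈ π.seg k := by
        by_contra hv
        exact b2 k hk hv hqk
      rcases gp.three _ j hj j' hj' k hk v1 v2 hv with e | e | e
      · exact hne e
      · exact hq.2.2.ne' (e ▸ hqk.2.2)
      · exact (hup q hq).ne' (e ▸ hqk.2.2)
    · exact absurd hq1 (b1 g hg (hq1 ▸ hq.2.1)).ne
  have hC : Convex ℝ T := by
    intro p hp q hq a b ha hb hab
    refine ⟨convex_ball _ _ hp.1 hq.1 ha hb hab, ?_, ?_⟩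
    · exact convex_Ioi x₀ hp.2.1 hq.2.1 ha hb hab
    · have h1 := convex_Ioi (0 : ℝ) (sub_pos.2 hp.2.2) (sub_pos.2 hq.2.2) ha hb hab
      have h3 : b = 1 - a := by linarith
      subst h3
      simp only [mem_Ioi, Prod.snd_add, Prod.smul_snd, Prod.fst_add, Prod.smul_fst,
        smul_eq_mul, τ] at h1 ⊢
      linarith
  have hnear : ∀ᶠ x in 𝓝[>] x₀, x₀ < x ∧ x < π.hi j ∧ (∀ g ∈ An, x₀ < g.1 → x < g.1) ∧
      ∀ᶠ q in 𝓝 (π.pt j x), π.τ j q.1 < q.2 → q ∈ T := by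
    have ht : Tendsto (π.pt j) (𝓝[>] x₀) (𝓝 (π.pt j x₀)) :=
      ((cont_pt j).tendsto x₀).mono_left nhdsWithin_le_nhds
    filter_upwards [self_mem_nhdsWithin, nhdsWithin_le_nhds (gt_mem_nhds a2),
      ht.eventually (Metric.ball_mem_nhds _ hr)] with x x1 x2 x3
    refine ⟨x1, x2, (hball _ x3).2.1, ?_⟩
    filter_upwards [Metric.isOpen_ball.mem_nhds x3,
      continuousAt_fst.eventually (lt_mem_nhds (show x₀ < (π.pt j x).1 from x1))] with q q1 q2 q3
    exact ⟨q1, q2, q3⟩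
  obtain ⟨p, hp⟩ : T.Nonempty := by
    obtain ⟨x, -, -, -, hx⟩ := hnear.exists
    exact closure_nonempty_iff.1 ⟨_, CellB_clos hx⟩
  have hsub : T ⊆ π.Reg S An p := sub_Reg gp hC hO hp (by
    show segment ℝ p p ⊆ _
    rw [segment_same]
    exact singleton_subset_iff.2 (hO hp))
  obtain ⟨e', he', hc', -⟩ := vis_reg gp h0 (hO hp) ((hball p hp.1).1 hp.2.2 (hup p hp))
  obtain ⟨e, he, hm⟩ := (An.filter fun g => g ∈ π.seg j ∧ g.1 ≤ x₀).exists_max_image Prod.fst
    ⟨_, Finset.mem_filter.2 ⟨gp.enL j hj, pt_mem.2 ⟨le_rfl, (gp.lt j hj).le⟩, a1.le⟩⟩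
  obtain ⟨e1, e2, e3⟩ := Finset.mem_filter.1 he
  refine ⟨(e, π.Reg S An p), e1, ⟨p, hO hp, rfl, e', he', hc'⟩, x₀, a1, a2, a3, a4, a5, ?_⟩
  filter_upwards [hnear] with x ⟨x1, x2, x3, x4⟩
  refine ⟨e2, e3.trans_lt x1, x2, fun g g1 g2 g3 => x3 g g1 ?_, x4.mono fun q hq h => hsub (hq h)⟩
  by_contra hc
  exact absurd (hm g (Finset.mem_filter.2 ⟨g1, g2, not_lt.1 hc⟩)) (not_le.2 g3)

omit [DecidableEq J] in
theorem CellB_two (gp : π.GP S An) {Q : Set Pt} (hQ : Q ∈ π.RegA S An) {e : Pt} {j k : J}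
    (hk : k ∈ S) (hs : π.sl k < π.sl j) {x₀ x₁ : ℝ} (hlt : x₀ < x₁) (a3 : π.lo k < x₁)
    (a4 : x₁ < π.hi k) (a5 : π.τ j x₁ = π.τ k x₁) (t0 : ∀ᶠ x in 𝓝[>] x₀, π.Tch An Q e j x)
    (t1 : ∀ᶠ x in 𝓝[>] x₁, π.Tch An Q e j x) : False := by
  obtain ⟨p, hp, rfl, -⟩ := hQ
  obtain ⟨x, hx, x1⟩ := (t0.and (nhdsWithin_le_nhds (gt_mem_nhds hlt))).exists
  obtain ⟨y, hy, y1⟩ := (t1.and self_mem_nhdsWithin).exists
  replace x1 : x < x₁ := x1
  replace y1 : x₁ < y := y1
  refine noCross gp hp (CellB_clos hx.2.2.2.2) (CellB_clos hy.2.2.2.2) hk (w := π.pt j x₁) ?_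
    ⟨a3.le, a4.le, a5⟩ a3 a4 ?_
  · have h1 : x₁ ∈ openSegment ℝ x y := by
      rw [openSegment_eq_Ioo (x1.trans y1)]
      exact ⟨x1, y1⟩
    obtain ⟨a, b, ha, hb, hab, h2⟩ := h1
    refine ⟨a, b, ha, hb, hab, Prod.ext h2 ?_⟩
    simp only [smul_eq_mul] at h2
    simp only [pt, τ, Prod.snd_add, Prod.smul_snd, smul_eq_mul]
    linear_combination π.sl j * h2 + π.ic j * hab
  · intro h
    simp only [pt, τ] at h a5
    nlinarith [mul_pos (sub_pos.2 hs) (sub_pos.2 x1)]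

theorem wedge_inj (gp : π.GP S An) {e₀ : Pt} (h0 : e₀ ∈ An) (W : Finset (J × J))
    (hW : ∀ w ∈ W, w.1 ∈ S ∧ w.2 ∈ S ∧ π.Wd (cc (π.XA S An) e₀) w.1 w.2) :
    ∃ φ : J × J → Pt × Set Pt, InjOn φ W ∧ ∀ w ∈ W, (φ w).1 ∈ An ∧ (φ w).2 ∈ π.RegA S An ∧
      ∃ x, π.Tch An (φ w).2 (φ w).1 w.1 x := by
  choose! φ h1 h2 x₀ a1 a2 a3 a4 a5 ht using
    fun w (hw : w ∈ W) => CellB_key gp h0 (hW w hw).1 (hW w hw).2.1 (hW w hw).2.2
  refine ⟨φ, fun w hw w' hw' h => ?_, fun w hw => ⟨h1 w hw, h2 w hw, (ht w hw).exists⟩⟩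
  obtain ⟨s1, s2, s3, -⟩ := hW w hw
  obtain ⟨s1', s2', s3', -⟩ := hW w' hw'
  have t0 := ht w hw
  have t1 := ht w' hw'
  rw [← h] at t1
  have e1 : w.1 = w'.1 :=
    gp.one _ (h1 w hw) _ s1 _ s1' t0.exists.choose_spec.1 t1.exists.choose_spec.1
  rcases lt_trichotomy (x₀ w) (x₀ w') with c | c | c
  · rw [e1] at t0
    exact (CellB_two gp (h2 w hw) s2' s3' c (a3 w' hw') (a4 w' hw') (a5 w' hw') t0 t1).elim
  · have v1 : π.pt w.1 (x₀ w) ∈ π.seg w.1 := pt_mem.2 ⟨(a1 w hw).le, (a2 w hw).le⟩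
    have v2 : π.pt w.1 (x₀ w) ∈ π.seg w.2 := ⟨(a3 w hw).le, (a4 w hw).le, a5 w hw⟩
    have v3 : π.pt w.1 (x₀ w) ∈ π.seg w'.2 := by
      rw [c, e1]
      exact ⟨(a3 w' hw').le, (a4 w' hw').le, a5 w' hw'⟩
    rcases gp.three _ _ s1 _ s2 _ s2' v1 v2 v3 with e | e | e
    · rw [e] at s3
      exact absurd s3 (lt_irrefl _)
    · rw [← e1, e] at s3'
      exact absurd s3' (lt_irrefl _)
    · exact Prod.ext e1 e
  · rw [← e1] at t1
    exact (CellB_two gp (h2 w hw) s2 s3 c (a3 w hw) (a4 w hw) (a5 w hw) t1 t0).elim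

end Sg

end SA
end
end

-- merged part: Pool.Agent.Work.MP_8a5de9_co_B.Comb
section
-- part: SyA
section
/-!
# Symbols that touch the nodes of a tree: definitions, roles, parts

`Desc u w`: `w` is reached from `u` by going down.  `parts`: for `w ∈ Q \ P` either no ancestor of
`w` lies in `P`; these `w` form a connected set with the top of `Q` as top (if the top of `Q` is in
`P`, there is no such `w`, since following `par` from a node of `Q` stays in `Q` and reaches its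
top).  Or there is a first ancestor in `P`; the node `c` just before it is a child of `P`, and the
`w ∈ Q \ P` with the same `c` form a connected set with top `c`.  A convenient definition by strong
recursion on the rank: `κ w = w` if `par w ∈ P` or `w` is the top of `Q`, else `κ (par w)`; one may
also obtain `κ` from an existence statement proved by induction on a bound for the rank.
-/

namespace SA

/-- A rooted tree with at most four children per node, and symbols that touch its nodes. -/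
structure Sy (ν σ : Type) where
  V : Finset ν
  r : ν
  par : ν → ν
  rk : ν → ℕ
  S : Finset σ
  inc : σ → ν → Prop
  x : σ → ν → ℝ
  ζ : σ → σ → ℝ

namespace Sy

variable {ν σ : Type} [DecidableEq ν] [DecidableEq σ] (T : Sy ν σ)

/-- Connected sets of nodes, with the top `t`. -/
def Conn (G : Finset ν) (t : ν) : Prop :=
  G ⊆ T.V ∧ t ∈ G ∧ ∀ v ∈ G, v ≠ t → v ≠ T.r ∧ T.par v ∈ G

/-- The symbol `s` touches `u₁, u₂, u₃` in this order. -/
def Tri (s : σ) (u₁ u₂ u₃ : ν) : Prop :=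
  T.inc s u₁ ∧ T.inc s u₂ ∧ T.inc s u₃ ∧ T.x s u₁ < T.x s u₂ ∧ T.x s u₂ < T.x s u₃

/-- The hypotheses on the structure. -/
structure Ok : Prop where
  hr : T.r ∈ T.V
  hpar : ∀ v ∈ T.V, v ≠ T.r → T.par v ∈ T.V ∧ T.rk (T.par v) < T.rk v
  ch : ∀ u, (T.V.filter fun v => v ≠ T.r ∧ T.par v = u).card ≤ 4
  inj : ∀ s ∈ T.S, ∀ u ∈ T.V, ∀ v ∈ T.V, T.inc s u → T.inc s v → T.x s u = T.x s v → u = v
  sym : ∀ s s', T.ζ s s' = T.ζ s' s
  th : ∀ s ∈ T.S, ∀ s' ∈ T.S, s ≠ s' → ∀ G₁ G₂ G₃ t₁ t₂ t₃, T.Conn G₁ t₁ → T.Conn G₂ t₂ →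
    T.Conn G₃ t₃ → Disjoint G₁ G₂ → Disjoint G₁ G₃ → Disjoint G₂ G₃ →
    ∀ u₁ ∈ G₁, ∀ u₂ ∈ G₂, ∀ u₃ ∈ G₃, ∀ w₁ ∈ G₁, ∀ w₂ ∈ G₂, ∀ w₃ ∈ G₃,
      T.Tri s u₁ u₂ u₃ → T.Tri s' w₁ w₂ w₃ →
        (T.x s u₁ < T.ζ s s' ∧ T.ζ s s' < T.x s u₂ ∧ T.x s' w₂ < T.ζ s s' ∧
          T.ζ s s' < T.x s' w₃) ∨
        (T.x s' w₁ < T.ζ s s' ∧ T.ζ s s' < T.x s' w₂ ∧ T.x s u₂ < T.ζ s s' ∧ T.ζ s s' < T.x s u₃)

open Classical in
/-- The number of touches of the symbols of `S'` at the nodes of `P`. -/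
noncomputable def cnt (P : Finset ν) (S' : Finset σ) : ℕ :=
  ((S' ×ˢ P).filter fun a => T.inc a.1 a.2).card

/-- The restriction to a connected set and a set of symbols. -/
def res (P : Finset ν) (t : ν) (S' : Finset σ) : Sy ν σ := { T with V := P, r := t, S := S' }

variable {T} {P Q G₁ G₃ : Finset ν} {t t' t₁ t₃ v : ν} {S' : Finset σ} {s s' : σ}

theorem conn_V (h : T.Ok) : T.Conn T.V T.r :=
  ⟨subset_rfl, h.hr, fun v hv hne => ⟨hne, (h.hpar v hv hne).1⟩⟩

theorem conn_single (hv : v ∈ T.V) : T.Conn {v} v :=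
  ⟨Finset.singleton_subset_iff.2 hv, Finset.mem_singleton_self v,
    fun _ hw hne => absurd (Finset.mem_singleton.1 hw) hne⟩

omit [DecidableEq ν] [DecidableEq σ] in
theorem cnt_res (P : Finset ν) (t : ν) (S' : Finset σ) (P' : Finset ν) (S'' : Finset σ) :
    (T.res P t S').cnt P' S'' = T.cnt P' S'' := rfl

theorem Ok.res (h : T.Ok) (hP : T.Conn P t) (hS : S' ⊆ T.S) : (T.res P t S').Ok := by
  have hc : ∀ G t₀, (T.res P t S').Conn G t₀ → T.Conn G t₀ := fun G t₀ hG =>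
    ⟨hG.1.trans hP.1, hG.2.1, fun v hv hne =>
      ⟨(hP.2.2 v (hG.1 hv) (hG.2.2 v hv hne).1).1, (hG.2.2 v hv hne).2⟩⟩
  refine ⟨hP.2.1, fun v hv hne => ⟨(hP.2.2 v hv hne).2,
    (h.hpar v (hP.1 hv) (hP.2.2 v hv hne).1).2⟩, fun u => le_trans (Finset.card_le_card ?_) (h.ch u),
    fun s hs u hu v hv => h.inj s (hS hs) u (hP.1 hu) v (hP.1 hv), h.sym,
    fun s hs s' hs' hne G₁ G₂ G₃ t₁ t₂ t₃ h1 h2 h3 =>
      h.th s (hS hs) s' (hS hs') hne G₁ G₂ G₃ t₁ t₂ t₃ (hc _ _ h1) (hc _ _ h2) (hc _ _ h3)⟩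
  intro v hv
  obtain ⟨h1, h2, h3⟩ := Finset.mem_filter.1 hv
  exact Finset.mem_filter.2 ⟨hP.1 h1, (hP.2.2 v h1 h2).1, h3⟩

theorem cnt_union_le (P : Finset ν) (S₁ S₂ : Finset σ) :
    T.cnt P (S₁ ∪ S₂) ≤ T.cnt P S₁ + T.cnt P S₂ := by
  classical
  unfold cnt
  rw [Finset.union_product, Finset.filter_union]
  exact Finset.card_union_le _ _

theorem cnt_mono {S₁ S₂ : Finset σ} (hP : P ⊆ Q) (hS : S₁ ⊆ S₂) : T.cnt P S₁ ≤ T.cnt Q S₂ := by
  classical
  unfold cnt
  exact Finset.card_le_card (Finset.filter_subset_filter _ (Finset.product_subset_product hS hP))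

/-- Splitting the symbols into classes. -/
theorem cnt_le_sum {κ : Type} [DecidableEq κ] (P : Finset ν) (S' : Finset σ) (K : Finset κ)
    (f : σ → κ) (hf : ∀ s ∈ S', f s ∈ K) :
    T.cnt P S' ≤ ∑ k ∈ K, T.cnt P (S'.filter fun s => f s = k) := by
  classical
  unfold cnt
  refine le_trans (Finset.card_le_card ?_) Finset.card_biUnion_le
  intro a ha
  obtain ⟨h1, h2⟩ := Finset.mem_filter.1 ha
  obtain ⟨h3, h4⟩ := Finset.mem_product.1 h1
  exact Finset.mem_biUnion.2 ⟨f a.1, hf _ h3, Finset.mem_filter.2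
    ⟨Finset.mem_product.2 ⟨Finset.mem_filter.2 ⟨h3, rfl⟩, h4⟩, h2⟩⟩

/-- Going up until the parent lies in `P` or the top is reached. -/
def SyA_kap (T : Sy ν σ) (P : Finset ν) (t' : ν) (w : ν) : ν :=
  if _h : T.par w ∉ P ∧ w ≠ t' ∧ T.rk (T.par w) < T.rk w then SyA_kap T P t' (T.par w) else w
termination_by T.rk w
decreasing_by exact _h.2.2

omit [DecidableEq σ] in
theorem SyA_kap_step {w : ν} (h : T.par w ∉ P ∧ w ≠ t' ∧ T.rk (T.par w) < T.rk w) :
    SyA_kap T P t' w = SyA_kap T P t' (T.par w) := by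
  rw [SyA_kap, dif_pos h]

omit [DecidableEq σ] in
theorem SyA_kap_stop {w : ν} (h : ¬ (T.par w ∉ P ∧ w ≠ t' ∧ T.rk (T.par w) < T.rk w)) :
    SyA_kap T P t' w = w := by
  rw [SyA_kap, dif_neg h]

/-- The complement of a connected set splits into at most five connected parts. -/
theorem parts (h : T.Ok) (hP : T.Conn P t) (hQ : T.Conn Q t') (hPQ : P ⊆ Q)
    (hc : (Q.filter fun c => c ∉ P ∧ c ≠ T.r ∧ T.par c ∈ P).card ≤ 4) :
    ∃ (κ : ν → ν) (K : Finset ν), K.card ≤ 5 ∧ ∀ w ∈ Q \ P, κ w ∈ K ∧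
      T.Conn ((Q \ P).filter fun w' => κ w' = κ w) (κ w) := by
  have hstep : ∀ w ∈ Q \ P, T.par w ∉ P → w ≠ t' →
      w ≠ T.r ∧ T.par w ∈ Q \ P ∧ T.rk (T.par w) < T.rk w ∧
        SyA_kap T P t' w = SyA_kap T P t' (T.par w) := by
    intro w hw h1 h2
    have hwQ := (Finset.mem_sdiff.1 hw).1
    obtain ⟨h3, h4⟩ := hQ.2.2 w hwQ h2
    have h5 := (h.hpar w (hQ.1 hwQ) h3).2
    exact ⟨h3, Finset.mem_sdiff.2 ⟨h4, h1⟩, h5, SyA_kap_step ⟨h1, h2, h5⟩⟩
  have hstop : ∀ w, (T.par w ∈ P ∨ w = t') → SyA_kap T P t' w = w := fun w hw =>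
    SyA_kap_stop fun h' => hw.elim h'.1 h'.2.1
  have hmain : ∀ (m : ℕ) (w : ν), T.rk w < m → w ∈ Q \ P → SyA_kap T P t' w ∈ Q \ P ∧
      (T.par (SyA_kap T P t' w) ∈ P ∨ SyA_kap T P t' w = t') := by
    intro m
    induction m with
    | zero => intro w hw; omega
    | succ m ih =>
      intro w hw hwm
      by_cases h1 : T.par w ∈ P ∨ w = t'
      · rw [hstop w h1]
        exact ⟨hwm, h1⟩
      · obtain ⟨h2, h3⟩ := not_or.1 h1
        obtain ⟨-, h5, h6, h7⟩ := hstep w hwm h2 h3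
        rw [h7]
        exact ih _ (by omega) h5
  refine ⟨SyA_kap T P t', insert t' (Q.filter fun c => c ∉ P ∧ c ≠ T.r ∧ T.par c ∈ P),
    (Finset.card_insert_le _ _).trans (by omega), fun w hw => ?_⟩
  obtain ⟨h1, h2⟩ := hmain _ w (Nat.lt_succ_self _) hw
  obtain ⟨h1Q, h1P⟩ := Finset.mem_sdiff.1 h1
  refine ⟨?_, fun v hv => hQ.1 (Finset.mem_sdiff.1 (Finset.mem_filter.1 hv).1).1,
    Finset.mem_filter.2 ⟨h1, hstop _ h2⟩, fun v hv hne => ?_⟩
  · by_cases h3 : SyA_kap T P t' w = t'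
    · rw [h3]
      exact Finset.mem_insert_self _ _
    · exact Finset.mem_insert_of_mem (Finset.mem_filter.2
        ⟨h1Q, h1P, (hQ.2.2 _ h1Q h3).1, h2.resolve_right h3⟩)
  · obtain ⟨h3, h4⟩ := Finset.mem_filter.1 hv
    have h5 : ¬ (T.par v ∈ P ∨ v = t') := fun h6 => hne ((hstop v h6).symm.trans h4)
    obtain ⟨h6, h7⟩ := not_or.1 h5
    obtain ⟨h8, h9, -, h10⟩ := hstep v h3 h6 h7
    exact ⟨h8, Finset.mem_filter.2 ⟨h9, h10.symm.trans h4⟩⟩

theorem parts_single (h : T.Ok) (hQ : T.Conn Q t') (hv : v ∈ Q) :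
    ∃ (κ : ν → ν) (K : Finset ν), K.card ≤ 5 ∧ ∀ w ∈ Q \ {v}, κ w ∈ K ∧
      T.Conn ((Q \ {v}).filter fun w' => κ w' = κ w) (κ w) := by
  refine parts h (conn_single (hQ.1 hv)) hQ (Finset.singleton_subset_iff.2 hv)
    (le_trans (Finset.card_le_card ?_) (h.ch v))
  intro c hc
  obtain ⟨h1, -, h2, h3⟩ := Finset.mem_filter.1 hc
  exact Finset.mem_filter.2 ⟨hQ.1 h1, h2, Finset.mem_singleton.1 h3⟩

end Sy

end SA
end

-- part: SyB
section
/-!
# Through, End, Base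

For two symbols that touch `v`, the axiom `th` with `{v}` in the first place puts `ζ` to the right of
both touches at `v`, with `{v}` in the last place to the left of both, and with `{v}` in the middle
strictly between them.  So two different places exclude each other.

`through`: a touch `(s, v)` is the first touch of `s` in `P`, or there is an earlier touch
`w ∈ P \ {v}`; charge `(v, κ_v w)` (`parts_single`).  Two symbols with the same charge: `v` is last in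
`(O, A, v)` and in the middle of `(A, v, O')`.

`ends`: fix a touch `u s ∈ O`.  Among the touches of `s` in `P` to the left of `u s` set aside the
first and the last; any other touch `v` has `w < v < w' < u s`; charge `(v, κ_v w, κ_v w')`: middle of
`(A, v, O)`, first in `(v, B, O)`.  On the right: last in `(O, A, v)`, middle of `(O, v, B)`.
(`x s v ≠ x s (u s)` by `inj`.)

`base`: induction on the number of nodes, for all systems (`Ok.res`, `cnt_res`).  If `V = {r}` the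
count is at most `|S|`.  Otherwise a node `l ≠ r` of maximal rank in `V.erase r` has no child, so
`V.erase l` is connected; the symbols that touch `l` cost at most `|S₁| + 4 |S₁| + 50 |V|` by `ends`
with `O = {l}`, the others live in `V.erase l`.
-/

namespace SA

namespace Sy

variable {ν σ : Type} [DecidableEq ν] [DecidableEq σ] {T : Sy ν σ} {P O O' : Finset ν}
  {t o o' : ν} {S' : Finset σ}

omit [DecidableEq ν] [DecidableEq σ] in
theorem SyB_cnt (T : Sy ν σ) (P : Finset ν) (S' : Finset σ) : ∃ X : Finset (σ × ν),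
    T.cnt P S' = X.card ∧ ∀ a, a ∈ X ↔ a.1 ∈ S' ∧ a.2 ∈ P ∧ T.inc a.1 a.2 := by
  refine ⟨_, rfl, fun a => ?_⟩
  simp only [Finset.mem_filter, Finset.mem_product, and_assoc]

omit [DecidableEq σ] in
theorem SyB_first (h : T.Ok) {s s' : σ} (hs : s ∈ T.S) (hs' : s' ∈ T.S) (hne : s ≠ s')
    {A B : Finset ν} {a b v u₂ u₃ w₂ w₃ : ν} (hv : T.Conn {v} v) (hA : T.Conn A a)
    (hB : T.Conn B b) (d₁ : v ∉ A) (d₂ : v ∉ B) (d₃ : Disjoint A B) (m₁ : u₂ ∈ A) (m₂ : u₃ ∈ B)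
    (m₃ : w₂ ∈ A) (m₄ : w₃ ∈ B) (t₁ : T.Tri s v u₂ u₃) (t₂ : T.Tri s' v w₂ w₃) :
    T.x s v < T.ζ s s' ∧ T.x s' v < T.ζ s s' := by
  rcases h.th s hs s' hs' hne _ _ _ _ _ _ hv hA hB (Finset.disjoint_singleton_left.2 d₁)
    (Finset.disjoint_singleton_left.2 d₂) d₃ v (Finset.mem_singleton_self v) u₂ m₁ u₃ m₂ v
    (Finset.mem_singleton_self v) w₂ m₃ w₃ m₄ t₁ t₂ with k | k
  · exact ⟨k.1, t₂.2.2.2.1.trans k.2.2.1⟩
  · exact ⟨t₁.2.2.2.1.trans k.2.2.1, k.1⟩

omit [DecidableEq σ] in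
theorem SyB_last (h : T.Ok) {s s' : σ} (hs : s ∈ T.S) (hs' : s' ∈ T.S) (hne : s ≠ s')
    {A B : Finset ν} {a b v u₁ u₂ w₁ w₂ : ν} (hv : T.Conn {v} v) (hA : T.Conn A a)
    (hB : T.Conn B b) (d₁ : v ∉ A) (d₂ : v ∉ B) (d₃ : Disjoint A B) (m₁ : u₁ ∈ A) (m₂ : u₂ ∈ B)
    (m₃ : w₁ ∈ A) (m₄ : w₂ ∈ B) (t₁ : T.Tri s u₁ u₂ v) (t₂ : T.Tri s' w₁ w₂ v) :
    T.ζ s s' < T.x s v ∧ T.ζ s s' < T.x s' v := by
  rcases h.th s hs s' hs' hne _ _ _ _ _ _ hA hB hv d₃ (Finset.disjoint_singleton_right.2 d₁)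
    (Finset.disjoint_singleton_right.2 d₂) u₁ m₁ u₂ m₂ v (Finset.mem_singleton_self v) w₁ m₃ w₂ m₄ v
    (Finset.mem_singleton_self v) t₁ t₂ with k | k
  · exact ⟨k.2.1.trans t₁.2.2.2.2, k.2.2.2⟩
  · exact ⟨k.2.2.2, k.2.1.trans t₂.2.2.2.2⟩

omit [DecidableEq σ] in
theorem SyB_mid (h : T.Ok) {s s' : σ} (hs : s ∈ T.S) (hs' : s' ∈ T.S) (hne : s ≠ s')
    {A B : Finset ν} {a b v u₁ u₃ w₁ w₃ : ν} (hv : T.Conn {v} v) (hA : T.Conn A a)
    (hB : T.Conn B b) (d₁ : v ∉ A) (d₂ : v ∉ B) (d₃ : Disjoint A B) (m₁ : u₁ ∈ A) (m₂ : u₃ ∈ B)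
    (m₃ : w₁ ∈ A) (m₄ : w₃ ∈ B) (t₁ : T.Tri s u₁ v u₃) (t₂ : T.Tri s' w₁ v w₃) :
    (T.ζ s s' < T.x s v ∧ T.x s' v < T.ζ s s') ∨ (T.ζ s s' < T.x s' v ∧ T.x s v < T.ζ s s') := by
  rcases h.th s hs s' hs' hne _ _ _ _ _ _ hA hv hB (Finset.disjoint_singleton_right.2 d₁) d₃
    (Finset.disjoint_singleton_left.2 d₂) u₁ m₁ v (Finset.mem_singleton_self v) u₃ m₂ w₁ m₃ v
    (Finset.mem_singleton_self v) w₃ m₄ t₁ t₂ with k | k
  · exact Or.inl ⟨k.2.1, k.2.2.1⟩
  · exact Or.inr ⟨k.2.1, k.2.2.1⟩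

omit [DecidableEq σ] in
/-- At most one touch for each symbol. -/
theorem SyB_one (h : T.Ok) (X : Finset (σ × ν)) (Z : Finset σ)
    (hX : ∀ a ∈ X, a.1 ∈ T.S ∧ a.2 ∈ T.V ∧ T.inc a.1 a.2) (hZ : ∀ a ∈ X, a.1 ∈ Z)
    (hn : ∀ s v w, (s, v) ∈ X → (s, w) ∈ X → ¬T.x s v < T.x s w) : X.card ≤ Z.card := by
  refine Finset.card_le_card_of_injOn (fun a => a.1) hZ ?_
  rintro ⟨s, v⟩ ha ⟨s', w⟩ hb (rfl : s = s')
  rw [h.inj s (hX _ ha).1 v (hX _ ha).2.1 w (hX _ hb).2.1 (hX _ ha).2.2 (hX _ hb).2.2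
    (le_antisymm (not_lt.1 (hn s w v hb ha)) (not_lt.1 (hn s v w ha hb)))]

/-- Counting node by node. -/
theorem SyB_sum (X : Finset (σ × ν)) (P : Finset ν) (c : ℕ) (hX : ∀ a ∈ X, a.2 ∈ P)
    (hc : ∀ v ∈ P, ∀ Y : Finset σ, (∀ s ∈ Y, (s, v) ∈ X) → Y.card ≤ c) :
    X.card ≤ c * P.card := by
  refine Finset.card_le_mul_card_image_of_maps_to hX c fun v hv => ?_
  refine le_trans (Finset.card_le_card_of_injOn (fun a => a.1) (fun a ha => ?_) ?_)
    (hc v hv ((X.filter fun a => a.2 = v).image fun a => a.1) fun s hs => ?_)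
  · exact Finset.mem_coe.2 (Finset.mem_image_of_mem _ ha)
  · intro a ha b hb e
    exact Prod.ext e ((Finset.mem_filter.1 ha).2.trans (Finset.mem_filter.1 hb).2.symm)
  · obtain ⟨a, ha, rfl⟩ := Finset.mem_image.1 hs
    obtain ⟨h1, h2⟩ := Finset.mem_filter.1 ha
    rw [← h2]
    exact h1

/-- Splitting by the parts of `P \ {v}`. -/
theorem SyB_cov (h : T.Ok) (hP : T.Conn P t) {v : ν} (hv : v ∈ P) (Y : Finset σ)
    (R : σ → ν → Prop) (c : ℕ) (hY : ∀ s ∈ Y, ∃ w ∈ P \ {v}, R s w)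
    (hc : ∀ A a, T.Conn A a → A ⊆ P → v ∉ A → ∀ Z ⊆ Y, (∀ s ∈ Z, ∃ w ∈ A, R s w) → Z.card ≤ c) :
    Y.card ≤ 5 * c := by
  obtain ⟨κ, K, hK, hκ⟩ := parts_single h hP hv
  have hch : ∀ s, ∃ w, s ∈ Y → w ∈ P \ {v} ∧ R s w := fun s => by
    by_cases hs : s ∈ Y
    · obtain ⟨w, hw⟩ := hY s hs
      exact ⟨w, fun _ => hw⟩
    · exact ⟨v, fun h => absurd h hs⟩
  choose w hw using hch
  refine (Finset.card_le_mul_card_image_of_maps_to (f := fun s => κ (w s)) (t := K)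
    (fun s hs => (hκ _ (hw s hs).1).1) c fun k _ => ?_).trans ?_
  · rcases (Y.filter fun s => κ (w s) = k).eq_empty_or_nonempty with e | ⟨s₀, hs₀⟩
    · rw [e]
      exact Nat.zero_le _
    obtain ⟨h1, h2⟩ := Finset.mem_filter.1 hs₀
    refine hc _ _ (hκ _ (hw s₀ h1).1).2
      ((Finset.filter_subset _ _).trans Finset.sdiff_subset) (fun h3 => ?_) _
      (Finset.filter_subset _ _) fun s hs => ?_
    · exact (Finset.mem_sdiff.1 (Finset.mem_filter.1 h3).1).2 (Finset.mem_singleton_self v)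
    · obtain ⟨h3, h4⟩ := Finset.mem_filter.1 hs
      exact ⟨w s, Finset.mem_filter.2 ⟨(hw s h3).1, h4.trans h2.symm⟩, (hw s h3).2⟩
  · rw [mul_comm]
    exact Nat.mul_le_mul_right _ hK

/-- Two witnesses. -/
theorem SyB_cov₂ (h : T.Ok) (hP : T.Conn P t) {v : ν} (hv : v ∈ P) (Y : Finset σ)
    (R : σ → ν → ν → Prop) (hY : ∀ s ∈ Y, ∃ w ∈ P \ {v}, ∃ w' ∈ P \ {v}, R s w w')
    (hc : ∀ A a B b, T.Conn A a → A ⊆ P → v ∉ A → T.Conn B b → B ⊆ P → v ∉ B → ∀ s ∈ Y, ∀ s' ∈ Y,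
      s ≠ s' → ∀ w₁ ∈ A, ∀ w₂ ∈ B, ∀ w₃ ∈ A, ∀ w₄ ∈ B, R s w₁ w₂ → R s' w₃ w₄ → False) :
    Y.card ≤ 25 := by
  refine SyB_cov h hP hv Y (fun s w => ∃ w' ∈ P \ {v}, R s w w') 5 hY
    fun A a hA sA nA Z hZ hZ' => ?_
  refine SyB_cov h hP hv Z (fun s w' => ∃ w ∈ A, R s w w') 1 (fun s hs => ?_)
    fun B b hB sB nB Z' hZ₂ hZ₃ => ?_
  · obtain ⟨w, h1, w', h2, h3⟩ := hZ' s hs
    exact ⟨w', h2, w, h1, h3⟩
  · refine Finset.card_le_one.2 fun s hs s' hs' => ?_
    by_contra hne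
    obtain ⟨w₂, h2, w₁, h1, h5⟩ := hZ₃ s hs
    obtain ⟨w₄, h4, w₃, h3, h6⟩ := hZ₃ s' hs'
    exact hc A a B b hA sA nA hB sB nB s (hZ (hZ₂ hs)) s' (hZ (hZ₂ hs')) hne w₁ h1 w₂ h2 w₃ h3 w₄
      h4 h5 h6

omit [DecidableEq σ] in
theorem SyB_mem {v w : ν} (hw : w ∈ P) {s : σ} (h : T.x s w ≠ T.x s v) : w ∈ P \ {v} :=
  Finset.mem_sdiff.2 ⟨hw, fun e => h (by rw [Finset.mem_singleton.1 e])⟩

open Classical in
theorem through (h : T.Ok) (hP : T.Conn P t) (hO : T.Conn O o) (hO' : T.Conn O' o')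
    (d : Disjoint O P) (d' : Disjoint O' P) (hS : S' ⊆ T.S)
    (hb : ∀ s ∈ S', ∃ u ∈ O, T.inc s u ∧ ∀ v ∈ P, T.inc s v → T.x s u < T.x s v)
    (ha : ∀ s ∈ S', ∃ u ∈ O', T.inc s u ∧ ∀ v ∈ P, T.inc s v → T.x s v < T.x s u) :
    T.cnt P S' ≤ (S'.filter fun s => ∃ v ∈ P, T.inc s v).card + 5 * P.card := by
  obtain ⟨X, e, hX⟩ := SyB_cnt T P S'
  rw [e, ← Finset.card_filter_add_card_filter_not (s := X)
    fun a => ∀ w ∈ P, T.inc a.1 w → ¬T.x a.1 w < T.x a.1 a.2]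
  refine Nat.add_le_add (SyB_one h _ _ (fun a ha => ?_) (fun a ha => ?_) fun s v w hv hw => ?_)
    (SyB_sum _ P 5 (fun a ha => ((hX a).1 (Finset.mem_filter.1 ha).1).2.1) fun v hv Y hY => ?_)
  · obtain ⟨h1, h2, h3⟩ := (hX a).1 (Finset.mem_filter.1 ha).1
    exact ⟨hS h1, hP.1 h2, h3⟩
  · obtain ⟨h1, h2, h3⟩ := (hX a).1 (Finset.mem_filter.1 ha).1
    exact Finset.mem_filter.2 ⟨h1, a.2, h2, h3⟩
  · obtain ⟨-, h2, h3⟩ := (hX _).1 (Finset.mem_filter.1 hv).1
    exact (Finset.mem_filter.1 hw).2 v h2 h3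
  · have hY' : ∀ s ∈ Y, s ∈ S' ∧ T.inc s v := fun s hs =>
      ⟨((hX _).1 (Finset.mem_filter.1 (hY s hs)).1).1,
        ((hX _).1 (Finset.mem_filter.1 (hY s hs)).1).2.2⟩
    refine SyB_cov h hP hv Y (fun s w => T.inc s w ∧ T.x s w < T.x s v) 1 (fun s hs => ?_)
      fun A a hA sA nA Z hZ hZ' => Finset.card_le_one.2 fun s hs s' hs' => ?_
    · have h1 := (Finset.mem_filter.1 (hY s hs)).2
      push Not at h1
      obtain ⟨w, w1, w2, w3⟩ := h1
      exact ⟨w, SyB_mem w1 w3.ne, w2, w3⟩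
    · by_contra hne
      obtain ⟨m, i⟩ := hY' s (hZ hs)
      obtain ⟨m', i'⟩ := hY' s' (hZ hs')
      obtain ⟨w, w1, w2, w3⟩ := hZ' s hs
      obtain ⟨w', w1', w2', w3'⟩ := hZ' s' hs'
      obtain ⟨u, u1, u2, u3⟩ := hb s m
      obtain ⟨u', u1', u2', u3'⟩ := hb s' m'
      obtain ⟨y, y1, y2, y3⟩ := ha s m
      obtain ⟨y', y1', y2', y3'⟩ := ha s' m'
      have hv' := conn_single (hP.1 hv)
      have k1 := SyB_last h (hS m) (hS m') hne hv' hO hA (Finset.disjoint_right.1 d hv) nA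
        (d.mono_right sA) u1 w1 u1' w1' ⟨u2, w2, i, u3 w (sA w1) w2, w3⟩
        ⟨u2', w2', i', u3' w' (sA w1') w2', w3'⟩
      rcases SyB_mid h (hS m) (hS m') hne hv' hA hO' nA (Finset.disjoint_right.1 d' hv)
        (d'.mono_right sA).symm w1 y1 w1' y1' ⟨w2, i, y2, w3, y3 v hv i⟩
        ⟨w2', i', y2', w3', y3' v hv i'⟩ with k2 | k2
      · exact lt_asymm k1.2 k2.2
      · exact lt_asymm k1.1 k2.2

theorem ends (h : T.Ok) (hP : T.Conn P t) (hO : T.Conn O o) (d : Disjoint O P) (hS : S' ⊆ T.S)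
    (hu : ∀ s ∈ S', ∃ u ∈ O, T.inc s u) : T.cnt P S' ≤ 4 * S'.card + 50 * P.card := by
  classical
  obtain ⟨X, e, hX⟩ := SyB_cnt T P S'
  have hch : ∀ s, ∃ u, s ∈ S' → u ∈ O ∧ T.inc s u := fun s => by
    by_cases hs : s ∈ S'
    · obtain ⟨u, hu'⟩ := hu s hs
      exact ⟨u, fun _ => hu'⟩
    · exact ⟨o, fun h => absurd h hs⟩
  choose u hu using hch
  have one : ∀ p : σ × ν → Prop, (∀ s v w, v ∈ P → w ∈ P → T.inc s v → T.inc s w → p (s, v) →
      p (s, w) → ¬T.x s v < T.x s w) → (X.filter p).card ≤ S'.card := by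
    intro p hp
    refine SyB_one h _ _ (fun a ha => ?_)
      (fun a ha => ((hX a).1 (Finset.mem_filter.1 ha).1).1) fun s v w hv hw => ?_
    · obtain ⟨h1, h2, h3⟩ := (hX a).1 (Finset.mem_filter.1 ha).1
      exact ⟨hS h1, hP.1 h2, h3⟩
    · obtain ⟨-, h2, h3⟩ := (hX _).1 (Finset.mem_filter.1 hv).1
      obtain ⟨-, h4, h5⟩ := (hX _).1 (Finset.mem_filter.1 hw).1
      exact hp s v w h2 h4 h3 h5 (Finset.mem_filter.1 hv).2 (Finset.mem_filter.1 hw).2
  have c1 := one (fun a => ∀ w ∈ P, T.inc a.1 w → ¬T.x a.1 w < T.x a.1 a.2)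
    fun s v w hv _ iv _ _ pw => pw v hv iv
  have c2 := one (fun a => T.x a.1 a.2 < T.x a.1 (u a.1) ∧
      ∀ w ∈ P, T.inc a.1 w → T.x a.1 a.2 < T.x a.1 w → ¬T.x a.1 w < T.x a.1 (u a.1))
    fun s v w _ hw _ iw pv pw hlt => pv.2 w hw iw hlt pw.1
  have c3 := one (fun a => T.x a.1 (u a.1) < T.x a.1 a.2 ∧
      ∀ w ∈ P, T.inc a.1 w → T.x a.1 (u a.1) < T.x a.1 w → ¬T.x a.1 w < T.x a.1 a.2)
    fun s v w hv _ iv _ pv pw => pw.2 v hv iv pv.1
  have c4 := one (fun a => ∀ w ∈ P, T.inc a.1 w → ¬T.x a.1 a.2 < T.x a.1 w)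
    fun s v w _ hw _ iw pv _ => pv w hw iw
  have c5 : (X.filter fun a => ∃ w ∈ P, ∃ w' ∈ P, T.inc a.1 w ∧ T.inc a.1 w' ∧
      T.x a.1 w < T.x a.1 a.2 ∧ T.x a.1 a.2 < T.x a.1 w' ∧
        T.x a.1 w' < T.x a.1 (u a.1)).card ≤ 25 * P.card := by
    refine SyB_sum _ P 25 (fun a ha => ((hX a).1 (Finset.mem_filter.1 ha).1).2.1)
      fun v hv Y hY => ?_
    refine SyB_cov₂ h hP hv Y (fun s w w' => T.inc s w ∧ T.inc s w' ∧ T.x s w < T.x s v ∧
      T.x s v < T.x s w' ∧ T.x s w' < T.x s (u s)) (fun s hs => ?_) ?_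
    · obtain ⟨w, w1, w', w2, k⟩ := (Finset.mem_filter.1 (hY s hs)).2
      exact ⟨w, SyB_mem w1 k.2.2.1.ne, w', SyB_mem w2 k.2.2.2.1.ne', k⟩
    · intro A a B b hA sA nA hB sB nB s hs s' hs' hne w₁ m₁ w₂ m₂ w₃ m₃ w₄ m₄ k k'
      obtain ⟨m, -, i⟩ := (hX _).1 (Finset.mem_filter.1 (hY s hs)).1
      obtain ⟨m', -, i'⟩ := (hX _).1 (Finset.mem_filter.1 (hY s' hs')).1
      have hv' := conn_single (hP.1 hv)
      have k1 := SyB_first h (hS m) (hS m') hne hv' hB hO nB (Finset.disjoint_right.1 d hv)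
        (d.mono_right sB).symm m₂ (hu s m).1 m₄ (hu s' m').1
        ⟨i, k.2.1, (hu s m).2, k.2.2.2.1, k.2.2.2.2⟩
        ⟨i', k'.2.1, (hu s' m').2, k'.2.2.2.1, k'.2.2.2.2⟩
      rcases SyB_mid h (hS m) (hS m') hne hv' hA hO nA (Finset.disjoint_right.1 d hv)
        (d.mono_right sA).symm m₁ (hu s m).1 m₃ (hu s' m').1
        ⟨k.1, i, (hu s m).2, k.2.2.1, k.2.2.2.1.trans k.2.2.2.2⟩
        ⟨k'.1, i', (hu s' m').2, k'.2.2.1, k'.2.2.2.1.trans k'.2.2.2.2⟩ with k2 | k2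
      · exact lt_asymm k1.1 k2.1
      · exact lt_asymm k1.2 k2.1
  have c6 : (X.filter fun a => ∃ w ∈ P, ∃ w' ∈ P, T.inc a.1 w ∧ T.inc a.1 w' ∧
      T.x a.1 (u a.1) < T.x a.1 w ∧ T.x a.1 w < T.x a.1 a.2 ∧
        T.x a.1 a.2 < T.x a.1 w').card ≤ 25 * P.card := by
    refine SyB_sum _ P 25 (fun a ha => ((hX a).1 (Finset.mem_filter.1 ha).1).2.1)
      fun v hv Y hY => ?_
    refine SyB_cov₂ h hP hv Y (fun s w w' => T.inc s w ∧ T.inc s w' ∧ T.x s (u s) < T.x s w ∧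
      T.x s w < T.x s v ∧ T.x s v < T.x s w') (fun s hs => ?_) ?_
    · obtain ⟨w, w1, w', w2, k⟩ := (Finset.mem_filter.1 (hY s hs)).2
      exact ⟨w, SyB_mem w1 k.2.2.2.1.ne, w', SyB_mem w2 k.2.2.2.2.ne', k⟩
    · intro A a B b hA sA nA hB sB nB s hs s' hs' hne w₁ m₁ w₂ m₂ w₃ m₃ w₄ m₄ k k'
      obtain ⟨m, -, i⟩ := (hX _).1 (Finset.mem_filter.1 (hY s hs)).1
      obtain ⟨m', -, i'⟩ := (hX _).1 (Finset.mem_filter.1 (hY s' hs')).1
      have hv' := conn_single (hP.1 hv)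
      have k1 := SyB_last h (hS m) (hS m') hne hv' hO hA (Finset.disjoint_right.1 d hv) nA
        (d.mono_right sA) (hu s m).1 m₁ (hu s' m').1 m₃
        ⟨(hu s m).2, k.1, i, k.2.2.1, k.2.2.2.1⟩
        ⟨(hu s' m').2, k'.1, i', k'.2.2.1, k'.2.2.2.1⟩
      rcases SyB_mid h (hS m) (hS m') hne hv' hO hB (Finset.disjoint_right.1 d hv) nB
        (d.mono_right sB) (hu s m).1 m₂ (hu s' m').1 m₄
        ⟨(hu s m).2, i, k.2.1, k.2.2.1.trans k.2.2.2.1, k.2.2.2.2⟩
        ⟨(hu s' m').2, i', k'.2.1, k'.2.2.1.trans k'.2.2.2.1, k'.2.2.2.2⟩ with k2 | k2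
      · exact lt_asymm k1.2 k2.2
      · exact lt_asymm k1.1 k2.2
  have cov : ∀ X₁ X₂ X₃ X₄ X₅ X₆ : Finset (σ × ν),
      (∀ a ∈ X, a ∉ X₁ → a ∉ X₂ → a ∉ X₃ → a ∉ X₄ → a ∉ X₅ → a ∈ X₆) →
      X.card ≤ X₁.card + X₂.card + X₃.card + X₄.card + X₅.card + X₆.card := by
    intro X₁ X₂ X₃ X₄ X₅ X₆ hc
    have h1 : X ⊆ X₁ ∪ X₂ ∪ X₃ ∪ X₄ ∪ X₅ ∪ X₆ := fun a ha => by
      have := hc a ha
      simp only [Finset.mem_union]
      tauto
    have h2 := Finset.card_le_card h1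
    have h3 := Finset.card_union_le (X₁ ∪ X₂ ∪ X₃ ∪ X₄ ∪ X₅) X₆
    have h4 := Finset.card_union_le (X₁ ∪ X₂ ∪ X₃ ∪ X₄) X₅
    have h5 := Finset.card_union_le (X₁ ∪ X₂ ∪ X₃) X₄
    have h6 := Finset.card_union_le (X₁ ∪ X₂) X₃
    have h7 := Finset.card_union_le X₁ X₂
    omega
  rw [e]
  refine (cov _ _ _ _ _ _ ?_).trans ((Nat.add_le_add (Nat.add_le_add (Nat.add_le_add
    (Nat.add_le_add (Nat.add_le_add c1 c2) c3) c4) c5) c6).trans (by omega))
  intro a ha n1 n2 n3 n4 n5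
  simp only [Finset.mem_filter, ha, true_and] at n1 n2 n3 n4 n5 ⊢
  obtain ⟨m, hv, i⟩ := (hX a).1 ha
  push Not at n1 n2 n3 n4
  obtain ⟨w, w1, w2, w3⟩ := n1
  obtain ⟨y, y1, y2, y3⟩ := n4
  rcases lt_trichotomy (T.x a.1 a.2) (T.x a.1 (u a.1)) with k | k | k
  · obtain ⟨z, z1, z2, z3, z4⟩ := n2 k
    exact absurd ⟨w, w1, z, z1, w2, z2, w3, z3, z4⟩ n5
  · have := h.inj _ (hS m) _ (hP.1 hv) _ (hO.1 (hu _ m).1) i (hu _ m).2 k
    exact absurd (this ▸ hv) (Finset.disjoint_left.1 d (hu _ m).1)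
  · obtain ⟨z, z1, z2, z3, z4⟩ := n3 k
    exact ⟨z, z1, y, y1, z2, y2, z3, z4, y3⟩

theorem base (h : T.Ok) : T.cnt T.V T.S ≤ 5 * T.S.card + 50 * T.V.card ^ 2 := by
  classical
  generalize hn : T.V.card = n
  induction n generalizing T with
  | zero => exact absurd h.hr (Finset.card_eq_zero.1 hn ▸ Finset.notMem_empty _)
  | succ n ih =>
    rcases (T.V.erase T.r).eq_empty_or_nonempty with e | e
    · obtain ⟨X, e', hX⟩ := SyB_cnt T T.V T.S
      have h1 : X.card ≤ T.S.card := SyB_one h X T.S (fun a ha => (hX a).1 ha)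
        (fun a ha => ((hX a).1 ha).1) fun s v w hv hw => by
          have k : ∀ y ∈ T.V, y = T.r := fun y hy => by
            by_contra hne
            exact Finset.notMem_empty y (e ▸ Finset.mem_erase.2 ⟨hne, hy⟩)
          rw [k v ((hX _).1 hv).2.1, k w ((hX _).1 hw).2.1]
          exact lt_irrefl _
      omega
    obtain ⟨l, hl, hmax⟩ := Finset.exists_max_image _ T.rk e
    obtain ⟨l1, l2⟩ := Finset.mem_erase.1 hl
    have hP : T.Conn (T.V.erase l) T.r := by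
      refine ⟨Finset.erase_subset _ _, Finset.mem_erase.2 ⟨l1.symm, h.hr⟩, fun v hv hne => ?_⟩
      have hv' := Finset.mem_of_mem_erase hv
      refine ⟨hne, Finset.mem_erase.2 ⟨fun e' => ?_, (h.hpar v hv' hne).1⟩⟩
      have h1 := (h.hpar v hv' hne).2
      rw [e'] at h1
      exact absurd (hmax v (Finset.mem_erase.2 ⟨hne, hv'⟩)) (not_le.2 h1)
    have hc : (T.V.erase l).card = n := by
      rw [Finset.card_erase_of_mem l2, hn, Nat.add_sub_cancel]
    have h1 := ends h hP (conn_single l2)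
      (Finset.disjoint_singleton_left.2 (Finset.notMem_erase _ _))
      (Finset.filter_subset (fun s => T.inc s l) T.S)
      fun s hs => ⟨l, Finset.mem_singleton_self l, (Finset.mem_filter.1 hs).2⟩
    have h2 : T.cnt (T.V.erase l) (T.S.filter fun s => ¬T.inc s l) ≤
        5 * (T.S.filter fun s => ¬T.inc s l).card + 50 * n ^ 2 :=
      ih (h.res hP (Finset.filter_subset (fun s => ¬T.inc s l) T.S)) hc
    have h3 := Finset.card_filter_add_card_filter_not (s := T.S) fun s => T.inc s l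
    have h4 := cnt_union_le (T := T) (T.V.erase l) (T.S.filter fun s => T.inc s l)
      (T.S.filter fun s => ¬T.inc s l)
    rw [Finset.filter_union_filter_not_eq] at h4
    have h5 : T.cnt T.V T.S ≤ (T.S.filter fun s => T.inc s l).card + T.cnt (T.V.erase l) T.S := by
      obtain ⟨X, e1, hX⟩ := SyB_cnt T T.V T.S
      obtain ⟨X', e2, hX'⟩ := SyB_cnt T (T.V.erase l) T.S
      rw [e1, e2, ← Finset.card_filter_add_card_filter_not (s := X) fun a => a.2 = l]
      refine Nat.add_le_add (SyB_one h _ _ (fun a ha => (hX a).1 (Finset.mem_filter.1 ha).1)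
        (fun a ha => ?_) fun s v w hv hw => ?_) (Finset.card_le_card fun a ha => ?_)
      · obtain ⟨k1, k2⟩ := Finset.mem_filter.1 ha
        exact Finset.mem_filter.2 ⟨((hX a).1 k1).1, k2 ▸ ((hX a).1 k1).2.2⟩
      · rw [show v = l from (Finset.mem_filter.1 hv).2, show w = l from (Finset.mem_filter.1 hw).2]
        exact lt_irrefl _
      · obtain ⟨k1, k2⟩ := Finset.mem_filter.1 ha
        obtain ⟨k3, k4, k5⟩ := (hX a).1 k1
        exact (hX' a).2 ⟨k3, Finset.mem_erase.2 ⟨k2, k4⟩, k5⟩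
    have h6 : (n + 1) ^ 2 = n ^ 2 + 2 * n + 1 := by ring
    rw [hc] at h1
    omega

end Sy

end SA
end

-- part: SyC
section
/-!
# Cutting a tree into small pieces

Let `D v` be the set of descendants of `v` in `V` (with `v`), `sz v = |D v|`, `f v = sz v / s`.
`D v` is the disjoint union of `{v}` and the `D c` for the children `c`; for two nodes the sets `D`
are nested or disjoint.  `U` = nodes with `1 ≤ f v` and `f c < f v` for all children `c`.
`|U ∩ D v| ≤ 2 f v - 1` (natural subtraction) by induction downwards, since the `f c` add up to at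
most `f v`; so `s |U| ≤ 2 m`.  `Tp = {r} ∪ U ∪ children of U`, `|Tp| ≤ 1 + 5 |U|`.
`top v = v` for `v ∈ Tp`, else `top (par v)` (recursion on the rank).  The piece of `t ∈ U` is `{t}`
and its child tops are children of `t`.  Let `t ∈ Tp \ U`; the piece lies in `D t`.  If `f t = 0` it
has fewer than `s` nodes and `D t` contains no node of `U`, so there is no child top.  Otherwise take
`u ∈ D t` with `f u = f t` of maximal rank; `u ∈ U`, `sz t - sz u < s`, the piece misses `D u`, and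
every node of `U` in `D t` lies in `D u` (a node `w` with `f w ≥ 1` has `D w` nested with `D u`; a
proper ancestor of `u` in `D t` has a child with the same `f`).  So `u` is the only child top.
-/

namespace SA

namespace Sy

variable {ν σ : Type} [DecidableEq ν] [DecidableEq σ] (T : Sy ν σ)

/-- A decomposition into pieces of size at most `s`. -/
structure Dec (s : ℕ) (Tp : Finset ν) (top : ν → ν) : Prop where
  sub : Tp ⊆ T.V
  root : T.r ∈ Tp
  fix : ∀ t ∈ Tp, top t = t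
  step : ∀ v ∈ T.V, v ∉ Tp → top v = top (T.par v)
  size : ∀ t ∈ Tp, (T.V.filter fun v => top v = t).card ≤ s
  num : s * Tp.card ≤ 11 * T.V.card
  ch : ∀ t, (Tp.filter fun c => c ≠ T.r ∧ top (T.par c) = t).card ≤ 4

/-- One step up. -/
def SyC_up (w p : ν) : Prop := w ∈ T.V ∧ w ≠ T.r ∧ T.par w = p

/-- `w` is a descendant of `v`. -/
def SyC_le (w v : ν) : Prop := Relation.ReflTransGen T.SyC_up w v

open Classical in
/-- The descendants. -/
noncomputable def SyC_D (v : ν) : Finset ν := T.V.filter fun w => T.SyC_le w v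

/-- The children. -/
def SyC_C (u : ν) : Finset ν := T.V.filter fun v => v ≠ T.r ∧ T.par v = u

/-- The first ancestor in `Tp`. -/
def SyC_top (Tp : Finset ν) (v : ν) : ν :=
  if _h : v ∈ T.V ∧ v ∉ Tp ∧ T.rk (T.par v) < T.rk v then SyC_top Tp (T.par v) else v
termination_by T.rk v
decreasing_by exact _h.2.2

/-- The number of full blocks below a node. -/
noncomputable def SyC_f (s : ℕ) (v : ν) : ℕ := (T.SyC_D v).card / s

open Classical in
/-- The cut nodes. -/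
noncomputable def SyC_U (s : ℕ) : Finset ν :=
  T.V.filter fun v => 1 ≤ T.SyC_f s v ∧ ∀ c ∈ T.SyC_C v, T.SyC_f s c < T.SyC_f s v

/-- The tops. -/
noncomputable def SyC_Tp (s : ℕ) : Finset ν :=
  insert T.r (T.SyC_U s ∪ (T.SyC_U s).biUnion T.SyC_C)

variable {T}

omit [DecidableEq σ] in
theorem SyC_memC {u c : ν} : c ∈ T.SyC_C u ↔ T.SyC_up c u := by
  simp [SyC_C, SyC_up]

omit [DecidableEq ν] [DecidableEq σ] in
theorem SyC_memD {v w : ν} : w ∈ T.SyC_D v ↔ w ∈ T.V ∧ T.SyC_le w v := by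
  simp [SyC_D]

omit [DecidableEq σ] in
theorem SyC_up_rk (h : T.Ok) {w p : ν} (hw : T.SyC_up w p) : p ∈ T.V ∧ T.rk p < T.rk w := by
  obtain ⟨a, b, rfl⟩ := hw
  exact h.hpar w a b

omit [DecidableEq σ] in
theorem SyC_le_rk (h : T.Ok) {w v : ν} (hw : T.SyC_le w v) : w = v ∨ T.rk v < T.rk w := by
  induction hw with
  | refl => exact Or.inl rfl
  | tail _ hb ih =>
    have := (SyC_up_rk h hb).2
    rcases ih with rfl | ih
    · exact Or.inr this
    · exact Or.inr (by omega)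

omit [DecidableEq σ] in
theorem SyC_anti (h : T.Ok) {w v : ν} (h1 : T.SyC_le w v) (h2 : T.SyC_le v w) : w = v := by
  rcases SyC_le_rk h h1 with a | a
  · exact a
  rcases SyC_le_rk h h2 with b | b
  · exact b.symm
  omega

omit [DecidableEq ν] [DecidableEq σ] in
theorem SyC_total {w a b : ν} (h1 : T.SyC_le w a) (h2 : T.SyC_le w b) :
    T.SyC_le a b ∨ T.SyC_le b a :=
  Relation.ReflTransGen.total_of_right_unique
    (fun _ _ _ hx hy => hx.2.2.symm.trans hy.2.2) h1 h2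

omit [DecidableEq ν] [DecidableEq σ] in
theorem SyC_D_mono {a b : ν} (hab : T.SyC_le a b) : T.SyC_D a ⊆ T.SyC_D b := fun _ hw =>
  SyC_memD.2 ⟨(SyC_memD.1 hw).1, Relation.ReflTransGen.trans (SyC_memD.1 hw).2 hab⟩

omit [DecidableEq ν] [DecidableEq σ] in
theorem SyC_f_mono (s : ℕ) {a b : ν} (hab : T.SyC_le a b) : T.SyC_f s a ≤ T.SyC_f s b :=
  Nat.div_le_div_right (Finset.card_le_card (SyC_D_mono hab))

omit [DecidableEq σ] in
theorem SyC_sum_f (h : T.Ok) {s : ℕ} (h1 : 1 ≤ s) (v : ν) :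
    ∑ c ∈ T.SyC_C v, T.SyC_f s c ≤ T.SyC_f s v := by
  have hd : ∑ c ∈ T.SyC_C v, (T.SyC_D c).card ≤ (T.SyC_D v).card := by
    rw [← Finset.card_biUnion]
    · refine Finset.card_le_card (Finset.biUnion_subset.2 fun c hc => SyC_D_mono ?_)
      exact Relation.ReflTransGen.single (SyC_memC.1 hc)
    · intro a ha b hb hab
      refine Finset.disjoint_left.2 fun w hwa hwb => ?_
      have ha' := SyC_memC.1 (Finset.mem_coe.1 ha)
      have hb' := SyC_memC.1 (Finset.mem_coe.1 hb)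
      have key : ∀ a b, T.SyC_up a v → T.SyC_up b v → T.SyC_le a b → a = b := by
        intro a b ha hb hab
        rcases Relation.ReflTransGen.cases_head hab with e | ⟨p, hp, hpb⟩
        · exact e
        · have e : p = v := hp.2.2.symm.trans ha.2.2
          subst e
          have := (SyC_up_rk h hb).2
          rcases SyC_le_rk h hpb with e | e
          · subst e; omega
          · omega
      rcases SyC_total (SyC_memD.1 hwa).2 (SyC_memD.1 hwb).2 with e | e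
      · exact hab (key a b ha' hb' e)
      · exact hab (key b a hb' ha' e).symm
  refine (Nat.le_div_iff_mul_le h1).2 (le_trans ?_ hd)
  rw [Finset.sum_mul]
  exact Finset.sum_le_sum fun c _ => Nat.div_mul_le_self _ _

omit [DecidableEq σ] in
theorem SyC_memU {s : ℕ} {v : ν} : v ∈ T.SyC_U s ↔
    v ∈ T.V ∧ 1 ≤ T.SyC_f s v ∧ ∀ c ∈ T.SyC_C v, T.SyC_f s c < T.SyC_f s v := by
  simp [SyC_U]

omit [DecidableEq σ] in
theorem SyC_local (h : T.Ok) {s : ℕ} (h1 : 1 ≤ s) (v : ν) :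
    (if v ∈ T.SyC_U s then 1 else 0) + ∑ c ∈ T.SyC_C v, (2 * T.SyC_f s c - 1) ≤
      2 * T.SyC_f s v - 1 := by
  have hs := SyC_sum_f h h1 v
  set C1 := (T.SyC_C v).filter fun c => 1 ≤ T.SyC_f s c with hC1
  have e1 : ∑ c ∈ T.SyC_C v, (2 * T.SyC_f s c - 1) = ∑ c ∈ C1, (2 * T.SyC_f s c - 1) := by
    refine (Finset.sum_subset (Finset.filter_subset _ _) fun c hc hn => ?_).symm
    have : ¬ 1 ≤ T.SyC_f s c := fun e => hn (Finset.mem_filter.2 ⟨hc, e⟩)
    omega
  have e2 : ∑ c ∈ C1, (2 * T.SyC_f s c - 1) + C1.card = 2 * ∑ c ∈ C1, T.SyC_f s c := by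
    rw [Finset.card_eq_sum_ones, ← Finset.sum_add_distrib, Finset.mul_sum]
    refine Finset.sum_congr rfl fun c hc => ?_
    have := (Finset.mem_filter.1 hc).2
    omega
  have e3 : ∑ c ∈ C1, T.SyC_f s c ≤ ∑ c ∈ T.SyC_C v, T.SyC_f s c :=
    Finset.sum_le_sum_of_subset (Finset.filter_subset _ _)
  rw [e1]
  rcases Nat.lt_trichotomy C1.card 1 with e | e | e
  · have e0 : C1 = ∅ := Finset.card_eq_zero.1 (by omega)
    rw [e0, Finset.sum_empty]
    split_ifs with hv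
    · have := (SyC_memU.1 hv).2.1
      omega
    · omega
  · obtain ⟨c, hc⟩ := Finset.card_eq_one.1 e
    have hcm : c ∈ C1 := hc ▸ Finset.mem_singleton_self c
    have hc1 := (Finset.mem_filter.1 hcm).2
    rw [hc, Finset.sum_singleton] at e3 ⊢
    split_ifs with hv
    · have := (SyC_memU.1 hv).2.2 c (Finset.mem_filter.1 hcm).1
      omega
    · omega
  · split_ifs <;> omega

omit [DecidableEq σ] in
theorem SyC_cardU (h : T.Ok) {s : ℕ} (h1 : 1 ≤ s) : s * (T.SyC_U s).card ≤ 2 * T.V.card := by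
  have a := Finset.sum_le_sum fun v (_ : v ∈ T.V) => SyC_local h h1 v
  rw [Finset.sum_add_distrib] at a
  have b : ∑ v ∈ T.V, (if v ∈ T.SyC_U s then 1 else 0) = (T.SyC_U s).card := by
    rw [← Finset.card_filter]
    congr 1
    ext v
    simp only [Finset.mem_filter]
    exact ⟨fun e => e.2, fun e => ⟨(SyC_memU.1 e).1, e⟩⟩
  have c : ∑ v ∈ T.V, ∑ c ∈ T.SyC_C v, (2 * T.SyC_f s c - 1) =
      ∑ c ∈ T.V.erase T.r, (2 * T.SyC_f s c - 1) := by
    rw [← Finset.sum_fiberwise_of_maps_to (s := T.V.erase T.r) (t := T.V) (g := T.par)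
      fun c hc => (h.hpar c (Finset.mem_erase.1 hc).2 (Finset.mem_erase.1 hc).1).1]
    refine Finset.sum_congr rfl fun v _ => Finset.sum_congr ?_ fun _ _ => rfl
    ext c
    simp only [SyC_C, Finset.mem_filter, Finset.mem_erase]
    tauto
  have d := Finset.add_sum_erase T.V (fun c => 2 * T.SyC_f s c - 1) h.hr
  have e : (T.SyC_U s).card ≤ 2 * T.SyC_f s T.r := by omega
  have f : s * T.SyC_f s T.r ≤ T.V.card :=
    (Nat.mul_div_le _ _).trans (Finset.card_le_card fun w hw => (SyC_memD.1 hw).1)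
  calc s * (T.SyC_U s).card ≤ s * (2 * T.SyC_f s T.r) := Nat.mul_le_mul_left _ e
    _ = 2 * (s * T.SyC_f s T.r) := by ring
    _ ≤ _ := by omega

omit [DecidableEq σ] in
theorem SyC_top_fix {Tp : Finset ν} {t : ν} (ht : t ∈ Tp) : T.SyC_top Tp t = t := by
  rw [SyC_top, dif_neg fun e => e.2.1 ht]

omit [DecidableEq σ] in
theorem SyC_top_step (h : T.Ok) {Tp : Finset ν} (hr : T.r ∈ Tp) {v : ν} (hv : v ∈ T.V)
    (hn : v ∉ Tp) : T.SyC_top Tp v = T.SyC_top Tp (T.par v) := by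
  have : v ≠ T.r := fun e => hn (e ▸ hr)
  rw [SyC_top, dif_pos ⟨hv, hn, (h.hpar v hv this).2⟩]

omit [DecidableEq σ] in
theorem SyC_top_mem (h : T.Ok) {Tp : Finset ν} (hr : T.r ∈ Tp) (v : ν) (hv : v ∈ T.V) :
    T.SyC_top Tp v ∈ Tp ∧ T.SyC_le v (T.SyC_top Tp v) := by
  induction hn : T.rk v using Nat.strong_induction_on generalizing v with
  | _ n ih =>
    by_cases e : v ∈ Tp
    · rw [SyC_top_fix e]
      exact ⟨e, Relation.ReflTransGen.refl⟩
    · have hne : v ≠ T.r := fun e' => e (e' ▸ hr)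
      have hp := h.hpar v hv hne
      rw [SyC_top_step h hr hv e]
      have := ih _ (hn ▸ hp.2) (T.par v) hp.1 rfl
      exact ⟨this.1, Relation.ReflTransGen.head ⟨hv, hne, rfl⟩ this.2⟩

omit [DecidableEq σ] in
theorem SyC_top_first (h : T.Ok) {Tp : Finset ν} (hr : T.r ∈ Tp) {v w : ν} (hw : w ∈ Tp)
    (hvw : T.SyC_le v w) : T.SyC_le (T.SyC_top Tp v) w := by
  induction hvw using Relation.ReflTransGen.head_induction_on with
  | refl => rw [SyC_top_fix hw]; exact Relation.ReflTransGen.refl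
  | @head a p hap hpw ih =>
    by_cases e : a ∈ Tp
    · rw [SyC_top_fix e]
      exact Relation.ReflTransGen.head hap hpw
    · rw [SyC_top_step h hr hap.1 e, hap.2.2]
      exact ih

omit [DecidableEq σ] in
theorem SyC_memTp {s : ℕ} {v : ν} : v ∈ T.SyC_Tp s ↔
    v = T.r ∨ v ∈ T.SyC_U s ∨ ∃ u ∈ T.SyC_U s, T.SyC_up v u := by
  simp [SyC_Tp, SyC_memC]

omit [DecidableEq σ] in
theorem SyC_pieceU (h : T.Ok) {s : ℕ} {t v : ν} (ht : t ∈ T.SyC_U s) (hv : v ∈ T.V)
    (e : T.SyC_top (T.SyC_Tp s) v = t) : v = t := by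
  have hr : T.r ∈ T.SyC_Tp s := SyC_memTp.2 (Or.inl rfl)
  have a := (SyC_top_mem h hr v hv).2
  rw [e] at a
  rcases Relation.ReflTransGen.cases_tail a with b | ⟨c, hc, hct⟩
  · exact b.symm
  · have b := SyC_top_first h hr (SyC_memTp.2 (Or.inr (Or.inr ⟨t, ht, hct⟩))) hc
    rw [e] at b
    have := (SyC_up_rk h hct).2
    rcases SyC_le_rk h b with d | d
    · subst d; omega
    · omega

omit [DecidableEq σ] in
theorem SyC_deep (h : T.Ok) {s : ℕ} {t : ν} (ht : t ∈ T.V) (hf : 1 ≤ T.SyC_f s t) :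
    ∃ u ∈ T.SyC_U s, T.SyC_le u t ∧ T.SyC_f s u = T.SyC_f s t := by
  obtain ⟨u, hu, hm⟩ := Finset.exists_max_image
    ((T.SyC_D t).filter fun u => T.SyC_f s u = T.SyC_f s t) T.rk
    ⟨t, Finset.mem_filter.2 ⟨SyC_memD.2 ⟨ht, Relation.ReflTransGen.refl⟩, rfl⟩⟩
  obtain ⟨hu1, hu2⟩ := Finset.mem_filter.1 hu
  obtain ⟨hu3, hu4⟩ := SyC_memD.1 hu1
  refine ⟨u, SyC_memU.2 ⟨hu3, by omega, fun c hc => ?_⟩, hu4, hu2⟩
  have hc' := SyC_memC.1 hc
  have a := SyC_f_mono s (Relation.ReflTransGen.single hc' : T.SyC_le c u)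
  rcases a.lt_or_eq with b | b
  · exact b
  · have := hm c (Finset.mem_filter.2
      ⟨SyC_memD.2 ⟨hc'.1, Relation.ReflTransGen.head hc' hu4⟩, b.trans hu2⟩)
    have := (SyC_up_rk h hc').2
    omega

omit [DecidableEq σ] in
theorem SyC_small {s : ℕ} (h1 : 1 ≤ s) {t u : ν} {P : Finset ν} (hP : P ⊆ T.SyC_D t)
    (hu : T.SyC_le u t) (hf : T.SyC_f s u = T.SyC_f s t) (hd : Disjoint P (T.SyC_D u)) :
    P.card < s := by
  have a : P.card + (T.SyC_D u).card ≤ (T.SyC_D t).card := by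
    rw [← Finset.card_union_of_disjoint hd]
    exact Finset.card_le_card (Finset.union_subset hP (SyC_D_mono hu))
  have b : s * T.SyC_f s u ≤ (T.SyC_D u).card := Nat.mul_div_le _ _
  have c : (T.SyC_D t).card < s * (T.SyC_f s t + 1) := Nat.lt_mul_div_succ _ h1
  rw [hf] at b
  rw [Nat.mul_add, Nat.mul_one] at c
  omega

theorem exists_dec (h : T.Ok) {s : ℕ} (h1 : 1 ≤ s) (h2 : s ≤ T.V.card) :
    ∃ Tp top, T.Dec s Tp top := by
  have hr : T.r ∈ T.SyC_Tp s := SyC_memTp.2 (Or.inl rfl)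
  have hsub : T.SyC_Tp s ⊆ T.V := by
    intro v hv
    rcases SyC_memTp.1 hv with rfl | e | ⟨u, _, e⟩
    · exact h.hr
    · exact (SyC_memU.1 e).1
    · exact e.1
  have hmiss : ∀ t u v, t ∉ T.SyC_U s → u ∈ T.SyC_U s → T.SyC_le u t →
      T.SyC_top (T.SyC_Tp s) v = t → ¬ T.SyC_le v u := by
    intro t u v ht hu hut e hvu
    have a := SyC_top_first h hr (SyC_memTp.2 (Or.inr (Or.inl hu))) hvu
    rw [e] at a
    exact ht (SyC_anti h hut a ▸ hu)
  refine ⟨T.SyC_Tp s, T.SyC_top (T.SyC_Tp s), hsub, hr, fun t ht => SyC_top_fix ht,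
    fun v hv hn => SyC_top_step h hr hv hn, fun t ht => ?_, ?_, fun t => ?_⟩
  · have hP : (T.V.filter fun v => T.SyC_top (T.SyC_Tp s) v = t) ⊆ T.SyC_D t := by
      intro v hv
      obtain ⟨a, b⟩ := Finset.mem_filter.1 hv
      exact SyC_memD.2 ⟨a, b ▸ (SyC_top_mem h hr v a).2⟩
    by_cases hU : t ∈ T.SyC_U s
    · refine le_trans (Finset.card_le_one.2 fun a ha b hb => ?_) h1
      rw [Finset.mem_filter] at ha hb
      exact (SyC_pieceU h hU ha.1 ha.2).trans (SyC_pieceU h hU hb.1 hb.2).symm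
    · by_cases hf : 1 ≤ T.SyC_f s t
      · obtain ⟨u, hu, hut, e⟩ := SyC_deep h (hsub ht) hf
        refine (SyC_small h1 hP hut e (Finset.disjoint_left.2 fun v hv hvu => ?_)).le
        exact hmiss t u v hU hu hut (Finset.mem_filter.1 hv).2 (SyC_memD.1 hvu).2
      · have c : (T.SyC_D t).card < s * (T.SyC_f s t + 1) := Nat.lt_mul_div_succ _ h1
        have d : T.SyC_f s t = 0 := by omega
        rw [d] at c
        have := Finset.card_le_card hP
        omega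
  · have a := SyC_cardU h h1
    have b : ((T.SyC_U s).biUnion T.SyC_C).card ≤ (T.SyC_U s).card * 4 :=
      Finset.card_biUnion_le_card_mul _ _ _ fun u _ => h.ch u
    have c := Finset.card_union_le (T.SyC_U s) ((T.SyC_U s).biUnion T.SyC_C)
    have d : (T.SyC_Tp s).card ≤ _ := Finset.card_insert_le _ _
    calc s * (T.SyC_Tp s).card ≤ s * (5 * (T.SyC_U s).card + 1) :=
          Nat.mul_le_mul_left _ (by omega)
      _ = 5 * (s * (T.SyC_U s).card) + s := by ring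
      _ ≤ _ := by omega
  · by_cases hU : t ∈ T.SyC_U s
    · refine le_trans (Finset.card_le_card fun c hc => ?_) (h.ch t)
      obtain ⟨a, b, e⟩ := Finset.mem_filter.1 hc
      exact Finset.mem_filter.2
        ⟨hsub a, b, SyC_pieceU h hU (h.hpar c (hsub a) b).1 e⟩
    · have key : ∀ c ∈ (T.SyC_Tp s).filter
          fun c => c ≠ T.r ∧ T.SyC_top (T.SyC_Tp s) (T.par c) = t,
          c ∈ T.SyC_U s ∧ T.SyC_le c t ∧ t ∈ T.V := by
        intro c hc
        obtain ⟨a, b, e⟩ := Finset.mem_filter.1 hc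
        have m := SyC_top_mem h hr _ (h.hpar c (hsub a) b).1
        rw [e] at m
        refine ⟨?_, Relation.ReflTransGen.head ⟨hsub a, b, rfl⟩ m.2, hsub m.1⟩
        rcases SyC_memTp.1 a with x | x | ⟨u, hu, x⟩
        · exact absurd x b
        · exact x
        · rw [x.2.2, SyC_top_fix (SyC_memTp.2 (Or.inr (Or.inl hu)))] at e
          exact absurd (e ▸ hu) hU
      refine le_trans (Finset.card_le_one.2 fun a ha b hb => ?_) (by norm_num)
      obtain ⟨haU, hat, ht⟩ := key a ha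
      obtain ⟨u, hu, hut, e⟩ := SyC_deep h ht
        ((SyC_memU.1 haU).2.1.trans (SyC_f_mono s hat))
      have fin : ∀ c ∈ (T.SyC_Tp s).filter
          fun c => c ≠ T.r ∧ T.SyC_top (T.SyC_Tp s) (T.par c) = t, c = u := by
        intro c hc
        obtain ⟨hcU, hct, -⟩ := key c hc
        have hc1 := (SyC_memU.1 hcU).2.1
        have nd : ¬ Disjoint (T.SyC_D c) (T.SyC_D u) := fun hd => by
          have x := SyC_small h1 (SyC_D_mono hct) hut e hd
          have y : s * T.SyC_f s c ≤ (T.SyC_D c).card := Nat.mul_div_le _ _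
          have z := Nat.mul_le_mul_left s hc1
          omega
        obtain ⟨z, hz1, hz2⟩ := Finset.not_disjoint_iff.1 nd
        rcases SyC_total (SyC_memD.1 hz1).2 (SyC_memD.1 hz2).2 with x | x
        · rcases Relation.ReflTransGen.cases_head x with y | ⟨p, hp, hpu⟩
          · exact y
          · refine absurd hpu (hmiss t u p hU hu hut ?_)
            rw [← hp.2.2]
            exact (Finset.mem_filter.1 hc).2.2
        · rcases Relation.ReflTransGen.cases_tail x with y | ⟨p, hup, hp⟩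
          · exact y
          · have y1 := (SyC_memU.1 hcU).2.2 p (SyC_memC.2 hp)
            have y2 := SyC_f_mono s (show T.SyC_le u p from hup)
            have y3 := SyC_f_mono s hct
            omega
      exact (fin a ha).trans (fin b hb).symm

end Sy

end SA
end

-- part: SyD
section
/-!
# Contraction and the recursion step

`top_mem`, `rk_top`: induction on the rank.  `Dec.ok`: a connected set `G` of tops with top `t`
gives the connected set `V.filter (top · ∈ G)` with top `t`; a touch of a piece is replaced by the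
chosen touch `ch s t` of a node of the piece.

`Dec.step_le`: split the symbols into local ones (all touches in one piece; symbols without a touch
may be put anywhere) and global ones.  `cnt V S` is the sum over the pieces.  Fix a piece `P` and
split its complement by `parts` (the children of `P` are tops, `ch`).  For a global symbol let `a s`,
`b s` be its first and last touch in `V`.  If one of them is in `P`, classify `s` by the part of a
touch outside `P` and use `ends`: at most `4 |S_P| + 250 |P|`, and each symbol occurs for at most two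
pieces.  Otherwise classify by the parts of `a s` and `b s` and use `through`: at most the number
of global symbols that touch `P` plus `125 |P|`; these numbers add up to the count of the
contracted system.
-/

namespace SA

namespace Sy

variable {ν σ : Type} [DecidableEq ν] [DecidableEq σ] (T : Sy ν σ)

/-- A touched node of the piece of `t`. -/
noncomputable def pk (top : ν → ν) (s : σ) (t : ν) : ν :=
  @Classical.epsilon ν ⟨t⟩ fun v => v ∈ T.V ∧ top v = t ∧ T.inc s v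

/-- The contracted system. -/
noncomputable def con (Tp : Finset ν) (top : ν → ν) (S' : Finset σ) : Sy ν σ where
  V := Tp
  r := T.r
  par t := top (T.par t)
  rk := T.rk
  S := S'
  inc s t := ∃ v, v ∈ T.V ∧ top v = t ∧ T.inc s v
  x s t := T.x s (T.pk top s t)
  ζ := T.ζ

variable {T} {s : ℕ} {Tp : Finset ν} {top : ν → ν}

omit [DecidableEq σ] in
theorem SyD_ne_root (d : T.Dec s Tp top) {v : ν} (hv : v ∉ Tp) : v ≠ T.r :=
  fun e => hv (e ▸ d.root)

theorem SyD_top (d : T.Dec s Tp top) (h : T.Ok) (n : ℕ) :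
    ∀ v ∈ T.V, T.rk v < n → top v ∈ Tp ∧ T.rk (top v) ≤ T.rk v := by
  induction n with
  | zero => exact fun v _ hv => absurd hv (Nat.not_lt_zero _)
  | succ n ih =>
    intro v hv hn
    by_cases h1 : v ∈ Tp
    · rw [d.fix v h1]
      exact ⟨h1, le_rfl⟩
    · obtain ⟨h2, h3⟩ := h.hpar v hv (SyD_ne_root d h1)
      obtain ⟨h4, h5⟩ := ih _ h2 (by omega)
      rw [d.step v hv h1]
      exact ⟨h4, by omega⟩

theorem Dec.top_mem (d : T.Dec s Tp top) (h : T.Ok) : ∀ v ∈ T.V, top v ∈ Tp :=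
  fun v hv => (SyD_top d h _ v hv (Nat.lt_succ_self _)).1

theorem Dec.rk_top (d : T.Dec s Tp top) (h : T.Ok) : ∀ v ∈ T.V, T.rk (top v) ≤ T.rk v :=
  fun v hv => (SyD_top d h _ v hv (Nat.lt_succ_self _)).2

theorem Dec.conn (d : T.Dec s Tp top) (h : T.Ok) {t : ν} (ht : t ∈ Tp) :
    T.Conn (T.V.filter fun v => top v = t) t := by
  refine ⟨Finset.filter_subset _ _, Finset.mem_filter.2 ⟨d.sub ht, d.fix t ht⟩, fun v hv hne => ?_⟩
  obtain ⟨h1, h2⟩ := Finset.mem_filter.1 hv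
  have h3 : v ∉ Tp := fun h4 => hne ((d.fix v h4).symm.trans h2)
  have h4 := SyD_ne_root d h3
  exact ⟨h4, Finset.mem_filter.2 ⟨(h.hpar v h1 h4).1, (d.step v h1 h3).symm.trans h2⟩⟩

omit [DecidableEq ν] [DecidableEq σ] in
theorem SyD_pk {S' : Finset σ} {a : σ} {t : ν} (h : (T.con Tp top S').inc a t) :
    T.pk top a t ∈ T.V ∧ top (T.pk top a t) = t ∧ T.inc a (T.pk top a t) :=
  @Classical.epsilon_spec_aux ν ⟨t⟩ (fun v => v ∈ T.V ∧ top v = t ∧ T.inc a v) h

theorem SyD_lift (d : T.Dec s Tp top) (h : T.Ok) {S' : Finset σ} {G : Finset ν} {t : ν}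
    (hG : (T.con Tp top S').Conn G t) : T.Conn (T.V.filter fun v => top v ∈ G) t := by
  have ht : t ∈ Tp := hG.1 hG.2.1
  refine ⟨Finset.filter_subset _ _, Finset.mem_filter.2 ⟨d.sub ht, ?_⟩, fun v hv hne => ?_⟩
  · rw [d.fix t ht]
    exact hG.2.1
  · obtain ⟨h1, h2⟩ := Finset.mem_filter.1 hv
    by_cases h3 : v ∈ Tp
    · rw [d.fix v h3] at h2
      obtain ⟨h4, h5⟩ := hG.2.2 v h2 hne
      exact ⟨h4, Finset.mem_filter.2 ⟨(h.hpar v h1 h4).1, h5⟩⟩
    · have h4 := SyD_ne_root d h3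
      refine ⟨h4, Finset.mem_filter.2 ⟨(h.hpar v h1 h4).1, ?_⟩⟩
      rwa [← d.step v h1 h3]

omit [DecidableEq σ] in
theorem SyD_disj {G G' : Finset ν} (hd : Disjoint G G') :
    Disjoint (T.V.filter fun v => top v ∈ G) (T.V.filter fun v => top v ∈ G') :=
  Finset.disjoint_left.2 fun _ h1 h2 =>
    Finset.disjoint_left.1 hd (Finset.mem_filter.1 h1).2 (Finset.mem_filter.1 h2).2

theorem Dec.ok (d : T.Dec s Tp top) (h : T.Ok) {S' : Finset σ} (hS : S' ⊆ T.S) :
    (T.con Tp top S').Ok where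
  hr := d.root
  hpar v hv hne := by
    obtain ⟨h1, h2⟩ := h.hpar v (d.sub hv) hne
    exact ⟨d.top_mem h _ h1, (d.rk_top h _ h1).trans_lt h2⟩
  ch := d.ch
  inj a ha u _ v _ hu hv e := by
    obtain ⟨u1, u2, u3⟩ := SyD_pk hu
    obtain ⟨v1, v2, v3⟩ := SyD_pk hv
    have := h.inj a (hS ha) _ u1 _ v1 u3 v3 e
    rw [← u2, ← v2, this]
  sym := h.sym
  th a ha a' ha' hne G₁ G₂ G₃ t₁ t₂ t₃ c1 c2 c3 d12 d13 d23 u₁ m1 u₂ m2 u₃ m3 w₁ n1 w₂ n2 w₃ n3
      hu hw := by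
    have key : ∀ {b : σ} {u : ν} {G : Finset ν}, u ∈ G → (T.con Tp top S').inc b u →
        T.pk top b u ∈ T.V.filter fun v => top v ∈ G := fun hm hi =>
      Finset.mem_filter.2 ⟨(SyD_pk hi).1, by rwa [(SyD_pk hi).2.1]⟩
    exact h.th a (hS ha) a' (hS ha') hne _ _ _ t₁ t₂ t₃ (SyD_lift d h c1) (SyD_lift d h c2)
      (SyD_lift d h c3) (SyD_disj d12) (SyD_disj d13) (SyD_disj d23)
      _ (key m1 hu.1) _ (key m2 hu.2.1) _ (key m3 hu.2.2.1)
      _ (key n1 hw.1) _ (key n2 hw.2.1) _ (key n3 hw.2.2.1)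
      ⟨(SyD_pk hu.1).2.2, (SyD_pk hu.2.1).2.2, (SyD_pk hu.2.2.1).2.2, hu.2.2.2.1, hu.2.2.2.2⟩
      ⟨(SyD_pk hw.1).2.2, (SyD_pk hw.2.1).2.2, (SyD_pk hw.2.2.1).2.2, hw.2.2.2.1, hw.2.2.2.2⟩

open Classical in
omit [DecidableEq ν] [DecidableEq σ] in
theorem SyD_cnt (T : Sy ν σ) (P : Finset ν) (S' : Finset σ) :
    T.cnt P S' = ∑ v ∈ P, (S'.filter fun a => T.inc a v).card := by
  unfold cnt
  rw [Finset.card_filter, Finset.sum_product_right]
  exact Finset.sum_congr rfl fun v _ => (Finset.card_filter _ _).symm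

omit [DecidableEq ν] [DecidableEq σ] in
theorem SyD_cnt_empty (T : Sy ν σ) (P : Finset ν) : T.cnt P (∅ : Finset σ) = 0 := by
  simp [SyD_cnt]

omit [DecidableEq ν] [DecidableEq σ] in
/-- Symbols without a touch may be dropped. -/
theorem SyD_cnt_le (P : Finset ν) {S₁ S₂ : Finset σ}
    (hS : ∀ a ∈ S₁, ∀ v ∈ P, T.inc a v → a ∈ S₂) : T.cnt P S₁ ≤ T.cnt P S₂ := by
  rw [SyD_cnt, SyD_cnt]
  refine Finset.sum_le_sum fun v hv => Finset.card_le_card fun a ha => ?_
  simp only [Finset.mem_filter] at ha ⊢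
  exact ⟨hS a ha.1 v hv ha.2, ha.2⟩

/-- The children of a piece are tops. -/
theorem SyD_parts (d : T.Dec s Tp top) (h : T.Ok) {t : ν} (ht : t ∈ Tp) :
    ∃ (κ : ν → ν) (K : Finset ν), K.card ≤ 5 ∧
      ∀ w ∈ T.V \ (T.V.filter fun v => top v = t), κ w ∈ K ∧
        T.Conn ((T.V \ (T.V.filter fun v => top v = t)).filter fun w' => κ w' = κ w) (κ w) := by
  refine parts h (d.conn h ht) (conn_V h) (Finset.filter_subset _ _) (le_trans
    (Finset.card_le_card fun c hc => ?_) (d.ch t))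
  simp only [Finset.mem_filter, not_and] at hc ⊢
  obtain ⟨h1, h2, h3, h4, h5⟩ := hc
  refine ⟨?_, h3, h5⟩
  by_contra h6
  exact h2 h1 ((d.step c h1 h6).trans h5)

/-- Symbols with a touch outside a connected set. -/
theorem SyD_ends (h : T.Ok) {P K : Finset ν} {t : ν} (hP : T.Conn P t) {κ : ν → ν}
    (hK : K.card ≤ 5) (hκ : ∀ w ∈ T.V \ P, κ w ∈ K ∧
      T.Conn ((T.V \ P).filter fun w' => κ w' = κ w) (κ w)) {E : Finset σ} (hE : E ⊆ T.S)
    (ho : ∀ a ∈ E, ∃ u ∈ T.V \ P, T.inc a u) : T.cnt P E ≤ 4 * E.card + 250 * P.card := by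
  have : Nonempty ν := ⟨t⟩
  choose! o o1 o2 using ho
  have hm : ∀ a ∈ E, κ (o a) ∈ K := fun a ha => (hκ _ (o1 a ha)).1
  refine (cnt_le_sum P E K (fun a => κ (o a)) hm).trans ?_
  have key : ∀ k ∈ K, T.cnt P (E.filter fun a => κ (o a) = k) ≤
      4 * (E.filter fun a => κ (o a) = k).card + 50 * P.card := by
    intro k _
    rcases (E.filter fun a => κ (o a) = k).eq_empty_or_nonempty with h0 | ⟨a₀, h0⟩
    · rw [h0, SyD_cnt_empty]
      exact Nat.zero_le _
    · obtain ⟨h1, rfl⟩ := Finset.mem_filter.1 h0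
      refine ends h hP (hκ _ (o1 a₀ h1)).2 (Finset.disjoint_left.2 fun w hw => ?_)
        ((Finset.filter_subset _ _).trans hE) fun a ha => ?_
      · exact (Finset.mem_sdiff.1 (Finset.mem_filter.1 hw).1).2
      · obtain ⟨h2, h3⟩ := Finset.mem_filter.1 ha
        exact ⟨o a, Finset.mem_filter.2 ⟨o1 a h2, h3⟩, o2 a h2⟩
  refine (Finset.sum_le_sum key).trans ?_
  rw [Finset.sum_add_distrib, ← Finset.mul_sum, ← Finset.card_eq_sum_card_fiberwise hm,
    Finset.sum_const, smul_eq_mul]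
  nlinarith

open Classical in
/-- Symbols whose first and last touch lie outside a connected set. -/
theorem SyD_through (h : T.Ok) {P K : Finset ν} {t : ν} (hP : T.Conn P t) {κ : ν → ν}
    (hK : K.card ≤ 5) (hκ : ∀ w ∈ T.V \ P, κ w ∈ K ∧
      T.Conn ((T.V \ P).filter fun w' => κ w' = κ w) (κ w)) {F : Finset σ} (hF : F ⊆ T.S)
    (A B : σ → ν)
    (hA : ∀ a ∈ F, A a ∈ T.V \ P ∧ T.inc a (A a) ∧ ∀ v ∈ T.V, T.inc a v → T.x a (A a) ≤ T.x a v)
    (hB : ∀ a ∈ F, B a ∈ T.V \ P ∧ T.inc a (B a) ∧ ∀ v ∈ T.V, T.inc a v → T.x a v ≤ T.x a (B a)) :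
    T.cnt P F ≤ (F.filter fun a => ∃ v ∈ P, T.inc a v).card + 125 * P.card := by
  have hm : ∀ a ∈ F, (κ (A a), κ (B a)) ∈ K ×ˢ K := fun a ha =>
    Finset.mem_product.2 ⟨(hκ _ (hA a ha).1).1, (hκ _ (hB a ha).1).1⟩
  refine (cnt_le_sum P F (K ×ˢ K) (fun a => (κ (A a), κ (B a))) hm).trans ?_
  have dj : ∀ w, Disjoint ((T.V \ P).filter fun w' => κ w' = κ w) P := fun w =>
    Finset.disjoint_left.2 fun w' hw => (Finset.mem_sdiff.1 (Finset.mem_filter.1 hw).1).2
  have key : ∀ k ∈ K ×ˢ K, T.cnt P (F.filter fun a => (κ (A a), κ (B a)) = k) ≤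
      ((F.filter fun a => ∃ v ∈ P, T.inc a v).filter fun a => (κ (A a), κ (B a)) = k).card +
        5 * P.card := by
    intro k _
    rcases (F.filter fun a => (κ (A a), κ (B a)) = k).eq_empty_or_nonempty with h0 | ⟨a₀, h0⟩
    · rw [h0, SyD_cnt_empty]
      exact Nat.zero_le _
    · obtain ⟨h1, rfl⟩ := Finset.mem_filter.1 h0
      refine (through h hP (hκ _ (hA a₀ h1).1).2 (hκ _ (hB a₀ h1).1).2 (dj _) (dj _)
        ((Finset.filter_subset _ _).trans hF) (fun a ha => ?_) fun a ha => ?_).trans ?_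
      · obtain ⟨h2, h3⟩ := Finset.mem_filter.1 ha
        obtain ⟨h4, h5, h6⟩ := hA a h2
        refine ⟨A a, Finset.mem_filter.2 ⟨h4, congrArg Prod.fst h3⟩, h5, fun v hv hi => ?_⟩
        refine (h6 v (hP.1 hv) hi).lt_of_ne fun e => (Finset.mem_sdiff.1 h4).2 ?_
        rwa [h.inj a (hF h2) _ (Finset.mem_sdiff.1 h4).1 v (hP.1 hv) h5 hi e]
      · obtain ⟨h2, h3⟩ := Finset.mem_filter.1 ha
        obtain ⟨h4, h5, h6⟩ := hB a h2
        refine ⟨B a, Finset.mem_filter.2 ⟨h4, congrArg Prod.snd h3⟩, h5, fun v hv hi => ?_⟩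
        refine (h6 v (hP.1 hv) hi).lt_of_ne fun e => (Finset.mem_sdiff.1 h4).2 ?_
        rwa [h.inj a (hF h2) _ (Finset.mem_sdiff.1 h4).1 v (hP.1 hv) h5 hi e.symm]
      · refine Nat.add_le_add_right (Finset.card_le_card fun a ha => ?_) _
        simp only [Finset.mem_filter] at ha ⊢
        exact ⟨⟨ha.1.1, ha.2⟩, ha.1.2⟩
  refine (Finset.sum_le_sum key).trans ?_
  rw [Finset.sum_add_distrib, ← Finset.card_eq_sum_card_fiberwise
    (fun a ha => hm a (Finset.mem_filter.1 ha).1), Finset.sum_const, smul_eq_mul,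
    Finset.card_product]
  have : K.card * K.card ≤ 25 := Nat.mul_le_mul hK hK
  nlinarith

theorem Dec.step_le (d : T.Dec s Tp top) (h : T.Ok) :
    ∃ (L : ν → Finset σ) (Gl : Finset σ), (∀ t, L t ⊆ T.S) ∧ Gl ⊆ T.S ∧
      ∑ t ∈ Tp, (L t).card + Gl.card ≤ T.S.card ∧
      T.cnt T.V T.S ≤ ∑ t ∈ Tp, T.cnt (T.V.filter fun v => top v = t) (L t) +
        (T.con Tp top Gl).cnt Tp Gl + 8 * Gl.card + 375 * T.V.card := by
  classical
  obtain ⟨Gl, hGl⟩ : ∃ Gl : Finset σ, ∀ a, a ∈ Gl ↔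
      a ∈ T.S ∧ ∃ u ∈ T.V, ∃ v ∈ T.V, T.inc a u ∧ T.inc a v ∧ top u ≠ top v :=
    ⟨T.S.filter _, fun _ => Finset.mem_filter⟩
  have hGS : Gl ⊆ T.S := fun a ha => ((hGl a).1 ha).1
  have hloc : ∀ a ∈ T.S \ Gl, ∃ t ∈ Tp, ∀ v ∈ T.V, T.inc a v → top v = t := by
    intro a ha
    obtain ⟨h1, h2⟩ := Finset.mem_sdiff.1 ha
    by_cases h3 : ∃ u ∈ T.V, T.inc a u
    · obtain ⟨u, hu, h4⟩ := h3
      refine ⟨top u, d.top_mem h u hu, fun v hv h5 => ?_⟩
      by_contra h6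
      exact h2 ((hGl a).2 ⟨h1, v, hv, u, hu, h5, h4, h6⟩)
    · exact ⟨T.r, d.root, fun v hv h4 => absurd ⟨v, hv, h4⟩ h3⟩
  have : Nonempty ν := ⟨T.r⟩
  choose! loc l1 l2 using hloc
  have hne : ∀ a ∈ Gl, (T.V.filter fun v => T.inc a v).Nonempty := fun a ha => by
    obtain ⟨-, u, hu, -, -, h1, -⟩ := (hGl a).1 ha
    exact ⟨u, Finset.mem_filter.2 ⟨hu, h1⟩⟩
  have hA : ∀ a ∈ Gl, ∃ u, u ∈ T.V ∧ T.inc a u ∧ ∀ v ∈ T.V, T.inc a v → T.x a u ≤ T.x a v := by
    intro a ha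
    obtain ⟨u, h1, h2⟩ := Finset.exists_min_image _ (T.x a) (hne a ha)
    exact ⟨u, (Finset.mem_filter.1 h1).1, (Finset.mem_filter.1 h1).2,
      fun v hv hi => h2 v (Finset.mem_filter.2 ⟨hv, hi⟩)⟩
  have hB : ∀ a ∈ Gl, ∃ u, u ∈ T.V ∧ T.inc a u ∧ ∀ v ∈ T.V, T.inc a v → T.x a v ≤ T.x a u := by
    intro a ha
    obtain ⟨u, h1, h2⟩ := Finset.exists_max_image _ (T.x a) (hne a ha)
    exact ⟨u, (Finset.mem_filter.1 h1).1, (Finset.mem_filter.1 h1).2,
      fun v hv hi => h2 v (Finset.mem_filter.2 ⟨hv, hi⟩)⟩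
  choose! A hA using hA
  choose! B hB using hB
  refine ⟨fun t => (T.S \ Gl).filter fun a => loc a = t, Gl,
    fun t => (Finset.filter_subset _ _).trans Finset.sdiff_subset, hGS, ?_, ?_⟩
  · rw [← Finset.card_eq_sum_card_fiberwise l1, Finset.card_sdiff_add_card_eq_card hGS]
  have key : ∀ t ∈ Tp, T.cnt (T.V.filter fun v => top v = t) T.S ≤
      T.cnt (T.V.filter fun v => top v = t) ((T.S \ Gl).filter fun a => loc a = t) +
        (Gl.filter fun a => (T.con Tp top Gl).inc a t).card +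
        4 * ((Gl.filter fun a => top (A a) = t).card + (Gl.filter fun a => top (B a) = t).card) +
        375 * (T.V.filter fun v => top v = t).card := by
    intro t ht
    obtain ⟨κ, K, hK, hκ⟩ := SyD_parts d h ht
    have h1 := SyD_ends h (d.conn h ht) hK hκ
      (E := Gl.filter fun a => top (A a) = t ∨ top (B a) = t)
      ((Finset.filter_subset _ _).trans hGS) (fun a ha => by
        obtain ⟨-, u, hu, v, hv, h1, h2, h3⟩ := (hGl a).1 (Finset.mem_filter.1 ha).1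
        by_cases h4 : top u = t
        · exact ⟨v, Finset.mem_sdiff.2 ⟨hv, fun h5 =>
            h3 (h4.trans (Finset.mem_filter.1 h5).2.symm)⟩, h2⟩
        · exact ⟨u, Finset.mem_sdiff.2 ⟨hu, fun h5 => h4 (Finset.mem_filter.1 h5).2⟩, h1⟩)
    have h2 := SyD_through h (d.conn h ht) hK hκ
      (F := Gl.filter fun a => ¬ (top (A a) = t ∨ top (B a) = t))
      ((Finset.filter_subset _ _).trans hGS) A B (fun a ha => by
        obtain ⟨h2, h3⟩ := Finset.mem_filter.1 ha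
        exact ⟨Finset.mem_sdiff.2 ⟨(hA a h2).1, fun h4 =>
          h3 (Or.inl (Finset.mem_filter.1 h4).2)⟩, (hA a h2).2⟩) (fun a ha => by
        obtain ⟨h2, h3⟩ := Finset.mem_filter.1 ha
        exact ⟨Finset.mem_sdiff.2 ⟨(hB a h2).1, fun h4 =>
          h3 (Or.inr (Finset.mem_filter.1 h4).2)⟩, (hB a h2).2⟩)
    have h3 : (Gl.filter fun a => top (A a) = t ∨ top (B a) = t).card ≤
        (Gl.filter fun a => top (A a) = t).card + (Gl.filter fun a => top (B a) = t).card := by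
      rw [Finset.filter_or]
      exact Finset.card_union_le _ _
    have h4 : ((Gl.filter fun a => ¬ (top (A a) = t ∨ top (B a) = t)).filter
        fun a => ∃ v ∈ T.V.filter fun v => top v = t, T.inc a v).card ≤
          (Gl.filter fun a => (T.con Tp top Gl).inc a t).card := by
      refine Finset.card_le_card fun a ha => ?_
      obtain ⟨h4, v, h5, h6⟩ := Finset.mem_filter.1 ha
      exact Finset.mem_filter.2 ⟨(Finset.mem_filter.1 h4).1, v, (Finset.mem_filter.1 h5).1,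
        (Finset.mem_filter.1 h5).2, h6⟩
    have h5 : T.cnt (T.V.filter fun v => top v = t) T.S ≤
        T.cnt (T.V.filter fun v => top v = t) (((T.S \ Gl).filter fun a => loc a = t) ∪
          ((Gl.filter fun a => top (A a) = t ∨ top (B a) = t) ∪
            Gl.filter fun a => ¬ (top (A a) = t ∨ top (B a) = t))) := by
      refine SyD_cnt_le _ fun a ha v hv hi => ?_
      rw [Finset.filter_union_filter_not_eq]
      by_cases h5 : a ∈ Gl
      · exact Finset.mem_union_right _ h5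
      · have h6 := Finset.mem_sdiff.2 ⟨ha, h5⟩
        exact Finset.mem_union_left _ (Finset.mem_filter.2 ⟨h6,
          (l2 a h6 v (Finset.mem_filter.1 hv).1 hi).symm.trans (Finset.mem_filter.1 hv).2⟩)
    have h6 := h5.trans ((cnt_union_le _ _ _).trans (Nat.add_le_add_left (cnt_union_le _ _ _) _))
    omega
  have e1 : T.cnt T.V T.S = ∑ t ∈ Tp, T.cnt (T.V.filter fun v => top v = t) T.S := by
    simp only [SyD_cnt]
    exact (Finset.sum_fiberwise_of_maps_to (d.top_mem h) _).symm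
  have e2 := Finset.card_eq_sum_card_fiberwise (f := fun a => top (A a)) (s := Gl) (t := Tp)
    fun a ha => d.top_mem h _ (hA a ha).1
  have e3 := Finset.card_eq_sum_card_fiberwise (f := fun a => top (B a)) (s := Gl) (t := Tp)
    fun a ha => d.top_mem h _ (hB a ha).1
  have e4 := Finset.card_eq_sum_card_fiberwise (f := top) (s := T.V) (t := Tp) (d.top_mem h)
  have e5 := Finset.sum_le_sum key
  simp only [Finset.sum_add_distrib, ← Finset.mul_sum] at e5
  rw [← e1, ← e2, ← e3, ← e4, ← SyD_cnt] at e5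
  beta_reduce
  omega

end Sy

end SA
end

-- part: SyE
section
/-!
# The inverse Ackermann bound

`claim`: induction on `k`, inside on `j`, for all systems.  `k = 0`: `base` (`ack_zero`).
`(k + 1, 0)` is `(k, 1)` (`ack_succ_zero`).  `(k + 1, j + 1)`: let `a = ack (k + 1) j`, `s = 44 a`.
If `|V| ≤ s` use `(k + 1, j)`.  Otherwise `exists_dec`, `step_le`; the pieces are handled by
`(k + 1, j)` (`Ok.res`, `cnt_res`, the sizes of the pieces add up to `|V|`), the contracted system by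
`(k, a)` (`ack_succ_succ`, `|Tp| ≤ |V|`), with `4 a |Tp| ≤ |V|` and `k + 1 ≤ a`
(`add_add_one_le_ack`), so `2200 (a + k + 1) |Tp| ≤ 1100 |V|`.

`bfs`: `rk v` = the least length of a walk from `r` (`Nat.find`), `par v` = a neighbour with a
smaller rank.

`graph_bound`: build the system from `bfs`; children are neighbours; a set that is `Conn` is
connected in the graph (every node is joined to the top inside the set, by induction on the rank).
-/

namespace SA

variable {ν σ : Type} [DecidableEq ν] [DecidableEq σ]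

theorem Sy.claim (k j : ℕ) (T : Sy ν σ) (h : T.Ok) (hm : T.V.card ≤ 44 * ack k j) :
    T.cnt T.V T.S ≤ (5 + 8 * k) * T.S.card + 2200 * (j + k + 1) * T.V.card := by
  induction k generalizing j T with
  | zero =>
    have hb := Sy.base h
    rw [ack_zero] at hm
    have h1 : T.V.card * T.V.card ≤ 44 * (j + 1) * T.V.card := Nat.mul_le_mul_right _ hm
    nlinarith
  | succ k ihk =>
    induction j generalizing T with
    | zero =>
      rw [ack_succ_zero] at hm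
      have h1 := ihk 1 T h hm
      nlinarith [Nat.zero_le T.S.card]
    | succ j ihj =>
      rw [ack_succ_succ] at hm
      have ha := add_add_one_le_ack (k + 1) j
      generalize ack (k + 1) j = a at hm ha ihj
      by_cases hs : T.V.card ≤ 44 * a
      · have h1 := ihj T h hs
        nlinarith [Nat.zero_le T.V.card]
      · obtain ⟨Tp, top, d⟩ := Sy.exists_dec (s := 44 * a) h (by omega) (by omega)
        obtain ⟨L, Gl, hL, hGl, hsum, hle⟩ := d.step_le h
        have h1 : ∀ t ∈ Tp, T.cnt (T.V.filter fun v => top v = t) (L t) ≤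
            (5 + 8 * (k + 1)) * (L t).card +
              2200 * (j + (k + 1) + 1) * (T.V.filter fun v => top v = t).card :=
          fun t ht => ihj (T.res _ t (L t)) (h.res (d.conn h ht) (hL t)) (d.size t ht)
        have h2 := Finset.sum_le_sum h1
        rw [Finset.sum_add_distrib, ← Finset.mul_sum, ← Finset.mul_sum,
          ← Finset.card_eq_sum_card_fiberwise (f := top) (fun v hv => d.top_mem h v hv)] at h2
        have h3 : (T.con Tp top Gl).cnt Tp Gl ≤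
            (5 + 8 * k) * Gl.card + 2200 * (a + k + 1) * Tp.card :=
          ihk a (T.con Tp top Gl) (d.ok h hGl) ((Finset.card_le_card d.sub).trans hm)
        have h4 := d.num
        have h5 : (k + 1) * Tp.card ≤ a * Tp.card := Nat.mul_le_mul_right _ (by omega)
        have h6 := Nat.mul_le_mul_left (5 + 8 * (k + 1)) hsum
        generalize ∑ t ∈ Tp, (L t).card = A at *
        nlinarith

omit [DecidableEq σ] in
theorem bfs (V : Finset ν) (Γ : ν → ν → Prop) (r : ν)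
    (hc : ∀ v ∈ V, Relation.ReflTransGen (fun a b => b ∈ V ∧ Γ a b) r v) (hr : r ∈ V) :
    ∃ (par : ν → ν) (rk : ν → ℕ), ∀ v ∈ V, v ≠ r → par v ∈ V ∧ Γ (par v) v ∧ rk (par v) < rk v := by
  classical
  let W : ℕ → ν → Prop := fun n => Nat.rec (fun v => v = r)
    (fun _ ih v => ∃ u, u ∈ V ∧ ih u ∧ Γ u v) n
  have hW : ∀ v, Relation.ReflTransGen (fun a b => b ∈ V ∧ Γ a b) r v → v ∈ V ∧ ∃ n, W n v := by
    intro v hv
    induction hv with
    | refl => exact ⟨hr, 0, rfl⟩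
    | tail _ hbc ih =>
      obtain ⟨hb, n, hn⟩ := ih
      exact ⟨hbc.1, n + 1, _, hb, hn, hbc.2⟩
  let rk : ν → ℕ := fun v => sInf {n | W n v}
  have key : ∀ v, ∃ u, v ∈ V → v ≠ r → u ∈ V ∧ Γ u v ∧ rk u < rk v := by
    intro v
    by_cases hv : v ∈ V ∧ v ≠ r
    · have h1 : W (rk v) v := Nat.sInf_mem (s := {n | W n v}) (hW v (hc v hv.1)).2
      cases hn : rk v with
      | zero =>
        rw [hn] at h1
        exact absurd h1 hv.2
      | succ n =>
        rw [hn] at h1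
        obtain ⟨u, hu, h2, h3⟩ := h1
        exact ⟨u, fun _ _ => ⟨hu, h3, Nat.lt_succ_of_le (Nat.sInf_le (s := {n | W n u}) h2)⟩⟩
    · exact ⟨v, fun h1 h2 => absurd ⟨h1, h2⟩ hv⟩
  choose par hpar using key
  exact ⟨par, rk, hpar⟩

/-- Connected in the graph `Γ`. -/
def GConn (Γ : ν → ν → Prop) (G : Finset ν) : Prop :=
  ∃ t ∈ G, ∀ v ∈ G, Relation.ReflTransGen (fun a b => a ∈ G ∧ b ∈ G ∧ Γ a b) t v

open Classical in
theorem graph_bound (V : Finset ν) (Γ : ν → ν → Prop) (r : ν) (S : Finset σ) (inc : σ → ν → Prop)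
    (x : σ → ν → ℝ) (ζ : σ → σ → ℝ) (hr : r ∈ V)
    (hc : ∀ v ∈ V, Relation.ReflTransGen (fun a b => b ∈ V ∧ Γ a b) r v)
    (hd : ∀ u ∈ V, ∃ N : Finset ν, N.card ≤ 4 ∧ ∀ v ∈ V, Γ u v → v ∈ N)
    (inj : ∀ s ∈ S, ∀ u ∈ V, ∀ v ∈ V, inc s u → inc s v → x s u = x s v → u = v)
    (sym : ∀ s s', ζ s s' = ζ s' s)
    (th : ∀ s ∈ S, ∀ s' ∈ S, s ≠ s' → ∀ G₁ ⊆ V, ∀ G₂ ⊆ V, ∀ G₃ ⊆ V, GConn Γ G₁ → GConn Γ G₂ →
      GConn Γ G₃ → Disjoint G₁ G₂ → Disjoint G₁ G₃ → Disjoint G₂ G₃ →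
      ∀ u₁ ∈ G₁, ∀ u₂ ∈ G₂, ∀ u₃ ∈ G₃, ∀ w₁ ∈ G₁, ∀ w₂ ∈ G₂, ∀ w₃ ∈ G₃,
        inc s u₁ → inc s u₂ → inc s u₃ → x s u₁ < x s u₂ → x s u₂ < x s u₃ →
        inc s' w₁ → inc s' w₂ → inc s' w₃ → x s' w₁ < x s' w₂ → x s' w₂ < x s' w₃ →
          (x s u₁ < ζ s s' ∧ ζ s s' < x s u₂ ∧ x s' w₂ < ζ s s' ∧ ζ s s' < x s' w₃) ∨
          (x s' w₁ < ζ s s' ∧ ζ s s' < x s' w₂ ∧ x s u₂ < ζ s s' ∧ ζ s s' < x s u₃))
    {k : ℕ} (hk : V.card ≤ 44 * ack k k) :
    ((S ×ˢ V).filter fun a => inc a.1 a.2).card ≤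
      (5 + 8 * k) * S.card + 2200 * (2 * k + 1) * V.card := by
  obtain ⟨par, rk, hp⟩ := bfs V Γ r hc hr
  have hG : ∀ G t, (⟨V, r, par, rk, S, inc, x, ζ⟩ : Sy ν σ).Conn G t → GConn Γ G := by
    rintro G t ⟨h1, h2, h3⟩
    refine ⟨t, h2, fun v => ?_⟩
    induction hn : rk v using Nat.strong_induction_on generalizing v with
    | _ n ih =>
      intro hv
      by_cases e : v = t
      · rw [e]
      · obtain ⟨h4, h5⟩ := h3 v hv e
        obtain ⟨-, h6, h7⟩ := hp v (h1 hv) h4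
        exact (ih _ (hn ▸ h7) _ rfl h5).tail ⟨h5, hv, h6⟩
  have ok : (⟨V, r, par, rk, S, inc, x, ζ⟩ : Sy ν σ).Ok := by
    refine ⟨hr, fun v hv e => ⟨(hp v hv e).1, (hp v hv e).2.2⟩, fun u => ?_, inj, sym, ?_⟩
    · by_cases hu : u ∈ V
      · obtain ⟨N, h1, h2⟩ := hd u hu
        refine (Finset.card_le_card fun v hv => ?_).trans h1
        obtain ⟨h3, h4, h5⟩ := Finset.mem_filter.1 hv
        exact h2 v h3 (h5 ▸ (hp v h3 h4).2.1)
      · refine (Finset.card_le_card (t := ∅) fun v hv => ?_).trans (by simp)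
        obtain ⟨h3, h4, h5⟩ := Finset.mem_filter.1 hv
        exact absurd (h5 ▸ (hp v h3 h4).1) hu
    · intro s hs s' hs' ne G₁ G₂ G₃ t₁ t₂ t₃ c₁ c₂ c₃ d₁ d₂ d₃ u₁ a₁ u₂ a₂ u₃ a₃ w₁ b₁ w₂ b₂ w₃ b₃
        p q
      exact th s hs s' hs' ne G₁ c₁.1 G₂ c₂.1 G₃ c₃.1 (hG _ _ c₁) (hG _ _ c₂) (hG _ _ c₃) d₁ d₂ d₃
        u₁ a₁ u₂ a₂ u₃ a₃ w₁ b₁ w₂ b₂ w₃ b₃ p.1 p.2.1 p.2.2.1 p.2.2.2.1 p.2.2.2.2
        q.1 q.2.1 q.2.2.1 q.2.2.2.1 q.2.2.2.2
  have h := Sy.claim k k _ ok hk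
  rw [two_mul]
  exact h

end SA
end

-- part: Ex
section
/-!
# Expectations over Bernoulli samples

Prove `Ex_insert` from `Finset.sum_powerset_insert`; most of the other statements follow by
`Finset.induction_on` on `A`, generalizing the function.
-/

namespace SA

variable {J : Type} [DecidableEq J]

/-- The expectation of `f R` when every element of `A` is put into `R` with probability `ρ`. -/
def Ex (A : Finset J) (ρ : ℝ) (f : Finset J → ℝ) : ℝ :=
  ∑ R ∈ A.powerset, ρ ^ R.card * (1 - ρ) ^ (A.card - R.card) * f R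

variable {A : Finset J} {ρ : ℝ} {f g : Finset J → ℝ}

omit [DecidableEq J] in
theorem Ex_empty (ρ : ℝ) (f : Finset J → ℝ) : Ex ∅ ρ f = f ∅ := by
  simp [Ex]

theorem Ex_insert {a : J} (ha : a ∉ A) (ρ : ℝ) (f : Finset J → ℝ) :
    Ex (insert a A) ρ f = ρ * Ex A ρ (fun R => f (insert a R)) + (1 - ρ) * Ex A ρ f := by
  unfold Ex
  rw [Finset.sum_powerset_insert ha, Finset.mul_sum, Finset.mul_sum, add_comm,
    Finset.card_insert_of_notMem ha]
  congr 1
  · refine Finset.sum_congr rfl fun R hR => ?_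
    have h1 : a ∉ R := fun h => ha (Finset.mem_powerset.1 hR h)
    rw [Finset.card_insert_of_notMem h1, Nat.add_sub_add_right]
    ring
  · refine Finset.sum_congr rfl fun R hR => ?_
    rw [Nat.succ_sub (Finset.card_le_card (Finset.mem_powerset.1 hR)), pow_succ]
    ring

omit [DecidableEq J] in
theorem Ex_congr (h : ∀ R ⊆ A, f R = g R) : Ex A ρ f = Ex A ρ g := by
  exact Finset.sum_congr rfl fun R hR => by rw [h R (Finset.mem_powerset.1 hR)]

theorem Ex_const (A : Finset J) (ρ c : ℝ) : Ex A ρ (fun _ => c) = c := by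
  induction A using Finset.induction_on with
  | empty => exact Ex_empty _ _
  | insert a A ha ih => rw [Ex_insert ha, ih]; ring

omit [DecidableEq J] in
theorem Ex_add (A : Finset J) (ρ : ℝ) (f g : Finset J → ℝ) :
    Ex A ρ (fun R => f R + g R) = Ex A ρ f + Ex A ρ g := by
  simp only [Ex, mul_add, Finset.sum_add_distrib]

omit [DecidableEq J] in
theorem Ex_sub (A : Finset J) (ρ : ℝ) (f g : Finset J → ℝ) :
    Ex A ρ (fun R => f R - g R) = Ex A ρ f - Ex A ρ g := by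
  simp only [Ex, mul_sub, Finset.sum_sub_distrib]

omit [DecidableEq J] in
theorem Ex_mul (A : Finset J) (ρ c : ℝ) (f : Finset J → ℝ) :
    Ex A ρ (fun R => c * f R) = c * Ex A ρ f := by
  simp only [Ex, Finset.mul_sum]
  exact Finset.sum_congr rfl fun R _ => by ring

omit [DecidableEq J] in
theorem Ex_sum {κ : Type} (A : Finset J) (ρ : ℝ) (T : Finset κ) (f : κ → Finset J → ℝ) :
    Ex A ρ (fun R => ∑ k ∈ T, f k R) = ∑ k ∈ T, Ex A ρ (f k) := by
  simp only [Ex, Finset.mul_sum]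
  exact Finset.sum_comm

omit [DecidableEq J] in
theorem Ex_mono (h0 : 0 ≤ ρ) (h1 : ρ ≤ 1) (h : ∀ R ⊆ A, f R ≤ g R) : Ex A ρ f ≤ Ex A ρ g := by
  exact Finset.sum_le_sum fun R hR => mul_le_mul_of_nonneg_left (h R (Finset.mem_powerset.1 hR))
    (mul_nonneg (pow_nonneg h0 _) (pow_nonneg (sub_nonneg.2 h1) _))

omit [DecidableEq J] in
theorem Ex_nonneg (h0 : 0 ≤ ρ) (h1 : ρ ≤ 1) (h : ∀ R ⊆ A, 0 ≤ f R) : 0 ≤ Ex A ρ f := by
  exact Finset.sum_nonneg fun R hR => mul_nonneg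
    (mul_nonneg (pow_nonneg h0 _) (pow_nonneg (sub_nonneg.2 h1) _)) (h R (Finset.mem_powerset.1 hR))

theorem Ex_card (A : Finset J) (ρ : ℝ) : Ex A ρ (fun R => (R.card : ℝ)) = ρ * A.card := by
  induction A using Finset.induction_on with
  | empty => simp [Ex_empty]
  | insert a A ha ih =>
    have e : Ex A ρ (fun R => ((insert a R).card : ℝ)) = Ex A ρ fun R => (R.card : ℝ) + 1 :=
      Ex_congr fun R hR => by
        rw [Finset.card_insert_of_notMem fun h => ha (hR h)]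
        push_cast
        rfl
    rw [Ex_insert ha, e, Ex_add, ih, Ex_const, Finset.card_insert_of_notMem ha]
    push_cast
    ring

theorem Ex_choose (A : Finset J) (ρ : ℝ) (k : ℕ) :
    Ex A ρ (fun R => (R.card.choose k : ℝ)) = ρ ^ k * A.card.choose k := by
  induction A using Finset.induction_on generalizing k with
  | empty => cases k <;> simp [Ex_empty]
  | insert a A ha ih =>
    cases k with
    | zero => simp [Ex_const]
    | succ k =>
      have e : Ex A ρ (fun R => ((insert a R).card.choose (k + 1) : ℝ)) =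
          Ex A ρ fun R => (R.card.choose k : ℝ) + R.card.choose (k + 1) :=
        Ex_congr fun R hR => by
          rw [Finset.card_insert_of_notMem fun h => ha (hR h), Nat.choose_succ_succ']
          push_cast
          rfl
      rw [Ex_insert ha, e, Ex_add, ih, ih, Finset.card_insert_of_notMem ha, Nat.choose_succ_succ']
      push_cast
      ring

/-- The probability that `I` is chosen and `Y` is avoided. -/
theorem Ex_ind {I Y : Finset J} (hI : I ⊆ A) (hY : Y ⊆ A) (h : Disjoint I Y) (ρ : ℝ) :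
    Ex A ρ (fun R => if I ⊆ R ∧ Disjoint Y R then 1 else 0) =
      ρ ^ I.card * (1 - ρ) ^ Y.card := by
  induction A using Finset.induction_on generalizing I Y with
  | empty =>
    rw [Finset.subset_empty] at hI hY
    subst hI hY
    simp [Ex_empty]
  | insert a A ha ih =>
    rw [Ex_insert ha]
    by_cases h1 : a ∈ I
    · have h2 : a ∉ Y := Finset.disjoint_left.1 h h1
      have e1 : Ex A ρ (fun R => if I ⊆ insert a R ∧ Disjoint Y (insert a R) then 1 else 0) =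
          Ex A ρ fun R => if I.erase a ⊆ R ∧ Disjoint Y R then 1 else 0 :=
        Ex_congr fun R _ => by
          simp only [Finset.subset_insert_iff, Finset.disjoint_insert_right, h2, not_false_eq_true,
            true_and]
      have e2 : Ex A ρ (fun R => if I ⊆ R ∧ Disjoint Y R then 1 else 0) = Ex A ρ fun _ => 0 :=
        Ex_congr fun R hR => if_neg fun h' => ha (hR (h'.1 h1))
      rw [e1, e2, Ex_const, ih (Finset.subset_insert_iff.1 hI)
        ((Finset.subset_insert_iff_of_notMem h2).1 hY)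
        (Finset.disjoint_of_subset_left (Finset.erase_subset _ _) h),
        ← Finset.card_erase_add_one h1]
      ring
    · have hI' := (Finset.subset_insert_iff_of_notMem h1).1 hI
      by_cases h2 : a ∈ Y
      · have e1 : Ex A ρ (fun R => if I ⊆ insert a R ∧ Disjoint Y (insert a R) then 1 else 0) =
            Ex A ρ fun _ => 0 :=
          Ex_congr fun R _ => if_neg fun h' => (Finset.disjoint_insert_right.1 h'.2).1 h2
        have e2 : Ex A ρ (fun R => if I ⊆ R ∧ Disjoint Y R then 1 else 0) =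
            Ex A ρ fun R => if I ⊆ R ∧ Disjoint (Y.erase a) R then 1 else 0 :=
          Ex_congr fun R hR => by
            have : Disjoint Y R ↔ Disjoint (Y.erase a) R := by
              conv_lhs => rw [← Finset.insert_erase h2, Finset.disjoint_insert_left]
              exact and_iff_right fun h' => ha (hR h')
            simp only [this]
        rw [e1, e2, Ex_const, ih hI' (Finset.subset_insert_iff.1 hY)
          (Finset.disjoint_of_subset_right (Finset.erase_subset _ _) h),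
          ← Finset.card_erase_add_one h2]
        ring
      · have e1 : Ex A ρ (fun R => if I ⊆ insert a R ∧ Disjoint Y (insert a R) then 1 else 0) =
            Ex A ρ fun R => if I ⊆ R ∧ Disjoint Y R then 1 else 0 :=
          Ex_congr fun R _ => by
            simp only [Finset.subset_insert_iff_of_notMem h1, Finset.disjoint_insert_right, h2,
              not_false_eq_true, true_and]
        rw [e1, ih hI' ((Finset.subset_insert_iff_of_notMem h2).1 hY) h]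
        ring

theorem Ex_rate_mono {ρ' : ℝ} (h0 : 0 ≤ ρ) (h1 : ρ ≤ ρ') (h2 : ρ' ≤ 1)
    (h : ∀ R R', R ⊆ R' → R' ⊆ A → f R ≤ f R') : Ex A ρ f ≤ Ex A ρ' f := by
  induction A using Finset.induction_on generalizing f with
  | empty => rw [Ex_empty, Ex_empty]
  | insert a A ha ih =>
    have a1 := ih (f := fun R => f (insert a R)) fun R R' h3 h4 =>
      h _ _ (Finset.insert_subset_insert a h3) (Finset.insert_subset_insert a h4)
    have a2 := ih (f := f) fun R R' h3 h4 => h _ _ h3 (h4.trans (Finset.subset_insert a A))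
    have a3 : Ex A ρ' f ≤ Ex A ρ' fun R => f (insert a R) :=
      Ex_mono (h0.trans h1) h2 fun R hR =>
        h _ _ (Finset.subset_insert a R) (Finset.insert_subset_insert a hR)
    rw [Ex_insert ha, Ex_insert ha]
    nlinarith [mul_le_mul_of_nonneg_left a1 h0,
      mul_le_mul_of_nonneg_left a2 (sub_nonneg.2 (h1.trans h2)),
      mul_le_mul_of_nonneg_left a3 (sub_nonneg.2 h1)]

theorem Ex_Ex (A : Finset J) (q s : ℝ) (f : Finset J → ℝ) :
    Ex A q (fun U => Ex U s f) = Ex A (q * s) f := by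
  induction A using Finset.induction_on generalizing f with
  | empty => simp only [Ex_empty]
  | insert a A ha ih =>
    have e : Ex A q (fun U => Ex (insert a U) s f) =
        Ex A q fun U => s * Ex U s (fun R => f (insert a R)) + (1 - s) * Ex U s f :=
      Ex_congr fun U hU => Ex_insert (fun h => ha (hU h)) s f
    rw [Ex_insert ha, Ex_insert ha, e, Ex_add, Ex_mul, Ex_mul, ih, ih]
    ring

theorem Ex_inter {A' : Finset J} (h : A' ⊆ A) (ρ : ℝ) (f : Finset J → ℝ) :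
    Ex A ρ (fun R => f (R ∩ A')) = Ex A' ρ f := by
  induction A using Finset.induction_on generalizing A' f with
  | empty =>
    rw [Finset.subset_empty] at h
    subst h
    simp only [Ex_empty, Finset.inter_self]
  | insert a A ha ih =>
    rw [Ex_insert ha]
    by_cases h1 : a ∈ A'
    · have h2 := Finset.subset_insert_iff.1 h
      have e1 : Ex A ρ (fun R => f (insert a R ∩ A')) =
          Ex A ρ fun R => f (insert a (R ∩ A'.erase a)) :=
        Ex_congr fun R _ => by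
          congr 1
          ext i
          by_cases hi : i = a <;> simp [hi, h1]
      have e2 : Ex A ρ (fun R => f (R ∩ A')) = Ex A ρ fun R => f (R ∩ A'.erase a) :=
        Ex_congr fun R hR => by
          congr 1
          ext i
          by_cases hi : i = a
          · have : a ∉ R := fun h' => ha (hR h')
            simp [hi, this]
          · simp [hi]
      rw [e1, e2, ih h2 fun R => f (insert a R), ih h2 f, ← Ex_insert (Finset.notMem_erase a A'),
        Finset.insert_erase h1]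
    · have h2 := (Finset.subset_insert_iff_of_notMem h1).1 h
      simp only [Finset.insert_inter_of_notMem h1]
      rw [ih h2 f]
      ring

theorem Ex_sum_mem (A : Finset J) (ρ : ℝ) (g : J → Finset J → ℝ) :
    Ex A ρ (fun R => ∑ b ∈ R, g b R) =
      ρ * ∑ b ∈ A, Ex (A.erase b) ρ (fun R => g b (insert b R)) := by
  have e : Ex A ρ (fun R => ∑ b ∈ R, g b R) =
      Ex A ρ fun R => ∑ b ∈ A, if b ∈ R then g b R else 0 :=
    Ex_congr fun R hR => by rw [Finset.sum_ite_mem, Finset.inter_eq_right.2 hR]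
  rw [e, Ex_sum, Finset.mul_sum]
  refine Finset.sum_congr rfl fun b hb => ?_
  have e2 : Ex (A.erase b) ρ (fun R => if b ∈ R then g b R else 0) = Ex (A.erase b) ρ fun _ => 0 :=
    Ex_congr fun R hR => if_neg fun h => Finset.notMem_erase b A (hR h)
  conv_lhs => rw [← Finset.insert_erase hb, Ex_insert (Finset.notMem_erase b A), e2, Ex_const]
  simp

theorem Ex_sum_notMem (A : Finset J) (ρ : ℝ) (g : J → Finset J → ℝ) :
    Ex A ρ (fun R => ∑ b ∈ A \ R, g b R) = (1 - ρ) * ∑ b ∈ A, Ex (A.erase b) ρ (g b) := by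
  have e : Ex A ρ (fun R => ∑ b ∈ A \ R, g b R) =
      Ex A ρ fun R => ∑ b ∈ A, if b ∉ R then g b R else 0 :=
    Ex_congr fun R _ => by rw [Finset.sdiff_eq_filter, Finset.sum_filter]
  rw [e, Ex_sum, Finset.mul_sum]
  refine Finset.sum_congr rfl fun b hb => ?_
  have e2 : Ex (A.erase b) ρ (fun R => if b ∉ R then g b R else 0) = Ex (A.erase b) ρ (g b) :=
    Ex_congr fun R hR => if_pos fun h => Finset.notMem_erase b A (hR h)
  conv_lhs => rw [← Finset.insert_erase hb, Ex_insert (Finset.notMem_erase b A), e2]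
  simp [Ex_const]

end SA
end

-- part: Long
section
/-!
# Objects with many conflicts are rare (Russo's formula and the mean value theorem)

`hasDerivAt_Ex`: induction on `A` with `Ex_insert`, generalizing `f`.

`long_edges`: let `g t = Ex A t |H R|`; the mean value theorem on `[ρ, 2ρ]`
(`exists_hasDerivAt_eq_slope`) gives `t` with `-g' t = (g ρ - g (2ρ)) / ρ ≤ (a ρ n + b) / ρ`.
For `R ⊆ A`: `lam * #long ≤ ∑ j ∈ A \ R, |H R \ H (insert j R)|` (an object `e ∈ H R` is not in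
`H (insert j R)` for `j ∈ C e`, and `C e ⊆ A \ R`).  By `Ex_sum_notMem` the expectation is at most
`∑ j ∈ A, Ex (A.erase j) t |H R \ H (insert j R)|`, and
`|X \ Y| = |X| - |Y| + |Y \ X|`.  By `Ex_sum_mem`,
`t * ∑ j ∈ A, Ex (A.erase j) t |H (insert j R) \ H R| = Ex A t (∑ j ∈ R, |H R \ H (R.erase j)|)`
`≤ a' t n + b'`.
-/

namespace SA

variable {J β : Type} [DecidableEq J] [DecidableEq β]

theorem hasDerivAt_Ex (A : Finset J) (f : Finset J → ℝ) (t : ℝ) :
    HasDerivAt (fun s => Ex A s f)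
      (∑ j ∈ A, Ex (A.erase j) t (fun R => f (insert j R) - f R)) t := by
  induction A using Finset.induction_on generalizing f with
  | empty =>
    simp only [Ex_empty, Finset.sum_empty]
    exact hasDerivAt_const t _
  | insert a A ha ih =>
    have e : (fun s => Ex (insert a A) s f) =
        fun s => s * Ex A s (fun R => f (insert a R)) + (1 - s) * Ex A s f :=
      funext fun s => Ex_insert ha s f
    have e2 : ∀ j ∈ A, Ex ((insert a A).erase j) t (fun R => f (insert j R) - f R) =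
        t * Ex (A.erase j) t (fun R => f (insert a (insert j R)) - f (insert a R)) +
          (1 - t) * Ex (A.erase j) t (fun R => f (insert j R) - f R) := fun j hj => by
      rw [Finset.erase_insert_of_ne fun h : a = j => ha (h ▸ hj),
        Ex_insert fun h => ha (Finset.mem_of_mem_erase h)]
      simp only [Finset.insert_comm j a]
    rw [e, Finset.sum_insert ha, Finset.erase_insert ha, Finset.sum_congr rfl e2,
      Finset.sum_add_distrib, ← Finset.mul_sum, ← Finset.mul_sum, Ex_sub]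
    refine (((hasDerivAt_id' t).mul (ih fun R => f (insert a R))).add
      (((hasDerivAt_id' t).const_sub 1).mul (ih f))).congr_deriv ?_
    ring

theorem long_edges (A : Finset J) (H : Finset J → Finset β) (C : β → Finset J) (lam : ℕ)
    {a b a' b' ρ : ℝ} (ha : 0 ≤ a) (hb : 0 ≤ b) (ha' : 0 ≤ a') (hb' : 0 ≤ b') (h0 : 0 < ρ)
    (h1 : 2 * ρ ≤ 1) (hC : ∀ e, C e ⊆ A) (hD : ∀ R ⊆ A, ∀ e ∈ H R, Disjoint (C e) R)
    (hH : ∀ R ⊆ A, ((H R).card : ℝ) ≤ a * R.card + b)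
    (hK : ∀ R ⊆ A, (∑ j ∈ R, ((H R \ H (R.erase j)).card : ℝ)) ≤ a' * R.card + b') :
    ∃ t, ρ ≤ t ∧ t ≤ 2 * ρ ∧
      lam * Ex A t (fun R => (((H R).filter fun e => lam ≤ (C e).card).card : ℝ)) ≤
        ((a + a') * ρ * A.card + b + b') / ρ := by
  set g : ℝ → ℝ := fun s => Ex A s fun R => ((H R).card : ℝ) with hg
  obtain ⟨t, ⟨t1, t2⟩, ht⟩ := exists_hasDerivAt_eq_slope g _ (show ρ < 2 * ρ by linarith)
    (fun s _ => (hasDerivAt_Ex A _ s).continuousAt.continuousWithinAt)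
    fun s _ => hasDerivAt_Ex A _ s
  have t0 : 0 < t := h0.trans t1
  have t3 : t ≤ 1 := t2.le.trans h1
  have hn : (0 : ℝ) ≤ A.card := Nat.cast_nonneg _
  have g1 : g ρ ≤ a * (ρ * A.card) + b := by
    have := Ex_mono (A := A) h0.le (by linarith : ρ ≤ 1) hH
    rwa [Ex_add, Ex_mul, Ex_card, Ex_const] at this
  have g2 : 0 ≤ g (2 * ρ) := Ex_nonneg (by linarith) h1 fun _ _ => Nat.cast_nonneg _
  set D := ∑ j ∈ A, Ex (A.erase j) t fun R => ((H (insert j R)).card : ℝ) - (H R).card with hD'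
  set K := ∑ j ∈ A, Ex (A.erase j) t fun R => ((H (insert j R) \ H R).card : ℝ) with hK'
  set L := ∑ j ∈ A, Ex (A.erase j) t fun R => ((H R \ H (insert j R)).card : ℝ) with hL'
  have e1 : L = K - D := by
    rw [hL', hK', hD', ← Finset.sum_sub_distrib]
    refine Finset.sum_congr rfl fun j _ => ?_
    rw [← Ex_sub]
    refine Ex_congr fun R _ => ?_
    have c1 := Finset.card_sdiff_add_card_inter (H R) (H (insert j R))
    have c2 := Finset.card_sdiff_add_card_inter (H (insert j R)) (H R)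
    rw [Finset.inter_comm] at c2
    have c3 := congrArg (Nat.cast : ℕ → ℝ) c1
    have c4 := congrArg (Nat.cast : ℕ → ℝ) c2
    push_cast at c3 c4
    linarith
  have e2 : t * K ≤ a' * (t * A.card) + b' := by
    have c1 := Ex_mono (A := A) t0.le t3 hK
    rw [Ex_add, Ex_mul, Ex_card, Ex_const, Ex_sum_mem] at c1
    refine le_trans (le_of_eq ?_) c1
    congr 1
    refine Finset.sum_congr rfl fun j _ => Ex_congr fun R hR => ?_
    rw [Finset.erase_insert fun h => Finset.notMem_erase j A (hR h)]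
  have L0 : 0 ≤ L := Finset.sum_nonneg fun j _ => Ex_nonneg t0.le t3 fun _ _ => Nat.cast_nonneg _
  have e3 : lam * Ex A t (fun R => (((H R).filter fun e => lam ≤ (C e).card).card : ℝ)) ≤
      (1 - t) * L := by
    rw [← Ex_mul, hL', ← Ex_sum_notMem A t fun j R => ((H R \ H (insert j R)).card : ℝ)]
    refine Ex_mono t0.le t3 fun R hR => ?_
    have c1 : ((H R).filter fun e => lam ≤ (C e).card).card * lam ≤
        ∑ j ∈ A \ R, (H R \ H (insert j R)).card := by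
      calc _ ≤ ∑ e ∈ (H R).filter fun e => lam ≤ (C e).card, (C e).card := by
            rw [← smul_eq_mul]
            exact Finset.card_nsmul_le_sum _ _ _ fun e he => (Finset.mem_filter.1 he).2
        _ ≤ ∑ e ∈ H R, (C e).card := Finset.sum_le_sum_of_subset (Finset.filter_subset _ _)
        _ ≤ ∑ e ∈ H R, ((A \ R).filter fun j => e ∉ H (insert j R)).card := by
            refine Finset.sum_le_sum fun e he => Finset.card_le_card fun j hj => ?_
            refine Finset.mem_filter.2 ⟨Finset.mem_sdiff.2 ⟨hC e hj,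
              Finset.disjoint_left.1 (hD R hR e he) hj⟩, fun h => ?_⟩
            exact Finset.disjoint_left.1 (hD _ (Finset.insert_subset (hC e hj) hR) e h) hj
              (Finset.mem_insert_self j R)
        _ = _ := by
            simp only [Finset.card_filter, Finset.sdiff_eq_filter (H R)]
            exact Finset.sum_comm
    rw [mul_comm]
    exact_mod_cast c1
  refine ⟨t, t1.le, t2.le, e3.trans ?_⟩
  have e4 : ρ * D = g (2 * ρ) - g ρ := by
    rw [ht, show 2 * ρ - ρ = ρ by ring]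
    field_simp
  have e5 : ρ * K ≤ a' * ρ * A.card + b' := by
    refine le_of_mul_le_mul_left ?_ t0
    nlinarith [mul_le_mul_of_nonneg_left e2 h0.le, mul_le_mul_of_nonneg_left t1.le hb']
  rw [le_div_iff₀ h0]
  nlinarith [mul_nonneg (mul_nonneg t0.le L0) h0.le]

end SA
end

-- part: Nu
section
/-!
# Solving the recurrence

`nu_rec`: induction on `j ≥ 1`, `j + 2 ≤ d`.  `j = 1`: `r = 1 / 2`, `ρ₀ = 1 / 2`, `η = 1`, `C = 2`.
Step: `η' = η / (2 d)`, `θ = 1 - η' ∈ [1 / 2, 1)`, `r = p ^ θ ≥ p`, `ρ₀' = (ρ₀ / 2) ^ (1 / θ)`, so that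
`p + r ≤ 2 r ≤ ρ₀`.  With `e = d - j - 1`: `p ^ e / r = p ^ (e - 1 + η')` and
`(p + r) ^ (e + η) / r ≤ 2 ^ (e + η) p ^ (θ (e - 1 + η)) ≤ 2 ^ (e + η) p ^ (e - 1 + η')`, because
`θ (e - 1 + η) ≥ e - 1 + η - η' d ≥ e - 1 + η'` and `p ≤ 1` (`Real.rpow_le_rpow_of_exponent_ge`).

`nu_sum`: the term is at most `(i + 1) ^ 2 * (2 ^ (-η)) ^ i`, which is summable
(`summable_pow_mul_geometric_of_norm_lt_one`, `Summable.sum_le_tsum`).
-/

namespace SA

theorem nu_rec (d j : ℕ) (h1 : 1 ≤ j) (h2 : j + 2 ≤ d) : ∃ ρ₀ η C : ℝ, 0 < ρ₀ ∧ ρ₀ ≤ 1 ∧ 0 < η ∧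
    η ≤ 1 ∧ 0 ≤ C ∧ ∀ (ν : ℕ → ℝ → ℝ) (X : ℝ), 0 ≤ X → (∀ p, ν 0 p = 0) →
      (∀ i, i + 3 ≤ d → ∀ p r, 0 < p → 0 < r → p + r ≤ 1 →
        r * ν (i + 1) p ≤ X * p ^ (d - i - 1) + ν i (p + r)) →
      ∀ p, 0 < p → p ≤ ρ₀ → ν j p ≤ C * X * p ^ (((d - j - 1 : ℕ) : ℝ) + η) := by
  induction j, h1 using Nat.le_induction with
  | base =>
    refine ⟨1 / 2, 1, 2, by norm_num, by norm_num, one_pos, le_rfl, by norm_num,
      fun ν X _ h0 h p hp hp' => ?_⟩
    have h3 := h 0 (by omega) p (1 / 2) hp (by norm_num) (by linarith)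
    have e : p ^ (((d - 1 - 1 : ℕ) : ℝ) + 1) = p ^ (d - 0 - 1) := by
      rw [← Real.rpow_natCast, show d - 0 - 1 = d - 1 - 1 + 1 by omega]
      push_cast
      rfl
    rw [h0] at h3
    rw [e]
    linarith
  | succ j h1 ih =>
    obtain ⟨ρ, η, C, r0, r1, e0, e1, hC, H⟩ := ih (by omega)
    have hd : (3 : ℝ) ≤ d := by exact_mod_cast (by omega : 3 ≤ d)
    obtain ⟨e, he⟩ : ∃ e, d - j - 1 = e + 1 := ⟨d - j - 2, by omega⟩
    have he' : d - (j + 1) - 1 = e := by omega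
    have hed : (e : ℝ) + 1 ≤ d := by exact_mod_cast (by omega : e + 1 ≤ d)
    have he0 : (0 : ℝ) ≤ e := Nat.cast_nonneg e
    obtain ⟨η', hη'⟩ : ∃ η', η' * (2 * d) = η := ⟨η / (2 * d), by field_simp⟩
    have a0 : 0 < η' := (mul_pos_iff_of_pos_right (by linarith only [hd] : (0 : ℝ) < 2 * d)).1 (hη'.symm ▸ e0)
    have a1 : η' * 6 ≤ η := by linarith only [hη', mul_le_mul_of_nonneg_left hd a0.le]
    have θ0 : 0 < 1 - η' := by linarith only [a0, a1, e1]
    refine ⟨(ρ / 2) ^ (1 - η')⁻¹, η', 1 + C * 2 ^ ((e : ℝ) + 1 + η), by positivity,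
      Real.rpow_le_one (by positivity) (by linarith only [r1]) (by positivity), a0,
      by linarith only [θ0], by positivity, fun ν X hX h0 h p hp hp' => ?_⟩
    have p1 : p ≤ 1 :=
      hp'.trans (Real.rpow_le_one (by positivity) (by linarith only [r1]) (by positivity))
    have b1 : p ≤ p ^ (1 - η') := by
      simpa using Real.rpow_le_rpow_of_exponent_ge hp p1 (show 1 - η' ≤ 1 by linarith only [a0])
    have b2 : p ^ (1 - η') ≤ ρ / 2 := by
      have := Real.rpow_le_rpow hp.le hp' θ0.le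
      rwa [Real.rpow_inv_rpow (by positivity) θ0.ne'] at this
    have b0 : 0 < p ^ (1 - η') := by positivity
    have c1 := h j (by omega) p _ hp b0 (by linarith only [b1, b2, r1])
    have c2 := H ν X hX h0 h (p + p ^ (1 - η')) (add_pos hp b0) (by linarith only [b1, b2])
    rw [he] at c1 c2
    rw [he']
    push_cast at c2
    have d1 : p ^ (e + 1) = p ^ (1 - η') * p ^ ((e : ℝ) + η') := by
      rw [← Real.rpow_add hp, ← Real.rpow_natCast]
      push_cast
      congr 1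
      ring
    have d2 : (p + p ^ (1 - η')) ^ ((e : ℝ) + 1 + η) ≤
        2 ^ ((e : ℝ) + 1 + η) * (p ^ (1 - η') * p ^ ((e : ℝ) + η')) := by
      calc _ ≤ (2 * p ^ (1 - η')) ^ ((e : ℝ) + 1 + η) :=
            Real.rpow_le_rpow (add_pos hp b0).le (by linarith only [b1]) (by linarith only [he0, e0])
        _ = 2 ^ ((e : ℝ) + 1 + η) * p ^ ((1 - η') * ((e : ℝ) + 1 + η)) := by
            rw [Real.mul_rpow (by norm_num) b0.le, ← Real.rpow_mul hp.le]
        _ ≤ _ := by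
            refine mul_le_mul_of_nonneg_left ?_ (by positivity)
            rw [← Real.rpow_add hp]
            refine Real.rpow_le_rpow_of_exponent_ge hp p1 ?_
            linarith only [mul_le_mul_of_nonneg_left
              (show (e : ℝ) + η ≤ d by linarith only [hed, e1]) a0.le, hη', a0, a1]
    refine le_of_mul_le_mul_left ?_ b0
    have d3 := mul_le_mul_of_nonneg_left d2 (mul_nonneg hC hX)
    rw [d1] at c1
    linarith only [c1, c2, d3]

theorem nu_sum {η : ℝ} (h0 : 0 < η) (h1 : η ≤ 1) : ∃ C : ℝ, ∀ n : ℕ,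
    ∑ i ∈ Finset.range n, (2 : ℝ) ^ i * (((i : ℝ) + 1) / 2 ^ i) ^ (1 + η) ≤ C := by
  have r0 : (0 : ℝ) < 2 ^ (-η) := by positivity
  have r1 : (2 : ℝ) ^ (-η) < 1 := Real.rpow_lt_one_of_one_lt_of_neg (by norm_num) (by linarith)
  have hn : ‖(2 : ℝ) ^ (-η)‖ < 1 := by rwa [Real.norm_of_nonneg r0.le]
  have hs : Summable fun i : ℕ => ((i : ℝ) + 1) ^ 2 * ((2 : ℝ) ^ (-η)) ^ i := by
    refine (((summable_pow_mul_geometric_of_norm_lt_one 2 hn).add
      ((summable_pow_mul_geometric_of_norm_lt_one 1 hn).mul_left 2)).add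
      (summable_geometric_of_lt_one r0.le r1)).congr fun i => ?_
    ring
  refine ⟨∑' i : ℕ, ((i : ℝ) + 1) ^ 2 * ((2 : ℝ) ^ (-η)) ^ i, fun n => le_trans
    (Finset.sum_le_sum fun i _ => ?_) (hs.sum_le_tsum _ fun i _ => by positivity)⟩
  have e1 : ((2 : ℝ) ^ i) ^ (1 + η) = 2 ^ i * (((2 : ℝ) ^ (-η)) ^ i)⁻¹ := by
    rw [Real.rpow_add (by positivity), Real.rpow_one, ← inv_pow, ← Real.rpow_neg (by norm_num),
      neg_neg, ← Real.rpow_natCast, ← Real.rpow_natCast, ← Real.rpow_mul (by norm_num),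
      ← Real.rpow_mul (by norm_num), mul_comm η]
  have e2 : ((i : ℝ) + 1) ^ (1 + η) ≤ ((i : ℝ) + 1) ^ 2 := by
    rw [← Real.rpow_natCast]
    exact Real.rpow_le_rpow_of_exponent_le (by linarith [(Nat.cast_nonneg i : (0 : ℝ) ≤ i)])
      (by push_cast; linarith)
  rw [Real.div_rpow (by positivity) (by positivity), e1]
  refine le_trans (le_of_eq ?_) (mul_le_mul_of_nonneg_right e2 (by positivity))
  field_simp

theorem nu_final (d : ℕ) (hd : 3 ≤ d) : ∃ ρ₀ C : ℝ, 0 < ρ₀ ∧ ρ₀ ≤ 1 ∧ 0 ≤ C ∧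
    ∀ (ν : ℕ → ℝ → ℝ) (X : ℝ), 0 ≤ X → (∀ p, ν 0 p = 0) →
      (∀ i, i + 3 ≤ d → ∀ p r, 0 < p → 0 < r → p + r ≤ 1 →
        r * ν (i + 1) p ≤ X * p ^ (d - i - 1) + ν i (p + r)) →
      ∀ n : ℕ, ν (d - 2) ρ₀ +
        ∑ i ∈ Finset.range n, 2 ^ i * ν (d - 2) (ρ₀ * (((i : ℝ) + 1) / 2 ^ i)) ≤ C * X := by
  obtain ⟨ρ, η, C, r0, r1, e0, e1, hC, H⟩ := nu_rec d (d - 2) (by omega) (by omega)
  obtain ⟨C', hC'⟩ := nu_sum e0 e1
  have c0 : 0 ≤ C' := by simpa using hC' 0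
  refine ⟨ρ, C * (1 + C'), r0, r1, by positivity, fun ν X hX h0 h n => ?_⟩
  have H' := H ν X hX h0 h
  rw [show d - (d - 2) - 1 = 1 by omega, Nat.cast_one] at H'
  have hCX := mul_nonneg hC hX
  have a1 : ν (d - 2) ρ ≤ C * X := (H' ρ r0 le_rfl).trans
    (mul_le_of_le_one_right hCX (Real.rpow_le_one r0.le r1 (by linarith)))
  have a2 : ∑ i ∈ Finset.range n, 2 ^ i * ν (d - 2) (ρ * (((i : ℝ) + 1) / 2 ^ i)) ≤
      C * X * C' := by
    refine le_trans ?_ (mul_le_mul_of_nonneg_left (hC' n) hCX)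
    rw [Finset.mul_sum]
    refine Finset.sum_le_sum fun i _ => ?_
    have h2 : ((i : ℝ) + 1) / 2 ^ i ≤ 1 := by
      rw [div_le_one (by positivity)]
      exact_mod_cast Nat.lt_two_pow_self
    have h3 := H' (ρ * (((i : ℝ) + 1) / 2 ^ i)) (by positivity) (mul_le_of_le_one_right r0.le h2)
    have h4 : (ρ * (((i : ℝ) + 1) / 2 ^ i)) ^ (1 + η) ≤ (((i : ℝ) + 1) / 2 ^ i) ^ (1 + η) :=
      Real.rpow_le_rpow (by positivity) (mul_le_of_le_one_left (by positivity) r1) (by linarith)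
    rw [mul_left_comm]
    exact mul_le_mul_of_nonneg_left (h3.trans (mul_le_mul_of_nonneg_left h4 hCX)) (by positivity)
  linarith

end SA
end

-- part: Sign
section
/-!
# Systems of sign vectors: connectivity and filling

`conn`: induction on the number `k` of indices where `σ` and `τ` differ.  If they differ at `h`
(say `σ h = 1`, `τ h = -1`; both are nonzero on `T` and zero outside), `elim` gives `ρ`; change the
zeros of `ρ` in `T \ {h}` one by one to nonzero values (`lift`) and get a facet `ρ'` at `h` that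
agrees with `σ` and `τ` where they agree.  The chambers `update ρ' h (σ h)` and `update ρ' h (τ h)`
have the same `χ` and are at distance `< k` from `σ` and from `τ`.

`fill`: induction on `T`, generalizing `𝓡` and `c`.  `T = insert h T'`.  Let
`ψ τ = c h (update τ h 0)` if `τ h = -1` and `0` otherwise, and
`c₁ i σ = c i σ + ψ (update σ i 1) + ψ (update σ i (-1))`.  Then `c₁` is even (each chamber occurs
twice, `Function.update_comm`), and `c₁ h σ = 0` if `σ h = 0`.  Let `𝓡' = (update · h 0) '' 𝓡`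
(a system on `T'`), `c' i σ' = c₁ i (update σ' h 1)` if `update σ' h 1 ∈ 𝓡`, else
`c₁ i (update σ' h (-1))`.  Key: `c' i (update σ h 0) = c₁ i σ` for a facet `σ ∈ 𝓡` at `i ≠ h` (if both
signs at `h` are realized, `elim` gives the ridge `update σ h 0 ∈ 𝓡`; use evenness of `c₁`).  So `c'`
is even (lift a ridge of `𝓡'` to a nonzero sign at `h`).  Take `χ σ = χ' (update σ h 0) + ψ σ`.
-/

namespace SA

open Function

variable {ι : Type} [DecidableEq ι]

/-- A system of sign vectors on `T`. -/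
structure Sys (𝓡 : Set (ι → SignType)) (T : Finset ι) : Prop where
  out : ∀ σ ∈ 𝓡, ∀ i ∉ T, σ i = 0
  lift : ∀ σ ∈ 𝓡, ∀ h ∈ T, σ h = 0 → ∀ s, update σ h s ∈ 𝓡
  elim : ∀ σ ∈ 𝓡, ∀ τ ∈ 𝓡, ∀ h, σ h = 1 → τ h = -1 →
    ∃ ρ ∈ 𝓡, ρ h = 0 ∧ ∀ i, σ i = τ i → ρ i = σ i

/-- Chambers. -/
def Cham (T : Finset ι) (σ : ι → SignType) : Prop := ∀ i ∈ T, σ i ≠ 0

/-- Facets. -/
def Fac (T : Finset ι) (h : ι) (σ : ι → SignType) : Prop :=
  h ∈ T ∧ σ h = 0 ∧ ∀ i ∈ T, i ≠ h → σ i ≠ 0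

/-- Faces of codimension two. -/
def Rid (T : Finset ι) (h h' : ι) (σ : ι → SignType) : Prop :=
  h ∈ T ∧ h' ∈ T ∧ h ≠ h' ∧ σ h = 0 ∧ σ h' = 0 ∧ ∀ i ∈ T, i ≠ h → i ≠ h' → σ i ≠ 0

/-- `χ` has the jumps `c`. -/
def Jump (𝓡 : Set (ι → SignType)) (T : Finset ι) (c : ι → (ι → SignType) → ZMod 2)
    (χ : (ι → SignType) → ZMod 2) : Prop :=
  ∀ h, ∀ σ ∈ 𝓡, Fac T h σ → χ (update σ h 1) + χ (update σ h (-1)) = c h σ

/-- The jumps around every face of codimension two add up to zero. -/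
def Evn (𝓡 : Set (ι → SignType)) (T : Finset ι) (c : ι → (ι → SignType) → ZMod 2) : Prop :=
  ∀ h h', ∀ σ ∈ 𝓡, Rid T h h' σ → c h (update σ h' 1) + c h (update σ h' (-1)) +
    (c h' (update σ h 1) + c h' (update σ h (-1))) = 0

/-- A chamber next to `σ`. -/
def chm (T : Finset ι) (σ : ι → SignType) : ι → SignType :=
  fun i => if i ∈ T ∧ σ i = 0 then 1 else σ i

variable {𝓡 : Set (ι → SignType)} {T : Finset ι} {σ τ : ι → SignType}

theorem cham_chm (T : Finset ι) (σ : ι → SignType) : Cham T (chm T σ) := by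
  intro i hi
  by_cases h : σ i = 0 <;> simp [chm, hi, h]

theorem chm_eq (h : Cham T σ) : chm T σ = σ :=
  funext fun i => if_neg fun h' => h i h'.1 h'.2

theorem Sign_cases {s : SignType} (h : s ≠ 0) : s = 1 ∨ s = -1 := by
  revert s
  decide

theorem Sys.Sign_chm (h : Sys 𝓡 T) (hσ : σ ∈ 𝓡) (S : Finset ι) (hS : S ⊆ T) : chm S σ ∈ 𝓡 := by
  induction S using Finset.induction_on with
  | empty => rwa [chm_eq fun i hi => absurd hi (Finset.notMem_empty i)]
  | insert a S ha ih =>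
    have h1 := ih ((Finset.subset_insert a S).trans hS)
    by_cases h0 : σ a = 0
    · have e : chm (insert a S) σ = update (chm S σ) a 1 := funext fun i => by
        rcases eq_or_ne i a with rfl | hi
        · simp [chm, h0]
        · simp [chm, hi]
      rw [e]
      exact h.lift _ h1 a (hS (Finset.mem_insert_self a S)) ((if_neg fun q => ha q.1).trans h0) 1
    · have e : chm (insert a S) σ = chm S σ := funext fun i => by
        rcases eq_or_ne i a with rfl | hi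
        · simp [chm, h0]
        · simp [chm, hi]
      rwa [e]

theorem Sys.conn (h : Sys 𝓡 T) {χ : (ι → SignType) → ZMod 2} (hχ : Jump 𝓡 T (fun _ _ => 0) χ)
    (hσ : σ ∈ 𝓡) (hτ : τ ∈ 𝓡) (cσ : Cham T σ) (cτ : Cham T τ) : χ σ = χ τ := by
  suffices H : ∀ (D : Finset ι) (σ τ : ι → SignType), σ ∈ 𝓡 → τ ∈ 𝓡 → Cham T σ → Cham T τ →
      (∀ i ∉ D, σ i = τ i) → χ σ = χ τ from
    H T σ τ hσ hτ cσ cτ fun i hi => (h.out σ hσ i hi).trans (h.out τ hτ i hi).symm
  intro D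
  induction D using Finset.induction_on with
  | empty => exact fun σ τ _ _ _ _ e => congrArg χ (funext fun i => e i (Finset.notMem_empty i))
  | insert a D _ ih =>
    intro σ τ hσ hτ cσ cτ e
    by_cases h0 : σ a = τ a
    · refine ih σ τ hσ hτ cσ cτ fun i hi => ?_
      rcases eq_or_ne i a with rfl | h1
      · exact h0
      · exact e i fun h2 => (Finset.mem_insert.1 h2).elim h1 hi
    have ha : a ∈ T := by_contra fun q => h0 ((h.out σ hσ a q).trans (h.out τ hτ a q).symm)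
    have h1 : σ a = 1 ∧ τ a = -1 ∨ σ a = -1 ∧ τ a = 1 := by
      rcases Sign_cases (cσ a ha) with p | p <;> rcases Sign_cases (cτ a ha) with q | q
      exacts [absurd (p.trans q.symm) h0, Or.inl ⟨p, q⟩, Or.inr ⟨p, q⟩, absurd (p.trans q.symm) h0]
    obtain ⟨ρ, hρ, h2, h3⟩ : ∃ ρ ∈ 𝓡, ρ a = 0 ∧ ∀ i, σ i = τ i → ρ i = σ i := by
      rcases h1 with ⟨p, q⟩ | ⟨p, q⟩
      · exact h.elim σ hσ τ hτ a p q
      · obtain ⟨ρ, hρ, h2, h3⟩ := h.elim τ hτ σ hσ a q p
        exact ⟨ρ, hρ, h2, fun i hi => (h3 i hi.symm).trans hi.symm⟩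
    have h4 := h.Sign_chm hρ (T.erase a) (T.erase_subset a)
    have h5 : chm (T.erase a) ρ a = 0 := (if_neg fun q => T.notMem_erase a q.1).trans h2
    have h6 : Fac T a (chm (T.erase a) ρ) :=
      ⟨ha, h5, fun i hi hne => cham_chm _ ρ i (Finset.mem_erase.2 ⟨hne, hi⟩)⟩
    have h7 : ∀ υ ∈ 𝓡, Cham T υ → (∀ i, σ i = τ i → σ i = υ i) →
        χ υ = χ (update (chm (T.erase a) ρ) a (υ a)) := fun υ hυ cυ e' => by
      refine ih υ _ hυ (h.lift _ h4 a ha h5 _) cυ (fun i hi => ?_) fun i hi => ?_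
      · rcases eq_or_ne i a with rfl | hne
        · rw [update_self]
          exact cυ i hi
        · rw [update_of_ne hne]
          exact h6.2.2 i hi hne
      · rcases eq_or_ne i a with rfl | hne
        · rw [update_self]
        · have h8 := e i fun h2 => (Finset.mem_insert.1 h2).elim hne hi
          rw [update_of_ne hne, ← e' i h8, ← h3 i h8]
          exact (if_neg fun q => cσ i (Finset.mem_of_mem_erase q.1) ((h3 i h8).symm.trans q.2)).symm
    have h9 := CharTwo.add_eq_zero.1 (hχ a _ h4 h6)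
    rw [h7 σ hσ cσ fun _ _ => rfl, h7 τ hτ cτ fun _ q => q]
    rcases h1 with ⟨p, q⟩ | ⟨p, q⟩ <;> rw [p, q, h9]

theorem Sign_fac {i j : ι} (h : Rid T i j σ) {s : SignType} (hs : s ≠ 0) :
    Fac T i (update σ j s) := by
  refine ⟨h.1, (update_of_ne h.2.2.1 _ _).trans h.2.2.2.1, fun k hk hne => ?_⟩
  rcases eq_or_ne k j with rfl | h1
  · rwa [update_self]
  · rw [update_of_ne h1]
    exact h.2.2.2.2.2 k hk hne h1

omit [DecidableEq ι] in
theorem Sign_symm {i j : ι} (h : Rid T i j σ) : Rid T j i σ :=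
  ⟨h.2.1, h.1, h.2.2.1.symm, h.2.2.2.2.1, h.2.2.2.1, fun k hk h1 h2 => h.2.2.2.2.2 k hk h2 h1⟩

theorem Sign_del {a : ι} (h : Sys 𝓡 (insert a T)) (ha : a ∉ T) :
    Sys ((update · a 0) '' 𝓡) T := by
  refine ⟨?_, ?_, ?_⟩
  · rintro _ ⟨σ, hσ, rfl⟩ i hi
    rcases eq_or_ne i a with rfl | h1
    · exact update_self ..
    · exact (update_of_ne h1 _ _).trans
        (h.out σ hσ i fun q => (Finset.mem_insert.1 q).elim h1 hi)
  · rintro _ ⟨σ, hσ, rfl⟩ j hj h0 s
    have h1 : j ≠ a := fun q => ha (q ▸ hj)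
    exact ⟨_, h.lift σ hσ j (Finset.mem_insert_of_mem hj) ((update_of_ne h1 _ _).symm.trans h0) s,
      update_comm h1 _ _ _⟩
  · rintro _ ⟨σ, hσ, rfl⟩ _ ⟨τ, hτ, rfl⟩ j h1 h2
    have h3 : j ≠ a := by
      rintro rfl
      exact absurd ((update_self ..).symm.trans h1) (by decide)
    obtain ⟨ρ, hρ, h4, h5⟩ := h.elim σ hσ τ hτ j ((update_of_ne h3 _ _).symm.trans h1)
      ((update_of_ne h3 _ _).symm.trans h2)
    refine ⟨_, ⟨ρ, hρ, rfl⟩, (update_of_ne h3 _ _).trans h4, fun i hi => ?_⟩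
    rcases eq_or_ne i a with rfl | h6
    · simp only [update_self]
    · simp only [update_of_ne h6] at hi ⊢
      exact h5 i hi

theorem Sign_step {a : ι} {c : ι → (ι → SignType) → ZMod 2} (h : Sys 𝓡 (insert a T)) (ha : a ∉ T)
    (hc : Evn 𝓡 (insert a T) c) (h0 : ∀ σ, σ a = 0 → c a σ = 0)
    (ih : ∀ {𝓡 : Set (ι → SignType)}, Sys 𝓡 T → ∀ {c : ι → (ι → SignType) → ZMod 2}, Evn 𝓡 T c →
      ∃ χ, Jump 𝓡 T c χ) : ∃ χ, Jump 𝓡 (insert a T) c χ := by
  classical
  have haT := Finset.mem_insert_self a T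
  let c' : ι → (ι → SignType) → ZMod 2 := fun i σ =>
    if update σ a 1 ∈ 𝓡 then c i (update σ a 1) else c i (update σ a (-1))
  have key : ∀ i, i ≠ a → ∀ σ ∈ 𝓡, Fac (insert a T) i σ → c' i (update σ a 0) = c i σ := by
    intro i hi σ hσ hf
    simp only [c', update_idem]
    rcases Sign_cases (hf.2.2 a haT hi.symm) with p | p
    · rw [update_eq_self_iff.2 p.symm, if_pos hσ]
    have e : update σ a (-1) = σ := update_eq_self_iff.2 p.symm
    split_ifs with h1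
    · obtain ⟨ρ, hρ, h2, h3⟩ := h.elim _ h1 σ hσ a (update_self ..) p
      have h4 : ρ = update σ a 0 := funext fun k => by
        rcases eq_or_ne k a with rfl | hk
        · rw [update_self, h2]
        · rw [update_of_ne hk, h3 k (update_of_ne hk _ _), update_of_ne hk]
      have h5 := hc i a ρ hρ ⟨hf.1, haT, hi, by rw [h4, update_of_ne hi, hf.2.1], h2,
        fun k hk h6 h7 => by rw [h4, update_of_ne h7]; exact hf.2.2 k hk h6⟩
      rw [h0 _ ((update_of_ne hi.symm _ _).trans h2), h0 _ ((update_of_ne hi.symm _ _).trans h2),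
        add_zero, add_zero, h4, update_idem, update_idem, e] at h5
      exact CharTwo.add_eq_zero.1 h5
    · rw [e]
  obtain ⟨χ, hχ⟩ := ih (Sign_del h ha) (c := c') (by
    rintro i j _ ⟨σ, hσ, rfl⟩ hr
    obtain ⟨τ, hτ, h1, h2⟩ : ∃ τ ∈ 𝓡, τ a ≠ 0 ∧ update τ a 0 = update σ a 0 := by
      by_cases h1 : σ a = 0
      · exact ⟨_, h.lift σ hσ a haT h1 1, by rw [update_self]; decide, update_idem ..⟩
      · exact ⟨σ, hσ, h1, rfl⟩
    have hne : ∀ k ∈ T, k ≠ a := fun k hk q => ha (q ▸ hk)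
    have h3 : ∀ k ∈ T, τ k = update σ a 0 k := fun k hk => by rw [← h2, update_of_ne (hne k hk)]
    have h4 : Rid (insert a T) i j τ := ⟨Finset.mem_insert_of_mem hr.1,
      Finset.mem_insert_of_mem hr.2.1, hr.2.2.1, (h3 i hr.1).trans hr.2.2.2.1,
      (h3 j hr.2.1).trans hr.2.2.2.2.1, fun k hk h5 h6 => by
        rcases Finset.mem_insert.1 hk with rfl | hk
        · exact h1
        · rw [h3 k hk]
          exact hr.2.2.2.2.2 k hk h5 h6⟩
    have h5 : ∀ i ∈ T, ∀ j ∈ T, Rid (insert a T) i j τ → ∀ s, s ≠ 0 →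
        c' i (update (update σ a 0) j s) = c i (update τ j s) := fun i hi j hj q s hs => by
      rw [← h2, update_comm (hne j hj).symm]
      exact key i (hne i hi) _ (h.lift τ hτ j q.2.1 q.2.2.2.2.1 s) (Sign_fac q hs)
    beta_reduce
    rw [h5 i hr.1 j hr.2.1 h4 1 (by decide), h5 i hr.1 j hr.2.1 h4 (-1) (by decide),
      h5 j hr.2.1 i hr.1 (Sign_symm h4) 1 (by decide),
      h5 j hr.2.1 i hr.1 (Sign_symm h4) (-1) (by decide)]
    exact hc i j τ hτ h4)
  refine ⟨fun σ => χ (update σ a 0), fun i σ hσ hf => ?_⟩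
  rcases eq_or_ne i a with rfl | hi
  · simp only [update_idem]
    rw [CharTwo.add_self_eq_zero, h0 σ hf.2.1]
  · simp only [update_comm hi]
    rw [← key i hi σ hσ hf]
    refine hχ i _ ⟨σ, hσ, rfl⟩ ⟨(Finset.mem_insert.1 hf.1).resolve_left hi,
      (update_of_ne hi _ _).trans hf.2.1, fun k hk hne => ?_⟩
    have h1 : k ≠ a := fun q => ha (q ▸ hk)
    rw [update_of_ne h1]
    exact hf.2.2 k (Finset.mem_insert_of_mem hk) hne

theorem Sys.fill (h : Sys 𝓡 T) {c : ι → (ι → SignType) → ZMod 2} (hc : Evn 𝓡 T c) :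
    ∃ χ, Jump 𝓡 T c χ := by
  induction T using Finset.induction_on generalizing 𝓡 c with
  | empty => exact ⟨0, fun i σ _ hf => absurd hf.1 (Finset.notMem_empty i)⟩
  | insert a T ha ih =>
    let ψ : (ι → SignType) → ZMod 2 := fun τ => if τ a = -1 then c a (update τ a 0) else 0
    obtain ⟨χ, hχ⟩ := Sign_step (c := fun i σ => c i σ + (ψ (update σ i 1) + ψ (update σ i (-1))))
      h ha (fun i j σ hσ hr => by
        have h1 := hc i j σ hσ hr
        have h2 := CharTwo.add_self_eq_zero (ψ (update (update σ j 1) i 1) +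
          ψ (update (update σ j 1) i (-1)) + ψ (update (update σ j (-1)) i 1) +
            ψ (update (update σ j (-1)) i (-1)))
        simp only [update_comm hr.2.2.1]
        linear_combination h1 + h2) (fun σ h0 => by
        have h1 : update σ a 0 = σ := update_eq_self_iff.2 h0.symm
        simp only [ψ, update_self, update_idem, h1, if_true]
        rw [if_neg (by decide), zero_add, CharTwo.add_self_eq_zero]) ih
    refine ⟨fun σ => χ σ + ψ σ, fun i σ hσ hf => ?_⟩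
    have h1 := hχ i σ hσ hf
    have h2 := CharTwo.add_self_eq_zero (ψ (update σ i 1) + ψ (update σ i (-1)))
    linear_combination h1 + h2

/-- Counting: the kernel of an additive map is large. -/
theorem count_ker {α β γ : Type} [Fintype α] [Fintype β] [Fintype γ]
    (o : (α → ZMod 2) →+ (β → ZMod 2)) (ψ : (α → ZMod 2) → γ → ZMod 2)
    (h : ∀ S S', o S = 0 → o S' = 0 → ψ S = ψ S' → S = S') :
    Fintype.card α ≤ Fintype.card β + Fintype.card γ := by
  classical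
  have h0 : ∀ S, o (S - invFun o (o S)) = 0 := fun S => by
    rw [map_sub, invFun_eq (f := o) ⟨S, rfl⟩, sub_self]
  have h1 : Injective fun S => (o S, ψ (S - invFun o (o S))) := fun S S' e => by
    obtain ⟨e1, e2⟩ := Prod.mk.inj e
    have h2 := h _ _ (h0 S) (h0 S') e2
    rwa [e1, sub_left_inj] at h2
  have h3 := Fintype.card_le_of_injective _ h1
  simp only [Fintype.card_prod, Fintype.card_fun, ZMod.card, ← pow_add] at h3
  exact (pow_le_pow_iff_right₀ one_lt_two).1 h3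

end SA
end
end

-- merged part: Pool.Agent.Work.MP_8a5de9_co_B.Planar
section
-- part: Near
section
/-!
# Few segments are near a colour, on average

Let `P` be the set of pairs `a = (m, j)`, `m ∈ Rp`, `j ∈ Yc m`.  Choose for each a witness
`f, f', z` and the abscissa `x a` with `pt j (x a) ∈ segment f z ∩ seg j`; this point lies in the open
segment from `f` to `f'` and is interior to `j` (`Cr_sub`; `f` is off the line of `j`, so the point
is unique).  Let `Mt a = Mt A f f'`, `|Mt a| ≤ lam` (`Mt_le`), `j ∈ Mt a`.  A crosser of `j` is an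
`i ∈ A`, `i ≠ j`, with a point `pt j ξ ∈ seg i`, `lo j ≤ ξ ≤ hi j`; `ξ` is unique (`GP.slope`).
By `sep` (and `inj`) two pairs with the same `j` have different `x` and a crosser strictly between.

`chain`: counting lemma (map `a` to the number of crossers with position in `(x a₀, x a)`; this
number is strictly monotone in `x a`).

Pairs all of whose crossers to the right of `x a` lie in `Mt a`: at most `lam + 1` for each `j`
(`chain` with the leftmost one).  For the other pairs let `j⁺ a` be the crosser outside `Mt a` with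
the least position `> x a`.  With `p = 1 / (2 lam)` the event `j, j⁺ ∈ R`, `Mt a \ {j}` disjoint
from `R` has probability `p ^ 2 (1 - p) ^ |Mt a \ {j}| ≥ p ^ 2 / 2` (`Ex_ind`,
`one_add_mul_le_pow`).  For fixed `R ⊆ A` call a pair with the event leading if no other pair with
the event and the same `j` lies to its left without a crosser from `R` strictly between.  The
leading pairs give a set as in `edge_cls` for `(R, As)` (`gpAs`), so there are at most
`9 |As| ≤ 9 (2 n + c)`.  Every pair with the event has a leading pair `a₀` to its left with no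
crosser from `R` strictly between (take the leftmost pair with the event and no crosser from `R`
strictly between; no segment of `R` but `j` passes through the points of pairs with the event);
the crossers strictly between lie in `Mt a₀` (else `j⁺ a₀ ∈ R` lies between), so by `chain` at most
`lam + 1` pairs belong to `a₀`.  Total: `(lam + 1) n + (lam + 1) 9 (2 n + c) 8 lam ^ 2`.
-/

open Set Filter Topology

namespace SA

theorem chain {α β : Type} (P : Finset α) (x : α → ℝ) (Cs : Finset β) (ξ : β → ℝ) (T : Finset β)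
    (x₀ : ℝ) (h0 : ∀ a ∈ P, x₀ ≤ x a)
    (hsep : ∀ a ∈ P, ∀ b ∈ P, a ≠ b → x a ≤ x b → ∃ i ∈ Cs, x a < ξ i ∧ ξ i < x b)
    (hT : ∀ a ∈ P, ∀ i ∈ Cs, x₀ < ξ i → ξ i < x a → i ∈ T) : P.card ≤ T.card + 1 := by
  classical
  rw [← Finset.card_range (T.card + 1)]
  have key : ∀ a ∈ P, ∀ b ∈ P, a ≠ b → x a ≤ x b →
      (Cs.filter fun i => x₀ < ξ i ∧ ξ i < x a).card <
        (Cs.filter fun i => x₀ < ξ i ∧ ξ i < x b).card := by
    intro a ha b hb hne hle
    obtain ⟨i, hi, h1, h2⟩ := hsep a ha b hb hne hle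
    refine Finset.card_lt_card ⟨fun k hk => ?_, fun h => ?_⟩
    · obtain ⟨k1, k2, k3⟩ := Finset.mem_filter.1 hk
      exact Finset.mem_filter.2 ⟨k1, k2, k3.trans_le hle⟩
    · have h3 := h (Finset.mem_filter.2 ⟨hi, (h0 a ha).trans_lt h1, h2⟩)
      exact absurd (Finset.mem_filter.1 h3).2.2 (not_lt.2 h1.le)
  refine Finset.card_le_card_of_injOn
    (fun a => (Cs.filter fun i => x₀ < ξ i ∧ ξ i < x a).card) (fun a ha => ?_) ?_
  · refine Finset.mem_coe.2 (Finset.mem_range.2 (Nat.lt_succ_of_le (Finset.card_le_card ?_)))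
    intro i hi
    obtain ⟨h1, h2, h3⟩ := Finset.mem_filter.1 hi
    exact hT a ha i h1 h2 h3
  · intro a ha b hb hab
    by_contra hne
    rcases le_total (x a) (x b) with h | h
    · exact absurd hab (key a ha b hb hne h).ne
    · exact absurd hab (key b hb a ha (Ne.symm hne) h).ne'

/-- Pairs all of whose crossers to the right lie in their own set. -/
theorem Near_one {α J : Type} [DecidableEq J] (A : Finset J) (P : Finset α) (jj : α → J)
    (x : α → ℝ) (M : α → Finset J) (C : J → Finset J) (ξ : J → J → ℝ) (lam : ℕ)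
    (hj : ∀ a ∈ P, jj a ∈ A) (hMc : ∀ a ∈ P, (M a).card ≤ lam)
    (hsep : ∀ a ∈ P, ∀ b ∈ P, a ≠ b → jj a = jj b → x a ≤ x b →
      ∃ i ∈ C (jj a), x a < ξ (jj a) i ∧ ξ (jj a) i < x b)
    (h1 : ∀ a ∈ P, ∀ i ∈ C (jj a), x a < ξ (jj a) i → i ∈ M a) :
    P.card ≤ (lam + 1) * A.card := by
  refine Finset.card_le_mul_card_image_of_maps_to hj (lam + 1) fun j _ => ?_
  rcases (P.filter fun a => jj a = j).eq_empty_or_nonempty with h | h
  · rw [h]
    exact Nat.zero_le _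
  obtain ⟨a₀, ha₀, hmin⟩ := Finset.exists_min_image _ x h
  obtain ⟨p₀, e₀⟩ := Finset.mem_filter.1 ha₀
  refine (chain _ x (C j) (ξ j) (M a₀) (x a₀) hmin ?_ ?_).trans
    (Nat.add_le_add_right (hMc a₀ p₀) 1)
  · intro a ha b hb hne hle
    obtain ⟨pa, ea⟩ := Finset.mem_filter.1 ha
    obtain ⟨pb, eb⟩ := Finset.mem_filter.1 hb
    have := hsep a pa b pb hne (ea.trans eb.symm) hle
    rwa [ea] at this
  · intro a _ i hi h2 _
    rw [← e₀] at hi h2
    exact h1 a₀ p₀ i hi h2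

/-- Pairs with the event, for a fixed sample. -/
theorem Near_two {α J : Type} [DecidableEq J] (R : Finset J) (G : Finset α) (jj jp : α → J)
    (x : α → ℝ) (M : α → Finset J) (C : J → Finset J) (ξ : J → J → ℝ) (lam E : ℕ)
    (hMc : ∀ a ∈ G, (M a).card ≤ lam) (hC : ∀ j, j ∉ C j)
    (hsep : ∀ a ∈ G, ∀ b ∈ G, a ≠ b → jj a = jj b → x a ≤ x b →
      ∃ i ∈ C (jj a), x a < ξ (jj a) i ∧ ξ (jj a) i < x b)
    (hat : ∀ a ∈ G, ∀ i ∈ C (jj a), ξ (jj a) i = x a → i ∈ M a)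
    (hp : ∀ a ∈ G, jp a ∈ C (jj a) ∧ x a < ξ (jj a) (jp a) ∧
      ∀ i ∈ C (jj a), x a < ξ (jj a) i → ξ (jj a) i < ξ (jj a) (jp a) → i ∈ M a)
    (hev : ∀ a ∈ G, jp a ∈ R ∧ Disjoint ((M a).erase (jj a)) R)
    (hE : ∀ Q ⊆ G, (∀ a ∈ Q, ∀ b ∈ Q, jj a = jj b → x a < x b →
      ∃ i ∈ R, i ∈ C (jj a) ∧ x a < ξ (jj a) i ∧ ξ (jj a) i < x b) → Q.card ≤ E) :
    G.card ≤ (lam + 1) * E := by
  classical
  obtain ⟨L, hL⟩ : ∃ L : Finset α, ∀ a, a ∈ L ↔ a ∈ G ∧ ∀ b ∈ G, jj b = jj a → x b < x a →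
      ∃ i ∈ R, i ∈ C (jj b) ∧ x b < ξ (jj b) i ∧ ξ (jj b) i < x a :=
    ⟨G.filter _, fun a => Finset.mem_filter⟩
  obtain ⟨F, hF⟩ : ∃ F : α → Finset α, ∀ a₀ a, a ∈ F a₀ ↔ a ∈ G ∧ jj a = jj a₀ ∧ x a₀ ≤ x a ∧
      ∀ i ∈ R, i ∈ C (jj a₀) → x a₀ < ξ (jj a₀) i → x a ≤ ξ (jj a₀) i :=
    ⟨fun a₀ => G.filter _, fun a₀ a => Finset.mem_filter⟩
  have hLE : L.card ≤ E := hE L (fun a ha => ((hL a).1 ha).1) fun a ha b hb e h =>
    ((hL b).1 hb).2 a ((hL a).1 ha).1 e h
  have hFc : ∀ a₀ ∈ L, (F a₀).card ≤ lam + 1 := by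
    intro a₀ ha₀
    have g₀ := ((hL a₀).1 ha₀).1
    refine (chain _ x (C (jj a₀)) (ξ (jj a₀)) (M a₀) (x a₀) (fun a ha => ((hF a₀ a).1 ha).2.2.1)
      ?_ ?_).trans (Nat.add_le_add_right (hMc a₀ g₀) 1)
    · intro a ha b hb hne hle
      obtain ⟨pa, ea, -⟩ := (hF a₀ a).1 ha
      obtain ⟨pb, eb, -⟩ := (hF a₀ b).1 hb
      have := hsep a pa b pb hne (ea.trans eb.symm) hle
      rwa [ea] at this
    · intro a ha i hi h2 h3
      obtain ⟨q1, q2, q3⟩ := hp a₀ g₀
      refine q3 i hi h2 (h3.trans_le ?_)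
      exact ((hF a₀ a).1 ha).2.2.2 _ (hev a₀ g₀).1 q1 q2
  have hcov : G ⊆ L.biUnion F := by
    intro a ha
    obtain ⟨a₀, ha₀, hmin⟩ := Finset.exists_min_image (G.filter fun b => a ∈ F b) x
      ⟨a, Finset.mem_filter.2 ⟨ha, (hF a a).2 ⟨ha, rfl, le_rfl, fun i _ _ h => h.le⟩⟩⟩
    obtain ⟨g₀, f₀⟩ := Finset.mem_filter.1 ha₀
    refine Finset.mem_biUnion.2 ⟨a₀, (hL a₀).2 ⟨g₀, fun b hb e hlt => ?_⟩, f₀⟩
    obtain ⟨-, e₀, l₀, n₀⟩ := (hF a₀ a).1 f₀
    by_contra hn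
    refine absurd (hmin b (Finset.mem_filter.2 ⟨hb, (hF b a).2
      ⟨ha, e₀.trans e.symm, hlt.le.trans l₀, fun i hi hc h1 => ?_⟩⟩)) (not_le.2 hlt)
    rcases lt_trichotomy (ξ (jj b) i) (x a₀) with h2 | h2 | h2
    · exact absurd ⟨i, hi, hc, h1, h2⟩ hn
    · rw [e] at hc h2
      refine absurd hi (Finset.disjoint_left.1 (hev a₀ g₀).2 (Finset.mem_erase.2
        ⟨fun h3 => hC (jj a₀) ?_, hat a₀ g₀ i hc h2⟩))
      rwa [h3] at hc
    · rw [e] at hc h2 ⊢
      exact n₀ i hi hc h2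
  calc G.card ≤ (L.biUnion F).card := Finset.card_le_card hcov
    _ ≤ L.card * (lam + 1) := Finset.card_biUnion_le_card_mul L F _ hFc
    _ ≤ (lam + 1) * E := by
      rw [mul_comm]
      exact Nat.mul_le_mul_left _ hLE

theorem Near_prob {lam k : ℕ} (hlam : 1 ≤ lam) (hk : k ≤ lam) :
    1 / (8 * (lam : ℝ) ^ 2) ≤ (1 / (2 * (lam : ℝ))) ^ 2 * (1 - 1 / (2 * (lam : ℝ))) ^ k := by
  have h1 : (1 : ℝ) ≤ lam := by exact_mod_cast hlam
  have h2 : (k : ℝ) ≤ lam := by exact_mod_cast hk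
  have h3 : 1 / (2 * (lam : ℝ)) ≤ 1 := by
    rw [div_le_one (by linarith)]
    linarith
  have h4 := one_add_mul_le_pow (a := -(1 / (2 * (lam : ℝ)))) (by linarith) k
  have h5 : (k : ℝ) * (1 / (2 * (lam : ℝ))) ≤ 1 / 2 := by
    rw [mul_one_div, div_le_iff₀ (by linarith)]
    linarith
  have h6 : 1 / 2 ≤ (1 - 1 / (2 * (lam : ℝ))) ^ k := by
    rw [sub_eq_add_neg]
    linarith
  have h7 : 1 / (8 * (lam : ℝ) ^ 2) = (1 / (2 * (lam : ℝ))) ^ 2 * (1 / 2) := by
    field_simp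
    norm_num
  rw [h7]
  exact mul_le_mul_of_nonneg_left h6 (by positivity)

/-- The abstract counting statement. -/
theorem Near_abs {α J : Type} [DecidableEq J] (A : Finset J) (P : Finset α) (jj : α → J)
    (x : α → ℝ) (M : α → Finset J) (C : J → Finset J) (ξ : J → J → ℝ) (lam E : ℕ)
    (hlam : 1 ≤ lam) (hj : ∀ a ∈ P, jj a ∈ A) (hM : ∀ a ∈ P, M a ⊆ A)
    (hMc : ∀ a ∈ P, (M a).card ≤ lam) (hCA : ∀ j, C j ⊆ A) (hC : ∀ j, j ∉ C j)
    (hsep : ∀ a ∈ P, ∀ b ∈ P, a ≠ b → jj a = jj b → x a ≤ x b →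
      ∃ i ∈ C (jj a), x a < ξ (jj a) i ∧ ξ (jj a) i < x b)
    (hat : ∀ a ∈ P, ∀ i ∈ C (jj a), ξ (jj a) i = x a → i ∈ M a)
    (hE : ∀ R ⊆ A, ∀ Q ⊆ P, (∀ a ∈ Q, jj a ∈ R ∧ Disjoint ((M a).erase (jj a)) R) →
      (∀ a ∈ Q, ∀ b ∈ Q, jj a = jj b → x a < x b →
        ∃ i ∈ R, i ∈ C (jj a) ∧ x a < ξ (jj a) i ∧ ξ (jj a) i < x b) → Q.card ≤ E) :
    P.card ≤ (lam + 1) * A.card + (lam + 1) * E * (8 * lam ^ 2) := by
  classical
  rw [← Finset.card_filter_add_card_filter_not (s := P)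
    fun a => ∀ i ∈ C (jj a), x a < ξ (jj a) i → i ∈ M a]
  refine Nat.add_le_add (Near_one A _ jj x M C ξ lam
    (fun a ha => hj a (Finset.mem_filter.1 ha).1) (fun a ha => hMc a (Finset.mem_filter.1 ha).1)
    (fun a ha b hb => hsep a (Finset.mem_filter.1 ha).1 b (Finset.mem_filter.1 hb).1)
    fun a ha => (Finset.mem_filter.1 ha).2) ?_
  generalize hP₂ : (P.filter fun a => ¬∀ i ∈ C (jj a), x a < ξ (jj a) i → i ∈ M a) = P₂
  have hsub : P₂ ⊆ P := hP₂ ▸ Finset.filter_subset _ _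
  obtain ⟨jp, hp⟩ : ∃ jp : α → J, ∀ a ∈ P₂, jp a ∉ M a ∧ jp a ∈ C (jj a) ∧
      x a < ξ (jj a) (jp a) ∧
      ∀ i ∈ C (jj a), x a < ξ (jj a) i → ξ (jj a) i < ξ (jj a) (jp a) → i ∈ M a := by
    have h : ∀ a, ∃ k : J, a ∈ P₂ → k ∉ M a ∧ k ∈ C (jj a) ∧ x a < ξ (jj a) k ∧
        ∀ i ∈ C (jj a), x a < ξ (jj a) i → ξ (jj a) i < ξ (jj a) k → i ∈ M a := by
      intro a
      by_cases ha : a ∈ P₂
      · rw [← hP₂] at ha
        have h1 := (Finset.mem_filter.1 ha).2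
        push Not at h1
        obtain ⟨i, i1, i2, i3⟩ := h1
        obtain ⟨k, hk, hmin⟩ := Finset.exists_min_image
          ((C (jj a)).filter fun i => x a < ξ (jj a) i ∧ i ∉ M a) (ξ (jj a))
          ⟨i, Finset.mem_filter.2 ⟨i1, i2, i3⟩⟩
        obtain ⟨k1, k2, k3⟩ := Finset.mem_filter.1 hk
        refine ⟨k, fun _ => ⟨k3, k1, k2, fun l l1 l2 l3 => ?_⟩⟩
        by_contra l4
        exact absurd (hmin l (Finset.mem_filter.2 ⟨l1, l2, l4⟩)) (not_le.2 l3)
      · exact ⟨jj a, fun h => absurd h ha⟩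
    exact ⟨fun a => (h a).choose, fun a ha => (h a).choose_spec ha⟩
  have h1 : (1 : ℝ) ≤ lam := by exact_mod_cast hlam
  have p0 : 0 ≤ 1 / (2 * (lam : ℝ)) := by positivity
  have p1 : 1 / (2 * (lam : ℝ)) ≤ 1 := by
    rw [div_le_one (by linarith)]
    linarith
  have up : Ex A (1 / (2 * (lam : ℝ))) (fun R => ∑ a ∈ P₂,
      if ({jj a, jp a} : Finset J) ⊆ R ∧ Disjoint ((M a).erase (jj a)) R then (1 : ℝ) else 0) ≤
      (((lam + 1) * E : ℕ) : ℝ) := by
    rw [← Ex_const A (1 / (2 * (lam : ℝ))) (((lam + 1) * E : ℕ) : ℝ)]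
    refine Ex_mono p0 p1 fun R hR => ?_
    rw [Finset.sum_boole, Nat.cast_le]
    have hG : ∀ a ∈ P₂.filter fun a =>
        ({jj a, jp a} : Finset J) ⊆ R ∧ Disjoint ((M a).erase (jj a)) R,
        a ∈ P₂ ∧ jj a ∈ R ∧ jp a ∈ R ∧ Disjoint ((M a).erase (jj a)) R := by
      intro a ha
      obtain ⟨a1, a2, a3⟩ := Finset.mem_filter.1 ha
      exact ⟨a1, a2 (Finset.mem_insert_self _ _),
        a2 (Finset.mem_insert_of_mem (Finset.mem_singleton_self _)), a3⟩
    exact Near_two R _ jj jp x M C ξ lam E (fun a ha => hMc a (hsub (hG a ha).1)) hC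
      (fun a ha b hb => hsep a (hsub (hG a ha).1) b (hsub (hG b hb).1))
      (fun a ha => hat a (hsub (hG a ha).1)) (fun a ha => (hp a (hG a ha).1).2)
      (fun a ha => (hG a ha).2.2) fun Q hQ hq => hE R hR Q (fun a ha => hsub (hG a (hQ ha)).1)
        (fun a ha => ⟨(hG a (hQ ha)).2.1, (hG a (hQ ha)).2.2.2⟩) hq
  rw [Ex_sum] at up
  have lo : ∀ a ∈ P₂, 1 / (8 * (lam : ℝ) ^ 2) ≤ Ex A (1 / (2 * (lam : ℝ))) (fun R =>
      if ({jj a, jp a} : Finset J) ⊆ R ∧ Disjoint ((M a).erase (jj a)) R then (1 : ℝ) else 0) := by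
    intro a ha
    obtain ⟨q1, q2, -⟩ := hp a ha
    have hne : jj a ≠ jp a := fun e => hC (jj a) (by rwa [← e] at q2)
    rw [Ex_ind (Finset.insert_subset (hj a (hsub ha)) (Finset.singleton_subset_iff.2 (hCA _ q2)))
      ((Finset.erase_subset _ _).trans (hM a (hsub ha))) ?_, Finset.card_pair hne]
    · exact Near_prob hlam (Finset.card_erase_le.trans (hMc a (hsub ha)))
    · rw [Finset.disjoint_insert_left, Finset.disjoint_singleton_left]
      exact ⟨Finset.notMem_erase _ _, fun h => q1 (Finset.mem_of_mem_erase h)⟩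
  have h2 := (Finset.card_nsmul_le_sum P₂ _ _ lo).trans up
  rw [nsmul_eq_mul, mul_one_div, div_le_iff₀ (by positivity)] at h2
  exact_mod_cast h2

namespace Sg

namespace Sc

variable {J : Type} [DecidableEq J] {π : Sg J} (s : π.Sc)

/-- The crossing point of a segment near a colour. -/
theorem Near_pt {m : Pt} {j : J} (h : j ∈ s.Yc m) : ∃ f f' z, ∃ x : ℝ, s.Wt f f' z ∧
    s.κ f = s.κ m ∧ j ∈ π.Cr s.A f z ∧ π.pt j x ∈ segment ℝ f z ∧
      π.pt j x ∈ openSegment ℝ f f' ∧ π.lo j < x ∧ x < π.hi j := by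
  obtain ⟨hj, f, f', z, hw, hκ, hc⟩ := s.mem_Yc.1 h
  obtain ⟨-, hoff, w, hw1, hw2⟩ := mem_Cr.1 hc
  have ho : w ∈ openSegment ℝ f f' := by
    obtain ⟨a, b, ha, hb, hab, rfl⟩ := hw.2.1
    obtain ⟨c, d, hc, hd, hcd, e⟩ := hw1
    have hd' : 0 < d := by
      refine hd.lt_of_ne fun h0 => hoff ?_
      have h1 : c = 1 := by linarith
      rw [← h0, h1, one_smul, zero_smul, add_zero] at e
      rw [e]
      exact hw2.2.2
    refine ⟨c + d * a, d * b, by positivity, by positivity, ?_, ?_⟩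
    · linear_combination hcd + d * hab
    · rw [← e]
      module
  have hin := (s.gpAs subset_rfl).inner hj hw2 fun hm => hw.1.2.2.2.1 w hm ho
  rw [eq_pt hw2] at hw1 ho
  exact ⟨f, f', z, w.1, hw, hκ, hc, hw1, ho, hin⟩

omit [DecidableEq J] in
theorem Near_xi {S : Finset J} {An : Finset Pt} (gp : π.GP S An) {i j : J} (hi : i ∈ S)
    (hj : j ∈ S) (hne : i ≠ j) {y : ℝ} (h : π.pt j y ∈ π.seg i) (h' : π.pt j y ∈ π.seg j) :
    (π.ic i - π.ic j) / (π.sl j - π.sl i) = y := by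
  have h1 := sub_ne_zero.2 (gp.slope hj hi hne.symm h' h)
  have h2 := h.2.2
  simp only [pt, τ] at h2
  rw [div_eq_iff h1]
  linarith

theorem near_sum : ∑ m ∈ s.Rp, (s.Yc m).card ≤ 300 * s.lam ^ 3 * (s.A.card + s.Rp.card) := by
  classical
  have gp := s.gpAs subset_rfl
  obtain ⟨P, hPc, hP⟩ : ∃ P : Finset ((_ : Pt) × J), P.card = ∑ m ∈ s.Rp, (s.Yc m).card ∧
      ∀ a ∈ P, a.1 ∈ s.Rp ∧ a.2 ∈ s.Yc a.1 :=
    ⟨s.Rp.sigma fun m => s.Yc m, Finset.card_sigma _ _, fun a ha => Finset.mem_sigma.1 ha⟩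
  have hch : ∀ a : (_ : Pt) × J, ∃ f f' z, ∃ x : ℝ, a ∈ P → s.Wt f f' z ∧
      s.κ f = s.κ a.1 ∧ a.2 ∈ π.Cr s.A f z ∧ π.pt a.2 x ∈ segment ℝ f z ∧
        π.pt a.2 x ∈ openSegment ℝ f f' ∧ π.lo a.2 < x ∧ x < π.hi a.2 := by
    intro a
    by_cases ha : a ∈ P
    · obtain ⟨f, f', z, x, h⟩ := s.Near_pt (hP a ha).2
      exact ⟨f, f', z, x, fun _ => h⟩
    · exact ⟨0, 0, 0, 0, fun h => absurd h ha⟩
  choose f f' z x hx using hch
  obtain ⟨ξ, hξ⟩ : ∃ ξ : J → J → ℝ, ∀ i ∈ s.A, ∀ j ∈ s.A, i ≠ j → ∀ y, π.pt j y ∈ π.seg i →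
      π.pt j y ∈ π.seg j → ξ j i = y :=
    ⟨fun j i => (π.ic i - π.ic j) / (π.sl j - π.sl i), fun i hi j hj hne y h h' =>
      Near_xi gp hi hj hne h h'⟩
  obtain ⟨C, hC⟩ : ∃ C : J → Finset J, ∀ j i, i ∈ C j ↔
      i ∈ s.A ∧ i ≠ j ∧ π.pt j (ξ j i) ∈ π.seg i :=
    ⟨fun j => s.A.filter _, fun j i => Finset.mem_filter⟩
  have hA : ∀ a ∈ P, a.2 ∈ s.A := fun a ha => (s.mem_Yc.1 (hP a ha).2).1
  have hsep : ∀ a ∈ P, ∀ b ∈ P, a ≠ b → a.2 = b.2 → x a ≤ x b →
      ∃ i ∈ C a.2, x a < ξ a.2 i ∧ ξ a.2 i < x b := by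
    intro a ha b hb hne e hle
    obtain ⟨a1, a2, a3, a4, -, a6, -⟩ := hx a ha
    obtain ⟨b1, b2, b3, b4, -, -, b7⟩ := hx b hb
    rw [← e] at b3 b4 b7
    have hκ : s.κ (f a) ≠ s.κ (f b) := by
      rw [a2, b2]
      intro h
      exact hne (Sigma.ext (s.inj _ (hP a ha).1 _ (hP b hb).1 h) (heq_of_eq e))
    obtain ⟨i, i1, i2, y, y1, y2, y3⟩ := s.sep a1 b1 hκ a3 b3 a4 b4 hle
    have e2 := hξ i i1 a.2 (hA a ha) i2 y y3 (pt_mem.2 ⟨(a6.trans y1).le, (y2.trans b7).le⟩)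
    exact ⟨i, (hC _ _).2 ⟨i1, i2, e2 ▸ y3⟩, e2 ▸ y1, e2 ▸ y2⟩
  have main := Near_abs s.A P (fun a => a.2) x (fun a => π.Mt s.A (f a) (f' a)) C ξ s.lam
    (9 * s.As.card) s.hlam hA (fun a _ i hi => (mem_Mt.1 hi).1)
    (fun a ha => s.Mt_le (hx a ha).1.1) (fun j i hi => ((hC j i).1 hi).1)
    (fun j h => ((hC j j).1 h).2.1 rfl) hsep
    (fun a ha i hi e => by
      obtain ⟨i1, -, i3⟩ := (hC _ _).1 hi
      rw [e] at i3
      exact mem_Mt.2 ⟨i1, _, (hx a ha).2.2.2.2.1, i3⟩)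
    (fun R hR Q hQ h1 h2 => by
      have hinj : InjOn (fun a : (_ : Pt) × J => (a.2, x a)) Q := by
        intro a ha b hb e
        by_contra hne
        obtain ⟨e1, e2⟩ := Prod.ext_iff.1 e
        obtain ⟨i, -, i1, i2⟩ := hsep a (hQ ha) b (hQ hb) hne e1 (le_of_eq e2)
        exact absurd (i1.trans i2) (not_lt.2 (le_of_eq e2.symm))
      rw [← Finset.card_image_of_injOn hinj]
      refine edge_cls (s.gpAs hR) _ ?_ ?_
      · intro c hc
        obtain ⟨a, ha, rfl⟩ := Finset.mem_image.1 hc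
        obtain ⟨a1, -, a3, -, a5, a6, a7⟩ := hx a (hQ ha)
        refine ⟨(h1 a ha).1, a6, a7, f a, a1.1.1, f' a, a1.1.2.1, a5, (mem_Cr.1 a3).2.1,
          fun i hi hne => disjoint_left.2 fun w w1 w2 => ?_⟩
        exact Finset.disjoint_left.1 (h1 a ha).2
          (Finset.mem_erase.2 ⟨hne, mem_Mt.2 ⟨hR hi, w, w1, w2⟩⟩) hi
      · intro c hc d hd e hlt
        obtain ⟨a, ha, rfl⟩ := Finset.mem_image.1 hc
        obtain ⟨b, hb, rfl⟩ := Finset.mem_image.1 hd
        obtain ⟨i, i1, i2, i3, i4⟩ := h2 a ha b hb e hlt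
        obtain ⟨-, i5, i6⟩ := (hC _ _).1 i2
        exact ⟨i, i1, i5, _, i3, i4, i6⟩)
  rw [← hPc]
  refine main.trans ?_
  have h1 : s.As.card ≤ 2 * s.A.card + s.Rp.card := card_EM _ _
  have h2 := s.hlam
  generalize s.As.card = e at h1
  generalize s.A.card = n at h1 ⊢
  generalize s.Rp.card = c at h1 ⊢
  generalize s.lam = l at h2 ⊢
  have h3 : l + 1 ≤ 2 * l := by omega
  have h4 : l ≤ l ^ 3 := Nat.le_self_pow (by norm_num) l
  calc (l + 1) * n + (l + 1) * (9 * e) * (8 * l ^ 2)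
      ≤ 2 * l ^ 3 * n + 2 * l * (9 * (2 * n + c)) * (8 * l ^ 2) := by
        refine Nat.add_le_add (Nat.mul_le_mul_right _ (by omega)) ?_
        exact Nat.mul_le_mul_right _ (Nat.mul_le_mul h3 (Nat.mul_le_mul_left _ h1))
    _ = l ^ 3 * (290 * n + 144 * c) := by ring
    _ ≤ l ^ 3 * (300 * (n + c)) := Nat.mul_le_mul_left _ (by omega)
    _ = 300 * l ^ 3 * (n + c) := by ring

end Sc

end Sg

end SA
end

-- part: Bad
section
/-!
# Isolated colours and bad colours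

`count`: call `m ∈ Rp` isolated if no edge of `H R` has ends of different colours, one of them the
colour of `m`.  Different isolated points have different components of `Fr R`: otherwise
`vis_chain` (`gpR`; `Fr R ⊆ XA`) gives a chain from `m` to `m'` with a first change of colour, an
`Adj` pair with different abscissae (`gp.inj`), so an edge in one of the two orders (`Adj.symm`).
So there are at most `cl M R` isolated points (`fr`, `Fr_mono`).  A point that is not isolated is the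
representative of an end of a long edge (`inj`: at most two for each edge), or it is bad
(`sh_of_edge`, `PC_symm`, `Adj.disjoint_PC`).

`traces`: `x ∈ D j` iff (`∃ a ∈ D j, a ≤ x`) and (`∃ b ∈ D j, x ≤ b`); both sets of indices are
monotone in `x`, so determined by their cardinalities.

`shadow`: the set of `z` such that `[f, z]` meets a convex set `K` with `f ∉ K` is the set of the
`f + r (w - f)`, `r ≥ 1`, `w ∈ K`, which is convex; pull back along the affine map `pt i`.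

`bad_prob`: if `m ∈ Bad R`, `exists_wt` and `Cr_sub` give a witness with `Cr f z` disjoint from `R`.
Here `f` is one of at most `M₀ + 1` points, `z = pt i x` with `i ∈ Cr f z ⊆ Yc m`, and
`Cr f z = (Yc m).filter (x ∈ D ·)`, so there are at most `(M₀ + 1) M₀ (M₀ + 1) ^ 2` sets `Cr f z`,
each with at least `y` elements.  Union bound with `Ex_ind` (`I = ∅`).
-/

open Set Filter Topology

namespace SA

open Classical in
theorem Bad_chain {J : Type} (Y : Finset J) (P : J → ℝ → Prop)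
    (hP : ∀ j x x', x ≤ x' → P j x → P j x') {x x' : ℝ}
    (h : (Y.filter fun j => P j x).card = (Y.filter fun j => P j x').card) :
    (Y.filter fun j => P j x) = Y.filter fun j => P j x' := by
  have key : ∀ {x x' : ℝ}, x ≤ x' → (Y.filter fun j => P j x) ⊆ Y.filter fun j => P j x' :=
    fun h => Finset.monotone_filter_right Y fun j _ => hP j _ _ h
  rcases le_total x x' with h1 | h1
  · exact Finset.eq_of_subset_of_card_le (key h1) h.ge
  · exact (Finset.eq_of_subset_of_card_le (key h1) h.le).symm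

open Classical in
theorem traces {J : Type} (Y : Finset J) (D : J → Set ℝ) (hD : ∀ j, OrdConnected (D j))
    (𝒯 : Finset (Finset J)) (h : ∀ T ∈ 𝒯, ∃ x, T = Y.filter fun j => x ∈ D j) :
    𝒯.card ≤ (Y.card + 1) ^ 2 := by
  choose! x hx using h
  have e : ∀ t : ℝ, (Y.filter fun j => t ∈ D j) = (Y.filter fun j => ∃ a ∈ D j, a ≤ t) ∩
      Y.filter fun j => ∃ b ∈ D j, -b ≤ -t := fun t => by
    rw [← Finset.filter_and]
    refine Finset.filter_congr fun j _ => ⟨fun h => ⟨⟨t, h, le_rfl⟩, t, h, le_rfl⟩, ?_⟩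
    rintro ⟨⟨a, ha, h1⟩, b, hb, h2⟩
    exact (hD j).out ha hb ⟨h1, neg_le_neg_iff.1 h2⟩
  rw [pow_two, ← Finset.card_range (Y.card + 1), ← Finset.card_product]
  refine Finset.card_le_card_of_injOn (fun T => ((Y.filter fun j => ∃ a ∈ D j, a ≤ x T).card,
    (Y.filter fun j => ∃ b ∈ D j, -b ≤ -x T).card)) (fun T _ => ?_) fun T hT T' hT' h => ?_
  · exact Finset.mem_coe.2 (Finset.mem_product.2
      ⟨Finset.mem_range.2 (Nat.lt_succ_of_le (Finset.card_filter_le _ _)),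
        Finset.mem_range.2 (Nat.lt_succ_of_le (Finset.card_filter_le _ _))⟩)
  · obtain ⟨h1, h2⟩ := Prod.ext_iff.1 h
    rw [hx T hT, hx T' hT', e, e,
      Bad_chain Y (fun j t => ∃ a ∈ D j, a ≤ t) (fun j t t' h ⟨a, ha, h'⟩ => ⟨a, ha, h'.trans h⟩) h1,
      Bad_chain Y (fun j t => ∃ b ∈ D j, -b ≤ t) (fun j t t' h ⟨a, ha, h'⟩ => ⟨a, ha, h'.trans h⟩) h2]

namespace Sg

variable {J : Type} [DecidableEq J] {π : Sg J}

omit [DecidableEq J] in
theorem shadow (f : Pt) (i j : J) :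
    OrdConnected {x : ℝ | f.2 ≠ π.τ j f.1 ∧ ∃ w ∈ segment ℝ f (π.pt i x), w ∈ π.seg j} := by
  refine Convex.ordConnected ?_
  rintro x₁ ⟨hf, w₁, ⟨a₁, b₁, a1, b1, e1, rfl⟩, s1⟩ x₂ ⟨-, w₂, ⟨a₂, b₂, a2, b2, e2, rfl⟩, s2⟩ u v hu hv huv
  have key : ∀ {a b : ℝ} {z : Pt}, 0 ≤ b → a + b = 1 → a • f + b • z ∈ π.seg j → 0 < b := by
    intro a b z hb e h
    refine hb.lt_of_ne fun h0 => hf ?_
    subst h0
    rw [add_zero] at e
    rw [e, one_smul, zero_smul, add_zero] at h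
    exact h.2.2
  have p1 := key b1 e1 s1
  have p2 := key b2 e2 s2
  have hD : 0 < u * b₂ + v * b₁ := by
    rcases hu.eq_or_lt with rfl | h
    · rw [zero_add] at huv
      rw [huv]
      linarith
    · positivity
  obtain ⟨r, r0, hr⟩ : ∃ r, 0 < r ∧ r * (u * b₂ + v * b₁) = 1 :=
    ⟨_, inv_pos.2 hD, inv_mul_cancel₀ hD.ne'⟩
  obtain rfl : a₁ = 1 - b₁ := by linarith
  obtain rfl : a₂ = 1 - b₂ := by linarith
  obtain rfl : v = 1 - u := by linarith
  refine ⟨hf, _, ⟨1 - b₁ * b₂ * r, b₁ * b₂ * r, ?_, by positivity, by ring, rfl⟩, ?_⟩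
  · nlinarith [mul_nonneg r0.le (add_nonneg (mul_nonneg (mul_nonneg hu a1) b2)
      (mul_nonneg (mul_nonneg hv a2) b1))]
  · have h := convex_seg j s1 s2 (a := u * b₂ * r) (b := (1 - u) * b₁ * r)
      (by positivity) (by positivity) (by linear_combination hr)
    have e : (1 - b₁ * b₂ * r) • f + (b₁ * b₂ * r) • π.pt i (u • x₁ + (1 - u) • x₂) =
        (u * b₂ * r) • ((1 - b₁) • f + b₁ • π.pt i x₁) +
          ((1 - u) * b₁ * r) • ((1 - b₂) • f + b₂ • π.pt i x₂) := by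
      refine Prod.ext ?_ ?_ <;>
        simp only [pt, τ, Prod.fst_add, Prod.snd_add, Prod.smul_fst, Prod.smul_snd, smul_eq_mul]
      · linear_combination (-f.1) * hr
      · linear_combination (-f.2) * hr
    rw [e]
    exact h

namespace Sc

variable (s : π.Sc)

theorem count {R : Finset J} (hR : R ⊆ s.A) : s.Rp.card ≤ π.cl s.M R +
    2 * ((s.H R).filter fun a => s.lam ≤ (π.PC s.A a.1 a.2).card).card + (s.Bad R).card := by
  classical
  have gp := s.gpR hR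
  set Lg := (s.H R).filter fun a => s.lam ≤ (π.PC s.A a.1 a.2).card with hLg
  set Iso := s.Rp.filter fun m => ∀ a ∈ s.H R, s.κ a.1 ≠ s.κ a.2 → s.κ a.1 ≠ s.κ m ∧ s.κ a.2 ≠ s.κ m
    with hIso
  have sub : π.EM R s.Rp ⊆ s.As := EM_mono hR subset_rfl
  have h1 : Iso.card ≤ π.cl s.M R := by
    unfold cl
    refine Finset.card_le_card_of_injOn (cc (π.Fr R)) (fun m hm => Finset.mem_coe.2
      (Finset.mem_image_of_mem _ (s.sub (Finset.mem_filter.1 hm).1))) fun m hm m' hm' e => ?_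
    obtain ⟨m1, m2⟩ := Finset.mem_filter.1 hm
    have m1' := (Finset.mem_filter.1 hm').1
    have c1 : m' ∈ cc (π.XA R (π.EM R s.Rp)) m := by
      refine connectedComponentIn_mono m subset_union_left ?_
      change m' ∈ cc (π.Fr R) m
      rw [e]
      exact mem_connectedComponentIn (Fr_mono hR (s.nm.fr m' (s.sub m1')))
    have c2 := vis_chain gp (mem_EM.2 (Or.inr m1)) (mem_EM.2 (Or.inr m1')) c1
    have c3 : ∀ g, Relation.ReflTransGen (π.Adj R (π.EM R s.Rp)) m g → s.κ g = s.κ m := by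
      intro g hg
      induction hg with
      | refl => rfl
      | @tail f f' _ h2 ih =>
        by_contra hne
        have hne' : s.κ f ≠ s.κ f' := fun h => hne (h.symm.trans ih)
        rcases lt_trichotomy f.1 f'.1 with h3 | h3 | h3
        · exact (m2 (f, f') (mem_Ed.2 ⟨h3, h2⟩) hne').1 ih
        · exact hne' (congrArg s.κ (gp.inj f h2.1 f' h2.2.1 h3))
        · exact (m2 (f', f) (mem_Ed.2 ⟨h3, h2.symm⟩) hne'.symm).2 ih
    exact s.inj m m1 m' m1' (c3 m' c2).symm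
  have h2 : ∀ e, (s.Rp.filter fun m => s.κ e = s.κ m).card ≤ 1 := fun e =>
    Finset.card_le_one.2 fun m hm m' hm' => s.inj m (Finset.mem_filter.1 hm).1 m'
      (Finset.mem_filter.1 hm').1 ((Finset.mem_filter.1 hm).2.symm.trans (Finset.mem_filter.1 hm').2)
  have h3 : s.Rp ⊆ Iso ∪ (Lg.biUnion fun a => (s.Rp.filter fun m => s.κ a.1 = s.κ m) ∪
      s.Rp.filter fun m => s.κ a.2 = s.κ m) ∪ s.Bad R := by
    intro m hm
    by_cases hi : m ∈ Iso
    · exact Finset.mem_union_left _ (Finset.mem_union_left _ hi)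
    have : ∃ a ∈ s.H R, s.κ a.1 ≠ s.κ a.2 ∧ (s.κ a.1 = s.κ m ∨ s.κ a.2 = s.κ m) := by
      by_contra hc
      exact hi (Finset.mem_filter.2 ⟨hm, fun a ha hne =>
        ⟨fun h => hc ⟨a, ha, hne, Or.inl h⟩, fun h => hc ⟨a, ha, hne, Or.inr h⟩⟩⟩)
    obtain ⟨a, ha, hne, hor⟩ := this
    by_cases hl : s.lam ≤ (π.PC s.A a.1 a.2).card
    · refine Finset.mem_union_left _ (Finset.mem_union_right _ (Finset.mem_biUnion.2
        ⟨a, Finset.mem_filter.2 ⟨ha, hl⟩, Finset.mem_union.2 (hor.imp ?_ ?_)⟩)) <;>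
      exact fun h => Finset.mem_filter.2 ⟨hm, h⟩
    refine Finset.mem_union_right _ (s.mem_Bad.2 ⟨hm, ?_⟩)
    have adj := (mem_Ed.1 ha).2
    have dj := adj.disjoint_PC gp s.A
    rcases hor with h | h
    · obtain ⟨f, f', f1, f2, f3⟩ := s.sh_of_edge (sub adj.1) (sub adj.2.1) hne (not_le.1 hl)
      exact ⟨f, f', f1, f2.trans h, Finset.disjoint_of_subset_left f3 dj⟩
    · rw [PC_symm] at hl dj
      obtain ⟨f, f', f1, f2, f3⟩ := s.sh_of_edge (sub adj.2.1) (sub adj.1) hne.symm (not_le.1 hl)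
      exact ⟨f, f', f1, f2.trans h, Finset.disjoint_of_subset_left f3 dj⟩
  refine (Finset.card_le_card h3).trans ((Finset.card_union_le _ _).trans
    (Nat.add_le_add_right ((Finset.card_union_le _ _).trans (add_le_add h1 ?_)) _))
  rw [mul_comm]
  exact Finset.card_biUnion_le_card_mul _ _ _ fun a _ =>
    (Finset.card_union_le _ _).trans (add_le_add (h2 _) (h2 _))

open Classical in
theorem bad_prob {m : Pt} {M₀ : ℕ} (h1 : (s.Yc m).card ≤ M₀)
    (h2 : (s.As.filter fun f => s.κ f = s.κ m).card ≤ M₀ + 1) {t : ℝ} (h0 : 0 ≤ t) (ht : t ≤ 1) :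
    Ex s.A t (fun R => if m ∈ s.Bad R then 1 else 0) ≤ (M₀ + 1) ^ 4 * (1 - t) ^ s.y := by
  set Fs := s.As.filter fun f => s.κ f = s.κ m with hFs
  set 𝒯 : Pt × J → Finset (Finset J) := fun a => (s.Yc m).powerset.filter fun T =>
    s.y ≤ T.card ∧ ∃ x, T = (s.Yc m).filter fun j => x ∈ {x : ℝ | a.1.2 ≠ π.τ j a.1.1 ∧
      ∃ w ∈ segment ℝ a.1 (π.pt a.2 x), w ∈ π.seg j} with h𝒯
  set U := (Fs ×ˢ s.Yc m).biUnion 𝒯 with hU
  have hY : s.Yc m ⊆ s.A := fun j hj => (s.mem_Yc.1 hj).1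
  have c1 : U.card ≤ (M₀ + 1) ^ 4 := by
    refine (Finset.card_biUnion_le_card_mul _ _ ((M₀ + 1) ^ 2) fun a _ => ?_).trans ?_
    · exact (traces (s.Yc m) _ (fun j => shadow (π := π) a.1 a.2 j) _
        fun T hT => (Finset.mem_filter.1 hT).2.2.imp fun x hx =>
          hx.trans (Finset.ext fun j => by simp only [Finset.mem_filter])).trans (by gcongr)
    · rw [Finset.card_product, show (M₀ + 1) ^ 4 = (M₀ + 1) * (M₀ + 1) * (M₀ + 1) ^ 2 by ring]
      exact Nat.mul_le_mul_right _ (Nat.mul_le_mul h2 (h1.trans (Nat.le_succ _)))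
  have c2 : ∀ R ⊆ s.A, (if m ∈ s.Bad R then 1 else 0 : ℝ) ≤
      ∑ T ∈ U, if ∅ ⊆ R ∧ Disjoint T R then 1 else 0 := by
    intro R _
    have nn : ∀ T ∈ U, (0 : ℝ) ≤ if ∅ ⊆ R ∧ Disjoint T R then 1 else 0 := fun T _ => by
      split_ifs <;> norm_num
    split_ifs with hb
    · obtain ⟨-, f, f', b1, b2, b3⟩ := s.mem_Bad.1 hb
      obtain ⟨z, hz⟩ := s.exists_wt b1
      have hsub : π.Cr s.A f z ⊆ s.Yc m := fun j hj =>
        s.mem_Yc.2 ⟨(mem_Cr.1 hj).1, f, f', z, hz, b2, hj⟩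
      obtain ⟨i, i1, i2, i3⟩ := hz.2.2.1
      have hm : π.Cr s.A f z ∈ U := by
        refine Finset.mem_biUnion.2 ⟨(f, i), Finset.mem_product.2 ⟨Finset.mem_filter.2 ⟨b1.1, b2⟩,
          hsub (mem_Cr.2 ⟨i1, i3, z, right_mem_segment _ _ _, i2⟩)⟩, Finset.mem_filter.2
          ⟨Finset.mem_powerset.2 hsub, hz.2.2.2.1, z.1, ?_⟩⟩
        ext j
        rw [Finset.mem_filter, mem_ofPred_eq, ← eq_pt i2]
        exact ⟨fun hj => ⟨hsub hj, (mem_Cr.1 hj).2⟩, fun hj => mem_Cr.2 ⟨hY hj.1, hj.2⟩⟩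
      refine le_trans (le_of_eq ?_) (Finset.single_le_sum nn hm)
      rw [if_pos ⟨Finset.empty_subset _,
        Finset.disjoint_of_subset_left (s.Cr_sub b1 hz.2.1) b3⟩]
    · exact Finset.sum_nonneg nn
  refine (Ex_mono h0 ht c2).trans ?_
  rw [Ex_sum]
  refine (Finset.sum_le_card_nsmul _ _ ((1 - t) ^ s.y) fun T hT => ?_).trans ?_
  · obtain ⟨a, -, ha⟩ := Finset.mem_biUnion.1 hT
    obtain ⟨a1, a2, -⟩ := Finset.mem_filter.1 ha
    rw [Ex_ind (Finset.empty_subset _) ((Finset.mem_powerset.1 a1).trans hY)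
      (Finset.disjoint_empty_left _), Finset.card_empty, pow_zero, one_mul]
    exact pow_le_pow_of_le_one (sub_nonneg.2 ht) (by linarith) a2
  · rw [nsmul_eq_mul]
    exact mul_le_mul_of_nonneg_right (by exact_mod_cast c1) (pow_nonneg (sub_nonneg.2 ht) _)

end Sc

end Sg

end SA
end

-- part: Few
section
/-!
# The number of colours

Let `δ = 2 ^ (13 + k)`, `y = 2 ^ (11 + k)`, `lam = δ ^ 2`, `M₀ = δ ^ 9`, `ρ = (k + 1) / 2 ^ (k + 1)`,
`n = |A|`, `c = |Rp| = nc` (`Nm.exists_rep`, `card_Rp`).  `long_edges` with `H = s.H`,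
`C a = PC A a.1 a.2`, `a = 8`, `b = 4 c` (`card_Ed`, `card_EM`), `a' = 20`, `b' = 10 c` (`created`
with `An' j = EM (R.erase j) Rp`) gives `t ∈ [ρ, 2 ρ]` with
`lam * E long ≤ (28 ρ n + 14 c) / ρ`.  Take the expectation of `count` at rate `t`.
`E cl ≤ Ex A (2 ρ) cl` (`Ex_rate_mono`, `cl_mono`).  `|Bad R|` is the sum of indicators; call `m`
big if `|Yc m| > M₀` or more than `M₀ + 1` points of `As` have its colour.  By `near_sum` the first
kind has at most `300 lam ^ 3 (n + c) / M₀` members; the colour classes are disjoint subsets of `As`,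
each contains one point of `Rp`, so the second kind has at most `2 n / M₀` members.  For the others
`bad_prob` gives `(M₀ + 1) ^ 4 (1 - t) ^ y ≤ 1 / 8`, since
`(1 - t) ^ y ≤ exp (-ρ y) = exp (-1024 (k + 1)) ≤ (1 / 2) ^ (1024 (k + 1))` and
`(M₀ + 1) ^ 4 ≤ 2 ^ (4 + 36 (13 + k))`.
-/

open Set Filter Topology

namespace SA

theorem Few_num (k : ℕ) {t : ℝ} (h0 : ((k : ℝ) + 1) / 2 ^ (k + 1) ≤ t) (h1 : t ≤ 1) :
    ((((2 ^ (13 + k)) ^ 9 : ℕ) : ℝ) + 1) ^ 4 * (1 - t) ^ (2 ^ (11 + k)) ≤ 1 / 8 := by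
  have e1 : (1 - t) ^ (2 ^ (11 + k)) ≤ (1 / 2 : ℝ) ^ (1024 * (k + 1)) := by
    calc (1 - t) ^ (2 ^ (11 + k)) ≤ Real.exp (-t) ^ (2 ^ (11 + k)) :=
          pow_le_pow_left₀ (by linarith) (by linarith [Real.add_one_le_exp (-t)]) _
      _ ≤ Real.exp (-1) ^ (1024 * (k + 1)) := by
          rw [← Real.exp_nat_mul, ← Real.exp_nat_mul]
          refine Real.exp_le_exp.2 ?_
          rw [div_le_iff₀ (by positivity)] at h0
          have e : (2 : ℝ) ^ (11 + k) = 1024 * 2 ^ (k + 1) := by ring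
          push_cast
          rw [e]
          linarith
      _ ≤ (1 / 2 : ℝ) ^ (1024 * (k + 1)) := by
          refine pow_le_pow_left₀ (Real.exp_pos _).le ?_ _
          rw [Real.exp_neg, one_div]
          exact inv_anti₀ (by norm_num) (by linarith [Real.add_one_le_exp (1 : ℝ)])
  have e2 : ((((2 ^ (13 + k)) ^ 9 : ℕ) : ℝ) + 1) ^ 4 ≤ 2 ^ ((1 + (13 + k) * 9) * 4) := by
    rw [pow_mul (2 : ℝ)]
    refine pow_le_pow_left₀ (by positivity) ?_ _
    have h2 : (1 : ℝ) ≤ 2 ^ ((13 + k) * 9) := one_le_pow₀ (by norm_num)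
    rw [pow_add (2 : ℝ), pow_one, ← pow_mul, Nat.cast_pow, Nat.cast_ofNat]
    linarith
  have e3 : (2 : ℝ) ^ ((1 + (13 + k) * 9) * 4) * 8 ≤ 2 ^ (1024 * (k + 1)) := by
    rw [show (8 : ℝ) = 2 ^ 3 by norm_num, ← pow_add]
    exact pow_le_pow_right₀ (by norm_num) (by omega)
  refine (mul_le_mul e2 e1 (pow_nonneg (by linarith) _) (by positivity)).trans ?_
  rw [one_div_pow, mul_one_div, div_le_div_iff₀ (by positivity) (by norm_num), one_mul]
  exact e3

theorem Few_fin {c n E L B₁ B₂ d u : ℝ} (hc : 0 ≤ c) (hn : 0 ≤ n) (hd : 8192 ≤ d)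
    (hu : u ≤ d) (h0 : c ≤ E + 2 * L + (B₁ + B₂ + c / 8)) (h1 : d ^ 2 * L ≤ 28 * n + 14 * c * u)
    (h2 : B₁ * d ^ 9 ≤ 300 * (d ^ 2) ^ 3 * (n + c)) (h3 : B₂ * d ^ 9 ≤ 2 * n + c) :
    c ≤ 2 * E + 200 * n / d ^ 2 := by
  have d0 : 0 < d := by linarith
  have d2 : 0 < d ^ 2 := by positivity
  have e2 : B₁ * d ^ 2 ≤ n + c := by
    refine le_of_mul_le_mul_right ?_ (pow_pos d0 7)
    calc B₁ * d ^ 2 * d ^ 7 = B₁ * d ^ 9 := by ring
      _ ≤ 300 * (d ^ 2) ^ 3 * (n + c) := h2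
      _ = 300 * (d ^ 6 * (n + c)) := by ring
      _ ≤ d * (d ^ 6 * (n + c)) := mul_le_mul_of_nonneg_right (by linarith) (by positivity)
      _ = (n + c) * d ^ 7 := by ring
  have e3 : B₂ * d ^ 2 ≤ 2 * n + c := by
    refine le_of_mul_le_mul_right ?_ (pow_pos d0 7)
    calc B₂ * d ^ 2 * d ^ 7 = B₂ * d ^ 9 := by ring
      _ ≤ 2 * n + c := h3
      _ ≤ (2 * n + c) * d ^ 7 :=
        le_mul_of_one_le_right (by positivity) (one_le_pow₀ (by linarith))
  have e4 : c * u ≤ c * d := mul_le_mul_of_nonneg_left hu hc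
  have e5 : 8192 * (c * d) ≤ c * d ^ 2 := by
    have := mul_le_mul_of_nonneg_right hd (mul_nonneg hc d0.le)
    linarith [show d * (c * d) = c * d ^ 2 by ring]
  have e6 : 8192 * c ≤ c * d := by
    have := mul_le_mul_of_nonneg_right hd hc
    linarith [mul_comm d c]
  have e7 := mul_le_mul_of_nonneg_right h0 d2.le
  rw [← sub_le_iff_le_add', le_div_iff₀ d2]
  linarith [show (E + 2 * L + (B₁ + B₂ + c / 8)) * d ^ 2 =
    E * d ^ 2 + 2 * (d ^ 2 * L) + B₁ * d ^ 2 + B₂ * d ^ 2 + c * d ^ 2 / 8 by ring,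
    show (c - 2 * E) * d ^ 2 = c * d ^ 2 - 2 * (E * d ^ 2) by ring,
    show 14 * c * u = 14 * (c * u) by ring]

namespace Sg

variable {J : Type} [DecidableEq J] {π : Sg J} {A : Finset J} {M : Finset Pt}

theorem Few_long (s : π.Sc) {ρ : ℝ} (h0 : 0 < ρ) (h1 : 2 * ρ ≤ 1) :
    ∃ t, ρ ≤ t ∧ t ≤ 2 * ρ ∧ s.lam * Ex s.A t (fun R =>
      (((s.H R).filter fun a => s.lam ≤ (π.PC s.A a.1 a.2).card).card : ℝ)) ≤
        28 * s.A.card + 14 * s.Rp.card * ρ⁻¹ := by
  have hE : ∀ R : Finset J, ((π.EM R s.Rp).card : ℝ) ≤ 2 * R.card + s.Rp.card := fun R => by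
    exact_mod_cast card_EM R s.Rp
  obtain ⟨t, t1, t2, t3⟩ := long_edges s.A s.H (fun a => π.PC s.A a.1 a.2) s.lam
    (a := 8) (b := 4 * s.Rp.card) (a' := 20) (b' := 10 * s.Rp.card) (by norm_num) (by positivity)
    (by norm_num) (by positivity) h0 h1 (fun a => PC_sub _ _ _)
    (fun R hR a ha => (mem_Ed.1 ha).2.disjoint_PC (s.gpR hR) s.A)
    (fun R hR => by
      have h2 : ((s.H R).card : ℝ) ≤ 4 * (π.EM R s.Rp).card := by
        exact_mod_cast card_Ed (s.gpR hR)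
      linarith [hE R])
    (fun R hR => by
      have h2 : (∑ j ∈ R, ((s.H R \ s.H (R.erase j)).card : ℝ)) ≤ 10 * (π.EM R s.Rp).card := by
        have h3 := created (s.gpR hR) (fun j => π.EM (R.erase j) s.Rp)
          (fun j _ => s.gpR ((Finset.erase_subset j R).trans hR))
          (fun j _ => EM_mono (Finset.erase_subset j R) subset_rfl)
          (fun j hj e he hn => by
            refine mem_EM.2 ((mem_EM.1 he).imp (fun h4 => ?_) id)
            obtain ⟨i, hi, h5⟩ := mem_En.1 h4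
            refine mem_En.2 ⟨i, Finset.mem_erase.2 ⟨?_, hi⟩, h5⟩
            rintro rfl
            have h6 := ((s.gpR hR).lt i hi).le
            rcases h5 with rfl | rfl
            exacts [hn (pt_mem.2 ⟨le_rfl, h6⟩), hn (pt_mem.2 ⟨h6, le_rfl⟩)])
        exact_mod_cast h3
      linarith [hE R])
  refine ⟨t, t1, t2, t3.trans (le_of_eq ?_)⟩
  field_simp
  ring

open Classical in
theorem Few_class (s : π.Sc) :
    ∑ m ∈ s.Rp, (s.As.filter fun f => s.κ f = s.κ m).card ≤ 2 * s.A.card + s.Rp.card := by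
  rw [← Finset.card_biUnion]
  · refine (Finset.card_le_card ?_).trans (card_EM (π := π) s.A s.Rp)
    exact Finset.biUnion_subset.2 fun m _ => Finset.filter_subset _ _
  · intro m hm m' hm' hne
    refine Finset.disjoint_left.2 fun f h1 h2 => hne (s.inj m hm m' hm' ?_)
    exact (Finset.mem_filter.1 h1).2.symm.trans (Finset.mem_filter.1 h2).2

theorem Few_markov {α : Type} (T : Finset α) (g : α → ℕ) (N : ℕ) :
    (T.filter fun m => N < g m).card * N ≤ ∑ m ∈ T, g m := by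
  refine le_trans ?_ (Finset.sum_le_sum_of_subset (Finset.filter_subset (fun m => N < g m) T))
  rw [← smul_eq_mul]
  exact Finset.card_nsmul_le_sum _ _ _ fun m hm => (Finset.mem_filter.1 hm).2.le

open Classical in
theorem Few_bad (s : π.Sc) (M₀ : ℕ) {t : ℝ} (h0 : 0 ≤ t) (h1 : t ≤ 1)
    (h2 : ((M₀ : ℝ) + 1) ^ 4 * (1 - t) ^ s.y ≤ 1 / 8) :
    Ex s.A t (fun R => ((s.Bad R).card : ℝ)) ≤
      (s.Rp.filter fun m => M₀ < (s.Yc m).card).card +
        (s.Rp.filter fun m => M₀ < (s.As.filter fun f => s.κ f = s.κ m).card).card +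
          s.Rp.card / 8 := by
  have e1 : Ex s.A t (fun R => ((s.Bad R).card : ℝ)) =
      ∑ m ∈ s.Rp, Ex s.A t (fun R => if m ∈ s.Bad R then 1 else 0) := by
    rw [← Ex_sum]
    refine Ex_congr fun R _ => ?_
    rw [Finset.sum_boole]
    congr 2
    ext m
    simp only [Finset.mem_filter]
    exact ⟨fun h => ⟨(s.mem_Bad.1 h).1, h⟩, fun h => h.2⟩
  have e2 : ∀ m ∈ s.Rp, Ex s.A t (fun R => if m ∈ s.Bad R then 1 else 0) ≤
      (if M₀ < (s.Yc m).card then 1 else 0) +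
        (if M₀ < (s.As.filter fun f => s.κ f = s.κ m).card then 1 else 0) + 1 / 8 := by
    intro m _
    have e3 : Ex s.A t (fun R => if m ∈ s.Bad R then 1 else 0) ≤ 1 := by
      refine (Ex_mono h0 h1 (g := fun _ => 1) fun R _ => ?_).trans (Ex_const _ _ _).le
      split_ifs <;> norm_num
    by_cases c1 : M₀ < (s.Yc m).card
    · rw [if_pos c1]
      split_ifs <;> linarith
    by_cases c2 : M₀ < (s.As.filter fun f => s.κ f = s.κ m).card
    · rw [if_neg c1, if_pos c2]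
      linarith
    rw [if_neg c1, if_neg c2, zero_add, zero_add]
    exact (s.bad_prob (not_lt.1 c1) ((not_lt.1 c2).trans (Nat.le_succ _)) h0 h1).trans h2
  rw [e1]
  refine (Finset.sum_le_sum e2).trans (le_of_eq ?_)
  rw [Finset.sum_add_distrib, Finset.sum_add_distrib, Finset.sum_boole, Finset.sum_boole,
    Finset.sum_const, nsmul_eq_mul]
  ring

theorem few_colours (h : π.Nm A M) (k : ℕ) :
    (π.nc A (π.EM A M) (2 ^ (13 + k)) : ℝ) ≤
      2 * Ex A ((k + 1) / 2 ^ k) (fun R => (π.cl M R : ℝ)) +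
        200 * A.card / (2 ^ (13 + k)) ^ 2 := by
  classical
  have p1 : 1 ≤ 2 ^ k := Nat.one_le_two_pow
  have p2 : 2 ^ (13 + k) = 8192 * 2 ^ k := by ring
  have p3 : 2 ^ (11 + k) = 2048 * 2 ^ k := by ring
  obtain ⟨Rp, r1, r2, r3⟩ := h.exists_rep (δ := 2 ^ (13 + k)) (by omega)
  let s : π.Sc := ⟨A, M, Rp, 2 ^ (13 + k), 2 ^ (11 + k), (2 ^ (13 + k)) ^ 2, h, r1, r2, r3,
    Nat.one_le_two_pow, by omega, Nat.one_le_pow _ _ (by positivity)⟩
  have hc : Rp.card = π.nc A (π.EM A M) (2 ^ (13 + k)) := s.card_Rp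
  have q0 : (0 : ℝ) < (k + 1) / 2 ^ (k + 1) := by positivity
  have q1 : 2 * (((k : ℝ) + 1) / 2 ^ (k + 1)) = (k + 1) / 2 ^ k := by
    rw [pow_succ]
    field_simp
  have q2 : ((k : ℝ) + 1) / 2 ^ k ≤ 1 := by
    rw [div_le_one (by positivity)]
    exact_mod_cast Nat.lt_two_pow_self
  obtain ⟨t, t1, t2, t3⟩ := Few_long s q0 (q1 ▸ q2)
  rw [q1] at t2
  have t0 : 0 ≤ t := q0.le.trans t1
  have t4 : t ≤ 1 := t2.trans q2
  have b0 := Few_bad s ((2 ^ (13 + k)) ^ 9) t0 t4 (Few_num k t1 t4)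
  have b1 := (Few_markov s.Rp (fun m => (s.Yc m).card) ((2 ^ (13 + k)) ^ 9)).trans s.near_sum
  have b2 := (Few_markov s.Rp (fun m => (s.As.filter fun f => s.κ f = s.κ m).card)
    ((2 ^ (13 + k)) ^ 9)).trans (Few_class s)
  have c1 : Ex A t (fun R => (π.cl M R : ℝ)) ≤ Ex A ((k + 1) / 2 ^ k) (fun R => (π.cl M R : ℝ)) :=
    Ex_rate_mono t0 t2 q2 fun R R' h1 h2 => by
      exact_mod_cast cl_mono M h1 fun m hm => Fr_mono h2 (h.fr m hm)
  have c2 : (s.Rp.card : ℝ) ≤ Ex A t (fun R => (π.cl M R : ℝ)) + 2 * Ex s.A t (fun R =>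
      (((s.H R).filter fun a => s.lam ≤ (π.PC s.A a.1 a.2).card).card : ℝ)) +
        Ex s.A t (fun R => ((s.Bad R).card : ℝ)) := by
    rw [← Ex_mul, ← Ex_add, ← Ex_add, ← Ex_const A t (s.Rp.card : ℝ)]
    exact Ex_mono t0 t4 fun R hR => by exact_mod_cast s.count hR
  rw [← hc]
  refine Few_fin (u := (((k : ℝ) + 1) / 2 ^ (k + 1))⁻¹) (Nat.cast_nonneg _) (Nat.cast_nonneg _)
    ?_ ?_ (c2.trans (add_le_add (add_le_add c1 le_rfl) b0)) ?_ ?_ ?_
  · have : (1 : ℝ) ≤ 2 ^ k := one_le_pow₀ (by norm_num)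
    rw [pow_add]
    linarith
  · rw [inv_div]
    refine (div_le_self (by positivity) (by linarith [Nat.cast_nonneg (α := ℝ) k])).trans ?_
    exact pow_le_pow_right₀ (by norm_num) (by omega)
  · have e : ((s.lam : ℕ) : ℝ) = (2 ^ (13 + k)) ^ 2 := by
      simp only [s, Nat.cast_pow, Nat.cast_ofNat]
    rw [← e]
    exact t3
  · exact_mod_cast b1
  · exact_mod_cast b2

end Sg

end SA
end

-- part: CellA
section
/-!
# The theta axiom for regions

Different nodes are disjoint (`Reg_disjoint`, `notMem_O`).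

`poly_of_gconn`: every point of a node is joined to every point of a neighbouring node inside the
union (`convex_Reg`, `openSegment_sub_Reg`).

`th_geo`: apply `theta` to the unions `X i` of the `G i`.  The span of `e` between its touches lies
on `seg j` and contains no anchor, so it misses all nodes.  If `j = j'` the spans of `e ≠ e'` are
disjoint (say `e.1 < e'.1`; the touches of `e` are left of `e'.1`).  Otherwise the slopes differ and
the common abscissa is the quotient; it is not a touch abscissa, because `seg j'` has points above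
the line of `j` arbitrarily near an interior crossing.
-/

open Set Filter Topology

namespace SA

namespace Sg

variable {J : Type} [DecidableEq J] {π : Sg J} {S : Finset J} {An : Finset Pt}

omit [DecidableEq J] in
theorem CellA_convex (gp : π.GP S An) {v : Set Pt} (h : π.Node S An v) :
    Convex ℝ v ∧ v.Nonempty := by
  rcases h with ⟨e, -, rfl⟩ | ⟨p, hp, rfl, -⟩
  · exact ⟨convex_singleton e, singleton_nonempty e⟩
  · exact ⟨convex_Reg gp p, p, mem_Reg_self hp⟩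

omit [DecidableEq J] in
theorem CellA_disj (gp : π.GP S An) {u v : Set Pt} (hu : π.Node S An u) (hv : π.Node S An v)
    (hne : u ≠ v) : Disjoint u v := by
  rcases hu with ⟨e, he, rfl⟩ | ⟨p, -, rfl, -⟩
  · rcases hv with ⟨e', -, rfl⟩ | ⟨q, -, rfl, -⟩
    · exact disjoint_singleton.2 fun h => hne (by rw [h])
    · exact disjoint_singleton_left.2 fun h => notMem_O he (Reg_sub S An q h)
  · rcases hv with ⟨e', he', rfl⟩ | ⟨q, -, rfl, -⟩
    · exact disjoint_singleton_right.2 fun h => notMem_O he' (Reg_sub S An p h)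
    · exact Reg_disjoint gp hne

omit [DecidableEq J] in
theorem CellA_disjU (gp : π.GP S An) {G G' : Finset (Set Pt)} (n : ∀ v ∈ G, π.Node S An v)
    (n' : ∀ v ∈ G', π.Node S An v) (d : Disjoint G G') :
    Disjoint (⋃ v ∈ G, v) (⋃ v ∈ G', v) := by
  refine disjoint_left.2 fun q h h' => ?_
  obtain ⟨u, hu, hq⟩ := mem_iUnion₂.1 h
  obtain ⟨v, hv, hq'⟩ := mem_iUnion₂.1 h'
  have hne : u ≠ v := fun e => Finset.disjoint_left.1 d hu (e ▸ hv)
  exact disjoint_left.1 (CellA_disj gp (n u hu) (n' v hv) hne) hq hq'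

omit [DecidableEq J] in
theorem CellA_seg (gp : π.GP S An) {p q e : Pt} {X : Set Pt} (hq : q ∈ π.Reg S An p)
    (he : e ∈ closure (π.Reg S An p)) (h1 : π.Reg S An p ⊆ X) (h2 : e ∈ X) :
    segment ℝ q e ⊆ X := by
  rw [← insert_endpoints_openSegment]
  exact insert_subset (h1 hq) (insert_subset h2 ((openSegment_sub_Reg gp hq he).trans h1))

omit [DecidableEq J] in
/-- The span of a piece misses all nodes. -/
theorem CellA_span {e : Pt} {j : J} (hj : j ∈ S) {G : Finset (Set Pt)}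
    (n : ∀ v ∈ G, π.Node S An v) {u u' : Set Pt} {a a' x : ℝ} (t : π.Tch An u e j a)
    (t' : π.Tch An u' e j a') (h : a ≤ x) (h' : x ≤ a') : π.pt j x ∉ ⋃ v ∈ G, v := by
  intro hq
  obtain ⟨v, hv, hq⟩ := mem_iUnion₂.1 hq
  have hs : π.pt j x ∈ π.seg j :=
    pt_mem.2 ⟨t.1.1.trans (t.2.1.le.trans h), h'.trans t'.2.2.1.le⟩
  rcases n v hv with ⟨g, hg, rfl⟩ | ⟨p, -, rfl, -⟩
  · rw [mem_singleton_iff] at hq
    subst hq
    exact absurd (t'.2.2.2.1 _ hg hs (t.2.1.trans_le h)) (not_lt.2 h')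
  · exact (Reg_sub S An p hq).1 j hj hs

omit [DecidableEq J] in
/-- A touch is not at an interior crossing. -/
theorem CellA_ne {j j' : J} (hj' : j' ∈ S) (hs : π.sl j ≠ π.sl j') {Q : Set Pt} {e : Pt} {x : ℝ}
    (hQ : Q ⊆ π.Fr S) (t : π.Tch An Q e j x) (hx : π.τ j x = π.τ j' x) (h1 : π.lo j' < x)
    (h2 : x < π.hi j') : False := by
  have e1 : π.pt j' x = π.pt j x := Prod.ext rfl hx.symm
  have ht : Tendsto (π.pt j') (𝓝 x) (𝓝 (π.pt j x)) := e1 ▸ (cont_pt j').tendsto x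
  have hev : ∀ᶠ y in 𝓝 x, 0 < (π.sl j' - π.sl j) * (y - x) → False := by
    filter_upwards [ht.eventually t.2.2.2.2, Ioo_mem_nhds h1 h2] with y y1 y2 y3
    refine hQ (y1 ?_) j' hj' (pt_mem.2 ⟨y2.1.le, y2.2.le⟩)
    simp only [pt, τ] at hx ⊢
    linarith
  rcases lt_or_gt_of_ne hs with h | h
  · obtain ⟨y, y1, y2⟩ := ((hev.filter_mono (nhdsWithin_le_nhds (s := Ioi x))).and
      self_mem_nhdsWithin).exists
    exact y1 (mul_pos (sub_pos.2 h) (sub_pos.2 y2))
  · obtain ⟨y, y1, y2⟩ := ((hev.filter_mono (nhdsWithin_le_nhds (s := Iio x))).and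
      self_mem_nhdsWithin).exists
    exact y1 (mul_pos_of_neg_of_neg (sub_neg.2 h) (sub_neg.2 y2))

omit [DecidableEq J] in
theorem CellA_up {Q : Set Pt} {e : Pt} {j : J} {x : ℝ} (t : π.Tch An Q e j x) :
    ∀ᶠ s in 𝓝 (0 : ℝ), 0 < s → ((x, π.τ j x + s) : Pt) ∈ Q := by
  have hc : Continuous fun s : ℝ => ((x, π.τ j x + s) : Pt) := by fun_prop
  have ht : Tendsto (fun s : ℝ => ((x, π.τ j x + s) : Pt)) (𝓝 0) (𝓝 (π.pt j x)) := by
    simpa [pt] using hc.tendsto 0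
  filter_upwards [ht.eventually t.2.2.2.2] with s s1 s2
  exact s1 (by simpa using s2)

open Classical in
theorem poly_of_gconn (gp : π.GP S An) {G : Finset (Set Pt)} (hG : ∀ v ∈ G, π.Node S An v)
    (h : GConn (π.Nb S An) G) {p q : Pt} (hp : p ∈ ⋃ v ∈ G, v) (hq : q ∈ ⋃ v ∈ G, v) :
    Poly (⋃ v ∈ G, v) p q := by
  obtain ⟨t, ht, hc⟩ := h
  obtain ⟨r, hr⟩ := (CellA_convex gp (hG t ht)).2
  have sub : ∀ v ∈ G, v ⊆ ⋃ v ∈ G, v := fun v hv => subset_iUnion₂ (s := fun v (_ : v ∈ G) => v) v hv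
  have key : ∀ v, Relation.ReflTransGen (fun a b => a ∈ G ∧ b ∈ G ∧ π.Nb S An a b) t v →
      ∀ q ∈ v, Poly (⋃ v ∈ G, v) r q := by
    intro v hv
    induction hv with
    | refl =>
      intro q hq
      exact Relation.ReflTransGen.single
        (((CellA_convex gp (hG t ht)).1.segment_subset hr hq).trans (sub t ht))
    | tail _ hab ih =>
      obtain ⟨ha, hb, e, -, p₀, hp₀, hcl, hh | hh⟩ := hab
      · obtain ⟨rfl, rfl⟩ := hh
        intro q hq
        refine Relation.ReflTransGen.tail (ih e rfl) ?_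
        rw [segment_symm]
        exact CellA_seg gp hq hcl (sub _ hb) (sub _ ha rfl)
      · obtain ⟨rfl, rfl⟩ := hh
        rintro q rfl
        exact Relation.ReflTransGen.tail (ih p₀ (mem_Reg_self hp₀))
          (CellA_seg gp (mem_Reg_self hp₀) hcl (sub _ ha) (sub _ hb rfl))
  obtain ⟨u, hu, hp⟩ := mem_iUnion₂.1 hp
  obtain ⟨v, hv, hq⟩ := mem_iUnion₂.1 hq
  exact Relation.ReflTransGen.trans (Poly.symm (key u (hc u hu) p hp)) (key v (hc v hv) q hq)

open Classical in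
theorem CellA_lk (gp : π.GP S An) {G : Finset (Set Pt)} (n : ∀ v ∈ G, π.Node S An v)
    (c : GConn (π.Nb S An) G) {u w : Set Pt} (m : u ∈ G) (m' : w ∈ G) {e e' : Pt} {j j' : J}
    {a b : ℝ} (t : π.Tch An u e j a) (t' : π.Tch An w e' j' b) :
    Lk (⋃ v ∈ G, v) (a, π.sl j * a + π.ic j) (b, π.sl j' * b + π.ic j') := by
  obtain ⟨δ, hδ, h⟩ := Metric.eventually_nhds_iff.1 ((CellA_up t).and (CellA_up t'))
  have key : ∀ s, 0 < s → s ≤ δ / 2 → ((a, π.sl j * a + π.ic j + s) : Pt) ∈ (⋃ v ∈ G, v) ∧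
      ((b, π.sl j' * b + π.ic j' + s) : Pt) ∈ ⋃ v ∈ G, v := by
    intro s s1 s2
    have := @h s (by rw [Real.dist_eq, sub_zero, abs_of_pos s1]; linarith)
    exact ⟨mem_iUnion₂.2 ⟨u, m, this.1 s1⟩, mem_iUnion₂.2 ⟨w, m', this.2 s1⟩⟩
  exact ⟨δ / 2, half_pos hδ, key, poly_of_gconn gp n c (key _ (half_pos hδ) le_rfl).1
    (key _ (half_pos hδ) le_rfl).2⟩

open Classical in
theorem th_geo (gp : π.GP S An) {e e' : Pt} (he : e ∈ An) (he' : e' ∈ An) (hne : e ≠ e')
    {j j' : J} (hj : j ∈ S) (hj' : j' ∈ S) {G₁ G₂ G₃ : Finset (Set Pt)}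
    (n₁ : ∀ v ∈ G₁, π.Node S An v) (n₂ : ∀ v ∈ G₂, π.Node S An v) (n₃ : ∀ v ∈ G₃, π.Node S An v)
    (c₁ : GConn (π.Nb S An) G₁) (c₂ : GConn (π.Nb S An) G₂) (c₃ : GConn (π.Nb S An) G₃)
    (d12 : Disjoint G₁ G₂) (d13 : Disjoint G₁ G₃) (d23 : Disjoint G₂ G₃)
    {u₁ u₂ u₃ w₁ w₂ w₃ : Set Pt} (m₁ : u₁ ∈ G₁) (m₂ : u₂ ∈ G₂) (m₃ : u₃ ∈ G₃) (m₁' : w₁ ∈ G₁)
    (m₂' : w₂ ∈ G₂) (m₃' : w₃ ∈ G₃) (f₁ : u₁ ⊆ π.Fr S) (f₂ : u₂ ⊆ π.Fr S) (f₃ : u₃ ⊆ π.Fr S)
    (f₁' : w₁ ⊆ π.Fr S) (f₂' : w₂ ⊆ π.Fr S) (f₃' : w₃ ⊆ π.Fr S) {a₁ a₂ a₃ b₁ b₂ b₃ : ℝ}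
    (t₁ : π.Tch An u₁ e j a₁) (t₂ : π.Tch An u₂ e j a₂) (t₃ : π.Tch An u₃ e j a₃)
    (t₁' : π.Tch An w₁ e' j' b₁) (t₂' : π.Tch An w₂ e' j' b₂) (t₃' : π.Tch An w₃ e' j' b₃)
    (ha : a₁ < a₂) (ha' : a₂ < a₃) (hb : b₁ < b₂) (hb' : b₂ < b₃) {ζ : ℝ}
    (hζ : ζ = (π.ic j' - π.ic j) / (π.sl j - π.sl j')) :
    (a₁ < ζ ∧ ζ < a₂ ∧ b₂ < ζ ∧ ζ < b₃) ∨ (b₁ < ζ ∧ ζ < b₂ ∧ a₂ < ζ ∧ ζ < a₃) := by
  obtain ⟨z, hz, hc⟩ := theta (sa := π.sl j) (ia := π.ic j) (sb := π.sl j') (ib := π.ic j')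
    ha ha' hb hb' (CellA_disjU gp n₁ n₂ d12) (CellA_disjU gp n₁ n₃ d13) (CellA_disjU gp n₂ n₃ d23)
    (fun x x1 x2 h => by
      rcases h with (h | h) | h
      exacts [CellA_span hj n₁ t₁ t₃ x1 x2 h, CellA_span hj n₂ t₁ t₃ x1 x2 h,
        CellA_span hj n₃ t₁ t₃ x1 x2 h])
    (fun x x1 x2 h => by
      rcases h with (h | h) | h
      exacts [CellA_span hj' n₁ t₁' t₃' x1 x2 h, CellA_span hj' n₂ t₁' t₃' x1 x2 h,
        CellA_span hj' n₃ t₁' t₃' x1 x2 h])
    (CellA_lk gp n₁ c₁ m₁ m₁' t₁ t₁') (CellA_lk gp n₂ c₂ m₂ m₂' t₂ t₂')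
    (CellA_lk gp n₃ c₃ m₃ m₃' t₃ t₃')
  have za : a₁ ≤ z ∧ z ≤ a₃ := by
    rcases hc with h | h
    exacts [⟨h.1, h.2.1.trans ha'.le⟩, ⟨ha.le.trans h.1, h.2.1⟩]
  have zb : b₁ ≤ z ∧ z ≤ b₃ := by
    rcases hc with h | h
    exacts [⟨hb.le.trans h.2.2.1, h.2.2.2⟩, ⟨h.2.2.1, h.2.2.2.trans hb'.le⟩]
  have hjj : j ≠ j' := by
    rintro rfl
    have h1 : e.1 ≠ e'.1 := fun h => hne (gp.inj e he e' he' h)
    rcases lt_or_gt_of_ne h1 with h | h
    · have := t₃.2.2.2.1 e' he' t₁'.1 h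
      linarith [t₁'.2.1, za.2, zb.1]
    · have := t₃'.2.2.2.1 e he t₁.1 h
      linarith [t₁.2.1, za.1, zb.2]
  have la : π.lo j < z := (t₁.1.1.trans_lt t₁.2.1).trans_le za.1
  have ra : z < π.hi j := za.2.trans_lt t₃.2.2.1
  have lb : π.lo j' < z := (t₁'.1.1.trans_lt t₁'.2.1).trans_le zb.1
  have rb : z < π.hi j' := zb.2.trans_lt t₃'.2.2.1
  have hτ : π.τ j z = π.τ j' z := hz
  have hs : π.sl j ≠ π.sl j' :=
    gp.slope hj hj' hjj (q := π.pt j z) (pt_mem.2 ⟨la.le, ra.le⟩) ⟨lb.le, rb.le, hτ⟩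
  have hζ' : ζ = z := by
    rw [hζ, div_eq_iff (sub_ne_zero.2 hs)]
    linarith
  subst hζ'
  have na : ∀ {u : Set Pt} {a : ℝ}, u ⊆ π.Fr S → π.Tch An u e j a → ζ ≠ a := by
    rintro u a f t rfl
    exact CellA_ne hj' hs f t hτ lb rb
  have nb : ∀ {u : Set Pt} {a : ℝ}, u ⊆ π.Fr S → π.Tch An u e' j' a → ζ ≠ a := by
    rintro u a f t rfl
    exact CellA_ne hj hs.symm f t hτ.symm la ra
  rcases hc with h | h
  · exact Or.inl ⟨h.1.lt_of_ne (na f₁ t₁).symm, h.2.1.lt_of_ne (na f₂ t₂),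
      h.2.2.1.lt_of_ne (nb f₂' t₂').symm, h.2.2.2.lt_of_ne (nb f₃' t₃')⟩
  · exact Or.inr ⟨h.2.2.1.lt_of_ne (nb f₁' t₁').symm, h.2.2.2.lt_of_ne (nb f₂' t₂'),
      h.1.lt_of_ne (na f₂ t₂).symm, h.2.1.lt_of_ne (na f₃ t₃)⟩

end Sg

end SA
end

-- part: Cell
section
/-!
# A single cell among segments

Apply `graph_bound`.  Nodes: the sets `{e}`, `e ∈ An`, and the anchored regions (`exists_regF`), at
most `5 |An|`; they are pairwise disjoint (`Reg_disjoint`, `notMem_O`).  `Γ u v = Nb u v`; degrees by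
`four` and `two`; connected from `{e₀}` by `vis_chain`.  Symbols: `An`; `inc e v` = `v ⊆ Fr S` and
`Tch v e j x` for some `j`, `x`; `j` is determined by `e` (`gp.one`), `x e v` is chosen;
`ζ e e' = (ic j' - ic j) / (sl j - sl j')` for the chosen segments `j` of `e`, `j'` of `e'`.
The axiom is `th_geo`; `wedge_inj` injects the wedges into the touches.
-/

open Set Filter Topology

namespace SA

namespace Sg

variable {J : Type} [DecidableEq J] {π : Sg J} {S : Finset J} {An : Finset Pt}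

omit [DecidableEq J] in
theorem Cell_node_eq (gp : π.GP S An) {u v : Set Pt} (hu : π.Node S An u) (hv : π.Node S An v)
    {q : Pt} (h : q ∈ u) (h' : q ∈ v) : u = v := by
  rcases hu with ⟨e, he, rfl⟩ | ⟨p, -, rfl, -⟩ <;> rcases hv with ⟨e', he', rfl⟩ | ⟨p', -, rfl, -⟩
  · rw [← mem_singleton_iff.1 h, ← mem_singleton_iff.1 h']
  · rw [mem_singleton_iff.1 h] at h'
    exact absurd (Reg_sub S An p' h') (notMem_O he)
  · rw [mem_singleton_iff.1 h'] at h
    exact absurd (Reg_sub S An p h) (notMem_O he')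
  · exact (Reg_eq gp h).symm.trans (Reg_eq gp h')

omit [DecidableEq J] in
theorem Cell_above (j : J) (x : ℝ) : ∃ᶠ q in 𝓝 (π.pt j x), π.τ j q.1 < q.2 := by
  have h : Tendsto (fun t : ℝ => ((x, t) : Pt)) (𝓝[>] (π.τ j x)) (𝓝 (π.pt j x)) :=
    ((continuous_const.prodMk continuous_id).tendsto (π.τ j x)).mono_left nhdsWithin_le_nhds
  refine h.frequently (Eventually.frequently ?_)
  filter_upwards [self_mem_nhdsWithin] with t ht
  exact ht

omit [DecidableEq J] in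
theorem Cell_deg (gp : π.GP S An) {u : Set Pt} (hu : π.Node S An u) :
    ∃ N : Finset (Set Pt), N.card ≤ 4 ∧ ∀ v, π.Nb S An u v → v ∈ N := by
  classical
  rcases hu with ⟨e, he, rfl⟩ | ⟨p, hp, rfl, -⟩
  · obtain ⟨N, h1, h2⟩ := four gp he
    refine ⟨N, h1, ?_⟩
    rintro v ⟨e', -, p, hp, h3, ⟨h4, rfl⟩ | ⟨-, h4⟩⟩
    · rw [← singleton_injective h4] at h3
      exact h2 p hp h3
    · exact absurd (Reg_sub S An p (h4 ▸ mem_singleton e)) (notMem_O he)
  · obtain ⟨N, h1, h2⟩ := two gp hp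
    refine ⟨N.image fun e => {e}, Finset.card_image_le.trans (h1.trans (by norm_num)), ?_⟩
    rintro v ⟨e', he', p', -, h3, ⟨h4, -⟩ | ⟨rfl, h4⟩⟩
    · exact absurd (Reg_sub S An p (h4 ▸ mem_singleton e')) (notMem_O he')
    · rw [← h4] at h3
      exact Finset.mem_image_of_mem _ (h2 e' he' h3)

omit [DecidableEq J] in
theorem Cell_conn (gp : π.GP S An) {e₀ : Pt} (h0 : e₀ ∈ An)
    (hall : ∀ e ∈ An, e ∈ cc (π.XA S An) e₀) {v : Set Pt} (hv : π.Node S An v) :
    Relation.ReflTransGen (fun a b => π.Node S An b ∧ π.Nb S An a b) {e₀} v := by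
  have key : ∀ e, Relation.ReflTransGen (π.Adj S An) e₀ e →
      Relation.ReflTransGen (fun a b => π.Node S An b ∧ π.Nb S An a b) {e₀} {e} := by
    intro e h
    induction h with
    | refl => exact Relation.ReflTransGen.refl
    | @tail b c _ h ih =>
      obtain ⟨hb, hc, p, hp, h1, h2⟩ := h
      exact (ih.tail (c := π.Reg S An p) ⟨Or.inr ⟨p, hp, rfl, b, hb, h1⟩,
        b, hb, p, hp, h1, Or.inl ⟨rfl, rfl⟩⟩).tail
        ⟨Or.inl ⟨c, hc, rfl⟩, c, hc, p, hp, h2, Or.inr ⟨rfl, rfl⟩⟩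
  rcases hv with ⟨e, he, rfl⟩ | ⟨p, hp, rfl, e, he, h⟩
  · exact key e (vis_chain gp h0 he (hall e he))
  · exact (key e (vis_chain gp h0 he (hall e he))).tail
      ⟨Or.inr ⟨p, hp, rfl, e, he, h⟩, e, he, p, hp, h, Or.inl ⟨rfl, rfl⟩⟩

theorem one_cell (gp : π.GP S An) {e₀ : Pt} (h0 : e₀ ∈ An)
    (hall : ∀ e ∈ An, e ∈ cc (π.XA S An) e₀) (W : Finset (J × J))
    (hW : ∀ w ∈ W, w.1 ∈ S ∧ w.2 ∈ S ∧ π.Wd (cc (π.XA S An) e₀) w.1 w.2) {k : ℕ}
    (hk : 5 * An.card ≤ 44 * ack k k) : W.card ≤ 22008 * (k + 1) * An.card := by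
  classical
  obtain ⟨T, hT, hTm⟩ := exists_regF gp
  obtain ⟨V, hVc, hV⟩ : ∃ V : Finset (Set Pt), V.card ≤ 5 * An.card ∧
      ∀ v, v ∈ V ↔ π.Node S An v := by
    refine ⟨(An.image fun e => {e}) ∪ T, (Finset.card_union_le _ _).trans ?_, fun v => ?_⟩
    · have := Finset.card_image_le (s := An) (f := fun e : Pt => ({e} : Set Pt))
      omega
    · rw [Finset.mem_union, hTm, Finset.mem_image]
      exact or_congr_left (exists_congr fun e => and_congr_right fun _ => eq_comm)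
  have hab : ∀ e : Pt, ∃ a b : ℝ, e ∈ An → ∀ j ∈ S, e ∈ π.seg j → a = π.sl j ∧ b = π.ic j := by
    intro e
    by_cases h : ∃ j ∈ S, e ∈ π.seg j
    · obtain ⟨j, hj, h⟩ := h
      refine ⟨π.sl j, π.ic j, fun he j' hj' h' => ?_⟩
      rw [gp.one e he j hj j' hj' h h']
      exact ⟨rfl, rfl⟩
    · exact ⟨0, 0, fun _ j hj h' => absurd ⟨j, hj, h'⟩ h⟩
  choose a b hab using hab
  have hx : ∀ (e : Pt) (v : Set Pt), ∃ x : ℝ, (v ⊆ π.Fr S ∧ ∃ j ∈ S, ∃ y, π.Tch An v e j y) →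
      ∃ j ∈ S, π.Tch An v e j x := by
    intro e v
    by_cases h : ∃ j ∈ S, ∃ y, π.Tch An v e j y
    · obtain ⟨j, hj, y, h⟩ := h
      exact ⟨y, fun _ => ⟨j, hj, h⟩⟩
    · exact ⟨0, fun h' => absurd h'.2 h⟩
  choose x hx using hx
  have main := graph_bound V (π.Nb S An) {e₀} An
    (fun e v => v ⊆ π.Fr S ∧ ∃ j ∈ S, ∃ y, π.Tch An v e j y) x
    (fun e e' => (b e' - b e) / (a e - a e')) ((hV _).2 (Or.inl ⟨e₀, h0, rfl⟩))
    (fun v hv => by simpa only [hV] using Cell_conn gp h0 hall ((hV v).1 hv))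
    (fun u hu => (Cell_deg gp ((hV u).1 hu)).imp fun N h => ⟨h.1, fun v _ => h.2 v⟩)
    (fun s hs u hu v hv iu iv hxx => by
      obtain ⟨j, hj, t⟩ := hx s u iu
      obtain ⟨j', hj', t'⟩ := hx s v iv
      obtain rfl := gp.one s hs j hj j' hj' t.1 t'.1
      rw [← hxx] at t'
      obtain ⟨q, h1, h2, h3⟩ :=
        ((Cell_above (π := π) j (x s u)).and_eventually (t.2.2.2.2.and t'.2.2.2.2)).exists
      exact Cell_node_eq gp ((hV u).1 hu) ((hV v).1 hv) (h2 h1) (h3 h1))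
    (fun s s' => by rw [← neg_sub (b s), ← neg_sub (a s'), neg_div_neg_eq])
    (fun s hs s' hs' hne G₁ g₁ G₂ g₂ G₃ g₃ c₁ c₂ c₃ d12 d13 d23 u₁ m₁ u₂ m₂ u₃ m₃ w₁ n₁ w₂ n₂ w₃ n₃
        i₁ i₂ i₃ l₁ l₂ i₁' i₂' i₃' l₁' l₂' => by
      obtain ⟨j, hj, t₁⟩ := hx s u₁ i₁
      obtain ⟨j₂, hj₂, t₂⟩ := hx s u₂ i₂
      obtain ⟨j₃, hj₃, t₃⟩ := hx s u₃ i₃
      obtain rfl := gp.one s hs j hj j₂ hj₂ t₁.1 t₂.1
      obtain rfl := gp.one s hs j hj j₃ hj₃ t₁.1 t₃.1
      obtain ⟨j', hj', t₁'⟩ := hx s' w₁ i₁'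
      obtain ⟨j₂, hj₂', t₂'⟩ := hx s' w₂ i₂'
      obtain ⟨j₃, hj₃', t₃'⟩ := hx s' w₃ i₃'
      obtain rfl := gp.one s' hs' j' hj' j₂ hj₂' t₁'.1 t₂'.1
      obtain rfl := gp.one s' hs' j' hj' j₃ hj₃' t₁'.1 t₃'.1
      refine th_geo gp hs hs' hne hj hj' (fun v hv => (hV v).1 (g₁ hv))
        (fun v hv => (hV v).1 (g₂ hv)) (fun v hv => (hV v).1 (g₃ hv)) c₁ c₂ c₃ d12 d13 d23
        m₁ m₂ m₃ n₁ n₂ n₃ i₁.1 i₂.1 i₃.1 i₁'.1 i₂'.1 i₃'.1 t₁ t₂ t₃ t₁' t₂' t₃' l₁ l₂ l₁' l₂' ?_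
      rw [(hab s hs j hj t₁.1).1, (hab s hs j hj t₁.1).2, (hab s' hs' j' hj' t₁'.1).1,
        (hab s' hs' j' hj' t₁'.1).2])
    (hVc.trans hk)
  obtain ⟨φ, hφ, hφ'⟩ := wedge_inj gp h0 W hW
  refine (Finset.card_le_card_of_injOn φ (fun w hw => ?_) hφ).trans (main.trans ?_)
  · obtain ⟨h1, h2, y, h3⟩ := hφ' w hw
    simp only [Finset.coe_filter, mem_ofPred_eq]
    refine ⟨Finset.mem_product.2 ⟨h1, (hV _).2 (Or.inr h2)⟩, ?_, w.1, (hW w hw).1, y, h3⟩
    obtain ⟨p, -, h4, -⟩ := h2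
    rw [h4]
    exact (Reg_sub S An p).trans (O_sub S An)
  · have := Nat.mul_le_mul_left (2200 * (2 * k + 1)) hVc
    nlinarith

end Sg

end SA
end

-- part: Plan
section
/-!
# The planar theorem

`ack_cube`: `ack (k + 4) (k + 4) = ack (k + 3) a ≥ ack 3 a = 2 ^ (a + 3) - 3` with
`a = ack (k + 4) (k + 3) ≥ max n 125` (`ack_succ_succ`, `ack_three`, `ack_le_ack`,
`ack_succ_right_le_ack_succ_left`; `ack 4 3 ≥ ack 3 4 = 125`, `ack (k + 4) (k + 3) ≥ ack k k`).

`planar`: if `W = ∅` trivial; otherwise `n = |A| ≥ 1`.  `trim` gives `π, A', M`;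
`|M| ≤ N A + 1` and `|M| ≤ |W| ≤ n ^ 2`.  For `R ⊆ A`: `cl M (R ∩ A') ≤ N R + 1` (one point of `M` for
each class is a set as in `hN`, because `L.Fr R ⊆ π.Fr (R ∩ A')`).  `merge_all` with
`δ i = 2 ^ (13 + i)`, `K = Nat.log 2 n` (`n < 2 ^ (K + 1)`, `2 ^ K ≤ n`, `K ≤ n₀`) gives `An`.
First `nc ≤ |M| ≤ n ^ 2` (`Nm.exists_rep`) gives `|An| ≤ 2 ^ 17 n ^ 3`, so `one_cell` applies with
`k + 4` (`cc (Fr A') m ⊆ cc (XA A' An) e₀`).  Then `few_colours` and `Ex_inter` give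
`nc (δ i) ≤ 2 + 2 Ex A r_i N + 200 n / δ i ^ 2`, so
`|An| ≤ 2 ^ 18 (n + N A + ∑ 2 ^ i Ex A r_i N)`.
-/

open Set Filter Topology

namespace SA

theorem Plan_pow {a : ℕ} (h : 40 ≤ a) : 2 ^ 20 * a ^ 3 + 3 ≤ 2 ^ (a + 3) := by
  induction a, h using Nat.le_induction with
  | base => norm_num
  | succ a ha ih =>
    have h1 : (a + 1) ^ 3 ≤ 2 * a ^ 3 := by
      have h2 : 40 * a ^ 2 ≤ a ^ 3 := by
        rw [pow_succ a 2, mul_comm]
        exact Nat.mul_le_mul_left _ ha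
      have h3 : 40 * a ≤ a ^ 2 := by
        rw [sq]
        exact Nat.mul_le_mul_right _ ha
      have h4 : (a + 1) ^ 3 = a ^ 3 + 3 * a ^ 2 + 3 * a + 1 := by ring
      omega
    rw [show a + 1 + 3 = (a + 3) + 1 by ring, pow_succ 2 (a + 3)]
    omega

theorem ack_cube {n k : ℕ} (h : n ≤ ack k k) : 2 ^ 20 * n ^ 3 ≤ ack (k + 4) (k + 4) := by
  have h1 : ack (k + 4) (k + 4) = ack (k + 3) (ack (k + 4) (k + 3)) := ack_succ_succ (k + 3) (k + 3)
  have h2 : n ≤ ack (k + 4) (k + 3) := h.trans (ack_le_ack (by omega) (by omega))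
  have h3 : 40 ≤ ack (k + 4) (k + 3) := by
    refine le_trans ?_ (ack_le_ack (m₁ := 3) (n₁ := 3) (by omega) (by omega))
    rw [ack_three]
    norm_num
  rw [h1]
  generalize ack (k + 4) (k + 3) = a at h2 h3
  refine le_trans ?_ (ack_le_ack (m₁ := 3) (n₁ := a) (by omega) le_rfl)
  rw [ack_three]
  have h4 := Plan_pow h3
  have h5 : n ^ 3 ≤ a ^ 3 := Nat.pow_le_pow_left h2 3
  omega

theorem Plan_geom (K : ℕ) : ∑ i ∈ Finset.range K, 2 ^ i ≤ 2 ^ K := by
  induction K with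
  | zero => simp
  | succ K ih =>
    rw [Finset.sum_range_succ, pow_succ]
    omega

theorem Plan_rate (i : ℕ) : (0 : ℝ) ≤ ((i : ℝ) + 1) / 2 ^ i ∧ ((i : ℝ) + 1) / 2 ^ i ≤ 1 := by
  refine ⟨by positivity, (div_le_one (by positivity)).2 ?_⟩
  exact_mod_cast Nat.lt_two_pow_self (n := i)

/-- The number of marked cells of a sample. -/
theorem Plan_cl {J : Type} {π : Sg J} {M : Finset Pt} {R : Finset J} {X : Set Pt} {b : ℕ}
    (hX : X ⊆ π.Fr R) (hb : ∀ T ⊆ M, (∀ q ∈ T, ∀ q' ∈ T, q' ∈ cc X q → q = q') → T.card ≤ b) :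
    π.cl M R ≤ b := by
  classical
  obtain ⟨T, h1, h2, h3⟩ := Finset.exists_subset_injOn_image_eq_of_surjOn
    (f := cc (π.Fr R)) (M : Set Pt) (M.image (cc (π.Fr R))) (by
      intro K hK
      simpa using hK)
  unfold Sg.cl
  rw [← h3]
  refine Finset.card_image_le.trans (hb T (Finset.coe_subset.1 h1) fun q hq q' hq' h => ?_)
  exact h2 hq hq' (connectedComponentIn_eq (connectedComponentIn_mono q hX h))

/-- The crude bound for the number of anchors. -/
theorem Plan_crude {n K c a : ℕ} {f : ℕ → ℕ} (hn : 1 ≤ n) (hK : 2 ^ K ≤ n) (hc : c ≤ 3 * n ^ 2)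
    (hf : ∀ i, f i ≤ c) (ha : a ≤ (1 + 2 * 2 ^ (13 + 0)) * c +
      ∑ i ∈ Finset.range K, 2 * 2 ^ (13 + (i + 1)) * f i) : a ≤ 2 ^ 20 * n ^ 3 := by
  have h1 : ∑ i ∈ Finset.range K, 2 * 2 ^ (13 + (i + 1)) * f i ≤ 2 ^ 15 * c * n := by
    refine le_trans (Finset.sum_le_sum (g := fun i => 2 ^ 15 * c * 2 ^ i) fun i _ => ?_) ?_
    · calc 2 * 2 ^ (13 + (i + 1)) * f i ≤ 2 * 2 ^ (13 + (i + 1)) * c :=
          Nat.mul_le_mul_left _ (hf i)
        _ = 2 ^ 15 * c * 2 ^ i := by ring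
    · rw [← Finset.mul_sum]
      exact Nat.mul_le_mul_left _ ((Plan_geom K).trans hK)
  have h2 : c * n ≤ 3 * n ^ 3 := by
    rw [pow_succ n 2, ← mul_assoc]
    exact Nat.mul_le_mul_right _ hc
  have h3 : c ≤ c * n := Nat.le_mul_of_pos_right _ hn
  rw [mul_assoc] at h1
  omega

/-- The fine bound for the number of anchors. -/
theorem Plan_fine {n K n₀ c a b : ℕ} {f : ℕ → ℕ} {E : ℕ → ℝ} (hn : 1 ≤ n) (hK : 2 ^ K ≤ n)
    (hK' : K ≤ n₀) (hc : c ≤ 2 * n + (b + 1)) (hE : ∀ i, 0 ≤ E i)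
    (hf : ∀ i, (f i : ℝ) ≤ 2 * (E i + 1) + 200 * n / (2 ^ (13 + i)) ^ 2)
    (ha : a ≤ (1 + 2 * 2 ^ (13 + 0)) * c +
      ∑ i ∈ Finset.range K, 2 * 2 ^ (13 + (i + 1)) * f i) :
    (a : ℝ) ≤ 2 ^ 18 * (n + b + ∑ i ∈ Finset.range n₀, 2 ^ i * E i) := by
  have h0 : (a : ℝ) ≤ (1 + 2 * 2 ^ (13 + 0)) * c +
      ∑ i ∈ Finset.range K, 2 * 2 ^ (13 + (i + 1)) * (f i : ℝ) := by exact_mod_cast ha
  have h1 : ∀ i : ℕ, 2 * 2 ^ (13 + (i + 1)) * (f i : ℝ) ≤
      2 ^ 16 * (2 ^ i * E i) + 2 ^ 16 * 2 ^ i + n * (1 / 2) ^ i := by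
    intro i
    refine (mul_le_mul_of_nonneg_left (hf i) (by positivity)).trans ?_
    have e : (2 : ℝ) * 2 ^ (13 + (i + 1)) * (2 * (E i + 1) + 200 * n / (2 ^ (13 + i)) ^ 2) =
        2 ^ 16 * (2 ^ i * E i) + 2 ^ 16 * 2 ^ i + 25 / 256 * (n * (1 / 2) ^ i) := by
      rw [one_div, inv_pow]
      field_simp
      ring
    have h2 : (0 : ℝ) ≤ n * (1 / 2) ^ i := by positivity
    rw [e]
    linarith
  have h2 : ∑ i ∈ Finset.range K, 2 * 2 ^ (13 + (i + 1)) * (f i : ℝ) ≤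
      2 ^ 16 * ∑ i ∈ Finset.range K, 2 ^ i * E i + 2 ^ 16 * ∑ i ∈ Finset.range K, (2 : ℝ) ^ i +
        n * ∑ i ∈ Finset.range K, (1 / 2 : ℝ) ^ i := by
    rw [Finset.mul_sum, Finset.mul_sum, Finset.mul_sum, ← Finset.sum_add_distrib,
      ← Finset.sum_add_distrib]
    exact Finset.sum_le_sum fun i _ => h1 i
  have h3 : ∑ i ∈ Finset.range K, (2 : ℝ) ^ i ≤ n := by exact_mod_cast (Plan_geom K).trans hK
  have h4 : (n : ℝ) * ∑ i ∈ Finset.range K, (1 / 2 : ℝ) ^ i ≤ n * 2 :=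
    mul_le_mul_of_nonneg_left (sum_geometric_two_le K) (by positivity)
  have h5 : ∑ i ∈ Finset.range K, 2 ^ i * E i ≤ ∑ i ∈ Finset.range n₀, 2 ^ i * E i :=
    Finset.sum_le_sum_of_subset_of_nonneg (Finset.range_mono hK') fun i _ _ =>
      mul_nonneg (by positivity) (hE i)
  have h6 : 0 ≤ ∑ i ∈ Finset.range n₀, 2 ^ i * E i :=
    Finset.sum_nonneg fun i _ => mul_nonneg (by positivity) (hE i)
  have h7 : (c : ℝ) ≤ 2 * n + (b + 1) := by exact_mod_cast hc
  have h8 : (1 : ℝ) ≤ n := by exact_mod_cast hn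
  have h9 : (0 : ℝ) ≤ b := by positivity
  norm_num at h0 h2 ⊢
  norm_num at h4
  linarith

theorem planar {J : Type} [DecidableEq J] (L : Ln J) {A : Finset J} (hA : L.Ok A) {G : Pt → Prop}
    (hG : ∀ q, G q → q ∈ L.Fr A) (N : Finset J → ℕ)
    (hN : ∀ R ⊆ A, ∀ T : Finset Pt, (∀ q ∈ T, G q) →
      (∀ q ∈ T, ∀ q' ∈ T, q' ∈ cc (L.Fr R) q → q = q') → T.card ≤ N R + 1)
    (W : Finset (J × J)) (hW : ∀ w ∈ W, w.1 ∈ A ∧ w.2 ∈ A ∧ L.UW G w.1 w.2) {k n₀ : ℕ}
    (hk : A.card ≤ ack k k) (hn : A.card ≤ n₀) :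
    (W.card : ℝ) ≤ 2 ^ 40 * (k + 1) * (A.card + N A +
      ∑ i ∈ Finset.range n₀, 2 ^ i * Ex A ((i + 1) / 2 ^ i) fun R => (N R : ℝ)) := by
  have hE : ∀ i : ℕ, 0 ≤ Ex A (((i : ℝ) + 1) / 2 ^ i) fun R => (N R : ℝ) := fun i =>
    Ex_nonneg (Plan_rate i).1 (Plan_rate i).2 fun R _ => Nat.cast_nonneg _
  have hS : 0 ≤ (A.card : ℝ) + N A +
      ∑ i ∈ Finset.range n₀, 2 ^ i * Ex A ((i + 1) / 2 ^ i) fun R => (N R : ℝ) :=
    add_nonneg (by positivity) (Finset.sum_nonneg fun i _ => mul_nonneg (by positivity) (hE i))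
  rcases W.eq_empty_or_nonempty with rfl | ⟨w₀, hw₀⟩
  · rw [Finset.card_empty, Nat.cast_zero]
    exact mul_nonneg (by positivity) hS
  have hn1 : 1 ≤ A.card := Finset.card_pos.2 ⟨_, (hW w₀ hw₀).1⟩
  obtain ⟨π, A', M, hA', nm, hFr, hMG, hMi, hMc, hWd⟩ := trim L hA hG W hW
  have hA'c : A'.card ≤ A.card := Finset.card_le_card hA'
  have hM1 : M.card ≤ N A + 1 := hN A subset_rfl M hMG hMi
  have hWc : W.card ≤ A.card ^ 2 := by
    rw [sq, ← Finset.card_product]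
    exact Finset.card_le_card fun w hw => Finset.mem_product.2 ⟨(hW w hw).1, (hW w hw).2.1⟩
  have hcl : ∀ R ⊆ A, π.cl M (R ∩ A') ≤ N R + 1 := fun R hR =>
    Plan_cl (hFr R) fun T hT h => hN R hR T (fun q hq => hMG q (hT hq)) h
  have hK : 2 ^ Nat.log 2 A.card ≤ A.card := Nat.pow_log_le_self 2 (by omega)
  have hK1 : A.card < 2 ^ (Nat.log 2 A.card + 1) := Nat.lt_pow_succ_log_self (by norm_num) _
  have hK2 : Nat.log 2 A.card ≤ n₀ := (Nat.log_le_self 2 _).trans hn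
  generalize Nat.log 2 A.card = K at hK hK1 hK2
  obtain ⟨An, gp, hsub, hall, hc⟩ := Sg.merge_all nm.gp (fun i => 2 ^ (13 + i)) K
    (hA'c.trans (hK1.le.trans (Nat.pow_le_pow_right (by norm_num) (by omega))))
  have hEM := Sg.card_EM (π := π) A' M
  have hcr : An.card ≤ 2 ^ 20 * A.card ^ 3 := by
    refine Plan_crude hn1 hK ?_ (fun i => ?_) hc
    · have : A.card ≤ A.card ^ 2 := Nat.le_self_pow (by norm_num) _
      omega
    · classical
      unfold Sg.nc
      exact Finset.card_image_le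
  obtain ⟨-, -, m₀, hm₀, -⟩ := hWd w₀ hw₀
  have h0 : m₀ ∈ An := hsub (Sg.mem_EM.2 (Or.inr hm₀))
  have hW' : W.card ≤ 22008 * (k + 4 + 1) * An.card := by
    refine Sg.one_cell gp h0 (hall m₀ h0) W (fun w hw => ?_) ?_
    · obtain ⟨h1, h2, m, hm, h3, x, h4, h5, h6, h7, h8, h9⟩ := hWd w hw
      refine ⟨h1, h2, h3, x, h4, h5, h6, h7, h8, h9.mono fun q hq h10 h11 => ?_⟩
      rw [show cc (π.XA A' An) m₀ = cc (π.XA A' An) m from
        connectedComponentIn_eq (hall m₀ h0 m (hsub (Sg.mem_EM.2 (Or.inr hm))))]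
      exact connectedComponentIn_mono m subset_union_left (hq h10 h11)
    · have := ack_cube hk
      omega
  have hfine := Plan_fine (b := N A) (n₀ := n₀)
    (E := fun i => Ex A (((i : ℝ) + 1) / 2 ^ i) fun R => (N R : ℝ)) hn1 hK hK2 (by omega) hE
    (fun i => by
      refine (Sg.few_colours nm i).trans (add_le_add (mul_le_mul_of_nonneg_left ?_ zero_le_two) ?_)
      · rw [← Ex_inter hA']
        refine (Ex_mono (g := fun R => (N R : ℝ) + 1) (Plan_rate i).1 (Plan_rate i).2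
          fun R hR => ?_).trans ((Ex_add A _ _ fun _ => 1).trans ?_).le
        · exact_mod_cast hcl R hR
        · rw [Ex_const]
      · have : (A'.card : ℝ) ≤ A.card := by exact_mod_cast hA'c
        gcongr) hc
  have h1 : (W.card : ℝ) ≤ 22008 * (k + 4 + 1) * An.card := by exact_mod_cast hW'
  have h2 : (22008 : ℝ) * (k + 4 + 1) ≤ 2 ^ 22 * (k + 1) := by
    have : (0 : ℝ) ≤ k := Nat.cast_nonneg _
    norm_num
    linarith
  refine h1.trans ((mul_le_mul h2 hfine (Nat.cast_nonneg _) (by positivity)).trans (le_of_eq ?_))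
  ring

end SA
end
end
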