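import Pool.Agent.Work.MP_8a5de9_co_B.Topo
import Pool.Agent.Work.MP_8a5de9_co_B.Planar

-- part: Flat
section
/-!
# The wedges of one flat

`par_bound`: take the expectation of `planar` over a sample `A ⊆ R₀ \ F` at rate `ρ`, with
`W A = W.filter (both in A)`.  Left: `Ex_sum`, `Ex_ind` (`I = {T, T'}`, `T ≠ T'` since the slopes
differ, `Y = ∅`).  Right: `Ex_card`, `Ex_Ex`.
-/

open Set Filter Topology SA

namespace SC

variable {E ι μ : Type} [NormedAddCommGroup E] [NormedSpace ℝ E] [FiniteDimensional ℝ E]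
  [Fintype ι] [DecidableEq ι] [Fintype μ] [DecidableEq μ]

namespace Ctx

namespace Par

variable {c : Ctx E ι μ} {F : Finset ι} (P : c.Par F)

variable {R₀ : Finset ι}

open Classical in
theorem par_bound (hF : F ⊆ R₀) {ρ : ℝ} (h0 : 0 ≤ ρ) (h1 : ρ ≤ 1) {k : ℕ}
    (hk : R₀.card ≤ ack k k) :
    ρ ^ 2 * ((((R₀ \ F) ×ˢ (R₀ \ F)).filter fun a =>
      P.pl.UW (P.Gp (R₀ \ F)) (emb a.1) (emb a.2)).card : ℝ) ≤
      2 ^ 40 * (k + 1) * (R₀.card + Ex (R₀ \ F) ρ (fun R => (c.NB R₀ F R : ℝ)) +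
        ∑ i ∈ Finset.range R₀.card, 2 ^ i *
          Ex (R₀ \ F) (ρ * (((i : ℝ) + 1) / 2 ^ i)) fun R => (c.NB R₀ F R : ℝ)) := by
  set A₀ := R₀ \ F with hA₀
  set W := (A₀ ×ˢ A₀).filter fun a => P.pl.UW (P.Gp A₀) (emb a.1) (emb a.2) with hW
  have hWm : ∀ w ∈ W, w.1 ∈ A₀ ∧ w.2 ∈ A₀ ∧ P.ln.UW (P.Gp A₀) w.1 w.2 := fun w hw => by
    obtain ⟨h2, h3⟩ := Finset.mem_filter.1 hw
    exact ⟨(Finset.mem_product.1 h2).1, (Finset.mem_product.1 h2).2, P.ln_uw h3⟩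
  have hc : A₀.card ≤ R₀.card := Finset.card_le_card Finset.sdiff_subset
  have e1 : ρ ^ 2 * (W.card : ℝ) =
      Ex A₀ ρ fun A => ((W.filter fun w => w.1 ∈ A ∧ w.2 ∈ A).card : ℝ) := by
    have e2 : ∀ A : Finset ι, ((W.filter fun w => w.1 ∈ A ∧ w.2 ∈ A).card : ℝ) =
        ∑ w ∈ W, if ({w.1, w.2} : Finset ι) ⊆ A ∧ Disjoint ∅ A then 1 else 0 := fun A => by
      rw [Finset.card_filter]
      push_cast
      exact Finset.sum_congr rfl fun w _ => by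
        simp only [Finset.insert_subset_iff, Finset.singleton_subset_iff,
          Finset.disjoint_empty_left, and_true]
    simp only [e2]
    rw [Ex_sum, Finset.sum_congr rfl (g := fun _ => ρ ^ 2) fun w hw => ?_]
    · rw [Finset.sum_const, nsmul_eq_mul, mul_comm]
    · obtain ⟨h2, h3, h4⟩ := hWm w hw
      have h5 : w.1 ≠ w.2 := fun e => by
        have := h4.1
        rw [e] at this
        exact lt_irrefl _ this
      rw [Ex_ind (Finset.insert_subset h2 (Finset.singleton_subset_iff.2 h3)) (Finset.empty_subset _)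
        (Finset.disjoint_empty_right _), Finset.card_pair h5]
      simp
  rw [e1]
  refine (Ex_mono h0 h1 fun A hA => planar P.ln (P.ln_ok A) (G := P.Gp A₀) (fun q hq => ?_)
    (c.NB R₀ F) (fun R hR => P.ln_N hF (hR.trans hA)) _ (fun w hw => ?_)
    ((Finset.card_le_card hA).trans (hc.trans hk)) ((Finset.card_le_card hA).trans hc)).trans ?_
  · exact (P.ln_fr (Finset.disjoint_of_subset_right hA Finset.disjoint_sdiff) q).2
      (pop_sub (hA.trans Finset.sdiff_subset)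
        (Finset.disjoint_of_subset_right hA Finset.disjoint_sdiff) (P.gp_pop hF hq))
  · obtain ⟨h2, h3⟩ := Finset.mem_filter.1 hw
    exact ⟨h3.1, h3.2, (hWm w h2).2.2⟩
  rw [Ex_mul, Ex_add, Ex_add, Ex_card, Ex_sum]
  simp only [Ex_mul, Ex_Ex]
  refine mul_le_mul_of_nonneg_left (add_le_add_left (add_le_add_left ?_ _) _) (by positivity)
  exact (mul_le_of_le_one_left (Nat.cast_nonneg _) h1).trans (Nat.cast_le.2 hc)

end Par

end Ctx

end SC
end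

-- part: Main
section
/-!
# The bound with the inverse Ackermann function
-/

open Set Filter Topology SA

namespace SC

/-- The inverse Ackermann function. -/
noncomputable def invAck (n : ℕ) : ℕ := sInf {k | n ≤ ack k k}

theorem Main_ack (n : ℕ) : n ≤ ack (invAck n) (invAck n) :=
  Nat.sInf_mem (s := {k | n ≤ ack k k}) ⟨n, (lt_ack_left n n).le⟩

theorem Main_pow {n e : ℕ} (h : e + 1 ≤ n) : n ^ e ≤ (e + 1) ^ e * e.factorial * n.choose e := by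
  have h1 := Nat.pow_sub_le_descFactorial n e
  rw [Nat.descFactorial_eq_factorial_mul_choose] at h1
  have h2 : n ≤ (e + 1) * (n + 1 - e) := by
    obtain ⟨t, rfl⟩ := Nat.exists_eq_add_of_le h
    rw [show e + 1 + t + 1 - e = t + 2 by omega]
    nlinarith [Nat.zero_le (e * t)]
  calc n ^ e ≤ ((e + 1) * (n + 1 - e)) ^ e := Nat.pow_le_pow_left h2 e
    _ = (e + 1) ^ e * (n + 1 - e) ^ e := mul_pow _ _ _
    _ ≤ (e + 1) ^ e * (e.factorial * n.choose e) := Nat.mul_le_mul_left _ h1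
    _ = _ := by ring

section

variable {E ι μ : Type} [NormedAddCommGroup E] [NormedSpace ℝ E] [FiniteDimensional ℝ E]
  [Fintype ι] [DecidableEq ι] [Fintype μ] [DecidableEq μ]

open Classical in
/-- The number of good upper wedges in a flat. -/
noncomputable def Ctx.Par.nw {c : Ctx E ι μ} {F : Finset ι} (P : c.Par F) (R : Finset ι) : ℕ :=
  ((R ×ˢ R).filter fun a => P.pl.UW (P.Gp R) (Ctx.emb a.1) (Ctx.emb a.2)).card

theorem Main_split (c : Ctx E ι μ) (R₀ : Finset ι) :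
    ∃ 𝓕₀ ⊆ R₀.powersetCard (c.d - 2), ∃ P : ∀ F ∈ 𝓕₀, c.Par F,
      (c.Tup R₀ 2).card ≤ (c.TExt R₀ 2).card + ∑ F ∈ 𝓕₀.attach,
        ((P F.1 F.2).nw (R₀ \ F.1) + (P F.1 F.2).flip.nw (R₀ \ F.1)) := by
  classical
  obtain ⟨𝓕₀, h𝓕₀⟩ : ∃ 𝓕₀ : Finset (Finset ι),
      ∀ F, F ∈ 𝓕₀ ↔ F ∈ R₀.powersetCard (c.d - 2) ∧ Nonempty (c.Par F) :=
    ⟨(R₀.powersetCard (c.d - 2)).filter fun F => Nonempty (c.Par F), fun F => Finset.mem_filter⟩
  let P : ∀ F ∈ 𝓕₀, c.Par F := fun F hF => Classical.choice ((h𝓕₀ F).1 hF).2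
  refine ⟨𝓕₀, fun F hF => ((h𝓕₀ F).1 hF).1, P, ?_⟩
  let im : ∀ {F : Finset ι}, c.Par F → Finset (Tu ι) := fun {F} Q =>
    (((R₀ \ F) ×ˢ (R₀ \ F)).filter fun a =>
      Q.pl.UW (Q.Gp (R₀ \ F)) (Ctx.emb a.1) (Ctx.emb a.2)).image fun a =>
        Ctx.Par.side F a.1 a.2 (SignType.sign (Q.γ (Ctx.emb a.1)))
          (SignType.sign (Q.γ (Ctx.emb a.2)))
  have hs : c.Tup R₀ 2 ⊆ c.TExt R₀ 2 ∪ 𝓕₀.attach.biUnion fun F =>
      im (P F.1 F.2) ∪ im (P F.1 F.2).flip := by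
    intro t ht
    by_cases hE : c.Ext t
    · refine Finset.mem_union_left _ ?_
      unfold Ctx.TExt
      exact Finset.mem_filter.2 ⟨ht, hE⟩
    refine Finset.mem_union_right _ ?_
    obtain ⟨h1, h2, h3, h4, -⟩ := Ctx.mem_Tup.1 ht
    have hFs : t.1 \ supp t.2 ⊆ R₀ := Finset.sdiff_subset.trans h1
    have hFc : (t.1 \ supp t.2).card = c.d - 2 := by
      rw [Finset.card_sdiff_of_subset h3, h2.1, h4]
    have hF : t.1 \ supp t.2 ∈ 𝓕₀ := by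
      refine (h𝓕₀ _).2 ⟨Finset.mem_powersetCard.2 ⟨hFs, hFc⟩, ?_⟩
      exact Ctx.exists_par (x := c.vtx t.1) (by have := c.d3; omega)
        fun i hi => (h2.2 i (Finset.mem_sdiff.1 hi).1).1
    have ht' : t ∈ c.Tup ((t.1 \ supp t.2) ∪ (R₀ \ (t.1 \ supp t.2))) 2 := by
      rwa [Finset.union_sdiff_of_subset hFs]
    obtain ⟨T, hT, T', hT', Q', hQ', hU, hside⟩ :=
      (P _ hF).uw_of_mem Finset.disjoint_sdiff ht' rfl hE
    refine Finset.mem_biUnion.2 ⟨⟨_, hF⟩, Finset.mem_attach _ _, ?_⟩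
    rcases hQ' with rfl | rfl
    · refine Finset.mem_union_left _ (Finset.mem_image.2 ⟨(T, T'), ?_, hside.symm⟩)
      exact Finset.mem_filter.2 ⟨Finset.mem_product.2 ⟨hT, hT'⟩, hU⟩
    · refine Finset.mem_union_right _ (Finset.mem_image.2 ⟨(T, T'), ?_, hside.symm⟩)
      exact Finset.mem_filter.2 ⟨Finset.mem_product.2 ⟨hT, hT'⟩, hU⟩
  refine (Finset.card_le_card hs).trans ((Finset.card_union_le _ _).trans ?_)
  refine Nat.add_le_add_left (Finset.card_biUnion_le.trans ?_) _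
  exact Finset.sum_le_sum fun F _ => (Finset.card_union_le _ _).trans
    (add_le_add Finset.card_image_le Finset.card_image_le)

theorem Main_sum (c : Ctx E ι μ) (R₀ : Finset ι) {𝓕₀ : Finset (Finset ι)}
    (h : 𝓕₀ ⊆ R₀.powersetCard (c.d - 2)) (P : ∀ F ∈ 𝓕₀, c.Par F) {ρ : ℝ} (h0 : 0 ≤ ρ) (h1 : ρ ≤ 1)
    {k : ℕ} (hk : R₀.card ≤ ack k k) :
    ρ ^ 2 * ∑ F ∈ 𝓕₀.attach, ((P F.1 F.2).nw (R₀ \ F.1) : ℝ) ≤
      2 ^ 40 * (k + 1) * ((R₀.card : ℝ) ^ (c.d - 1) + (c.nu R₀ (c.d - 2) ρ +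
        ∑ i ∈ Finset.range R₀.card, 2 ^ i * c.nu R₀ (c.d - 2) (ρ * (((i : ℝ) + 1) / 2 ^ i)))) := by
  set G : Finset ι → ℝ := fun F => R₀.card + Ex (R₀ \ F) ρ (fun R => (c.NB R₀ F R : ℝ)) +
    ∑ i ∈ Finset.range R₀.card, 2 ^ i *
      Ex (R₀ \ F) (ρ * (((i : ℝ) + 1) / 2 ^ i)) fun R => (c.NB R₀ F R : ℝ) with hG
  have hr : ∀ i : ℕ, 0 ≤ ρ * (((i : ℝ) + 1) / 2 ^ i) ∧ ρ * (((i : ℝ) + 1) / 2 ^ i) ≤ 1 := by
    intro i
    have h2 : ((i : ℝ) + 1) / 2 ^ i ≤ 1 := by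
      rw [div_le_one (by positivity)]
      exact_mod_cast Nat.lt_two_pow_self
    exact ⟨by positivity, mul_le_one₀ h1 (by positivity) h2⟩
  have hG0 : ∀ F, 0 ≤ G F := fun F => add_nonneg (add_nonneg (Nat.cast_nonneg _)
    (Ex_nonneg h0 h1 fun _ _ => Nat.cast_nonneg _)) (Finset.sum_nonneg fun i _ =>
      mul_nonneg (by positivity) (Ex_nonneg (hr i).1 (hr i).2 fun _ _ => Nat.cast_nonneg _))
  have e1 : ∑ F ∈ R₀.powersetCard (c.d - 2), G F =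
      (R₀.card.choose (c.d - 2) : ℝ) * R₀.card + (c.nu R₀ (c.d - 2) ρ +
        ∑ i ∈ Finset.range R₀.card, 2 ^ i * c.nu R₀ (c.d - 2) (ρ * (((i : ℝ) + 1) / 2 ^ i))) := by
    simp only [hG, Finset.sum_add_distrib, Finset.sum_const, Finset.card_powersetCard, nsmul_eq_mul,
      Ctx.nu, Finset.mul_sum, add_assoc]
    rw [Finset.sum_comm (s := R₀.powersetCard (c.d - 2))]
  have e2 : (R₀.card.choose (c.d - 2) : ℝ) * R₀.card ≤ (R₀.card : ℝ) ^ (c.d - 1) := by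
    rw [show c.d - 1 = c.d - 2 + 1 by have := c.d3; omega, pow_succ]
    exact mul_le_mul_of_nonneg_right (by exact_mod_cast Nat.choose_le_pow _ _) (Nat.cast_nonneg _)
  calc ρ ^ 2 * ∑ F ∈ 𝓕₀.attach, ((P F.1 F.2).nw (R₀ \ F.1) : ℝ)
      ≤ ∑ F ∈ 𝓕₀.attach, 2 ^ 40 * (k + 1) * G F.1 := by
        rw [Finset.mul_sum]
        exact Finset.sum_le_sum fun F _ => (P F.1 F.2).par_bound
          (Finset.mem_powersetCard.1 (h F.2)).1 h0 h1 hk
    _ = 2 ^ 40 * (k + 1) * ∑ F ∈ 𝓕₀, G F := by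
        rw [← Finset.mul_sum, Finset.sum_attach 𝓕₀ G]
    _ ≤ 2 ^ 40 * (k + 1) * ∑ F ∈ R₀.powersetCard (c.d - 2), G F :=
        mul_le_mul_of_nonneg_left
          (Finset.sum_le_sum_of_subset_of_nonneg h fun F _ _ => hG0 F) (by positivity)
    _ ≤ _ := by
        rw [e1]
        exact mul_le_mul_of_nonneg_left (add_le_add_left e2 _) (by positivity)

end

theorem tup_two_alpha (d m : ℕ) (hd : 3 ≤ d) : ∃ K : ℕ, 1 ≤ K ∧
    ∀ {E ι μ : Type} [NormedAddCommGroup E] [NormedSpace ℝ E] [FiniteDimensional ℝ E] [Fintype ι]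
      [DecidableEq ι] [Fintype μ] [DecidableEq μ] (c : Ctx E ι μ), c.d = d → Fintype.card μ = m →
      ∀ (R₀ : Finset ι) (k : ℕ), R₀.card ≤ ack k k →
        (c.Tup R₀ 2).card ≤ K * (k + 1) * R₀.card.choose (d - 1) := by
  obtain ⟨ρ, C, h0, h1, hC, hν⟩ := nu_final d hd
  obtain ⟨K₁, hK₁⟩ := exists_nat_ge (2 * 2 ^ 40 * (1 + C) / ρ ^ 2)
  refine ⟨kext d m + K₁ * ((d - 1 + 1) ^ (d - 1) * (d - 1).factorial) + 1, by omega, ?_⟩
  intro E ι μ _ _ _ _ _ _ _ c hc hm R₀ k hk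
  subst hc hm
  by_cases hn : R₀.card < c.d
  · rw [Ctx.tup_empty hn]; simp
  obtain ⟨𝓕₀, hs, P, hP⟩ := Main_split c R₀
  have a1 := Main_sum c R₀ hs P h0.le h1 hk
  have a2 := Main_sum c R₀ hs (fun F hF => (P F hF).flip) h0.le h1 hk
  have a3 := hν (c.nu R₀) ((R₀.card : ℝ) ^ (c.d - 1)) (by positivity) (c.nu_zero R₀)
    (fun i hi p r hp hr h => c.nu_step R₀ hi hp hr h) R₀.card
  set X : ℝ := (R₀.card : ℝ) ^ (c.d - 1) with hX
  set W := ∑ F ∈ 𝓕₀.attach,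
    ((P F.1 F.2).nw (R₀ \ F.1) + (P F.1 F.2).flip.nw (R₀ \ F.1)) with hW
  have hX0 : 0 ≤ X := by positivity
  have a4 : ρ ^ 2 * (W : ℝ) ≤ 2 * 2 ^ 40 * (1 + C) * ((k + 1) * X) := by
    have b : (2 : ℝ) ^ 40 * (k + 1) * (X + (c.nu R₀ (c.d - 2) ρ +
        ∑ i ∈ Finset.range R₀.card, 2 ^ i * c.nu R₀ (c.d - 2) (ρ * (((i : ℝ) + 1) / 2 ^ i)))) ≤
        2 ^ 40 * (k + 1) * (X + C * X) :=
      mul_le_mul_of_nonneg_left (add_le_add_right a3 _) (by positivity)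
    rw [hW]
    push_cast
    rw [Finset.sum_add_distrib, mul_add]
    linarith
  have a5 : W ≤ K₁ * ((k + 1) * R₀.card ^ (c.d - 1)) := by
    have hρ : 0 < ρ ^ 2 := by positivity
    rw [div_le_iff₀ hρ] at hK₁
    have b : ρ ^ 2 * (W : ℝ) ≤ ρ ^ 2 * (K₁ * ((k + 1) * X)) := by
      have := mul_le_mul_of_nonneg_right hK₁ (show (0 : ℝ) ≤ (k + 1) * X by positivity)
      linarith
    have b' := le_of_mul_le_mul_left b hρ
    rw [hX] at b'
    exact_mod_cast b'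
  have a6 := Main_pow (n := R₀.card) (e := c.d - 1) (by omega)
  have a7 := c.ext_le R₀ 2
  set Y := R₀.card.choose (c.d - 1)
  set D := (c.d - 1 + 1) ^ (c.d - 1) * (c.d - 1).factorial
  set K₀ := kext c.d (Fintype.card μ)
  have a8 : K₁ * ((k + 1) * R₀.card ^ (c.d - 1)) ≤ K₁ * ((k + 1) * (D * Y)) := by gcongr
  calc (c.Tup R₀ 2).card ≤ K₀ * Y + K₁ * ((k + 1) * (D * Y)) :=
        hP.trans (add_le_add a7 (a5.trans a8))
    _ ≤ (K₀ + K₁ * D + 1) * (k + 1) * Y := by nlinarith [Nat.zero_le (K₀ * k * Y), Nat.zero_le (k * Y)]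

theorem single_cell_alpha (d m : ℕ) (hd : 3 ≤ d) : ∃ C : ℕ, ∀ (n : ℕ)
    (g : Fin n → Option (Fin m) → EuclideanSpace ℝ (Fin d) →ᵃ[ℝ] ℝ), GenPos g →
    (∀ i, Bornology.IsBounded (SC.patch g i)) → ∀ p, (∀ i, p ∉ SC.patch g i) →
      (face g '' frontier (SC.cell g p)).encard ≤ (C * n ^ (d - 1) * (invAck n + 1) : ℕ) := by
  obtain ⟨K, hK, h⟩ := tup_two_alpha d m hd
  refine ⟨3 ^ d * (2 ^ ((m + 1) * d) + kstep d m ^ (d - 2) * K), fun n g gp hb p hp => ?_⟩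
  obtain ⟨z, h1, h2⟩ := exists_height gp
  have hdim : Module.finrank ℝ (EuclideanSpace ℝ (Fin d)) = d := by simp
  rw [hdim] at h1 h2
  let c : Ctx (EuclideanSpace ℝ (Fin d)) (Fin n) (Fin m) := ⟨g, z, p, d, hdim, hd, gp, hb, hp, h1, h2⟩
  have h3 := c.steps (K := K * (invAck n + 1)) (Nat.mul_pos hK (Nat.succ_pos _)) (fun R =>
    h c rfl (Fintype.card_fin m) R (invAck n) ((R.card_le_univ.trans (Fintype.card_fin n).le).trans
      (Main_ack n))) Finset.univ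
  have h4 := c.out_pow Finset.univ
  rw [Finset.card_univ, Fintype.card_fin, Fintype.card_fin] at h3 h4
  have h5 := Nat.choose_le_pow n (d - 1)
  refine c.faces_le.trans (Nat.cast_le.2 ?_)
  rw [mul_assoc, mul_assoc]
  refine Nat.mul_le_mul_left _ ?_
  rw [add_mul]
  refine add_le_add (h4.trans (Nat.mul_le_mul_left _ (Nat.le_mul_of_pos_right _ (Nat.succ_pos _))))
    (h3.trans ?_)
  calc _ ≤ kstep d m ^ (d - 2) * (K * (invAck n + 1)) * n ^ (d - 1) := Nat.mul_le_mul_left _ h5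
    _ = _ := by ring

end SC
end
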