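import Pool.Agent.Work.MP_8a5de9_co_B.U
import Pool.Agent.Work.MP_8a5de9_co_B.Plane
import Pool.Agent.Work.MP_8a5de9_co_B.Comb

-- part: CDef
section
/-!
# Flats, cells, popular points: definitions
-/

open Set Filter Topology SA

namespace SC

variable {E ι μ : Type} [NormedAddCommGroup E] [NormedSpace ℝ E] [FiniteDimensional ℝ E]
  [Fintype ι] [DecidableEq ι] [Fintype μ] [DecidableEq μ]

namespace Ctx

variable (c : Ctx E ι μ)

/-- The flat of `Z`. -/
def Lam (Z : Finset ι) : Set E := {x | ∀ i ∈ Z, c.g i none x = 0}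

/-- The intersection of the patches of `F`. -/
def PF (F : Finset ι) : Set E := {x | ∀ i ∈ F, x ∈ patch c.g i}

/-- The flat of `F` without the traces of the patches of `R`. -/
def XF (F R : Finset ι) : Set E := {x | x ∈ c.Lam F ∧ ∀ a ∈ R, ¬ (x ∈ patch c.g a ∧ x ∈ c.PF F)}

/-- Popular points. -/
def Pop (R₀ F : Finset ι) : Set E := {x | c.On R₀ F x ∧ c.Good R₀ x 0}

/-- Bounded cells with a popular point. -/
def Cells (R₀ F R : Finset ι) : Set (Set E) :=
  {κ | Bornology.IsBounded κ ∧ ∃ x ∈ c.Pop R₀ F, κ = cc (c.XF F R) x}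

/-- Their number. -/
noncomputable def NB (R₀ F R : Finset ι) : ℕ := if F = ∅ then 0 else (c.Cells R₀ F R).ncard

/-- The sign vector of the hyperplanes of `H`. -/
noncomputable def sv (H : Finset ι) (x : E) : ι → SignType :=
  fun i => if i ∈ H then SignType.sign (c.g i none x) else 0

/-- The sign vectors realized in `Ω`, in the flat of `F ∪ J`. -/
def Rz (F H J : Finset ι) (Ω : Set E) : Set (ι → SignType) :=
  {σ | ∃ x ∈ Ω, x ∈ c.Lam (F ∪ J) ∧ c.sv H x = σ}

/-- The data of the topological lemma. -/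
structure Cfg where
  R₀ : Finset ι
  F : Finset ι
  R : Finset ι
  B : Finset ι
  Kf : ι → Finset (Set E)
  hF : F ⊆ R₀
  hR : R ⊆ R₀
  hB : B ⊆ R₀
  dFR : Disjoint F R
  dFB : Disjoint F B
  dRB : Disjoint R B
  card : F.card + 3 ≤ c.d
  hK : ∀ b ∈ B, ∀ κ, κ ∈ Kf b ↔ κ ∈ c.Cells R₀ (insert b F) R

variable {c}

namespace Cfg

variable (G : c.Cfg)

/-- All hyperplanes. -/
def H : Finset ι := G.R ∪ G.B

open Classical in
/-- The chain of the chosen cells. -/
noncomputable def Y0 (S : ι → Set E → ZMod 2) (b : ι) (τ : ι → SignType) : ZMod 2 :=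
  ∑ κ ∈ G.Kf b, if ∃ x ∈ κ, c.sv G.H x = τ then S b κ else 0

/-- The signs on `J` given by the subset `J₁`. -/
def asg (J J₁ : Finset ι) (σ : ι → SignType) : ι → SignType :=
  fun i => if i ∈ J₁ then 1 else if i ∈ J then -1 else σ i

/-- The corner chains. -/
noncomputable def Y (S : ι → Set E → ZMod 2) (J : Finset ι) (b : ι) (σ : ι → SignType) : ZMod 2 :=
  ∑ J₁ ∈ J.powerset, G.Y0 S b (asg J J₁ σ)

/-- The prescribed jumps. -/
noncomputable def cj (S : ι → Set E → ZMod 2) (D : Finset ι → (ι → SignType) → ZMod 2)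
    (J : Finset ι) (h : ι) (σ : ι → SignType) : ZMod 2 :=
  if h ∈ G.B then G.Y S J h σ else D (insert h J) σ

/-- `χ` fills the flat of `F ∪ J` with the jumps `k` and vanishes off the patches. -/
def Fil (J : Finset ι) (k : ι → (ι → SignType) → ZMod 2) (χ : (ι → SignType) → ZMod 2) : Prop :=
  Jump (c.Rz G.F G.H J univ) (G.H \ J) k χ ∧ ∀ x ∈ c.Lam (G.F ∪ J), x ∉ c.PF (G.F ∪ J) →
    Cham (G.H \ J) (c.sv G.H x) → χ (c.sv G.H x) = 0

omit [FiniteDimensional ℝ E] [Fintype ι] [Fintype μ] [DecidableEq μ] in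
theorem dFH : Disjoint G.F G.H := Finset.disjoint_union_right.2 ⟨G.dFR, G.dFB⟩

end Cfg

variable {F F' R R' H Z : Finset ι} {x : E} {i : ι}

omit [FiniteDimensional ℝ E] [Fintype ι] [DecidableEq ι] [Fintype μ] [DecidableEq μ] in
theorem PF_sub (F : Finset ι) : c.PF F ⊆ c.Lam F := fun _ h i hi => (h i hi).1

omit [FiniteDimensional ℝ E] [Fintype ι] [DecidableEq ι] [Fintype μ] [DecidableEq μ] in
theorem PF_mono (h : F ⊆ F') : c.PF F' ⊆ c.PF F := fun _ hx i hi => hx i (h hi)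

omit [FiniteDimensional ℝ E] [Fintype ι] [DecidableEq ι] [Fintype μ] [DecidableEq μ] in
theorem Lam_mono (h : F ⊆ F') : c.Lam F' ⊆ c.Lam F := fun _ hx i hi => hx i (h hi)

omit [FiniteDimensional ℝ E] [Fintype ι] [DecidableEq ι] [Fintype μ] [DecidableEq μ] in
theorem XF_mono (h : R ⊆ R') : c.XF F R' ⊆ c.XF F R := fun _ hx => ⟨hx.1, fun a ha => hx.2 a (h ha)⟩

omit [FiniteDimensional ℝ E] [Fintype ι] [DecidableEq ι] [Fintype μ] [DecidableEq μ] in
theorem diff_sub_XF (F R : Finset ι) : c.Lam F \ c.PF F ⊆ c.XF F R :=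
  fun _ hx => ⟨hx.1, fun _ _ h => hx.2 h.2⟩

omit [Fintype ι] [DecidableEq ι] [Fintype μ] [DecidableEq μ] in
theorem convex_PF (F : Finset ι) : Convex ℝ (c.PF F) := by
  have : c.PF F = ⋂ i ∈ F, patch c.g i := by ext x; simp [PF]
  rw [this]
  exact convex_iInter₂ fun i _ => convex_patch c.g i

omit [Fintype ι] [DecidableEq ι] [Fintype μ] [DecidableEq μ] in
theorem isClosed_PF (F : Finset ι) : IsClosed (c.PF F) := by
  have : c.PF F = ⋂ i ∈ F, patch c.g i := by ext x; simp [PF]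
  rw [this]
  exact isClosed_biInter fun i _ => isClosed_patch c.g i

omit [FiniteDimensional ℝ E] [Fintype ι] [DecidableEq ι] [Fintype μ] [DecidableEq μ] in
theorem bounded_PF (h : F.Nonempty) : Bornology.IsBounded (c.PF F) := by
  obtain ⟨i, hi⟩ := h
  exact (c.bdd i).subset fun x hx => hx i hi

omit [FiniteDimensional ℝ E] [Fintype ι] [DecidableEq ι] [Fintype μ] [DecidableEq μ] in
theorem convex_Lam (Z : Finset ι) : Convex ℝ (c.Lam Z) := by
  have : c.Lam Z = ⋂ i ∈ Z, (c.g i none) ⁻¹' {0} := by ext x; simp [Lam]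
  rw [this]
  exact convex_iInter₂ fun i _ => (convex_singleton _).affine_preimage _

omit [FiniteDimensional ℝ E] [Fintype ι] [Fintype μ] [DecidableEq μ] in
theorem sv_of_mem (hi : i ∈ H) (x : E) : c.sv H x i = SignType.sign (c.g i none x) := if_pos hi

omit [FiniteDimensional ℝ E] [Fintype ι] [Fintype μ] [DecidableEq μ] in
theorem sv_of_notMem (hi : i ∉ H) (x : E) : c.sv H x i = 0 := if_neg hi

omit [FiniteDimensional ℝ E] [Fintype ι] [Fintype μ] [DecidableEq μ] in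
theorem sv_eq_zero (hi : i ∈ H) : c.sv H x i = 0 ↔ c.g i none x = 0 := by
  rw [sv_of_mem hi, sign_eq_zero_iff]

omit [FiniteDimensional ℝ E] [Fintype ι] [DecidableEq ι] [Fintype μ] [DecidableEq μ] in
theorem pop_sub {R₀ : Finset ι} (hR : R ⊆ R₀) (h : Disjoint F R) : c.Pop R₀ F ⊆ c.XF F R :=
  fun _ hx => ⟨fun i hi => (hx.1.2.1 i hi).1,
    fun a ha h' => hx.1.2.2 a (hR ha) (Finset.disjoint_right.1 h ha) h'.1⟩

end Ctx

end SC
end

-- part: Top
section
/-!
# The complement of a convex set in a flat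

Let `x₀ ∈ Lam Z`; `adm_hyp` and `c.zgen` give `u` with `c.z u = 1` in the direction of the flat.
For `y ∈ Lam Z \ K` one of the rays `y ± s u` avoids `K` (`USweepA_ray`); it is a preconnected
unbounded subset of `Lam Z \ K` (`top0`).  If `K` is bounded, `|c.z x - c.z x₀| < T` on `K`, so the
two convex sets `{x ∈ Lam Z | T ≤ ± (c.z x - c.z x₀)}` miss `K`, and each ray enters one of them
(`top1`, with the points `x₀ ± T u`).  If `Z.card + 2 ≤ d` there is `b ≠ 0` in the direction of the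
flat with `c.z b = 0` (`uctx_rankz`, `uctx_mem`); for large `L` the line `x₀ + L b + s u` misses `K`
(`|s| < T` on `K`, hence `L ‖b‖` is bounded there) and meets both convex sets (`top2`).
-/

open Set Filter Topology SA

namespace SC

variable {E ι μ : Type} [NormedAddCommGroup E] [NormedSpace ℝ E] [FiniteDimensional ℝ E]
  [Fintype ι] [DecidableEq ι] [Fintype μ] [DecidableEq μ]

namespace Ctx

variable {c : Ctx E ι μ} {Z : Finset ι} {K : Set E} {y : E}

omit [FiniteDimensional ℝ E] [Fintype ι] [DecidableEq ι] [Fintype μ] [DecidableEq μ] in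
theorem Top_add {x e : E} (hx : x ∈ c.Lam Z) (he : ∀ i ∈ Z, (c.g i none).linear e = 0) :
    x + e ∈ c.Lam Z := fun i hi => by
  have h := (c.g i none).map_vadd x e
  rw [vadd_eq_add, vadd_eq_add, he i hi, hx i hi, add_comm e x, add_zero] at h
  exact h

theorem Top_u (hZ : Z.card < c.d) {x : E} (hx : x ∈ c.Lam Z) :
    ∃ u, c.z u = 1 ∧ ∀ i ∈ Z, (c.g i none).linear u = 0 := by
  obtain ⟨h1, h2⟩ := adm_hyp (c := c) (D := Z) (x := x) hx
  obtain ⟨u, hu, h⟩ := c.zgen _ x h1 (h2.trans_lt hZ)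
  exact ⟨u, hu, fun i hi => h (i, none) (Finset.mem_image_of_mem _ hi)⟩

omit [Fintype ι] [DecidableEq ι] [Fintype μ] [DecidableEq μ] in
theorem Top_T (c : Ctx E ι μ) (hb : Bornology.IsBounded K) (a : ℝ) :
    ∃ T, 0 < T ∧ ∀ x ∈ K, |c.z x - a| < T := by
  obtain ⟨T, hT, h⟩ :=
    ((LinearMap.toContinuousLinearMap c.z).lipschitz.isBounded_image hb).subset_ball_lt 0 a
  exact ⟨T, hT, fun x hx => by simpa [Real.dist_eq] using h (mem_image_of_mem _ hx)⟩

/-- A vertical ray from `y` that avoids `K`. -/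
theorem Top_ray (hZ : Z.card < c.d) (hK : Convex ℝ K) (hy : y ∈ c.Lam Z \ K) :
    ∃ ε : ℝ, (ε = 1 ∨ ε = -1) ∧ ∀ s : ℝ, 0 ≤ s →
      ∃ w ∈ cc (c.Lam Z \ K) y, c.z w = c.z y + ε * s := by
  obtain ⟨u, hu, h⟩ := Top_u hZ hy.1
  have key : ∀ v : E, (∀ i ∈ Z, (c.g i none).linear v = 0) → (∀ s : ℝ, 0 ≤ s → y - s • v ∉ K) →
      ∀ s : ℝ, 0 ≤ s → y - s • v ∈ cc (c.Lam Z \ K) y := fun v hv h' s hs => by
    refine ((isPreconnected_Ici (a := 0)).image (fun s : ℝ => y - s • v)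
      (by fun_prop)).subset_connectedComponentIn ⟨0, self_mem_Ici, by simp⟩ ?_ ⟨s, hs, rfl⟩
    rintro _ ⟨r, hr, rfl⟩
    refine ⟨?_, h' r hr⟩
    have := Top_add (e := -(r • v)) hy.1 fun i hi => by simp [hv i hi]
    rwa [← sub_eq_add_neg] at this
  rcases USweepA_ray hK hy.2 u with h1 | h1
  · exact ⟨-1, Or.inr rfl, fun s hs => ⟨_, key u h h1 s hs, by simp [hu, sub_eq_add_neg]⟩⟩
  · exact ⟨1, Or.inl rfl, fun s hs => ⟨_, key (-u) (fun i hi => by simp [h i hi]) h1 s hs,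
      by simp [hu]⟩⟩

/-- Each point outside `K` is joined to the upper or to the lower part of the flat. -/
theorem Top_side (hZ : Z.card < c.d) (hK : Convex ℝ K) {a T : ℝ} (hT : ∀ x ∈ K, |c.z x - a| < T)
    (hT0 : 0 < T) (hy : y ∈ c.Lam Z \ K) : ∃ ε : ℝ, (ε = 1 ∨ ε = -1) ∧
      ∀ w ∈ c.Lam Z, T ≤ ε * (c.z w - a) → y ∈ cc (c.Lam Z \ K) w := by
  obtain ⟨ε, hε, h⟩ := Top_ray hZ hK hy
  refine ⟨ε, hε, fun w hw hw' => ?_⟩
  obtain ⟨q, hq, hq'⟩ := h (T + |c.z y - a|) (by positivity)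
  have hc : Convex ℝ (c.Lam Z ∩ {x | T + ε * a ≤ (ε • c.z) x}) :=
    (convex_Lam Z).inter (convex_halfSpace_ge (ε • c.z).isLinear _)
  have h1 : q ∈ cc (c.Lam Z \ K) w := by
    refine hc.isPreconnected.subset_connectedComponentIn ⟨hw, ?_⟩ ?_
      ⟨(connectedComponentIn_subset _ _ hq).1, ?_⟩
    · simp only [mem_ofPred_eq, LinearMap.smul_apply, smul_eq_mul]
      linarith
    · rintro x ⟨hx, hx'⟩
      refine ⟨hx, fun hxK => ?_⟩
      have h2 := abs_lt.1 (hT x hxK)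
      simp only [mem_ofPred_eq, LinearMap.smul_apply, smul_eq_mul] at hx'
      rcases hε with rfl | rfl <;> linarith [h2.1, h2.2]
    · simp only [mem_ofPred_eq, LinearMap.smul_apply, smul_eq_mul, hq']
      have h2 := le_abs_self (c.z y - a)
      have h3 := neg_abs_le (c.z y - a)
      rcases hε with rfl | rfl <;> linarith
  have h2 : cc (c.Lam Z \ K) w = cc (c.Lam Z \ K) y :=
    (connectedComponentIn_eq h1).trans (connectedComponentIn_eq hq).symm
  rw [h2]
  exact mem_connectedComponentIn hy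

theorem top0 (hZ : Z.card < c.d) (hK : Convex ℝ K) (hy : y ∈ c.Lam Z \ K) :
    ¬ Bornology.IsBounded (cc (c.Lam Z \ K) y) := by
  intro hb
  obtain ⟨T, hT, h⟩ := c.Top_T hb (c.z y)
  obtain ⟨ε, hε, h'⟩ := Top_ray hZ hK hy
  obtain ⟨w, hw, hw'⟩ := h' T hT.le
  have h2 := abs_lt.1 (h w hw)
  rcases hε with rfl | rfl <;> linarith [h2.1, h2.2]

theorem top1 (hZ : Z.card < c.d) (hK : Convex ℝ K) (hb : Bornology.IsBounded K)
    (hn : (c.Lam Z).Nonempty) : ∃ z ∈ c.Lam Z, ∃ z' ∈ c.Lam Z, ∀ y ∈ c.Lam Z \ K,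
      y ∈ cc (c.Lam Z \ K) z ∨ y ∈ cc (c.Lam Z \ K) z' := by
  obtain ⟨x, hx⟩ := hn
  obtain ⟨u, hu, h⟩ := Top_u hZ hx
  obtain ⟨T, hT0, hT⟩ := c.Top_T hb (c.z x)
  have hm : ∀ s : ℝ, x + s • u ∈ c.Lam Z := fun s => Top_add hx fun i hi => by simp [h i hi]
  refine ⟨_, hm T, _, hm (-T), fun y hy => ?_⟩
  obtain ⟨ε, rfl | rfl, h'⟩ := Top_side hZ hK hT hT0 hy
  · exact Or.inl (h' _ (hm _) (by simp [hu]))
  · exact Or.inr (h' _ (hm _) (by simp [hu]))

theorem top2 (hZ : Z.card + 2 ≤ c.d) (hK : Convex ℝ K) (hb : Bornology.IsBounded K) :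
    IsPreconnected (c.Lam Z \ K) := by
  rcases (c.Lam Z).eq_empty_or_nonempty with h0 | ⟨x, hx⟩
  · rw [h0, empty_sdiff]
    exact isPreconnected_empty
  have hZ' : Z.card < c.d := by omega
  obtain ⟨u, hu, h⟩ := Top_u hZ' hx
  obtain ⟨T, hT0, hT⟩ := c.Top_T hb (c.z x)
  obtain ⟨M, hM⟩ := hb.exists_norm_le
  obtain ⟨h1, h2⟩ := adm_hyp (c := c) (D := Z) (x := x) hx
  have h3 := c.uctx_rankz h1 (h2.trans_lt hZ')
  obtain ⟨b, hb1, hb0⟩ := (Submodule.ne_bot_iff (LinearMap.ker (uctxMap c.g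
      (Z.image fun i => (i, (none : Option μ)))) ⊓ LinearMap.ker c.z)).1 (fun h0 => by
    rw [h0, finrank_bot] at h3
    omega)
  have hbz : c.z b = 0 := hb1.2
  have hbg : ∀ i ∈ Z, (c.g i none).linear b = 0 := fun i hi =>
    uctx_mem.1 hb1.1 (i, none) (Finset.mem_image_of_mem _ hi)
  have hn : 0 < ‖b‖ := norm_pos_iff.2 hb0
  obtain ⟨L, hL0, hL⟩ : ∃ L : ℝ, 0 ≤ L ∧ L * ‖b‖ = |M| + ‖x‖ + T * ‖u‖ + 1 :=
    ⟨(|M| + ‖x‖ + T * ‖u‖ + 1) / ‖b‖, by positivity, div_mul_cancel₀ _ hn.ne'⟩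
  have hz : ∀ s : ℝ, c.z (x + (L • b + s • u)) - c.z x = s := fun s => by simp [hu, hbz]
  have hm : ∀ s : ℝ, x + (L • b + s • u) ∈ c.Lam Z \ K := fun s => by
    refine ⟨Top_add hx fun i hi => by simp [h i hi, hbg i hi], fun hk => ?_⟩
    have h4 := hT _ hk
    have h5 := hM _ hk
    rw [hz] at h4
    have e : L • b = x + (L • b + s • u) - x - s • u := by abel
    have h6 : ‖L • b‖ ≤ ‖x + (L • b + s • u)‖ + ‖x‖ + ‖s • u‖ := by
      conv_lhs => rw [e]
      exact (norm_sub_le _ _).trans (add_le_add_left (norm_sub_le _ _) _)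
    rw [norm_smul, norm_smul, Real.norm_of_nonneg hL0, hL, Real.norm_eq_abs] at h6
    have h7 := mul_le_mul_of_nonneg_right h4.le (norm_nonneg u)
    have h8 := le_abs_self M
    linarith
  have h4 : x + (L • b + (-T) • u) ∈ cc (c.Lam Z \ K) (x + (L • b + T • u)) :=
    (isPreconnected_range (f := fun s : ℝ => x + (L • b + s • u))
      (by fun_prop)).subset_connectedComponentIn ⟨T, rfl⟩ (range_subset_iff.2 hm) ⟨-T, rfl⟩
  refine isPreconnected_of_forall (x + (L • b + T • u)) fun y hy =>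
    ⟨cc (c.Lam Z \ K) (x + (L • b + T • u)), connectedComponentIn_subset _ _,
      mem_connectedComponentIn (hm T), ?_, isPreconnected_connectedComponentIn⟩
  obtain ⟨ε, rfl | rfl, h'⟩ := Top_side hZ' hK hT hT0 hy
  · exact h' _ (hm T).1 (by rw [hz, one_mul])
  · have h5 := h' _ (hm (-T)).1 (by rw [hz]; linarith)
    rwa [cc, ← connectedComponentIn_eq h4] at h5

end Ctx

end SC
end

-- part: CLift
section
/-!
# Realized sign vectors

`lift`: let `Z = F ∪ {i ∈ H | g i x = 0}`; `adm_hyp` and `solve` give `e` with linear parts `0` on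
`F` and `(τ i : ℝ)` on the rest; take `y = x + t e` for small `t > 0`.

`sys`: `lift` (a vector that vanishes on `J ⊆ H` is realized in the flat of `F ∪ J`), and the
intermediate value theorem on a segment (`convex_Lam`, sign classes of an affine function are
convex).

`val_const`: for `x ∈ D` take a ball `Ω` around `x` in which the hypothesis holds.  By `Sys.conn` for
`Rz F H J Ω` the function `χ` is constant on the chambers realized in `Ω`; for `x' ∈ Ω` in the flat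
`chm (sv x')` is such a chamber (`lift`).  So the function is locally constant on `D`.
-/

open Set Filter Topology SA

namespace SC

variable {E ι μ : Type} [NormedAddCommGroup E] [NormedSpace ℝ E] [FiniteDimensional ℝ E]
  [Fintype ι] [DecidableEq ι] [Fintype μ] [DecidableEq μ]

namespace Ctx

variable {c : Ctx E ι μ} {R₀ F R H J : Finset ι} {x x' : E}

theorem lift (h : Disjoint F H) (hx : x ∈ c.Lam F) {τ : ι → SignType}
    (h1 : ∀ i, c.sv H x i ≠ 0 → τ i = c.sv H x i) (h2 : ∀ i ∉ H, τ i = 0) :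
    ∃ᶠ y in 𝓝 x, y ∈ c.Lam F ∧ c.sv H y = τ := by
  classical
  have h0 : ∀ i ∈ F ∪ H.filter (fun i => c.g i none x = 0), c.g i none x = 0 := fun i hi => by
    rcases Finset.mem_union.1 hi with hi | hi
    exacts [hx i hi, (Finset.mem_filter.1 hi).2]
  obtain ⟨e, he⟩ := c.solve (adm_hyp h0).1 fun j => (τ j.1 : ℝ)
  have hl : ∀ i ∈ F ∪ H.filter (fun i => c.g i none x = 0), ∀ t : ℝ,
      c.g i none (x + t • e) = t * (τ i : ℝ) := fun i hi t => by
    have h3 := USaddle_lin (c := c) i x (x + t • e)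
    rw [h0 i hi, sub_zero, add_sub_cancel_left, map_smul,
      he (i, none) (Finset.mem_image_of_mem _ hi), smul_eq_mul] at h3
    exact h3.symm
  have ht : Tendsto (fun t : ℝ => x + t • e) (𝓝[>] 0) (𝓝 x) := by
    refine tendsto_nhdsWithin_of_tendsto_nhds (Continuous.tendsto' (by fun_prop) _ _ ?_)
    simp
  have hev : ∀ᶠ y in 𝓝 x, ∀ i, c.g i none x ≠ 0 →
      SignType.sign (c.g i none y) = SignType.sign (c.g i none x) := by
    refine eventually_all.2 fun i => ?_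
    rcases lt_trichotomy (c.g i none x) 0 with h3 | h3 | h3
    · filter_upwards [(isOpen_lt (aff_cont (c.g i none)) continuous_const).mem_nhds h3] with y hy _
      rw [sign_neg hy, sign_neg h3]
    · exact Eventually.of_forall fun _ h4 => absurd h3 h4
    · filter_upwards [(isOpen_lt continuous_const (aff_cont (c.g i none))).mem_nhds h3] with y hy _
      rw [sign_pos hy, sign_pos h3]
  refine ht.frequently (Eventually.frequently ?_)
  filter_upwards [self_mem_nhdsWithin, ht.eventually hev] with t ht0 hy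
  refine ⟨fun i hi => ?_, funext fun i => ?_⟩
  · rw [hl i (Finset.mem_union_left _ hi), h2 i (Finset.disjoint_left.1 h hi), SignType.coe_zero,
      mul_zero]
  · by_cases hi : i ∈ H
    · rw [sv_of_mem hi]
      by_cases h3 : c.g i none x = 0
      · rw [hl i (Finset.mem_union_right _ (Finset.mem_filter.2 ⟨hi, h3⟩)), sign_mul, sign_pos ht0,
          one_mul]
        cases τ i <;> simp
      · rw [hy i h3, h1 i fun h4 => h3 ((sv_eq_zero hi).1 h4), sv_of_mem hi]
    · rw [sv_of_notMem hi, h2 i hi]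

omit [FiniteDimensional ℝ E] [Fintype ι] [Fintype μ] [DecidableEq μ] in
theorem CLift_conv (H : Finset ι) (i : ι) (s : SignType) : Convex ℝ {x | c.sv H x i = s} := by
  by_cases hi : i ∈ H
  · simp only [sv_of_mem hi]
    exact ((ordConnected_singleton (a := s)).preimage_mono
      SignType.sign.monotone).convex.affine_preimage (c.g i none)
  · simp only [sv_of_notMem hi]
    exact fun _ hx _ _ _ _ _ _ _ => hx

omit [FiniteDimensional ℝ E] [Fintype ι] [Fintype μ] [DecidableEq μ] in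
theorem CLift_out (hx : x ∈ c.Lam (F ∪ J)) (i : ι) (hi : i ∉ H \ J) : c.sv H x i = 0 := by
  by_cases h : i ∈ H
  · by_contra h'
    exact hi (Finset.mem_sdiff.2 ⟨h, fun hJ =>
      h' ((sv_eq_zero h).2 (hx i (Finset.mem_union_right _ hJ)))⟩)
  · exact sv_of_notMem h x

theorem CLift_mem (h : Disjoint F H) (hJ : J ⊆ H) {Ω : Set E} (ho : Ω ∈ 𝓝 x)
    (hx : x ∈ c.Lam (F ∪ J)) {τ : ι → SignType} (h1 : ∀ i, c.sv H x i ≠ 0 → τ i = c.sv H x i)
    (h2 : ∀ i ∉ H \ J, τ i = 0) : τ ∈ c.Rz F H J Ω := by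
  obtain ⟨y, ⟨hy, e⟩, hΩ⟩ := ((lift h (Lam_mono Finset.subset_union_left hx) h1 fun i hi =>
    h2 i fun h' => hi (Finset.mem_sdiff.1 h').1).and_eventually ho).exists
  refine ⟨y, hΩ, fun i hi => ?_, e⟩
  rcases Finset.mem_union.1 hi with hi | hi
  · exact hy i hi
  · refine (sv_eq_zero (hJ hi)).1 ?_
    rw [e]
    exact h2 i fun h' => (Finset.mem_sdiff.1 h').2 hi

theorem convex_face (F H : Finset ι) (σ : ι → SignType) :
    Convex ℝ {x | x ∈ c.Lam F ∧ c.sv H x = σ} := by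
  have h : {x | x ∈ c.Lam F ∧ c.sv H x = σ} = c.Lam F ∩ ⋂ i, {x | c.sv H x i = σ i} := by
    ext x
    simp [funext_iff]
  rw [h]
  exact (convex_Lam F).inter (convex_iInter fun i => CLift_conv H i (σ i))

theorem sys (h : Disjoint F H) (hJ : J ⊆ H) {Ω : Set E} (ho : IsOpen Ω) (hc : Convex ℝ Ω) :
    Sys (c.Rz F H J Ω) (H \ J) := by
  refine ⟨?_, ?_, ?_⟩
  · rintro _ ⟨x, -, hx, rfl⟩
    exact CLift_out hx
  · rintro _ ⟨x, hΩ, hx, rfl⟩ a ha h0 s
    refine CLift_mem h hJ (ho.mem_nhds hΩ) hx (fun i hi => ?_) fun i hi => ?_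
    · exact Function.update_of_ne (fun e : i = a => hi (e ▸ h0)) _ _
    · rw [Function.update_of_ne (fun e : i = a => hi (e ▸ ha))]
      exact CLift_out hx i hi
  · rintro _ ⟨x, hΩ, hx, rfl⟩ _ ⟨y, hΩ', hy, rfl⟩ a h1 h2
    have ha : a ∈ H := by
      by_contra h'
      rw [sv_of_notMem h'] at h1
      exact zero_ne_one h1
    rw [sv_of_mem ha, sign_eq_one_iff] at h1
    rw [sv_of_mem ha, sign_eq_neg_one_iff] at h2
    have h3 : Convex ℝ ((Ω ∩ c.Lam (F ∪ J)) ∩
        ⋂ i, ⋂ _ : c.sv H x i = c.sv H y i, {z | c.sv H z i = c.sv H x i}) :=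
      (hc.inter (convex_Lam _)).inter (convex_iInter₂ fun i _ => CLift_conv H i _)
    obtain ⟨z, hz, h4⟩ := h3.isPreconnected.intermediate_value (a := y) (b := x)
      ⟨⟨hΩ', hy⟩, mem_iInter₂.2 fun _ e => e.symm⟩ ⟨⟨hΩ, hx⟩, mem_iInter₂.2 fun _ _ => rfl⟩
      (aff_cont (c.g a none)).continuousOn ⟨h2.le, h1.le⟩
    exact ⟨_, ⟨z, hz.1.1, hz.1.2, rfl⟩, (sv_eq_zero ha).2 h4, mem_iInter₂.1 hz.2⟩

theorem val_const (h : Disjoint F H) (hJ : J ⊆ H) {k : ι → (ι → SignType) → ZMod 2}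
    {χ : (ι → SignType) → ZMod 2} (hχ : Jump (c.Rz F H J univ) (H \ J) k χ) {D : Set E}
    (hD : IsPreconnected D) (hs : D ⊆ c.Lam (F ∪ J))
    (h0 : ∀ x ∈ D, ∀ᶠ y in 𝓝 x, y ∈ c.Lam (F ∪ J) →
      ∀ i, Fac (H \ J) i (c.sv H y) → k i (c.sv H y) = 0) (hx : x ∈ D) (hx' : x' ∈ D) :
    χ (chm (H \ J) (c.sv H x)) = χ (chm (H \ J) (c.sv H x')) := by
  refine hD.constant (f := fun x => χ (chm (H \ J) (c.sv H x))) (fun v hv => ?_) hx hx'
  obtain ⟨ε, hε, hb⟩ := Metric.mem_nhds_iff.1 (h0 v hv)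
  have h1 : Jump (c.Rz F H J (Metric.ball v ε)) (H \ J) (fun _ _ => 0) χ := by
    rintro i _ ⟨y, hy, hy', rfl⟩ hf
    exact (hχ i _ ⟨y, mem_univ y, hy', rfl⟩ hf).trans (hb hy hy' i hf)
  have h2 : ∀ y ∈ D, y ∈ Metric.ball v ε →
      chm (H \ J) (c.sv H y) ∈ c.Rz F H J (Metric.ball v ε) := fun y hy hy' =>
    CLift_mem h hJ (Metric.isOpen_ball.mem_nhds hy') (hs hy) (fun i hi => if_neg fun h' => hi h'.2)
      fun i hi => (if_neg fun h' => hi h'.1).trans (CLift_out (hs hy) i hi)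
  have h3 : ∀ y ∈ D, y ∈ Metric.ball v ε →
      χ (chm (H \ J) (c.sv H y)) = χ (chm (H \ J) (c.sv H v)) := fun y hy hy' =>
    (sys h hJ Metric.isOpen_ball (convex_ball v ε)).conn h1 (h2 y hy hy')
      (h2 v hv (Metric.mem_ball_self hε)) (cham_chm _ _) (cham_chm _ _)
  refine (continuousWithinAt_const (b := χ (chm (H \ J) (c.sv H v)))).congr_of_eventuallyEq ?_ rfl
  filter_upwards [self_mem_nhdsWithin, nhdsWithin_le_nhds (Metric.ball_mem_nhds v hε)] with y hy hy'
  exact h3 y hy hy'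

end Ctx

end SC
end

-- part: CCell
section
/-!
# Cells with popular points

`pop_near`: `Good R₀ · 0` is an open condition (`Eventually.eventually_nhds`), the boundary
equations stay positive, the other patches are closed.  `gen_pop`: near `x` the points of the flat
lie in the cell (a ball that misses the obstacles meets the flat in a convex set) and are popular;
use `lift` with `chm H (sv H x)`.  `finite_Cells`: a cell is determined by the sign vector on `R` of
a point given by `gen_pop`, because a face that is nonzero on `R` is a convex subset of `XF F R`.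
`cells_sub`: `top0`, `diff_sub_XF`.  `unb`: an unbounded component leaves `PF F`; `top2`.
-/

open Set Filter Topology SA

namespace SC

variable {E ι μ : Type} [NormedAddCommGroup E] [NormedSpace ℝ E] [FiniteDimensional ℝ E]
  [Fintype ι] [DecidableEq ι] [Fintype μ] [DecidableEq μ]

namespace Ctx

variable {c : Ctx E ι μ} {R₀ F R H J : Finset ι} {x x' : E}

/-- Points near a popular point are popular for their own flat. -/
theorem pop_near {F' : Finset ι} (hx : x ∈ c.Pop R₀ F) (hF : F' ⊆ F) :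
    ∀ᶠ y in 𝓝 x, y ∈ c.Lam F' → (∀ i ∈ F, i ∉ F' → c.g i none y ≠ 0) → y ∈ c.Pop R₀ F' := by
  obtain ⟨ρ, hρ⟩ := exists_loc (c := c) R₀ x
  filter_upwards [Metric.ball_mem_nhds x hρ.1, hx.2.eventually_nhds] with y hy hg hL hne
  refine ⟨⟨hF.trans hx.1.1, fun i hi => ⟨hL i hi, fun l => ?_⟩, fun i hi hi' hp => ?_⟩, hg⟩
  · have h1 := hx.1.2.1 i (hF hi)
    exact (hρ.2 y hy i (hx.1.1 (hF hi))).2 (rel_sub i h1) l (h1.2 l)
  · by_cases h1 : i ∈ F
    · exact hne i h1 hi' hp.1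
    · exact (hρ.2 y hy i hi).1 (hx.1.2.2 i hi h1) hp

theorem cc_near (hx : x ∈ c.XF F R) : ∀ᶠ y in 𝓝 x, y ∈ c.Lam F → y ∈ cc (c.XF F R) x := by
  have h1 : ∀ᶠ y in 𝓝 x, ∀ a ∈ R, ¬ (y ∈ patch c.g a ∧ y ∈ c.PF F) :=
    (eventually_all_finset R).2 fun a ha =>
      ((isClosed_patch c.g a).inter (isClosed_PF F)).isOpen_compl.mem_nhds (hx.2 a ha)
  obtain ⟨ε, hε, h2⟩ := Metric.eventually_nhds_iff_ball.1 h1
  filter_upwards [Metric.ball_mem_nhds x hε] with y hy hL
  have h3 : Metric.ball x ε ∩ c.Lam F ⊆ c.XF F R := fun w hw => ⟨hw.2, h2 w hw.1⟩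
  exact ((convex_ball x ε).inter (convex_Lam (c := c) F)).isPreconnected.subset_connectedComponentIn
    ⟨Metric.mem_ball_self hε, hx.1⟩ h3 ⟨hy, hL⟩

theorem gen_pop (hR : R ⊆ R₀) (h : Disjoint F R) (h' : Disjoint F H) {κ : Set E}
    (hκ : κ ∈ c.Cells R₀ F R) :
    ∃ x ∈ c.Pop R₀ F, κ = cc (c.XF F R) x ∧ ∀ i ∈ H, c.g i none x ≠ 0 := by
  obtain ⟨-, x, hx, rfl⟩ := hκ
  have hX := pop_sub hR h hx
  have h1 := lift (c := c) h' hX.1 (τ := chm H (c.sv H x))
    (fun i hi => if_neg fun h2 => hi h2.2)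
    (fun i hi => (if_neg fun h2 => hi h2.1).trans (sv_of_notMem hi x))
  obtain ⟨y, ⟨y1, y2⟩, y3, y4⟩ :=
    (h1.and_eventually ((pop_near hx (Finset.Subset.refl F)).and (cc_near hX))).exists
  refine ⟨y, y3 y1 fun i hi hi' => absurd hi hi', connectedComponentIn_eq (y4 y1), fun i hi h0 => ?_⟩
  exact cham_chm H (c.sv H x) i hi (y2 ▸ (sv_eq_zero hi).2 h0)

theorem finite_Cells (hR : R ⊆ R₀) (h : Disjoint F R) : (c.Cells R₀ F R).Finite := by
  refine (Set.finite_iUnion (f := fun σ : ι → SignType => {κ | ∃ x ∈ c.Lam F, c.sv R x = σ ∧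
    (∀ i ∈ R, c.g i none x ≠ 0) ∧ κ = cc (c.XF F R) x}) fun σ => Set.Subsingleton.finite ?_).subset
    fun κ hκ => ?_
  · rintro _ ⟨x, x1, x2, x3, rfl⟩ _ ⟨y, y1, y2, -, rfl⟩
    have h1 : {w | w ∈ c.Lam F ∧ c.sv R w = σ} ⊆ c.XF F R := fun w hw => by
      refine ⟨hw.1, fun a ha hp => x3 a ha ?_⟩
      rw [← sv_eq_zero ha, x2, ← hw.2, sv_eq_zero ha]
      exact hp.1.1
    exact connectedComponentIn_eq
      ((convex_face (c := c) F R σ).isPreconnected.subset_connectedComponentIn ⟨x1, x2⟩ h1 ⟨y1, y2⟩)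
  · obtain ⟨x, x1, x2, x3⟩ := gen_pop hR h h hκ
    exact mem_iUnion.2 ⟨_, x, (pop_sub hR h x1).1, rfl, x3, x2⟩

theorem cells_sub (hF : F.card < c.d) {κ : Set E} (hκ : κ ∈ c.Cells R₀ F R) : κ ⊆ c.PF F := by
  obtain ⟨hb, x, -, rfl⟩ := hκ
  intro y hy
  by_contra hn
  refine top0 hF (convex_PF F) ⟨(connectedComponentIn_subset _ _ hy).1, hn⟩ (hb.subset ?_)
  rw [show cc (c.XF F R) x = cc (c.XF F R) y from connectedComponentIn_eq hy]
  exact connectedComponentIn_mono _ (diff_sub_XF F R)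

/-- An unbounded component leaves `PF F`, and there is only one. -/
theorem unb (hF : F.Nonempty) (hx : ¬ Bornology.IsBounded (cc (c.XF F R) x)) :
    ∃ y ∈ cc (c.XF F R) x, y ∈ c.Lam F \ c.PF F := by
  by_contra hn
  refine hx ((bounded_PF (c := c) hF).subset fun y hy => ?_)
  by_contra h1
  exact hn ⟨y, hy, (connectedComponentIn_subset _ _ hy).1, h1⟩

theorem unb_eq (hF : F.Nonempty) (hc : F.card + 2 ≤ c.d)
    (hx : ¬ Bornology.IsBounded (cc (c.XF F R) x)) (hx' : ¬ Bornology.IsBounded (cc (c.XF F R) x')) :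
    cc (c.XF F R) x = cc (c.XF F R) x' := by
  obtain ⟨y, y1, y2⟩ := unb hF hx
  obtain ⟨y', y3, y4⟩ := unb hF hx'
  have h1 := (top2 hc (convex_PF F) (bounded_PF hF)).subset_connectedComponentIn y2
    (diff_sub_XF F R) y4
  exact (connectedComponentIn_eq y1).trans
    ((connectedComponentIn_eq h1).trans (connectedComponentIn_eq y3).symm)

end Ctx

end SC
end

-- part: CY
section
/-!
# The corner chains

`Y_insert`: `Finset.sum_powerset_insert`.

`Y0_iff`: let `F' = insert b F`, `u ∈ Lam F'` with `g a u ≠ 0` for `a ∈ R`.  For a cell `κ ∈ Kf b`: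
(`∃ x ∈ κ, sv H x = sv H u`) iff `u ∈ κ`, because the face of `u` in `Lam F'` (`convex_face`) is a
convex subset of `XF F' R` and `κ ⊆ XF F' R ⊆ Lam F'`.  This gives `Y0_eq` and `Y0_edge`
(different cells are disjoint).

`Y0_pair`: take a ball around `y` that misses the closed set `patch h ∩ PF F'` if `h ∈ R`, and points
`u₁`, `u₂` in it that realize the two vectors (`lift` for `F`, `H`; the value `0` at `b` puts them in
`Lam F'`).  On the segment the signs on `R \ {h}` are constant and nonzero, so it lies in `XF F' R`.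

`Y_BB`: termwise by `Y0_pair` with `h = b'` and `τ = asg J J₁ (sv H y)`.  `Y_supp`: if `J = ∅` use
`cells_sub` and `Y0_iff`.  Otherwise pick `a ∈ J` with `y ∉ patch a ∩ PF (insert b F)`, write
`J = insert a J'`, use `Y_insert` and `Y0_pair` termwise.
-/

open Set Filter Topology SA Function

namespace SC

variable {E ι μ : Type} [NormedAddCommGroup E] [NormedSpace ℝ E] [FiniteDimensional ℝ E]
  [Fintype ι] [DecidableEq ι] [Fintype μ] [DecidableEq μ]

namespace Ctx

namespace Cfg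

variable {c : Ctx E ι μ} (G : c.Cfg) (S S' : ι → Set E → ZMod 2) {J : Finset ι} {a b b' h : ι}
  {u u' y : E} {κ : Set E}

theorem Y_add (J : Finset ι) (b : ι) (σ : ι → SignType) :
    G.Y (S + S') J b σ = G.Y S J b σ + G.Y S' J b σ := by
  unfold Y Y0
  rw [← Finset.sum_add_distrib]
  refine Finset.sum_congr rfl fun J₁ _ => ?_
  rw [← Finset.sum_add_distrib]
  refine Finset.sum_congr rfl fun κ _ => ?_
  split_ifs
  · rfl
  · exact (add_zero _).symm

theorem Y_empty (b : ι) (σ : ι → SignType) : G.Y S ∅ b σ = G.Y0 S b σ := by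
  have e : asg ∅ ∅ σ = σ := funext fun i => by simp [asg]
  unfold Y
  rw [Finset.powerset_empty, Finset.sum_singleton, e]

theorem Y_insert (ha : a ∉ J) (b : ι) (σ : ι → SignType) :
    G.Y S (insert a J) b σ = G.Y S J b (update σ a 1) + G.Y S J b (update σ a (-1)) := by
  unfold Y
  rw [Finset.sum_powerset_insert ha, add_comm]
  refine congrArg₂ (· + ·) (Finset.sum_congr rfl fun J₁ _ => congrArg _ (funext fun i => ?_))
    (Finset.sum_congr rfl fun J₁ _ => congrArg _ (funext fun i => ?_))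
  · by_cases hi : i = a
    · subst hi
      simp [asg, ha]
    · simp [asg, hi]
  · by_cases hi : i = a
    · subst hi
      simp [asg, ha]
    · simp [asg, hi]

theorem CY_memR (ha : a ∈ G.R) : a ∈ G.H := Finset.mem_union_left _ ha

theorem CY_memB (hb : b ∈ G.B) : b ∈ G.H := Finset.mem_union_right _ hb

theorem CY_cell (hb : b ∈ G.B) (hκ : κ ∈ G.Kf b) (hu : u ∈ κ) :
    κ = cc (c.XF (insert b G.F) G.R) u := by
  obtain ⟨-, x, -, rfl⟩ := (G.hK b hb κ).1 hκ
  exact connectedComponentIn_eq hu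

theorem CY_lam (hb : b ∈ G.B) (hκ : κ ∈ G.Kf b) (hu : u ∈ κ) : u ∈ c.XF (insert b G.F) G.R := by
  obtain ⟨-, x, -, rfl⟩ := (G.hK b hb κ).1 hκ
  exact connectedComponentIn_subset _ _ hu

theorem Y0_iff (hb : b ∈ G.B) (hu : u ∈ c.Lam (insert b G.F)) (h0 : ∀ a ∈ G.R, c.g a none u ≠ 0)
    (hκ : κ ∈ G.Kf b) : (∃ x ∈ κ, c.sv G.H x = c.sv G.H u) ↔ u ∈ κ := by
  refine ⟨?_, fun h => ⟨u, h, rfl⟩⟩
  rintro ⟨x, hx, e⟩
  rw [G.CY_cell hb hκ hx]
  refine (convex_face (insert b G.F) G.H (c.sv G.H u)).isPreconnected.subset_connectedComponentIn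
    ⟨(G.CY_lam hb hκ hx).1, e⟩ ?_ ⟨hu, rfl⟩
  intro w hw
  refine ⟨hw.1, fun a ha h' => h0 a ha ?_⟩
  rw [← sv_eq_zero (G.CY_memR ha), ← hw.2, sv_eq_zero (G.CY_memR ha)]
  exact h'.1.1

theorem Y0_eq (hb : b ∈ G.B) (hu : u ∈ c.Lam (insert b G.F)) (h0 : ∀ a ∈ G.R, c.g a none u ≠ 0)
    (h0' : ∀ a ∈ G.R, c.g a none u' ≠ 0) (h : u' ∈ cc (c.XF (insert b G.F) G.R) u) :
    G.Y0 S b (c.sv G.H u) = G.Y0 S b (c.sv G.H u') := by
  classical
  have hu' : u' ∈ c.Lam (insert b G.F) := (connectedComponentIn_subset _ _ h).1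
  have hx : u ∈ c.XF (insert b G.F) G.R := ⟨hu, fun a ha h' => h0 a ha h'.1.1⟩
  unfold Y0
  refine Finset.sum_congr rfl fun κ hκ => if_congr ?_ rfl rfl
  rw [G.Y0_iff hb hu h0 hκ, G.Y0_iff hb hu' h0' hκ]
  refine ⟨fun h1 => ?_, fun h1 => ?_⟩
  · rwa [G.CY_cell hb hκ h1]
  · rw [G.CY_cell hb hκ h1]
    have e : cc (c.XF (insert b G.F) G.R) u = cc (c.XF (insert b G.F) G.R) u' :=
      connectedComponentIn_eq h
    rw [← e]
    exact mem_connectedComponentIn hx

theorem Y0_edge (hb : b ∈ G.B) (hκ : κ ∈ G.Kf b) (hu : u ∈ κ) (h0 : ∀ a ∈ G.R, c.g a none u ≠ 0) :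
    G.Y0 S b (c.sv G.H u) = S b κ := by
  have hl := (G.CY_lam hb hκ hu).1
  unfold Y0
  rw [Finset.sum_eq_single_of_mem κ hκ, if_pos ⟨u, hu, rfl⟩]
  intro κ' hκ' hne
  refine if_neg fun h => hne ?_
  rw [G.CY_cell hb hκ hu, G.CY_cell hb hκ' ((G.Y0_iff hb hl h0 hκ').1 h)]

theorem Y0_pair (hb : b ∈ G.B) (hy : y ∈ c.Lam (insert b G.F)) (hh : h ∈ G.H) (hne : h ≠ b)
    (h0 : c.g h none y = 0) (h1 : h ∈ G.R → ¬ (y ∈ patch c.g h ∧ y ∈ c.PF (insert b G.F)))
    {τ : ι → SignType} (t1 : ∀ i, c.sv G.H y i ≠ 0 → τ i = c.sv G.H y i) (t2 : ∀ i ∉ G.H, τ i = 0)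
    (t3 : τ b = 0) (t4 : ∀ a ∈ G.R, a ≠ h → τ a ≠ 0) :
    G.Y0 S b (update τ h 1) = G.Y0 S b (update τ h (-1)) := by
  obtain ⟨ε, hε, hball⟩ : ∃ ε > 0, ∀ w ∈ Metric.ball y ε, h ∈ G.R →
      ¬ (w ∈ patch c.g h ∧ w ∈ c.PF (insert b G.F)) := by
    by_cases hR : h ∈ G.R
    · obtain ⟨ε, hε, h2⟩ := Metric.isOpen_iff.1
        ((isClosed_patch c.g h).inter (isClosed_PF (c := c) (insert b G.F))).isOpen_compl y (h1 hR)
      exact ⟨ε, hε, fun w hw _ => h2 hw⟩
    · exact ⟨1, one_pos, fun _ _ h2 => absurd h2 hR⟩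
  have key : ∀ s : SignType, ∃ w ∈ Metric.ball y ε, w ∈ c.Lam (insert b G.F) ∧
      c.sv G.H w = update τ h s := by
    intro s
    have h2 := lift (τ := update τ h s) G.dFH (Lam_mono (Finset.subset_insert b G.F) hy)
      (fun i hi => by
        have : i ≠ h := fun e => hi (by rw [e, sv_eq_zero hh]; exact h0)
        rw [update_of_ne this]
        exact t1 i hi)
      (fun i hi => by
        have : i ≠ h := fun e => hi (e ▸ hh)
        rw [update_of_ne this]
        exact t2 i hi)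
    obtain ⟨w, ⟨w1, w2⟩, w3⟩ := (h2.and_eventually (Metric.ball_mem_nhds y hε)).exists
    refine ⟨w, w3, fun i hi => ?_, w2⟩
    rcases Finset.mem_insert.1 hi with rfl | hi
    · rw [← sv_eq_zero (G.CY_memB hb), w2, update_of_ne hne.symm, t3]
    · exact w1 i hi
  have nz : ∀ s : SignType, s ≠ 0 → ∀ w, c.sv G.H w = update τ h s →
      ∀ a ∈ G.R, c.g a none w ≠ 0 := by
    intro s hs w hw a ha
    rw [Ne, ← sv_eq_zero (G.CY_memR ha), hw]
    by_cases e : a = h
    · rwa [e, update_self]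
    · rw [update_of_ne e]
      exact t4 a ha e
  obtain ⟨u₁, b1, l1, s1⟩ := key 1
  obtain ⟨u₂, b2, l2, s2⟩ := key (-1)
  have n1 := nz 1 (by decide) u₁ s1
  rw [← s1, ← s2]
  refine G.Y0_eq S hb l1 n1 (nz (-1) (by decide) u₂ s2) ?_
  refine ((convex_ball y ε).inter (convex_face (insert b G.F) (G.R.erase h)
    (c.sv (G.R.erase h) u₁))).isPreconnected.subset_connectedComponentIn ⟨b1, l1, rfl⟩ ?_
    ⟨b2, l2, funext fun i => ?_⟩
  · intro w hw
    refine ⟨hw.2.1, fun a ha h' => ?_⟩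
    by_cases e : a = h
    · exact hball w hw.1 (e ▸ ha) (e ▸ h')
    · have h3 : a ∈ G.R.erase h := Finset.mem_erase.2 ⟨e, ha⟩
      refine n1 a ha ?_
      rw [← sv_eq_zero h3, ← hw.2.2, sv_eq_zero h3]
      exact h'.1.1
  · by_cases hi : i ∈ G.R.erase h
    · have h3 := Finset.mem_erase.1 hi
      rw [sv_of_mem hi, sv_of_mem hi, ← sv_of_mem (G.CY_memR h3.2), ← sv_of_mem (G.CY_memR h3.2),
        s1, s2, update_of_ne h3.1, update_of_ne h3.1]
    · rw [sv_of_notMem hi, sv_of_notMem hi]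

theorem CY_pair (hb : b ∈ G.B) (hy : y ∈ c.Lam (insert b G.F)) (hh : h ∈ G.H) (hne : h ≠ b)
    (h0 : c.g h none y = 0) (h1 : h ∈ G.R → ¬ (y ∈ patch c.g h ∧ y ∈ c.PF (insert b G.F)))
    (hJ : J ⊆ G.R) (hn : h ∉ J) (h2 : ∀ i ∈ J, c.g i none y = 0)
    (h3 : ∀ a ∈ G.R, a ≠ h → a ∉ J → c.sv G.H y a ≠ 0) :
    G.Y S J b (update (c.sv G.H y) h 1) + G.Y S J b (update (c.sv G.H y) h (-1)) = 0 := by
  have e : G.Y S J b (update (c.sv G.H y) h 1) = G.Y S J b (update (c.sv G.H y) h (-1)) := by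
    unfold Y
    refine Finset.sum_congr rfl fun J₁ hJ₁ => ?_
    replace hJ₁ := Finset.mem_powerset.1 hJ₁
    have e1 : ∀ s, asg J J₁ (update (c.sv G.H y) h s) = update (asg J J₁ (c.sv G.H y)) h s := by
      intro s
      funext i
      by_cases hi : i = h
      · subst hi
        have : i ∉ J₁ := fun h' => hn (hJ₁ h')
        simp [asg, hn, this]
      · simp [asg, hi]
    have e2 : ∀ i ∉ J, asg J J₁ (c.sv G.H y) i = c.sv G.H y i := fun i hi => by
      have : i ∉ J₁ := fun h' => hi (hJ₁ h')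
      simp [asg, hi, this]
    rw [e1, e1]
    refine G.Y0_pair S hb hy hh hne h0 h1 (fun i hi => e2 i fun h' => hi ?_) (fun i hi => ?_) ?_
      fun a ha hah => ?_
    · rw [sv_eq_zero (G.CY_memR (hJ h'))]
      exact h2 i h'
    · rw [e2 i fun h' => hi (G.CY_memR (hJ h')), sv_of_notMem hi]
    · rw [e2 b fun h' => Finset.disjoint_left.1 G.dRB (hJ h') hb, sv_eq_zero (G.CY_memB hb)]
      exact hy b (Finset.mem_insert_self _ _)
    · by_cases h4 : a ∈ J
      · by_cases h5 : a ∈ J₁ <;> simp [asg, h4, h5]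
      · rw [e2 a h4]
        exact h3 a ha hah h4
  rw [e]
  exact CharTwo.add_self_eq_zero _

theorem CY_ins (hb : b ∈ G.B) (hy : y ∈ c.Lam (G.F ∪ J)) (h : c.sv G.H y b = 0) :
    y ∈ c.Lam (insert b G.F) := by
  intro i hi
  rcases Finset.mem_insert.1 hi with rfl | hi
  · exact (sv_eq_zero (G.CY_memB hb)).1 h
  · exact hy i (Finset.mem_union_left _ hi)

theorem Y_BB (hJ : J ⊆ G.R) (hb : b ∈ G.B) (hb' : b' ∈ G.B) (hy : y ∈ c.Lam (G.F ∪ J))
    (hr : Rid (G.H \ J) b b' (c.sv G.H y)) :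
    G.Y S J b (update (c.sv G.H y) b' 1) + G.Y S J b (update (c.sv G.H y) b' (-1)) = 0 := by
  obtain ⟨-, r2, r3, r4, r5, r6⟩ := hr
  exact G.CY_pair S hb (G.CY_ins hb hy r4) (G.CY_memB hb') r3.symm
    ((sv_eq_zero (G.CY_memB hb')).1 r5)
    (fun h => absurd hb' (Finset.disjoint_left.1 G.dRB h)) hJ (Finset.mem_sdiff.1 r2).2
    (fun i hi => hy i (Finset.mem_union_right _ hi))
    fun a ha h1 h2 => r6 a (Finset.mem_sdiff.2 ⟨G.CY_memR ha, h2⟩)
      (fun e => Finset.disjoint_left.1 G.dRB ha (e ▸ hb)) h1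

theorem Y_supp (hJ : J ⊆ G.R) (hb : b ∈ G.B) (hy : y ∈ c.Lam (G.F ∪ J))
    (hf : Fac (G.H \ J) b (c.sv G.H y)) (hn : y ∉ c.PF (insert b (G.F ∪ J))) :
    G.Y S J b (c.sv G.H y) = 0 := by
  obtain ⟨-, f2, f3⟩ := hf
  have hl := G.CY_ins hb hy f2
  have hne : ∀ a ∈ G.R, a ≠ b := fun a ha e => Finset.disjoint_left.1 G.dRB ha (e ▸ hb)
  rcases J.eq_empty_or_nonempty with rfl | ⟨a₀, ha₀⟩
  · rw [Y_empty]
    refine Finset.sum_eq_zero fun κ hκ => if_neg fun h => hn ?_
    rw [Finset.union_empty]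
    refine cells_sub ?_ ((G.hK b hb κ).1 hκ) ((G.Y0_iff hb hl (fun a ha h' => ?_) hκ).1 h)
    · have h1 := Finset.card_insert_le b G.F
      have h2 := G.card
      omega
    · exact f3 a (Finset.mem_sdiff.2 ⟨G.CY_memR ha, Finset.notMem_empty _⟩) (hne a ha)
        ((sv_eq_zero (G.CY_memR ha)).2 h')
  · obtain ⟨a, ha, h1⟩ : ∃ a ∈ J, ¬ (y ∈ patch c.g a ∧ y ∈ c.PF (insert b G.F)) := by
      by_contra h2
      have h3 : ∀ a ∈ J, y ∈ patch c.g a ∧ y ∈ c.PF (insert b G.F) := fun a ha => by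
        by_contra h4
        exact h2 ⟨a, ha, h4⟩
      refine hn fun i hi => ?_
      rcases Finset.mem_insert.1 hi with rfl | hi
      · exact (h3 a₀ ha₀).2 _ (Finset.mem_insert_self _ _)
      · rcases Finset.mem_union.1 hi with hi | hi
        · exact (h3 a₀ ha₀).2 _ (Finset.mem_insert_of_mem hi)
        · exact (h3 i hi).1
    rw [← Finset.insert_erase ha, G.Y_insert S (Finset.notMem_erase a J)]
    refine G.CY_pair S hb hl (G.CY_memR (hJ ha)) (hne a (hJ ha))
      (hy a (Finset.mem_union_right _ ha)) (fun _ => h1) ((J.erase_subset a).trans hJ)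
      (Finset.notMem_erase a J)
      (fun i hi => hy i (Finset.mem_union_right _ (Finset.mem_of_mem_erase hi)))
      fun a' ha' h2 h3 => f3 a' (Finset.mem_sdiff.2 ⟨G.CY_memR ha', fun h4 => ?_⟩) (hne a' ha')
    exact h3 (Finset.mem_erase.2 ⟨h2, h4⟩)

end Cfg

end Ctx

end SC
end

-- part: CObs
section
/-!
# The obstruction on lines

Write `D = c.d - F.card ≥ 3`, `T = H \ J`, `val χ x = χ (chm T (sv H x))`.

`exists_obs`: let `J ⊆ R`, `|J| = D - 1`.  No ridge is realized (`adm_hyp`, `card_le`: it would put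
`d + 1` hyperplanes through a point), so `Sys.fill` gives a `χ S` with the jumps `cj S 0 J`.  If the
flat is empty put `o S J = 0`.  Otherwise take `z, z'` from `top1` (`K = PF (F ∪ J)`, bounded as
`J ≠ ∅`) and put `o S J = val (χ S) z + val (χ S) z'`.  Additive: `χ S + χ S' + χ (S + S')` has the
jumps `0` (`Y_add`), so `val_const` with `D = Lam (F ∪ J)` applies.  If `o S J = 0`, then `val` has
the same value `v` at `z`, `z'` and, by `val_const` (`Y_supp`; `PF` is closed), on all of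
`Lam (F ∪ J) \ K`; replace `χ` by `χ + v` (`chm_eq`).
-/

open Set Filter Topology SA Function

namespace SC

variable {E ι μ : Type} [NormedAddCommGroup E] [NormedSpace ℝ E] [FiniteDimensional ℝ E]
  [Fintype ι] [DecidableEq ι] [Fintype μ] [DecidableEq μ]

namespace Ctx

namespace Cfg

variable {c : Ctx E ι μ} (G : c.Cfg)

theorem CObs_evn {J : Finset ι} (hJ : J ⊆ G.R) (hc : J.card = c.d - G.F.card - 1)
    (k : ι → (ι → SignType) → ZMod 2) : Evn (c.Rz G.F G.H J univ) (G.H \ J) k := by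
  intro h h' σ hσ hr
  exfalso
  obtain ⟨x, -, hx, rfl⟩ := hσ
  obtain ⟨h1, h2, hne, h3, h4, -⟩ := hr
  obtain ⟨hH, hn⟩ := Finset.mem_sdiff.1 h1
  obtain ⟨hH', hn'⟩ := Finset.mem_sdiff.1 h2
  have a : ∀ i ∈ insert h (insert h' (G.F ∪ J)), c.g i none x = 0 := by
    intro i hi
    rcases Finset.mem_insert.1 hi with rfl | hi
    · exact (sv_eq_zero hH).1 h3
    rcases Finset.mem_insert.1 hi with rfl | hi
    · exact (sv_eq_zero hH').1 h4
    · exact hx i hi
  obtain ⟨b1, b2⟩ := adm_hyp a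
  have b3 := c.card_le b1
  have n1 : h' ∉ G.F ∪ J := fun e => (Finset.mem_union.1 e).elim
    (fun e => Finset.disjoint_left.1 G.dFH e hH') hn'
  have n2 : h ∉ insert h' (G.F ∪ J) := fun e => (Finset.mem_insert.1 e).elim hne fun e =>
    (Finset.mem_union.1 e).elim (fun e => Finset.disjoint_left.1 G.dFH e hH) hn
  rw [b2, Finset.card_insert_of_notMem n2, Finset.card_insert_of_notMem n1,
    Finset.card_union_of_disjoint (G.dFR.mono_right hJ)] at b3
  have := G.card
  omega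

theorem CObs_z1 : ∀ a b e a' b' e' : ZMod 2, a + b + e = a' + b' + e' →
    e + e' = a + a' + (b + b') := by decide

theorem CObs_z2 : ∀ a b e a' b' e' : ZMod 2, e + e' = a + a' + (b + b') →
    a + b + e + (a' + b' + e') = 0 := by decide

theorem CObs_z3 : ∀ a b : ZMod 2, a + b = 0 → b = a := by decide

theorem CObs_z4 : ∀ a b v : ZMod 2, a + v + (b + v) = a + b := by decide

theorem CObs_z5 : ∀ v : ZMod 2, v + v = 0 := by decide

theorem CObs_one {J : Finset ι} (hJ : J ⊆ G.R) (hc : J.card = c.d - G.F.card - 1) :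
    ∃ o : (ι → Set E → ZMod 2) →+ ZMod 2, ∀ S, o S = 0 →
      ∃ χ, G.Fil J (G.cj S (fun _ _ => 0) J) χ := by
  have hJH : J ⊆ G.H := hJ.trans Finset.subset_union_left
  have hsys := sys (c := c) G.dFH hJH isOpen_univ convex_univ
  choose χ hχ using fun S : ι → Set E → ZMod 2 =>
    hsys.fill (G.CObs_evn hJ hc (G.cj S (fun _ _ => 0) J))
  rcases (c.Lam (G.F ∪ J)).eq_empty_or_nonempty with he | hne
  · refine ⟨0, fun S _ => ⟨χ S, hχ S, fun x hx => ?_⟩⟩
    rw [he] at hx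
    exact hx.elim
  have h3 := G.card
  have hZ : (G.F ∪ J).card < c.d := by
    rw [Finset.card_union_of_disjoint (G.dFR.mono_right hJ)]
    omega
  have hJn : (G.F ∪ J).Nonempty :=
    (Finset.card_pos.1 (by omega : 0 < J.card)).mono Finset.subset_union_right
  obtain ⟨z, hz, z', hz', hy⟩ := top1 hZ (convex_PF (c := c) (G.F ∪ J)) (bounded_PF hJn) hne
  refine ⟨AddMonoidHom.mk' (fun S => χ S (chm (G.H \ J) (c.sv G.H z)) +
    χ S (chm (G.H \ J) (c.sv G.H z'))) fun S S' => ?_, fun S h0 => ?_⟩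
  · have hψ : Jump (c.Rz G.F G.H J univ) (G.H \ J) (fun _ _ => 0)
        fun σ => χ S σ + χ S' σ + χ (S + S') σ := by
      intro h σ hσ hf
      refine CObs_z2 _ _ _ _ _ _ ?_
      rw [hχ S h σ hσ hf, hχ S' h σ hσ hf, hχ (S + S') h σ hσ hf]
      unfold cj
      split_ifs
      · exact G.Y_add S S' J h σ
      · exact (add_zero _).symm
    exact CObs_z1 _ _ _ _ _ _ (val_const G.dFH hJH hψ (convex_Lam (G.F ∪ J)).isPreconnected
      subset_rfl (fun _ _ => Eventually.of_forall fun _ _ _ _ => rfl) hz hz')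
  · have e := CObs_z3 _ _ h0
    have key : ∀ w y, y ∈ cc (c.Lam (G.F ∪ J) \ c.PF (G.F ∪ J)) w →
        χ S (chm (G.H \ J) (c.sv G.H y)) = χ S (chm (G.H \ J) (c.sv G.H w)) := by
      intro w y hw
      refine val_const G.dFH hJH (hχ S) isPreconnected_connectedComponentIn
        ((connectedComponentIn_subset _ _).trans Set.sdiff_subset) (fun x hx => ?_) hw
        (mem_connectedComponentIn (connectedComponentIn_nonempty_iff.1 ⟨y, hw⟩))
      have hx' : x ∈ (c.PF (G.F ∪ J))ᶜ := (connectedComponentIn_subset _ _ hx).2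
      filter_upwards [(isClosed_PF (c := c) (G.F ∪ J)).isOpen_compl.mem_nhds hx'] with u hu hl i hf
      unfold cj
      split_ifs with hb
      · exact G.Y_supp S hJ hb hl hf fun h => hu (PF_mono (Finset.subset_insert _ _) h)
      · rfl
    refine ⟨fun σ => χ S σ + χ S (chm (G.H \ J) (c.sv G.H z)), fun h σ hσ hf => ?_,
      fun x hx hn hch => ?_⟩
    · rw [← hχ S h σ hσ hf]
      exact CObs_z4 _ _ _
    · have e' : χ S (c.sv G.H x) = χ S (chm (G.H \ J) (c.sv G.H z)) := by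
        rw [← chm_eq hch]
        rcases hy x ⟨hx, hn⟩ with h | h
        · exact key z x h
        · exact (key z' x h).trans e
      change χ S (c.sv G.H x) + _ = 0
      rw [e']
      exact CObs_z5 _

theorem exists_obs : ∃ o : (ι → Set E → ZMod 2) →+ (Finset ι → ZMod 2), ∀ S,
    ∀ J ∈ G.R.powersetCard (c.d - G.F.card - 1), o S J = 0 →
      ∃ χ, G.Fil J (G.cj S (fun _ _ => 0) J) χ := by
  have h : ∀ J : Finset ι, ∃ o : (ι → Set E → ZMod 2) →+ ZMod 2,
      J ∈ G.R.powersetCard (c.d - G.F.card - 1) → ∀ S, o S = 0 →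
        ∃ χ, G.Fil J (G.cj S (fun _ _ => 0) J) χ := by
    intro J
    by_cases hJ : J ∈ G.R.powersetCard (c.d - G.F.card - 1)
    · obtain ⟨h1, h2⟩ := Finset.mem_powersetCard.1 hJ
      obtain ⟨o, ho⟩ := G.CObs_one h1 h2
      exact ⟨o, fun _ => ho⟩
    · exact ⟨0, fun h => (hJ h).elim⟩
  choose o ho using h
  exact ⟨AddMonoidHom.mk' (fun S J => o J S) fun S S' => funext fun J => map_add (o J) S S',
    fun S J hJ h0 => ho J hJ S h0⟩

end Cfg

end Ctx

end SC
end

-- part: CBuild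
section
/-!
# The downward construction

Write `D = c.d - F.card ≥ 3`, `T = H \ J`, `val χ x = χ (chm T (sv H x))`.

`build`: downward induction on the size.  For `|J| + 2 ≤ D` the jumps `cj S Dd J` are even: a facet
of `J` at `h ∈ R` is a chamber of `insert h J`, a ridge `(h, h')` of `J` is a facet of `insert h J`
at `h'`.  Cases `R, R` (both sums are `Dd (insert h (insert h' J)) σ`), `R, B` (`Y_insert`), `B, B`
(`Y_BB`).  `Sys.fill`, `val_const`, `top2` (if `F ∪ J = ∅` then `PF = univ` and there is nothing to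
show).  Define the new family by `if J.card = k then (chosen) else Dd J`; the statement for `J` only
uses the values at `J` and at sets with one more element.
-/

open Set Filter Topology SA Function

namespace SC

variable {E ι μ : Type} [NormedAddCommGroup E] [NormedSpace ℝ E] [FiniteDimensional ℝ E]
  [Fintype ι] [DecidableEq ι] [Fintype μ] [DecidableEq μ]

namespace Ctx

namespace Cfg

variable {c : Ctx E ι μ} (G : c.Cfg)

omit [FiniteDimensional ℝ E] [Fintype ι] [Fintype μ] [DecidableEq μ] in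
theorem CBuild_congr (S : ι → Set E → ZMod 2) {D D' : Finset ι → (ι → SignType) → ZMod 2}
    {J : Finset ι} {χ : (ι → SignType) → ZMod 2} (hD : ∀ h ∉ J, D (insert h J) = D' (insert h J))
    (h : G.Fil J (G.cj S D J) χ) : G.Fil J (G.cj S D' J) χ := by
  refine ⟨fun i σ hσ hf => ?_, h.2⟩
  rw [h.1 i σ hσ hf]
  unfold cj
  rw [hD i (Finset.mem_sdiff.1 hf.1).2]

omit [FiniteDimensional ℝ E] [Fintype ι] [Fintype μ] [DecidableEq μ] in
theorem CBuild_lam {J : Finset ι} {y : E} {h : ι} (hy : y ∈ c.Lam (G.F ∪ J)) (hh : h ∈ G.H)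
    (h0 : c.sv G.H y h = 0) : y ∈ c.Lam (G.F ∪ insert h J) := by
  intro i hi
  rw [Finset.union_insert, Finset.mem_insert] at hi
  rcases hi with rfl | hi
  · exact (sv_eq_zero hh).1 h0
  · exact hy i hi

omit [Fintype ι] [DecidableEq ι] in
theorem CBuild_symm {T : Finset ι} {h h' : ι} {σ : ι → SignType} (r : Rid T h h' σ) :
    Rid T h' h σ :=
  ⟨r.2.1, r.1, r.2.2.1.symm, r.2.2.2.2.1, r.2.2.2.1, fun i hi a b => r.2.2.2.2.2 i hi b a⟩

omit [FiniteDimensional ℝ E] [Fintype ι] [Fintype μ] [DecidableEq μ] in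
/-- A ridge of `J` is a facet of `insert h J`. -/
theorem CBuild_rid (S : ι → Set E → ZMod 2) {D : Finset ι → (ι → SignType) → ZMod 2}
    {J : Finset ι} {h h' : ι} {σ : ι → SignType} (hσ : σ ∈ c.Rz G.F G.H J univ)
    (r : Rid (G.H \ J) h h' σ) (hB : h ∉ G.B)
    (hF : G.Fil (insert h J) (G.cj S D (insert h J)) (D (insert h J))) :
    G.cj S D J h (update σ h' 1) + G.cj S D J h (update σ h' (-1)) = G.cj S D (insert h J) h' σ := by
  obtain ⟨y, -, hy, rfl⟩ := hσ
  have h1 := Finset.mem_sdiff.1 r.1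
  have h2 := Finset.mem_sdiff.1 r.2.1
  have e : ∀ τ, G.cj S D J h τ = D (insert h J) τ := fun τ => if_neg hB
  rw [e, e]
  refine hF.1 h' _ ⟨y, mem_univ _, G.CBuild_lam hy h1.1 r.2.2.2.1, rfl⟩ ⟨?_, r.2.2.2.2.1, ?_⟩
  · rw [Finset.mem_sdiff, Finset.mem_insert, not_or]
    exact ⟨h2.1, r.2.2.1.symm, h2.2⟩
  · intro i hi hne
    rw [Finset.mem_sdiff, Finset.mem_insert, not_or] at hi
    exact r.2.2.2.2.2 i (Finset.mem_sdiff.2 ⟨hi.1, hi.2.2⟩) hi.2.1 hne

theorem CBuild_evn (S : ι → Set E → ZMod 2) {D : Finset ι → (ι → SignType) → ZMod 2}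
    {J : Finset ι} (hJ : J ⊆ G.R)
    (hF : ∀ h ∈ G.R, h ∉ J → G.Fil (insert h J) (G.cj S D (insert h J)) (D (insert h J))) :
    Evn (c.Rz G.F G.H J univ) (G.H \ J) (G.cj S D J) := by
  have hR : ∀ h ∈ G.H \ J, h ∉ G.B → G.Fil (insert h J) (G.cj S D (insert h J)) (D (insert h J)) := by
    intro h hh hB
    have h1 := Finset.mem_sdiff.1 hh
    exact hF h ((Finset.mem_union.1 h1.1).resolve_right hB) h1.2
  have mixed : ∀ h h', ∀ σ ∈ c.Rz G.F G.H J univ, Rid (G.H \ J) h h' σ → h ∉ G.B → h' ∈ G.B →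
      G.cj S D J h (update σ h' 1) + G.cj S D J h (update σ h' (-1)) =
        G.cj S D J h' (update σ h 1) + G.cj S D J h' (update σ h (-1)) := by
    intro h h' σ hσ r hB hB'
    rw [G.CBuild_rid S hσ r hB (hR h r.1 hB)]
    unfold cj
    rw [if_pos hB', if_pos hB', if_pos hB', G.Y_insert S (Finset.mem_sdiff.1 r.1).2]
  intro h h' σ hσ r
  by_cases hB : h ∈ G.B
  · by_cases hB' : h' ∈ G.B
    · obtain ⟨y, -, hy, rfl⟩ := hσ
      unfold cj
      rw [if_pos hB, if_pos hB, if_pos hB', if_pos hB', G.Y_BB S hJ hB hB' hy r,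
        G.Y_BB S hJ hB' hB hy (CBuild_symm r), add_zero]
    · rw [mixed h' h σ hσ (CBuild_symm r) hB' hB]
      exact CharTwo.add_self_eq_zero _
  · by_cases hB' : h' ∈ G.B
    · rw [mixed h h' σ hσ r hB hB']
      exact CharTwo.add_self_eq_zero _
    · rw [G.CBuild_rid S hσ r hB (hR h r.1 hB),
        G.CBuild_rid S hσ (CBuild_symm r) hB' (hR h' r.2.1 hB')]
      unfold cj
      rw [if_neg hB, if_neg hB', Finset.insert_comm]
      exact CharTwo.add_self_eq_zero _

theorem CBuild_step (S : ι → Set E → ZMod 2) {D : Finset ι → (ι → SignType) → ZMod 2}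
    {J : Finset ι} (hJ : J ⊆ G.R) (hc : G.F.card + J.card + 2 ≤ c.d)
    (hF : ∀ h ∈ G.R, h ∉ J → G.Fil (insert h J) (G.cj S D (insert h J)) (D (insert h J))) :
    ∃ χ, G.Fil J (G.cj S D J) χ := by
  have hJH : J ⊆ G.H := hJ.trans Finset.subset_union_left
  obtain ⟨χ, hχ⟩ := (sys G.dFH hJH isOpen_univ convex_univ).fill (G.CBuild_evn S hJ hF)
  rcases (c.Lam (G.F ∪ J) \ c.PF (G.F ∪ J)).eq_empty_or_nonempty with he | ⟨z, hz⟩
  · refine ⟨χ, hχ, fun x hx hx' _ => ?_⟩
    have : x ∈ c.Lam (G.F ∪ J) \ c.PF (G.F ∪ J) := ⟨hx, hx'⟩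
    rw [he] at this
    exact this.elim
  have hne : (G.F ∪ J).Nonempty := by
    rw [Finset.nonempty_iff_ne_empty]
    intro he
    refine hz.2 fun i hi => ?_
    rw [he] at hi
    exact absurd hi (Finset.notMem_empty i)
  have hcard : (G.F ∪ J).card + 2 ≤ c.d :=
    (Nat.add_le_add_right (Finset.card_union_le _ _) 2).trans hc
  have hconn : IsPreconnected (c.Lam (G.F ∪ J) \ c.PF (G.F ∪ J)) :=
    top2 hcard (convex_PF _) (bounded_PF hne)
  have h0 : ∀ x ∈ c.Lam (G.F ∪ J) \ c.PF (G.F ∪ J), ∀ᶠ y in 𝓝 x, y ∈ c.Lam (G.F ∪ J) →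
      ∀ i, Fac (G.H \ J) i (c.sv G.H y) → G.cj S D J i (c.sv G.H y) = 0 := by
    intro x hx
    filter_upwards [(isClosed_PF (c := c) (G.F ∪ J)).isOpen_compl.mem_nhds hx.2] with y hy hl i hf
    have h1 := Finset.mem_sdiff.1 hf.1
    unfold cj
    by_cases hB : i ∈ G.B
    · rw [if_pos hB]
      exact G.Y_supp S hJ hB hl hf fun hp => hy (PF_mono (Finset.subset_insert _ _) hp)
    · rw [if_neg hB]
      refine (hF i ((Finset.mem_union.1 h1.1).resolve_right hB) h1.2).2 y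
        (G.CBuild_lam hl h1.1 hf.2.1) (fun hp => hy (PF_mono ?_ hp)) fun j hj => ?_
      · exact Finset.union_subset_union_right (Finset.subset_insert _ _)
      · rw [Finset.mem_sdiff, Finset.mem_insert, not_or] at hj
        exact hf.2.2 j (Finset.mem_sdiff.2 ⟨hj.1, hj.2.2⟩) hj.2.1
  refine ⟨fun σ => χ σ + χ (chm (G.H \ J) (c.sv G.H z)), fun i σ hσ hf => ?_, fun x hx hx' hch => ?_⟩
  · rw [← hχ i σ hσ hf, add_add_add_comm, CharTwo.add_self_eq_zero, add_zero]
  · have e := val_const G.dFH hJH hχ hconn sdiff_subset h0 ⟨hx, hx'⟩ hz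
    rw [chm_eq hch] at e
    show χ _ + χ _ = 0
    rw [e]
    exact CharTwo.add_self_eq_zero _

theorem build (S : ι → Set E → ZMod 2)
    (h : ∀ J ∈ G.R.powersetCard (c.d - G.F.card - 1), ∃ χ, G.Fil J (G.cj S (fun _ _ => 0) J) χ) :
    ∃ Dd : Finset ι → (ι → SignType) → ZMod 2,
      ∀ J ⊆ G.R, J.card < c.d - G.F.card → G.Fil J (G.cj S Dd J) (Dd J) := by
  have hd := G.card
  have key : ∀ m : ℕ, ∃ Dd : Finset ι → (ι → SignType) → ZMod 2,
      ∀ J ⊆ G.R, c.d ≤ G.F.card + J.card + 1 + m → G.F.card + J.card < c.d →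
        G.Fil J (G.cj S Dd J) (Dd J) := by
    intro m
    induction m with
    | zero =>
      have h' : ∀ J : Finset ι, ∃ χ, J ⊆ G.R → G.F.card + J.card + 1 = c.d →
          G.Fil J (G.cj S (fun _ _ => 0) J) χ := by
        intro J
        by_cases hJ : J ⊆ G.R ∧ G.F.card + J.card + 1 = c.d
        · obtain ⟨χ, hχ⟩ := h J (Finset.mem_powersetCard.2 ⟨hJ.1, by omega⟩)
          exact ⟨χ, fun _ _ => hχ⟩
        · exact ⟨fun _ => 0, fun a b => absurd ⟨a, b⟩ hJ⟩
      choose χ hχ using h'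
      refine ⟨fun J => if G.F.card + J.card + 1 = c.d then χ J else fun _ => 0, ?_⟩
      intro J hJ h1 h2
      have e : G.F.card + J.card + 1 = c.d := by omega
      simp only [if_pos e]
      refine G.CBuild_congr S (fun i hi => ?_) (hχ J hJ e)
      rw [if_neg]
      rw [Finset.card_insert_of_notMem hi]
      omega
    | succ m ih =>
      obtain ⟨D, hD⟩ := ih
      have h' : ∀ J : Finset ι, ∃ χ, J ⊆ G.R → G.F.card + J.card + 2 + m = c.d →
          G.Fil J (G.cj S D J) χ := by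
        intro J
        by_cases hJ : J ⊆ G.R ∧ G.F.card + J.card + 2 + m = c.d
        · obtain ⟨χ, hχ⟩ := G.CBuild_step S (D := D) hJ.1 (by omega) fun i hi hiJ =>
            hD _ (Finset.insert_subset hi hJ.1)
              (by rw [Finset.card_insert_of_notMem hiJ]; omega)
              (by rw [Finset.card_insert_of_notMem hiJ]; omega)
          exact ⟨χ, fun _ _ => hχ⟩
        · exact ⟨fun _ => 0, fun a b => absurd ⟨a, b⟩ hJ⟩
      choose χ hχ using h'
      refine ⟨fun J => if G.F.card + J.card + 2 + m = c.d then χ J else D J, ?_⟩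
      intro J hJ h1 h2
      have hi : ∀ i ∉ J, D (insert i J) =
          if G.F.card + (insert i J).card + 2 + m = c.d then χ (insert i J) else D (insert i J) := by
        intro i hi
        rw [if_neg]
        rw [Finset.card_insert_of_notMem hi]
        omega
      by_cases e : G.F.card + J.card + 2 + m = c.d
      · simp only [if_pos e]
        exact G.CBuild_congr S hi (hχ J hJ e)
      · simp only [if_neg e]
        exact G.CBuild_congr S hi (hD J hJ (by omega) h2)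
  obtain ⟨D, hD⟩ := key c.d
  exact ⟨D, fun J hJ hc => hD J hJ (by omega) (by omega)⟩

end Cfg

end Ctx

end SC
end

-- part: CD
section
/-!
# The labelling of the cells

Write `D = c.d - F.card ≥ 3`, `T = H \ J`, `val χ x = χ (chm T (sv H x))`.

`exists_f`: `f = val (Dd ∅)`.  Near a point of `XF F H` all facet points are off the closed
obstacles, so the jumps vanish (`Y_supp`, second part of `Fil {h}`).  For `x ∈ Lam F \ PF F` realize
`chm H (sv H x)` near `x` (`lift`).  For an edge use the jump at `b`, `Y_empty`, `Y0_edge`, `chm_eq`.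
`exists_edgePt`: take `x` from `gen_pop` with `H.erase b`; `lift` and `pop_near` give `x₁`, `x₂`.
-/

open Set Filter Topology SA Function

namespace SC

variable {E ι μ : Type} [NormedAddCommGroup E] [NormedSpace ℝ E] [FiniteDimensional ℝ E]
  [Fintype ι] [DecidableEq ι] [Fintype μ] [DecidableEq μ]

namespace Ctx

namespace Cfg

variable {c : Ctx E ι μ} (G : c.Cfg)

/-- Two popular points on the two sides of the cell `κ`. -/
def EdgePt (b : ι) (κ : Set E) (x₁ x₂ : E) : Prop :=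
  x₁ ∈ c.Pop G.R₀ G.F ∧ x₂ ∈ c.Pop G.R₀ G.F ∧ ∃ x ∈ κ, Fac G.H b (c.sv G.H x) ∧
    c.sv G.H x₁ = update (c.sv G.H x) b 1 ∧ c.sv G.H x₂ = update (c.sv G.H x) b (-1)

omit [FiniteDimensional ℝ E] [Fintype ι] [Fintype μ] [DecidableEq μ] in
theorem CD_memB {b : ι} (hb : b ∈ G.B) : b ∈ G.H := Finset.mem_union_right _ hb

omit [FiniteDimensional ℝ E] [Fintype ι] [Fintype μ] [DecidableEq μ] in
theorem CD_disj {b : ι} (hb : b ∈ G.B) : Disjoint (insert b G.F) G.R :=
  Finset.disjoint_insert_left.2 ⟨Finset.disjoint_right.1 G.dRB hb, G.dFR⟩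

theorem CD_side {b : ι} (hb : b ∈ G.B) {x : E} (hx : x ∈ c.Pop G.R₀ (insert b G.F))
    {s : SignType} (hs : s ≠ 0) :
    ∃ y ∈ c.Pop G.R₀ G.F, c.sv G.H y = update (c.sv G.H x) b s := by
  have hbH := G.CD_memB hb
  have hL : x ∈ c.Lam (insert b G.F) := (pop_sub G.hR (G.CD_disj hb) hx).1
  have h0 : c.sv G.H x b = 0 := (sv_eq_zero hbH).2 (hL b (Finset.mem_insert_self _ _))
  have h1 := lift (τ := update (c.sv G.H x) b s) G.dFH
    (Lam_mono (Finset.subset_insert b G.F) hL)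
    (fun i hi => update_of_ne (fun e => hi (by rw [e]; exact h0)) _ _)
    (fun i hi => by
      rw [update_of_ne (fun e => hi (by rw [e]; exact hbH))]
      exact sv_of_notMem hi x)
  obtain ⟨y, ⟨hy, hy'⟩, hy''⟩ :=
    (h1.and_eventually (pop_near hx (Finset.subset_insert b G.F))).exists
  refine ⟨y, hy'' hy fun i hi hi' e => ?_, hy'⟩
  have hib : i = b := (Finset.mem_insert.1 hi).resolve_right hi'
  subst hib
  have := (sv_eq_zero (c := c) (x := y) hbH).2 e
  rw [hy', update_self] at this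
  exact hs this

theorem exists_edgePt {b : ι} (hb : b ∈ G.B) {κ : Set E} (hκ : κ ∈ G.Kf b) :
    ∃ x₁ x₂, G.EdgePt b κ x₁ x₂ := by
  have hbH := G.CD_memB hb
  have hd : Disjoint (insert b G.F) (G.H.erase b) :=
    Finset.disjoint_insert_left.2 ⟨Finset.notMem_erase _ _,
      G.dFH.mono_right (Finset.erase_subset _ _)⟩
  obtain ⟨x, hx, rfl, hx'⟩ := gen_pop G.hR (G.CD_disj hb) hd ((G.hK b hb κ).1 hκ)
  have hX := pop_sub G.hR (G.CD_disj hb) hx
  obtain ⟨x₁, p₁, e₁⟩ := G.CD_side hb hx (s := 1) (by decide)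
  obtain ⟨x₂, p₂, e₂⟩ := G.CD_side hb hx (s := -1) (by decide)
  refine ⟨x₁, x₂, p₁, p₂, x, mem_connectedComponentIn hX, ⟨hbH, ?_, fun i hi hne e => ?_⟩, e₁, e₂⟩
  · exact (sv_eq_zero hbH).2 (hX.1 b (Finset.mem_insert_self _ _))
  · exact hx' i (Finset.mem_erase.2 ⟨hne, hi⟩) ((sv_eq_zero hi).1 e)

omit [Fintype ι] [Fintype μ] [DecidableEq μ] in
theorem CD_off {z : E} (hz : z ∈ c.XF G.F G.H) :
    ∀ᶠ y in 𝓝 z, ∀ a ∈ G.H, ¬ (y ∈ patch c.g a ∧ y ∈ c.PF G.F) := by
  rw [Filter.eventually_all_finset]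
  intro a ha
  exact ((isClosed_patch c.g a).inter (isClosed_PF G.F)).isOpen_compl.mem_nhds (hz.2 a ha)

theorem CD_jump0 (S : ι → Set E → ZMod 2) {Dd : Finset ι → (ι → SignType) → ZMod 2}
    (h : ∀ J ⊆ G.R, J.card < c.d - G.F.card → G.Fil J (G.cj S Dd J) (Dd J)) {y : E}
    (hy : ∀ a ∈ G.H, ¬ (y ∈ patch c.g a ∧ y ∈ c.PF G.F)) (hL : y ∈ c.Lam (G.F ∪ ∅)) {i : ι}
    (hi : Fac (G.H \ ∅) i (c.sv G.H y)) : G.cj S Dd ∅ i (c.sv G.H y) = 0 := by
  have hiH : i ∈ G.H := (Finset.mem_sdiff.1 hi.1).1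
  unfold cj
  split_ifs with hB
  · refine G.Y_supp S (Finset.empty_subset _) hB hL hi fun hP => hy i hiH ⟨?_, ?_⟩
    · exact hP i (Finset.mem_insert_self _ _)
    · exact PF_mono (Finset.subset_union_left.trans (Finset.subset_insert _ _)) hP
  · have hR : i ∈ G.R := (Finset.mem_union.1 hiH).resolve_right hB
    have hc := G.card
    refine (h (insert i ∅) (by simpa using hR) (by simp; omega)).2 y (fun j hj => ?_)
      (fun hP => hy i hiH ⟨?_, ?_⟩) (fun j hj => ?_)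
    · rcases Finset.mem_union.1 hj with hj | hj
      · exact hL j (Finset.mem_union_left _ hj)
      · have : j = i := by simpa using hj
        rw [this]
        exact (sv_eq_zero hiH).1 hi.2.1
    · exact hP i (Finset.mem_union_right _ (Finset.mem_insert_self _ _))
    · exact PF_mono Finset.subset_union_left hP
    · have hj' := Finset.mem_sdiff.1 hj
      exact hi.2.2 j (Finset.mem_sdiff.2 ⟨hj'.1, Finset.notMem_empty _⟩) (by simpa using hj'.2)

theorem exists_f (S : ι → Set E → ZMod 2) {Dd : Finset ι → (ι → SignType) → ZMod 2}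
    (h : ∀ J ⊆ G.R, J.card < c.d - G.F.card → G.Fil J (G.cj S Dd J) (Dd J)) :
    ∃ f : E → ZMod 2, (∀ x, ∀ x' ∈ cc (c.XF G.F G.H) x, f x' = f x) ∧
      (∀ x ∈ c.Lam G.F \ c.PF G.F, f x = 0) ∧
      ∀ b ∈ G.B, ∀ κ ∈ G.Kf b, ∀ x₁ x₂, G.EdgePt b κ x₁ x₂ → S b κ = f x₁ + f x₂ := by
  have hc := G.card
  obtain ⟨hJ, hV⟩ := h ∅ (Finset.empty_subset _) (by simp; omega)
  have hU : G.F ∪ ∅ ⊆ G.F := by simp
  refine ⟨fun x => Dd ∅ (chm (G.H \ ∅) (c.sv G.H x)), fun x x' hx' => ?_, fun x hx => ?_,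
    fun b hb κ hκ x₁ x₂ he => ?_⟩
  · have hx : x ∈ c.XF G.F G.H := connectedComponentIn_nonempty_iff.1 ⟨x', hx'⟩
    refine val_const G.dFH (Finset.empty_subset _) hJ isPreconnected_connectedComponentIn
      (fun z hz => Lam_mono hU (connectedComponentIn_subset _ _ hz).1) (fun z hz => ?_) hx'
      (mem_connectedComponentIn hx)
    filter_upwards [G.CD_off (connectedComponentIn_subset _ _ hz)] with y hy hL i hi
    exact G.CD_jump0 S h hy hL hi
  · have h1 := lift (τ := chm (G.H \ ∅) (c.sv G.H x)) G.dFH hx.1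
      (fun i hi => if_neg fun e => hi e.2)
      (fun i hi => (if_neg fun e => hi (Finset.mem_sdiff.1 e.1).1).trans (sv_of_notMem hi x))
    obtain ⟨y, ⟨hy, hy'⟩, hy''⟩ :=
      (h1.and_eventually ((isClosed_PF G.F).isOpen_compl.mem_nhds hx.2)).exists
    have := hV y (Lam_mono hU hy) (fun hP => hy'' (PF_mono Finset.subset_union_left hP))
      (by rw [hy']; exact cham_chm _ _)
    rw [hy'] at this
    exact this
  · obtain ⟨-, -, x, hx, hf, e₁, e₂⟩ := he
    have hch : ∀ s : SignType, s ≠ 0 → Cham (G.H \ ∅) (update (c.sv G.H x) b s) := by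
      intro s hs i hi
      by_cases hib : i = b
      · rw [hib, update_self]; exact hs
      · rw [update_of_ne hib]; exact hf.2.2 i (Finset.mem_sdiff.1 hi).1 hib
    obtain ⟨-, x₀, -, hκ'⟩ := (G.hK b hb κ).1 hκ
    have hL : x ∈ c.Lam (insert b G.F) := by
      rw [hκ'] at hx
      exact (connectedComponentIn_subset _ _ hx).1
    have h1 := hJ b (c.sv G.H x)
      ⟨x, mem_univ _, Lam_mono (hU.trans (Finset.subset_insert _ _)) hL, rfl⟩
      (by rw [Finset.sdiff_empty]; exact hf)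
    have h2 : G.Y0 S b (c.sv G.H x) = S b κ := G.Y0_edge S hb hκ hx fun a ha e => by
      have haH : a ∈ G.H := Finset.mem_union_left _ ha
      exact hf.2.2 a haH (fun e' => Finset.disjoint_left.1 G.dRB ha (by rw [e']; exact hb))
        ((sv_eq_zero haH).2 e)
    show S b κ = Dd ∅ (chm (G.H \ ∅) (c.sv G.H x₁)) + Dd ∅ (chm (G.H \ ∅) (c.sv G.H x₂))
    rw [e₁, e₂, chm_eq (hch 1 (by decide)), chm_eq (hch (-1) (by decide)), h1, cj, if_pos hb,
      G.Y_empty, h2]

end Cfg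

end Ctx

end SC
end

-- part: CMain
section
/-!
# The topological lemma

`topo`: build `G : Cfg` with `Kf b = (finite_Cells ..).toFinset` for `b ∈ B`.  Apply `count_ker` with
`α` = the pairs `(b, κ)` (`B.sigma Kf`), `β` = `R.powersetCard (D - 1)`, `o` = extension by zero,
then `exists_obs`, then restriction.  For `S` in the kernel `build` and `exists_f` give `f`; fix the
points of `exists_edgePt` once, independently of `S`.  If `F ≠ ∅`, `γ` = the cells in
`Cells R₀ F (R ∪ B)` and `ψ S κ` = the value of `f` at a fixed point of `κ`; a popular point lies in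
such a cell or in an unbounded component, where `f = 0` (`unb`, `pop_sub`).  If `F = ∅`, `γ` is
empty: popular points lie in `c.C R₀` (`Good` at the point itself, `Orth 0 = univ`), a preconnected
subset of `XF ∅ (R ∪ B)`, so `f x₁ = f x₂` and `S = 0`.
-/

open Set Filter Topology SA

namespace SC

variable {E ι μ : Type} [NormedAddCommGroup E] [NormedSpace ℝ E] [FiniteDimensional ℝ E]
  [Fintype ι] [DecidableEq ι] [Fintype μ] [DecidableEq μ]

namespace Ctx

variable (c : Ctx E ι μ)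

omit [FiniteDimensional ℝ E] [Fintype ι] [DecidableEq ι] [Fintype μ] [DecidableEq μ] in
theorem CMain_empty {R₀ H : Finset ι} (hH : H ⊆ R₀) {x x' : E} (hx : x ∈ c.Pop R₀ ∅)
    (hx' : x' ∈ c.Pop R₀ ∅) : x' ∈ cc (c.XF ∅ H) x := by
  have key : ∀ y ∈ c.Pop R₀ ∅, y ∈ c.C R₀ := fun y hy =>
    hy.2.self_of_nhds (fun i hi => absurd rfl hi)
      fun i hi => hy.1.2.2 i hi (Finset.notMem_empty i)
  have hs : c.C R₀ ⊆ c.XF ∅ H := fun y hy =>
    ⟨fun i hi => absurd hi (Finset.notMem_empty i),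
      fun a ha h => connectedComponentIn_subset _ _ hy a (hH ha) h.1⟩
  exact (isPreconnected_connectedComponentIn (F := c.U R₀) (x := c.p)).subset_connectedComponentIn
    (key x hx) hs (key x' hx')

theorem CMain_cfg (G : c.Cfg) : ∑ b ∈ G.B, (G.Kf b).card ≤
    G.R.card.choose (c.d - G.F.card - 1) + c.NB G.R₀ G.F G.H := by
  classical
  have hH : G.H ⊆ G.R₀ := Finset.union_subset G.hR G.hB
  obtain ⟨o, ho⟩ := G.exists_obs
  let A : Finset (Σ _ : ι, Set E) := G.B.sigma G.Kf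
  let ex : (A → ZMod 2) →+ (ι → Set E → ZMod 2) :=
    { toFun := fun S b κ => if h : (⟨b, κ⟩ : Σ _ : ι, Set E) ∈ A then S ⟨_, h⟩ else 0
      map_zero' := by
        funext b κ
        simp
      map_add' := fun S S' => by
        funext b κ
        by_cases h : (⟨b, κ⟩ : Σ _ : ι, Set E) ∈ A <;> simp [h] }
  have hex : ∀ (S : A → ZMod 2) (a : A), ex S a.1.1 a.1.2 = S a := fun S a => dif_pos a.2
  let P : Finset (Finset ι) := G.R.powersetCard (c.d - G.F.card - 1)
  let o' : (A → ZMod 2) →+ (P → ZMod 2) :=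
    { toFun := fun S J => o (ex S) J.1
      map_zero' := by
        funext J
        simp
      map_add' := fun S S' => by
        funext J
        simp }
  have hf : ∀ S : A → ZMod 2, ∃ f : E → ZMod 2, o' S = 0 →
      (∀ x, ∀ x' ∈ cc (c.XF G.F G.H) x, f x' = f x) ∧ (∀ x ∈ c.Lam G.F \ c.PF G.F, f x = 0) ∧
      ∀ b ∈ G.B, ∀ κ ∈ G.Kf b, ∀ x₁ x₂, G.EdgePt b κ x₁ x₂ → ex S b κ = f x₁ + f x₂ := by
    intro S
    by_cases h : o' S = 0
    · obtain ⟨Dd, hD⟩ := G.build (ex S) fun J hJ => ho (ex S) J hJ (congrFun h ⟨J, hJ⟩)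
      obtain ⟨f, hf⟩ := G.exists_f (ex S) hD
      exact ⟨f, fun _ => hf⟩
    · exact ⟨0, fun h' => absurd h' h⟩
  choose f hf using hf
  have hfin := finite_Cells (c := c) hH G.dFH
  let Γ : Finset (Set E) := if G.F = ∅ then ∅ else hfin.toFinset
  have hΓ : Γ.card = c.NB G.R₀ G.F G.H := by
    by_cases h : G.F = ∅
    · simp [Γ, NB, h]
    · simp only [Γ, NB, if_neg h]
      exact (Set.ncard_eq_toFinset_card _ hfin).symm
  have hpt : ∀ κ : Γ, ∃ x, x ∈ κ.1 := by
    rintro ⟨κ, hκ⟩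
    by_cases h : G.F = ∅
    · simp [Γ, h] at hκ
    · simp only [Γ, if_neg h, Set.Finite.mem_toFinset] at hκ
      obtain ⟨-, x, hx, rfl⟩ := hκ
      exact ⟨x, mem_connectedComponentIn (pop_sub hH G.dFH hx)⟩
  choose pt hpt using hpt
  have key := count_ker o' (fun S (κ : Γ) => f S (pt κ)) ?_
  · rw [Fintype.card_coe, Fintype.card_coe, Fintype.card_coe, hΓ, Finset.card_powersetCard,
      Finset.card_sigma] at key
    exact key
  intro S S' hS hS' hψ
  obtain ⟨a1, a2, a3⟩ := hf S hS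
  obtain ⟨b1, b2, b3⟩ := hf S' hS'
  funext a
  obtain ⟨hb, hκ⟩ := Finset.mem_sigma.1 a.2
  obtain ⟨x₁, x₂, he⟩ := G.exists_edgePt hb hκ
  rw [← hex S a, ← hex S' a, a3 _ hb _ hκ _ _ he, b3 _ hb _ hκ _ _ he]
  by_cases h : G.F = ∅
  · have h12 : x₂ ∈ cc (c.XF G.F G.H) x₁ := by
      have h1 := he.1
      have h2 := he.2.1
      rw [h] at h1 h2 ⊢
      exact c.CMain_empty hH h1 h2
    rw [a1 _ _ h12, b1 _ _ h12, CharTwo.add_self_eq_zero, CharTwo.add_self_eq_zero]
  · have hx : ∀ x ∈ c.Pop G.R₀ G.F, f S x = f S' x := by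
      intro x hx
      by_cases hb : Bornology.IsBounded (cc (c.XF G.F G.H) x)
      · have hm : cc (c.XF G.F G.H) x ∈ Γ := by
          simp only [Γ, if_neg h, Set.Finite.mem_toFinset]
          exact ⟨hb, x, hx, rfl⟩
        have h1 := hpt ⟨_, hm⟩
        rw [← a1 _ _ h1, ← b1 _ _ h1]
        exact congrFun hψ ⟨_, hm⟩
      · obtain ⟨y, hy, hy'⟩ := unb (Finset.nonempty_iff_ne_empty.2 h) hb
        rw [← a1 _ _ hy, ← b1 _ _ hy, a2 y hy', b2 y hy']
    rw [hx _ he.1, hx _ he.2.1]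

theorem topo {R₀ F R B : Finset ι} (hF : F ⊆ R₀) (hR : R ⊆ R₀) (hB : B ⊆ R₀) (dFR : Disjoint F R)
    (dFB : Disjoint F B) (dRB : Disjoint R B) (hc : F.card + 3 ≤ c.d) :
    ∑ b ∈ B, c.NB R₀ (insert b F) R ≤ R.card.choose (c.d - F.card - 1) + c.NB R₀ F (R ∪ B) := by
  classical
  have hd : ∀ b ∈ B, Disjoint (insert b F) R := fun b hb =>
    Finset.disjoint_insert_left.2 ⟨Finset.disjoint_right.1 dRB hb, dFR⟩
  let Kf : ι → Finset (Set E) := fun b =>
    if hb : b ∈ B then (finite_Cells (c := c) hR (hd b hb)).toFinset else ∅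
  have hK : ∀ b ∈ B, ∀ κ, κ ∈ Kf b ↔ κ ∈ c.Cells R₀ (insert b F) R := fun b hb κ => by
    simp only [Kf, dif_pos hb, Set.Finite.mem_toFinset]
  have h := c.CMain_cfg ⟨R₀, F, R, B, Kf, hF, hR, hB, dFR, dFB, dRB, hc, hK⟩
  refine le_of_eq_of_le (Finset.sum_congr rfl fun b hb => ?_) h
  simp only [Kf, dif_pos hb, NB, if_neg (Finset.insert_ne_empty b F)]
  exact Set.ncard_eq_toFinset_card _ _

end Ctx

end SC
end

-- part: CNu
section
/-!
# The recurrence

`nu_step`: for `F` of size `j` let `A = R₀ \ F`, `q = p + r`, `s = p / q`.  Apply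
`Ex A q (fun U => Ex U s (fun R => ·))` to `topo` with `B = U \ R` (`R ∪ B = U`).  Left side:
`Ex_sum_notMem`, `Ex_sum_mem`, `Ex_Ex` give `r * ∑ b ∈ A, Ex (A.erase b) p (NB (insert b F))`
(`q (1 - s) = r`, `(insert b U).erase b = U`).  Right side: `Ex_Ex`, `Ex_choose`, `Ex_const`.
Sum over `F`: every set of size `j + 1` is `insert b F`; there are at most `n ^ j` sets `F`;
`choose ≤ pow`.
-/

open Set Filter Topology SA

namespace SC

variable {E ι μ : Type} [NormedAddCommGroup E] [NormedSpace ℝ E] [FiniteDimensional ℝ E]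
  [Fintype ι] [DecidableEq ι] [Fintype μ] [DecidableEq μ]

namespace Ctx

variable (c : Ctx E ι μ)

/-- The expected number of popular bounded cells in all flats of codimension `j`. -/
noncomputable def nu (R₀ : Finset ι) (j : ℕ) (p : ℝ) : ℝ :=
  ∑ F ∈ R₀.powersetCard j, Ex (R₀ \ F) p fun R => (c.NB R₀ F R : ℝ)

theorem nu_zero (R₀ : Finset ι) (p : ℝ) : c.nu R₀ 0 p = 0 := by
  simp [nu, NB, Ex_const]

theorem CNu_one {R₀ F : Finset ι} (hF : F ⊆ R₀) (hj : F.card + 3 ≤ c.d) {p r : ℝ} (hp : 0 < p)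
    (hr : 0 < r) (h : p + r ≤ 1) :
    r * ∑ b ∈ R₀ \ F, Ex (R₀ \ insert b F) p (fun R => (c.NB R₀ (insert b F) R : ℝ)) ≤
      (R₀.card : ℝ) ^ (c.d - F.card - 1) * p ^ (c.d - F.card - 1) +
        Ex (R₀ \ F) (p + r) fun R => (c.NB R₀ F R : ℝ) := by
  set A := R₀ \ F with hA
  set e := c.d - F.card - 1 with he
  have hq : 0 < p + r := add_pos hp hr
  set s := p / (p + r) with hs
  have s0 : 0 ≤ s := by positivity
  have s1 : s ≤ 1 := (div_le_one hq).2 (by linarith)
  have qs : (p + r) * s = p := by rw [hs]; field_simp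
  have key : Ex A (p + r) (fun U => Ex U s fun R => ∑ b ∈ U \ R, (c.NB R₀ (insert b F) R : ℝ)) ≤
      Ex A (p + r) fun U => Ex U s fun R => (R.card.choose e : ℝ) + c.NB R₀ F U := by
    refine Ex_mono hq.le h fun U hU => Ex_mono s0 s1 fun R hR => ?_
    have d1 : Disjoint F U := Finset.disjoint_of_subset_right hU Finset.disjoint_sdiff
    have u1 : U ⊆ R₀ := hU.trans Finset.sdiff_subset
    have := c.topo hF (hR.trans u1) (Finset.sdiff_subset.trans u1 : U \ R ⊆ R₀)
      (Finset.disjoint_of_subset_right hR d1)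
      (Finset.disjoint_of_subset_right Finset.sdiff_subset d1) Finset.disjoint_sdiff hj
    rw [Finset.union_sdiff_of_subset hR] at this
    exact_mod_cast this
  simp only [Ex_add, Ex_const, Ex_sum_notMem, Ex_mul] at key
  rw [Ex_Ex, qs, Ex_choose, Ex_sum_mem] at key
  have e1 : ∀ b ∈ A, Ex (A.erase b) (p + r) (fun U => Ex ((insert b U).erase b) s
      fun R => (c.NB R₀ (insert b F) R : ℝ)) =
      Ex (R₀ \ insert b F) p fun R => (c.NB R₀ (insert b F) R : ℝ) := fun b _ => by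
    have e2 := Ex_Ex (A.erase b) (p + r) s fun R => (c.NB R₀ (insert b F) R : ℝ)
    rw [qs] at e2
    rw [Finset.sdiff_insert, ← e2]
    refine Ex_congr fun U hU => ?_
    rw [Finset.erase_insert fun h' => Finset.notMem_erase b A (hU h')]
  rw [Finset.sum_congr rfl e1, ← mul_assoc, show (1 - s) * (p + r) = r by linarith] at key
  refine key.trans (add_le_add_left ?_ _)
  rw [mul_comm]
  refine mul_le_mul_of_nonneg_right ?_ (by positivity)
  exact_mod_cast (Nat.choose_le_pow _ _).trans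
    (Nat.pow_le_pow_left (Finset.card_le_card Finset.sdiff_subset) _)

omit [Fintype ι] in
theorem CNu_sum (R₀ : Finset ι) (j : ℕ) (G : Finset ι → ℝ) (hG : ∀ F, 0 ≤ G F) :
    ∑ F ∈ R₀.powersetCard (j + 1), G F ≤
      ∑ F ∈ R₀.powersetCard j, ∑ b ∈ R₀ \ F, G (insert b F) := by
  rw [Finset.sum_sigma']
  refine le_trans ?_ (Finset.sum_image_le_of_nonneg
    (s := (R₀.powersetCard j).sigma fun F => R₀ \ F) (g := fun a => insert a.2 a.1) (f := G)
    fun F _ => hG F)
  refine Finset.sum_le_sum_of_subset_of_nonneg (fun F hF => ?_) fun F _ _ => hG F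
  obtain ⟨h1, h2⟩ := Finset.mem_powersetCard.1 hF
  obtain ⟨b, hb⟩ := Finset.card_pos.1 (show 0 < F.card by omega)
  refine Finset.mem_image.2 ⟨⟨F.erase b, b⟩, Finset.mem_sigma.2 ⟨Finset.mem_powersetCard.2
    ⟨(Finset.erase_subset b F).trans h1, by rw [Finset.card_erase_of_mem hb, h2]; rfl⟩,
    Finset.mem_sdiff.2 ⟨h1 hb, Finset.notMem_erase b F⟩⟩, Finset.insert_erase hb⟩

theorem nu_step (R₀ : Finset ι) {j : ℕ} (hj : j + 3 ≤ c.d) {p r : ℝ} (hp : 0 < p) (hr : 0 < r)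
    (h : p + r ≤ 1) : r * c.nu R₀ (j + 1) p ≤
      (R₀.card : ℝ) ^ (c.d - 1) * p ^ (c.d - j - 1) + c.nu R₀ j (p + r) := by
  have a1 := CNu_sum R₀ j (fun F => Ex (R₀ \ F) p fun R => (c.NB R₀ F R : ℝ))
    fun F => Ex_nonneg hp.le (by linarith) fun _ _ => Nat.cast_nonneg _
  refine (mul_le_mul_of_nonneg_left a1 hr.le).trans ?_
  rw [Finset.mul_sum]
  refine (Finset.sum_le_sum (g := fun F => (R₀.card : ℝ) ^ (c.d - j - 1) * p ^ (c.d - j - 1) +
    Ex (R₀ \ F) (p + r) fun R => (c.NB R₀ F R : ℝ)) fun F hF => ?_).trans ?_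
  · obtain ⟨h1, h2⟩ := Finset.mem_powersetCard.1 hF
    subst h2
    exact c.CNu_one h1 hj hp hr h
  rw [Finset.sum_add_distrib, Finset.sum_const, Finset.card_powersetCard, nsmul_eq_mul,
    ← mul_assoc]
  refine add_le_add_left (mul_le_mul_of_nonneg_right ?_ (by positivity)) _
  rw [show c.d - 1 = j + (c.d - j - 1) by omega, pow_add]
  exact mul_le_mul_of_nonneg_right (by exact_mod_cast Nat.choose_le_pow _ _) (by positivity)

end Ctx

end SC
end

-- part: FlatA
section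
/-!
# The two-dimensional flats

`ln_ok`: `UPar_cl`, `UPar_oc`, `UPar_g0`, `UPar_three`; the second condition in `I` is the preimage
of the closed convex set `PF F` under an affine map.  `ln_fr`: `mem_seg_none`, `φ_mem`.
`ln_cc`: `φ` is an injective affine map from the plane, so an embedding with range `Lam F` (`inj`,
`surj`; `φ q = o + L q` with a linear map `L`, `LinearMap.isClosedEmbedding_of_injective`); use
`Topology.IsInducing.isPreconnected_image` for the preimage of the component.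
`ln_uw`: the crossing abscissa is not in the frontier of the intervals (`UPar_g1`).  The vertex is a
limit of good points, so in `PF F`; no boundary equation of `F` vanishes there (`mem_seg_some`,
`UPar_three`), so the points of the flat near the vertex are in `PF F`.
`ln_N`: the map `q ↦ cc (XF F R) (φ q)` is injective on `T` (`ln_cc`); the bounded values lie in
`Cells` (`gp_pop`, `finite_Cells`), at most one value is unbounded (`unb_eq`); `F ≠ ∅` as `d ≥ 3`.
-/

open Set Filter Topology SA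

namespace SC

variable {E ι μ : Type} [NormedAddCommGroup E] [NormedSpace ℝ E] [FiniteDimensional ℝ E]
  [Fintype ι] [DecidableEq ι] [Fintype μ] [DecidableEq μ]

namespace Ctx

namespace Par

variable {c : Ctx E ι μ} {F : Finset ι} (P : c.Par F)

/-- The traces of the patches inside `PF F`. -/
noncomputable def ln : Ln ι where
  sl T := P.sl (emb T)
  ic T := P.ic (emb T)
  I T := {x | x ∈ P.I (emb T) ∧ P.φ (x, P.sl (emb T) * x + P.ic (emb T)) ∈ c.PF F}

variable {R₀ R A : Finset ι} {q q' : Pt}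

theorem ln_ok (A : Finset ι) : P.ln.Ok A := by
  refine ⟨fun j _ => (P.UPar_cl _).inter ((isClosed_PF F).preimage (P.UPar_cont _)),
    fun j _ => Convex.ordConnected fun x hx y hy a b ha hb hab =>
      ⟨(P.UPar_oc _).convex hx.1 hy.1 ha hb hab, ?_⟩,
    fun j _ j' _ hne ⟨x, hx⟩ ⟨y, hy⟩ hs hi => ?_, fun j _ j' _ k _ x h1 h2 h3 e e' => ?_⟩
  · have e : P.φ (a • x + b • y, P.sl (emb j) * (a • x + b • y) + P.ic (emb j)) =
        a • P.φ (x, P.sl (emb j) * x + P.ic (emb j)) +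
          b • P.φ (y, P.sl (emb j) * y + P.ic (emb j)) := by
      obtain rfl : a = 1 - b := by linarith
      simp only [φ, smul_eq_mul]
      module
    rw [e]
    exact convex_PF F hx.2 hy.2 ha hb hab
  · have hi' : P.ic (emb j) = P.ic (emb j') := hi
    exact P.UPar_g0 (emb j) (emb j') 0 (emb.injective.ne hne) ⟨x, hx.1⟩ ⟨y, hy.1⟩
      (by rw [mul_zero, mul_zero, hi']) hs
  · by_cases hne : j = j'
    · exact Or.inl hne
    · exact Or.inr ((P.UPar_three (emb.injective.ne hne) h1.1 h2.1 h3.1 e e').imp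
        (fun h => emb.injective h) fun h => emb.injective h)

theorem ln_fr (hR : Disjoint F R) (q : Pt) : q ∈ P.ln.Fr R ↔ P.φ q ∈ c.XF F R := by
  have key : ∀ a ∈ R, (q.1 ∈ P.ln.I a ∧ q.2 = P.ln.sl a * q.1 + P.ln.ic a) ↔
      (P.φ q ∈ patch c.g a ∧ P.φ q ∈ c.PF F) := by
    intro a ha
    rw [← P.mem_seg_none (Finset.disjoint_right.1 hR ha) q]
    constructor
    · rintro ⟨⟨h1, h2⟩, h3⟩
      have e : q = (q.1, P.sl (emb a) * q.1 + P.ic (emb a)) := Prod.ext rfl h3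
      exact ⟨⟨h1, h3⟩, e ▸ h2⟩
    · rintro ⟨⟨h1, h2⟩, h3⟩
      have e : q = (q.1, P.sl (emb a) * q.1 + P.ic (emb a)) := Prod.ext rfl h2
      exact ⟨⟨h1, e ▸ h3⟩, h2⟩
  exact ⟨fun h => ⟨fun i hi => P.φ_mem q hi, fun a ha h' => h a ha ((key a ha).2 h')⟩,
    fun h a ha h' => h.2 a ha ((key a ha).1 h')⟩

theorem FlatA_ind : IsInducing P.φ := by
  let L : ℝ × ℝ →ₗ[ℝ] E :=
    (LinearMap.toSpanSingleton ℝ E P.b1).coprod (LinearMap.toSpanSingleton ℝ E P.b2)
  have e : P.φ = (fun x => P.o + x) ∘ L := funext fun q => by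
    simp only [φ, L, Function.comp, LinearMap.coprod_apply, LinearMap.toSpanSingleton_apply,
      add_assoc]
  have hL : Function.Injective L := Function.Injective.of_comp (f := fun x => P.o + x) (e ▸ P.inj)
  rw [e]
  exact (Homeomorph.addLeft P.o).isInducing.comp
    (LinearMap.isClosedEmbedding_of_injective (LinearMap.ker_eq_bot.2 hL)).isInducing

theorem ln_cc (hR : Disjoint F R) (h : P.φ q' ∈ cc (c.XF F R) (P.φ q)) :
    q' ∈ cc (P.ln.Fr R) q := by
  have hs : cc (c.XF F R) (P.φ q) ⊆ c.XF F R := connectedComponentIn_subset _ _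
  have hr : cc (c.XF F R) (P.φ q) ⊆ range P.φ := fun x hx => P.surj (hs hx).1
  have hc : IsPreconnected (P.φ ⁻¹' cc (c.XF F R) (P.φ q)) := by
    rw [← P.FlatA_ind.isPreconnected_image, image_preimage_eq_of_subset hr]
    exact isPreconnected_connectedComponentIn
  exact hc.subset_connectedComponentIn
    (mem_connectedComponentIn (connectedComponentIn_nonempty_iff.1 ⟨_, h⟩))
    (fun u hu => (P.ln_fr hR u).2 (hs hu)) h

theorem gp_pop (hF : F ⊆ R₀) (h : P.Gp (R₀ \ F) q) : P.φ q ∈ c.Pop R₀ F := by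
  refine ⟨⟨hF, h.1, fun i hi hi' => h.2.1 i (Finset.mem_sdiff.2 ⟨hi, hi'⟩)⟩, ?_⟩
  have h1 := h.2.2
  rwa [Finset.union_sdiff_of_subset hF] at h1

theorem ln_uw {T T' : ι} (h : P.pl.UW (P.Gp R) (emb T) (emb T')) : P.ln.UW (P.Gp R) T T' := by
  obtain ⟨hsl, x, ⟨h1, h2⟩, e, hev⟩ := h
  have hne : (emb T : ι × Option μ) ≠ emb T' := fun h => by simp [h] at hsl
  have e' : P.sl (emb T) * x + P.ic (emb T) = P.sl (emb T') * x + P.ic (emb T') := e
  have nb : ∀ j j' : ι × Option μ, j ≠ j' → x ∈ P.I j → x ∈ P.I j' →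
      P.sl j * x + P.ic j = P.sl j' * x + P.ic j' → P.I j ∈ 𝓝 x := fun j j' h a b h' => by
    by_contra hn
    exact P.UPar_g1 j j' x h ⟨subset_closure a, fun hi => hn (mem_interior_iff_mem_nhds.1 hi)⟩ b h'
  have ht : Tendsto (fun y : ℝ => ((x, y) : Pt)) (𝓝[>] (P.sl (emb T) * x + P.ic (emb T)))
      (𝓝 (x, P.sl (emb T) * x + P.ic (emb T))) :=
    ((continuous_const.prodMk continuous_id).tendsto _).mono_left nhdsWithin_le_nhds
  have hv : P.φ (x, P.sl (emb T) * x + P.ic (emb T)) ∈ c.PF F := by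
    refine (isClosed_PF F).mem_of_tendsto ((P.cont_φ.tendsto _).comp ht) ?_
    filter_upwards [ht.eventually hev, self_mem_nhdsWithin] with y hy hy' i hi
    exact rel_sub i ((hy hy' (e'.symm.le.trans_lt hy')).1 i hi)
  have hp : ∀ᶠ q : Pt in 𝓝 (x, P.sl (emb T) * x + P.ic (emb T)), P.φ q ∈ c.PF F := by
    refine (eventually_all_finset F).2 fun i hi => ?_
    have h3 : ∀ l, ∀ᶠ q : Pt in 𝓝 (x, P.sl (emb T) * x + P.ic (emb T)),
        0 < c.g i (some l) (P.φ q) := fun l => by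
      refine ((aff_cont _).comp P.cont_φ).continuousAt.eventually
        (lt_mem_nhds (((hv i hi).2 l).lt_of_ne' fun h0 => ?_))
      obtain ⟨h4, h5⟩ := (P.mem_seg_some hi l _).2 h0
      rcases P.UPar_three hne h1 h2 h4 e' h5 with h6 | h6 <;>
        exact absurd (congrArg Prod.snd h6) (by simp [emb])
    filter_upwards [eventually_all.2 h3] with q hq
    exact ⟨P.φ_mem q hi, fun l => (hq l).le⟩
  have cn : ∀ j : ι × Option μ, Tendsto (fun y : ℝ => ((y, P.sl j * y + P.ic j) : Pt)) (𝓝 x)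
      (𝓝 (x, P.sl j * x + P.ic j)) := fun j =>
    (by fun_prop : Continuous fun y : ℝ => ((y, P.sl j * y + P.ic j) : Pt)).tendsto x
  refine ⟨hsl, x, Filter.inter_mem (nb _ _ hne h1 h2 e') ((cn _).eventually hp), ?_, e', hev⟩
  rw [e'] at hp
  exact Filter.inter_mem (nb _ _ hne.symm h2 h1 e'.symm) ((cn _).eventually hp)

theorem ln_N (hF : F ⊆ R₀) (hR : R ⊆ R₀ \ F) (T : Finset Pt) (hT : ∀ q ∈ T, P.Gp (R₀ \ F) q)
    (h : ∀ q ∈ T, ∀ q' ∈ T, q' ∈ cc (P.ln.Fr R) q → q = q') : T.card ≤ c.NB R₀ F R + 1 := by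
  classical
  have hFn : F.Nonempty := Finset.card_pos.1 (by have := P.card; have := c.d3; omega)
  have hR0 : R ⊆ R₀ := hR.trans Finset.sdiff_subset
  have hd : Disjoint F R := Finset.disjoint_of_subset_right hR Finset.disjoint_sdiff
  have inj : ∀ q ∈ T, ∀ q' ∈ T, cc (c.XF F R) (P.φ q) = cc (c.XF F R) (P.φ q') → q = q' := by
    intro q hq q' hq' e
    refine h q hq q' hq' (P.ln_cc hd ?_)
    rw [e]
    exact mem_connectedComponentIn (pop_sub hR0 hd (P.gp_pop hF (hT q' hq')))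
  rw [NB, if_neg hFn.ne_empty,
    ← Finset.card_filter_add_card_filter_not (s := T)
      fun q => Bornology.IsBounded (cc (c.XF F R) (P.φ q))]
  refine add_le_add ?_ (Finset.card_le_one.2 fun q hq q' hq' => ?_)
  · rw [← Set.ncard_coe_finset]
    refine Set.ncard_le_ncard_of_injOn (fun q => cc (c.XF F R) (P.φ q)) (fun q hq => ?_)
      (fun q hq q' hq' e => ?_) (finite_Cells hR0 hd)
    · obtain ⟨h1, h2⟩ := Finset.mem_filter.1 (Finset.mem_coe.1 hq)
      exact ⟨h2, _, P.gp_pop hF (hT q h1), rfl⟩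
    · exact inj q (Finset.mem_filter.1 (Finset.mem_coe.1 hq)).1 q'
        (Finset.mem_filter.1 (Finset.mem_coe.1 hq')).1 e
  · obtain ⟨h1, h2⟩ := Finset.mem_filter.1 hq
    obtain ⟨h3, h4⟩ := Finset.mem_filter.1 hq'
    exact inj q h1 q' h3 (unb_eq hFn P.card.le h2 h4)

end Par

end Ctx

end SC
end
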