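import Pool.Agent.Work.MP_8a5de9_co.UDefs

-- part: planar obstacles
section
open Set Filter Topology

namespace SC

/-- Obstacles in general position. -/
structure Pl (J : Type) where
  sl : J → ℝ
  ic : J → ℝ
  I : J → Set ℝ
  cl : ∀ j, IsClosed (I j)
  oc : ∀ j, OrdConnected (I j)
  g0 : ∀ j j' x, j ≠ j' → (I j).Nonempty → (I j').Nonempty →
    sl j * x + ic j = sl j' * x + ic j' → sl j ≠ sl j'
  g1 : ∀ j j' x, j ≠ j' → x ∈ frontier (I j) → x ∈ I j' → sl j * x + ic j ≠ sl j' * x + ic j'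
  g2 : ∀ j j' x, x ∈ frontier (I j) → x ∈ frontier (I j') → j = j'
  g3 : ∀ j j' k k' x, x ∈ I j → x ∈ I j' → x ∈ I k → x ∈ I k' → sl j' < sl j → sl k' < sl k →
    sl j * x + ic j = sl j' * x + ic j' → sl k * x + ic k = sl k' * x + ic k' → j = k ∧ j' = k'

namespace Pl

variable {J : Type} (π : Pl J)

/-- The height of the line number `j`. -/
def τ (j : J) (x : ℝ) : ℝ := π.sl j * x + π.ic j

/-- The obstacle number `j`. -/
def seg (j : J) : Set (ℝ × ℝ) := {q | q.1 ∈ π.I j ∧ q.2 = π.τ j q.1}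

/-- `j` and `j'` cross, and the wedge above the crossing is good. -/
def UW (G : ℝ × ℝ → Prop) (j j' : J) : Prop :=
  π.sl j' < π.sl j ∧ ∃ x ∈ π.I j ∩ π.I j', π.τ j x = π.τ j' x ∧
    ∀ᶠ q in 𝓝 (x, π.τ j x), π.τ j q.1 < q.2 → π.τ j' q.1 < q.2 → G q

end Pl

end SC
end

-- merged part: Pool.Agent.Work.MP_8a5de9_co.ULoc
section
-- merged part: Pool.Agent.Work.MP_8a5de9_co.UCtx
section
/-!
# The context: an arrangement in general position with a generic height function

Proof hints.  Everything follows from `GenPos` and rank-nullity.  For an admissible set `A` with a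
common zero the linear map `E → (A → ℝ)`, `e ↦ (j ↦ (g j).linear e)` is onto, because its
coordinates are linearly independent functionals (for instance: the dual map is injective, or the
range is not contained in a hyperplane, `LinearIndependent` + `Submodule.exists_dual_...`,
`LinearMap.dualMap_injective_iff`, `Module.Dual`), so its kernel has dimension `d - |A|`.
`exists_height`: the functionals `z` that violate one condition form a proper subspace of the dual
(for `A` with `|A| < d` pick `u ≠ 0` in the kernel and ask `z u ≠ 0`, then rescale `u`; for two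
distinct vertices `x ≠ x'` ask `z (x - x') ≠ 0`; a vertex is determined by `A`), so it is enough to
find `z` with `z u ≠ 0` for finitely many given `u ≠ 0`
(`Subspace.biUnion_ne_univ_of_top_notMem`, or `Module.exists_dual_forall_apply_ne_zero`).
-/

open Set Filter Topology

namespace SC

variable {E ι μ : Type} [NormedAddCommGroup E] [NormedSpace ℝ E]

/-- An admissible set of equations with the common zero `x`. -/
def Adm (g : ι → Option μ → E →ᵃ[ℝ] ℝ) (A : Finset (ι × Option μ)) (x : E) : Prop :=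
  (∀ j ∈ A, (j.1, none) ∈ A) ∧ ∀ j ∈ A, g j.1 j.2 x = 0

/-- All the data. -/
structure Ctx (E ι μ : Type) [NormedAddCommGroup E] [NormedSpace ℝ E] where
  g : ι → Option μ → E →ᵃ[ℝ] ℝ
  z : E →ₗ[ℝ] ℝ
  p : E
  d : ℕ
  dim : Module.finrank ℝ E = d
  d3 : 3 ≤ d
  gp : GenPos g
  bdd : ∀ i, Bornology.IsBounded (patch g i)
  hp : ∀ i, p ∉ patch g i
  zgen : ∀ A x, Adm g A x → A.card < d → ∃ u, z u = 1 ∧ ∀ j ∈ A, (g j.1 j.2).linear u = 0
  zinj : ∀ A A' x x', Adm g A x → Adm g A' x' → A.card = d → A'.card = d → z x = z x' → x = x'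

/-- The same arrangement upside down. -/
def Ctx.neg (c : Ctx E ι μ) : Ctx E ι μ :=
  { c with
    z := -c.z
    zgen := fun A x h hc => by
      obtain ⟨u, hu, h'⟩ := c.zgen A x h hc
      exact ⟨-u, by simp [hu], fun j hj => by simp [h' j hj]⟩
    zinj := fun A A' x x' h h' hc hc' e => c.zinj A A' x x' h h' hc hc' (by simpa using e) }

variable [FiniteDimensional ℝ E]

theorem aff_cont (f : E →ᵃ[ℝ] ℝ) : Continuous f := f.continuous_of_finiteDimensional

theorem isClosed_patch (g : ι → Option μ → E →ᵃ[ℝ] ℝ) (i : ι) : IsClosed (patch g i) := by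
  have : patch g i = {x | g i none x = 0} ∩ ⋂ l, {x | 0 ≤ g i (some l) x} := by
    ext x
    simp [patch]
  rw [this]
  exact (isClosed_eq (aff_cont _) continuous_const).inter
    (isClosed_iInter fun l => isClosed_le continuous_const (aff_cont _))

theorem convex_patch (g : ι → Option μ → E →ᵃ[ℝ] ℝ) (i : ι) : Convex ℝ (patch g i) := by
  have : patch g i = (g i none) ⁻¹' {0} ∩ ⋂ l, (g i (some l)) ⁻¹' Ici 0 := by
    ext x
    simp [patch]
  rw [this]
  exact ((convex_singleton _).affine_preimage _).inter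
    (convex_iInter fun l => (convex_Ici _).affine_preimage _)

/-- The linear parts of the equations in `A`. -/
def uctxMap (g : ι → Option μ → E →ᵃ[ℝ] ℝ) (A : Finset (ι × Option μ)) : E →ₗ[ℝ] (A → ℝ) :=
  LinearMap.pi fun j : A => (g j.1.1 j.1.2).linear

omit [FiniteDimensional ℝ E] in
theorem uctx_mem {g : ι → Option μ → E →ᵃ[ℝ] ℝ} {A : Finset (ι × Option μ)} {e : E} :
    e ∈ LinearMap.ker (uctxMap g A) ↔ ∀ j ∈ A, (g j.1 j.2).linear e = 0 := by
  rw [LinearMap.mem_ker, funext_iff]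
  exact ⟨fun h j hj => h ⟨j, hj⟩, fun h j => h j.1 j.2⟩

omit [FiniteDimensional ℝ E] in
theorem uctx_range {g : ι → Option μ → E →ᵃ[ℝ] ℝ} (gp : GenPos g) {A : Finset (ι × Option μ)}
    {x : E} (h : Adm g A x) : LinearMap.range (uctxMap g A) = ⊤ := by
  classical
  by_contra hne
  obtain ⟨φ, h0, hφ⟩ := Submodule.exists_le_ker_of_lt_top _ (lt_top_iff_ne_top.2 hne)
  have hli := Fintype.linearIndependent_iff.1 (gp A h.1 ⟨x, h.2⟩)
    (fun j => φ fun k => if j = k then 1 else 0) (by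
      ext e
      have := hφ (LinearMap.mem_range_self _ e)
      rw [LinearMap.mem_ker, LinearMap.pi_apply_eq_sum_univ] at this
      rw [LinearMap.sum_apply, LinearMap.zero_apply]
      exact Eq.trans (Finset.sum_congr rfl fun j _ => mul_comm _ _) this)
  refine h0 (LinearMap.ext fun v => ?_)
  rw [LinearMap.pi_apply_eq_sum_univ, LinearMap.zero_apply]
  exact Finset.sum_eq_zero fun j _ => by rw [hli j, smul_zero]

theorem uctx_rank {g : ι → Option μ → E →ᵃ[ℝ] ℝ} (gp : GenPos g) {A : Finset (ι × Option μ)}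
    {x : E} (h : Adm g A x) :
    A.card + Module.finrank ℝ (LinearMap.ker (uctxMap g A)) = Module.finrank ℝ E := by
  rw [← LinearMap.finrank_range_add_finrank_ker (uctxMap g A), uctx_range gp h, finrank_top,
    Module.finrank_fintype_fun_eq_card, Fintype.card_coe]

theorem uctx_ker {g : ι → Option μ → E →ᵃ[ℝ] ℝ} (gp : GenPos g) {A : Finset (ι × Option μ)}
    {x : E} (h : Adm g A x) (hc : A.card = Module.finrank ℝ E) {e : E}
    (he : ∀ j ∈ A, (g j.1 j.2).linear e = 0) : e = 0 := by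
  have h1 := uctx_rank gp h
  have h2 : LinearMap.ker (uctxMap g A) = ⊥ := Submodule.finrank_eq_zero.1 (by omega)
  exact (Submodule.eq_bot_iff _).1 h2 e (uctx_mem.2 he)

theorem uctx_uniq {g : ι → Option μ → E →ᵃ[ℝ] ℝ} (gp : GenPos g) {A : Finset (ι × Option μ)}
    {x x' : E} (h : Adm g A x) (hc : A.card = Module.finrank ℝ E) (h' : Adm g A x') : x = x' := by
  refine sub_eq_zero.1 (uctx_ker gp h hc fun j hj => ?_)
  rw [← vsub_eq_sub, AffineMap.linearMap_vsub, h.2 j hj, h'.2 j hj, vsub_self]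

theorem exists_height [Finite ι] [Finite μ] {g : ι → Option μ → E →ᵃ[ℝ] ℝ} (gp : GenPos g) :
    ∃ z : E →ₗ[ℝ] ℝ,
      (∀ A x, Adm g A x → A.card < Module.finrank ℝ E →
        ∃ u, z u = 1 ∧ ∀ j ∈ A, (g j.1 j.2).linear u = 0) ∧
      ∀ A A' x x', Adm g A x → Adm g A' x' → A.card = Module.finrank ℝ E →
        A'.card = Module.finrank ℝ E → z x = z x' → x = x' := by
  have h1 : ∀ A : Finset (ι × Option μ), ∃ u : E, ∀ x, Adm g A x → A.card < Module.finrank ℝ E →
      u ≠ 0 ∧ u ∈ LinearMap.ker (uctxMap g A) := by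
    intro A
    by_cases h0 : LinearMap.ker (uctxMap g A) = ⊥
    · refine ⟨0, fun x hx hc => ?_⟩
      have := uctx_rank gp hx
      rw [h0, finrank_bot] at this
      omega
    · obtain ⟨u, hu, hu0⟩ := (Submodule.ne_bot_iff _).1 h0
      exact ⟨u, fun _ _ _ => ⟨hu0, hu⟩⟩
  have h2 : ∀ A : Finset (ι × Option μ), ∃ v : E, ∀ x, Adm g A x → A.card = Module.finrank ℝ E →
      x = v := by
    intro A
    by_cases h0 : ∃ v, Adm g A v
    · obtain ⟨v, hv⟩ := h0
      exact ⟨v, fun x hx hc => uctx_uniq gp hx hc hv⟩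
    · exact ⟨0, fun x hx _ => (h0 ⟨x, hx⟩).elim⟩
  choose u hu using h1
  choose v hv using h2
  obtain ⟨w, hw⟩ : ∃ w : Finset (ι × Option μ) ⊕ Finset (ι × Option μ) × Finset (ι × Option μ) → E,
    w = Sum.elim u fun p => v p.1 - v p.2 := ⟨_, rfl⟩
  obtain ⟨z, hz⟩ := Module.exists_dual_forall_apply_ne_zero (K := ℝ)
    (fun k : {k // w k ≠ 0} => w k.1) fun k => k.2
  refine ⟨z, fun A x hx hc => ?_, fun A A' x x' hx hx' hc hc' e => ?_⟩
  · obtain ⟨h3, h4⟩ := hu A x hx hc
    have h5 := hz ⟨Sum.inl A, by rw [hw]; exact h3⟩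
    simp only [hw, Sum.elim_inl] at h5
    refine ⟨(z (u A))⁻¹ • u A, by rw [map_smul, smul_eq_mul, inv_mul_cancel₀ h5], ?_⟩
    exact uctx_mem.1 (Submodule.smul_mem _ _ h4)
  · by_contra hne
    rw [hv A x hx hc, hv A' x' hx' hc'] at hne e
    have h5 := hz ⟨Sum.inr (A, A'), by rw [hw]; exact sub_ne_zero.2 hne⟩
    simp only [hw, Sum.elim_inr, map_sub] at h5
    exact h5 (sub_eq_zero.2 e)

namespace Ctx

variable (c : Ctx E ι μ) {A : Finset (ι × Option μ)} {x : E}

theorem z_cont : Continuous c.z := c.z.continuous_of_finiteDimensional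

theorem card_le (h : Adm c.g A x) : A.card ≤ c.d := by
  have := uctx_rank c.gp h
  rw [c.dim] at this
  omega

theorem solve (h : Adm c.g A x) (r : ι × Option μ → ℝ) :
    ∃ e, ∀ j ∈ A, (c.g j.1 j.2).linear e = r j := by
  obtain ⟨e, he⟩ := LinearMap.range_eq_top.1 (uctx_range c.gp h) fun j => r j.1
  exact ⟨e, fun j hj => congrFun he ⟨j, hj⟩⟩

theorem solvez (h : Adm c.g A x) (hc : A.card < c.d) (r : ι × Option μ → ℝ) (r₀ : ℝ) :
    ∃ e, c.z e = r₀ ∧ ∀ j ∈ A, (c.g j.1 j.2).linear e = r j := by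
  obtain ⟨e, he⟩ := c.solve h r
  obtain ⟨u, hu, h0⟩ := c.zgen A x h hc
  refine ⟨e + (r₀ - c.z e) • u, ?_, fun j hj => ?_⟩
  · rw [map_add, map_smul, hu, smul_eq_mul]
    ring
  · rw [map_add, map_smul, h0 j hj, smul_zero, add_zero, he j hj]

theorem ker (h : Adm c.g A x) (hc : A.card = c.d) {e : E}
    (he : ∀ j ∈ A, (c.g j.1 j.2).linear e = 0) : e = 0 := by
  exact uctx_ker c.gp h (hc.trans c.dim.symm) he

theorem uctx_rankz (h : Adm c.g A x) (hc : A.card < c.d) :
    A.card + 1 + Module.finrank ℝ (LinearMap.ker (uctxMap c.g A) ⊓ LinearMap.ker c.z : Submodule ℝ E)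
      = c.d := by
  have h1 : LinearMap.range ((uctxMap c.g A).prod c.z) = ⊤ := by
    classical
    refine LinearMap.range_eq_top.2 fun q => ?_
    obtain ⟨e, h2, h3⟩ := c.solvez h hc (fun j => if hj : j ∈ A then q.1 ⟨j, hj⟩ else 0) q.2
    refine ⟨e, Prod.ext (funext fun j => ?_) h2⟩
    have := h3 j.1 j.2
    rw [dif_pos j.2] at this
    exact this
  rw [← LinearMap.ker_prod, ← c.dim,
    ← LinearMap.finrank_range_add_finrank_ker ((uctxMap c.g A).prod c.z), h1, finrank_top,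
    Module.finrank_prod, Module.finrank_fintype_fun_eq_card, Fintype.card_coe, Module.finrank_self]

theorem kerz (h : Adm c.g A x) (hc : A.card + 1 = c.d) {e : E}
    (he : ∀ j ∈ A, (c.g j.1 j.2).linear e = 0) (hz : c.z e = 0) : e = 0 := by
  have h1 := c.uctx_rankz h (by omega)
  have h2 : LinearMap.ker (uctxMap c.g A) ⊓ LinearMap.ker c.z = ⊥ :=
    Submodule.finrank_eq_zero.1 (by omega)
  exact (Submodule.eq_bot_iff _).1 h2 e ⟨uctx_mem.2 he, hz⟩

/-- The horizontal directions of a two-dimensional flat form a line. -/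
theorem ker2 (h : Adm c.g A x) (hc : A.card + 2 = c.d) :
    ∃ b, b ≠ 0 ∧ c.z b = 0 ∧ (∀ j ∈ A, (c.g j.1 j.2).linear b = 0) ∧
      ∀ b' : E, b' ≠ 0 → c.z b' = 0 → (∀ j ∈ A, (c.g j.1 j.2).linear b' = 0) →
        ∀ e, c.z e = 0 → (∀ j ∈ A, (c.g j.1 j.2).linear e = 0) → ∃ s : ℝ, e = s • b' := by
  have h1 := c.uctx_rankz h (by omega)
  have h2 : Module.finrank ℝ (LinearMap.ker (uctxMap c.g A) ⊓ LinearMap.ker c.z : Submodule ℝ E)
      = 1 := by omega
  obtain ⟨b, hb, hb0⟩ := (Submodule.ne_bot_iff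
    (LinearMap.ker (uctxMap c.g A) ⊓ LinearMap.ker c.z)).1 (fun h0 => by
      rw [h0, finrank_bot] at h2
      omega)
  refine ⟨b, hb0, hb.2, uctx_mem.1 hb.1, fun b' h0 h3 h4 e h5 h6 => ?_⟩
  obtain ⟨s, hs⟩ := (finrank_eq_one_iff_of_nonzero'
    (⟨b', uctx_mem.2 h4, h3⟩ : (LinearMap.ker (uctxMap c.g A) ⊓ LinearMap.ker c.z : Submodule ℝ E))
    (fun e => h0 (congrArg Subtype.val e))).1 h2 ⟨e, uctx_mem.2 h6, h5⟩
  exact ⟨s, (congrArg Subtype.val hs).symm⟩

theorem adm_uniq (h : Adm c.g A x) (hc : A.card = c.d) {x' : E} (h' : Adm c.g A x') : x = x' := by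
  exact uctx_uniq c.gp h (hc.trans c.dim.symm) h'

end Ctx

end SC
end

-- merged part: Pool.Agent.Work.MP_8a5de9_co.UBase
section
/-!
# Local structure, good sides, tuples

`R` is the current subfamily, `c.U R` the complement of its patches and `c.C R` the marked cell.
A sign pattern `s : ι → SignType` describes the open orthant `c.Orth s` (the value `0` means: no
condition).  `c.Good R x s`: all points near `x` in the orthant and off the patches lie in the
marked cell.
-/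

open Set Filter Topology Metric

namespace SC

variable {E ι μ : Type} [NormedAddCommGroup E] [NormedSpace ℝ E] [FiniteDimensional ℝ E]
  [Fintype ι] [DecidableEq ι] [Fintype μ] [DecidableEq μ]

/-- The support of a sign pattern. -/
def supp {J : Type} [Fintype J] (s : J → SignType) : Finset J := Finset.univ.filter (s · ≠ 0)

@[simp] theorem mem_supp {J : Type} [Fintype J] {s : J → SignType} {i : J} :
    i ∈ supp s ↔ s i ≠ 0 := by simp [supp]

/-- There are at most `3 ^ |A|` sign patterns supported in `A`. -/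
theorem card_supp_le {J : Type} [Fintype J] [DecidableEq J] (A : Finset J) :
    (Finset.univ.filter fun s : J → SignType => supp s ⊆ A).card ≤ 3 ^ A.card := by
  have h : (Finset.univ.filter fun s : J → SignType => supp s ⊆ A) ⊆
      Fintype.piFinset fun i => if i ∈ A then Finset.univ else {0} := fun s hs => by
    rw [Fintype.mem_piFinset]
    intro i
    split_ifs with hi
    · exact Finset.mem_univ _
    · by_contra h0
      exact hi ((Finset.mem_filter.1 hs).2 (mem_supp.2 (by simpa using h0)))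
  refine (Finset.card_le_card h).trans (le_of_eq ?_)
  rw [Fintype.card_piFinset]
  have h3 : (Finset.univ : Finset SignType).card = 3 := rfl
  simp only [apply_ite Finset.card, h3, Finset.card_singleton]
  rw [Finset.prod_ite_mem, Finset.univ_inter, Finset.prod_const]

/-- A candidate vertex with a sign pattern. -/
abbrev Tu (ι : Type) := Finset ι × (ι → SignType)

namespace Ctx

variable (c : Ctx E ι μ)

/-- The relative interior of a patch. -/
def rel (i : ι) : Set E := {x | c.g i none x = 0 ∧ ∀ l, 0 < c.g i (some l) x}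

/-- The complement of the patches of `R`. -/
def U (R : Finset ι) : Set E := {x | ∀ i ∈ R, x ∉ patch c.g i}

/-- The marked cell of the subfamily `R`. -/
def C (R : Finset ι) : Set E := connectedComponentIn (c.U R) c.p

open Classical in
/-- The equations of `R` that are active at `x`. -/
noncomputable def act (R : Finset ι) (x : E) : Finset (ι × Option μ) :=
  Finset.univ.filter fun j => j.1 ∈ R ∧ x ∈ patch c.g j.1 ∧ c.g j.1 j.2 x = 0

/-- `x` lies in the relative interior of the patches of `D` and on no other patch of `R`. -/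
def On (R D : Finset ι) (x : E) : Prop :=
  D ⊆ R ∧ (∀ i ∈ D, x ∈ c.rel i) ∧ ∀ i ∈ R, i ∉ D → x ∉ patch c.g i

/-- In the ball of radius `ρ` around `x` only the equations active at `x` matter. -/
def Loc (R : Finset ι) (x : E) (ρ : ℝ) : Prop :=
  0 < ρ ∧ ∀ y ∈ ball x ρ, ∀ i ∈ R, (x ∉ patch c.g i → y ∉ patch c.g i) ∧
    (x ∈ patch c.g i → ∀ l, 0 < c.g i (some l) x → 0 < c.g i (some l) y)

/-- An open orthant. -/
def Orth (s : ι → SignType) : Set E := {y | ∀ i, s i ≠ 0 → SignType.sign (c.g i none y) = s i}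

/-- The side `s` of `x` belongs to the marked cell. -/
def Good (R : Finset ι) (x : E) (s : ι → SignType) : Prop :=
  ∀ᶠ y in 𝓝 x, y ∈ c.Orth s → y ∈ c.U R → y ∈ c.C R

/-- The common point of the hyperplanes of `D`. -/
noncomputable def vtx (D : Finset ι) : E := Classical.epsilon fun x => ∀ i ∈ D, c.g i none x = 0

/-- `D` defines an inner vertex. -/
def Inner (D : Finset ι) : Prop := D.card = c.d ∧ ∀ i ∈ D, c.vtx D ∈ c.rel i

open Classical in
/-- Inner vertices with a good side that has `k` sign conditions. -/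
noncomputable def Tup (R : Finset ι) (k : ℕ) : Finset (Tu ι) :=
  Finset.univ.filter fun t => t.1 ⊆ R ∧ c.Inner t.1 ∧ supp t.2 ⊆ t.1 ∧ (supp t.2).card = k ∧
    c.Good R (c.vtx t.1) t.2

/-- `e` is a direction of the edge number `i` of the side `t`. -/
def Edge (t : Tu ι) (i : ι) (e : E) : Prop :=
  (∀ j ∈ t.1, j ≠ i → (c.g j none).linear e = 0) ∧ SignType.sign ((c.g i none).linear e) = t.2 i

/-- The edge number `i` of the side `t` goes up. -/
def Up (t : Tu ι) (i : ι) : Prop := ∃ e, c.Edge t i e ∧ 0 < c.z e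

/-- All edges go up or all edges go down. -/
def Ext (t : Tu ι) : Prop := (∀ i ∈ supp t.2, c.Up t i) ∨ ∀ i ∈ supp t.2, ¬ c.Up t i

open Classical in
/-- Sets of equations that define outer vertices. -/
noncomputable def OutS (R : Finset ι) : Finset (Finset (ι × Option μ)) :=
  Finset.univ.filter fun A => (∀ j ∈ A, j.1 ∈ R) ∧ A.card = c.d ∧ (∃ x, Adm c.g A x) ∧
    ∃ j ∈ A, j.2 ≠ none

/-- `x` is an outer vertex. -/
def OutV (R : Finset ι) (x : E) : Prop := c.act R x ∈ c.OutS R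

variable {c} {R R' D : Finset ι} {x y y' : E} {ρ : ℝ} {s s' : ι → SignType} {t : Tu ι} {i : ι}
  {k : ℕ}

theorem mem_act {j : ι × Option μ} :
    j ∈ c.act R x ↔ j.1 ∈ R ∧ x ∈ patch c.g j.1 ∧ c.g j.1 j.2 x = 0 := by simp [act]

theorem mem_Tup : t ∈ c.Tup R k ↔ t.1 ⊆ R ∧ c.Inner t.1 ∧ supp t.2 ⊆ t.1 ∧
    (supp t.2).card = k ∧ c.Good R (c.vtx t.1) t.2 := by simp [Tup]

theorem mem_OutS {A : Finset (ι × Option μ)} : A ∈ c.OutS R ↔ (∀ j ∈ A, j.1 ∈ R) ∧
    A.card = c.d ∧ (∃ x, Adm c.g A x) ∧ ∃ j ∈ A, j.2 ≠ none := by simp [OutS]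

theorem rel_sub (i : ι) : c.rel i ⊆ patch c.g i := fun _ h => ⟨h.1, fun l => (h.2 l).le⟩

theorem adm_act (R : Finset ι) (x : E) : Adm c.g (c.act R x) x := by
  refine ⟨fun j hj => ?_, fun j hj => (mem_act.1 hj).2.2⟩
  obtain ⟨h1, h2, -⟩ := mem_act.1 hj
  exact mem_act.2 ⟨h1, h2, h2.1⟩

/-- The hyperplanes of `D` through `x` form an admissible set. -/
theorem adm_hyp (h : ∀ i ∈ D, c.g i none x = 0) :
    Adm c.g (D.image fun i => (i, none)) x ∧ (D.image fun i => (i, (none : Option μ))).card = D.card := by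
  refine ⟨⟨fun j hj => ?_, fun j hj => ?_⟩,
    Finset.card_image_of_injective _ fun _ _ e => congrArg Prod.fst e⟩
  · obtain ⟨i, hi, rfl⟩ := Finset.mem_image.1 hj
    exact hj
  · obtain ⟨i, hi, rfl⟩ := Finset.mem_image.1 hj
    exact h i hi

theorem vtx_eq (hD : D.card = c.d) (h : ∀ i ∈ D, c.g i none x = 0) : c.vtx D = x := by
  have h' : ∀ i ∈ D, c.g i none (c.vtx D) = 0 :=
    Classical.epsilon_spec (p := fun x => ∀ i ∈ D, c.g i none x = 0) ⟨x, h⟩
  exact c.adm_uniq (adm_hyp h').1 ((adm_hyp h').2.trans hD) (adm_hyp h).1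

theorem UBase_ne (h : c.Inner D) (hi : i ∉ D) : c.g i none (c.vtx D) ≠ 0 := by
  intro h0
  obtain ⟨h1, h2⟩ := adm_hyp (c := c) (D := insert i D) (x := c.vtx D) fun j hj => by
    rcases Finset.mem_insert.1 hj with rfl | hj
    exacts [h0, (h.2 j hj).1]
  have h3 := c.card_le h1
  rw [h2, Finset.card_insert_of_notMem hi, h.1] at h3
  omega

theorem Inner.on (h : c.Inner D) (hR : D ⊆ R) : c.On R D (c.vtx D) := by
  exact ⟨hR, h.2, fun i _ hi hp => UBase_ne h hi hp.1⟩

/-- No further hyperplane passes through an inner vertex. -/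
theorem Inner.ne (h : c.Inner D) (hi : i ∉ D) : c.g i none (c.vtx D) ≠ 0 := by
  exact UBase_ne h hi

/-- A point on `d` patches is an inner vertex. -/
theorem inner_of_mem (hD : D.card = c.d) (h : ∀ i ∈ D, x ∈ patch c.g i) :
    c.Inner D ∧ c.vtx D = x := by
  have e := vtx_eq hD fun i hi => (h i hi).1
  refine ⟨⟨hD, fun i hi => ?_⟩, e⟩
  rw [e]
  refine ⟨(h i hi).1, fun l => lt_of_le_of_ne ((h i hi).2 l) fun h0 => ?_⟩
  obtain ⟨h1, h2⟩ := adm_hyp fun i hi => (h i hi).1
  have h3 : Adm c.g (insert (i, some l) (D.image fun i => (i, none))) x := by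
    refine ⟨fun j hj => Finset.mem_insert_of_mem ?_, fun j hj => ?_⟩
    · rcases Finset.mem_insert.1 hj with rfl | hj
      exacts [Finset.mem_image_of_mem _ hi, h1.1 j hj]
    · rcases Finset.mem_insert.1 hj with rfl | hj
      exacts [h0.symm, h1.2 j hj]
  have h4 := c.card_le h3
  rw [Finset.card_insert_of_notMem (by simp), h2, hD] at h4
  omega

theorem Inner.height (h : c.Inner D) {D' : Finset ι} (h' : c.Inner D')
    (e : c.z (c.vtx D) = c.z (c.vtx D')) : D = D' := by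
  obtain ⟨h1, h2⟩ := adm_hyp fun i hi => (h.2 i hi).1
  obtain ⟨h3, h4⟩ := adm_hyp fun i hi => (h'.2 i hi).1
  have e' := c.zinj _ _ _ _ h1 h3 (h2.trans h.1) (h4.trans h'.1) e
  refine Finset.eq_of_subset_of_card_le (fun i hi => ?_) (h'.1.trans h.1.symm).le
  by_contra hi'
  exact h'.ne hi' (e' ▸ (h.2 i hi).1)

theorem tup_empty (h : R.card < c.d) : c.Tup R k = ∅ := by
  refine Finset.eq_empty_of_forall_notMem fun t ht => ?_
  obtain ⟨h1, h2, -⟩ := mem_Tup.1 ht
  have := Finset.card_le_card h1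
  rw [h2.1] at this
  omega

theorem exists_loc (R : Finset ι) (x : E) : ∃ ρ, c.Loc R x ρ := by
  have h : ∀ᶠ y in 𝓝 x, ∀ i ∈ R, (x ∉ patch c.g i → y ∉ patch c.g i) ∧
      (x ∈ patch c.g i → ∀ l, 0 < c.g i (some l) x → 0 < c.g i (some l) y) := by
    refine (eventually_all_finset R).2 fun i _ => Eventually.and ?_ ?_
    · exact eventually_imp_distrib_left.2 fun hx =>
        (isClosed_patch c.g i).isOpen_compl.mem_nhds hx
    · refine eventually_imp_distrib_left.2 fun _ => eventually_all.2 fun l => ?_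
      exact eventually_imp_distrib_left.2 fun hl =>
        (aff_cont _).continuousAt.eventually (lt_mem_nhds hl)
  exact Metric.eventually_nhds_iff_ball.1 h

theorem Loc.mono (h : c.Loc R x ρ) {ρ' : ℝ} (h0 : 0 < ρ') (h1 : ρ' ≤ ρ) : c.Loc R x ρ' :=
  ⟨h0, fun y hy => h.2 y (ball_subset_ball h1 hy)⟩

/-- Near `x` the stratum of a point only depends on the signs of the active equations. -/
theorem Loc.same (h : c.Loc R x ρ) (hy : y ∈ ball x ρ) (hy' : y' ∈ ball x ρ)
    (hs : ∀ j ∈ c.act R x, SignType.sign (c.g j.1 j.2 y) = SignType.sign (c.g j.1 j.2 y')) :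
    ∀ i ∈ R, (y ∈ patch c.g i ↔ y' ∈ patch c.g i) ∧
      (y ∈ patch c.g i → ∀ l, (c.g i (some l) y = 0 ↔ c.g i (some l) y' = 0)) := by
  intro i hi
  by_cases hx : x ∈ patch c.g i
  · have key : ∀ j, SignType.sign (c.g i j y) = SignType.sign (c.g i j y') := by
      rintro (_ | l)
      · exact hs (i, none) (mem_act.2 ⟨hi, hx, hx.1⟩)
      · rcases (hx.2 l).eq_or_lt with h0 | h0
        · exact hs (i, some l) (mem_act.2 ⟨hi, hx, h0.symm⟩)
        · rw [sign_pos ((h.2 y hy i hi).2 hx l h0), sign_pos ((h.2 y' hy' i hi).2 hx l h0)]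
    have k0 : ∀ j, c.g i j y = 0 ↔ c.g i j y' = 0 := fun j => by
      rw [← sign_eq_zero_iff, key, sign_eq_zero_iff]
    have k1 : ∀ j, 0 ≤ c.g i j y ↔ 0 ≤ c.g i j y' := fun j => by
      rw [← sign_nonneg_iff, key, sign_nonneg_iff]
    exact ⟨and_congr (k0 _) (forall_congr' fun l => k1 _), fun _ l => k0 _⟩
  · have h1 := (h.2 y hy i hi).1 hx
    exact ⟨iff_of_false h1 ((h.2 y' hy' i hi).1 hx), fun h2 => (h1 h2).elim⟩

theorem Loc.mem_U (h : c.Loc R x ρ) (ho : c.On R D x) (hy : y ∈ ball x ρ) :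
    y ∈ c.U R ↔ ∀ i ∈ D, c.g i none y ≠ 0 := by
  constructor
  · intro hU i hi h0
    have hx := ho.2.1 i hi
    exact hU i (ho.1 hi) ⟨h0, fun l => ((h.2 y hy i (ho.1 hi)).2 (rel_sub i hx) l (hx.2 l)).le⟩
  · intro hD i hi hp
    by_cases hi' : i ∈ D
    · exact hD i hi' hp.1
    · exact (h.2 y hy i hi).1 (ho.2.2 i hi hi') hp

/-- Sign classes are convex. -/
theorem convex_sign (A : Finset (ι × Option μ)) (σ : ι × Option μ → SignType) :
    Convex ℝ {y | ∀ j ∈ A, SignType.sign (c.g j.1 j.2 y) = σ j} := by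
  have h : ∀ a : SignType, Convex ℝ {t : ℝ | SignType.sign t = a} := fun a =>
    ((ordConnected_singleton (a := a)).preimage_mono SignType.sign.monotone).convex
  simp only [ofPred_forall]
  exact convex_iInter fun j => convex_iInter fun _ => (h (σ j)).affine_preimage (c.g j.1 j.2)

theorem neg_Tup (R : Finset ι) (k : ℕ) : c.neg.Tup R k = c.Tup R k := rfl

theorem neg_OutS (R : Finset ι) : c.neg.OutS R = c.OutS R := rfl

end Ctx

end SC
end

-- merged part: Pool.Agent.Work.MP_8a5de9_co.UGood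
section
/-!
# Good sides
-/

open Set Filter Topology Metric

namespace SC

variable {E ι μ : Type} [NormedAddCommGroup E] [NormedSpace ℝ E] [FiniteDimensional ℝ E]
  [Fintype ι] [DecidableEq ι] [Fintype μ] [DecidableEq μ]

namespace Ctx

variable {c : Ctx E ι μ} {R R' D : Finset ι} {x y y' : E} {ρ : ℝ} {s s' : ι → SignType} {t : Tu ι} {i : ι}
  {k : ℕ}

theorem isOpen_U (R : Finset ι) : IsOpen (c.U R) := by
  have : c.U R = ⋂ i ∈ R, (patch c.g i)ᶜ := by ext x; simp [U]
  rw [this]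
  exact isOpen_biInter_finset fun i _ => (isClosed_patch c.g i).isOpen_compl

theorem isOpen_C (R : Finset ι) : IsOpen (c.C R) := by
  exact (isOpen_U R).connectedComponentIn

theorem isOpen_Orth (s : ι → SignType) : IsOpen (c.Orth s) := by
  have : c.Orth s = ⋂ i, {y | s i ≠ 0 → SignType.sign (c.g i none y) = s i} := by
    ext x; simp [Orth]
  rw [this]
  refine isOpen_iInter_of_finite fun i => ?_
  have hc := aff_cont (c.g i none)
  rcases h : s i with _ | _ | _
  · simp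
  · simpa [sign_eq_neg_one_iff] using isOpen_lt hc continuous_const
  · simpa [sign_eq_one_iff] using isOpen_lt continuous_const hc

theorem C_sub (R : Finset ι) : c.C R ⊆ c.U R := connectedComponentIn_subset _ _

/-- A connected part of the complement that meets the cell lies in the cell. -/
theorem sub_C {γ : Set E} (hγ : IsPreconnected γ) (hU : γ ⊆ c.U R) (hy : y ∈ γ)
    (hC : y ∈ c.C R) : γ ⊆ c.C R := by
  rw [C, connectedComponentIn_eq hC]
  exact hγ.subset_connectedComponentIn hy hU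

theorem C_mono (h : R ⊆ R') : c.C R' ⊆ c.C R := by
  exact connectedComponentIn_mono _ fun x hx i hi => hx i (h hi)

/-- Patches are nowhere dense (a nonempty patch lies in a true hyperplane). -/
theorem dense_U (R : Finset ι) : Dense (c.U R) := by
  have : c.U R = ⋂ i ∈ (R : Set ι), (patch c.g i)ᶜ := by ext x; simp [U]
  rw [this]
  refine dense_biInter_of_isOpen (fun i _ => (isClosed_patch c.g i).isOpen_compl)
    (to_countable _) fun i _ => ?_
  rcases (patch c.g i).eq_empty_or_nonempty with h | ⟨x, hx⟩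
  · rw [h, compl_empty]; exact dense_univ
  obtain ⟨e, he⟩ := c.solve (A := {(i, none)}) (x := x) ⟨by simp, by simpa using hx.1⟩ fun _ => 1
  have he' : (c.g i none).linear e = 1 := he (i, none) (Finset.mem_singleton_self _)
  intro y
  by_cases hy : c.g i none y = 0
  · have t : Tendsto (fun t : ℝ => t • e + y) (𝓝[≠] 0) (𝓝 y) := by
      have : Tendsto (fun t : ℝ => t • e + y) (𝓝 0) (𝓝 ((0 : ℝ) • e + y)) :=
        Continuous.tendsto (by fun_prop) 0
      rw [zero_smul, zero_add] at this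
      exact this.mono_left nhdsWithin_le_nhds
    refine mem_closure_of_tendsto t (eventually_mem_nhdsWithin.mono fun t ht h => ht ?_)
    have h1 := h.1
    rw [← vadd_eq_add, AffineMap.map_vadd, map_smul, he', hy] at h1
    simpa using h1
  · exact subset_closure fun h => hy h.1

/-- Approximate `y` by points of `c.U R'` inside a small ball around `y`. -/
theorem Good.mono (h : c.Good R' x s) (hR : R ⊆ R') : c.Good R x s := by
  filter_upwards [h.eventually_nhds] with y hy hO hU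
  obtain ⟨ε, hε, hb⟩ := Metric.isOpen_iff.1 (isOpen_U R) y hU
  obtain ⟨w, hw, w1, w2, w3⟩ := (dense_U (c := c) R').inter_nhds_nonempty
    (inter_mem hy (inter_mem ((isOpen_Orth s).mem_nhds hO) (ball_mem_nhds y hε)))
  exact sub_C (convex_ball y ε).isPreconnected hb w3 (C_mono hR (w1 w2 hw)) (mem_ball_self hε)

/-- Points of the ball with the same signs as a point of the cell lie in the cell. -/
theorem UGood_cls (h : c.Loc R x ρ) (ho : c.On R D x) (hy : y ∈ ball x ρ) (hy' : y' ∈ ball x ρ)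
    (hC : y ∈ c.C R)
    (hs : ∀ i ∈ D, SignType.sign (c.g i none y') = SignType.sign (c.g i none y)) :
    y' ∈ c.C R := by
  have hc := (convex_ball x ρ).inter (convex_sign (c := c) (D.image fun i => (i, none))
    fun j => SignType.sign (c.g j.1 j.2 y))
  refine sub_C hc.isPreconnected ?_ ⟨hy, fun _ _ => rfl⟩ hC ⟨hy', ?_⟩
  · rintro w ⟨w1, w2⟩
    refine (h.mem_U ho w1).2 fun i hi h0 => (h.mem_U ho hy).1 (C_sub R hC) i hi ?_
    have := w2 (i, none) (Finset.mem_image_of_mem _ hi)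
    simp only [h0, sign_zero] at this
    exact sign_eq_zero_iff.1 this.symm
  · intro j hj
    obtain ⟨i, hi, rfl⟩ := Finset.mem_image.1 hj
    exact hs i hi

theorem UGood_sign {u v ε : ℝ} (h0 : 0 < ε) (h1 : ε ≤ 1)
    (h : u = 0 ∨ SignType.sign u = SignType.sign v) :
    SignType.sign (AffineMap.lineMap u v ε) = SignType.sign v := by
  rw [AffineMap.lineMap_apply_ring]
  rcases h with rfl | h
  · simp [sign_mul, sign_pos h0]
  rcases lt_trichotomy v 0 with hv | rfl | hv
  · have hv' : SignType.sign v = -1 := sign_eq_neg_one_iff.2 hv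
    rw [hv'] at h ⊢
    have := sign_eq_neg_one_iff.1 h
    have a1 := mul_nonneg (sub_nonneg.2 h1) (neg_nonneg.2 this.le)
    have a2 := mul_pos h0 (neg_pos.2 hv)
    exact sign_eq_neg_one_iff.2 (by nlinarith)
  · rw [sign_zero, sign_eq_zero_iff] at h
    simp [h]
  · have hv' : SignType.sign v = 1 := sign_eq_one_iff.2 hv
    rw [hv'] at h ⊢
    have := sign_eq_one_iff.1 h
    have a1 := mul_nonneg (sub_nonneg.2 h1) this.le
    have a2 := mul_pos h0 hv
    exact sign_eq_one_iff.2 (by nlinarith)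

/-- A good side of a point `y` of the ball is seen from `y'`. -/
theorem UGood_from (hg : c.Good R y s) (h : c.Loc R x ρ) (ho : c.On R D x) (hs : supp s ⊆ D)
    (hy : y ∈ ball x ρ) (hy' : y' ∈ ball x ρ) (hO : y' ∈ c.Orth s) (hU : y' ∈ c.U R)
    (hD : ∀ i ∈ D, c.g i none y = 0 ∨
      SignType.sign (c.g i none y) = SignType.sign (c.g i none y')) : y' ∈ c.C R := by
  have t : Tendsto (fun ε : ℝ => AffineMap.lineMap y y' ε) (𝓝[>] 0) (𝓝 y) := by
    have : Tendsto (fun ε : ℝ => AffineMap.lineMap y y' ε) (𝓝 0)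
        (𝓝 (AffineMap.lineMap y y' (0 : ℝ))) := AffineMap.lineMap_continuous.tendsto 0
    rw [AffineMap.lineMap_apply_zero] at this
    exact this.mono_left nhdsWithin_le_nhds
  obtain ⟨ε, ⟨e1, e2⟩, e3⟩ := ((show ∀ᶠ ε : ℝ in 𝓝[>] 0, ε ∈ Ioo (0 : ℝ) 1 from
    Ioo_mem_nhdsGT one_pos).and (t.eventually hg)).exists
  have hb : AffineMap.lineMap y y' ε ∈ ball x ρ :=
    (convex_ball x ρ).lineMap_mem hy hy' ⟨e1.le, e2.le⟩
  have hsg : ∀ i ∈ D, SignType.sign (c.g i none (AffineMap.lineMap y y' ε)) =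
      SignType.sign (c.g i none y') := fun i hi => by
    rw [AffineMap.apply_lineMap]
    exact UGood_sign e1 e2.le (hD i hi)
  refine UGood_cls h ho hb hy' (e3 (fun i hi => ?_) ?_) fun i hi => (hsg i hi).symm
  · rw [hsg i (hs (mem_supp.2 hi))]; exact hO i hi
  · refine (h.mem_U ho hb).2 fun i hi h0 => (h.mem_U ho hy').1 hU i hi ?_
    have := hsg i hi
    rw [h0, sign_zero] at this
    exact sign_eq_zero_iff.1 this.symm

/-- One point of a full orthant decides.  (The points `x + ε (y - x)` have the same signs as `y`,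
and the sign class in the ball is convex.) -/
theorem good_of_mem (h : c.Loc R x ρ) (ho : c.On R D x) (hs : supp s = D) (hy : y ∈ ball x ρ)
    (hO : y ∈ c.Orth s) (hC : y ∈ c.C R) : c.Good R x s := by
  filter_upwards [ball_mem_nhds x h.1] with w hw wO _
  refine UGood_cls h ho hy hw hC fun i hi => ?_
  have : s i ≠ 0 := mem_supp.1 (hs ▸ hi)
  rw [wO i this, hO i this]

theorem Good.mem (hg : c.Good R x s) (h : c.Loc R x ρ) (ho : c.On R D x) (hs : supp s ⊆ D)
    (hy : y ∈ ball x ρ) (hO : y ∈ c.Orth s) (hU : y ∈ c.U R) : y ∈ c.C R := by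
  exact UGood_from hg h ho hs (mem_ball_self h.1) hy hO hU fun i hi => Or.inl (ho.2.1 i hi).1

/-- The side `s` of a point `y` near `x` is the side `s'` of `x`.
`→`: for `y'` in the ball, in `Orth s'` and in `U`, the points `y + ε (y' - y)` have the same signs
on `D` as `y'`.  `←`: `Good.mem`. -/
theorem good_local (h : c.Loc R x ρ) (ho : c.On R D x) (hy : y ∈ ball x ρ) (hs : supp s ⊆ D)
    (hs' : supp s' ⊆ D) (h0 : ∀ i ∈ D, c.g i none y = 0 → s' i = s i)
    (h1 : ∀ i ∈ D, c.g i none y ≠ 0 → s i = 0 ∧ s' i = SignType.sign (c.g i none y)) :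
    c.Good R y s ↔ c.Good R x s' := by
  constructor
  · intro hg
    filter_upwards [ball_mem_nhds x h.1] with w hw wO wU
    refine UGood_from hg h ho hs hy hw (fun i hi => ?_) wU fun i hi => ?_
    · have hD := hs (mem_supp.2 hi)
      have : s' i = s i := h0 i hD (by_contra fun hne => hi (h1 i hD hne).1)
      rw [← this]
      exact wO i (this ▸ hi)
    · by_cases hz : c.g i none y = 0
      · exact Or.inl hz
      · right
        have := (h1 i hi hz).2
        rw [← this]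
        exact (wO i (this ▸ sign_ne_zero.2 hz)).symm
  · intro hg
    have e1 : y ∈ c.Orth fun i => SignType.sign (c.g i none y) := fun _ _ => rfl
    filter_upwards [isOpen_ball.mem_nhds hy, (isOpen_Orth _).mem_nhds e1] with w hw w1 wO wU
    refine hg.mem h ho hs' hw (fun i hi => ?_) wU
    have hD := hs' (mem_supp.2 hi)
    by_cases hz : c.g i none y = 0
    · rw [h0 i hD hz] at hi ⊢
      exact wO i hi
    · rw [(h1 i hD hz).2]
      exact w1 i (sign_ne_zero.2 hz)

/-- Goodness is constant along a face. -/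
theorem good_slide {γ : Set E} (hγ : IsPreconnected γ) (ho : ∀ y ∈ γ, c.On R D y)
    (hs : supp s ⊆ D) (hy : y ∈ γ) (hy' : y' ∈ γ) (hg : c.Good R y s) : c.Good R y' s := by
  refine (hγ.induction₂' (fun a b => c.Good R a s → c.Good R b s) (fun a ha => ?_)
    (fun _ _ _ _ _ _ h1 h2 h => h2 (h1 h)) hy hy') hg
  obtain ⟨ρ, hρ⟩ := exists_loc (c := c) R a
  filter_upwards [mem_nhdsWithin_of_mem_nhds (ball_mem_nhds a hρ.1), self_mem_nhdsWithin]
    with b hb hbγ
  have := good_local hρ (ho a ha) hb hs hs (fun _ _ _ => rfl)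
    fun i hi h => absurd ((ho b hbγ).2.1 i hi).1 h
  exact ⟨this.2, this.1⟩

/-- Both sides of the patch `i` are good. -/
theorem good_both (ho : c.On R D x) (hi : i ∈ D) (hs : s i ≠ 0) (h : c.Good R x s)
    (h' : c.Good R x (Function.update s i (-s i))) : c.Good R x (Function.update s i 0) := by
  obtain ⟨ρ, hρ⟩ := exists_loc (c := c) R x
  filter_upwards [ball_mem_nhds x hρ.1, h, h'] with w hw w1 w2 wO wU
  have hz : SignType.sign (c.g i none w) ≠ 0 := sign_ne_zero.2 ((hρ.mem_U ho hw).1 wU i hi)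
  have oth : ∀ j, j ≠ i → s j ≠ 0 → SignType.sign (c.g j none w) = s j := fun j hj h0 => by
    have := wO j (by rwa [Function.update_of_ne hj])
    rwa [Function.update_of_ne hj] at this
  by_cases e : SignType.sign (c.g i none w) = s i
  · refine w1 (fun j hj => ?_) wU
    by_cases hji : j = i
    · rw [hji]; exact e
    · exact oth j hji hj
  · refine w2 (fun j hj => ?_) wU
    by_cases hji : j = i
    · subst hji
      rw [Function.update_self]
      revert e hz hs
      generalize SignType.sign (c.g j none w) = a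
      generalize s j = b
      revert a b
      decide
    · rw [Function.update_of_ne hji] at hj ⊢
      exact oth j hji hj

/-- More sign conditions. -/
theorem Good.refine (h : c.Good R x s) (hs : ∀ i, s i ≠ 0 → s' i = s i) : c.Good R x s' := by
  filter_upwards [h] with w hw wO wU
  refine hw (fun i hi => ?_) wU
  rw [← hs i hi]
  exact wO i (by rwa [hs i hi])

end Ctx

end SC
end

-- merged part: Pool.Agent.Work.MP_8a5de9_co.UEdge
section
/-!
# Edges at an inner vertex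

Use `adm_hyp` with `solve`, `ker`, `kerz`.  Two edge vectors of the same edge are positive multiples
of each other.  `orth_above`: `y - v` is a combination of edge vectors with positive coefficients
(the difference is killed by all equations of `t.1`).
-/

open Set Filter Topology Metric

namespace SC

variable {E ι μ : Type} [NormedAddCommGroup E] [NormedSpace ℝ E] [FiniteDimensional ℝ E]
  [Fintype ι] [DecidableEq ι] [Fintype μ] [DecidableEq μ]

namespace Ctx

variable {c : Ctx E ι μ} {R R' D : Finset ι} {x y y' : E} {ρ : ℝ} {s s' : ι → SignType} {t : Tu ι} {i : ι}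
  {k : ℕ}

theorem UEdge_solve (h : c.Inner D) (r : ι → ℝ) : ∃ e, ∀ j ∈ D, (c.g j none).linear e = r j := by
  obtain ⟨e, he⟩ := c.solve (adm_hyp fun j hj => (h.2 j hj).1).1 fun j => r j.1
  exact ⟨e, fun j hj => he (j, none) (Finset.mem_image_of_mem _ hj)⟩

theorem UEdge_ker (h : c.Inner D) {e : E} (he : ∀ j ∈ D, (c.g j none).linear e = 0) : e = 0 := by
  obtain ⟨h1, h2⟩ := adm_hyp fun j hj => (h.2 j hj).1
  refine c.ker h1 (h2.trans h.1) fun j hj => ?_
  obtain ⟨l, hl, rfl⟩ := Finset.mem_image.1 hj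
  exact he l hl

theorem UEdge_kerz (h : c.Inner D) (hi : i ∈ D) {e : E}
    (he : ∀ j ∈ D, j ≠ i → (c.g j none).linear e = 0) (hz : c.z e = 0) : e = 0 := by
  obtain ⟨h1, h2⟩ := adm_hyp (D := D.erase i) fun j hj => (h.2 j (Finset.mem_of_mem_erase hj)).1
  refine c.kerz h1 (by rw [h2, Finset.card_erase_add_one hi, h.1]) (fun j hj => ?_) hz
  obtain ⟨l, hl, rfl⟩ := Finset.mem_image.1 hj
  exact he l (Finset.mem_of_mem_erase hl) (Finset.ne_of_mem_erase hl)

theorem UEdge_sign {a b : ℝ} {σ : SignType} (hσ : σ ≠ 0) (ha : SignType.sign a = σ)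
    (hb : SignType.sign b = σ) : 0 < a * b := by
  rw [← sign_eq_one_iff, sign_mul, ha, hb]
  cases σ <;> simp at hσ ⊢

theorem exists_edge (h : c.Inner t.1) (hi : i ∈ t.1) : ∃ e, c.Edge t i e := by
  obtain ⟨e, he⟩ := UEdge_solve h fun j => if j = i then (t.2 i : ℝ) else 0
  refine ⟨e, fun j hj hji => by rw [he j hj, if_neg hji], ?_⟩
  rw [he i hi, if_pos rfl]
  cases t.2 i <;> simp

theorem Edge.z_ne (h : c.Inner t.1) (hi : i ∈ t.1) (hs : t.2 i ≠ 0) {e : E} (he : c.Edge t i e) :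
    c.z e ≠ 0 :=
  fun hz => hs (by
    rw [← he.2, UEdge_kerz h hi he.1 hz, map_zero, sign_zero])

theorem Edge.up_iff (h : c.Inner t.1) (hi : i ∈ t.1) (hs : t.2 i ≠ 0) {e : E}
    (he : c.Edge t i e) : c.Up t i ↔ 0 < c.z e := by
  refine ⟨fun ⟨e', he', hz⟩ => ?_, fun hz => ⟨e, he, hz⟩⟩
  have h1 := UEdge_sign hs he.2 he'.2
  have h2 := UEdge_ker h
    (e := (c.g i none).linear e' • e - (c.g i none).linear e • e') fun j hj => by
      rw [map_sub, map_smul, map_smul, smul_eq_mul, smul_eq_mul]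
      by_cases hji : j = i
      · rw [hji]
        ring
      · rw [he.1 j hj hji, he'.1 j hj hji]
        ring
  have h3 := congrArg c.z h2
  rw [map_sub, map_smul, map_smul, map_zero, smul_eq_mul, smul_eq_mul] at h3
  have h4 : 0 < (c.g i none).linear e' ^ 2 * c.z e := by
    have h5 : (c.g i none).linear e' ^ 2 * c.z e =
        (c.g i none).linear e * (c.g i none).linear e' * c.z e' := by
      linear_combination (c.g i none).linear e' * h3
    rw [h5]
    exact mul_pos h1 hz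
  exact pos_of_mul_pos_right h4 (sq_nonneg _)

theorem up_neg (h : c.Inner t.1) (hi : i ∈ t.1) (hs : t.2 i ≠ 0) : c.neg.Up t i ↔ ¬ c.Up t i := by
  obtain ⟨e, he⟩ := exists_edge h hi
  have h1 := Edge.up_iff (c := c.neg) h hi hs he
  have h2 := he.z_ne h hi hs
  rw [h1, he.up_iff h hi hs]
  change 0 < -c.z e ↔ _
  rw [neg_pos, not_lt]
  exact ⟨le_of_lt, fun h3 => lt_of_le_of_ne h3 h2⟩

/-- The orthant of a side with all edges up lies above the vertex. -/
theorem orth_above (h : c.Inner t.1) (hs : supp t.2 = t.1) (hu : ∀ i ∈ t.1, c.Up t i)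
    (hy : y ∈ c.Orth t.2) : c.z (c.vtx t.1) < c.z y := by
  choose! e he hz using hu
  have hne : ∀ i ∈ t.1, t.2 i ≠ 0 := fun i hi => mem_supp.1 (hs ▸ hi)
  have hp : ∀ i ∈ t.1, 0 < c.g i none y * (c.g i none).linear (e i) := fun i hi =>
    UEdge_sign (hne i hi) (hy i (hne i hi)) (he i hi).2
  have h1 := UEdge_ker h (e := (y - c.vtx t.1) -
    ∑ i ∈ t.1, (c.g i none y / (c.g i none).linear (e i)) • e i) fun j hj => by
      rw [map_sub, map_sum, Finset.sum_eq_single_of_mem j hj fun i hi hij => by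
        rw [map_smul, (he i hi).1 j hj hij.symm, smul_zero], map_smul, smul_eq_mul,
        div_mul_cancel₀ _ (right_ne_zero_of_mul (hp j hj).ne'), ← vsub_eq_sub y,
        AffineMap.linearMap_vsub, (h.2 j hj).1, vsub_eq_sub, sub_zero, sub_self]
  have h2 := congrArg c.z h1
  rw [map_sub, map_sub, map_sum, map_zero, sub_eq_zero] at h2
  rw [← sub_pos, h2]
  refine Finset.sum_pos (fun i hi => ?_) (Finset.card_pos.1 (by have := c.d3; rw [h.1]; omega))
  rw [map_smul, smul_eq_mul]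
  exact mul_pos (div_pos_iff.2 (mul_pos_iff.1 (hp i hi))) (hz i hi)

end Ctx

end SC
end

-- merged part: Pool.Agent.Work.MP_8a5de9_co.ULoc
section

end

-- merged part: Pool.Agent.Work.MP_8a5de9_co.USweepA
section
/-!
# Sweeping: a component only changes at outer vertices

`descent`.  Take `ρ` from `exists_loc`.  If `|act w| < d` use `u` from `zgen` (`Loc.same`: the signs
of the active equations do not change along `u`).  Otherwise `|act w| = d` (`card_le`) and, as `w`
is not an outer vertex, `act w = D × {none}` and `On R D w`.  On the connected set `γ` the signs of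
the equations of `D` are constant and nonzero (`Loc.mem_U`), say `σ`.  For every pattern `σ` for
which some `u` with `z u = 1` and `sign (lin_i u) = -σ i` for all `i ∈ D` exists choose one; `Λ`
bounds these finitely many vectors.  For `γ` the vector `(w - y) / (z w - z y)` shows existence.

`Clo.bounded`.  Let `H = closedBall 0 M` contain all patches, `x ∈ A \ H`.  Take `u₀ ≠ 0` with
`z u₀ = 0` (`ker2`-like, or rank-nullity; `d ≥ 3`) and `u₁` with `z u₁ = 1` (`zgen ∅`).  One of the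
two rays `x ± s u₀` misses the convex set `H`; go far along it and then down along `-u₁`, which
misses `H`, to the height `b`.  The path stays in `U ∩ {z < t}`, hence in `A` (`Clo.sub`).
-/

open Set Filter Topology Metric

namespace SC

variable {E ι μ : Type} [NormedAddCommGroup E] [NormedSpace ℝ E] [FiniteDimensional ℝ E]
  [Fintype ι] [DecidableEq ι] [Fintype μ] [DecidableEq μ]

namespace Ctx

variable (c : Ctx E ι μ)

/-- `A` is open and closed in the part of the complement below the height `t`. -/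
structure Clo (R : Finset ι) (t : ℝ) (A : Set E) : Prop where
  sub : ∀ x ∈ A, x ∈ c.U R ∧ c.z x < t
  op : IsOpen A
  cl : ∀ x ∈ closure A, x ∈ c.U R → c.z x < t → x ∈ A

variable {c} {R : Finset ι} {t : ℝ} {A : Set E}

theorem Clo.pre (h : c.Clo R t A) {γ : Set E} (hγ : IsPreconnected γ)
    (hU : ∀ x ∈ γ, x ∈ c.U R ∧ c.z x < t) {y : E} (hy : y ∈ γ) (hA : y ∈ A) : γ ⊆ A :=
  hγ.subset_of_closure_inter_subset h.op ⟨y, hy, hA⟩ fun x hx =>
    h.cl x hx.1 (hU x hx.2).1 (hU x hx.2).2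

omit [FiniteDimensional ℝ E] in
theorem USweepA_sub (f : E →ᵃ[ℝ] ℝ) (x u : E) (s : ℝ) : f (x - s • u) = f x - s * f.linear u := by
  have := f.map_vadd x (-(s • u))
  rw [vadd_eq_add, vadd_eq_add, map_neg, map_smul, smul_eq_mul] at this
  rw [sub_eq_neg_add, this]
  ring

omit [FiniteDimensional ℝ E] in
theorem USweepA_lin (f : E →ᵃ[ℝ] ℝ) (x y : E) : f.linear (x - y) = f x - f y :=
  f.linearMap_vsub x y

theorem USweepA_on {w : E} {ρ : ℝ} {D : Finset ι} (hρ : c.Loc R w ρ) (ho : c.On R D w) :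
    ∃ Λ : ℝ, ∀ γ ⊆ c.U R ∩ ball w ρ, IsPreconnected γ → (∃ y ∈ γ, c.z y < c.z w) →
      ∃ u, c.z u = 1 ∧ ‖u‖ ≤ Λ ∧
        ∀ x ∈ γ, ∀ s : ℝ, 0 ≤ s → x - s • u ∈ ball w ρ → x - s • u ∈ c.U R := by
  let P : Finset ι → E → Prop := fun T u => c.z u = 1 ∧ ∀ i ∈ D,
    (i ∈ T → (c.g i none).linear u < 0) ∧ (i ∉ T → 0 < (c.g i none).linear u)
  have hf : ∀ T, ∃ u, (∃ v, P T v) → P T u := fun T => by
    by_cases h : ∃ v, P T v
    · exact ⟨h.choose, fun _ => h.choose_spec⟩
    · exact ⟨0, fun h' => absurd h' h⟩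
  choose f hf using hf
  refine ⟨∑ T, ‖f T‖, fun γ hγ hc ⟨y, hy, hz⟩ => ?_⟩
  have hne : ∀ i ∈ D, ∀ x ∈ γ, c.g i none x ≠ 0 := fun i hi x hx =>
    (hρ.mem_U ho (hγ hx).2).1 (hγ hx).1 i hi
  obtain ⟨T, hT⟩ : ∃ T : Finset ι, ∀ i, i ∈ T ↔ 0 < c.g i none y :=
    ⟨Finset.univ.filter fun i => 0 < c.g i none y, fun i => by simp⟩
  have hp : 0 < (c.z w - c.z y)⁻¹ := inv_pos.2 (sub_pos.2 hz)
  obtain ⟨h1, h2⟩ := hf T ⟨(c.z w - c.z y)⁻¹ • (w - y), by
    rw [map_smul, map_sub, smul_eq_mul, inv_mul_cancel₀ (sub_pos.2 hz).ne'], fun i hi => by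
    rw [map_smul, USweepA_lin, (ho.2.1 i hi).1, zero_sub, smul_eq_mul, hT]
    exact ⟨fun h => mul_neg_of_pos_of_neg hp (neg_neg_of_pos h),
      fun h => mul_pos hp (neg_pos.2 (lt_of_le_of_ne (not_lt.1 h) (hne i hi y hy)))⟩⟩
  refine ⟨f T, h1, Finset.single_le_sum (f := fun T => ‖f T‖) (fun _ _ => norm_nonneg _)
    (Finset.mem_univ T), fun x hx s hs hb => (hρ.mem_U ho hb).2 fun i hi => ?_⟩
  rw [USweepA_sub]
  have hcont := (aff_cont (c.g i none)).continuousOn (s := γ)
  by_cases h : i ∈ T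
  · have h3 : 0 < c.g i none x := hc.lt_of_ne hcont (hne i hi) ⟨y, hy, (hT i).1 h⟩ hx
    have h4 := mul_nonpos_of_nonneg_of_nonpos hs ((h2 i hi).1 h).le
    linarith
  · have h3 : c.g i none x < 0 := hc.gt_of_ne hcont (hne i hi)
      ⟨y, hy, lt_of_le_of_ne (not_lt.1 (mt (hT i).2 h)) (hne i hi y hy)⟩ hx
    have h4 := mul_nonneg hs ((h2 i hi).2 h).le
    linarith

theorem descent {w : E} (hw : ¬ c.OutV R w) :
    ∃ ρ > 0, ∃ Λ : ℝ, ∀ γ ⊆ c.U R ∩ ball w ρ, IsPreconnected γ → (∃ y ∈ γ, c.z y < c.z w) →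
      ∃ u, c.z u = 1 ∧ ‖u‖ ≤ Λ ∧
        ∀ x ∈ γ, ∀ s : ℝ, 0 ≤ s → x - s • u ∈ ball w ρ → x - s • u ∈ c.U R := by
  classical
  obtain ⟨ρ, hρ⟩ := exists_loc (c := c) R w
  refine ⟨ρ, hρ.1, ?_⟩
  have ha := adm_act (c := c) R w
  rcases (c.card_le ha).lt_or_eq with hlt | heq
  · obtain ⟨u, hu, hu'⟩ := c.zgen _ _ ha hlt
    refine ⟨‖u‖, fun γ hγ _ _ => ⟨u, hu, le_rfl, fun x hx s _ hb i hi h => ?_⟩⟩
    refine (hγ hx).1 i hi (((hρ.same (hγ hx).2 hb fun j hj => ?_) i hi).1.2 h)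
    rw [USweepA_sub, hu' j hj, mul_zero, sub_zero]
  · refine USweepA_on (D := R.filter fun i => w ∈ patch c.g i) hρ
      ⟨Finset.filter_subset _ _, fun i hi => ?_, fun i hi h h' => h (Finset.mem_filter.2 ⟨hi, h'⟩)⟩
    obtain ⟨h1, h2⟩ := Finset.mem_filter.1 hi
    refine ⟨h2.1, fun l => lt_of_le_of_ne (h2.2 l) fun h0 => hw ?_⟩
    exact mem_OutS.2 ⟨fun j hj => (mem_act.1 hj).1, heq, ⟨w, ha⟩, (i, some l),
      mem_act.2 ⟨h1, h2, h0.symm⟩, Option.some_ne_none l⟩

omit [FiniteDimensional ℝ E] in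
theorem USweepA_ray {H : Set E} (hH : Convex ℝ H) {x : E} (hx : x ∉ H) (v : E) :
    (∀ s : ℝ, 0 ≤ s → x - s • v ∉ H) ∨ ∀ s : ℝ, 0 ≤ s → x - s • (-v) ∉ H := by
  by_contra h
  push Not at h
  obtain ⟨⟨s, hs, h1⟩, r, hr, h2⟩ := h
  rcases hs.eq_or_lt with rfl | hs'
  · exact hx (by simpa using h1)
  have hp : 0 < s + r := by linarith
  have := hH h1 h2 (a := r / (s + r)) (b := s / (s + r)) (by positivity) (by positivity)
    (by field_simp; ring)
  refine hx ?_
  convert this using 1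
  have e : r / (s + r) + s / (s + r) = 1 := by field_simp; ring
  rw [smul_neg, sub_neg_eq_add, smul_sub, smul_add, smul_smul, smul_smul,
    show s / (s + r) * r = r / (s + r) * s by ring, sub_add_add_cancel, ← add_smul, e, one_smul]

theorem USweepA_move (h : c.Clo R t A) {x u : E} (hx : x ∈ A) (hu : 0 ≤ c.z u) {L : ℝ}
    (hL : 0 ≤ L) (hU : ∀ s, 0 ≤ s → s ≤ L → x - s • u ∈ c.U R) : x - L • u ∈ A := by
  refine h.pre (γ := (fun s : ℝ => x - s • u) '' Icc 0 L)
    (isPreconnected_Icc.image _ (by fun_prop)) ?_ ⟨0, ⟨le_rfl, hL⟩, by simp⟩ hx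
    ⟨L, ⟨hL, le_rfl⟩, rfl⟩
  rintro _ ⟨s, hs, rfl⟩
  refine ⟨hU s hs.1 hs.2, ?_⟩
  have h1 := (h.sub x hx).2
  have h2 := mul_nonneg hs.1 hu
  simp only [map_sub, map_smul, smul_eq_mul]
  linarith

theorem Clo.bounded (h : c.Clo R t A) {b : ℝ} (hb : ∀ x ∈ A, b < c.z x) :
    Bornology.IsBounded A := by
  obtain ⟨M, hM⟩ := ((Bornology.isBounded_iUnion (s := fun i => patch c.g i)).2
    c.bdd).subset_closedBall 0
  have hU : ∀ x, x ∉ closedBall (0 : E) M → x ∈ c.U R := fun x hx i _ hi =>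
    hx (hM (mem_iUnion.2 ⟨i, hi⟩))
  refine (isBounded_closedBall (x := 0) (r := M)).subset fun x hx => ?_
  by_contra hxM
  obtain ⟨u, hu, -⟩ := c.zgen ∅ x ⟨by simp, by simp⟩ (by have := c.d3; simp; omega)
  obtain ⟨v, hv0, hvz, hv⟩ : ∃ v : E, v ≠ 0 ∧ c.z v = 0 ∧
      ∀ s : ℝ, 0 ≤ s → x - s • v ∉ closedBall (0 : E) M := by
    obtain ⟨v, hv, hv0⟩ := (Submodule.ne_bot_iff _).1 (LinearMap.ker_ne_bot_of_finrank_lt
      (f := c.z) (by have := c.d3; rw [c.dim, Module.finrank_self]; omega))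
    rcases USweepA_ray (convex_closedBall 0 M) hxM v with h1 | h1
    · exact ⟨v, hv0, hv, h1⟩
    · exact ⟨-v, neg_ne_zero.2 hv0, by rw [map_neg, LinearMap.mem_ker.1 hv, neg_zero], h1⟩
  have hL : 0 ≤ c.z x - b := (sub_pos.2 (hb x hx)).le
  have hv1 : 0 < ‖v‖ := norm_pos_iff.2 hv0
  set S := (|M| + (c.z x - b) * ‖u‖ + ‖x‖ + 1) / ‖v‖ with hS
  have hS0 : 0 ≤ S := by positivity
  have h1 := USweepA_move h hx hvz.ge hS0 fun s hs _ => hU _ (hv s hs)
  have h2 := USweepA_move (u := u) h h1 (by rw [hu]; exact zero_le_one) hL fun s hs hs' =>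
    hU _ fun hm => by
      rw [mem_closedBall_zero_iff] at hm
      have e : S • v = x - (x - S • v - s • u) - s • u := by abel
      have h3 : ‖S • v‖ ≤ ‖x‖ + ‖x - S • v - s • u‖ + ‖s • u‖ := by
        conv_lhs => rw [e]
        exact (norm_sub_le _ _).trans (add_le_add_left (norm_sub_le _ _) _)
      rw [norm_smul, norm_smul, Real.norm_of_nonneg hS0, Real.norm_of_nonneg hs, hS,
        div_mul_cancel₀ _ hv1.ne', ← hS] at h3
      have h4 := mul_le_mul_of_nonneg_right hs' (norm_nonneg u)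
      have h5 := le_abs_self M
      linarith
  have h3 := hb _ h2
  simp only [map_sub, map_smul, smul_eq_mul, hu, hvz] at h3
  linarith

end Ctx

end SC
end

-- merged part: Pool.Agent.Work.MP_8a5de9_co.USweep
section
/-!
# Extending a component across a level without outer vertices

`Clo.extend`.  `K = closure A ∩ {z = t}` is compact.  For `w ∈ K` take `ρ_w, Λ_w` from `descent`;
cover `K` by finitely many balls `ball w (ρ_w / 4)`, let `δ > 0` be below all `ρ_w / 4`, `Λ` above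
all `Λ_w`, and `t' > t` with `(t' - t) Λ < δ`.  Put
`A' = {x ∈ U, z x < t', ∃ y ∈ A, segment x y ⊆ U ∧ dist x y < δ}`.  It is open (a segment is
compact, `U` is open), and `A' ∩ {z < t} = A` by `Clo.sub`.  Closedness at `x ∈ U`,
`t ≤ z x < t'`: take `x₁ ∈ A'` in a small ball around `x` inside `U ∩ {z < t'}` (radius `< δ`).  If
`z x₁ < t` then `x₁ ∈ A` works.  Otherwise the segment from `x₁` to its `y₁ ∈ A` meets `{z = t}` in
a point of `K`, which lies in some `ball w (ρ_w / 4)`; then `γ = [x, x₁] ∪ [x₁, y₁]` lies in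
`ball w (3 ρ_w / 4)`; with `u` from `descent` and `s = t' - t` the translate `γ - s u` lies in
`U ∩ {z < t}`, and so does the segment from `y₁ - s u` to `y₁`, so `y = x - s u ∈ A`, the segment
from `x` to `y` lies in `U` and `dist x y < δ`.
-/

open Set Filter Topology Metric

namespace SC

variable {E ι μ : Type} [NormedAddCommGroup E] [NormedSpace ℝ E] [FiniteDimensional ℝ E]
  [Fintype ι] [DecidableEq ι] [Fintype μ] [DecidableEq μ]

namespace Ctx

variable {c : Ctx E ι μ} {R : Finset ι} {t : ℝ} {A : Set E}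

theorem USweep_open (c : Ctx E ι μ) (R : Finset ι) : IsOpen (c.U R) := by
  have e : c.U R = ⋂ i ∈ R, (patch c.g i)ᶜ := by
    ext x
    simp [U]
  rw [e]
  exact isOpen_biInter_finset fun i _ => (isClosed_patch c.g i).isOpen_compl

theorem USweep_lt (c : Ctx E ι μ) (r : ℝ) : Convex ℝ {x | c.z x < r} :=
  convex_halfSpace_lt c.z.isLinear r

theorem USweep_seg {p u q : E} {s₀ : ℝ} (h0 : 0 ≤ s₀) (hq : q ∈ segment ℝ p (p - s₀ • u)) :
    ∃ s, 0 ≤ s ∧ s ≤ s₀ ∧ q = p - s • u := by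
  obtain ⟨a, b, ha, hb, hab, rfl⟩ := hq
  refine ⟨b * s₀, mul_nonneg hb h0, mul_le_of_le_one_left h0 (by linarith), ?_⟩
  rw [smul_sub, ← add_sub_assoc, ← add_smul, hab, one_smul, smul_smul]

/-- Uniform descent data on a set. -/
def USweep_P (c : Ctx E ι μ) (R : Finset ι) (t : ℝ) (k : E) (δ Λ : ℝ) : Prop :=
  ∀ γ ⊆ c.U R ∩ ball k δ, IsPreconnected γ → (∃ y ∈ γ, c.z y < t) →
    ∃ u, c.z u = 1 ∧ ‖u‖ ≤ Λ ∧
      ∀ x ∈ γ, ∀ s : ℝ, 0 ≤ s → x - s • u ∈ ball k δ → x - s • u ∈ c.U R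

theorem USweep_P.mono {k k' : E} {δ δ' Λ Λ' : ℝ} (h : USweep_P c R t k δ Λ)
    (hb : ball k' δ' ⊆ ball k δ) (hΛ : Λ ≤ Λ') : USweep_P c R t k' δ' Λ' := by
  intro γ hγ hp hy
  obtain ⟨u, h1, h2, h3⟩ := h γ (hγ.trans (inter_subset_inter_right _ hb)) hp hy
  exact ⟨u, h1, h2.trans hΛ, fun x hx s hs hm => h3 x hx s hs (hb hm)⟩

theorem USweep_unif {K : Set E} (hK : IsCompact K) (hw : ∀ w ∈ K, c.z w = t ∧ ¬ c.OutV R w) :
    ∃ δ > 0, ∃ Λ > 0, ∀ k ∈ K, USweep_P c R t k δ Λ := by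
  refine hK.induction_on (p := fun S => ∃ δ > 0, ∃ Λ > 0, ∀ k ∈ S, USweep_P c R t k δ Λ)
    ⟨1, one_pos, 1, one_pos, fun _ h => h.elim⟩ ?_ ?_ ?_
  · rintro S T hST ⟨δ, hδ, Λ, hΛ, h⟩
    exact ⟨δ, hδ, Λ, hΛ, fun k hk => h k (hST hk)⟩
  · rintro S T ⟨δ, hδ, Λ, hΛ, h⟩ ⟨δ', hδ', Λ', hΛ', h'⟩
    refine ⟨min δ δ', lt_min hδ hδ', max Λ Λ', lt_max_of_lt_left hΛ, fun k hk => ?_⟩
    rcases hk with hk | hk
    · exact (h k hk).mono (ball_subset_ball (min_le_left _ _)) (le_max_left _ _)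
    · exact (h' k hk).mono (ball_subset_ball (min_le_right _ _)) (le_max_right _ _)
  · intro w hwK
    obtain ⟨ρ, hρ, Λ, h⟩ := descent (hw w hwK).2
    rw [(hw w hwK).1] at h
    refine ⟨ball w (ρ / 2), mem_nhdsWithin_of_mem_nhds (ball_mem_nhds w (half_pos hρ)), ρ / 2,
      half_pos hρ, max Λ 1, lt_max_of_lt_right one_pos, fun k hk => ?_⟩
    refine USweep_P.mono (k := w) (δ := ρ) h (ball_subset_ball' ?_) (le_max_left _ _)
    have := mem_ball.1 hk
    linarith

theorem USweep_cross (h : c.Clo R t A) {x y : E} (hy : y ∈ A) (hx : t ≤ c.z x)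
    (hs : segment ℝ x y ⊆ c.U R) : ∃ k ∈ segment ℝ x y, k ∈ closure A ∧ c.z k = t := by
  have hy' := (h.sub y hy).2
  obtain ⟨k, hk, hz⟩ : ∃ k ∈ segment ℝ x y, c.z k = t := by
    have h1 : t ∈ segment ℝ (c.z x) (c.z y) := by
      rw [segment_symm, segment_eq_Icc (by linarith)]
      exact ⟨hy'.le, hx⟩
    obtain ⟨a, b, ha, hb, hab, e⟩ := h1
    exact ⟨a • x + b • y, ⟨a, b, ha, hb, hab, rfl⟩, by rw [map_add, map_smul, map_smul, e]⟩
  have hsub : segment ℝ k y ⊆ segment ℝ x y :=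
    (convex_segment x y).segment_subset hk (right_mem_segment _ _ _)
  have hA : segment ℝ k y ∩ {p | c.z p < t} ⊆ A :=
    h.pre ((convex_segment k y).inter (USweep_lt c t)).isPreconnected
      (fun p hp => ⟨hs (hsub hp.1), hp.2⟩) ⟨right_mem_segment _ _ _, hy'⟩ hy
  refine ⟨k, hk, closure_mono (fun p hp => hA ⟨openSegment_subset_segment _ _ _ hp, ?_⟩)
    (segment_subset_closure_openSegment (left_mem_segment ℝ k y)), hz⟩
  obtain ⟨a, b, ha, hb, hab, rfl⟩ := hp
  change c.z (a • k + b • y) < t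
  rw [map_add, map_smul, map_smul, hz, smul_eq_mul, smul_eq_mul]
  have := mul_lt_mul_of_pos_left hy' hb
  have e : t = a * t + b * t := by rw [← add_mul, hab, one_mul]
  linarith

theorem USweep_nhds {V : Set E} (hV : IsOpen V) {x y : E} (hs : segment ℝ x y ⊆ V) :
    ∀ᶠ x' in 𝓝 x, segment ℝ x' y ⊆ V := by
  have hc : IsCompact (segment ℝ x y) := by
    rw [segment_eq_image]
    exact isCompact_Icc.image (by fun_prop)
  obtain ⟨ε, hε, hth⟩ := hc.exists_thickening_subset_open hV hs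
  filter_upwards [ball_mem_nhds x hε] with x' hx'
  rintro _ ⟨a, b, ha, hb, hab, rfl⟩
  refine hth (mem_thickening_iff.2 ⟨a • x + b • y, ⟨a, b, ha, hb, hab, rfl⟩, ?_⟩)
  rw [dist_add_right, dist_smul₀, Real.norm_of_nonneg ha]
  exact (mul_le_of_le_one_left dist_nonneg (by linarith)).trans_lt hx'

theorem Clo.extend (h : c.Clo R t A) (hb : Bornology.IsBounded A)
    (hw : ∀ w ∈ closure A, c.z w = t → ¬ c.OutV R w) :
    ∃ t' > t, ∃ A', c.Clo R t' A' ∧ ∀ x, c.z x < t → (x ∈ A' ↔ x ∈ A) := by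
  have hK : IsCompact (closure A ∩ {w | c.z w = t}) :=
    hb.isCompact_closure.inter_right (isClosed_eq c.z_cont continuous_const)
  obtain ⟨δ₀, hδ₀, Λ, hΛ, hP⟩ := USweep_unif (c := c) (R := R) (t := t) hK
    fun w hw' => ⟨hw'.2, hw w hw'.1 hw'.2⟩
  obtain ⟨δ, hδ, rfl⟩ : ∃ δ > 0, δ₀ = 3 * δ := ⟨δ₀ / 3, by positivity, by ring⟩
  obtain ⟨s₀, hs₀, hsΛ⟩ : ∃ s₀ > 0, s₀ * Λ < δ := ⟨δ / (2 * Λ), by positivity, by
    rw [div_mul_eq_mul_div, mul_div_mul_right _ _ hΛ.ne']
    linarith⟩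
  have hO : IsOpen (c.U R ∩ {x | c.z x < t + s₀}) :=
    (USweep_open c R).inter (isOpen_lt c.z_cont continuous_const)
  let A' : Set E := {x | (x ∈ c.U R ∧ c.z x < t + s₀) ∧
    ∃ y ∈ A, segment ℝ x y ⊆ c.U R ∧ dist x y < δ}
  have hlow : ∀ x, c.z x < t → (x ∈ A' ↔ x ∈ A) := fun x hx => by
    constructor
    · rintro ⟨-, y, hy, hs, -⟩
      exact h.pre (convex_segment x y).isPreconnected
        (fun p hp => ⟨hs hp, (USweep_lt c t).segment_subset hx (h.sub y hy).2 hp⟩)
        (right_mem_segment _ _ _) hy (left_mem_segment _ _ _)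
    · intro hA
      refine ⟨⟨(h.sub x hA).1, by linarith⟩, x, hA, ?_, by rwa [dist_self]⟩
      rw [segment_same]
      exact singleton_subset_iff.2 (h.sub x hA).1
  refine ⟨t + s₀, by linarith, A', ⟨fun x hx => hx.1, ?_, fun x hx hU hz => ?_⟩, hlow⟩
  · refine isOpen_iff_mem_nhds.2 ?_
    rintro x ⟨h1, y, hy, hs, hd⟩
    filter_upwards [hO.mem_nhds h1, USweep_nhds (USweep_open c R) hs,
      isOpen_ball.mem_nhds (mem_ball.2 hd)] with x' a1 a2 a3
    exact ⟨a1, y, hy, a2, a3⟩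
  obtain ⟨ε, hε, hball⟩ := Metric.isOpen_iff.1 hO x ⟨hU, hz⟩
  obtain ⟨x₁, hx₁, hd₁⟩ := Metric.mem_closure_iff.1 hx (min ε δ) (lt_min hε hδ)
  have hdε : dist x x₁ < ε := hd₁.trans_le (min_le_left _ _)
  have hdδ : dist x x₁ < δ := hd₁.trans_le (min_le_right _ _)
  have hseg : segment ℝ x x₁ ⊆ c.U R ∩ {x | c.z x < t + s₀} :=
    ((convex_ball x ε).segment_subset (mem_ball_self hε) (mem_ball'.2 hdε)).trans hball
  rcases lt_or_ge (c.z x₁) t with hlt | hge
  · exact ⟨⟨hU, hz⟩, x₁, (hlow x₁ hlt).1 hx₁, fun p hp => (hseg hp).1, hdδ⟩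
  obtain ⟨⟨hU₁, hz₁⟩, y₁, hy₁, hs₁, hd₂⟩ := hx₁
  have hzy := (h.sub y₁ hy₁).2
  obtain ⟨k, hk, hkA, hkz⟩ := USweep_cross h hy₁ hge hs₁
  have hdk := dist_add_dist_of_mem_segment hk
  have d1 : dist x₁ k < δ := by linarith [dist_nonneg (x := k) (y := y₁)]
  have d2 : dist k y₁ < δ := by linarith [dist_nonneg (x := x₁) (y := k)]
  have b0 : x ∈ ball k (2 * δ) := mem_ball.2 (by linarith [dist_triangle x x₁ k])
  have b1 : x₁ ∈ ball k (2 * δ) := mem_ball.2 (by linarith)
  have b2 : y₁ ∈ ball k (2 * δ) := mem_ball'.2 (by linarith)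
  have g1 : segment ℝ x x₁ ∪ segment ℝ x₁ y₁ ⊆ ball k (2 * δ) :=
    union_subset ((convex_ball k _).segment_subset b0 b1) ((convex_ball k _).segment_subset b1 b2)
  have g2 : segment ℝ x x₁ ∪ segment ℝ x₁ y₁ ⊆ c.U R :=
    union_subset (fun p hp => (hseg hp).1) hs₁
  have g3 : segment ℝ x x₁ ∪ segment ℝ x₁ y₁ ⊆ {x | c.z x < t + s₀} :=
    union_subset (fun p hp => (hseg hp).2)
      ((USweep_lt c _).segment_subset hz₁ (show c.z y₁ < t + s₀ by linarith))
  have g4 : IsPreconnected (segment ℝ x x₁ ∪ segment ℝ x₁ y₁) :=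
    (convex_segment x x₁).isPreconnected.union x₁ (right_mem_segment _ _ _)
      (left_mem_segment _ _ _) (convex_segment x₁ y₁).isPreconnected
  have mx : x ∈ segment ℝ x x₁ ∪ segment ℝ x₁ y₁ := Or.inl (left_mem_segment _ _ _)
  have my : y₁ ∈ segment ℝ x x₁ ∪ segment ℝ x₁ y₁ := Or.inr (right_mem_segment _ _ _)
  obtain ⟨u, hu1, huΛ, hu⟩ := hP k ⟨hkA, hkz⟩ _
    (subset_inter g2 (g1.trans (ball_subset_ball (by linarith)))) g4 ⟨y₁, my, hzy⟩
  have hn : ∀ s, 0 ≤ s → s ≤ s₀ → ‖s • u‖ < δ := fun s h0 h1 => by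
    rw [norm_smul, Real.norm_of_nonneg h0]
    exact (mul_le_mul h1 huΛ (norm_nonneg u) hs₀.le).trans_lt hsΛ
  have hd : ∀ p ∈ segment ℝ x x₁ ∪ segment ℝ x₁ y₁, ∀ s, 0 ≤ s → s ≤ s₀ → p - s • u ∈ c.U R :=
    fun p hp s h0 h1 => hu p hp s h0 (by
      have a1 := mem_ball.1 (g1 hp)
      have a2 : dist (p - s • u) p < δ := by
        rw [dist_eq_norm, sub_sub_cancel_left, norm_neg]
        exact hn s h0 h1
      exact mem_ball.2 (by linarith [dist_triangle (p - s • u) p k]))
  have hzs : ∀ (p : E) (s : ℝ), c.z (p - s • u) = c.z p - s := fun p s => by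
    rw [map_sub, map_smul, hu1, smul_eq_mul, mul_one]
  have a1 : y₁ - s₀ • u ∈ A := by
    refine h.pre (convex_segment y₁ (y₁ - s₀ • u)).isPreconnected (fun q hq => ?_)
      (left_mem_segment _ _ _) hy₁ (right_mem_segment _ _ _)
    obtain ⟨s, h0, h1, rfl⟩ := USweep_seg hs₀.le hq
    exact ⟨hd _ my s h0 h1, by rw [hzs]; linarith⟩
  have a2 : x - s₀ • u ∈ A := by
    refine h.pre (g4.image (fun p => p - s₀ • u) (by fun_prop)) ?_ ⟨y₁, my, rfl⟩ a1 ⟨x, mx, rfl⟩
    rintro _ ⟨p, hp, rfl⟩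
    have : c.z p < t + s₀ := g3 hp
    exact ⟨hd p hp s₀ hs₀.le le_rfl, by rw [hzs]; linarith⟩
  refine ⟨⟨hU, hz⟩, x - s₀ • u, a2, fun q hq => ?_, ?_⟩
  · obtain ⟨s, h0, h1, rfl⟩ := USweep_seg hs₀.le hq
    exact hd _ mx s h0 h1
  · rw [dist_eq_norm, sub_sub_cancel]
    exact hn s₀ hs₀.le le_rfl

end Ctx

end SC
end

-- merged part: Pool.Agent.Work.MP_8a5de9_co.USaddle
section
/-!
# The number of local minima of a cell

`saddle`.  Let `v = vtx τ.1`, `ρ` from `exists_loc`, `Γ = ball v ρ ∩ Orth τ.2` (convex, inside `U`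
and inside `C` by `Good.mem`, above `v` by `orth_above`, `v ∈ closure Γ`).  For `t > z v` let `A t`
be the union of the sets `connectedComponentIn (U ∩ {z < t}) y`, `y ∈ Γ`, `z y < t` (they are all
equal); `Clo R t (A t)`, and `A` is monotone.  `S = {t > z v | ∀ x ∈ A t, z v < z x}`.
* `S` is nonempty: for `t` close to `z v` the set `Orth τ.2 ∩ {z < t}` lies in `ball v (ρ / 2)`
  (write `y - v` as a positive combination of the finitely many edges, or use compactness of the
  sphere intersected with the closed cone, on which `z > z v`), it is `Clo`, so it contains `A t`.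
* a union `⋃ t < T, A t` is `Clo R T`; likewise the union of all `A t` is open and closed in `U`, so
  it contains `C`, so `x₀ ∈ A t` for a large `t` and `S` is bounded above.
* `T = sSup S ∈ S`; by `Clo.bounded`, `Clo.extend` and `Clo.pre` there is an outer vertex
  `w ∈ closure (A T)` at height `T`, since otherwise some `t' > T` lies in `S`.
-/

open Set Filter Topology Metric

namespace SC

variable {E ι μ : Type} [NormedAddCommGroup E] [NormedSpace ℝ E] [FiniteDimensional ℝ E]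
  [Fintype ι] [DecidableEq ι] [Fintype μ] [DecidableEq μ]

namespace Ctx

variable (c : Ctx E ι μ)

open Classical in
/-- Good sides with all edges up. -/
noncomputable def TUp (R : Finset ι) (k : ℕ) : Finset (Tu ι) :=
  (c.Tup R k).filter fun τ => ∀ i ∈ supp τ.2, c.Up τ i

open Classical in
/-- Good sides with all edges up or all edges down. -/
noncomputable def TExt (R : Finset ι) (k : ℕ) : Finset (Tu ι) := (c.Tup R k).filter c.Ext

/-- The components below the height `t` that meet `Γ`. -/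
def USaddleA (R : Finset ι) (Γ : Set E) (t : ℝ) : Set E :=
  {x | ∃ y ∈ Γ, x ∈ connectedComponentIn (c.U R ∩ {x | c.z x < t}) y}

variable {c} {R : Finset ι}

theorem USaddle_open (R : Finset ι) (t : ℝ) : IsOpen (c.U R ∩ {x | c.z x < t}) :=
  (isOpen_U R).inter (isOpen_lt c.z_cont continuous_const)

theorem USaddle_clo (Γ : Set E) (t : ℝ) : c.Clo R t (c.USaddleA R Γ t) where
  sub := fun _ ⟨y, _, h⟩ => connectedComponentIn_subset (c.U R ∩ {x | c.z x < t}) y h
  op := isOpen_iff_mem_nhds.2 fun _ ⟨y, hy, h⟩ =>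
    mem_of_superset ((USaddle_open R t).connectedComponentIn.mem_nhds h) fun _ h' => ⟨y, hy, h'⟩
  cl x hx hU hz := by
    have h1 : x ∈ connectedComponentIn (c.U R ∩ {x | c.z x < t}) x :=
      mem_connectedComponentIn ⟨hU, hz⟩
    obtain ⟨x', h2, y, hy, h3⟩ := mem_closure_iff.1 hx _ (USaddle_open R t).connectedComponentIn h1
    refine ⟨y, hy, ?_⟩
    rwa [connectedComponentIn_eq h3, ← connectedComponentIn_eq h2]

omit [FiniteDimensional ℝ E] [Fintype ι] [DecidableEq ι] [Fintype μ] [DecidableEq μ] in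
theorem USaddle_mono (Γ : Set E) {t t' : ℝ} (h : t ≤ t') :
    c.USaddleA R Γ t ⊆ c.USaddleA R Γ t' := fun _ ⟨y, hy, hx⟩ =>
  ⟨y, hy, connectedComponentIn_mono y (inter_subset_inter_right _ fun _ h' => lt_of_lt_of_le h' h)
    hx⟩

omit [FiniteDimensional ℝ E] [Fintype ι] [DecidableEq ι] [Fintype μ] [DecidableEq μ] in
theorem USaddle_self {Γ : Set E} (hU : Γ ⊆ c.U R) {t : ℝ} {y : E} (hy : y ∈ Γ) (hz : c.z y < t) :
    y ∈ c.USaddleA R Γ t := ⟨y, hy, mem_connectedComponentIn ⟨hU hy, hz⟩⟩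

omit [FiniteDimensional ℝ E] [Fintype ι] [DecidableEq ι] [Fintype μ] [DecidableEq μ] in
theorem USaddle_pre {Γ : Set E} (hU : Γ ⊆ c.U R) (hΓ : Convex ℝ Γ) (t : ℝ) :
    IsPreconnected (c.USaddleA R Γ t) := by
  refine isPreconnected_of_forall_pair ?_
  rintro x ⟨y, hy, hx⟩ x' ⟨y', hy', hx'⟩
  have h1 := connectedComponentIn_nonempty_iff.1 ⟨x, hx⟩
  have h2 := connectedComponentIn_nonempty_iff.1 ⟨x', hx'⟩
  have h3 : IsPreconnected (Γ ∩ {x | c.z x < t}) :=
    (hΓ.inter (convex_halfSpace_lt c.z.isLinear t)).isPreconnected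
  have h4 := h3.subset_connectedComponentIn ⟨hy, h1.2⟩ (inter_subset_inter_left _ hU) ⟨hy', h2.2⟩
  exact ⟨_, fun _ h => ⟨y, hy, h⟩, hx, connectedComponentIn_eq h4 ▸ hx',
    isPreconnected_connectedComponentIn⟩

/-- A connected set that meets a union of the sets `USaddleA` lies in it. -/
theorem USaddle_union (Γ : Set E) (P : Set ℝ) {γ : Set E} (hγ : IsPreconnected γ)
    (h : ∀ x ∈ γ, x ∈ c.U R ∧ ∃ t ∈ P, c.z x < t) {y : E} (hy : y ∈ γ) {t : ℝ} (ht : t ∈ P)
    (hA : y ∈ c.USaddleA R Γ t) : γ ⊆ ⋃ t ∈ P, c.USaddleA R Γ t := by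
  refine hγ.subset_of_closure_inter_subset (isOpen_biUnion fun t _ => (USaddle_clo Γ t).op)
    ⟨y, hy, mem_biUnion ht hA⟩ ?_
  rintro x ⟨hx, hxγ⟩
  obtain ⟨hU, t₁, h₁, hz⟩ := h x hxγ
  have h1 : x ∈ connectedComponentIn (c.U R ∩ {x | c.z x < t₁}) x :=
    mem_connectedComponentIn ⟨hU, hz⟩
  obtain ⟨x', h2, h3⟩ := mem_closure_iff.1 hx _ (USaddle_open R t₁).connectedComponentIn h1
  obtain ⟨t₂, h₂, h4⟩ := mem_iUnion₂.1 h3
  refine mem_biUnion (x := max t₁ t₂) (by rcases max_choice t₁ t₂ with e | e <;> rwa [e]) ?_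
  refine (USaddle_clo Γ _).pre isPreconnected_connectedComponentIn (fun w hw => ?_) h2
    (USaddle_mono Γ (le_max_right _ _) h4) h1
  have := connectedComponentIn_subset _ _ hw
  exact ⟨this.1, lt_of_lt_of_le this.2 (le_max_left _ _)⟩

theorem USaddle_convex (s : ι → SignType) : Convex ℝ (c.Orth s) := by
  convert convex_sign (c := c) ((supp s).image fun i => (i, none)) fun j => s j.1 using 1
  ext y
  simp [Orth]

omit [FiniteDimensional ℝ E] [Fintype ι] [DecidableEq ι] [Fintype μ] [DecidableEq μ] in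
theorem USaddle_lin (i : ι) (x y : E) :
    (c.g i none).linear (y - x) = c.g i none y - c.g i none x := (c.g i none).linearMap_vsub y x

/-- The orthant of a side with all edges up is a sharp cone. -/
theorem USaddle_cone {τ : Tu ι} (h : c.Inner τ.1) (hs : supp τ.2 = τ.1)
    (hu : ∀ i ∈ τ.1, c.Up τ i) : ∃ K : ℝ, 0 ≤ K ∧ ∀ y ∈ c.Orth τ.2,
      ‖y - c.vtx τ.1‖ ≤ K * (c.z y - c.z (c.vtx τ.1)) := by
  choose! e he hz using hu
  have h0 : ∀ i ∈ τ.1, c.g i none (c.vtx τ.1) = 0 := fun i hi => (h.2 i hi).1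
  have hne : ∀ i ∈ τ.1, τ.2 i ≠ 0 := fun i hi => mem_supp.1 (hs ▸ hi)
  have hl : ∀ i ∈ τ.1, (c.g i none).linear (e i) ≠ 0 := fun i hi h' =>
    hne i hi (by rw [← (he i hi).2, h', sign_zero])
  have hK : ∀ i ∈ τ.1, 0 ≤ ‖e i‖ / c.z (e i) := fun i hi => div_nonneg (norm_nonneg _) (hz i hi).le
  refine ⟨∑ i ∈ τ.1, ‖e i‖ / c.z (e i), Finset.sum_nonneg hK, fun y hy => ?_⟩
  have ha : ∀ i ∈ τ.1, 0 ≤ c.g i none y / (c.g i none).linear (e i) := fun i hi => by
    have e1 := (hy i (hne i hi)).trans (he i hi).2.symm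
    rcases (hl i hi).lt_or_gt with k | k
    · rw [sign_neg k, sign_eq_neg_one_iff] at e1
      exact (div_pos_of_neg_of_neg e1 k).le
    · rw [sign_pos k, sign_eq_one_iff] at e1
      exact (div_pos e1 k).le
  have key : y - c.vtx τ.1 = ∑ i ∈ τ.1, (c.g i none y / (c.g i none).linear (e i)) • e i := by
    rw [← sub_eq_zero]
    refine c.ker (adm_hyp h0).1 ((adm_hyp h0).2.trans h.1) fun j hj => ?_
    obtain ⟨i, hi, rfl⟩ := Finset.mem_image.1 hj
    rw [map_sub, USaddle_lin, h0 i hi, sub_zero, map_sum, Finset.sum_eq_single i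
      (fun k hk hki => by rw [map_smul, (he k hk).1 i hi hki.symm, smul_zero])
      fun h' => absurd hi h', map_smul, smul_eq_mul, div_mul_cancel₀ _ (hl i hi), sub_self]
  rw [← map_sub, key, map_sum, Finset.mul_sum]
  refine (norm_sum_le _ _).trans (Finset.sum_le_sum fun i hi => ?_)
  rw [norm_smul, Real.norm_of_nonneg (ha i hi), map_smul, smul_eq_mul, mul_left_comm]
  refine mul_le_mul_of_nonneg_left ?_ (ha i hi)
  rw [← div_le_iff₀ (hz i hi)]
  exact Finset.single_le_sum hK hi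

theorem USaddle_closure {D : Finset ι} {s : ι → SignType} {v : E}
    (h0 : ∀ i ∈ D, c.g i none v = 0) (hs : supp s ⊆ D) : v ∈ closure (c.Orth s) := by
  obtain ⟨e, he⟩ := c.solve (adm_hyp h0).1 fun j => (s j.1 : ℝ)
  have h1 : Tendsto (fun ε : ℝ => v + ε • e) (𝓝[>] 0) (𝓝 v) := by
    refine tendsto_nhdsWithin_of_tendsto_nhds (Continuous.tendsto' (by fun_prop) _ _ ?_)
    simp
  refine mem_closure_of_tendsto h1 ?_
  filter_upwards [self_mem_nhdsWithin] with ε hε i hi
  have hi' := hs (mem_supp.2 hi)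
  have h2 := USaddle_lin (c := c) i v (v + ε • e)
  rw [h0 i hi', sub_zero, add_sub_cancel_left, map_smul,
    he (i, none) (Finset.mem_image_of_mem _ hi'), smul_eq_mul] at h2
  rw [← h2, sign_mul, sign_pos hε, one_mul]
  cases s i <;> simp

theorem saddle {τ : Tu ι} (hτ : τ ∈ c.TUp R c.d) {x₀ : E} (hx : x₀ ∈ c.C R)
    (hlow : c.z x₀ ≤ c.z (c.vtx τ.1)) :
    ∃ w A, c.OutV R w ∧ c.Clo R (c.z w) A ∧ IsPreconnected A ∧ w ∈ closure A ∧
      c.vtx τ.1 ∈ closure A ∧ ∀ x ∈ A, c.z (c.vtx τ.1) < c.z x := by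
  classical
  obtain ⟨hT, hu⟩ := Finset.mem_filter.1 hτ
  obtain ⟨hR, hI, hs, hc, hG⟩ := mem_Tup.1 hT
  have hsD : supp τ.2 = τ.1 := Finset.eq_of_subset_of_card_le hs (by rw [hc, hI.1])
  rw [hsD] at hu
  obtain ⟨K, hK0, hK⟩ := USaddle_cone hI hsD hu
  have habove : ∀ y ∈ c.Orth τ.2, c.z (c.vtx τ.1) < c.z y := fun y => orth_above hI hsD hu
  have hcl := USaddle_closure (fun i hi => (hI.2 i hi).1) hs
  have ho := hI.on hR
  generalize c.vtx τ.1 = v at *
  obtain ⟨ρ, hρ⟩ := exists_loc (c := c) R v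
  set Γ := ball v ρ ∩ c.Orth τ.2 with hΓ
  have hU : Γ ⊆ c.U R := fun y hy => (hρ.mem_U ho hy.1).2 fun i hi h0 => by
    have hi' := mem_supp.1 (hsD ▸ hi)
    exact hi' (by rw [← hy.2 i hi', h0, sign_zero])
  have hC : Γ ⊆ c.C R := fun y hy => hG.mem hρ ho hs hy.1 hy.2 (hU hy)
  have hconv : Convex ℝ Γ := (convex_ball v ρ).inter (USaddle_convex _)
  have hv : ∀ t, c.z v < t → v ∈ closure (Γ ∩ {x | c.z x < t}) := fun t ht => by
    have h1 : IsOpen (ball v ρ ∩ {x | c.z x < t}) :=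
      isOpen_ball.inter (isOpen_lt c.z_cont continuous_const)
    refine closure_mono ?_ (h1.inter_closure ⟨⟨mem_ball_self hρ.1, ht⟩, hcl⟩)
    exact fun y hy => ⟨⟨hy.1.1, hy.2⟩, hy.1.2⟩
  have hex : ∀ t, c.z v < t → ∃ y ∈ Γ, c.z y < t := fun t ht =>
    let ⟨y, hy⟩ := closure_nonempty_iff.1 ⟨v, hv t ht⟩
    ⟨y, hy.1, hy.2⟩
  set S := {t | c.z v < t ∧ ∀ x ∈ c.USaddleA R Γ t, c.z v < c.z x} with hS
  have hne : S.Nonempty := by
    have hρ0 := hρ.1
    have hB : c.Clo R (c.z v + ρ / 2 / (K + 1)) (Γ ∩ {x | c.z x < c.z v + ρ / 2 / (K + 1)}) := by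
      refine ⟨fun x hx => ⟨hU hx.1, hx.2⟩, (isOpen_ball.inter (isOpen_Orth _)).inter
        (isOpen_lt c.z_cont continuous_const), fun x hx hxU hz => ⟨?_, hz⟩⟩
      have h1 : Γ ∩ {x | c.z x < c.z v + ρ / 2 / (K + 1)} ⊆ closedBall v (ρ / 2) := fun y hy => by
        have k1 : c.z y - c.z v ≤ ρ / 2 / (K + 1) := by linarith [mem_ofPred.1 hy.2]
        rw [le_div_iff₀ (by positivity)] at k1
        rw [mem_closedBall, dist_eq_norm]
        linarith [hK y hy.1.2, habove y hy.1.2]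
      have h2 : x ∈ ball v ρ :=
        closedBall_subset_ball (half_lt_self hρ0) (closure_minimal h1 isClosed_closedBall hx)
      refine ⟨h2, fun i hi => ?_⟩
      have h3 := (hρ.mem_U ho h2).1 hxU i (hs (mem_supp.2 hi))
      have h4 : ContinuousAt (fun y => SignType.sign (c.g i none y)) x :=
        (continuousAt_sign_of_ne_zero h3).comp (aff_cont _).continuousAt
      obtain ⟨y, k1, k2⟩ := mem_closure_iff_nhds.1 hx _ (h4 ((isOpen_discrete {_}).mem_nhds rfl))
      exact (mem_singleton_iff.1 k1).symm.trans (k2.1.2 i hi)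
    refine ⟨c.z v + ρ / 2 / (K + 1), lt_add_of_pos_right _ (by positivity), ?_⟩
    rintro x ⟨y, hy, hx⟩
    have h1 := connectedComponentIn_nonempty_iff.1 ⟨x, hx⟩
    exact habove x (hB.pre isPreconnected_connectedComponentIn
      (fun w hw => mem_inter_iff _ _ _ |>.1 (connectedComponentIn_subset _ _ hw))
      (mem_connectedComponentIn h1) ⟨hy, h1.2⟩ hx).1.2
  have hbd : BddAbove S := by
    obtain ⟨y, hy, hz⟩ := hex _ (lt_add_one _)
    obtain ⟨t₀, -, h₀⟩ := mem_iUnion₂.1 (USaddle_union Γ univ isPreconnected_connectedComponentIn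
      (fun x hx => ⟨C_sub R hx, _, trivial, lt_add_one _⟩) (hC hy) trivial
      (USaddle_self hU hy hz) hx)
    exact ⟨t₀, fun t ht => le_of_not_gt fun h => (ht.2 x₀ (USaddle_mono Γ h.le h₀)).not_ge hlow⟩
  have hT1 : c.z v < sSup S := let ⟨t, ht⟩ := hne; ht.1.trans_le (le_csSup hbd ht)
  obtain ⟨y, hy, hz⟩ := hex _ hT1
  have hT2 : ∀ x ∈ c.USaddleA R Γ (sSup S), c.z v < c.z x := fun x hx => by
    obtain ⟨t₁, k1, k2⟩ := exists_between hz
    obtain ⟨t, ht, h⟩ := mem_iUnion₂.1 (USaddle_union Γ (Iio (sSup S)) (USaddle_pre hU hconv _)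
      (fun x hx => ⟨((USaddle_clo Γ _).sub x hx).1,
        let ⟨t, h1, h2⟩ := exists_between ((USaddle_clo Γ _).sub x hx).2; ⟨t, h2, h1⟩⟩)
      (USaddle_self hU hy hz) k2 (USaddle_self hU hy k1) hx)
    obtain ⟨t', h1, h2⟩ := exists_lt_of_lt_csSup hne ht
    exact h1.2 x (USaddle_mono Γ h2.le h)
  obtain ⟨w, hw, hwz, hwo⟩ : ∃ w ∈ closure (c.USaddleA R Γ (sSup S)),
      c.z w = sSup S ∧ c.OutV R w := by
    by_contra hn
    obtain ⟨t', ht', A', h1, h2⟩ := (USaddle_clo Γ _).extend ((USaddle_clo Γ _).bounded hT2)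
      fun w hw hwz hwo => hn ⟨w, hw, hwz, hwo⟩
    refine (le_csSup hbd ⟨hT1.trans ht', fun x hx => ?_⟩).not_gt ht'
    have h3 := h1.pre (USaddle_pre hU hconv t') (USaddle_clo Γ t').sub
      (USaddle_self hU hy (hz.trans ht')) ((h2 y hz).2 (USaddle_self hU hy hz)) hx
    rcases lt_or_ge (c.z x) (sSup S) with k | k
    · exact hT2 x ((h2 x k).1 h3)
    · exact hT1.trans_le k
  exact ⟨w, _, hwo, hwz ▸ USaddle_clo Γ _, USaddle_pre hU hconv _, hw,
    closure_mono (fun y hy => USaddle_self hU hy.1 hy.2) (hv _ hT1), hT2⟩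

end Ctx

end SC
end
end

-- merged part: Pool.Agent.Work.MP_8a5de9_co.UParA
section
/-!
# Coordinates in a two-dimensional flat

`F` is a set of `d - 2` patches whose hyperplanes meet in a plane with coordinates `φ`; the first
coordinate is the height `z`.  On the plane the equation `j` reads
`g j (φ q) = γ j * (q.2 - (sl j * q.1 + ic j))` if `γ j ≠ 0` (`eval`); if `γ j = 0` and `F ∪ {j}` is
admissible with `d - 1` elements then the equation has no zero on the plane (`gam_ne`, by `kerz`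
applied to `b2`).
-/

open Set Filter Topology Metric

namespace SC

variable {E ι μ : Type} [NormedAddCommGroup E] [NormedSpace ℝ E] [FiniteDimensional ℝ E]
  [Fintype ι] [DecidableEq ι] [Fintype μ] [DecidableEq μ]

namespace Ctx

/-- Coordinates in the flat of `F`. -/
structure Par (c : Ctx E ι μ) (F : Finset ι) where
  o : E
  b1 : E
  b2 : E
  card : F.card + 2 = c.d
  ho : ∀ i ∈ F, c.g i none o = 0
  h1 : ∀ i ∈ F, (c.g i none).linear b1 = 0
  h2 : ∀ i ∈ F, (c.g i none).linear b2 = 0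
  z1 : c.z b1 = 1
  z2 : c.z b2 = 0
  ne : b2 ≠ 0

variable {c : Ctx E ι μ} {F : Finset ι}

omit [FiniteDimensional ℝ E] [Fintype ι] [Fintype μ] in
theorem UParA_adm {x : E} (hx : ∀ i ∈ F, c.g i none x = 0) :
    Adm c.g (F.image fun i => (i, (none : Option μ))) x := by
  refine ⟨fun j hj => ?_, fun j hj => ?_⟩ <;> obtain ⟨i, hi, rfl⟩ := Finset.mem_image.1 hj
  · exact hj
  · exact hx i hi

omit [Fintype ι] [Fintype μ] in
theorem UParA_card (F : Finset ι) : (F.image fun i => (i, (none : Option μ))).card = F.card :=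
  Finset.card_image_of_injective _ fun _ _ h => congrArg Prod.fst h

theorem exists_par (hF : F.card + 2 = c.d) {x : E} (hx : ∀ i ∈ F, c.g i none x = 0) :
    Nonempty (c.Par F) := by
  have hA := UParA_adm hx
  have hc := UParA_card (μ := μ) F
  obtain ⟨u, hu, hu'⟩ := c.zgen _ x hA (by omega)
  obtain ⟨b, hb, hz, hb', -⟩ := c.ker2 hA (by omega)
  exact ⟨⟨x, u, b, hF, hx, fun i hi => hu' (i, none) (Finset.mem_image_of_mem _ hi),
    fun i hi => hb' (i, none) (Finset.mem_image_of_mem _ hi), hu, hz, hb⟩⟩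

namespace Par

variable (P : c.Par F)

/-- The reflected coordinates. -/
def flip : c.Par F :=
  { P with
    b2 := -P.b2
    h2 := fun i hi => by simp [P.h2 i hi]
    z2 := by simp [P.z2]
    ne := neg_ne_zero.2 P.ne }

/-- The parametrisation. -/
def φ (q : ℝ × ℝ) : E := P.o + q.1 • P.b1 + q.2 • P.b2

/-- The vertical derivative of an equation. -/
def γ (j : ι × Option μ) : ℝ := (c.g j.1 j.2).linear P.b2

/-- The slope. -/
noncomputable def sl (j : ι × Option μ) : ℝ := -(c.g j.1 j.2).linear P.b1 / P.γ j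

/-- The intercept. -/
noncomputable def ic (j : ι × Option μ) : ℝ := -c.g j.1 j.2 P.o / P.γ j

/-- The interval. -/
def I (j : ι × Option μ) : Set ℝ :=
  {x | P.γ j ≠ 0 ∧ ((j.2 = none ∧ j.1 ∉ F ∧ P.φ (x, P.sl j * x + P.ic j) ∈ patch c.g j.1) ∨
    (j.2 ≠ none ∧ j.1 ∈ F))}

omit [FiniteDimensional ℝ E] [Fintype ι] [DecidableEq ι] [Fintype μ] [DecidableEq μ] in
theorem UParA_aff (f : E →ᵃ[ℝ] ℝ) (q : ℝ × ℝ) :
    f (P.φ q) = f P.o + q.1 * f.linear P.b1 + q.2 * f.linear P.b2 := by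
  have : P.φ q = (q.1 • P.b1 + q.2 • P.b2) +ᵥ P.o := by
    rw [φ, vadd_eq_add]
    abel
  rw [this, AffineMap.map_vadd, map_add, map_smul, map_smul, vadd_eq_add, smul_eq_mul, smul_eq_mul]
  ring

theorem cont_φ : Continuous P.φ := by
  unfold φ
  fun_prop

theorem z_φ (q : ℝ × ℝ) : c.z (P.φ q) = c.z P.o + q.1 := by
  simp [φ, P.z1, P.z2]

theorem φ_mem (q : ℝ × ℝ) {i : ι} (hi : i ∈ F) : c.g i none (P.φ q) = 0 := by
  rw [P.UParA_aff, P.ho i hi, P.h1 i hi, P.h2 i hi]
  ring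

theorem inj : Function.Injective P.φ := by
  intro p q h
  have h1 : p.1 = q.1 := by
    have := congrArg c.z h
    rw [z_φ, z_φ] at this
    linarith
  have h2 : p.2 • P.b2 = q.2 • P.b2 := by
    rw [φ, φ, h1] at h
    exact add_left_cancel h
  exact Prod.ext h1 (smul_left_injective ℝ P.ne h2)

theorem surj {x : E} (hx : ∀ i ∈ F, c.g i none x = 0) : ∃ q, P.φ q = x := by
  have hA := UParA_adm hx
  have hc := UParA_card (μ := μ) F
  have := P.card
  obtain ⟨b, -, -, -, hb⟩ := c.ker2 hA (by omega)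
  obtain ⟨s, hs⟩ := hb P.b2 P.ne P.z2 (fun j hj => by
    obtain ⟨i, hi, rfl⟩ := Finset.mem_image.1 hj
    exact P.h2 i hi) (x - P.o - (c.z x - c.z P.o) • P.b1) (by simp [P.z1]) fun j hj => by
      obtain ⟨i, hi, rfl⟩ := Finset.mem_image.1 hj
      have e := (c.g i none).linearMap_vsub x P.o
      rw [vsub_eq_sub, vsub_eq_sub, hx i hi, P.ho i hi] at e
      rw [map_sub, map_smul, e, P.h1 i hi]
      simp
  refine ⟨(c.z x - c.z P.o, s), ?_⟩
  rw [φ, ← hs]
  abel

theorem φ_seg (p q : ℝ × ℝ) : P.φ '' segment ℝ p q = segment ℝ (P.φ p) (P.φ q) := by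
  have key : ∀ a b : ℝ, a + b = 1 → P.φ (a • p + b • q) = a • P.φ p + b • P.φ q := fun a b h => by
    obtain rfl : b = 1 - a := by linarith
    simp only [φ, Prod.fst_add, Prod.snd_add, Prod.smul_fst, Prod.smul_snd, smul_eq_mul]
    module
  ext x
  constructor
  · rintro ⟨_, ⟨a, b, ha, hb, h, rfl⟩, rfl⟩
    exact ⟨a, b, ha, hb, h, (key a b h).symm⟩
  · rintro ⟨a, b, ha, hb, h, rfl⟩
    exact ⟨_, ⟨a, b, ha, hb, h, rfl⟩, key a b h⟩

theorem eval {j : ι × Option μ} (h : P.γ j ≠ 0) (q : ℝ × ℝ) :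
    c.g j.1 j.2 (P.φ q) = P.γ j * (q.2 - (P.sl j * q.1 + P.ic j)) := by
  rw [P.UParA_aff, sl, ic]
  have e : (c.g j.1 j.2).linear P.b2 = P.γ j := rfl
  rw [e]
  field_simp
  ring

theorem gam_ne {j : ι × Option μ} (hj : (j.2 = none ∧ j.1 ∉ F) ∨ (j.2 ≠ none ∧ j.1 ∈ F))
    {q : ℝ × ℝ} (h : c.g j.1 j.2 (P.φ q) = 0) : P.γ j ≠ 0 := by
  intro h0
  have hA := UParA_adm (c := c) fun i hi => P.φ_mem q (i := i) hi
  have hc := UParA_card (μ := μ) F
  have := P.card
  have hn : j ∉ F.image fun i => (i, (none : Option μ)) := fun hm => by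
    obtain ⟨i, hi, rfl⟩ := Finset.mem_image.1 hm
    rcases hj with hj | hj
    · exact hj.2 hi
    · exact hj.1 rfl
  have hB : Adm c.g (insert j (F.image fun i => (i, (none : Option μ)))) (P.φ q) := by
    refine ⟨fun l hl => ?_, fun l hl => ?_⟩ <;> rcases Finset.mem_insert.1 hl with rfl | hl
    · rcases hj with hj | hj
      · exact Finset.mem_insert.2 (Or.inl (Prod.ext rfl hj.1.symm))
      · exact Finset.mem_insert_of_mem (Finset.mem_image_of_mem _ hj.2)
    · exact Finset.mem_insert_of_mem (hA.1 l hl)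
    · exact h
    · exact hA.2 l hl
  refine P.ne (c.kerz hB (by rw [Finset.card_insert_of_notMem hn]; omega) (fun l hl => ?_) P.z2)
  rcases Finset.mem_insert.1 hl with rfl | hl
  · exact h0
  · obtain ⟨i, hi, rfl⟩ := Finset.mem_image.1 hl
    exact P.h2 i hi

end Par

end Ctx

end SC
end

-- merged part: Pool.Agent.Work.MP_8a5de9_co.UPar
section
/-!
# The planar obstacles of a flat

General position of the obstacles (`pl`).  Write `A₀ = F × {none}`.  The interval of `(T, none)` is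
the preimage of the closed convex patch under an affine map; at a frontier point some boundary
equation `(T, some l)` vanishes (otherwise a neighbourhood lies in the interval).  The intervals of
`(i, some l)`, `i ∈ F`, are `univ` or empty and have no frontier.
`g0`: equal slopes and a common point: `b1 + sl • b2` is killed by the `d` equations
`A₀ ∪ {j, j'}` and is not zero (`ker`).  `g1`: `A₀ ∪ {j, (T, some l), j'}` has `d + 1` elements
(`card_le`).  `g2`, `g3`: both points are vertices of the same height, so they are equal (`zinj`);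
then `g1`, respectively `card_le` for `A₀ ∪ {j, j', k, k'}` and the order of the slopes.
-/

open Set Filter Topology Metric

namespace SC

variable {E ι μ : Type} [NormedAddCommGroup E] [NormedSpace ℝ E] [FiniteDimensional ℝ E]
  [Fintype ι] [DecidableEq ι] [Fintype μ] [DecidableEq μ]

namespace Ctx

namespace Par

variable {c : Ctx E ι μ} {F : Finset ι} (P : c.Par F)

/-- The two kinds of equations that give obstacles. -/
def UParTy (F : Finset ι) (j : ι × Option μ) : Prop :=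
  (j.2 = none ∧ j.1 ∉ F) ∨ (j.2 ≠ none ∧ j.1 ∈ F)

theorem UPar_ty {j : ι × Option μ} {x : ℝ} (h : x ∈ P.I j) : UParTy F j :=
  h.2.imp (fun h => ⟨h.1, h.2.1⟩) id

theorem UPar_zero {j : ι × Option μ} {x : ℝ} (h : x ∈ P.I j) (y : ℝ) :
    c.g j.1 j.2 (P.φ (y, P.sl j * y + P.ic j)) = 0 := by
  rw [P.eval h.1, sub_self, mul_zero]

theorem UPar_adm {B : Finset (ι × Option μ)} {q : ℝ × ℝ}
    (h1 : ∀ j ∈ B, UParTy F j ∨ (j.2 ≠ none ∧ (j.1, none) ∈ B))
    (h2 : ∀ j ∈ B, c.g j.1 j.2 (P.φ q) = 0) :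
    ∃ A, Adm c.g A (P.φ q) ∧ A.card + 2 = c.d + B.card ∧
      ∀ j ∈ A, j ∈ B ∨ (j.1 ∈ F ∧ j.2 = none) := by
  obtain ⟨a1, a2⟩ := adm_hyp (c := c) (D := F) fun i hi => P.φ_mem q hi
  have hm : ∀ j ∈ F.image fun i => (i, (none : Option μ)), j.1 ∈ F ∧ j.2 = none := by
    intro j hj
    obtain ⟨i, hi, rfl⟩ := Finset.mem_image.1 hj
    exact ⟨hi, rfl⟩
  refine ⟨(F.image fun i => (i, none)) ∪ B, ⟨fun j hj => ?_, fun j hj => ?_⟩, ?_, fun j hj => ?_⟩
  · rcases Finset.mem_union.1 hj with h | h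
    · exact Finset.mem_union_left _ (a1.1 j h)
    · rcases h1 j h with (h3 | h3) | h3
      · refine Finset.mem_union_right _ ?_
        rw [← h3.1]
        exact h
      · exact Finset.mem_union_left _ (Finset.mem_image_of_mem _ h3.2)
      · exact Finset.mem_union_right _ h3.2
  · rcases Finset.mem_union.1 hj with h | h
    · exact a1.2 j h
    · exact h2 j h
  · rw [Finset.card_union_of_disjoint, a2, ← P.card]
    · ring
    · refine Finset.disjoint_left.2 fun j hj h => ?_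
      obtain ⟨m1, m2⟩ := hm j hj
      rcases h1 j h with (h3 | h3) | h3
      exacts [h3.2 m1, h3.1 m2, h3.1 m2]
  · rcases Finset.mem_union.1 hj with h | h
    · exact Or.inr (hm j h)
    · exact Or.inl h

theorem UPar_le {B : Finset (ι × Option μ)} {q : ℝ × ℝ}
    (h1 : ∀ j ∈ B, UParTy F j ∨ (j.2 ≠ none ∧ (j.1, none) ∈ B))
    (h2 : ∀ j ∈ B, c.g j.1 j.2 (P.φ q) = 0) : B.card ≤ 2 := by
  obtain ⟨A, a1, a2, -⟩ := P.UPar_adm h1 h2
  have := c.card_le a1
  omega

theorem UPar_height {B B' : Finset (ι × Option μ)} {x y y' : ℝ}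
    (h1 : ∀ j ∈ B, UParTy F j ∨ (j.2 ≠ none ∧ (j.1, none) ∈ B))
    (h2 : ∀ j ∈ B, c.g j.1 j.2 (P.φ (x, y)) = 0) (h3 : B.card = 2)
    (h1' : ∀ j ∈ B', UParTy F j ∨ (j.2 ≠ none ∧ (j.1, none) ∈ B'))
    (h2' : ∀ j ∈ B', c.g j.1 j.2 (P.φ (x, y')) = 0) (h3' : B'.card = 2) : y = y' := by
  obtain ⟨A, a1, a2, -⟩ := P.UPar_adm h1 h2
  obtain ⟨A', a1', a2', -⟩ := P.UPar_adm h1' h2'
  have := c.zinj A A' _ _ a1 a1' (by omega) (by omega) (by rw [P.z_φ, P.z_φ])
  exact congrArg Prod.snd (P.inj this)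

theorem UPar_cont (j : ι × Option μ) :
    Continuous fun x : ℝ => P.φ (x, P.sl j * x + P.ic j) := P.cont_φ.comp (by fun_prop)

theorem UPar_cl (j : ι × Option μ) : IsClosed (P.I j) :=
  isClosed_const.and ((isClosed_const.and (isClosed_const.and
    ((isClosed_patch c.g j.1).preimage (P.UPar_cont j)))).union isClosed_const)

theorem UPar_oc (j : ι × Option μ) : OrdConnected (P.I j) := by
  refine Convex.ordConnected fun x hx y hy a b ha hb hab => ⟨hx.1, ?_⟩
  rcases hx.2 with h | h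
  · rcases hy.2 with h' | h'
    · refine Or.inl ⟨h.1, h.2.1, ?_⟩
      have e : P.φ (a • x + b • y, P.sl j * (a • x + b • y) + P.ic j) =
          a • P.φ (x, P.sl j * x + P.ic j) + b • P.φ (y, P.sl j * y + P.ic j) := by
        obtain rfl : a = 1 - b := by linarith
        simp only [φ, smul_eq_mul]
        module
      rw [e]
      exact convex_patch c.g j.1 h.2.2 h'.2.2 ha hb hab
    · exact Or.inr h'
  · exact Or.inr h

theorem UPar_frontier {j : ι × Option μ} {x : ℝ} (h : x ∈ frontier (P.I j)) :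
    x ∈ P.I j ∧ j.2 = none ∧ j.1 ∉ F ∧
      ∃ l, c.g j.1 (some l) (P.φ (x, P.sl j * x + P.ic j)) = 0 := by
  have hx : x ∈ P.I j := (P.UPar_cl j).frontier_subset h
  refine ⟨hx, ?_⟩
  rcases hx.2 with h1 | h1
  · refine ⟨h1.1, h1.2.1, ?_⟩
    by_contra hc
    push Not at hc
    refine h.2 (mem_interior_iff_mem_nhds.2 ?_)
    have h2 : ∀ l, ∀ᶠ y in 𝓝 x, 0 < c.g j.1 (some l) (P.φ (y, P.sl j * y + P.ic j)) := fun l =>
      ((aff_cont _).comp (P.UPar_cont j)).continuousAt.eventually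
        (lt_mem_nhds ((h1.2.2.2 l).lt_of_ne' (hc l)))
    filter_upwards [eventually_all.2 h2] with y hy
    refine ⟨hx.1, Or.inl ⟨h1.1, h1.2.1, ?_, fun l => (hy l).le⟩⟩
    rw [← h1.1]
    exact P.UPar_zero hx y
  · have h2 : ∀ y, y ∈ P.I j := fun y => ⟨hx.1, Or.inr h1⟩
    exact absurd (mem_interior_iff_mem_nhds.2 (univ_mem' h2)) h.2

theorem UPar_g0 (j j' : ι × Option μ) (x : ℝ) (hne : j ≠ j') (h : (P.I j).Nonempty)
    (h' : (P.I j').Nonempty) (e : P.sl j * x + P.ic j = P.sl j' * x + P.ic j') :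
    P.sl j ≠ P.sl j' := by
  intro hs
  obtain ⟨y, hy⟩ := h
  obtain ⟨y', hy'⟩ := h'
  obtain ⟨A, a1, a2, a3⟩ := P.UPar_adm (B := {j, j'}) (q := (x, P.sl j * x + P.ic j))
    (by simpa using ⟨Or.inl (P.UPar_ty hy), Or.inl (P.UPar_ty hy')⟩)
    (by simpa using ⟨P.UPar_zero hy x, e ▸ P.UPar_zero hy' x⟩)
  rw [Finset.card_pair hne] at a2
  have key : ∀ k : ι × Option μ, P.γ k ≠ 0 → (c.g k.1 k.2).linear (P.b1 + P.sl k • P.b2) = 0 := by
    intro k hk
    rw [map_add, map_smul, smul_eq_mul, sl, ← γ, div_mul_cancel₀ _ hk, add_neg_cancel]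
  have h0 := c.ker a1 (by omega) (e := P.b1 + P.sl j • P.b2) fun k hk => by
    rcases a3 k hk with h1 | h1
    · rcases Finset.mem_insert.1 h1 with rfl | h2
      · exact key _ hy.1
      · rw [Finset.mem_singleton.1 h2, hs]
        exact key _ hy'.1
    · rw [h1.2, map_add, map_smul, P.h1 _ h1.1, P.h2 _ h1.1, smul_zero, add_zero]
  have h1 := congrArg c.z h0
  rw [map_add, map_smul, P.z1, P.z2, smul_zero, add_zero, map_zero] at h1
  exact one_ne_zero h1

theorem UPar_g1 (j j' : ι × Option μ) (x : ℝ) (hne : j ≠ j') (h : x ∈ frontier (P.I j))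
    (h' : x ∈ P.I j') : P.sl j * x + P.ic j ≠ P.sl j' * x + P.ic j' := by
  intro e
  obtain ⟨hx, h1, h2, l, hl⟩ := P.UPar_frontier h
  have hj : (j.1, none) = j := by rw [← h1]
  have := P.UPar_le (B := {j, (j.1, some l), j'}) (q := (x, P.sl j * x + P.ic j))
    (by simpa [hj] using ⟨Or.inl (P.UPar_ty hx), Or.inl (P.UPar_ty h')⟩)
    (by simpa using ⟨P.UPar_zero hx x, hl, e ▸ P.UPar_zero h' x⟩)
  rw [Finset.card_eq_three.2 ⟨_, _, _, ?_, hne, ?_, rfl⟩] at this
  · omega
  · intro h3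
    rw [h3] at h1
    simp at h1
  · rintro rfl
    rcases P.UPar_ty h' with h3 | h3
    · simp at h3
    · exact h2 h3.2

theorem UPar_g2 (j j' : ι × Option μ) (x : ℝ) (h : x ∈ frontier (P.I j))
    (h' : x ∈ frontier (P.I j')) : j = j' := by
  by_contra hne
  have key : ∀ k : ι × Option μ, x ∈ frontier (P.I k) → ∃ B : Finset (ι × Option μ),
      (∀ j ∈ B, UParTy F j ∨ (j.2 ≠ none ∧ (j.1, none) ∈ B)) ∧
      (∀ j ∈ B, c.g j.1 j.2 (P.φ (x, P.sl k * x + P.ic k)) = 0) ∧ B.card = 2 := by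
    intro k hk
    obtain ⟨hx, h1, -, l, hl⟩ := P.UPar_frontier hk
    have hj : (k.1, none) = k := by rw [← h1]
    refine ⟨{k, (k.1, some l)}, by simpa [hj] using Or.inl (P.UPar_ty hx),
      by simpa using ⟨P.UPar_zero hx x, hl⟩, Finset.card_pair fun h3 => ?_⟩
    rw [h3] at h1
    simp at h1
  obtain ⟨B, b1, b2, b3⟩ := key j h
  obtain ⟨B', b1', b2', b3'⟩ := key j' h'
  exact P.UPar_g1 j j' x hne h (P.UPar_frontier h').1 (P.UPar_height b1 b2 b3 b1' b2' b3')

theorem UPar_three {j j' k : ι × Option μ} {x : ℝ} (hne : j ≠ j') (h : x ∈ P.I j)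
    (h' : x ∈ P.I j') (hk : x ∈ P.I k) (e : P.sl j * x + P.ic j = P.sl j' * x + P.ic j')
    (e' : P.sl j * x + P.ic j = P.sl k * x + P.ic k) : j = k ∨ j' = k := by
  by_contra hc
  push Not at hc
  have := P.UPar_le (B := {j, j', k}) (q := (x, P.sl j * x + P.ic j))
    (by simpa using ⟨Or.inl (P.UPar_ty h), Or.inl (P.UPar_ty h'), Or.inl (P.UPar_ty hk)⟩)
    (by simpa using ⟨P.UPar_zero h x, e ▸ P.UPar_zero h' x, e' ▸ P.UPar_zero hk x⟩)
  rw [Finset.card_eq_three.2 ⟨_, _, _, hne, hc.1, hc.2, rfl⟩] at this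
  omega

theorem UPar_g3 (j j' k k' : ι × Option μ) (x : ℝ) (h : x ∈ P.I j) (h' : x ∈ P.I j')
    (hk : x ∈ P.I k) (hk' : x ∈ P.I k') (s : P.sl j' < P.sl j) (s' : P.sl k' < P.sl k)
    (e : P.sl j * x + P.ic j = P.sl j' * x + P.ic j')
    (e' : P.sl k * x + P.ic k = P.sl k' * x + P.ic k') : j = k ∧ j' = k' := by
  have hne : j ≠ j' := fun h => by simp [h] at s
  have hne' : k ≠ k' := fun h => by simp [h] at s'
  have e2 : P.sl j * x + P.ic j = P.sl k * x + P.ic k :=
    P.UPar_height (B := {j, j'}) (B' := {k, k'})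
      (by simpa using ⟨Or.inl (P.UPar_ty h), Or.inl (P.UPar_ty h')⟩)
      (by simpa using ⟨P.UPar_zero h x, e ▸ P.UPar_zero h' x⟩) (Finset.card_pair hne)
      (by simpa using ⟨Or.inl (P.UPar_ty hk), Or.inl (P.UPar_ty hk')⟩)
      (by simpa using ⟨P.UPar_zero hk x, e' ▸ P.UPar_zero hk' x⟩) (Finset.card_pair hne')
  rcases P.UPar_three hne h h' hk e e2 with rfl | rfl <;>
    rcases P.UPar_three hne h h' hk' e (e2.trans e') with rfl | rfl
  · exact absurd rfl hne'
  · exact ⟨rfl, rfl⟩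
  · exact absurd s (not_lt.2 s'.le)
  · exact absurd rfl hne'

/-- The planar obstacles. -/
noncomputable def pl : Pl (ι × Option μ) where
  sl := P.sl
  ic := P.ic
  I := P.I
  cl := P.UPar_cl
  oc := P.UPar_oc
  g0 := P.UPar_g0
  g1 := P.UPar_g1
  g2 := P.UPar_g2
  g3 := P.UPar_g3

theorem mem_seg_none {T : ι} (hT : T ∉ F) (q : ℝ × ℝ) :
    q ∈ P.pl.seg (T, none) ↔ P.φ q ∈ patch c.g T := by
  refine ⟨fun h => ?_, fun h => ?_⟩
  · obtain ⟨⟨-, h1 | h1⟩, h2⟩ := h
    · have e : q = (q.1, P.sl (T, none) * q.1 + P.ic (T, none)) := Prod.ext rfl h2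
      rw [e]
      exact h1.2.2
    · exact absurd rfl h1.1
  · have hγ := P.gam_ne (j := (T, none)) (Or.inl ⟨rfl, hT⟩) h.1
    have h1 := (P.eval hγ q).symm.trans h.1
    have h2 : q.2 = P.sl (T, none) * q.1 + P.ic (T, none) :=
      sub_eq_zero.1 ((mul_eq_zero.1 h1).resolve_left hγ)
    refine ⟨⟨hγ, Or.inl ⟨rfl, hT, ?_⟩⟩, h2⟩
    rw [← h2]
    exact h

theorem mem_seg_some {i : ι} (hi : i ∈ F) (l : μ) (q : ℝ × ℝ) :
    q ∈ P.pl.seg (i, some l) ↔ c.g i (some l) (P.φ q) = 0 := by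
  refine ⟨fun h => ?_, fun h => ?_⟩
  · have e : q = (q.1, P.sl (i, some l) * q.1 + P.ic (i, some l)) := Prod.ext rfl h.2
    rw [e]
    exact P.UPar_zero (j := (i, some l)) h.1 q.1
  · have hγ := P.gam_ne (j := (i, some l)) (Or.inr ⟨by simp, hi⟩) h
    have h1 := (P.eval hγ q).symm.trans h
    exact ⟨⟨hγ, Or.inr ⟨by simp, hi⟩⟩, sub_eq_zero.1 ((mul_eq_zero.1 h1).resolve_left hγ)⟩

end Par

end Ctx

end SC
end

-- merged part: Pool.Agent.Work.MP_8a5de9_co.UOut
section
-- merged part: Pool.Agent.Work.MP_8a5de9_co.UOut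
section
/-!
# The number of outer vertices

`out_card`: the patches that occur in `A ∈ OutS R` form a set `D₀ ⊆ R` with `|D₀| ≤ d - 1` (the set
`A` contains `D₀ × {none}` and one more element); enlarge `D₀` to a subset `D₁ ⊆ R` with exactly
`d - 1` elements (`Finset.exists_subsuperset_card_eq`); then `A ⊆ D₁ ×ˢ univ`.
-/

open Set Filter Topology Metric

namespace SC

variable {E ι μ : Type} [NormedAddCommGroup E] [NormedSpace ℝ E] [FiniteDimensional ℝ E]
  [Fintype ι] [DecidableEq ι] [Fintype μ] [DecidableEq μ]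

namespace Ctx

variable (c : Ctx E ι μ)

theorem out_card {R : Finset ι} (h : c.d - 1 ≤ R.card) :
    (c.OutS R).card ≤ 2 ^ ((Fintype.card μ + 1) * c.d) * R.card.choose (c.d - 1) := by
  have hsub : c.OutS R ⊆ (R.powersetCard (c.d - 1)).biUnion fun D =>
      (D ×ˢ (Finset.univ : Finset (Option μ))).powerset := by
    intro A hA
    obtain ⟨hR, hc, ⟨x, hadm⟩, j, hj, hjn⟩ := mem_OutS.1 hA
    have h1 : A.image Prod.fst ⊆ R := fun i hi => by
      obtain ⟨j, hj, rfl⟩ := Finset.mem_image.1 hi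
      exact hR j hj
    have h2 : (A.image Prod.fst).card ≤ c.d - 1 := by
      rw [← hc, ← Finset.card_erase_of_mem hj]
      refine Finset.card_le_card_of_injOn (fun i => (i, none)) (fun i hi => ?_)
        fun i _ i' _ e => congrArg Prod.fst e
      obtain ⟨j', hj', rfl⟩ := Finset.mem_image.1 (Finset.mem_coe.1 hi)
      exact Finset.mem_coe.2 (Finset.mem_erase.2
        ⟨fun e => hjn (congrArg Prod.snd e).symm, hadm.1 j' hj'⟩)
    obtain ⟨D, hD1, hD2, hD3⟩ := Finset.exists_subsuperset_card_eq h1 h2 h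
    refine Finset.mem_biUnion.2 ⟨D, Finset.mem_powersetCard.2 ⟨hD2, hD3⟩,
      Finset.mem_powerset.2 fun j hj => Finset.mem_product.2 ⟨hD1 ?_, Finset.mem_univ _⟩⟩
    exact Finset.mem_image_of_mem _ hj
  refine (Finset.card_le_card hsub).trans ((Finset.card_biUnion_le_card_mul _ _
    (2 ^ ((Fintype.card μ + 1) * c.d)) fun D hD => ?_).trans ?_)
  · rw [Finset.card_powerset, Finset.card_product, (Finset.mem_powersetCard.1 hD).2,
      Finset.card_univ, Fintype.card_option, mul_comm]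
    exact Nat.pow_le_pow_right two_pos (Nat.mul_le_mul_left _ (Nat.sub_le _ _))
  · rw [Finset.card_powersetCard, mul_comm]

/-- For `R = ∅` the set is empty; for `1 ≤ |R| < d - 1` count all subsets of `R ×ˢ univ`. -/
theorem out_pow (R : Finset ι) :
    (c.OutS R).card ≤ 2 ^ ((Fintype.card μ + 1) * c.d) * R.card ^ (c.d - 1) := by
  rcases le_or_gt (c.d - 1) R.card with h | h
  · exact (c.out_card h).trans (Nat.mul_le_mul_left _ (Nat.choose_le_pow _ _))
  rcases R.eq_empty_or_nonempty with rfl | hne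
  · have e : c.OutS ∅ = ∅ := Finset.eq_empty_of_forall_notMem fun A hA => by
      obtain ⟨hR, -, -, j, hj, -⟩ := mem_OutS.1 hA
      exact Finset.notMem_empty _ (hR j hj)
    rw [e]
    exact Nat.zero_le _
  · have hsub : c.OutS R ⊆ (R ×ˢ (Finset.univ : Finset (Option μ))).powerset := fun A hA =>
      Finset.mem_powerset.2 fun j hj =>
        Finset.mem_product.2 ⟨(mem_OutS.1 hA).1 j hj, Finset.mem_univ _⟩
    refine (Finset.card_le_card hsub).trans (le_trans ?_
      (Nat.le_mul_of_pos_right _ (pow_pos hne.card_pos _)))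
    rw [Finset.card_powerset, Finset.card_product, Finset.card_univ, Fintype.card_option, mul_comm]
    exact Nat.pow_le_pow_right two_pos (Nat.mul_le_mul_left _ (by omega))

end Ctx

end SC
end

-- merged part: Pool.Agent.Work.MP_8a5de9_co.UMin
section
/-!
# The number of local minima and of extremal sides

`min_card`.  All but the lowest `τ` have a saddle.  Map `τ` to `(act w, signs of the equations of
act w at a point of A in ball w ρ_w)`.  The points of `ball w ρ_w ∩ {z < z w}` with these signs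
form a convex subset of `U` that meets `A`, so it lies in `A`; if `τ, τ'` have the same image then
`w = w'` (`adm_uniq`), the connected sets `A, A'` meet, so `A = A'` (`Clo.pre`), and
`z v ≤ z v' ≤ z v`; use `Inner.height`; the signs are determined by `D` since all edges go up.

`tup_up`: extend the pattern to all of `D` so that all edges go up (`exists_edge`, `Edge.z_ne`,
`Good.refine`); the old pattern is the restriction of the new one to a subset of `D`.
`ext_card`: apply `tup_up`, `min_card` to `c` and to `c.neg` (`up_neg`).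
-/

open Set Filter Topology Metric

namespace SC

variable {E ι μ : Type} [NormedAddCommGroup E] [NormedSpace ℝ E] [FiniteDimensional ℝ E]
  [Fintype ι] [DecidableEq ι] [Fintype μ] [DecidableEq μ]

namespace Ctx

variable {c : Ctx E ι μ}

omit [FiniteDimensional ℝ E] [Fintype μ] [DecidableEq μ] in
theorem UMin_mem {R : Finset ι} {k : ℕ} {τ : Tu ι} :
    τ ∈ c.TUp R k ↔ τ ∈ c.Tup R k ∧ ∀ i ∈ supp τ.2, c.Up τ i := by
  classical
  unfold TUp
  exact Finset.mem_filter

omit [FiniteDimensional ℝ E] [Fintype ι] [DecidableEq ι] [Fintype μ] [DecidableEq μ] in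
theorem UMin_congr {t t' : Tu ι} {i : ι} (h1 : t'.1 = t.1) (h2 : t'.2 i = t.2 i) (h : c.Up t i) :
    c.Up t' i := by
  obtain ⟨e, he, hz⟩ := h
  exact ⟨e, ⟨h1 ▸ he.1, h2 ▸ he.2⟩, hz⟩

theorem UMin_flip {t t' : Tu ι} {i : ι} (h : c.Inner t.1) (hi : i ∈ t.1) (hs : t.2 i ≠ 0)
    (h1 : t'.1 = t.1) (h2 : t'.2 i = -t.2 i) : c.Up t' i ↔ ¬ c.Up t i := by
  obtain ⟨e, he⟩ := exists_edge h hi
  have he' : c.Edge t' i (-e) := by
    refine ⟨fun j hj hji => ?_, ?_⟩
    · rw [map_neg, he.1 j (h1 ▸ hj) hji, neg_zero]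
    · rw [map_neg, Left.sign_neg, he.2, h2]
  have hs' : t'.2 i ≠ 0 := by
    rw [h2]
    exact fun h0 => hs (SignType.neg_eq_zero_iff.1 h0)
  rw [Edge.up_iff h hi hs he, Edge.up_iff (h1 ▸ h) (h1 ▸ hi) hs' he', map_neg]
  have := Edge.z_ne h hi hs he
  constructor
  · intro h3 h4
    linarith
  · intro h3
    have := lt_of_le_of_ne (not_lt.1 h3) this
    linarith

open Classical in
/-- The pattern on `D` with all edges up. -/
noncomputable def UMin_pat (c : Ctx E ι μ) (D : Finset ι) : ι → SignType :=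
  fun i => if i ∈ D then (if c.Up (D, fun _ => 1) i then 1 else -1) else 0

omit [FiniteDimensional ℝ E] [Fintype μ] [DecidableEq μ] in
theorem UMin_supp (D : Finset ι) : supp (c.UMin_pat D) = D := by
  ext i
  rw [mem_supp, UMin_pat]
  by_cases hi : i ∈ D
  · simp only [hi, if_true, iff_true]
    split_ifs <;> decide
  · simp [hi]

theorem UMin_pat_up {D : Finset ι} (h : c.Inner D) {i : ι} (hi : i ∈ D) :
    c.Up (D, c.UMin_pat D) i := by
  by_cases hu : c.Up (D, fun _ => 1) i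
  · exact UMin_congr (t := (D, fun _ => 1)) rfl (by simp [UMin_pat, hi, hu]) hu
  · exact (UMin_flip (t := (D, fun _ => 1)) (t' := (D, c.UMin_pat D)) h hi (by simp) rfl
      (by simp [UMin_pat, hi, hu])).2 hu

theorem UMin_eq_pat {t : Tu ι} {i : ι} (h : c.Inner t.1) (hi : i ∈ t.1) (hs : t.2 i ≠ 0)
    (hu : c.Up t i) : t.2 i = c.UMin_pat t.1 i := by
  by_contra hne
  have h0 : c.UMin_pat t.1 i ≠ 0 := mem_supp.1 ((UMin_supp (c := c) t.1).superset hi)
  have h2 : c.UMin_pat t.1 i = -t.2 i := by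
    revert hne h0 hs
    generalize c.UMin_pat t.1 i = a
    generalize t.2 i = b
    revert a b
    decide
  exact (UMin_flip (t' := (t.1, c.UMin_pat t.1)) h hi hs rfl h2).1 (UMin_pat_up h hi) hu

theorem UMin_full {R : Finset ι} {τ : Tu ι} (hτ : τ ∈ c.TUp R c.d) : τ.2 = c.UMin_pat τ.1 := by
  obtain ⟨h1, h2⟩ := UMin_mem.1 hτ
  obtain ⟨-, hI, hs, hc, -⟩ := mem_Tup.1 h1
  have he : supp τ.2 = τ.1 := Finset.eq_of_subset_of_card_le hs (by rw [hc, hI.1])
  funext i
  by_cases hi : i ∈ τ.1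
  · have hi' : i ∈ supp τ.2 := he.symm ▸ hi
    exact UMin_eq_pat hI hi (mem_supp.1 hi') (h2 i hi')
  · have h3 : τ.2 i = 0 := by
      by_contra h0
      exact hi (hs (mem_supp.2 h0))
    rw [h3]
    simp [UMin_pat, hi]

theorem UMin_height {R : Finset ι} {τ τ' : Tu ι} (hτ : τ ∈ c.TUp R c.d) (hτ' : τ' ∈ c.TUp R c.d)
    (e : c.z (c.vtx τ.1) = c.z (c.vtx τ'.1)) : τ = τ' := by
  have h1 : τ.1 = τ'.1 :=
    Inner.height (mem_Tup.1 (UMin_mem.1 hτ).1).2.1 (mem_Tup.1 (UMin_mem.1 hτ').1).2.1 e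
  refine Prod.ext h1 ?_
  rw [UMin_full hτ, UMin_full hτ', h1]

/-- A good side contains points of the cell near the vertex. -/
theorem UMin_point {R : Finset ι} {k : ℕ} {τ : Tu ι} (hτ : τ ∈ c.Tup R k) {b : ℝ}
    (hb : c.z (c.vtx τ.1) < b) : ∃ x ∈ c.C R, c.z x < b := by
  obtain ⟨-, hI, hs, -, hg⟩ := mem_Tup.1 hτ
  have h0 : ∀ i ∈ τ.1, c.g i none (c.vtx τ.1) = 0 := fun i hi => (hI.2 i hi).1
  obtain ⟨e, he⟩ := c.solve (adm_hyp h0).1 fun j => ((τ.2 j.1 : SignType) : ℝ)
  have h1 : ∀ᶠ y in 𝓝 (c.vtx τ.1), c.z y < b :=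
    (isOpen_lt c.z_cont continuous_const).mem_nhds hb
  obtain ⟨W, hW, hWo, hWv⟩ := _root_.mem_nhds_iff.1 (hg.and h1)
  have h2 : Tendsto (fun ε : ℝ => ε • e + c.vtx τ.1) (𝓝[>] 0) (𝓝 (c.vtx τ.1)) := by
    have h3 : Continuous fun ε : ℝ => ε • e + c.vtx τ.1 := by fun_prop
    have h4 := h3.tendsto 0
    rw [zero_smul, zero_add] at h4
    exact h4.mono_left nhdsWithin_le_nhds
  obtain ⟨ε, hε, hε0⟩ := ((h2.eventually (hWo.mem_nhds hWv)).and self_mem_nhdsWithin).exists
  have hε0' : 0 < ε := hε0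
  have h5 : ε • e + c.vtx τ.1 ∈ c.Orth τ.2 := by
    intro i hi
    have hi' : i ∈ τ.1 := hs (mem_supp.2 hi)
    have h6 := (c.g i none).map_vadd (c.vtx τ.1) (ε • e)
    rw [vadd_eq_add, vadd_eq_add, h0 i hi', add_zero, map_smul,
      he (i, none) (Finset.mem_image_of_mem _ hi'), smul_eq_mul] at h6
    rw [h6, sign_mul, sign_pos hε0', one_mul]
    change SignType.sign ((τ.2 i : SignType) : ℝ) = τ.2 i
    generalize τ.2 i = a
    cases a <;> simp
  obtain ⟨x, ⟨hxW, hxO⟩, hxU⟩ :=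
    (dense_U (c := c) R).inter_open_nonempty (W ∩ c.Orth τ.2) (hWo.inter (isOpen_Orth _))
      ⟨_, hε, h5⟩
  exact ⟨x, (hW hxW).1 hxO hxU, (hW hxW).2⟩

/-- Two components below an outer vertex with the same local signs coincide. -/
theorem UMin_same {R : Finset ι} {w y y' : E} {ρ : ℝ} {A A' : Set E} (hρ : c.Loc R w ρ)
    (hA : c.Clo R (c.z w) A) (hA' : c.Clo R (c.z w) A') (hp : IsPreconnected A')
    (hy : y ∈ A) (hy' : y' ∈ A') (hb : y ∈ ball w ρ) (hb' : y' ∈ ball w ρ)
    (hs : ∀ j ∈ c.act R w, SignType.sign (c.g j.1 j.2 y') = SignType.sign (c.g j.1 j.2 y)) :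
    A' ⊆ A := by
  have h1 : Convex ℝ ((ball w ρ ∩ {x | c.z x < c.z w}) ∩
      {x | ∀ j ∈ c.act R w, SignType.sign (c.g j.1 j.2 x) = SignType.sign (c.g j.1 j.2 y)}) :=
    ((convex_ball w ρ).inter (convex_halfSpace_lt c.z.isLinear _)).inter (convex_sign _ _)
  have h2 := hA.pre h1.isPreconnected (fun x hx => ⟨fun i hi hxi =>
    (hA.sub y hy).1 i hi ((hρ.same hx.1.1 hb hx.2 i hi).1.1 hxi), hx.1.2⟩)
    (y := y) ⟨⟨hb, (hA.sub y hy).2⟩, fun _ _ => rfl⟩ hy
  exact hA.pre hp hA'.sub hy' (h2 ⟨⟨hb', (hA'.sub y' hy').2⟩, hs⟩)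

theorem min_card (R : Finset ι) : (c.TUp R c.d).card ≤ 1 + 3 ^ c.d * (c.OutS R).card := by
  classical
  rcases (c.TUp R c.d).eq_empty_or_nonempty with h | h
  · rw [h]
    exact Nat.zero_le _
  obtain ⟨τ₀, h₀, hmin⟩ := (c.TUp R c.d).exists_min_image (fun τ => c.z (c.vtx τ.1)) h
  choose ρ hρ using exists_loc (c := c) R
  have h1 : ∀ τ : Tu ι, ∃ (w : E) (A : Set E) (y : E), τ ∈ (c.TUp R c.d).erase τ₀ →
      c.OutV R w ∧ c.Clo R (c.z w) A ∧ IsPreconnected A ∧ y ∈ A ∧ y ∈ ball w (ρ w) ∧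
      c.vtx τ.1 ∈ closure A ∧ ∀ x ∈ A, c.z (c.vtx τ.1) < c.z x := by
    intro τ
    by_cases hτ : τ ∈ (c.TUp R c.d).erase τ₀
    · obtain ⟨hne, hτ'⟩ := Finset.mem_erase.1 hτ
      have h2 : c.z (c.vtx τ₀.1) < c.z (c.vtx τ.1) :=
        lt_of_le_of_ne (hmin τ hτ') fun e => hne (UMin_height h₀ hτ' e).symm
      obtain ⟨x, hx, hxz⟩ := UMin_point (UMin_mem.1 h₀).1 h2
      obtain ⟨w, A, a1, a2, a3, a4, a5, a6⟩ := saddle hτ' hx hxz.le
      obtain ⟨y, hy1, hy2⟩ := mem_closure_iff_nhds.1 a4 _ (ball_mem_nhds w (hρ w).1)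
      exact ⟨w, A, y, fun _ => ⟨a1, a2, a3, hy2, hy1, a5, a6⟩⟩
    · exact ⟨0, ∅, 0, fun h => (hτ h).elim⟩
  choose w A y hw using h1
  have h2 : ((c.TUp R c.d).erase τ₀).card ≤ ((c.OutS R).sigma fun B =>
      Finset.univ.filter fun s : ι × Option μ → SignType => supp s ⊆ B).card := by
    refine Finset.card_le_card_of_injOn (fun τ => ⟨c.act R (w τ), fun j =>
      if j ∈ c.act R (w τ) then SignType.sign (c.g j.1 j.2 (y τ)) else 0⟩) ?_ ?_
    · intro τ hτ
      refine Finset.mem_coe.2 (Finset.mem_sigma.2 ⟨(hw τ hτ).1, ?_⟩)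
      refine Finset.mem_filter.2 ⟨Finset.mem_univ _, fun j hj => ?_⟩
      by_contra hj'
      exact mem_supp.1 hj (if_neg hj')
    · intro τ hτ τ' hτ' he
      obtain ⟨a1, a2, a3, a4, a5, a6, a7⟩ := hw τ hτ
      obtain ⟨b1, b2, b3, b4, b5, b6, b7⟩ := hw τ' hτ'
      obtain ⟨e1, e2⟩ := Sigma.mk.inj he
      have e3 := eq_of_heq e2
      have hww : w τ = w τ' :=
        c.adm_uniq (adm_act R (w τ)) (mem_OutS.1 a1).2.1 (e1 ▸ adm_act R (w τ'))
      rw [← hww] at b2 b5 e3
      have e4 : ∀ j ∈ c.act R (w τ),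
          SignType.sign (c.g j.1 j.2 (y τ)) = SignType.sign (c.g j.1 j.2 (y τ')) := by
        intro j hj
        have := congrFun e3 j
        simpa only [if_pos hj] using this
      have s1 := UMin_same (hρ _) a2 b2 b3 a4 b4 a5 b5 fun j hj => (e4 j hj).symm
      have s2 := UMin_same (hρ _) b2 a2 a3 b4 a4 b5 a5 e4
      have k1 : c.z (c.vtx τ.1) ≤ c.z (c.vtx τ'.1) :=
        closure_minimal (t := {x | c.z (c.vtx τ.1) ≤ c.z x}) (fun x hx => (a7 x (s1 hx)).le)
          (isClosed_le continuous_const c.z_cont) b6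
      have k2 : c.z (c.vtx τ'.1) ≤ c.z (c.vtx τ.1) :=
        closure_minimal (t := {x | c.z (c.vtx τ'.1) ≤ c.z x}) (fun x hx => (b7 x (s2 hx)).le)
          (isClosed_le continuous_const c.z_cont) a6
      exact UMin_height (Finset.mem_of_mem_erase hτ) (Finset.mem_of_mem_erase hτ')
        (le_antisymm k1 k2)
  have h3 : ((c.OutS R).sigma fun B =>
      Finset.univ.filter fun s : ι × Option μ → SignType => supp s ⊆ B).card ≤
      (c.OutS R).card * 3 ^ c.d := by
    rw [Finset.card_sigma]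
    refine (Finset.sum_le_card_nsmul _ _ (3 ^ c.d) fun B hB => ?_).trans_eq (smul_eq_mul _ _)
    rw [← (mem_OutS.1 hB).2.1]
    exact card_supp_le B
  have h4 := Finset.card_erase_add_one h₀
  rw [mul_comm]
  omega

theorem tup_up (R : Finset ι) (k : ℕ) : (c.TUp R k).card ≤ 2 ^ c.d * (c.TUp R c.d).card := by
  classical
  have h0 : ∀ τ ∈ c.TUp R k, ∀ i, τ.2 i ≠ 0 → τ.2 i = c.UMin_pat τ.1 i := by
    intro τ hτ i hi
    obtain ⟨h1, h2⟩ := UMin_mem.1 hτ
    obtain ⟨-, hI, hs, -, -⟩ := mem_Tup.1 h1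
    exact UMin_eq_pat hI (hs (mem_supp.2 hi)) hi (h2 i (mem_supp.2 hi))
  refine Finset.card_le_mul_card_image_of_maps_to (f := fun τ => (τ.1, c.UMin_pat τ.1)) ?_ _ ?_
  · intro τ hτ
    obtain ⟨hR, hI, -, -, hg⟩ := mem_Tup.1 (UMin_mem.1 hτ).1
    refine UMin_mem.2 ⟨mem_Tup.2 ⟨hR, hI, (UMin_supp _).subset, ?_, ?_⟩, fun i hi => ?_⟩
    · exact (congrArg Finset.card (UMin_supp τ.1)).trans hI.1
    · exact hg.refine fun i hi => (h0 τ hτ i hi).symm
    · exact UMin_pat_up hI ((UMin_supp τ.1).subset hi)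
  · intro b hb
    rw [← (mem_Tup.1 (UMin_mem.1 hb).1).2.1.1, ← Finset.card_powerset]
    refine Finset.card_le_card_of_injOn (fun τ => supp τ.2) ?_ ?_
    · intro τ hτ
      obtain ⟨h1, h2⟩ := Finset.mem_filter.1 (Finset.mem_coe.1 hτ)
      rw [← h2]
      exact Finset.mem_coe.2 (Finset.mem_powerset.2 (mem_Tup.1 (UMin_mem.1 h1).1).2.2.1)
    · intro τ hτ τ' hτ' he
      obtain ⟨h1, h2⟩ := Finset.mem_filter.1 (Finset.mem_coe.1 hτ)
      obtain ⟨h1', h2'⟩ := Finset.mem_filter.1 (Finset.mem_coe.1 hτ')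
      have h3 : τ.1 = τ'.1 := (congrArg Prod.fst h2).trans (congrArg Prod.fst h2').symm
      have h4 : supp τ.2 = supp τ'.2 := he
      refine Prod.ext h3 (funext fun i => ?_)
      by_cases hi : τ.2 i = 0
      · by_contra hne
        have h5 : i ∈ supp τ'.2 := mem_supp.2 fun h6 => hne (hi.trans h6.symm)
        exact mem_supp.1 (h4 ▸ h5) hi
      · have h5 : i ∈ supp τ'.2 := h4 ▸ mem_supp.2 hi
        rw [h0 τ h1 i hi, h0 τ' h1' i (mem_supp.1 h5), h3]

theorem ext_card (R : Finset ι) (k : ℕ) :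
    (c.TExt R k).card ≤ 2 ^ (c.d + 1) * (1 + 3 ^ c.d * (c.OutS R).card) := by
  classical
  have h1 : c.TExt R k ⊆ c.TUp R k ∪ c.neg.TUp R k := by
    intro τ hτ
    obtain ⟨h2, h3⟩ := Finset.mem_filter.1 hτ
    rcases h3 with h3 | h3
    · exact Finset.mem_union_left _ (UMin_mem.2 ⟨h2, h3⟩)
    · obtain ⟨-, hI, hs, -, -⟩ := mem_Tup.1 h2
      exact Finset.mem_union_right _ (UMin_mem.2 ⟨h2, fun i hi =>
        (up_neg hI (hs hi) (mem_supp.1 hi)).2 (h3 i hi)⟩)
  have h2 := (tup_up (c := c) R k).trans (Nat.mul_le_mul_left _ (min_card R))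
  have h3 : (c.neg.TUp R k).card ≤ 2 ^ c.d * (1 + 3 ^ c.d * (c.OutS R).card) :=
    (tup_up (c := c.neg) R k).trans (Nat.mul_le_mul_left _ (min_card R))
  have h4 := (Finset.card_le_card h1).trans (Finset.card_union_le _ _)
  rw [pow_succ, mul_comm _ 2, mul_assoc]
  omega

end Ctx

/-- The constant for the extremal sides. -/
def kext (d m : ℕ) : ℕ := 2 ^ (d + 1) * (1 + 3 ^ d * 2 ^ ((m + 1) * d))

theorem Ctx.ext_le (c : Ctx E ι μ) (R : Finset ι) (k : ℕ) :
    (c.TExt R k).card ≤ kext c.d (Fintype.card μ) * R.card.choose (c.d - 1) := by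
  classical
  rcases lt_or_ge R.card c.d with h | h
  · have h1 : c.TExt R k = ∅ := by
      unfold Ctx.TExt
      rw [Ctx.tup_empty h, Finset.filter_empty]
    rw [h1]
    exact Nat.zero_le _
  · have h1 : c.d - 1 ≤ R.card := by omega
    refine (Ctx.ext_card R k).trans ?_
    rw [kext, mul_assoc, add_mul, one_mul, mul_assoc]
    exact Nat.mul_le_mul_left _ (add_le_add (Nat.choose_pos h1)
      (Nat.mul_le_mul_left _ (c.out_card h1)))

end SC
end
end

-- merged part: Pool.Agent.Work.MP_8a5de9_co.USlideA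
section
/-!
# Sliding along an edge across a patch

`exists_slide`.  Let `v = vtx t.1`, `e` an edge vector (`exists_edge`), `D₀ = t.1.erase i`
(nonempty).  The set `{x | On R D₀ x}` is relatively open on the line `v - s e`; it contains the
points with small `s > 0` (`exists_loc`, `Inner.on`), and not those with large `s` (patches are
bounded, `e ≠ 0`).  Let `s₀` be the infimum of the `s > 0` with `¬ On R D₀ (v - s e)`; patches are
closed.

`Slide.cases`.  `act R v'` contains `D₀ × {none}` and one more element (since `¬ On`), hence has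
exactly `d` elements (`card_le`).  If the extra element is a boundary equation, `v'` is an outer
vertex.  Otherwise it is `(j, none)` with `j ≠ i` (the sign at `v'` is not zero), and
`inner_of_mem` applies.
-/

open Set Filter Topology Metric

namespace SC

variable {E ι μ : Type} [NormedAddCommGroup E] [NormedSpace ℝ E] [FiniteDimensional ℝ E]
  [Fintype ι] [DecidableEq ι] [Fintype μ] [DecidableEq μ]

namespace Ctx

variable (c : Ctx E ι μ)

/-- Starting at the vertex of `t`, cross the patch `i` along the edge number `i` and stop at the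
next vertex `v'`. -/
structure Slide (R : Finset ι) (t : Tu ι) (i : ι) (v' : E) : Prop where
  seg : ∀ y ∈ openSegment ℝ (c.vtx t.1) v', c.On R (t.1.erase i) y
  stop : ¬ c.On R (t.1.erase i) v'
  mem : ∀ j ∈ t.1.erase i, v' ∈ patch c.g j
  sgn : SignType.sign (c.g i none v') = -t.2 i

open Classical in
/-- Slides whose other side is good as well. -/
noncomputable def PA (R : Finset ι) (k : ℕ) : Finset (Tu ι × ι) :=
  (c.Tup R k ×ˢ Finset.univ).filter fun q => q.1.2 q.2 ≠ 0 ∧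
    c.Good R (c.vtx q.1.1) (Function.update q.1.2 q.2 (-q.1.2 q.2))

open Classical in
/-- Slides that end at an outer vertex. -/
noncomputable def PB (R : Finset ι) (k : ℕ) : Finset (Tu ι × ι) :=
  (c.Tup R k ×ˢ Finset.univ).filter fun q => q.1.2 q.2 ≠ 0 ∧
    ∃ v', c.Slide R q.1 q.2 v' ∧ c.OutV R v'

variable {c} {R : Finset ι} {t : Tu ι} {i : ι} {v' : E} {k : ℕ}

theorem USlideA_near {D : Finset ι} {γ : ℝ → E} (hγ : Continuous γ) (hD : D ⊆ R)
    (h0 : ∀ s, ∀ j ∈ D, c.g j none (γ s) = 0) {s : ℝ} (h1 : ∀ j ∈ D, γ s ∈ c.rel j) :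
    ∀ᶠ r in 𝓝 s, (∀ j ∈ R, j ∉ D → γ s ∈ patch c.g j → c.g j none (γ r) ≠ 0) → c.On R D (γ r) := by
  obtain ⟨ρ, hρ⟩ := exists_loc (c := c) R (γ s)
  filter_upwards [hγ.continuousAt.eventually (ball_mem_nhds _ hρ.1)] with r hr h2
  refine ⟨hD, fun j hj => ⟨h0 r j hj, fun l =>
    (hρ.2 _ hr j (hD hj)).2 (rel_sub j (h1 j hj)) l ((h1 j hj).2 l)⟩, fun j hj hj' h3 => ?_⟩
  by_cases h4 : γ s ∈ patch c.g j
  · exact h2 j hj hj' h4 h3.1
  · exact (hρ.2 _ hr j hj).1 h4 h3

theorem exists_slide (hR : t.1 ⊆ R) (h : c.Inner t.1) (hi : i ∈ t.1) (hs : t.2 i ≠ 0) :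
    ∃ v', c.Slide R t i v' := by
  obtain ⟨e, he, hsg⟩ := exists_edge h hi
  set γ : ℝ → E := fun s => -(s • e) + c.vtx t.1 with hγ
  have hc : Continuous γ := by fun_prop
  have hD : t.1.erase i ⊆ R := (Finset.erase_subset _ _).trans hR
  have hv : ∀ s, ∀ j ∈ t.1, c.g j none (γ s) = -(s * (c.g j none).linear e) := fun s j hj => by
    have := (c.g j none).map_vadd (c.vtx t.1) (-(s • e))
    rw [(h.2 j hj).1, map_neg, map_smul, vadd_eq_add, vadd_eq_add, add_zero] at this
    exact this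
  have h0 : ∀ s, ∀ j ∈ t.1.erase i, c.g j none (γ s) = 0 := fun s j hj => by
    rw [Finset.mem_erase] at hj
    rw [hv s j hj.2, he j hj.2 hj.1, mul_zero, neg_zero]
  have ha : (c.g i none).linear e ≠ 0 := fun h1 => hs (by rw [← hsg, h1, sign_zero])
  have he0 : 0 < ‖e‖ := norm_pos_iff.2 fun h1 => ha (by rw [h1, map_zero])
  have hγ0 : γ 0 = c.vtx t.1 := by simp [hγ]
  obtain ⟨ε, hε, h1⟩ := Metric.eventually_nhds_iff.1 (USlideA_near hc hD h0 (s := 0) fun j hj =>
    hγ0 ▸ h.2 j (Finset.mem_of_mem_erase hj))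
  have h2 : IsClosed ({s | c.On R (t.1.erase i) (γ s)}ᶜ ∩ Ici ε) :=
    (isOpen_iff_eventually.2 fun s hs => (USlideA_near hc hD h0 hs.2.1).mono fun r hr =>
      hr fun j hj hj' h3 => absurd h3 (hs.2.2 j hj hj')).isClosed_compl.inter isClosed_Ici
  have h3 : ({s | c.On R (t.1.erase i) (γ s)}ᶜ ∩ Ici ε).Nonempty := by
    obtain ⟨j, hj⟩ : (t.1.erase i).Nonempty := by
      rw [← Finset.card_pos, Finset.card_erase_of_mem hi, h.1]
      have := c.d3
      omega
    obtain ⟨C, hC⟩ := (c.bdd j).subset_ball (c.vtx t.1)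
    refine ⟨max ε (C / ‖e‖), fun h4 => ?_, mem_Ici.2 (le_max_left _ _)⟩
    have h5 := hC (rel_sub j (h4.2.1 j hj))
    rw [mem_ball, dist_eq_norm, add_sub_cancel_right, norm_neg, norm_smul,
      Real.norm_of_nonneg (hε.le.trans (le_max_left _ _)), ← lt_div_iff₀ he0] at h5
    exact h5.not_ge (le_max_right _ _)
  have h4 : BddBelow ({s | c.On R (t.1.erase i) (γ s)}ᶜ ∩ Ici ε) := bddBelow_Ici.mono inter_subset_right
  obtain ⟨h5, h6⟩ := h2.csInf_mem h3 h4
  set s₀ := sInf ({s | c.On R (t.1.erase i) (γ s)}ᶜ ∩ Ici ε)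
  have h7 : 0 < s₀ := hε.trans_le h6
  have h8 : ∀ y ∈ openSegment ℝ (c.vtx t.1) (γ s₀), c.On R (t.1.erase i) y := by
    rintro _ ⟨a, b, ha0, hb, hab, rfl⟩
    have h9 : 0 < b * s₀ := mul_pos hb h7
    have e1 : a • c.vtx t.1 + b • γ s₀ = γ (b * s₀) := by
      simp only [hγ, eq_sub_of_add_eq hab]
      module
    rw [e1]
    rcases lt_or_ge (b * s₀) ε with h10 | h10
    · refine h1 (by rwa [dist_zero_right, Real.norm_of_nonneg h9.le]) fun j hj hj' h11 => ?_
      have h12 : j ∈ t.1 := by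
        by_contra h12
        exact (h.on hR).2.2 j hj h12 (hγ0 ▸ h11)
      obtain rfl : j = i := by
        by_contra h13
        exact hj' (Finset.mem_erase.2 ⟨h13, h12⟩)
      rw [hv _ j h12]
      exact neg_ne_zero.2 (mul_ne_zero h9.ne' ha)
    · by_contra h11
      have h12 : s₀ ≤ b * s₀ := csInf_le h4 ⟨h11, h10⟩
      nlinarith [mul_pos ha0 h7]
  refine ⟨γ s₀, h8, h5, fun j hj => ?_, ?_⟩
  · refine closure_minimal (fun y hy => rel_sub j ((h8 y hy).2.1 j hj)) (isClosed_patch c.g j) ?_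
    rw [closure_openSegment]
    exact right_mem_segment _ _ _
  · rw [hv _ i hi, Left.sign_neg, sign_mul, sign_pos h7, one_mul, hsg]

theorem Slide.cases (h : c.Slide R t i v') (hR : t.1 ⊆ R) (hI : c.Inner t.1) (hi : i ∈ t.1)
    (hs : t.2 i ≠ 0) : c.OutV R v' ∨ ∃ j ∈ R, j ∉ t.1 ∧ c.Inner (insert j (t.1.erase i)) ∧
      c.vtx (insert j (t.1.erase i)) = v' := by
  have hD : t.1.erase i ⊆ R := (Finset.erase_subset _ _).trans hR
  have hc : (t.1.erase i).card + 1 = c.d := (Finset.card_erase_add_one hi).trans hI.1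
  by_cases h1 : ∀ j ∈ R, j ∉ t.1.erase i → v' ∉ patch c.g j
  · left
    obtain ⟨j, hj, l, hl⟩ : ∃ j ∈ t.1.erase i, ∃ l, c.g j (some l) v' = 0 := by
      by_contra h2
      exact h.stop ⟨hD, fun j hj => ⟨(h.mem j hj).1, fun l =>
        ((h.mem j hj).2 l).lt_of_ne' fun h3 => h2 ⟨j, hj, l, h3⟩⟩, h1⟩
    have h2 : (j, some l) ∈ c.act R v' := mem_act.2 ⟨hD hj, h.mem j hj, hl⟩
    refine mem_OutS.2 ⟨fun a ha => (mem_act.1 ha).1, (c.card_le (adm_act R v')).antisymm ?_,
      ⟨v', adm_act R v'⟩, _, h2, Option.some_ne_none l⟩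
    rw [← hc, ← (adm_hyp fun j hj => (h.mem j hj).1).2,
      ← Finset.card_insert_of_notMem (a := (j, some l)) (by simp)]
    refine Finset.card_le_card (Finset.insert_subset h2 (Finset.image_subset_iff.2 fun a ha => ?_))
    exact mem_act.2 ⟨hD ha, h.mem a ha, (h.mem a ha).1⟩
  · right
    push Not at h1
    obtain ⟨j, hj, hj', h2⟩ := h1
    refine ⟨j, hj, fun h3 => ?_, inner_of_mem (by rw [Finset.card_insert_of_notMem hj', hc])
      fun a ha => ?_⟩
    · obtain rfl : j = i := by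
        by_contra h4
        exact hj' (Finset.mem_erase.2 ⟨h4, h3⟩)
      have h4 := h.sgn
      rw [h2.1, sign_zero] at h4
      exact hs (SignType.neg_eq_zero_iff.1 h4.symm)
    · rcases Finset.mem_insert.1 ha with rfl | ha
      exacts [h2, h.mem a ha]

end Ctx

end SC
end

-- merged part: Pool.Agent.Work.MP_8a5de9_co.USlide
section
/-!
# Counting the slides of the first two kinds

`PA_card`: `(t, i) ↦ ((t.1, update t.2 i 0), i, t.2 i)` is injective, `good_both`.

`PB_card`: `(t, i) ↦ (act R v', update t.2 i 0, z v' < z v)`.  `act R v'` determines `v'`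
(`adm_uniq`) and `D₀ = {j | (j, none) ∈ act R v'}`.  For two pairs with the same image
`v₂ - v' = κ (v₁ - v')` with `κ > 0` (`kerz`); if `κ < 1` then `v₂` lies on the open segment of the
first slide although it lies on the patch `i₂ ∉ D₀`; so `κ = 1` by symmetry, `v₁ = v₂`, then
`Inner.height` gives `t₁.1 = t₂.1`, so `i₁ = i₂`, and `sgn` gives the last sign.  Count the images
with `card_supp_le`.
-/

open Set Filter Topology Metric

namespace SC

variable {E ι μ : Type} [NormedAddCommGroup E] [NormedSpace ℝ E] [FiniteDimensional ℝ E]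
  [Fintype ι] [DecidableEq ι] [Fintype μ] [DecidableEq μ]

namespace Ctx

variable {c : Ctx E ι μ}

theorem USlide_supp (s : ι → SignType) (i : ι) :
    supp (Function.update s i 0) = (supp s).erase i := by
  ext j
  by_cases h : j = i
  · simp [h]
  · simp [h]

theorem USlide_ext {s s' : ι → SignType} {i : ι}
    (h : Function.update s i 0 = Function.update s' i 0) (h' : s i = s' i) : s = s' := by
  funext j
  by_cases e : j = i
  · rw [e, h']
  · simpa [e] using congrFun h j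

section

variable {R : Finset ι} {t t' : Tu ι} {i i' : ι} {v' : E}

theorem USlide_D (h : c.Slide R t i v') (ho : c.OutV R v') (hR : t.1 ⊆ R) (hI : c.Inner t.1)
    (hi : i ∈ t.1) :
    t.1.erase i = Finset.univ.filter fun j => (j, none) ∈ c.act R v' := by
  obtain ⟨-, hc, -, j₀, hj₀, hn⟩ := mem_OutS.1 ho
  refine Finset.eq_of_subset_of_card_le (fun j hj => ?_) ?_
  · exact Finset.mem_filter.2 ⟨Finset.mem_univ _,
      mem_act.2 ⟨hR (Finset.mem_of_mem_erase hj), h.mem j hj, (h.mem j hj).1⟩⟩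
  · rw [Finset.card_erase_of_mem hi, hI.1, ← hc, ← Finset.card_erase_of_mem hj₀]
    refine Finset.card_le_card_of_injOn (fun j => (j, none)) (fun j hj => ?_)
      fun _ _ _ _ e => (Prod.ext_iff.1 e).1
    refine Finset.mem_coe.2 (Finset.mem_erase.2 ⟨?_, (Finset.mem_filter.1 hj).2⟩)
    rintro rfl
    exact hn rfl

/-- a horizontal vector on the line of the slide is zero -/
theorem USlide_ker (h : c.Slide R t i v') (hI : c.Inner t.1) (hi : i ∈ t.1) {e : E}
    (he : ∀ j ∈ t.1.erase i, (c.g j none).linear e = 0) (hz : c.z e = 0) : e = 0 := by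
  obtain ⟨h1, h2⟩ := adm_hyp (c := c) (D := t.1.erase i) (x := v') fun j hj => (h.mem j hj).1
  refine c.kerz h1 ?_ (fun j hj => ?_) hz
  · rw [h2, Finset.card_erase_add_one hi, hI.1]
  · obtain ⟨j', hj', rfl⟩ := Finset.mem_image.1 hj
    exact he j' hj'

theorem USlide_lin (h : c.Slide R t i v') (hI : c.Inner t.1) :
    ∀ j ∈ t.1.erase i, (c.g j none).linear (c.vtx t.1 - v') = 0 := fun j hj => by
  have := (c.g j none).linearMap_vsub (c.vtx t.1) v'
  rw [(hI.2 j (Finset.mem_of_mem_erase hj)).1, (h.mem j hj).1] at this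
  simpa using this

theorem USlide_ne (h : c.Slide R t i v') (hI : c.Inner t.1) (hi : i ∈ t.1) (hs : t.2 i ≠ 0) :
    c.z (c.vtx t.1 - v') ≠ 0 := fun h0 => by
  have e := sub_eq_zero.1 (USlide_ker h hI hi (USlide_lin h hI) h0)
  have := h.sgn
  rw [← e, (hI.2 i hi).1, sign_zero] at this
  exact hs (by simpa using this.symm)

theorem USlide_lt (h : c.Slide R t i v') (hI : c.Inner t.1) (hi : i ∈ t.1)
    (h' : c.Slide R t' i' v') (hR' : t'.1 ⊆ R) (hI' : c.Inner t'.1) (hi' : i' ∈ t'.1)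
    (e : t.1.erase i = t'.1.erase i') {κ : ℝ} (h0 : 0 < κ) (h1 : κ < 1)
    (hz : c.z (c.vtx t'.1 - v') = κ * c.z (c.vtx t.1 - v')) : False := by
  have e1 : c.vtx t'.1 - v' - κ • (c.vtx t.1 - v') = 0 := by
    refine USlide_ker h hI hi (fun j hj => ?_) ?_
    · rw [map_sub, map_smul, USlide_lin h hI j hj, USlide_lin h' hI' j (e ▸ hj), smul_zero,
        sub_zero]
    · rw [map_sub, map_smul, hz, smul_eq_mul, sub_self]
  have hm : c.vtx t'.1 ∈ openSegment ℝ (c.vtx t.1) v' :=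
    ⟨κ, 1 - κ, h0, by linarith, by ring, by
      rw [← sub_eq_zero, ← neg_eq_zero, ← e1]
      module⟩
  exact (h.seg _ hm).2.2 i' (hR' hi') (e ▸ Finset.notMem_erase i' _) (rel_sub i' (hI'.2 i' hi'))

theorem USlide_uniq (h : c.Slide R t i v') (hR : t.1 ⊆ R) (hI : c.Inner t.1) (hi : i ∈ t.1)
    (hs : t.2 i ≠ 0) (h' : c.Slide R t' i' v') (hR' : t'.1 ⊆ R) (hI' : c.Inner t'.1)
    (hi' : i' ∈ t'.1) (hs' : t'.2 i' ≠ 0) (e : t.1.erase i = t'.1.erase i')
    (hz : 0 < c.z (c.vtx t.1 - v') ↔ 0 < c.z (c.vtx t'.1 - v')) : t.1 = t'.1 := by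
  have ha := USlide_ne h hI hi hs
  have hb := USlide_ne h' hI' hi' hs'
  have hq : 0 < c.z (c.vtx t'.1 - v') / c.z (c.vtx t.1 - v') := by
    rcases ha.lt_or_gt with h1 | h1
    · exact div_pos_of_neg_of_neg (hb.lt_or_gt.resolve_right fun h2 => h1.not_gt (hz.2 h2)) h1
    · exact div_pos (hz.1 h1) h1
  rcases lt_trichotomy (c.z (c.vtx t'.1 - v') / c.z (c.vtx t.1 - v')) 1 with h1 | h1 | h1
  · exact (USlide_lt h hI hi h' hR' hI' hi' e hq h1 (by field_simp)).elim
  · refine hI.height hI' ?_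
    rw [div_eq_one_iff_eq ha, map_sub, map_sub] at h1
    linarith
  · exact (USlide_lt h' hI' hi' h hR hI hi e.symm (inv_pos.2 hq) (inv_lt_one_of_one_lt₀ h1)
      (by field_simp)).elim

end

theorem PA_card (R : Finset ι) (k : ℕ) :
    (c.PA R (k + 1)).card ≤ 2 * c.d * (c.Tup R k).card := by
  classical
  have hm : ∀ q ∈ c.PA R (k + 1), q.1 ∈ c.Tup R (k + 1) ∧ q.1.2 q.2 ≠ 0 ∧
      c.Good R (c.vtx q.1.1) (Function.update q.1.2 q.2 (-q.1.2 q.2)) := fun q hq =>
    ⟨(Finset.mem_product.1 (Finset.mem_filter.1 hq).1).1, (Finset.mem_filter.1 hq).2⟩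
  refine Finset.card_le_mul_card_image_of_maps_to
    (f := fun q : Tu ι × ι => ((q.1.1, Function.update q.1.2 q.2 0) : Tu ι)) (fun q hq => ?_) _
    fun t ht => ?_
  · obtain ⟨h1, h2, h3⟩ := hm q hq
    obtain ⟨hR, hI, hs, hk, hg⟩ := mem_Tup.1 h1
    refine mem_Tup.2 ⟨hR, hI, ?_, ?_, good_both (hI.on hR) (hs (mem_supp.2 h2)) h2 hg h3⟩
    · rw [USlide_supp]
      exact (Finset.erase_subset _ _).trans hs
    · rw [USlide_supp, Finset.card_erase_of_mem (mem_supp.2 h2), hk]
      rfl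
  · have hc : (t.1 ×ˢ (Finset.univ.erase (0 : SignType))).card = 2 * c.d := by
      rw [Finset.card_product, (mem_Tup.1 ht).2.1.1, mul_comm]
      rfl
    rw [← hc]
    refine Finset.card_le_card_of_injOn (fun q => (q.2, q.1.2 q.2)) (fun q hq => ?_) ?_
    · obtain ⟨hq', rfl⟩ := Finset.mem_filter.1 hq
      obtain ⟨h1, h2, -⟩ := hm q hq'
      exact Finset.mem_coe.2 (Finset.mem_product.2 ⟨(mem_Tup.1 h1).2.2.1 (mem_supp.2 h2),
        Finset.mem_erase.2 ⟨h2, Finset.mem_univ _⟩⟩)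
    · rintro ⟨⟨D, s⟩, i⟩ hq ⟨⟨D', s'⟩, i'⟩ hq' e
      have e1 := (Finset.mem_filter.1 hq).2.trans (Finset.mem_filter.1 hq').2.symm
      obtain rfl : i = i' := (Prod.ext_iff.1 e).1
      obtain rfl : D = D' := (Prod.ext_iff.1 e1).1
      obtain rfl : s = s' := USlide_ext (Prod.ext_iff.1 e1).2 (Prod.ext_iff.1 e).2
      rfl

theorem PB_card (R : Finset ι) (k : ℕ) :
    (c.PB R k).card ≤ 2 * 3 ^ c.d * (c.OutS R).card := by
  classical
  have hm : ∀ q ∈ c.PB R k, ∃ v', (q.1.1 ⊆ R ∧ c.Inner q.1.1 ∧ supp q.1.2 ⊆ q.1.1) ∧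
      q.1.2 q.2 ≠ 0 ∧ c.Slide R q.1 q.2 v' ∧ c.OutV R v' := fun q hq => by
    obtain ⟨h1, h2, v', h3⟩ := Finset.mem_filter.1 hq
    obtain ⟨hR, hI, hs, -⟩ := mem_Tup.1 (Finset.mem_product.1 h1).1
    exact ⟨v', ⟨hR, hI, hs⟩, h2, h3⟩
  choose! v hv using hm
  refine Finset.card_le_mul_card_image_of_maps_to (f := fun q : Tu ι × ι => c.act R (v q))
    (fun q hq => (hv q hq).2.2.2) _ fun A hA => ?_
  have hD : (Finset.univ.filter fun j : ι => (j, none) ∈ A).card ≤ c.d := by
    rw [← (mem_OutS.1 hA).2.1]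
    exact Finset.card_le_card_of_injOn (fun j => (j, none))
      (fun j hj => (Finset.mem_filter.1 hj).2) fun _ _ _ _ e => (Prod.ext_iff.1 e).1
  have hc : ((Finset.univ : Finset Bool) ×ˢ Finset.univ.filter fun s : ι → SignType =>
      supp s ⊆ Finset.univ.filter fun j : ι => (j, none) ∈ A).card ≤ 2 * 3 ^ c.d := by
    rw [Finset.card_product]
    exact Nat.mul_le_mul le_rfl ((card_supp_le _).trans (Nat.pow_le_pow_right (by norm_num) hD))
  refine le_trans ?_ hc
  refine Finset.card_le_card_of_injOn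
    (fun q => (decide (0 < c.z (c.vtx q.1.1 - v q)), Function.update q.1.2 q.2 0))
    (fun q hq => ?_) fun q hq q' hq' e => ?_
  · obtain ⟨hq', rfl⟩ := Finset.mem_filter.1 hq
    obtain ⟨⟨hR, hI, hs⟩, h2, h3, h4⟩ := hv q hq'
    refine Finset.mem_coe.2 (Finset.mem_product.2 ⟨Finset.mem_univ _,
      Finset.mem_filter.2 ⟨Finset.mem_univ _, ?_⟩⟩)
    rw [← USlide_D h3 h4 hR hI (hs (mem_supp.2 h2)), USlide_supp]
    exact Finset.erase_subset_erase _ hs
  · obtain ⟨hq, e1⟩ := Finset.mem_filter.1 hq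
    obtain ⟨hq', e2⟩ := Finset.mem_filter.1 hq'
    obtain ⟨⟨hR, hI, hs⟩, h2, h3, h4⟩ := hv q hq
    obtain ⟨⟨hR', hI', hs'⟩, h2', h3', h4'⟩ := hv q' hq'
    have hi := hs (mem_supp.2 h2)
    have hi' := hs' (mem_supp.2 h2')
    have ev : v q = v q' := c.adm_uniq (A := A) (e1 ▸ adm_act R (v q)) (mem_OutS.1 hA).2.1
      (e2 ▸ adm_act R (v q'))
    have eD : q.1.1.erase q.2 = q'.1.1.erase q'.2 := by
      rw [USlide_D h3 h4 hR hI hi, USlide_D h3' h4' hR' hI' hi', ev]
    obtain ⟨e3, e4⟩ := Prod.ext_iff.1 e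
    rw [← ev] at h3'
    have e5 : q.1.1 = q'.1.1 := USlide_uniq h3 hR hI hi h2 h3' hR' hI' hi' h2' eD
      (by simpa only [decide_eq_decide, ev] using e3)
    rw [← e5] at eD
    have e6 : q.2 = q'.2 := (Finset.erase_inj _ hi).1 eD
    have e7 := h3.sgn.symm.trans (e6 ▸ h3'.sgn)
    obtain ⟨⟨D, s⟩, i⟩ := q
    obtain ⟨⟨D', s'⟩, i'⟩ := q'
    obtain rfl : D = D' := e5
    obtain rfl : i = i' := e6
    obtain rfl : s = s' := USlide_ext e4 (neg_injective e7)
    rfl

end Ctx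

end SC
end

-- merged part: Pool.Agent.Work.MP_8a5de9_co.UMain
section
-- merged part: Pool.Agent.Work.MP_8a5de9_co.UWedgeA
section
/-!
# Good points of a flat, and the translation of wedges into sides

-/

open Set Filter Topology Metric

namespace SC

variable {E ι μ : Type} [NormedAddCommGroup E] [NormedSpace ℝ E] [FiniteDimensional ℝ E]
  [Fintype ι] [DecidableEq ι] [Fintype μ] [DecidableEq μ]

namespace Ctx

/-- The embedding of the patches into the equations. -/
def emb : ι ↪ ι × Option μ := ⟨fun T => (T, none), fun _ _ h => congrArg Prod.fst h⟩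

namespace Par

variable {c : Ctx E ι μ} {F : Finset ι} (P : c.Par F)

/-- Good points of the flat. -/
def Gp (R : Finset ι) (q : ℝ × ℝ) : Prop :=
  (∀ i ∈ F, P.φ q ∈ c.rel i) ∧ (∀ T ∈ R, P.φ q ∉ patch c.g T) ∧ c.Good (F ∪ R) (P.φ q) 0

/-- The side given by two patches and two signs. -/
def side (F : Finset ι) (T T' : ι) (σ σ' : SignType) : Tu ι :=
  (insert T (insert T' F), Function.update (Function.update 0 T' σ') T σ)

end Par

end Ctx

end SC
end

-- merged part: Pool.Agent.Work.MP_8a5de9_co.UWedge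
section
/-!
# Sides that are not extremal are upper wedges

`uw_of_mem`.  Let `supp t.2 = {T, T'}` with `Up t T'`, `¬ Up t T`, `vtx t.1 = φ u` (`surj`); `γ ≠ 0`
by `gam_ne`; choose `P` or `P.flip` such that `sign (γ (T', none)) = t.2 T'`.  The vector
`± (b1 + sl (T) • b2)` is an edge vector number `T'`, and `Edge.up_iff` shows that the sign is `+`;
this gives `sl T' < sl T`; likewise `-(b1 + sl (T') • b2)` is an edge vector number `T`, so
`sign (γ (T, none)) = t.2 T`.  For `q` near `u` above both lines use `good_local` (`←`).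
-/

open Set Filter Topology Metric

namespace SC

variable {E ι μ : Type} [NormedAddCommGroup E] [NormedSpace ℝ E] [FiniteDimensional ℝ E]
  [Fintype ι] [DecidableEq ι] [Fintype μ] [DecidableEq μ]

namespace Ctx

namespace Par

variable {c : Ctx E ι μ} {F : Finset ι} (P : c.Par F)

theorem UWedge_lin {j : ι × Option μ} (h : P.γ j ≠ 0) (s : ℝ) :
    (c.g j.1 j.2).linear (P.b1 + s • P.b2) = P.γ j * (s - P.sl j) := by
  rw [map_add, map_smul, smul_eq_mul, sl]
  change _ + s * P.γ j = _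
  field_simp
  ring

theorem UWedge_aux {R : Finset ι} (hR : Disjoint F R) {t : Tu ι} (ht : t ∈ c.Tup (F ∪ R) 2)
    {T T' : ι} (hT : T ∉ F) (hT' : T' ∉ F) (hne : T ≠ T') (hD : t.1 = insert T (insert T' F))
    (hsupp : supp t.2 = {T, T'}) (hd : ¬ c.Up t T) (hu : c.Up t T')
    (hγ : SignType.sign (P.γ (emb T')) = t.2 T') :
    P.pl.UW (P.Gp R) (emb T) (emb T') ∧
      t = side F T T' (SignType.sign (P.γ (emb T))) (SignType.sign (P.γ (emb T'))) := by
  obtain ⟨hsub, hI, hs, -, hg⟩ := mem_Tup.1 ht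
  have mT : T ∈ t.1 := by simp [hD]
  have mT' : T' ∈ t.1 := by simp [hD]
  have sT : t.2 T ≠ 0 := mem_supp.1 (by simp [hsupp])
  have sT' : t.2 T' ≠ 0 := mem_supp.1 (by simp [hsupp])
  have s0 : ∀ i, i ≠ T → i ≠ T' → t.2 i = 0 := fun i h1 h2 => by
    by_contra h
    have := mem_supp.2 h
    simp [hsupp, h1, h2] at this
  have mF : ∀ i ∈ F, i ∈ t.1 := fun i hi => by simp [hD, hi]
  obtain ⟨u, hv⟩ := P.surj fun i hi => (hI.2 i (mF i hi)).1
  have g1 : P.γ (emb T) ≠ 0 := P.gam_ne (Or.inl ⟨rfl, hT⟩) (q := u) (hv ▸ (hI.2 T mT).1)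
  have g2 : P.γ (emb T') ≠ 0 := P.gam_ne (Or.inl ⟨rfl, hT'⟩) (q := u) (hv ▸ (hI.2 T' mT').1)
  have kF : ∀ s : ℝ, ∀ i ∈ F, (c.g i none).linear (P.b1 + s • P.b2) = 0 := fun s i hi => by
    simp [P.h1 i hi, P.h2 i hi]
  have zz : ∀ s : ℝ, c.z (P.b1 + s • P.b2) = 1 := fun s => by simp [P.z1, P.z2]
  have l1 : ∀ s : ℝ, (c.g T none).linear (P.b1 + s • P.b2) = P.γ (emb T) * (s - P.sl (emb T)) :=
    P.UWedge_lin g1
  have l2 : ∀ s : ℝ, (c.g T' none).linear (P.b1 + s • P.b2) = P.γ (emb T') * (s - P.sl (emb T')) :=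
    P.UWedge_lin g2
  have k1 : ∀ j ∈ t.1, j ≠ T' → (c.g j none).linear (P.b1 + P.sl (emb T) • P.b2) = 0 := by
    intro j hj h
    simp only [hD, Finset.mem_insert] at hj
    rcases hj with rfl | rfl | hj
    · rw [l1, sub_self, mul_zero]
    · exact absurd rfl h
    · exact kF _ j hj
  have k2 : ∀ j ∈ t.1, j ≠ T → (c.g j none).linear (P.b1 + P.sl (emb T') • P.b2) = 0 := by
    intro j hj h
    simp only [hD, Finset.mem_insert] at hj
    rcases hj with rfl | rfl | hj
    · exact absurd rfl h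
    · rw [l2, sub_self, mul_zero]
    · exact kF _ j hj
  have hsl : P.sl (emb T') < P.sl (emb T) := by
    by_contra hc
    rcases (not_lt.1 hc).lt_or_eq with h | h
    · have e : c.Edge t T' (-(P.b1 + P.sl (emb T) • P.b2)) :=
        ⟨fun j hj h' => by rw [map_neg, k1 j hj h', neg_zero], by
          rw [map_neg, l2, ← mul_neg, neg_sub, sign_mul, sign_pos (sub_pos.2 h), mul_one, hγ]⟩
      have := (e.up_iff hI mT' sT').1 hu
      rw [map_neg, zz] at this
      linarith
    · obtain ⟨e', he, hz⟩ := id hu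
      have e : c.Edge t T' (e' - (2 * c.z e') • (P.b1 + P.sl (emb T) • P.b2)) :=
        ⟨fun j hj h' => by rw [map_sub, map_smul, k1 j hj h', he.1 j hj h', smul_zero, sub_zero], by
          rw [map_sub, map_smul, l2, h, sub_self, mul_zero, smul_zero, sub_zero, he.2]⟩
      have := (e.up_iff hI mT' sT').1 hu
      rw [map_sub, map_smul, zz, smul_eq_mul] at this
      linarith
  have hγ' : SignType.sign (P.γ (emb T)) = t.2 T := by
    by_contra hc
    refine hd ⟨_, ⟨k2, ?_⟩, by rw [zz]; exact one_pos⟩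
    rw [l1, sign_mul, sign_neg (sub_neg.2 hsl)]
    have := sign_ne_zero.2 g1
    revert hc sT this
    cases SignType.sign (P.γ (emb T)) <;> cases t.2 T <;> simp
  refine ⟨⟨hsl, u.1, ?_⟩, Prod.ext hD (funext fun i => ?_)⟩
  · have m1 := (P.mem_seg_none hT u).2 (hv ▸ rel_sub T (hI.2 T mT))
    have m2 := (P.mem_seg_none hT' u).2 (hv ▸ rel_sub T' (hI.2 T' mT'))
    refine ⟨⟨m1.1, m2.1⟩, m1.2.symm.trans m2.2, ?_⟩
    have e : (u.1, P.pl.τ (emb T) u.1) = u := Prod.ext rfl m1.2.symm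
    rw [e]
    obtain ⟨ρ, hρ⟩ := exists_loc (c := c) (F ∪ R) (c.vtx t.1)
    have ho := hI.on hsub
    have hb : ∀ᶠ q in 𝓝 u, P.φ q ∈ ball (c.vtx t.1) ρ :=
      P.cont_φ.continuousAt.eventually (by rw [hv]; exact ball_mem_nhds _ hρ.1)
    filter_upwards [hb] with q hq a1 a2
    replace a1 : P.sl (emb T) * q.1 + P.ic (emb T) < q.2 := a1
    replace a2 : P.sl (emb T') * q.1 + P.ic (emb T') < q.2 := a2
    have b1 : SignType.sign (c.g T none (P.φ q)) = t.2 T := by
      rw [show c.g T none (P.φ q) = _ from P.eval g1 q, sign_mul, sign_pos (sub_pos.2 a1), mul_one,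
        hγ']
    have b2 : SignType.sign (c.g T' none (P.φ q)) = t.2 T' := by
      rw [show c.g T' none (P.φ q) = _ from P.eval g2 q, sign_mul, sign_pos (sub_pos.2 a2), mul_one,
        hγ]
    have n1 : c.g T none (P.φ q) ≠ 0 := sign_ne_zero.1 (b1 ▸ sT)
    have n2 : c.g T' none (P.φ q) ≠ 0 := sign_ne_zero.1 (b2 ▸ sT')
    refine ⟨fun i hi => ⟨P.φ_mem q hi, fun l => (hρ.2 _ hq i (Finset.mem_union_left _ hi)).2
      (rel_sub i (hI.2 i (mF i hi))) l ((hI.2 i (mF i hi)).2 l)⟩, fun S hS => ?_, ?_⟩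
    · by_cases h : S ∈ t.1
      · simp only [hD, Finset.mem_insert] at h
        rcases h with rfl | rfl | h
        · exact fun h => n1 h.1
        · exact fun h => n2 h.1
        · exact absurd hS (Finset.disjoint_left.1 hR h)
      · exact (hρ.2 _ hq S (Finset.mem_union_right _ hS)).1
          (ho.2.2 S (Finset.mem_union_right _ hS) h)
    · refine (good_local (s := 0) hρ ho hq (fun i hi => (mem_supp.1 hi rfl).elim) hs
        (fun i _ h => s0 i (by rintro rfl; exact n1 h) (by rintro rfl; exact n2 h))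
        fun i hi h => ⟨rfl, ?_⟩).2 hg
      simp only [hD, Finset.mem_insert] at hi
      rcases hi with rfl | rfl | hi
      · exact b1.symm
      · exact b2.symm
      · exact absurd (P.φ_mem q hi) h
  · dsimp only [side]
    by_cases h1 : i = T
    · rw [h1, Function.update_self, hγ']
    · rw [Function.update_of_ne h1]
      by_cases h2 : i = T'
      · rw [h2, Function.update_self, hγ]
      · rw [Function.update_of_ne h2, s0 i h1 h2]
        rfl

theorem uw_of_mem {R : Finset ι} (hR : Disjoint F R) {t : Tu ι} (ht : t ∈ c.Tup (F ∪ R) 2)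
    (hF : t.1 \ supp t.2 = F) (hE : ¬ c.Ext t) :
    ∃ T ∈ R, ∃ T' ∈ R, ∃ Q : c.Par F, (Q = P ∨ Q = P.flip) ∧
      Q.pl.UW (Q.Gp R) (emb T) (emb T') ∧
      t = side F T T' (SignType.sign (Q.γ (emb T))) (SignType.sign (Q.γ (emb T'))) := by
  obtain ⟨hsub, hI, hs, hc, -⟩ := mem_Tup.1 ht
  simp only [Ext, not_or, not_forall, not_not] at hE
  obtain ⟨⟨T, mT, hd⟩, T', mT', hu⟩ := hE
  have hne : T ≠ T' := by
    rintro rfl
    exact hd hu
  have hsupp : supp t.2 = {T, T'} := (Finset.eq_of_subset_of_card_le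
    (Finset.insert_subset mT (Finset.singleton_subset_iff.2 mT'))
    (by rw [hc, Finset.card_pair hne])).symm
  have nF : ∀ i ∈ supp t.2, i ∉ F := fun i hi h => by
    rw [← hF] at h
    exact (Finset.mem_sdiff.1 h).2 hi
  have mR : ∀ i ∈ supp t.2, i ∈ R := fun i hi =>
    (Finset.mem_union.1 (hsub (hs hi))).resolve_left (nF i hi)
  have hD : t.1 = insert T (insert T' F) := by
    rw [← Finset.union_sdiff_of_subset hs, hF, hsupp, Finset.insert_union, Finset.singleton_union]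
  obtain ⟨u, hv⟩ := P.surj fun i hi => (hI.2 i (by simp [hD, hi])).1
  have g2 : P.γ (emb T') ≠ 0 :=
    P.gam_ne (Or.inl ⟨rfl, nF T' mT'⟩) (q := u) (hv ▸ (hI.2 T' (hs mT')).1)
  by_cases hγ : SignType.sign (P.γ (emb T')) = t.2 T'
  · exact ⟨T, mR T mT, T', mR T' mT', P, Or.inl rfl,
      P.UWedge_aux hR ht (nF T mT) (nF T' mT') hne hD hsupp hd hu hγ⟩
  · refine ⟨T, mR T mT, T', mR T' mT', P.flip, Or.inr rfl,
      P.flip.UWedge_aux hR ht (nF T mT) (nF T' mT') hne hD hsupp hd hu ?_⟩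
    have e : P.flip.γ (emb T') = -P.γ (emb T') := map_neg _ _
    have h1 := sign_ne_zero.2 g2
    have h2 := mem_supp.1 mT'
    rw [e, Left.sign_neg]
    revert hγ h1 h2
    cases SignType.sign (P.γ (emb T')) <;> cases t.2 T' <;> simp

end Par

end Ctx

end SC
end

-- merged part: Pool.Agent.Work.MP_8a5de9_co.URecvA
section
/-!
# The receivers of the slides and the weights

`recv_mem`.  Let `v = vtx t.1`, `D₀ = t.1.erase i`, `s₀ = update t.2 i 0`, `t' = recv t i j`.  For
`y` on the open segment near `v`: `Good R y s₀ ↔ Good R v (update t.2 i (-t.2 i))` (`good_local`;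
the sign of `g i none` at `y` is that at `v'`); for `y` near `v'`: `Good R y s₀ ↔ Good R v' t'.2`
(the sign of `g j none` at `y` is that at `v`, nonzero by `Inner.ne`); `good_slide` connects them.
So `t' ∉ Tup R k`.  For `R' = R.erase i`: the point `y₊ = v + ε (v - v')` satisfies
`Good R y₊ s₀` (`good_local`), hence `Good R' y₊ s₀` (`Good.mono`), and `On R' D₀` holds on the
half-open segment from `y₊` to `v'` (at and near `v` by `Loc`), so `Good R' v' t'.2`.
-/

open Set Filter Topology Metric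

namespace SC

variable {E ι μ : Type} [NormedAddCommGroup E] [NormedSpace ℝ E] [FiniteDimensional ℝ E]
  [Fintype ι] [DecidableEq ι] [Fintype μ] [DecidableEq μ]

namespace Ctx

variable (c : Ctx E ι μ)

/-- The side at the end of the slide. -/
noncomputable def recv (t : Tu ι) (i j : ι) : Tu ι :=
  (insert j (t.1.erase i),
    Function.update (Function.update t.2 i 0) j (SignType.sign (c.g j none (c.vtx t.1))))

/-- The edge `i` is the only one of its kind. -/
def Special (t : Tu ι) (i : ι) : Prop := ∀ j ∈ supp t.2, j ≠ i → ¬ (c.Up t j ↔ c.Up t i)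

open Classical in
/-- The charge sent along the edge `i`. -/
noncomputable def wt (t : Tu ι) (i : ι) : ℕ := if c.Special t i then 1 else 2

open Classical in
/-- The capacity of a receiver. -/
noncomputable def cap (k : ℕ) (t : Tu ι) : ℕ := if c.Ext t then 2 * k else 2 * k - 2

open Classical in
/-- Slides that end at an inner vertex whose side becomes good when `i` is removed. -/
noncomputable def PC (R : Finset ι) (k : ℕ) : Finset (Tu ι × ι × ι) :=
  (c.Tup R k ×ˢ Finset.univ).filter fun q => q.1.2 q.2.1 ≠ 0 ∧ q.2.2 ∉ q.1.1 ∧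
    SignType.sign (c.g q.2.1 none (c.vtx (c.recv q.1 q.2.1 q.2.2).1)) = -q.1.2 q.2.1 ∧
    c.recv q.1 q.2.1 q.2.2 ∈ c.Tup (R.erase q.2.1) k ∧ c.recv q.1 q.2.1 q.2.2 ∉ c.Tup R k

variable {c} {R : Finset ι} {t : Tu ι} {i j : ι} {v' : E} {k : ℕ}

omit [FiniteDimensional ℝ E] in
theorem URecvA_near (x y : E) {ρ : ℝ} (hρ : 0 < ρ) : ∃ τ : ℝ, 0 < τ ∧ τ < 1 ∧
    ∀ σ : ℝ, |σ| ≤ τ → AffineMap.lineMap x y σ ∈ ball x ρ := by
  have hc : Continuous fun σ : ℝ => AffineMap.lineMap x y σ := AffineMap.lineMap_continuous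
  have h0 : ∀ᶠ σ in 𝓝 (0 : ℝ), AffineMap.lineMap x y σ ∈ ball x ρ :=
    hc.continuousAt.eventually_mem (by
      rw [AffineMap.lineMap_apply_zero]
      exact ball_mem_nhds x hρ)
  obtain ⟨ε, hε, h⟩ := Metric.eventually_nhds_iff.1 h0
  refine ⟨min (ε / 2) (1 / 2), lt_min (by linarith) (by norm_num),
    (min_le_right _ _).trans_lt (by norm_num), fun σ hσ => h ?_⟩
  rw [Real.dist_eq, sub_zero]
  exact (hσ.trans (min_le_left _ _)).trans_lt (by linarith)

omit [FiniteDimensional ℝ E] in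
theorem URecvA_line (f : E →ᵃ[ℝ] ℝ) (x y : E) (σ : ℝ) :
    f (AffineMap.lineMap x y σ) = (1 - σ) * f x + σ * f y := by
  rw [AffineMap.apply_lineMap, AffineMap.lineMap_apply_ring]

/-- The side of a point on an edge near a vertex. -/
theorem URecvA_local {D : Finset ι} {x y : E} {ρ : ℝ} {s : ι → SignType} {a : ι}
    (h : c.Loc R x ρ) (ho : c.On R D x) (hy : y ∈ ball x ρ) (ha : a ∈ D)
    (hs : supp s ⊆ D.erase a) (h0 : ∀ l ∈ D.erase a, c.g l none y = 0) (h1 : c.g a none y ≠ 0) :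
    c.Good R y s ↔ c.Good R x (Function.update s a (SignType.sign (c.g a none y))) := by
  refine good_local h ho hy (hs.trans (Finset.erase_subset _ _)) (fun l hl => ?_)
    (fun l _ e => ?_) fun l hl e => ?_
  · by_cases hla : l = a
    · exact hla ▸ ha
    · rw [mem_supp, Function.update_of_ne hla] at hl
      exact Finset.mem_of_mem_erase (hs (mem_supp.2 hl))
  · exact Function.update_of_ne (fun hla : l = a => h1 (hla ▸ e)) _ _
  · have hla : l = a := by
      by_contra hla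
      exact e (h0 l (Finset.mem_erase.2 ⟨hla, hl⟩))
    subst hla
    refine ⟨?_, Function.update_self _ _ _⟩
    by_contra h'
    exact Finset.notMem_erase _ _ (hs (mem_supp.2 h'))

theorem recv_mem (ht : t ∈ c.Tup R k) (hs : t.2 i ≠ 0)
    (hn : ¬ c.Good R (c.vtx t.1) (Function.update t.2 i (-t.2 i))) (h : c.Slide R t i v')
    (hj : j ∈ R) (hj' : j ∉ t.1) (hI : c.Inner (insert j (t.1.erase i)))
    (hv : c.vtx (insert j (t.1.erase i)) = v') : (t, i, j) ∈ c.PC R k := by
  obtain ⟨hR, hI₀, hsup, hk, hg⟩ := mem_Tup.1 ht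
  have hi : i ∈ t.1 := hsup (mem_supp.2 hs)
  have hji : j ≠ i := fun e => hj' (e ▸ hi)
  have hj₀ : j ∉ t.1.erase i := fun e => hj' (Finset.mem_of_mem_erase e)
  set v := c.vtx t.1 with hvv
  have hs₀ : supp (Function.update t.2 i 0) ⊆ t.1.erase i := fun l hl => by
    have hli : l ≠ i := fun e => by
      rw [e, mem_supp, Function.update_self] at hl
      exact hl rfl
    rw [mem_supp, Function.update_of_ne hli] at hl
    exact Finset.mem_erase.2 ⟨hli, hsup (mem_supp.2 hl)⟩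
  have hz : ∀ σ : ℝ, ∀ l ∈ t.1.erase i, c.g l none (AffineMap.lineMap v v' σ) = 0 :=
    fun σ l hl => by
      rw [URecvA_line, (hI₀.2 l (Finset.mem_of_mem_erase hl)).1, (h.mem l hl).1, mul_zero, mul_zero,
        add_zero]
  have hgi : ∀ σ : ℝ, c.g i none (AffineMap.lineMap v v' σ) = σ * c.g i none v' := fun σ => by
    rw [URecvA_line, (hI₀.2 i hi).1, mul_zero, zero_add]
  have hi' : c.g i none v' ≠ 0 := fun e => by
    have := h.sgn
    rw [e, sign_zero, eq_comm, SignType.neg_eq_zero_iff] at this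
    exact hs this
  have hjv : c.g j none v ≠ 0 := hI₀.ne hj'
  have hgj : ∀ σ : ℝ, c.g j none (AffineMap.lineMap v v' σ) = (1 - σ) * c.g j none v := fun σ => by
    have := (hI.2 j (Finset.mem_insert_self _ _)).1
    rw [hv] at this
    rw [URecvA_line, this, mul_zero, add_zero]
  -- the end of the slide
  have hend : ∀ R' : Finset ι, insert j (t.1.erase i) ⊆ R' → ∃ τ : ℝ, 0 < τ ∧ τ < 1 ∧
      (c.Good R' (AffineMap.lineMap v v' τ) (Function.update t.2 i 0) ↔
        c.Good R' v' (c.recv t i j).2) := fun R' hR' => by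
    obtain ⟨ρ, hρ⟩ := exists_loc (c := c) R' v'
    obtain ⟨τ, h0, h1, hb⟩ := URecvA_near v' v hρ.1
    have hb' := hb τ (abs_of_pos h0).le
    rw [← AffineMap.lineMap_apply_one_sub] at hb'
    have ho := hI.on hR'
    rw [hv] at ho
    refine ⟨1 - τ, by linarith, by linarith, ?_⟩
    have e := URecvA_local (s := Function.update t.2 i 0) hρ ho hb' (Finset.mem_insert_self _ _)
      (by rwa [Finset.erase_insert hj₀]) (by
        rw [Finset.erase_insert hj₀]
        exact hz _) (by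
        rw [hgj, sub_sub_cancel]
        exact mul_ne_zero h0.ne' hjv)
    rwa [hgj, sub_sub_cancel, sign_mul, sign_pos h0, one_mul] at e
  -- the start of the slide
  obtain ⟨ρ, hρ⟩ := exists_loc (c := c) R v
  obtain ⟨τ, h0, h1, hb⟩ := URecvA_near v v' hρ.1
  have ho := hI₀.on hR
  have hst : ∀ σ : ℝ, σ ≠ 0 → |σ| ≤ τ →
      (c.Good R (AffineMap.lineMap v v' σ) (Function.update t.2 i 0) ↔
        c.Good R v (Function.update t.2 i (SignType.sign σ * -t.2 i))) := fun σ hσ hσ' => by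
    have e := URecvA_local (s := Function.update t.2 i 0) hρ ho (hb σ hσ') hi hs₀ (hz _) (by
      rw [hgi]
      exact mul_ne_zero hσ hi')
    rwa [hgi, sign_mul, h.sgn, Function.update_idem] at e
  have hseg : ∀ σ : ℝ, 0 < σ → σ < 1 → AffineMap.lineMap v v' σ ∈ openSegment ℝ v v' :=
    fun σ a b => by
      rw [openSegment_eq_image_lineMap]
      exact ⟨σ, ⟨a, b⟩, rfl⟩
  have hD' : insert j (t.1.erase i) ⊆ R.erase i :=
    Finset.insert_subset (Finset.mem_erase.2 ⟨hji, hj⟩) (Finset.erase_subset_erase i hR)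
  have hv' : c.vtx (c.recv t i j).1 = v' := hv
  have hsup' : supp (c.recv t i j).2 = insert j ((supp t.2).erase i) := by
    ext l
    rw [mem_supp, Finset.mem_insert, Finset.mem_erase, mem_supp]
    change Function.update (Function.update t.2 i 0) j (SignType.sign (c.g j none v)) l ≠ 0 ↔ _
    by_cases hlj : l = j
    · subst hlj
      rw [Function.update_self]
      exact iff_of_true (sign_ne_zero.2 hjv) (Or.inl rfl)
    · rw [Function.update_of_ne hlj]
      by_cases hli : l = i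
      · subst hli
        rw [Function.update_self]
        simp [hlj]
      · rw [Function.update_of_ne hli]
        simp [hlj, hli]
  classical
  refine Finset.mem_filter.2 ⟨Finset.mem_product.2 ⟨ht, Finset.mem_univ _⟩, hs, hj', ?_, ?_, ?_⟩
  · change SignType.sign (c.g i none (c.vtx (c.recv t i j).1)) = -t.2 i
    rw [hv']
    exact h.sgn
  · change c.recv t i j ∈ c.Tup (R.erase i) k
    refine mem_Tup.2 ⟨hD', hI, ?_, ?_, ?_⟩
    · rw [hsup']
      exact Finset.insert_subset_insert _ (Finset.erase_subset_erase i hsup)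
    · rw [hsup', Finset.card_insert_of_notMem fun e => hj' (hsup (Finset.mem_of_mem_erase e)),
        Finset.card_erase_add_one (mem_supp.2 hs), hk]
    · obtain ⟨τ', h0', h1', e⟩ := hend _ hD'
      rw [hv', ← e]
      have g1 : c.Good R (AffineMap.lineMap v v' (-τ)) (Function.update t.2 i 0) := by
        rw [hst _ (neg_ne_zero.2 h0.ne') (by rw [abs_neg, abs_of_pos h0]),
          sign_neg (neg_lt_zero.2 h0), neg_mul_neg, one_mul, Function.update_eq_self]
        exact hg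
      refine good_slide (γ := (fun σ : ℝ => AffineMap.lineMap v v' σ) '' Icc (-τ) τ')
        (D := t.1.erase i) (isPreconnected_Icc.image _ AffineMap.lineMap_continuous.continuousOn)
        ?_ hs₀ ⟨-τ, ⟨le_rfl, by linarith⟩, rfl⟩ ⟨τ', ⟨by linarith, le_rfl⟩, rfl⟩
        (g1.mono (Finset.erase_subset _ _))
      rintro _ ⟨σ, ⟨a, b⟩, rfl⟩
      refine ⟨Finset.erase_subset_erase i hR, ?_⟩
      rcases lt_or_ge 0 σ with hσ | hσ
      · have := h.seg _ (hseg σ hσ (b.trans_lt h1'))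
        exact ⟨this.2.1, fun l hl => this.2.2 l (Finset.mem_of_mem_erase hl)⟩
      · have hy := hρ.2 _ (hb σ (abs_le.2 ⟨a, hσ.trans h0.le⟩))
        refine ⟨fun l hl => ?_, fun l hl hl' => ?_⟩
        · have hl' := Finset.mem_of_mem_erase hl
          exact ⟨hz σ l hl, fun m => (hy l (hR hl')).2 (rel_sub l (hI₀.2 l hl')) m
            ((hI₀.2 l hl').2 m)⟩
        · obtain ⟨hli, hlR⟩ := Finset.mem_erase.1 hl
          exact (hy l hlR).1 (ho.2.2 l hlR fun e => hl' (Finset.mem_erase.2 ⟨hli, e⟩))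
  · change c.recv t i j ∉ c.Tup R k
    intro hm
    obtain ⟨τ', h0', h1', e⟩ := hend R (hD'.trans (Finset.erase_subset _ _))
    have g1 := (mem_Tup.1 hm).2.2.2.2
    rw [hv', ← e] at g1
    have g2 := good_slide (convex_openSegment v v').isPreconnected h.seg hs₀ (hseg τ' h0' h1')
      (hseg τ h0 h1) g1
    rw [hst τ h0.ne' (abs_of_pos h0).le, sign_pos h0, one_mul] at g2
    exact hn g2

end Ctx

end SC
end

-- merged part: Pool.Agent.Work.MP_8a5de9_co.URecv
section
/-!
# The load of a receiver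

`recv_weight`.  Fix `t'`, `S`.  For `j ∈ supp t'.2` there is at most one `t` with
`(t, S, j) ∈ PC`, `recv t S j = t'`: `t.1 = insert S (t'.1.erase j)` and `t.2` is determined by
`t'.2` off `S, j` and by the sign condition at `S`.  So the sum has at most `k` terms, each `≤ 2`;
nothing more is needed if `Ext t'` or if there are at most `k - 1` terms.  Otherwise every
`j ∈ supp t'.2` has its `t_j`, with vertex `v_j`; `v_j - v'` is an edge vector of `(t', j)` and,
up to a positive factor, of `(t_j, S)`; for `l ≠ j` in `supp t'.2` the vector `v_l - v_j` is an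
edge vector of `(t_j, l)`.  By `Edge.up_iff` the highest `v_j` (higher than `v'` because `t'` has an
edge that goes up) has `Special t_j S`, and so has the lowest (lower than `v'`); they differ.
-/

open Set Filter Topology Metric

namespace SC

variable {E ι μ : Type} [NormedAddCommGroup E] [NormedSpace ℝ E] [FiniteDimensional ℝ E]
  [Fintype ι] [DecidableEq ι] [Fintype μ] [DecidableEq μ]

namespace Ctx

variable {c : Ctx E ι μ} {t : Tu ι}

/-- At most one edge is special if there are at least three edges. -/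
theorem wt_sum (hk : 3 ≤ (supp t.2).card) :
    2 * (supp t.2).card - 1 ≤ ∑ i ∈ supp t.2, c.wt t i := by
  classical
  have h1 : ((supp t.2).filter (c.Special t)).card ≤ 1 := by
    refine Finset.card_le_one.2 fun a ha b hb => ?_
    by_contra hab
    obtain ⟨ha, ha'⟩ := Finset.mem_filter.1 ha
    obtain ⟨hb, hb'⟩ := Finset.mem_filter.1 hb
    have h2 : 0 < (((supp t.2).erase a).erase b).card := by
      rw [Finset.card_erase_of_mem (Finset.mem_erase.2 ⟨Ne.symm hab, hb⟩),
        Finset.card_erase_of_mem ha]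
      omega
    obtain ⟨l, hl⟩ := Finset.card_pos.1 h2
    obtain ⟨hlb, hl⟩ := Finset.mem_erase.1 hl
    obtain ⟨hla, hl⟩ := Finset.mem_erase.1 hl
    have e1 := ha' l hl hla
    have e2 := hb' l hl hlb
    have e3 := hb' a ha hab
    tauto
  have h2 : ∑ i ∈ supp t.2, c.wt t i + ((supp t.2).filter (c.Special t)).card =
      2 * (supp t.2).card := by
    rw [Finset.card_filter, ← Finset.sum_add_distrib, mul_comm, ← smul_eq_mul,
      ← Finset.sum_const]
    refine Finset.sum_congr rfl fun i _ => ?_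
    unfold wt
    split_ifs <;> rfl
  omega

theorem URecv_wt_le (t : Tu ι) (i : ι) : c.wt t i ≤ 2 := by
  unfold wt
  split_ifs <;> omega

theorem URecv_lin (f : E →ᵃ[ℝ] ℝ) (x y : E) : f.linear (x - y) = f x - f y :=
  f.linearMap_vsub x y

/-- The sender that belongs to the edge `j` of the receiver `t'`. -/
noncomputable def URecvT (c : Ctx E ι μ) (t' : Tu ι) (S j : ι) : Tu ι :=
  (insert S (t'.1.erase j), Function.update (Function.update t'.2 j 0) S
    (-SignType.sign (c.g S none (c.vtx t'.1))))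

/-- What is known about a sender. -/
structure URecvOk (c : Ctx E ι μ) (k : ℕ) (t' : Tu ι) (S j : ι) : Prop where
  mem : t'.2 j ≠ 0
  inn : c.Inner (URecvT c t' S j).1
  sgn : SignType.sign (c.g j none (c.vtx (URecvT c t' S j).1)) = t'.2 j
  inn' : c.Inner t'.1
  sub : supp t'.2 ⊆ t'.1
  card : (supp t'.2).card = k
  out : S ∉ t'.1

theorem URecv_facts {R : Finset ι} {k : ℕ} {t' : Tu ι} {S : ι} {q : Tu ι × ι × ι}
    (hq : q ∈ c.PC R k) (h1 : q.2.1 = S) (h2 : c.recv q.1 q.2.1 q.2.2 = t') :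
    q = (URecvT c t' S q.2.2, S, q.2.2) ∧ URecvOk c k t' S q.2.2 := by
  classical
  obtain ⟨t, S', j⟩ := q
  dsimp only at h1 h2 ⊢
  subst h1
  simp only [PC, Finset.mem_filter, Finset.mem_product] at hq
  obtain ⟨⟨ht, -⟩, hS, hj, hσ, ht', -⟩ := hq
  rw [h2] at hσ ht'
  obtain ⟨-, hI, hsub, -, -⟩ := mem_Tup.1 ht
  obtain ⟨hR', hI', hsub', hcard', -⟩ := mem_Tup.1 ht'
  have hSt : S' ∈ t.1 := hsub (mem_supp.2 hS)
  have hjS : j ≠ S' := fun h => hj (h ▸ hSt)
  have hj0 : t.2 j = 0 := by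
    by_contra h
    exact hj (hsub (mem_supp.2 h))
  have e1 : t'.1 = insert j (t.1.erase S') := by rw [← h2]; rfl
  have e2 : t'.2 = Function.update (Function.update t.2 S' 0) j
      (SignType.sign (c.g j none (c.vtx t.1))) := by rw [← h2]; rfl
  have e : t = URecvT c t' S' j := by
    refine Prod.ext ?_ ?_
    · change t.1 = insert S' (t'.1.erase j)
      rw [e1, Finset.erase_insert fun h => hj (Finset.mem_of_mem_erase h), Finset.insert_erase hSt]
    · change t.2 = Function.update (Function.update t'.2 j 0) S' _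
      rw [hσ, neg_neg, e2]
      funext l
      by_cases h1 : l = S'
      · rw [h1, Function.update_self]
      rw [Function.update_of_ne h1]
      by_cases h2 : l = j
      · rw [h2, Function.update_self, hj0]
      rw [Function.update_of_ne h2, Function.update_of_ne h2, Function.update_of_ne h1]
  have e3 : SignType.sign (c.g j none (c.vtx t.1)) = t'.2 j := by
    rw [e2, Function.update_self]
  refine ⟨by rw [← e], ?_, e ▸ hI, e ▸ e3, hI', hsub', hcard', fun h => ?_⟩
  · rw [← e3]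
    exact sign_ne_zero.2 (hI.ne hj)
  · exact (Finset.mem_erase.1 (hR' h)).1 rfl

section ok

variable {k : ℕ} {t' : Tu ι} {S j l : ι}

theorem URecvOk.memS : S ∈ (URecvT c t' S j).1 := Finset.mem_insert_self _ _

theorem URecvOk.memT (hl : l ∈ t'.1) (hlj : l ≠ j) : l ∈ (URecvT c t' S j).1 :=
  Finset.mem_insert_of_mem (Finset.mem_erase.2 ⟨hlj, hl⟩)

theorem URecvOk.neS (h : URecvOk c k t' S j) : (URecvT c t' S j).2 S ≠ 0 := by
  change Function.update _ S _ S ≠ 0
  rw [Function.update_self, Ne, SignType.neg_eq_zero_iff]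
  exact sign_ne_zero.2 (h.inn'.ne h.out)

theorem URecvOk.edge1 (h : URecvOk c k t' S j) :
    c.Edge t' j (c.vtx (URecvT c t' S j).1 - c.vtx t'.1) := by
  refine ⟨fun m hm hmj => ?_, ?_⟩
  · rw [URecv_lin, (h.inn.2 m (URecvOk.memT hm hmj)).1, (h.inn'.2 m hm).1, sub_zero]
  · rw [URecv_lin, (h.inn'.2 j (h.sub (mem_supp.2 h.mem))).1, sub_zero, h.sgn]

theorem URecvOk.edge2 (h : URecvOk c k t' S j) :
    c.Edge (URecvT c t' S j) S (c.vtx (URecvT c t' S j).1 - c.vtx t'.1) := by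
  refine ⟨fun m hm hmS => ?_, ?_⟩
  · have hm' : m ∈ t'.1 := Finset.mem_of_mem_erase ((Finset.mem_insert.1 hm).resolve_left hmS)
    rw [URecv_lin, (h.inn.2 m hm).1, (h.inn'.2 m hm').1, sub_zero]
  · rw [URecv_lin, (h.inn.2 S URecvOk.memS).1, zero_sub, Left.sign_neg]
    simp only [URecvT, Function.update_self]

theorem URecvOk.up1 (h : URecvOk c k t' S j) :
    c.Up t' j ↔ c.z (c.vtx t'.1) < c.z (c.vtx (URecvT c t' S j).1) := by
  rw [h.edge1.up_iff h.inn' (h.sub (mem_supp.2 h.mem)) h.mem, map_sub, sub_pos]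

theorem URecvOk.up2 (h : URecvOk c k t' S j) :
    c.Up (URecvT c t' S j) S ↔ c.z (c.vtx t'.1) < c.z (c.vtx (URecvT c t' S j).1) := by
  rw [h.edge2.up_iff h.inn URecvOk.memS h.neS, map_sub, sub_pos]

theorem URecvOk.val (hl : (URecvT c t' S j).2 l ≠ 0) (hlS : l ≠ S) :
    l ≠ j ∧ (URecvT c t' S j).2 l = t'.2 l := by
  have e : (URecvT c t' S j).2 l = Function.update t'.2 j 0 l := Function.update_of_ne hlS _ _
  have hlj : l ≠ j := fun h => hl (by rw [e, h, Function.update_self])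
  exact ⟨hlj, by rw [e, Function.update_of_ne hlj]⟩

theorem URecvOk.edge3 (h : URecvOk c k t' S j) (h' : URecvOk c k t' S l) (hlj : l ≠ j)
    (e : (URecvT c t' S j).2 l = t'.2 l) :
    c.Edge (URecvT c t' S j) l (c.vtx (URecvT c t' S l).1 - c.vtx (URecvT c t' S j).1) := by
  refine ⟨fun m hm hml => ?_, ?_⟩
  · have hm' : m ∈ (URecvT c t' S l).1 := by
      rcases Finset.mem_insert.1 hm with rfl | hm'
      · exact URecvOk.memS
      · exact URecvOk.memT (Finset.mem_of_mem_erase hm') hml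
    rw [URecv_lin, (h.inn.2 m hm).1, (h'.inn.2 m hm').1, sub_zero]
  · rw [URecv_lin, (h.inn.2 l (URecvOk.memT (h.sub (mem_supp.2 h'.mem)) hlj)).1, sub_zero,
      h'.sgn, e]

theorem URecv_two (hall : ∀ j ∈ supp t'.2, URecvOk c k t' S j) (hE : ¬ c.Ext t') :
    ∃ a ∈ supp t'.2, ∃ b ∈ supp t'.2, a ≠ b ∧ c.Special (URecvT c t' S a) S ∧
      c.Special (URecvT c t' S b) S := by
  unfold Ext at hE
  push Not at hE
  obtain ⟨⟨b, hb, hb'⟩, a, ha, ha'⟩ := hE
  obtain ⟨j₁, h1, hmax⟩ := (supp t'.2).exists_max_image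
    (fun j => c.z (c.vtx (URecvT c t' S j).1)) ⟨a, ha⟩
  obtain ⟨j₂, h2, hmin⟩ := (supp t'.2).exists_min_image
    (fun j => c.z (c.vtx (URecvT c t' S j).1)) ⟨a, ha⟩
  have u1 : c.Up (URecvT c t' S j₁) S :=
    (hall j₁ h1).up2.2 (((hall a ha).up1.1 ha').trans_le (hmax a ha))
  have u2 : ¬ c.Up (URecvT c t' S j₂) S := fun h =>
    hb' ((hall b hb).up1.2 (((hall j₂ h2).up2.1 h).trans_le (hmin b hb)))
  refine ⟨j₁, h1, j₂, h2, fun h => u2 (h ▸ u1), fun l hl hlS h => ?_, fun l hl hlS h => ?_⟩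
  · obtain ⟨hlj, e⟩ := URecvOk.val (mem_supp.1 hl) hlS
    have hl' : l ∈ supp t'.2 := mem_supp.2 (e ▸ mem_supp.1 hl)
    have h3 := (((hall j₁ h1).edge3 (hall l hl') hlj e).up_iff (hall j₁ h1).inn
      (URecvOk.memT ((hall j₁ h1).sub hl') hlj) (mem_supp.1 hl)).1 (h.2 u1)
    rw [map_sub, sub_pos] at h3
    exact absurd (hmax l hl') (not_le.2 h3)
  · obtain ⟨hlj, e⟩ := URecvOk.val (mem_supp.1 hl) hlS
    have hl' : l ∈ supp t'.2 := mem_supp.2 (e ▸ mem_supp.1 hl)
    have hE := (hall j₂ h2).edge3 (hall l hl') hlj e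
    have hm := URecvOk.memT (c := c) (S := S) ((hall j₂ h2).sub hl') hlj
    refine u2 (h.1 ((hE.up_iff (hall j₂ h2).inn hm (mem_supp.1 hl)).2 ?_))
    refine lt_of_le_of_ne ?_ (hE.z_ne (hall j₂ h2).inn hm (mem_supp.1 hl)).symm
    rw [map_sub, sub_nonneg]
    exact hmin l hl'

end ok

open Classical in
theorem recv_weight (R : Finset ι) (k : ℕ) (t' : Tu ι) (S : ι) :
    ∑ q ∈ (c.PC R k).filter fun q => q.2.1 = S ∧ c.recv q.1 q.2.1 q.2.2 = t', c.wt q.1 q.2.1 ≤
      c.cap k t' := by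
  set F := (c.PC R k).filter fun q => q.2.1 = S ∧ c.recv q.1 q.2.1 q.2.2 = t' with hF
  have hq : ∀ q ∈ F, q = (URecvT c t' S q.2.2, S, q.2.2) ∧ URecvOk c k t' S q.2.2 := fun q hq => by
    obtain ⟨h1, h2, h3⟩ := Finset.mem_filter.1 hq
    exact URecv_facts h1 h2 h3
  rcases F.eq_empty_or_nonempty with h0 | ⟨q₀, hq₀⟩
  · rw [h0, Finset.sum_empty]
    exact Nat.zero_le _
  have hk := (hq q₀ hq₀).2.card
  set J := F.image fun q => q.2.2 with hJ
  have hJ' : ∀ j ∈ J, URecvOk c k t' S j := fun j hj => by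
    obtain ⟨q, hq', rfl⟩ := Finset.mem_image.1 hj
    exact (hq q hq').2
  have hsub : J ⊆ supp t'.2 := fun j hj => mem_supp.2 (hJ' j hj).mem
  have e : ∑ q ∈ F, c.wt q.1 q.2.1 = ∑ j ∈ J, c.wt (URecvT c t' S j) S := by
    rw [hJ, Finset.sum_image fun q h q' h' hqq => by
      rw [(hq q h).1, (hq q' h').1, show q.2.2 = q'.2.2 from hqq]]
    refine Finset.sum_congr rfl fun q h => ?_
    conv_lhs => rw [(hq q h).1]
  have hle : ∀ K : Finset ι, ∑ j ∈ K, c.wt (URecvT c t' S j) S ≤ 2 * K.card := fun K => by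
    rw [mul_comm, ← smul_eq_mul]
    exact Finset.sum_le_card_nsmul _ _ _ fun j _ => URecv_wt_le _ _
  have h1 := hle J
  have h2 := Finset.card_le_card hsub
  rw [e]
  unfold cap
  split_ifs with hE
  · omega
  rcases hsub.eq_or_ssubset with h3 | h3
  swap
  · have := Finset.card_lt_card h3
    omega
  rw [h3] at hJ' ⊢
  obtain ⟨a, ha, b, hb, hab, sa, sb⟩ := URecv_two hJ' hE
  have hb' : b ∈ (supp t'.2).erase a := Finset.mem_erase.2 ⟨hab.symm, hb⟩
  rw [← Finset.add_sum_erase _ _ ha, ← Finset.add_sum_erase _ _ hb']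
  have h4 := hle (((supp t'.2).erase a).erase b)
  have h5 := Finset.card_erase_add_one hb'
  have h6 := Finset.card_erase_add_one ha
  have h7 : c.wt (URecvT c t' S a) S = 1 := if_pos sa
  have h8 : c.wt (URecvT c t' S b) S = 1 := if_pos sb
  omega

end Ctx

end SC
end

-- merged part: Pool.Agent.Work.MP_8a5de9_co.URec
section
/-!
# The recurrence for `k ≥ 3` and its solution

`PC_weight`: sum `recv_weight` over the fibres of `q ↦ (q.2.1, recv ..)`; note `q.2.1 ∈ R`.
`recur`: sum `wt_sum` over `Tup R k`; every pair `(t, i)`, `i ∈ supp t.2`, lies in `PA`, in `PB`, or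
extends to a triple in `PC` (`exists_slide`, `Slide.cases`, `recv_mem`); weights are at most `2`.
For `S ∈ R` the set `Tup (R.erase S) k` contains the `t ∈ Tup R k` with `S ∉ t.1` (`Good.mono`), and
`∑ S ∈ R, ∑ t ∈ Tup R k with S ∉ t.1, cap t = (|R| - d) * Phi R k`.
`solve_rec`: induction on `|R|` with `r * C(r - 1, d - 1) = (r - d + 1) * C(r, d - 1)`.
`step`: `Phi = (2k - 2) |Tup| + 2 |TExt|`, so with `ρ = (2k - 1) / (2k - 2) ≤ 2`,
`(2k - 1) |Tup| ≥ ρ Phi - 4 |TExt|`; use `solve_rec` with `δ = 1 / (2k - 2)`, `ext_le`, `out_card`.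
-/

open Set Filter Topology Metric

namespace SC

variable {E ι μ : Type} [NormedAddCommGroup E] [NormedSpace ℝ E] [FiniteDimensional ℝ E]
  [Fintype ι] [DecidableEq ι] [Fintype μ] [DecidableEq μ]



theorem solve_rec {d : ℕ} (hd : 1 ≤ d) (f : Finset ι → ℝ) {δ K : ℝ} (hδ : 0 < δ) (hK : 0 ≤ K)
    (h0 : ∀ R, R.card < d → f R = 0)
    (h : ∀ R, d ≤ R.card → ((R.card : ℝ) - d + 1 + δ) * f R ≤
      ∑ S ∈ R, f (R.erase S) + K * R.card.choose (d - 1)) (R : Finset ι) :
    f R ≤ K / δ * R.card.choose (d - 1) := by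
  have hnn : ∀ R : Finset ι, 0 ≤ K / δ * R.card.choose (d - 1) := fun R => by positivity
  induction hr : R.card generalizing R with
  | zero => rw [← hr, h0 R (by omega)]; exact hnn R
  | succ r ih =>
    rw [← hr]
    by_cases hlt : R.card < d
    · rw [h0 R hlt]
      exact hnn R
    have hle : d ≤ R.card := not_lt.1 hlt
    have h1 : ∑ S ∈ R, f (R.erase S) ≤ R.card • (K / δ * r.choose (d - 1)) :=
      Finset.sum_le_card_nsmul _ _ _ fun S hS => ih _ (by rw [Finset.card_erase_of_mem hS, hr]; rfl)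
    have h2 : (r.choose (d - 1) : ℝ) * R.card = R.card.choose (d - 1) * ((R.card : ℝ) - d + 1) := by
      have h3 := congrArg (Nat.cast : ℕ → ℝ) (Nat.choose_mul_succ_eq r (d - 1))
      rw [← hr, Nat.cast_mul, Nat.cast_mul, Nat.cast_sub (by omega), Nat.cast_sub hd] at h3
      rw [h3]
      push_cast
      ring
    have h4 : (0 : ℝ) < (R.card : ℝ) - d + 1 + δ := by
      have : (d : ℝ) ≤ R.card := Nat.cast_le.2 hle
      linarith
    refine le_of_mul_le_mul_left ((h R hle).trans ?_) h4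
    have h5 : ((R.card : ℝ) - d + 1 + δ) * (K / δ * R.card.choose (d - 1)) =
        K / δ * (r.choose (d - 1) * R.card) + K * R.card.choose (d - 1) := by
      rw [h2]
      field_simp
    rw [h5]
    rw [nsmul_eq_mul] at h1
    linarith

/-- The loss in one step. -/
def kstep (d m : ℕ) : ℕ := 4 * d + 4 * 3 ^ d * 2 ^ ((m + 1) * d) + 4 * kext d m

namespace Ctx

variable (c : Ctx E ι μ)

/-- The potential. -/
noncomputable def Phi (R : Finset ι) (k : ℕ) : ℕ := ∑ t ∈ c.Tup R k, c.cap k t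

theorem PC_weight (R : Finset ι) (k : ℕ) : ∑ q ∈ c.PC R k, c.wt q.1 q.2.1 ≤
    ∑ S ∈ R, ∑ t ∈ c.Tup (R.erase S) k \ c.Tup R k, c.cap k t := by
  classical
  have h1 : ∀ q ∈ c.PC R k, q.2.1 ∈ R := fun q hq => by
    obtain ⟨h2, h3, -⟩ := Finset.mem_filter.1 hq
    obtain ⟨h4, -, h5, -⟩ := mem_Tup.1 (Finset.mem_product.1 h2).1
    exact h4 (h5 (mem_supp.2 h3))
  rw [← Finset.sum_fiberwise_of_maps_to h1]
  refine Finset.sum_le_sum fun S _ => ?_
  have h2 : ∀ q ∈ (c.PC R k).filter fun q => q.2.1 = S,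
      c.recv q.1 q.2.1 q.2.2 ∈ c.Tup (R.erase S) k \ c.Tup R k := fun q hq => by
    obtain ⟨h3, rfl⟩ := Finset.mem_filter.1 hq
    obtain ⟨-, -, -, -, h4⟩ := Finset.mem_filter.1 h3
    exact Finset.mem_sdiff.2 h4
  rw [← Finset.sum_fiberwise_of_maps_to h2]
  refine Finset.sum_le_sum fun t _ => ?_
  rw [Finset.filter_filter]
  convert recv_weight (c := c) R k t S

theorem recur (R : Finset ι) {k : ℕ} (hk : 2 ≤ k) :
    (2 * k + 1) * (c.Tup R (k + 1)).card + (R.card - c.d) * c.Phi R (k + 1) ≤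
      ∑ S ∈ R, c.Phi (R.erase S) (k + 1) + 4 * c.d * (c.Tup R k).card +
        4 * 3 ^ c.d * (c.OutS R).card := by
  classical
  have hw : ∀ (t : Tu ι) (i : ι), c.wt t i ≤ 2 := fun t i => by
    unfold wt
    split_ifs <;> omega
  have h1 : (2 * k + 1) * (c.Tup R (k + 1)).card ≤
      ∑ q ∈ (c.Tup R (k + 1) ×ˢ Finset.univ).filter fun q : Tu ι × ι => q.1.2 q.2 ≠ 0,
        c.wt q.1 q.2 := by
    rw [Finset.sum_filter, Finset.sum_product, mul_comm, ← smul_eq_mul]
    refine Finset.card_nsmul_le_sum _ _ _ fun t ht => ?_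
    have h2 := (mem_Tup.1 ht).2.2.2.1
    have h3 := wt_sum (c := c) (t := t) (by omega)
    rw [h2, supp, Finset.sum_filter] at h3
    exact le_trans (by omega) h3
  have h2 : ((c.Tup R (k + 1) ×ˢ Finset.univ).filter fun q : Tu ι × ι => q.1.2 q.2 ≠ 0) ⊆
      c.PA R (k + 1) ∪ c.PB R (k + 1) ∪ (c.PC R (k + 1)).image fun q => (q.1, q.2.1) := by
    rintro ⟨t, i⟩ hq
    obtain ⟨h3, h4⟩ := Finset.mem_filter.1 hq
    have ht := (Finset.mem_product.1 h3).1
    obtain ⟨h5, h6, h7, -⟩ := mem_Tup.1 ht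
    by_cases hg : c.Good R (c.vtx t.1) (Function.update t.2 i (-t.2 i))
    · exact Finset.mem_union_left _ (Finset.mem_union_left _ (Finset.mem_filter.2 ⟨h3, h4, hg⟩))
    obtain ⟨v', hv⟩ := exists_slide h5 h6 (h7 (mem_supp.2 h4)) h4
    rcases hv.cases h5 h6 (h7 (mem_supp.2 h4)) h4 with h8 | ⟨j, hj, hj', hI, e⟩
    · exact Finset.mem_union_left _
        (Finset.mem_union_right _ (Finset.mem_filter.2 ⟨h3, h4, v', hv, h8⟩))
    · exact Finset.mem_union_right _
        (Finset.mem_image.2 ⟨(t, i, j), recv_mem ht h4 hg hv hj hj' hI e, rfl⟩)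
  have h3 := Finset.sum_le_sum_of_subset (f := fun q : Tu ι × ι => c.wt q.1 q.2) h2
  have h4 := Finset.sum_union_inter (s₁ := c.PA R (k + 1) ∪ c.PB R (k + 1))
    (s₂ := (c.PC R (k + 1)).image fun q => (q.1, q.2.1)) (f := fun q : Tu ι × ι => c.wt q.1 q.2)
  have h5 : ∑ q ∈ c.PA R (k + 1) ∪ c.PB R (k + 1), c.wt q.1 q.2 ≤
      ((c.PA R (k + 1)).card + (c.PB R (k + 1)).card) * 2 :=
    (Finset.sum_le_card_nsmul _ _ 2 fun q _ => hw q.1 q.2).trans
      (Nat.mul_le_mul_right 2 (Finset.card_union_le _ _))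
  have h6 : ∑ q ∈ (c.PC R (k + 1)).image fun q => (q.1, q.2.1), c.wt q.1 q.2 ≤
      ∑ q ∈ c.PC R (k + 1), c.wt q.1 q.2.1 :=
    Finset.sum_image_le_of_nonneg fun _ _ => Nat.zero_le _
  have h7 := c.PC_weight R (k + 1)
  have h8 : (R.card - c.d) * c.Phi R (k + 1) ≤
      ∑ S ∈ R, ∑ t ∈ c.Tup (R.erase S) (k + 1) ∩ c.Tup R (k + 1), c.cap (k + 1) t := by
    calc _ = ∑ t ∈ c.Tup R (k + 1), ∑ S ∈ R, if S ∉ t.1 then c.cap (k + 1) t else 0 := by
          rw [Phi, Finset.mul_sum]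
          refine Finset.sum_congr rfl fun t ht => ?_
          obtain ⟨h9, h10, -⟩ := mem_Tup.1 ht
          rw [← Finset.sum_filter, Finset.sum_const, smul_eq_mul, ← Finset.sdiff_eq_filter,
            Finset.card_sdiff_of_subset h9, h10.1]
      _ = ∑ S ∈ R, ∑ t ∈ (c.Tup R (k + 1)).filter fun t => S ∉ t.1, c.cap (k + 1) t := by
          rw [Finset.sum_comm]
          exact Finset.sum_congr rfl fun S _ => (Finset.sum_filter _ _).symm
      _ ≤ _ := by
          refine Finset.sum_le_sum fun S _ => Finset.sum_le_sum_of_subset fun t ht => ?_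
          obtain ⟨h9, h10⟩ := Finset.mem_filter.1 ht
          obtain ⟨a1, a2, a3, a4, a5⟩ := mem_Tup.1 h9
          exact Finset.mem_inter.2 ⟨mem_Tup.2 ⟨Finset.subset_erase.2 ⟨a1, h10⟩, a2, a3, a4,
            a5.mono (Finset.erase_subset _ _)⟩, h9⟩
  have h9 : ∑ S ∈ R, c.Phi (R.erase S) (k + 1) =
      ∑ S ∈ R, ∑ t ∈ c.Tup (R.erase S) (k + 1) ∩ c.Tup R (k + 1), c.cap (k + 1) t +
        ∑ S ∈ R, ∑ t ∈ c.Tup (R.erase S) (k + 1) \ c.Tup R (k + 1), c.cap (k + 1) t := by
    rw [← Finset.sum_add_distrib]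
    exact Finset.sum_congr rfl fun S _ => (Finset.sum_inter_add_sum_sdiff _ _ _).symm
  have h10 := PA_card (c := c) R k
  have h11 := PB_card (c := c) R (k + 1)
  have e1 : 4 * c.d * (c.Tup R k).card = 2 * c.d * (c.Tup R k).card * 2 := by ring
  have e2 : 4 * 3 ^ c.d * (c.OutS R).card = 2 * 3 ^ c.d * (c.OutS R).card * 2 := by ring
  omega

theorem URec_Phi (R : Finset ι) (k : ℕ) :
    c.Phi R (k + 1) = 2 * k * (c.Tup R (k + 1)).card + 2 * (c.TExt R (k + 1)).card := by
  classical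
  rw [Phi, TExt, Finset.card_filter, Finset.mul_sum, mul_comm (2 * k), ← smul_eq_mul,
    ← Finset.sum_const, ← Finset.sum_add_distrib]
  refine Finset.sum_congr rfl fun t _ => ?_
  unfold cap
  split_ifs <;> omega

theorem step {k K : ℕ} (hk : 2 ≤ k) (hK : 1 ≤ K)
    (h : ∀ R : Finset ι, (c.Tup R k).card ≤ K * R.card.choose (c.d - 1)) (R : Finset ι) :
    (c.Tup R (k + 1)).card ≤
      kstep c.d (Fintype.card μ) * K * R.card.choose (c.d - 1) := by
  have hk0 : (0 : ℝ) < 2 * k := by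
    have : (2 : ℝ) ≤ k := Nat.cast_le.2 hk
    linarith
  have hk1 : (1 : ℝ) / (2 * k) ≤ 1 := by
    have : (2 : ℝ) ≤ k := Nat.cast_le.2 hk
    rw [div_le_one hk0]
    linarith
  have key := solve_rec (d := c.d) (by have := c.d3; omega) (fun R => (c.Phi R (k + 1) : ℝ))
    (δ := 1 / (2 * k)) (K := (kstep c.d (Fintype.card μ) * K : ℕ)) (by positivity)
    (Nat.cast_nonneg _) (fun R hR => by simp [Phi, tup_empty hR]) (fun R hR => by
      have h1 := c.recur R hk
      have h2 := h R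
      have h3 := c.out_card (R := R) (by omega)
      have h4 := c.ext_le R (k + 1)
      have h5 : (2 * k + 1) * (c.Tup R (k + 1)).card + 4 * (c.TExt R (k + 1)).card +
          (R.card - c.d) * c.Phi R (k + 1) ≤ ∑ S ∈ R, c.Phi (R.erase S) (k + 1) +
            kstep c.d (Fintype.card μ) * K * R.card.choose (c.d - 1) := by
        have a1 := Nat.mul_le_mul_left (4 * c.d) h2
        have a2 := Nat.mul_le_mul_left (4 * 3 ^ c.d) h3
        have a3 := Nat.mul_le_mul_right ((4 * 3 ^ c.d * 2 ^ ((Fintype.card μ + 1) * c.d) +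
          4 * kext c.d (Fintype.card μ)) * R.card.choose (c.d - 1)) hK
        unfold kstep
        nlinarith
      have h6 := (Nat.cast_le (α := ℝ)).2 h5
      have h7 := congrArg (Nat.cast : ℕ → ℝ) (c.URec_Phi R k)
      rw [Nat.cast_add, Nat.cast_add, Nat.cast_add, Nat.cast_mul (R.card - c.d), Nat.cast_sub hR,
        Nat.cast_sum, Nat.cast_mul _ (R.card.choose (c.d - 1))] at h6
      refine le_trans ?_ h6
      have h8 : (1 / (2 * k) : ℝ) * c.Phi R (k + 1) ≤
          (c.Tup R (k + 1)).card + 2 * (c.TExt R (k + 1)).card := by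
        rw [h7]
        push_cast
        rw [mul_add, ← mul_assoc, one_div_mul_cancel hk0.ne', one_mul]
        have : (0 : ℝ) ≤ 2 * (c.TExt R (k + 1)).card := by positivity
        nlinarith
      push_cast at h7 ⊢
      nlinarith) R
  have h1 := congrArg (Nat.cast : ℕ → ℝ) (c.URec_Phi R k)
  have h2 : (2 * k : ℝ) * (c.Tup R (k + 1)).card ≤ c.Phi R (k + 1) := by
    rw [h1]
    push_cast
    have : (0 : ℝ) ≤ 2 * (c.TExt R (k + 1)).card := by positivity
    linarith
  have h3 := h2.trans key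
  rw [div_div_eq_mul_div, div_one, mul_comm _ (2 * k : ℝ), mul_assoc (2 * k : ℝ)] at h3
  exact_mod_cast le_of_mul_le_mul_left h3 hk0

theorem steps {K : ℕ} (hK : 1 ≤ K)
    (h : ∀ R : Finset ι, (c.Tup R 2).card ≤ K * R.card.choose (c.d - 1)) (R : Finset ι) :
    (c.Tup R c.d).card ≤ kstep c.d (Fintype.card μ) ^ (c.d - 2) * K * R.card.choose (c.d - 1) := by
  have hs : 1 ≤ kstep c.d (Fintype.card μ) := by
    have := c.d3
    unfold kstep
    omega
  have key : ∀ j (R : Finset ι), (c.Tup R (2 + j)).card ≤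
      kstep c.d (Fintype.card μ) ^ j * K * R.card.choose (c.d - 1) := by
    intro j
    induction j with
    | zero => simpa using h
    | succ j ih =>
      intro R
      have h1 := c.step (k := 2 + j) (by omega) (Nat.mul_pos (Nat.one_le_pow _ _ hs) hK) ih R
      rwa [← mul_assoc, ← pow_succ'] at h1
  have h1 := key (c.d - 2) R
  rwa [show 2 + (c.d - 2) = c.d by have := c.d3; omega] at h1

end Ctx

end SC
end

-- merged part: Pool.Agent.Work.MP_8a5de9_co.UFace
section
/-!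
# Faces are counted by vertices

`low_vertex`: let `f = face x`, `K = closure (f ∩ closure C)`.  `x` lies on a patch (a frontier
point of the open component `C` is not in the open set `U`), so `f` lies in this patch and `K` is
compact and nonempty.  Let `v ∈ K` minimise `z`.  If `|act v| < d` take `u` from `zgen`, a radius
`ρ` from `exists_loc` and `y ∈ f ∩ closure C` very near `v`.  Translation by `-s u` inside the ball
does not change the signs of the active equations (`Loc.same`), so the segment from `y` to `y - s u`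
stays in the stratum, hence in `f` (`IsPreconnected.subset_connectedComponentIn`); points of `C`
near `y` translate to points of `C` (`sub_C`), so `y - s u ∈ closure C`.  With `s` fixed
(`s ‖u‖ = ρ / 2`) and `y` close to `v` one gets `z (y - s u) < z v`, a contradiction.

`faces_le`: map the face `f` to `(act v, signs of the active equations at a point of f near v)`;
the set of points of the ball with these signs is convex (`convex_sign`) and lies in one stratum,
so it lies in `f`; `act v` determines `v` (`adm_uniq`), so the pair determines `f` (fix one radius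
for every `v`).  `act v` either lies in `OutS univ`, or it is `D × {none}` for an inner vertex with
`v ∈ closure C`, and then `(D, signs at a point of C near v) ∈ Tup univ d` (`good_of_mem`).
-/

open Set Filter Topology Metric

namespace SC

section same

variable {E ι μ : Type} [AddCommGroup E] [Module ℝ E] {g : ι → Option μ → E →ᵃ[ℝ] ℝ} {x y w : E}

theorem UFace_refl (g : ι → Option μ → E →ᵃ[ℝ] ℝ) (x : E) : Same g x x :=
  fun _ => ⟨Iff.rfl, fun _ _ => Iff.rfl⟩

theorem UFace_symm (h : Same g x y) : Same g y x :=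
  fun i => ⟨(h i).1.symm, fun hy l => ((h i).2 ((h i).1.2 hy) l).symm⟩

theorem UFace_trans (h : Same g x y) (h' : Same g y w) : Same g x w :=
  fun i => ⟨(h i).1.trans (h' i).1,
    fun hx l => ((h i).2 hx l).trans ((h' i).2 ((h i).1.1 hx) l)⟩

variable [TopologicalSpace E]

theorem UFace_same (h : y ∈ face g x) : Same g x y := connectedComponentIn_subset _ _ h

theorem UFace_eq (h : y ∈ face g x) : face g y = face g x := by
  have e : {w | Same g y w} = {w | Same g x w} := Set.ext fun w =>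
    ⟨UFace_trans (UFace_same h), UFace_trans (UFace_symm (UFace_same h))⟩
  rw [face, e]
  exact (connectedComponentIn_eq h).symm

theorem UFace_sub {γ : Set E} (h : y ∈ face g x) (hγ : IsPreconnected γ) (hy : y ∈ γ)
    (hs : ∀ w ∈ γ, Same g y w) : γ ⊆ face g x := by
  rw [← UFace_eq h]
  exact hγ.subset_connectedComponentIn hy hs

end same

variable {E ι μ : Type} [NormedAddCommGroup E] [NormedSpace ℝ E] [FiniteDimensional ℝ E]
  [Fintype ι] [DecidableEq ι] [Fintype μ] [DecidableEq μ]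

namespace Ctx

variable (c : Ctx E ι μ)

theorem cell_eq : cell c.g c.p = c.C Finset.univ := by
  have e : (⋃ i, patch c.g i)ᶜ = c.U Finset.univ := by
    ext x
    simp [U]
  rw [cell, e, C]

theorem UFace_patch {x : E} (hx : x ∈ frontier (c.C Finset.univ)) : ∃ i, x ∈ patch c.g i := by
  by_contra h
  have hU : x ∈ c.U Finset.univ := fun i _ hi => h ⟨i, hi⟩
  obtain ⟨r, hr, hb⟩ := Metric.isOpen_iff.1 (isOpen_U (c := c) Finset.univ) x hU
  obtain ⟨y, hy, hy'⟩ := Metric.mem_closure_iff.1 hx.1 r hr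
  refine hx.2 ?_
  rw [(isOpen_C (c := c) Finset.univ).interior_eq]
  exact sub_C (convex_ball x r).isPreconnected hb (mem_ball'.2 hy') hy (mem_ball_self hr)

theorem UFace_shift {v u : E} {ρ s : ℝ} (h : c.Loc Finset.univ v ρ)
    (hu : ∀ j ∈ c.act Finset.univ v, (c.g j.1 j.2).linear u = 0) (hs : s * ‖u‖ ≤ ρ / 2) {w : E}
    (hw : w ∈ ball v (ρ / 2)) : ∀ w' ∈ (fun t : ℝ => w - t • u) '' Icc 0 s, Same c.g w w' := by
  rintro _ ⟨t, ht, rfl⟩ i
  have h0 := h.1
  refine h.same (ball_subset_ball (by linarith) hw) ?_ (fun j hj => ?_) i (Finset.mem_univ i)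
  · rw [mem_ball] at hw ⊢
    have h1 : dist (w - t • u) w = t * ‖u‖ := by
      rw [dist_eq_norm, sub_sub_cancel_left, norm_neg, norm_smul, Real.norm_of_nonneg ht.1]
    have h2 := mul_le_mul_of_nonneg_right ht.2 (norm_nonneg u)
    linarith [dist_triangle (w - t • u) w v]
  · have e : w - t • u = (-t • u) +ᵥ w := by
      rw [vadd_eq_add, neg_smul, neg_add_eq_sub]
    beta_reduce
    rw [e, AffineMap.map_vadd, map_smul, hu j hj, smul_zero, zero_vadd]

theorem low_vertex {x : E} (hx : x ∈ frontier (c.C Finset.univ)) :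
    ∃ v ∈ closure (face c.g x), v ∈ closure (c.C Finset.univ) ∧
      (c.act Finset.univ v).card = c.d := by
  have := FiniteDimensional.proper_real E
  obtain ⟨i, hi⟩ := c.UFace_patch hx
  have hS : face c.g x ∩ closure (c.C Finset.univ) ⊆ patch c.g i :=
    fun y hy => (UFace_same hy.1 i).1.1 hi
  obtain ⟨v, hv, hmin⟩ := ((c.bdd i).subset hS).isCompact_closure.exists_isMinOn
    ⟨x, subset_closure ⟨mem_connectedComponentIn (UFace_refl _ x), hx.1⟩⟩ c.z_cont.continuousOn
  refine ⟨v, closure_mono inter_subset_left hv,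
    closure_minimal inter_subset_right isClosed_closure hv, ?_⟩
  by_contra hne
  obtain ⟨u, hz, hu⟩ := c.zgen _ v (adm_act Finset.univ v)
    (lt_of_le_of_ne (c.card_le (adm_act Finset.univ v)) hne)
  obtain ⟨ρ, hρ⟩ := exists_loc (c := c) Finset.univ v
  have h0 := hρ.1
  have hn := norm_nonneg u
  obtain ⟨s, hs0, hs⟩ : ∃ s : ℝ, 0 < s ∧ s * ‖u‖ ≤ ρ / 2 := by
    refine ⟨ρ / 2 / (‖u‖ + 1), by positivity, ?_⟩
    rw [div_mul_eq_mul_div, div_le_iff₀ (by positivity)]
    nlinarith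
  have hO : IsOpen (ball v (ρ / 2) ∩ {y | c.z y < c.z v + s}) :=
    isOpen_ball.inter (isOpen_lt c.z_cont continuous_const)
  obtain ⟨y, ⟨hy1, hy2⟩, hy3, hy4⟩ := mem_closure_iff.1 hv _ hO
    ⟨mem_ball_self (by linarith), by simpa using hs0⟩
  have hγ : ∀ w : E, IsPreconnected ((fun t : ℝ => w - t • u) '' Icc 0 s) := fun w =>
    isPreconnected_Icc.image _ (by fun_prop)
  have hm0 : ∀ w : E, w ∈ (fun t : ℝ => w - t • u) '' Icc 0 s := fun w =>
    ⟨0, ⟨le_rfl, hs0.le⟩, by simp⟩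
  have hm1 : ∀ w : E, w - s • u ∈ (fun t : ℝ => w - t • u) '' Icc 0 s := fun w =>
    ⟨s, ⟨hs0.le, le_rfl⟩, rfl⟩
  have h1 : y - s • u ∈ face c.g x :=
    UFace_sub hy3 (hγ y) (hm0 y) (c.UFace_shift hρ hu hs hy1) (hm1 y)
  have h2 : y - s • u ∈ closure (c.C Finset.univ) := by
    refine map_mem_closure (f := fun w => w - s • u) (by fun_prop)
      (isOpen_ball.inter_closure ⟨hy1, hy4⟩) fun w hw => ?_
    refine sub_C (hγ w) (fun w' hw' j hj hp => ?_) (hm0 w) hw.2 (hm1 w)
    exact C_sub _ hw.2 j hj ((c.UFace_shift hρ hu hs hw.1 w' hw' j).1.2 hp)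
  have h3 : c.z v ≤ c.z (y - s • u) := hmin (subset_closure ⟨h1, h2⟩)
  rw [map_sub, map_smul, hz, smul_eq_mul, mul_one] at h3
  have h4 : c.z y < c.z v + s := hy2
  linarith

theorem UFace_vertex {v : E} (hv : v ∈ closure (c.C Finset.univ))
    (hd : (c.act Finset.univ v).card = c.d) : c.act Finset.univ v ∈ c.OutS Finset.univ ∪
      (c.Tup Finset.univ c.d).image fun t => t.1.image fun i => (i, none) := by
  classical
  by_cases ho : ∃ j ∈ c.act Finset.univ v, j.2 ≠ none
  · exact Finset.mem_union_left _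
      (mem_OutS.2 ⟨fun _ _ => Finset.mem_univ _, hd, ⟨v, adm_act _ v⟩, ho⟩)
  push Not at ho
  obtain ⟨D, hD⟩ : ∃ D : Finset ι, ∀ i, i ∈ D ↔ v ∈ patch c.g i :=
    ⟨Finset.univ.filter fun i => v ∈ patch c.g i, by simp⟩
  have e : (D.image fun i => (i, (none : Option μ))) = c.act Finset.univ v := by
    ext j
    rw [Finset.mem_image]
    constructor
    · rintro ⟨i, hi, rfl⟩
      exact mem_act.2 ⟨Finset.mem_univ _, (hD i).1 hi, ((hD i).1 hi).1⟩
    · exact fun hj => ⟨j.1, (hD _).2 (mem_act.1 hj).2.1, Prod.ext rfl (ho j hj).symm⟩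
  have hc : D.card = c.d := by
    rw [← (adm_hyp (c := c) fun i hi => ((hD i).1 hi).1).2, e, hd]
  obtain ⟨hI, hx⟩ := inner_of_mem hc fun i hi => (hD i).1 hi
  have hOn := hI.on (Finset.subset_univ D)
  rw [hx] at hOn
  obtain ⟨ρ, hρ⟩ := exists_loc (c := c) Finset.univ v
  obtain ⟨y, hy, hy'⟩ := Metric.mem_closure_iff.1 hv ρ hρ.1
  have h1 := (hρ.mem_U hOn (mem_ball'.2 hy')).1 (C_sub _ hy)
  have h2 : supp (fun i => if i ∈ D then SignType.sign (c.g i none y) else 0) = D := by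
    ext i
    rw [mem_supp]
    by_cases hi : i ∈ D
    · simpa [hi] using h1 i hi
    · simp [hi]
  refine Finset.mem_union_right _ (Finset.mem_image.2
    ⟨(D, fun i => if i ∈ D then SignType.sign (c.g i none y) else 0), mem_Tup.2
      ⟨Finset.subset_univ _, hI, h2.le, by rw [h2, hc], ?_⟩, e⟩)
  rw [hx]
  refine good_of_mem hρ hOn h2 (mem_ball'.2 hy') (fun i hi => ?_) hy
  by_cases hi' : i ∈ D
  · simp [hi']
  · simp [hi'] at hi

theorem faces_le : (face c.g '' frontier (cell c.g c.p)).encard ≤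
    (3 ^ c.d * ((c.OutS Finset.univ).card + (c.Tup Finset.univ c.d).card) : ℕ) := by
  choose r hr using exists_loc (c := c) Finset.univ
  set 𝒜 := (c.OutS Finset.univ ∪ (c.Tup Finset.univ c.d).image
    fun t => t.1.image fun i => (i, none)).filter fun A => A.card = c.d with h𝒜
  set P := 𝒜.biUnion fun A => (Finset.univ.filter
    fun s : ι × Option μ → SignType => supp s ⊆ A).image (Prod.mk A) with hP
  have hcard : P.card ≤ 3 ^ c.d * ((c.OutS Finset.univ).card + (c.Tup Finset.univ c.d).card) := by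
    rw [mul_comm]
    refine (Finset.card_biUnion_le_card_mul _ _ (3 ^ c.d) fun A hA => ?_).trans
      (Nat.mul_le_mul_right _ ?_)
    · rw [← (Finset.mem_filter.1 hA).2]
      exact Finset.card_image_le.trans (card_supp_le A)
    · exact (Finset.card_filter_le _ _).trans ((Finset.card_union_le _ _).trans
        (Nat.add_le_add_left Finset.card_image_le _))
  have key : ∀ F ∈ face c.g '' frontier (cell c.g c.p), ∃ p ∈ P, ∃ v y,
      c.act Finset.univ v = p.1 ∧ p.1.card = c.d ∧ face c.g y = F ∧ y ∈ ball v (r v) ∧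
        ∀ j ∈ p.1, SignType.sign (c.g j.1 j.2 y) = p.2 j := by
    rintro _ ⟨x, hx, rfl⟩
    rw [cell_eq] at hx
    obtain ⟨v, h1, h2, h3⟩ := c.low_vertex hx
    obtain ⟨y, hy, hy'⟩ := Metric.mem_closure_iff.1 h1 (r v) (hr v).1
    refine ⟨(c.act Finset.univ v, fun j => if j ∈ c.act Finset.univ v then
      SignType.sign (c.g j.1 j.2 y) else 0), Finset.mem_biUnion.2 ⟨_, Finset.mem_filter.2
      ⟨c.UFace_vertex h2 h3, h3⟩, Finset.mem_image_of_mem _ (Finset.mem_filter.2
      ⟨Finset.mem_univ _, fun j hj => ?_⟩)⟩, v, y, rfl, h3, UFace_eq hy, mem_ball'.2 hy',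
      fun j hj => (if_pos hj).symm⟩
    by_contra hj'
    exact mem_supp.1 hj (if_neg hj')
  choose! φ hφ hφ' using key
  refine (Set.encard_le_encard_of_injOn (s := face c.g '' frontier (cell c.g c.p))
    (t := (P : Set _)) (f := φ) (fun F hF => Finset.mem_coe.2 (hφ F hF))
    fun F hF F' hF' e => ?_).trans ?_
  · obtain ⟨v, y, a1, a2, a3, a4, a5⟩ := hφ' F hF
    obtain ⟨v', y', b1, -, b3, b4, b5⟩ := hφ' F' hF'
    rw [← e] at b1 b5
    obtain rfl : v = v' := c.adm_uniq (a1 ▸ adm_act Finset.univ v) a2 (b1 ▸ adm_act Finset.univ v')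
    rw [← a3, ← b3]
    refine (UFace_eq (UFace_sub (mem_connectedComponentIn (UFace_refl _ y))
      ((convex_ball v (r v)).inter (convex_sign (c := c) (φ F).1 (φ F).2)).isPreconnected
      ⟨a4, a5⟩ (fun w hw i => ?_) ⟨b4, b5⟩)).symm
    refine (hr v).same a4 hw.1 (fun j hj => ?_) i (Finset.mem_univ i)
    rw [a1] at hj
    rw [a5 j hj, hw.2 j hj]
  · rw [Set.encard_coe_eq_coe_finsetCard]
    exact_mod_cast hcard

end Ctx

end SC
end

end
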